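import Pool.Agent.MP_943ae2_gt.Defs

section

/-! The target statement and the data from which the surface is assembled. -/

open Set Complex
open scoped Topology ComplexConjugate ContDiff Manifold

noncomputable section

namespace Pool.Agent.MP_943ae2_gt

def Final : Prop :=
  ∃ (M : Type) (_ : TopologicalSpace M) (_ : ChartedSpace E2 M) (_ : IsManifold (𝓡 2) ∞ M)
    (_ : T2Space M) (_ : ConnectedSpace M) (f : M → E3),
    IsMinimal f ∧ Topology.IsEmbedding f ∧ (∀ K, IsCompact K → IsCompact (f ⁻¹' K)) ∧ TwoEnds M ∧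
    ∃ u : M → ℝ, ContMDiff (𝓡 2) 𝓘(ℝ, ℝ) ∞ u ∧ (∀ p, 0 < u p) ∧ (∀ p, lapBel f u p ≤ 0) ∧
      ∃ p q, u p ≠ u q

/-- the point with horizontal part `z` and height `h` -/
def mk3 (z : ℂ) (h : ℝ) : E3 := !₂[z.re, z.im, h]

def toC (x : E2) : ℂ := ⟨x 0, x 1⟩

def toE2 (z : ℂ) : E2 := !₂[z.re, z.im]

/-- the differential of the Weierstrass representation with spinors `a`, `b` -/
def Wei (X : ℂ → E3) (a b z : ℂ) : Prop :=
  ∃ L : ℂ →L[ℝ] E3, HasFDerivAt X L z ∧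
    ∀ v, L v = mk3 (a ^ 2 * v - conj (b ^ 2 * v)) (2 * (a * b * v).re)

/-- smooth and superharmonic on a set -/
def SupOn (u : ℂ → ℝ) (U : Set ℂ) : Prop :=
  ∀ z ∈ U, ContDiffAt ℝ ∞ u z ∧ Laplacian.laplacian u z ≤ 0

structure Atlas where
  U : ℕ → Set ℂ
  Ub : ℕ → Set ℂ
  X : ℕ → ℂ → E3
  a : ℕ → ℂ → ℂ
  b : ℕ → ℂ → ℂ
  u : ℕ → ℂ → ℝ
  opn : ∀ k, IsOpen (U k)
  cls : ∀ k, IsClosed (Ub k)
  sub : ∀ k, Ub k ⊆ U k
  hol_a : ∀ k, DifferentiableOn ℂ (a k) (U k)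
  hol_b : ∀ k, DifferentiableOn ℂ (b k) (U k)
  a_ne : ∀ k, ∀ z ∈ U k, a k z ≠ 0
  wei : ∀ k, ∀ z ∈ U k, Wei (X k) (a k z) (b k z) z
  cover : ∀ k, ∀ z ∈ U k, ∃ k', ∃ z' ∈ Ub k', X k' z' = X k z
  inj : ∀ k, InjOn (X k) (U k)
  rel : ∀ k k', ∀ z ∈ U k, ∀ z' ∈ U k', X k z = X k' z' →
    ∃ φ : ℂ → ℂ, ContDiffAt ℝ ∞ φ z ∧ φ z = z' ∧ ∀ᶠ y in 𝓝 z, X k' (φ y) = X k y
  proper : ∀ R : ℝ, ∃ K : ℕ, ∀ k, ∀ z ∈ Ub k, ‖X k z‖ ≤ R → k ≤ K ∧ ‖z‖ ≤ K
  conn : ∀ k, IsPreconnected (Ub k)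
  link : ∀ k, ∃ z ∈ Ub k, ∃ z' ∈ Ub (k + 1), X k z = X (k + 1) z'
  far : ∀ k, ∃ R : ℝ, ∀ z, R ≤ ‖z‖ → z ∈ Ub k ∧ ∀ k', ∀ z' ∈ U k', X k' z' = X k z → k' = k
  u_sup : ∀ k, SupOn (u k) (U k)
  u_pos : ∀ k, ∀ z ∈ U k, 0 < u k z
  u_rel : ∀ k k', ∀ z ∈ U k, ∀ z' ∈ U k', X k z = X k' z' → u k z = u k' z'
  u_nc : ∃ k, ∃ z ∈ U k, ∃ z' ∈ U k, u k z ≠ u k z'

/-- the surface as a subset of `ℝ³` -/
def Atlas.S (A : Atlas) : Set E3 := ⋃ k, A.X k '' A.U k

/-- the charts of `M` are the parametrisations of the atlas -/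
def Atlas.Charts (A : Atlas) {M : Type} [TopologicalSpace M] [ChartedSpace E2 M] (f : M → E3) :
    Prop :=
  ∀ p : M, ∃ k, ∃ z ∈ A.U k, ctr p = toE2 z ∧ f p = A.X k z ∧
    ∀ᶠ y in 𝓝 (ctr p), loc f p y = A.X k (toC y)

end Pool.Agent.MP_943ae2_gt

end
end

section

/-! Planes (layers `k = 0, 1, ...`) joined by catenoidal necks: the abstract configuration, the
spinors, their residues and primitives, the parametrisations. A neck `ν` joins the layers `gap ν`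
and `gap ν + 1`; a side is a pair `(ν, false)` (lower layer) or `(ν, true)` (upper layer). -/

open Set Complex Filter
open scoped Topology ComplexConjugate ContDiff

noncomputable section

namespace Pool.Agent.MP_943ae2_gt

/-- the fixed combinatorial data and the scales -/
structure Frm (ι : Type) where
  gap : ι → ℕ
  t : ι → ℝ
  T : ℕ → ℝ
  sides : ℕ → Finset (ι × Bool)
  mem_sides : ∀ k e, e ∈ sides k ↔ gap e.1 + (if e.2 then 1 else 0) = k

/-- the continuous data: positions of the sides, neck parameters -/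
abbrev Dat (ι : Type) := (ι × Bool → ℂ) × (ι → ℂ)

abbrev Spin (ι : Type) := (ι × Bool → ℂ → ℂ) × (ι × Bool → ℂ → ℂ)

variable {ι : Type}

def opp (e : ι × Bool) : ι × Bool := (e.1, !e.2)

def tl (f : ℂ → ℂ) (x : ℂ) : ℂ := conj (f (conj x))

def Dat.pos (d : Dat ι) (e : ι × Bool) : ℂ := d.1 e

def Dat.bet (d : Dat ι) (e : ι × Bool) : ℂ := if e.2 then -conj (d.2 e.1) else d.2 e.1

/-- the point of the other layer that corresponds to `pos e + v` -/
def Dat.par (d : Dat ι) (e : ι × Bool) (v : ℂ) : ℂ := d.pos (opp e) + conj (d.bet e ^ 2 / v)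

def Dat.tA (d : Dat ι) (S : Spin ι) (μ : ι × Bool) (z : ℂ) : ℂ :=
  d.bet μ / (z - d.pos μ) * tl (S.2 (opp μ)) (d.bet μ ^ 2 / (z - d.pos μ))

def Dat.tB (d : Dat ι) (S : Spin ι) (μ : ι × Bool) (z : ℂ) : ℂ :=
  -(d.bet μ / (z - d.pos μ) * tl (S.1 (opp μ)) (d.bet μ ^ 2 / (z - d.pos μ)))

namespace Frm

variable (F : Frm ι)

def lay (e : ι × Bool) : ℕ := F.gap e.1 + (if e.2 then 1 else 0)

open Classical in
/-- the other sides on the layer of `e` -/
def oth (e : ι × Bool) : Finset (ι × Bool) := (F.sides (F.lay e)).erase e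

/-- the large radius -/
def R (e : ι × Bool) : ℝ := (F.t e.1)⁻¹ ^ 16

/-- the truncation radius -/
def Rs (e : ι × Bool) : ℝ := (F.t e.1)⁻¹ ^ 12

structure Adm (d : Dat ι) : Prop where
  t_pos : ∀ ν, 0 < F.t ν
  T_le : ∀ k, F.T k ≤ 1 / 1000
  T_pos : ∀ k, 0 < F.T k
  T_anti : Antitone F.T
  t_le : ∀ e, F.t e.1 ≤ F.T (F.lay e)
  t_ge : ∀ e, Real.exp (-(F.T (F.lay e))⁻¹) ≤ F.t e.1
  card : ∀ k, ((F.sides k).card : ℝ) ≤ (F.T k)⁻¹
  b_ge : ∀ e, F.t e.1 ≤ ‖d.bet e‖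
  b_le : ∀ e, ‖d.bet e‖ ≤ (F.T (F.lay e))⁻¹
  b_real : ∀ ν, ‖d.2 ν - ‖d.2 ν‖‖ ≤ F.t ν ^ 20
  pos_le : ∀ e, ‖d.pos e‖ ≤ Real.exp (F.T (F.lay e))⁻¹
  pq : ∀ e, ‖d.pos e - d.pos (opp e)‖ ≤ (F.t e.1)⁻¹ ^ 3
  sep : ∀ e, ∀ μ ∈ F.oth e, 8 * F.R e ≤ ‖d.pos e - d.pos μ‖
  lam : ∀ e, ∑ μ ∈ F.oth e, ‖d.bet μ‖ / ‖d.pos e - d.pos μ‖ ≤ F.t e.1 ^ 30
  ne : ∀ k, ∃ ν, F.gap ν = k

variable (d : Dat ι)

def step (S : Spin ι) : Spin ι :=
  (fun e v => 1 + ∑ μ ∈ F.oth e, d.tA S μ (d.pos e + v),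
    fun e v => ∑ μ ∈ F.oth e, d.tB S μ (d.pos e + v))

def iter (n : ℕ) : Spin ι := (F.step d)^[n] (fun _ _ => 1, fun _ _ => 0)

/-- the regular parts of the two spinors at the sides -/
def spin : Spin ι :=
  (fun e v => limUnder atTop fun n => (F.iter d n).1 e v,
    fun e v => limUnder atTop fun n => (F.iter d n).2 e v)

def a (k : ℕ) (z : ℂ) : ℂ := 1 + ∑ μ ∈ F.sides k, d.tA (F.spin d) μ z

def b (k : ℕ) (z : ℂ) : ℂ := ∑ μ ∈ F.sides k, d.tB (F.spin d) μ z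

/-- where the spinors are holomorphic -/
def Big (k : ℕ) : Set ℂ := {z | ∀ e ∈ F.sides k, ‖d.bet e‖ ^ 2 / (4 * F.R e) < ‖z - d.pos e‖}

def U (k : ℕ) : Set ℂ := {z | ∀ e ∈ F.sides k, ‖d.bet e‖ ^ 2 / F.R e < ‖z - d.pos e‖}

def Ub (k : ℕ) : Set ℂ := {z | ∀ e ∈ F.sides k, ‖d.bet e‖ ≤ ‖z - d.pos e‖}

def Far (k : ℕ) : Set ℂ := {z | ∀ e ∈ F.sides k, F.Rs e ≤ ‖z - d.pos e‖}

/-- radius of the contour -/
def sr (e : ι × Bool) : ℝ := ‖d.bet e‖ ^ 2 / (2 * F.R e)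

def res (f : ℂ → ℂ) (e : ι × Bool) : ℂ :=
  (2 * Real.pi * I)⁻¹ * ∮ ζ in C(d.pos e, F.sr d e), f ζ

/-- primitive of the principal part without its residue term -/
def prim (f : ℂ → ℂ) (e : ι × Bool) (z : ℂ) : ℂ :=
  (2 * Real.pi * I)⁻¹ *
    ∮ ζ in C(d.pos e, F.sr d e), f ζ * Complex.log (1 - (ζ - d.pos e) / (z - d.pos e))

def aa (k : ℕ) (z : ℂ) : ℂ := F.a d k z ^ 2
def ab (k : ℕ) (z : ℂ) : ℂ := F.a d k z * F.b d k z
def bb (k : ℕ) (z : ℂ) : ℂ := F.b d k z ^ 2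

def ra (e : ι × Bool) : ℂ := F.res d (F.aa d (F.lay e)) e
def rab (e : ι × Bool) : ℂ := F.res d (F.ab d (F.lay e)) e
def rb (e : ι × Bool) : ℂ := F.res d (F.bb d (F.lay e)) e

/-- horizontal part of the parametrisation of layer `k` -/
def H (k : ℕ) (z : ℂ) : ℂ :=
  z + ∑ e ∈ F.sides k, (F.prim d (F.aa d k) e z - conj (F.prim d (F.bb d k) e z) +
    2 * F.ra d e * (Real.log ‖z - d.pos e‖ : ℝ))

/-- half the height, up to a constant -/
def h0 (k : ℕ) (z : ℂ) : ℝ :=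
  ∑ e ∈ F.sides k, ((F.prim d (F.ab d k) e z).re + (F.rab d e).re * Real.log ‖z - d.pos e‖)

def X (C : ℕ → ℝ) (k : ℕ) (z : ℂ) : E3 := mk3 (F.H d k z) (2 * (C k + F.h0 d k z))

def Jh (e : ι × Bool) : ℂ := Real.circleAverage (F.H d (F.lay e)) (d.pos e) ‖d.bet e‖

def J3 (e : ι × Bool) : ℝ := Real.circleAverage (F.h0 d (F.lay e)) (d.pos e) ‖d.bet e‖

/-- the period problem is solved -/
structure Sol (C : ℕ → ℝ) : Prop where
  hor : ∀ ν, conj (F.ra d (ν, false)) + F.rb d (ν, false) = 0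
  ver : ∀ ν, (F.rab d (ν, false)).im = 0
  bh : ∀ ν, F.Jh d (ν, false) = F.Jh d (ν, true)
  b3 : ∀ ν, C (F.gap ν + 1) - C (F.gap ν) = F.J3 d (ν, false) - F.J3 d (ν, true)
  sum_ra : ∀ k, ∑ e ∈ F.sides k, F.ra d e = 0

/-- the truncated model of half the height of layer `k` -/
def Ut (C : ℕ → ℝ) (k : ℕ) (z : ℂ) : ℝ :=
  C k + ∑ e ∈ F.sides k, (F.rab d e).re * Real.log (max ‖z - d.pos e‖ (F.Rs e))

/-- the layers are ordered and go to infinity -/
structure Ord (C : ℕ → ℝ) : Prop where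
  gap : ∀ k z, F.Ut d C k z + F.T (k - 1) ^ 5 ≤ F.Ut d C (k + 1) z
  up : ∀ r A : ℝ, ∃ K : ℕ, ∀ k, K ≤ k → ∀ z, ‖z‖ ≤ r → A ≤ F.Ut d C k z

/-- potentials on the layers -/
structure Pots (φ : ℕ → ℂ → ℝ) (δ : ι → ℝ) : Prop where
  δ_pos : ∀ ν, 0 < δ ν
  δ_le : ∀ ν, δ ν ≤ 1
  sup : ∀ k, SupOn (φ k) (F.U d k)
  harm : ∀ e z, 0 < ‖z - d.pos e‖ → ‖z - d.pos e‖ < 2 * F.R e →
    InnerProductSpace.HarmonicAt (φ (F.lay e)) z
  low : ∀ k, ∀ z ∈ F.U d k, 2 ≤ φ k z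
  cmp : ∀ e v, F.R e / 4 ≤ ‖v‖ → ‖v‖ ≤ F.R e →
    φ (F.lay e) (d.pos e + v) + δ e.1 ≤ φ (F.lay (opp e)) (d.par e v)
  nc : ∃ k z z', (∀ e ∈ F.sides k, F.R e ≤ ‖z - d.pos e‖ ∧ F.R e ≤ ‖z' - d.pos e‖) ∧
    φ k z ≠ φ k z'

/-- a symmetry of the combinatorial data -/
structure Perm (π : ι ≃ ι) : Prop where
  gap : ∀ ν, F.gap (π ν) = F.gap ν
  t : ∀ ν, F.t (π ν) = F.t ν

end Frm

def sd (π : ι ≃ ι) (e : ι × Bool) : ι × Bool := (π e.1, e.2)

/-- the configuration is invariant under the rotation by `u` -/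
structure Dat.Rot (d : Dat ι) (π : ι ≃ ι) (u : ℂ) : Prop where
  unit : ‖u‖ = 1
  pos : ∀ e, d.pos (sd π e) = u * d.pos e
  bet : ∀ ν, d.2 (π ν) = d.2 ν

/-- the configuration is invariant under complex conjugation -/
structure Dat.Refl (d : Dat ι) (π : ι ≃ ι) : Prop where
  pos : ∀ e, d.pos (sd π e) = conj (d.pos e)
  bet : ∀ ν, d.2 (π ν) = conj (d.2 ν)

end Pool.Agent.MP_943ae2_gt

end
end

section

/-! Elementary facts about sides. -/

open Set Complex Filter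
open scoped Topology ComplexConjugate ContDiff

noncomputable section

namespace Pool.Agent.MP_943ae2_gt

variable {ι : Type} {F : Frm ι} {d : Dat ι}

@[simp] lemma opp_opp (e : ι × Bool) : opp (opp e) = e := by simp [opp]
@[simp] lemma opp_fst (e : ι × Bool) : (opp e).1 = e.1 := rfl
@[simp] lemma opp_false (ν : ι) : opp (ν, false) = (ν, true) := rfl
@[simp] lemma opp_true (ν : ι) : opp (ν, true) = (ν, false) := rfl
@[simp] lemma R_opp (e : ι × Bool) : F.R (opp e) = F.R e := rfl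
@[simp] lemma Rs_opp (e : ι × Bool) : F.Rs (opp e) = F.Rs e := rfl
@[simp] lemma lay_false (ν : ι) : F.lay (ν, false) = F.gap ν := by simp [Frm.lay]
@[simp] lemma lay_true (ν : ι) : F.lay (ν, true) = F.gap ν + 1 := by simp [Frm.lay]
@[simp] lemma bet_false (ν : ι) : d.bet (ν, false) = d.2 ν := by simp [Dat.bet]
@[simp] lemma bet_true (ν : ι) : d.bet (ν, true) = -conj (d.2 ν) := by simp [Dat.bet]

lemma bet_opp (e : ι × Bool) : d.bet (opp e) = -conj (d.bet e) := by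
  rcases e with ⟨ν, _ | _⟩ <;> simp

@[simp] lemma norm_bet_opp (e : ι × Bool) : ‖d.bet (opp e)‖ = ‖d.bet e‖ := by simp [bet_opp]

lemma norm_bet (e : ι × Bool) : ‖d.bet e‖ = ‖d.2 e.1‖ := by rcases e with ⟨ν, _ | _⟩ <;> simp

lemma mem_sides_iff {k : ℕ} {e : ι × Bool} : e ∈ F.sides k ↔ F.lay e = k := F.mem_sides k e

lemma self_mem_sides (e : ι × Bool) : e ∈ F.sides (F.lay e) := mem_sides_iff.2 rfl

lemma mem_oth {e μ : ι × Bool} : μ ∈ F.oth e ↔ μ ≠ e ∧ F.lay μ = F.lay e := by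
  classical
  simp [Frm.oth, mem_sides_iff]

lemma oth_symm {e μ : ι × Bool} (h : μ ∈ F.oth e) : e ∈ F.oth μ :=
  mem_oth.2 ⟨(mem_oth.1 h).1.symm, (mem_oth.1 h).2.symm⟩

lemma sum_sides_split {M : Type} [AddCommMonoid M] (e : ι × Bool) (f : ι × Bool → M) :
    ∑ μ ∈ F.sides (F.lay e), f μ = f e + ∑ μ ∈ F.oth e, f μ := by
  classical
  unfold Frm.oth
  convert (Finset.add_sum_erase _ f (self_mem_sides e)).symm

lemma norm_par_sub (e : ι × Bool) (v : ℂ) : ‖d.par e v - d.pos (opp e)‖ = ‖d.bet e‖ ^ 2 / ‖v‖ := by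
  simp [Dat.par]

lemma par_par {e : ι × Bool} (hb : d.bet e ≠ 0) (v : ℂ) :
    d.par (opp e) (conj (d.bet e ^ 2 / v)) = d.pos e + v := by
  simp only [Dat.par, opp_opp, bet_opp, neg_sq, map_div₀, map_pow, conj_conj]
  rcases eq_or_ne v 0 with rfl | hv
  · simp
  · field_simp

namespace Frm.Adm

variable (h : F.Adm d)
include h

lemma t_small (ν : ι) : F.t ν ≤ 1 / 1000 := (h.t_le (ν, false)).trans (h.T_le _)

lemma bet_pos (e : ι × Bool) : 0 < ‖d.bet e‖ := (h.t_pos _).trans_le (h.b_ge e)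

lemma bet_ne (e : ι × Bool) : d.bet e ≠ 0 := norm_pos_iff.1 (h.bet_pos e)

lemma bet_le (e : ι × Bool) : ‖d.bet e‖ ≤ (F.t e.1)⁻¹ :=
  (h.b_le e).trans (inv_anti₀ (h.t_pos _) (h.t_le e))

lemma R_pos (e : ι × Bool) : 0 < F.R e := pow_pos (inv_pos.2 (h.t_pos _)) _

lemma Rs_pos (e : ι × Bool) : 0 < F.Rs e := pow_pos (inv_pos.2 (h.t_pos _)) _

lemma sr_pos (e : ι × Bool) : 0 < F.sr d e := by
  have := h.bet_pos e; have := h.R_pos e; unfold Frm.sr; positivity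

lemma sep' {e μ : ι × Bool} (hμ : μ ∈ F.oth e) : 8 * F.R μ ≤ ‖d.pos e - d.pos μ‖ := by
  rw [norm_sub_rev]; exact h.sep μ e (oth_symm hμ)

end Frm.Adm

end Pool.Agent.MP_943ae2_gt

end
end

section

open Set Complex Filter
open scoped Topology ComplexConjugate ContDiff

noncomputable section

namespace Pool.Agent.MP_943ae2_gt

open Metric

variable {ι : Type} {F : Frm ι} {d : Dat ι}

theorem tl_differentiableOn {f : ℂ → ℂ} {r : ℝ} (hf : DifferentiableOn ℂ f (ball 0 r)) :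
    DifferentiableOn ℂ (tl f) (ball 0 r) := by
  intro x hx
  have hx' : conj x ∈ ball (0 : ℂ) r := by simpa using hx
  have h1 : DifferentiableAt ℂ f (conj x) := hf.differentiableAt (isOpen_ball.mem_nhds hx')
  exact (differentiableAt_conj_conj_iff.2 h1).differentiableWithinAt

theorem sp1_open (k : ℕ) (c : ι × Bool → ℝ) :
    IsOpen {z : ℂ | ∀ e ∈ F.sides k, c e < ‖z - d.pos e‖} := by
  have e : {z : ℂ | ∀ e ∈ F.sides k, c e < ‖z - d.pos e‖} =
      ⋂ e ∈ F.sides k, {z : ℂ | c e < ‖z - d.pos e‖} := by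
    ext z; simp only [mem_ofPred_eq, mem_iInter]
  rw [e]
  exact isOpen_biInter_finset fun e _ => isOpen_lt continuous_const (by fun_prop)

theorem isOpen_Big (k : ℕ) : IsOpen (F.Big d k) := sp1_open k _

theorem isOpen_U (k : ℕ) : IsOpen (F.U d k) := sp1_open k _

theorem isClosed_Ub (k : ℕ) : IsClosed (F.Ub d k) := by
  have e : F.Ub d k = ⋂ e ∈ F.sides k, {z : ℂ | ‖d.bet e‖ ≤ ‖z - d.pos e‖} := by
    ext z; simp only [Frm.Ub, mem_ofPred_eq, mem_iInter]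
  rw [e]
  exact isClosed_biInter fun e _ => isClosed_le continuous_const (by fun_prop)

/-- the linear part of the iteration -/
def sp1Op (F : Frm ι) (d : Dat ι) (g : ι × Bool → ℂ → ℂ) (e : ι × Bool) (v : ℂ) : ℂ :=
  ∑ μ ∈ F.oth e, d.bet μ / (d.pos e + v - d.pos μ) *
    tl (g (opp μ)) (d.bet μ ^ 2 / (d.pos e + v - d.pos μ))

theorem sp1_sumA (S : Spin ι) (e : ι × Bool) (v : ℂ) :
    ∑ μ ∈ F.oth e, d.tA S μ (d.pos e + v) = sp1Op F d S.2 e v := rfl

theorem sp1_sumB (S : Spin ι) (e : ι × Bool) (v : ℂ) :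
    ∑ μ ∈ F.oth e, d.tB S μ (d.pos e + v) = -sp1Op F d S.1 e v := by
  unfold sp1Op Dat.tB
  rw [Finset.sum_neg_distrib]

theorem sp1_iterA (n : ℕ) (e : ι × Bool) (v : ℂ) :
    (F.iter d (n + 1)).1 e v = 1 + sp1Op F d (F.iter d n).2 e v := by
  unfold Frm.iter
  rw [Function.iterate_succ_apply']
  rfl

theorem sp1_iterB (n : ℕ) (e : ι × Bool) (v : ℂ) :
    (F.iter d (n + 1)).2 e v = -sp1Op F d (F.iter d n).1 e v := by
  unfold Frm.iter
  rw [Function.iterate_succ_apply']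
  exact sp1_sumB _ e v

theorem sp1_op_sub (g g' : ι × Bool → ℂ → ℂ) (e : ι × Bool) (v : ℂ) :
    sp1Op F d g e v - sp1Op F d g' e v = sp1Op F d (fun μ x => g μ x - g' μ x) e v := by
  unfold sp1Op tl
  rw [← Finset.sum_sub_distrib]
  refine Finset.sum_congr rfl fun μ _ => ?_
  rw [map_sub, mul_sub]

/-- uniform bound on the large discs -/
def Sp1Bd (F : Frm ι) (g : ι × Bool → ℂ → ℂ) (M : ℝ) : Prop :=
  ∀ e v, ‖v‖ < 4 * F.R e → ‖g e v‖ ≤ M

namespace Frm.Adm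

variable (h : F.Adm d)
include h

theorem sp1_inv (ν : ι) : 1000 ≤ (F.t ν)⁻¹ := by
  have := inv_anti₀ (h.t_pos ν) (h.t_small ν)
  simpa using this

theorem sp1_sq_le (e : ι × Bool) : ‖d.bet e‖ ^ 2 ≤ F.R e :=
  (pow_le_pow_left₀ (norm_nonneg _) (h.bet_le e) 2).trans
    (pow_le_pow_right₀ (by linarith [h.sp1_inv e.1]) (by norm_num))

theorem sp1_bet_lt (e : ι × Bool) : ‖d.bet e‖ < F.R e := by
  refine (h.bet_le e).trans_lt ?_
  have h1 : (1 : ℝ) < (F.t e.1)⁻¹ := by linarith [h.sp1_inv e.1]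
  calc (F.t e.1)⁻¹ = (F.t e.1)⁻¹ ^ 1 := (pow_one _).symm
    _ < _ := pow_lt_pow_right₀ h1 (by norm_num)

theorem sp1_one_le (e : ι × Bool) : 1 ≤ F.R e :=
  one_le_pow₀ (by linarith [h.sp1_inv e.1])

theorem sp1_div_lt (e : ι × Bool) : ‖d.bet e‖ ^ 2 / F.R e < ‖d.bet e‖ := by
  rw [div_lt_iff₀ (h.R_pos e), sq]
  exact mul_lt_mul_of_pos_left (h.sp1_bet_lt e) (h.bet_pos e)

theorem sp1_div_le (e : ι × Bool) : ‖d.bet e‖ ^ 2 / (4 * F.R e) ≤ ‖d.bet e‖ ^ 2 / F.R e :=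
  div_le_div_of_nonneg_left (sq_nonneg _) (h.R_pos e) (by linarith [h.R_pos e])

theorem sp1_t30 (ν : ι) : F.t ν ^ 30 ≤ 1 / 1000 :=
  calc F.t ν ^ 30 ≤ F.t ν ^ 1 :=
        pow_le_pow_of_le_one (h.t_pos ν).le (by linarith [h.t_small ν]) (by norm_num)
    _ ≤ 1 / 1000 := by rw [pow_one]; exact h.t_small ν

theorem Far_sub (k : ℕ) : F.Far d k ⊆ F.Ub d k := by
  intro z hz e he
  refine ((h.bet_le e).trans ?_).trans (hz e he)
  calc (F.t e.1)⁻¹ = (F.t e.1)⁻¹ ^ 1 := (pow_one _).symm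
    _ ≤ _ := pow_le_pow_right₀ (by linarith [h.sp1_inv e.1]) (by norm_num)

theorem Ub_sub (k : ℕ) : F.Ub d k ⊆ F.U d k := fun _ hz e he =>
  (h.sp1_div_lt e).trans_le (hz e he)

theorem U_sub (k : ℕ) : F.U d k ⊆ F.Big d k := fun _ hz e he =>
  (h.sp1_div_le e).trans_lt (hz e he)

theorem sp1_far {e μ : ι × Bool} (hμ : μ ∈ F.oth e) {v : ℂ} (hv : ‖v‖ ≤ 4 * F.R e) :
    ‖d.pos e - d.pos μ‖ / 2 ≤ ‖d.pos e + v - d.pos μ‖ ∧
      4 * F.R μ ≤ ‖d.pos e + v - d.pos μ‖ := by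
  have h1 := h.sep e μ hμ
  have h2 := h.sep' hμ
  have h3 : ‖d.pos e - d.pos μ‖ ≤ ‖d.pos e + v - d.pos μ‖ + ‖v‖ := by
    calc ‖d.pos e - d.pos μ‖ = ‖(d.pos e + v - d.pos μ) - v‖ := by congr 1; ring
      _ ≤ _ := norm_sub_le _ _
  constructor <;> linarith

theorem sp1_cases (e : ι × Bool) {v : ℂ} (hv : ‖v‖ ≤ 4 * F.R e) {μ : ι × Bool}
    (hμ : μ ∈ F.sides (F.lay e)) : μ = e ∨ ‖d.bet μ‖ ≤ ‖d.pos e + v - d.pos μ‖ := by
  by_cases he : μ = e
  · exact Or.inl he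
  · have := (h.sp1_far (mem_oth.2 ⟨he, mem_sides_iff.1 hμ⟩) hv).2
    exact Or.inr (by linarith [h.sp1_bet_lt μ, h.R_pos μ])

theorem mem_U (e : ι × Bool) {v : ℂ} (h1 : ‖d.bet e‖ ^ 2 / F.R e < ‖v‖) (h2 : ‖v‖ ≤ 4 * F.R e) :
    d.pos e + v ∈ F.U d (F.lay e) := by
  intro μ hμ
  rcases h.sp1_cases e h2 hμ with rfl | h3
  · rwa [add_sub_cancel_left]
  · exact (h.sp1_div_lt μ).trans_le h3

theorem mem_Big (e : ι × Bool) {v : ℂ} (h1 : ‖d.bet e‖ ^ 2 / (4 * F.R e) < ‖v‖)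
    (h2 : ‖v‖ ≤ 4 * F.R e) : d.pos e + v ∈ F.Big d (F.lay e) := by
  intro μ hμ
  rcases h.sp1_cases e h2 hμ with rfl | h3
  · rwa [add_sub_cancel_left]
  · exact ((h.sp1_div_le μ).trans_lt (h.sp1_div_lt μ)).trans_le h3

theorem mem_Ub (e : ι × Bool) {v : ℂ} (h1 : ‖d.bet e‖ ≤ ‖v‖) (h2 : ‖v‖ ≤ 4 * F.R e) :
    d.pos e + v ∈ F.Ub d (F.lay e) := by
  intro μ hμ
  rcases h.sp1_cases e h2 hμ with rfl | h3
  · rwa [add_sub_cancel_left]
  · exact h3

theorem arg_lt {e μ : ι × Bool} (hμ : μ ∈ F.oth e) {v : ℂ} (hv : ‖v‖ < 4 * F.R e) :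
    ‖d.pos e - d.pos μ‖ / 2 ≤ ‖d.pos e + v - d.pos μ‖ ∧
      ‖d.bet μ ^ 2 / (d.pos e + v - d.pos μ)‖ < 4 * F.R μ := by
  obtain ⟨h1, h2⟩ := h.sp1_far hμ hv.le
  refine ⟨h1, ?_⟩
  have h3 := h.sp1_one_le μ
  have h4 := h.sp1_sq_le μ
  rw [norm_div, norm_pow, div_lt_iff₀ (by linarith)]
  nlinarith

theorem sp1_ne {e μ : ι × Bool} (hμ : μ ∈ F.oth e) {v : ℂ} (hv : ‖v‖ < 4 * F.R e) :
    d.pos e + v - d.pos μ ≠ 0 := by
  have h1 := (h.sp1_far hμ hv.le).2
  exact norm_pos_iff.1 (by linarith [h.R_pos μ])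

theorem sp1_op_le {g : ι × Bool → ℂ → ℂ} {M : ℝ} (hM : 0 ≤ M) (hg : Sp1Bd F g M)
    (e : ι × Bool) {v : ℂ} (hv : ‖v‖ < 4 * F.R e) :
    ‖sp1Op F d g e v‖ ≤ 2 * F.t e.1 ^ 30 * M := by
  unfold sp1Op
  refine (norm_sum_le _ _).trans ?_
  have h1 : ∀ μ ∈ F.oth e, ‖d.bet μ / (d.pos e + v - d.pos μ) *
      tl (g (opp μ)) (d.bet μ ^ 2 / (d.pos e + v - d.pos μ))‖ ≤
      2 * M * (‖d.bet μ‖ / ‖d.pos e - d.pos μ‖) := by
    intro μ hμ
    obtain ⟨h2, h3⟩ := h.arg_lt hμ hv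
    have hD : 0 < ‖d.pos e - d.pos μ‖ := by linarith [h.sep e μ hμ, h.R_pos e]
    have h4 : ‖tl (g (opp μ)) (d.bet μ ^ 2 / (d.pos e + v - d.pos μ))‖ ≤ M := by
      unfold tl
      rw [Complex.norm_conj]
      exact hg (opp μ) _ (by rw [Complex.norm_conj, R_opp]; exact h3)
    have h5 : ‖d.bet μ‖ / ‖d.pos e + v - d.pos μ‖ ≤ ‖d.bet μ‖ / (‖d.pos e - d.pos μ‖ / 2) :=
      div_le_div_of_nonneg_left (norm_nonneg _) (by positivity) h2
    rw [norm_mul, norm_div]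
    calc _ ≤ ‖d.bet μ‖ / (‖d.pos e - d.pos μ‖ / 2) * M :=
          mul_le_mul h5 h4 (norm_nonneg _) (by positivity)
      _ = _ := by field_simp
  refine (Finset.sum_le_sum h1).trans ?_
  rw [← Finset.mul_sum]
  calc _ ≤ 2 * M * F.t e.1 ^ 30 := mul_le_mul_of_nonneg_left (h.lam e) (by positivity)
    _ = _ := by ring

theorem sp1_op_half {g : ι × Bool → ℂ → ℂ} {M : ℝ} (hM : 0 ≤ M) (hg : Sp1Bd F g M) :
    Sp1Bd F (sp1Op F d g) (M / 2) := fun e _ hv =>
  (h.sp1_op_le hM hg e hv).trans (by nlinarith [h.sp1_t30 e.1])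

theorem sp1_op_hol {g : ι × Bool → ℂ → ℂ}
    (hg : ∀ e, DifferentiableOn ℂ (g e) (ball 0 (4 * F.R e))) (e : ι × Bool) :
    DifferentiableOn ℂ (sp1Op F d g e) (ball 0 (4 * F.R e)) := by
  unfold sp1Op
  refine DifferentiableOn.fun_sum fun μ hμ => ?_
  have hne : ∀ v ∈ ball (0 : ℂ) (4 * F.R e), d.pos e + v - d.pos μ ≠ 0 := fun v hv =>
    h.sp1_ne hμ (mem_ball_zero_iff.1 hv)
  have hq : ∀ c : ℂ, DifferentiableOn ℂ (fun v => c / (d.pos e + v - d.pos μ))
      (ball 0 (4 * F.R e)) := fun c =>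
    (differentiableOn_const c).div (by fun_prop) hne
  refine (hq _).mul ((tl_differentiableOn (hg (opp μ))).comp (hq _) fun v hv => ?_)
  exact mem_ball_zero_iff.2 (h.arg_lt hμ (mem_ball_zero_iff.1 hv)).2

theorem sp1_iter_hol (n : ℕ) :
    (∀ e, DifferentiableOn ℂ ((F.iter d n).1 e) (ball 0 (4 * F.R e))) ∧
      ∀ e, DifferentiableOn ℂ ((F.iter d n).2 e) (ball 0 (4 * F.R e)) := by
  induction n with
  | zero => exact ⟨fun _ => differentiableOn_const _, fun _ => differentiableOn_const _⟩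
  | succ n ih =>
    constructor
    · intro e
      exact ((h.sp1_op_hol ih.2 e).const_add 1).congr fun v _ => sp1_iterA n e v
    · intro e
      exact (h.sp1_op_hol ih.1 e).neg.congr fun v _ => sp1_iterB n e v

theorem sp1_iter_bd (n : ℕ) : Sp1Bd F (F.iter d n).1 2 ∧ Sp1Bd F (F.iter d n).2 1 := by
  induction n with
  | zero =>
    constructor
    · intro e v _
      change ‖(1 : ℂ)‖ ≤ 2
      norm_num
    · intro e v _
      change ‖(0 : ℂ)‖ ≤ 1
      norm_num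
  | succ n ih =>
    constructor
    · intro e v hv
      rw [sp1_iterA]
      have := h.sp1_op_half zero_le_one ih.2 e v hv
      refine (norm_add_le _ _).trans ?_
      rw [norm_one]
      linarith
    · intro e v hv
      rw [sp1_iterB, norm_neg]
      have := h.sp1_op_half zero_le_two ih.1 e v hv
      linarith

theorem sp1_iter_diff (n : ℕ) :
    Sp1Bd F (fun e v => (F.iter d n).1 e v - (F.iter d (n + 1)).1 e v) (2 / 2 / 2 ^ n) ∧
      Sp1Bd F (fun e v => (F.iter d n).2 e v - (F.iter d (n + 1)).2 e v) (2 / 2 / 2 ^ n) := by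
  induction n with
  | zero =>
    constructor
    · intro e v hv
      have := h.sp1_op_half zero_le_one (h.sp1_iter_bd 0).2 e v hv
      have e0 : (F.iter d 0).1 e v = 1 := rfl
      simp only [sp1_iterA, e0]
      rw [sub_add_cancel_left, norm_neg]
      linarith
    · intro e v hv
      have := h.sp1_op_half zero_le_two (h.sp1_iter_bd 0).1 e v hv
      have e0 : (F.iter d 0).2 e v = 0 := rfl
      simp only [sp1_iterB, e0]
      rw [zero_sub, neg_neg]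
      linarith
  | succ n ih =>
    have e2 : (2 : ℝ) / 2 / 2 ^ (n + 1) = 2 / 2 / 2 ^ n / 2 := by rw [pow_succ]; field_simp
    constructor
    · intro e v hv
      have := h.sp1_op_half (by positivity) ih.2 e v hv
      rw [← sp1_op_sub] at this
      change ‖(F.iter d (n + 1)).1 e v - (F.iter d (n + 1 + 1)).1 e v‖ ≤ _
      rw [sp1_iterA n, sp1_iterA (n + 1), add_sub_add_left_eq_sub, e2]
      exact this
    · intro e v hv
      have := h.sp1_op_half (by positivity) ih.1 e v hv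
      rw [← sp1_op_sub] at this
      change ‖(F.iter d (n + 1)).2 e v - (F.iter d (n + 1 + 1)).2 e v‖ ≤ _
      rw [sp1_iterB n, sp1_iterB (n + 1), neg_sub_neg, norm_sub_rev, e2]
      exact this

theorem iter_rate (n : ℕ) (e : ι × Bool) {v : ℂ} (hv : ‖v‖ < 4 * F.R e) :
    ‖(F.iter d n).1 e v - (F.spin d).1 e v‖ ≤ 4 * (1 / 2) ^ n ∧
      ‖(F.iter d n).2 e v - (F.spin d).2 e v‖ ≤ 4 * (1 / 2) ^ n := by
  have key : ∀ f : ℕ → ℂ, (∀ m, ‖f m - f (m + 1)‖ ≤ 2 / 2 / 2 ^ m) →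
      ‖f n - limUnder atTop f‖ ≤ 4 * (1 / 2) ^ n := by
    intro f hf
    have hf' : ∀ m, dist (f m) (f (m + 1)) ≤ 2 / 2 / 2 ^ m := fun m => by
      rw [dist_eq_norm]; exact hf m
    have h1 := dist_le_of_le_geometric_two_of_tendsto hf'
      (cauchySeq_of_le_geometric_two hf').tendsto_limUnder n
    rw [dist_eq_norm] at h1
    refine h1.trans ?_
    rw [one_div, inv_pow, div_eq_mul_inv]
    gcongr
    norm_num
  exact ⟨key (fun m => (F.iter d m).1 e v) fun m => (h.sp1_iter_diff m).1 e v hv,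
    key (fun m => (F.iter d m).2 e v) fun m => (h.sp1_iter_diff m).2 e v hv⟩

omit h in
theorem sp1_geo : Tendsto (fun n : ℕ => 4 * (1 / 2 : ℝ) ^ n) atTop (𝓝 0) := by
  simpa using (tendsto_pow_atTop_nhds_zero_of_lt_one (r := (1 / 2 : ℝ)) (by norm_num)
    (by norm_num)).const_mul 4

omit h in
theorem sp1_lim_hol {f : ℕ → ℂ → ℂ} {g : ℂ → ℂ} {r : ℝ}
    (hf : ∀ n, DifferentiableOn ℂ (f n) (ball 0 r))
    (hr : ∀ n v, ‖v‖ < r → ‖f n v - g v‖ ≤ 4 * (1 / 2) ^ n) :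
    DifferentiableOn ℂ g (ball 0 r) := by
  have hu : TendstoUniformlyOn f g atTop (ball 0 r) := by
    rw [Metric.tendstoUniformlyOn_iff]
    intro ε hε
    filter_upwards [sp1_geo.eventually (gt_mem_nhds hε)] with n hn v hv
    rw [dist_comm, dist_eq_norm]
    exact (hr n v (mem_ball_zero_iff.1 hv)).trans_lt hn
  exact hu.tendstoLocallyUniformlyOn.differentiableOn (Eventually.of_forall hf) isOpen_ball

theorem holA (e : ι × Bool) : DifferentiableOn ℂ ((F.spin d).1 e) (ball 0 (4 * F.R e)) :=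
  sp1_lim_hol (fun n => (h.sp1_iter_hol n).1 e) fun n _ hv => (h.iter_rate n e hv).1

theorem holB (e : ι × Bool) : DifferentiableOn ℂ ((F.spin d).2 e) (ball 0 (4 * F.R e)) :=
  sp1_lim_hol (fun n => (h.sp1_iter_hol n).2 e) fun n _ hv => (h.iter_rate n e hv).2

omit h in
theorem sp1_le_of_rate {x M c : ℝ} (hx : ∀ n : ℕ, x ≤ M + c * (4 * (1 / 2) ^ n)) : x ≤ M := by
  have h1 : Tendsto (fun n : ℕ => M + c * (4 * (1 / 2 : ℝ) ^ n)) atTop (𝓝 (M + c * 0)) :=
    (sp1_geo.const_mul c).const_add M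
  rw [mul_zero, add_zero] at h1
  exact ge_of_tendsto' h1 hx

theorem sp1_spin_bd : Sp1Bd F (F.spin d).1 2 ∧ Sp1Bd F (F.spin d).2 1 := by
  constructor
  · intro e v hv
    refine sp1_le_of_rate (c := 1) fun n => ?_
    have h1 := (h.iter_rate n e hv).1
    have h2 := (h.sp1_iter_bd n).1 e v hv
    have h3 := norm_le_norm_add_norm_sub ((F.iter d n).1 e v) ((F.spin d).1 e v)
    linarith
  · intro e v hv
    refine sp1_le_of_rate (c := 1) fun n => ?_
    have h1 := (h.iter_rate n e hv).2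
    have h2 := (h.sp1_iter_bd n).2 e v hv
    have h3 := norm_le_norm_add_norm_sub ((F.iter d n).2 e v) ((F.spin d).2 e v)
    linarith

theorem sp1_fixA (e : ι × Bool) {v : ℂ} (hv : ‖v‖ < 4 * F.R e) :
    (F.spin d).1 e v = 1 + sp1Op F d (F.spin d).2 e v := by
  rw [← sub_eq_zero, ← norm_le_zero_iff]
  refine sp1_le_of_rate (c := 1) fun n => ?_
  have h1 := (h.iter_rate (n + 1) e hv).1
  have h2 := h.sp1_op_half (g := fun μ x => (F.iter d n).2 μ x - (F.spin d).2 μ x)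
    (M := 4 * (1 / 2) ^ n) (by positivity) (fun μ x hx => (h.iter_rate n μ hx).2) e v hv
  rw [← sp1_op_sub] at h2
  rw [sp1_iterA, pow_succ] at h1
  have e1 : (F.spin d).1 e v - (1 + sp1Op F d (F.spin d).2 e v) =
      (sp1Op F d (F.iter d n).2 e v - sp1Op F d (F.spin d).2 e v) -
        (1 + sp1Op F d (F.iter d n).2 e v - (F.spin d).1 e v) := by ring
  rw [e1]
  refine (norm_sub_le _ _).trans ?_
  linarith

theorem sp1_fixB (e : ι × Bool) {v : ℂ} (hv : ‖v‖ < 4 * F.R e) :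
    (F.spin d).2 e v = -sp1Op F d (F.spin d).1 e v := by
  rw [← sub_eq_zero, ← norm_le_zero_iff]
  refine sp1_le_of_rate (c := 1) fun n => ?_
  have h1 := (h.iter_rate (n + 1) e hv).2
  have h2 := h.sp1_op_half (g := fun μ x => (F.iter d n).1 μ x - (F.spin d).1 μ x)
    (M := 4 * (1 / 2) ^ n) (by positivity) (fun μ x hx => (h.iter_rate n μ hx).1) e v hv
  rw [← sp1_op_sub] at h2
  rw [sp1_iterB, pow_succ] at h1
  have e1 : (F.spin d).2 e v - -sp1Op F d (F.spin d).1 e v =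
      -(sp1Op F d (F.iter d n).1 e v - sp1Op F d (F.spin d).1 e v) -
        (-sp1Op F d (F.iter d n).1 e v - (F.spin d).2 e v) := by ring
  rw [e1]
  refine (norm_sub_le _ _).trans ?_
  rw [norm_neg]
  linarith

theorem bdA (e : ι × Bool) {v : ℂ} (hv : ‖v‖ < 4 * F.R e) :
    ‖(F.spin d).1 e v - 1‖ ≤ 2 * F.t e.1 ^ 30 := by
  rw [h.sp1_fixA e hv, add_sub_cancel_left]
  simpa using h.sp1_op_le zero_le_one h.sp1_spin_bd.2 e hv

theorem bdB (e : ι × Bool) {v : ℂ} (hv : ‖v‖ < 4 * F.R e) :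
    ‖(F.spin d).2 e v‖ ≤ 4 * F.t e.1 ^ 30 := by
  rw [h.sp1_fixB e hv, norm_neg]
  have := h.sp1_op_le zero_le_two h.sp1_spin_bd.1 e hv
  linarith

theorem fixA (e : ι × Bool) {v : ℂ} (hv : ‖v‖ < 4 * F.R e) :
    (F.spin d).1 e v = 1 + ∑ μ ∈ F.oth e, d.tA (F.spin d) μ (d.pos e + v) := by
  rw [sp1_sumA]; exact h.sp1_fixA e hv

theorem fixB (e : ι × Bool) {v : ℂ} (hv : ‖v‖ < 4 * F.R e) :
    (F.spin d).2 e v = ∑ μ ∈ F.oth e, d.tB (F.spin d) μ (d.pos e + v) := by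
  rw [sp1_sumB]; exact h.sp1_fixB e hv

end Frm.Adm

end Pool.Agent.MP_943ae2_gt

end
end

section

open Set Complex Filter
open scoped Topology ComplexConjugate ContDiff

noncomputable section

namespace Pool.Agent.MP_943ae2_gt

variable {ι : Type} {F : Frm ι} {d : Dat ι}

lemma sp2_tend (c p : ℂ) : Tendsto (fun z : ℂ => c / (z - p)) (Bornology.cobounded ℂ) (𝓝 0) := by
  have h1 : Tendsto (fun z : ℂ => z - p) (Bornology.cobounded ℂ) (Bornology.cobounded ℂ) :=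
    tendsto_sub_const_cobounded p
  have h2 := (tendsto_inv₀_cobounded.comp h1).const_mul c
  simpa [div_eq_mul_inv] using h2

namespace Frm.Adm

variable (h : F.Adm d)
include h

lemma sp2_inv (e : ι × Bool) : 1000 ≤ (F.t e.1)⁻¹ := by
  rw [le_inv_comm₀ (by norm_num) (h.t_pos _)]
  have := h.t_small e.1
  linarith

lemma sp2_t30 (e : ι × Bool) : F.t e.1 ^ 30 ≤ 1 / 4 := by
  have h0 := (h.t_pos e.1).le
  have h1 := h.t_small e.1
  calc F.t e.1 ^ 30 ≤ F.t e.1 ^ 1 := pow_le_pow_of_le_one h0 (by linarith) (by norm_num)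
    _ ≤ 1 / 4 := by rw [pow_one]; linarith

lemma sp2_tlA1 (e : ι × Bool) {x : ℂ} (hx : ‖x‖ < 4 * F.R e) :
    ‖tl ((F.spin d).1 (opp e)) x - 1‖ ≤ 2 * F.t e.1 ^ 30 := by
  have := h.bdA (opp e) (v := conj x) (by simpa using hx)
  rw [← Complex.norm_conj] at this
  simpa [tl] using this

lemma sp2_tlA (e : ι × Bool) {x : ℂ} (hx : ‖x‖ < 4 * F.R e) :
    ‖tl ((F.spin d).1 (opp e)) x‖ ≤ 2 := by
  have h1 := h.sp2_tlA1 e hx
  have h2 := h.sp2_t30 e
  have h3 := norm_add_le (tl ((F.spin d).1 (opp e)) x - 1) 1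
  simp only [sub_add_cancel, norm_one] at h3
  linarith

lemma sp2_tlB (e : ι × Bool) {x : ℂ} (hx : ‖x‖ < 4 * F.R e) :
    ‖tl ((F.spin d).2 (opp e)) x‖ ≤ 4 * F.t e.1 ^ 30 := by
  have := h.bdB (opp e) (v := conj x) (by simpa using hx)
  simpa [tl] using this

lemma sp2_arg (e : ι × Bool) {v : ℂ} (h1 : ‖d.bet e‖ ^ 2 / (4 * F.R e) < ‖v‖) :
    v ≠ 0 ∧ ‖d.bet e ^ 2 / v‖ < 4 * F.R e := by
  have hb := h.bet_pos e
  have hR := h.R_pos e
  have hv : 0 < ‖v‖ := lt_trans (by positivity) h1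
  refine ⟨norm_pos_iff.1 hv, ?_⟩
  rw [norm_div, norm_pow, div_lt_iff₀ hv]
  rw [div_lt_iff₀ (by positivity)] at h1
  linarith

theorem a_split (e : ι × Bool) {v : ℂ} (hv : ‖v‖ < 4 * F.R e) :
    F.a d (F.lay e) (d.pos e + v) =
      (F.spin d).1 e v + d.bet e / v * tl ((F.spin d).2 (opp e)) (d.bet e ^ 2 / v) := by
  rw [Frm.a, sum_sides_split, h.fixA e hv]
  simp only [Dat.tA, add_sub_cancel_left]
  ring

theorem b_split (e : ι × Bool) {v : ℂ} (hv : ‖v‖ < 4 * F.R e) :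
    F.b d (F.lay e) (d.pos e + v) =
      (F.spin d).2 e v - d.bet e / v * tl ((F.spin d).1 (opp e)) (d.bet e ^ 2 / v) := by
  rw [Frm.b, sum_sides_split, h.fixB e hv]
  simp only [Dat.tB, add_sub_cancel_left]
  ring

lemma sp2_back (e : ι × Bool) {v : ℂ} (hv : v ≠ 0) :
    d.bet (opp e) ^ 2 / conj (d.bet e ^ 2 / v) = conj v := by
  have hb : conj (d.bet e) ≠ 0 := by simpa using h.bet_ne e
  have hv' : conj v ≠ 0 := by simpa using hv
  simp only [bet_opp, neg_sq, map_div₀, map_pow]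
  field_simp

theorem glue_a (e : ι × Bool) {v : ℂ} (h1 : ‖d.bet e‖ ^ 2 / (4 * F.R e) < ‖v‖)
    (h2 : ‖v‖ < 4 * F.R e) :
    F.a d (F.lay e) (d.pos e + v) =
      d.bet e / v * conj (F.b d (F.lay (opp e)) (d.par e v)) := by
  obtain ⟨hv, hw⟩ := h.sp2_arg e h1
  have hb := h.bet_ne e
  rw [h.a_split e h2, Dat.par,
    h.b_split (opp e) (v := conj (d.bet e ^ 2 / v)) (by rwa [Complex.norm_conj, R_opp]),
    h.sp2_back e hv]
  simp only [tl, opp_opp, conj_conj, map_sub, map_mul, bet_opp]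
  generalize conj ((F.spin d).2 (opp e) (conj (d.bet e ^ 2 / v))) = x
  simp only [map_div₀, map_neg, conj_conj, map_pow]
  field_simp
  ring

theorem glue_b (e : ι × Bool) {v : ℂ} (h1 : ‖d.bet e‖ ^ 2 / (4 * F.R e) < ‖v‖)
    (h2 : ‖v‖ < 4 * F.R e) :
    F.b d (F.lay e) (d.pos e + v) =
      -(d.bet e / v * conj (F.a d (F.lay (opp e)) (d.par e v))) := by
  obtain ⟨hv, hw⟩ := h.sp2_arg e h1
  have hb := h.bet_ne e
  rw [h.b_split e h2, Dat.par,
    h.a_split (opp e) (v := conj (d.bet e ^ 2 / v)) (by rwa [Complex.norm_conj, R_opp]),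
    h.sp2_back e hv]
  simp only [tl, opp_opp, conj_conj, map_add, map_mul, bet_opp]
  generalize conj ((F.spin d).1 (opp e) (conj (d.bet e ^ 2 / v))) = x
  simp only [map_div₀, map_neg, conj_conj, map_pow]
  field_simp
  ring

lemma sp2_hol {k : ℕ} {μ : ι × Bool} (hμ : μ ∈ F.sides k) {f : ℂ → ℂ}
    (hf : DifferentiableOn ℂ f (Metric.ball 0 (4 * F.R μ))) :
    DifferentiableOn ℂ (fun z => d.bet μ / (z - d.pos μ) * tl f (d.bet μ ^ 2 / (z - d.pos μ)))
      (F.Big d k) := by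
  have hne : ∀ z ∈ F.Big d k, z - d.pos μ ≠ 0 := fun z hz => (h.sp2_arg μ (hz μ hμ)).1
  have hd : ∀ c : ℂ, DifferentiableOn ℂ (fun z => c / (z - d.pos μ)) (F.Big d k) := fun c =>
    (differentiableOn_const c).div (by fun_prop) hne
  refine (hd _).mul ((tl_differentiableOn hf).comp (hd _) fun z hz => ?_)
  simpa using (h.sp2_arg μ (hz μ hμ)).2

theorem hol_a (k : ℕ) : DifferentiableOn ℂ (F.a d k) (F.Big d k) := by
  unfold Frm.a
  refine (differentiableOn_const _).add (DifferentiableOn.fun_sum fun μ hμ => ?_)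
  exact h.sp2_hol hμ (h.holB (opp μ))

theorem hol_b (k : ℕ) : DifferentiableOn ℂ (F.b d k) (F.Big d k) := by
  unfold Frm.b
  refine DifferentiableOn.fun_sum fun μ hμ => ?_
  exact (h.sp2_hol hμ (h.holA (opp μ))).neg

lemma sp2_sum {k : ℕ} {f : ι × Bool → ℂ} {c : ℝ} {n : ℕ} (hc0 : 0 ≤ c) (hc : c ≤ 1000)
    (hf : ∀ μ ∈ F.sides k, ‖f μ‖ ≤ c * F.T k ^ (n + 2)) :
    ‖∑ μ ∈ F.sides k, f μ‖ ≤ F.T k ^ n := by
  have hT := h.T_pos k
  have hT1 := h.T_le k
  refine (norm_sum_le _ _).trans ((Finset.sum_le_card_nsmul _ _ _ hf).trans ?_)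
  rw [nsmul_eq_mul]
  calc ((F.sides k).card : ℝ) * (c * F.T k ^ (n + 2)) ≤ (F.T k)⁻¹ * (c * F.T k ^ (n + 2)) := by
        gcongr; exact h.card k
    _ = (c * F.T k) * F.T k ^ n := by field_simp; ring
    _ ≤ 1 * F.T k ^ n := by gcongr; nlinarith
    _ = F.T k ^ n := one_mul _

theorem a_near {k : ℕ} {z : ℂ} (hz : z ∈ F.Big d k) : ‖F.a d k z - 1‖ ≤ F.T k ^ 11 := by
  rw [Frm.a, add_sub_cancel_left]
  refine h.sp2_sum (c := 16) (by norm_num) (by norm_num) fun μ hμ => ?_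
  obtain ⟨hv, hw⟩ := h.sp2_arg μ (hz μ hμ)
  have ht := h.t_pos μ.1
  have htT : F.t μ.1 ≤ F.T k := by rw [← mem_sides_iff.1 hμ]; exact h.t_le μ
  have hb := h.bet_pos μ
  have hB := h.sp2_tlB μ hw
  have h1 : ‖d.bet μ / (z - d.pos μ)‖ ≤ 4 * (F.t μ.1)⁻¹ ^ 17 := by
    have e : d.bet μ / (z - d.pos μ) = d.bet μ ^ 2 / (z - d.pos μ) / d.bet μ := by
      have := h.bet_ne μ
      field_simp
    rw [e, norm_div]
    calc ‖d.bet μ ^ 2 / (z - d.pos μ)‖ / ‖d.bet μ‖ ≤ 4 * F.R μ / F.t μ.1 := by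
          have := h.R_pos μ
          gcongr
          exact h.b_ge μ
      _ = 4 * (F.t μ.1)⁻¹ ^ 17 := by rw [Frm.R]; field_simp
  rw [Dat.tA, norm_mul]
  calc _ ≤ 4 * (F.t μ.1)⁻¹ ^ 17 * (4 * F.t μ.1 ^ 30) := by gcongr
    _ = 16 * F.t μ.1 ^ 13 := by field_simp; norm_num
    _ ≤ 16 * F.T k ^ (11 + 2) := by gcongr

lemma sp2_one_le_R (e : ι × Bool) : 1 ≤ F.R e :=
  one_le_pow₀ (by linarith [h.sp2_inv e])

lemma sp2_sq_le (e : ι × Bool) : ‖d.bet e‖ ^ 2 ≤ F.Rs e ∧ F.Rs e ≤ F.R e := by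
  have h1 : 1 ≤ (F.t e.1)⁻¹ := by linarith [h.sp2_inv e]
  refine ⟨?_, pow_le_pow_right₀ h1 (by norm_num)⟩
  calc ‖d.bet e‖ ^ 2 ≤ (F.t e.1)⁻¹ ^ 2 := by gcongr; exact h.bet_le e
    _ ≤ F.Rs e := pow_le_pow_right₀ h1 (by norm_num)

theorem b_far {k : ℕ} {z : ℂ} (hz : ∀ e ∈ F.sides k, F.Rs e / 2 ≤ ‖z - d.pos e‖) :
    ‖F.b d k z‖ ≤ F.T k ^ 9 := by
  rw [Frm.b]
  refine h.sp2_sum (c := 4) (by norm_num) (by norm_num) fun μ hμ => ?_
  have ht := h.t_pos μ.1
  have hT := h.T_pos k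
  have htT : F.t μ.1 ≤ F.T k := by rw [← mem_sides_iff.1 hμ]; exact h.t_le μ
  have hbT : ‖d.bet μ‖ ≤ (F.T k)⁻¹ := by rw [← mem_sides_iff.1 hμ]; exact h.b_le μ
  have hRs := h.Rs_pos μ
  have hR := h.sp2_one_le_R μ
  have hlt : ‖d.bet μ‖ ^ 2 / (4 * F.R μ) < ‖z - d.pos μ‖ := by
    refine lt_of_lt_of_le ?_ (hz μ hμ)
    rw [div_lt_iff₀ (by positivity)]
    nlinarith [(h.sp2_sq_le μ).1]
  obtain ⟨hv, hw⟩ := h.sp2_arg μ hlt
  have hA := h.sp2_tlA μ hw
  rw [Dat.tB, norm_neg, norm_mul, norm_div]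
  calc _ ≤ (F.T k)⁻¹ / (F.Rs μ / 2) * 2 := by
        gcongr
        exact hz μ hμ
    _ = 4 * (F.T k)⁻¹ * F.t μ.1 ^ 12 := by rw [Frm.Rs]; field_simp; norm_num
    _ ≤ 4 * (F.T k)⁻¹ * F.T k ^ 12 := by gcongr
    _ = 4 * F.T k ^ (9 + 2) := by field_simp

theorem b_contour (e : ι × Bool) {v : ℂ} (hv : ‖v‖ = F.sr d e) :
    ‖F.b d (F.lay e) (d.pos e + v)‖ ≤ 5 * F.R e / ‖d.bet e‖ := by
  have hb := h.bet_pos e
  have hR := h.sp2_one_le_R e
  obtain ⟨s1, s2⟩ := h.sp2_sq_le e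
  rw [Frm.sr] at hv
  have h2 : ‖v‖ < 4 * F.R e := by
    rw [hv, div_lt_iff₀ (by positivity)]
    nlinarith
  have h1 : ‖d.bet e‖ ^ 2 / (4 * F.R e) < ‖v‖ := by
    rw [hv]
    gcongr
    norm_num
  obtain ⟨hv0, hw⟩ := h.sp2_arg e h1
  have hA := h.sp2_tlA e hw
  have hB := h.bdB e h2
  have h30 := h.sp2_t30 e
  have hq : 1 ≤ F.R e / ‖d.bet e‖ := by
    rw [le_div_iff₀ hb]
    nlinarith
  rw [h.b_split e h2]
  refine (norm_sub_le _ _).trans ?_
  rw [norm_mul, norm_div, hv]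
  have e1 : ‖d.bet e‖ / (‖d.bet e‖ ^ 2 / (2 * F.R e)) = 2 * (F.R e / ‖d.bet e‖) := by
    field_simp
  rw [e1, mul_div_assoc]
  nlinarith

lemma sp2_lim (μ : ι × Bool) {f : ℂ → ℂ} {M : ℝ} (hf : ∀ x, ‖x‖ < 4 * F.R μ → ‖f x‖ ≤ M) :
    Tendsto (fun z => d.bet μ / (z - d.pos μ) * f (d.bet μ ^ 2 / (z - d.pos μ)))
      (Bornology.cobounded ℂ) (𝓝 0) := by
  have hR := h.R_pos μ
  have h1 : ∀ᶠ z in Bornology.cobounded ℂ, ‖d.bet μ ^ 2 / (z - d.pos μ)‖ < 4 * F.R μ := by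
    have := (sp2_tend (d.bet μ ^ 2) (d.pos μ)).norm
    exact this.eventually (gt_mem_nhds (by rw [norm_zero]; positivity))
  have h2 := (sp2_tend (d.bet μ) (d.pos μ)).norm.mul_const M
  rw [norm_zero, zero_mul] at h2
  refine squeeze_zero_norm' ?_ h2
  filter_upwards [h1] with z hz
  rw [norm_mul]
  gcongr
  exact hf _ hz

theorem a_tendsto (k : ℕ) : Tendsto (F.a d k) (Bornology.cobounded ℂ) (𝓝 1) := by
  have h1 : Tendsto (fun z => ∑ μ ∈ F.sides k, d.tA (F.spin d) μ z) (Bornology.cobounded ℂ)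
      (𝓝 (∑ _μ ∈ F.sides k, (0 : ℂ))) :=
    tendsto_finsetSum _ fun μ _ => h.sp2_lim μ fun x hx => h.sp2_tlB μ hx
  have h2 := h1.const_add 1
  simp only [Finset.sum_const_zero, add_zero] at h2
  exact h2

theorem b_tendsto (k : ℕ) : Tendsto (F.b d k) (Bornology.cobounded ℂ) (𝓝 0) := by
  have h1 : Tendsto (fun z => ∑ μ ∈ F.sides k, d.tB (F.spin d) μ z) (Bornology.cobounded ℂ)
      (𝓝 (∑ _μ ∈ F.sides k, (0 : ℂ))) :=
    tendsto_finsetSum _ fun μ _ => by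
      have := (h.sp2_lim μ fun x hx => h.sp2_tlA μ hx).neg
      rw [neg_zero] at this
      exact this
  simp only [Finset.sum_const_zero] at h1
  exact h1

theorem B0_est (e : ι × Bool) :
    ‖(F.spin d).2 e 0 + ∑ μ ∈ F.oth e, d.bet μ / (d.pos e - d.pos μ)‖ ≤
      ∑ μ ∈ F.oth e, 2 * F.t μ.1 ^ 30 * ‖d.bet μ‖ / ‖d.pos e - d.pos μ‖ := by
  have h0 : ‖(0 : ℂ)‖ < 4 * F.R e := by have := h.R_pos e; rw [norm_zero]; positivity
  rw [h.fixB e h0, ← Finset.sum_add_distrib]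
  refine (norm_sum_le _ _).trans (Finset.sum_le_sum fun μ hμ => ?_)
  have hw := (h.arg_lt hμ h0).2
  rw [add_zero] at hw ⊢
  have hA := h.sp2_tlA1 μ hw
  have e1 : d.tB (F.spin d) μ (d.pos e) + d.bet μ / (d.pos e - d.pos μ) =
      -(d.bet μ / (d.pos e - d.pos μ) *
        (tl ((F.spin d).1 (opp μ)) (d.bet μ ^ 2 / (d.pos e - d.pos μ)) - 1)) := by
    rw [Dat.tB]; ring
  rw [e1, norm_neg, norm_mul, norm_div]
  calc _ ≤ ‖d.bet μ‖ / ‖d.pos e - d.pos μ‖ * (2 * F.t μ.1 ^ 30) := by gcongr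
    _ = _ := by ring

end Frm.Adm

end Pool.Agent.MP_943ae2_gt

end
end

section

open Set Complex Filter
open scoped Topology ComplexConjugate ContDiff

noncomputable section

namespace Pool.Agent.MP_943ae2_gt

open Metric

/-- Differentiation of a circle integral in a parameter. -/
theorem dec_circ_deriv {F F' : ℂ → ℂ → ℂ} {U : Set ℂ} {c z : ℂ} {r : ℝ} (hU : IsOpen U) (hz : z ∈ U)
    (hr : 0 ≤ r) (hF : ∀ w ∈ U, ContinuousOn (F w) (sphere c r))
    (hF' : ContinuousOn (fun p : ℂ × ℂ => F' p.1 p.2) (U ×ˢ sphere c r))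
    (hd : ∀ w ∈ U, ∀ ζ ∈ sphere c r, HasDerivAt (fun w => F w ζ) (F' w ζ) w) :
    HasDerivAt (fun w => ∮ ζ in C(c, r), F w ζ) (∮ ζ in C(c, r), F' z ζ) z := by
  obtain ⟨ε, hε, hsub⟩ := nhds_basis_closedBall.mem_iff.1 (hU.mem_nhds hz)
  obtain ⟨M, hM⟩ := ((isCompact_closedBall z ε).prod (isCompact_sphere c r)).exists_bound_of_continuousOn
    (hF'.mono (prod_mono hsub subset_rfl))
  have hc : ∀ G : ℂ → ℂ, ContinuousOn G (sphere c r) →
      Continuous fun θ : ℝ => deriv (circleMap c r) θ • G (circleMap c r θ) := by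
    intro G hG
    have h1 : Continuous fun θ : ℝ => G (circleMap c r θ) :=
      hG.comp_continuous (continuous_circleMap c r) (circleMap_mem_sphere c hr)
    have h2 : Continuous fun θ : ℝ => deriv (circleMap c r) θ := by
      simp only [deriv_circleMap]
      exact (continuous_circleMap 0 r).mul continuous_const
    exact h2.smul h1
  have hFz : ContinuousOn (F' z) (sphere c r) :=
    hF'.comp (f := fun ζ : ℂ => (z, ζ)) (by fun_prop) fun ζ hζ => ⟨hz, hζ⟩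
  have key := intervalIntegral.hasDerivAt_integral_of_dominated_loc_of_deriv_le
    (μ := MeasureTheory.volume) (a := 0) (b := 2 * Real.pi) (bound := fun _ => r * M)
    (F := fun w θ => deriv (circleMap c r) θ • F w (circleMap c r θ))
    (F' := fun w θ => deriv (circleMap c r) θ • F' w (circleMap c r θ)) (x₀ := z)
    (s := closedBall z ε) (closedBall_mem_nhds z hε)
    (by
      filter_upwards [hU.mem_nhds hz] with w hw
      exact (hc _ (hF w hw)).aestronglyMeasurable)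
    ((hc _ (hF z hz)).intervalIntegrable _ _) (hc _ hFz).aestronglyMeasurable
    (Eventually.of_forall fun θ _ w hw => by
      have h1 := hM (w, circleMap c r θ) ⟨hw, circleMap_mem_sphere c hr θ⟩
      rw [norm_smul, deriv_circleMap, norm_mul, norm_I, mul_one, norm_circleMap_zero,
        abs_of_nonneg hr]
      exact mul_le_mul_of_nonneg_left h1 hr)
    intervalIntegrable_const
    (Eventually.of_forall fun θ _ w hw =>
      (hd w (hsub hw) _ (circleMap_mem_sphere c hr θ)).const_smul (deriv (circleMap c r) θ))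
  exact key.2

theorem dec_ne {c w ζ : ℂ} {r : ℝ} (hw : ‖w - c‖ ≠ r) (hζ : ζ ∈ sphere c r) : w - ζ ≠ 0 := by
  intro h
  rw [sub_eq_zero] at h
  rw [mem_sphere_iff_norm] at hζ
  exact hw (h ▸ hζ)

/-- The Cauchy integral is holomorphic off the circle. -/
theorem dec_cauchy_diff {f : ℂ → ℂ} {c z : ℂ} {r : ℝ} (hr : 0 ≤ r)
    (hf : ContinuousOn f (sphere c r)) (hz : ‖z - c‖ ≠ r) :
    DifferentiableAt ℂ (fun z => (2 * Real.pi * I)⁻¹ * ∮ ζ in C(c, r), f ζ / (z - ζ)) z := by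
  have hU : IsOpen {w : ℂ | ‖w - c‖ ≠ r} := isOpen_ne_fun (by fun_prop) continuous_const
  have := dec_circ_deriv (F := fun w ζ => f ζ / (w - ζ)) (F' := fun w ζ => -f ζ / (w - ζ) ^ 2)
    hU hz hr
    (fun w hw => hf.div (by fun_prop) fun ζ hζ => dec_ne hw hζ)
    (((hf.comp continuousOn_snd fun p hp => hp.2).neg).div (by fun_prop)
      fun p hp => pow_ne_zero 2 (dec_ne hp.1 hp.2))
    (fun w hw ζ hζ => by
      have h1 := (hasDerivAt_const w (f ζ)).div ((hasDerivAt_id w).sub_const ζ) (dec_ne hw hζ)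
      refine h1.congr_deriv ?_
      simp)
  exact this.differentiableAt.const_mul _

/-- The Cauchy integral tends to zero at infinity. -/
theorem dec_cauchy_lim {f : ℂ → ℂ} {c : ℂ} {r : ℝ} (hr : 0 ≤ r)
    (hf : ContinuousOn f (sphere c r)) :
    Tendsto (fun z => (2 * Real.pi * I)⁻¹ * ∮ ζ in C(c, r), f ζ / (z - ζ))
      (Bornology.cobounded ℂ) (𝓝 0) := by
  obtain ⟨M, hM⟩ := (isCompact_sphere c r).exists_bound_of_continuousOn hf
  have h1 : Tendsto (fun z : ℂ => ‖z - c‖ - r) (Bornology.cobounded ℂ) atTop := by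
    have := tendsto_dist_right_cobounded_atTop c
    simp only [dist_eq_norm] at this
    exact tendsto_atTop_add_const_right _ (-r) this
  have h2 : Tendsto (fun z : ℂ => r * (|M| / (‖z - c‖ - r))) (Bornology.cobounded ℂ) (𝓝 0) := by
    have := (h1.const_div_atTop |M|).const_mul r
    rwa [mul_zero] at this
  refine squeeze_zero_norm' ?_ h2
  filter_upwards [h1.eventually_gt_atTop 0] with z hz
  refine circleIntegral.norm_two_pi_i_inv_smul_integral_le_of_norm_le_const hr fun ζ hζ => ?_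
  have h3 : ‖z - c‖ - r ≤ ‖z - ζ‖ := by
    have h4 := norm_sub_le_norm_sub_add_norm_sub z ζ c
    rw [mem_sphere_iff_norm] at hζ
    linarith
  rw [norm_div]
  exact div_le_div₀ (abs_nonneg M) ((hM ζ hζ).trans (le_abs_self M)) hz h3

/-- The Cauchy formula on an annulus. -/
theorem dec_annulus {f : ℂ → ℂ} {O : Set ℂ} {c z : ℂ} {r R : ℝ} (hO : IsOpen O)
    (hf : DifferentiableOn ℂ f O) (hr : 0 < r) (hsub : closedBall c R \ ball c r ⊆ O)
    (h1 : r < ‖z - c‖) (h2 : ‖z - c‖ < R) :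
    f z = ((2 * Real.pi * I)⁻¹ * ∮ ζ in C(c, r), f ζ / (z - ζ)) -
      (2 * Real.pi * I)⁻¹ * ∮ ζ in C(c, R), f ζ / (z - ζ) := by
  have hrR : r ≤ R := (h1.trans h2).le
  have hzO : z ∈ O := hsub ⟨mem_closedBall_iff_norm.2 h2.le, by
    rw [mem_ball_iff_norm]; exact not_lt.2 h1.le⟩
  have hg : DifferentiableOn ℂ (dslope f z) O := (differentiableOn_dslope (hO.mem_nhds hzO)).2 hf
  have key := circleIntegral_eq_of_differentiable_on_annulus_off_countable hr hrR countable_empty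
    (hg.continuousOn.mono hsub) (fun w hw => hg.differentiableAt (hO.mem_nhds
      (hsub ⟨ball_subset_closedBall hw.1.1, fun h => hw.1.2 (ball_subset_closedBall h)⟩)))
  have hsp : ∀ t, r ≤ t → t ≤ R → ‖z - c‖ ≠ t → (∮ ζ in C(c, t), dslope f z ζ) =
      -(∮ ζ in C(c, t), f ζ / (z - ζ)) - f z * ∮ ζ in C(c, t), (ζ - z)⁻¹ := by
    intro t ht1 ht2 hne
    have ht : 0 ≤ t := hr.le.trans ht1
    have hs : sphere c t ⊆ O := fun ζ hζ => hsub ⟨by
      rw [mem_closedBall, mem_sphere.1 hζ]; exact ht2, by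
      rw [mem_ball, mem_sphere.1 hζ]; exact not_lt.2 ht1⟩
    have i1 : CircleIntegrable (fun ζ => (-1 : ℂ) * (f ζ / (z - ζ))) c t :=
      ContinuousOn.circleIntegrable ht (continuousOn_const.mul
        ((hf.continuousOn.mono hs).div (by fun_prop) fun ζ hζ => dec_ne hne hζ))
    have i2 : CircleIntegrable (fun ζ => f z * (ζ - z)⁻¹) c t :=
      ContinuousOn.circleIntegrable ht (continuousOn_const.mul
        (ContinuousOn.inv₀ (by fun_prop) fun ζ hζ h =>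
          dec_ne hne hζ (by rw [← neg_sub, h, neg_zero])))
    rw [← circleIntegral.integral_const_mul, neg_eq_neg_one_mul, ← circleIntegral.integral_const_mul,
      ← circleIntegral.integral_sub i1 i2]
    refine circleIntegral.integral_congr ht fun ζ hζ => ?_
    have h3 : z - ζ ≠ 0 := dec_ne hne hζ
    have h4 : ζ - z ≠ 0 := fun h => h3 (by rw [← neg_sub, h, neg_zero])
    rw [dslope_of_ne _ (sub_ne_zero.1 h4), slope_def_field]
    field_simp
    ring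
  rw [hsp R hrR le_rfl h2.ne, hsp r le_rfl hrR h1.ne',
    circleIntegral.integral_sub_inv_of_mem_ball (mem_ball_iff_norm.2 h2)] at key
  have h0 : (∮ ζ in C(c, r), (ζ - z)⁻¹) = 0 := by
    have hne : ∀ ζ ∈ closedBall c r, ζ - z ≠ 0 := fun ζ hζ h => by
      rw [sub_eq_zero] at h
      rw [h, mem_closedBall_iff_norm] at hζ
      linarith
    exact circleIntegral_eq_zero_of_differentiable_on_off_countable hr.le countable_empty
      (ContinuousOn.inv₀ (by fun_prop) hne)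
      fun ζ hζ => DifferentiableAt.inv (by fun_prop) (hne ζ (ball_subset_closedBall hζ.1))
  rw [h0] at key
  have hpi : (2 * Real.pi * I : ℂ) ≠ 0 := two_pi_I_ne_zero
  rw [← mul_sub, eq_inv_mul_iff_mul_eq₀ hpi]
  linear_combination -key

theorem dec_delta {κ : Type} (s : Finset κ) (c : κ → ℂ) (r : κ → ℝ)
    (hd : ∀ e ∈ s, ∀ e' ∈ s, e ≠ e' → r e + r e' < ‖c e - c e'‖) :
    ∃ δ : ℝ, 0 < δ ∧ ∀ e ∈ s, ∀ e' ∈ s, e ≠ e' → r e + r e' + 2 * δ < ‖c e - c e'‖ := by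
  have h : ∀ᶠ δ in 𝓝 (0 : ℝ), ∀ e ∈ s, ∀ e' ∈ s, e ≠ e' → r e + r e' + 2 * δ < ‖c e - c e'‖ := by
    refine (Finset.eventually_all s).2 fun e he => (Finset.eventually_all s).2 fun e' he' => ?_
    by_cases hne : e = e'
    · exact Eventually.of_forall fun _ h => absurd hne h
    · have hc : Continuous fun δ : ℝ => r e + r e' + 2 * δ := by fun_prop
      have := hc.continuousAt (x := 0).eventually_lt (continuousAt_const (y := ‖c e - c e'‖))
        (by simpa using hd e he e' he' hne)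
      exact this.mono fun _ h _ => h
  obtain ⟨δ, h1, h2⟩ := ((h.filter_mono nhdsWithin_le_nhds).and
    (self_mem_nhdsWithin (s := Ioi (0 : ℝ)))).exists
  exact ⟨δ, h2, h1⟩

theorem decomp {κ : Type} (s : Finset κ) (c : κ → ℂ) (r : κ → ℝ) {f : ℂ → ℂ} {f0 : ℂ} {O : Set ℂ}
    (hO : IsOpen O) (hs : {z | ∀ e ∈ s, r e ≤ ‖z - c e‖} ⊆ O) (hf : DifferentiableOn ℂ f O)
    (hr : ∀ e ∈ s, 0 < r e) (hd : ∀ e ∈ s, ∀ e' ∈ s, e ≠ e' → r e + r e' < ‖c e - c e'‖)
    (hi : Tendsto f (Bornology.cobounded ℂ) (𝓝 f0)) {z : ℂ} (hz : ∀ e ∈ s, r e < ‖z - c e‖) :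
    f z = f0 + ∑ e ∈ s, (2 * Real.pi * I)⁻¹ * ∮ ζ in C(c e, r e), f ζ / (z - ζ) := by
  classical
  obtain ⟨δ, hδ, hD⟩ := dec_delta s c r hd
  obtain ⟨P, hP⟩ : ∃ P : ℂ → ℝ → ℂ → ℂ,
      P = fun a t z => (2 * Real.pi * I)⁻¹ * ∮ ζ in C(a, t), f ζ / (z - ζ) := ⟨_, rfl⟩
  have far : ∀ e ∈ s, ∀ e' ∈ s, e ≠ e' → ∀ w : ℂ, ‖w - c e‖ ≤ r e + δ →
      r e' + δ < ‖w - c e'‖ := by
    intro e he e' he' hne w hw
    have h1 := hD e he e' he' hne
    have h2 := norm_sub_le_norm_sub_add_norm_sub (c e) w (c e')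
    rw [norm_sub_rev (c e) w] at h2
    linarith
  have ann : ∀ e ∈ s, closedBall (c e) (r e + δ) \ ball (c e) (r e) ⊆ O := by
    intro e he w hw
    refine hs fun e' he' => ?_
    by_cases hne : e = e'
    · subst hne
      have := hw.2
      rw [mem_ball_iff_norm] at this
      exact not_lt.1 this
    · have := far e he e' he' hne w (mem_closedBall_iff_norm.1 hw.1)
      linarith
  have cs : ∀ e ∈ s, ∀ t, r e ≤ t → t ≤ r e + δ → ContinuousOn f (sphere (c e) t) := by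
    intro e he t h1 h2
    refine hf.continuousOn.mono fun ζ hζ => ann e he ⟨?_, ?_⟩
    · rw [mem_closedBall, mem_sphere.1 hζ]; exact h2
    · rw [mem_ball, mem_sphere.1 hζ]; exact not_lt.2 h1
  have dP : ∀ e ∈ s, ∀ t, r e ≤ t → t ≤ r e + δ → ∀ w, ‖w - c e‖ ≠ t →
      DifferentiableAt ℂ (P (c e) t) w := by
    intro e he t h1 h2 w hw
    rw [hP]
    exact dec_cauchy_diff ((hr e he).le.trans h1) (cs e he t h1 h2) hw
  have ex : ∀ w : ℂ, ∃ v : ℂ, (∀ e ∈ s, ‖w - c e‖ < r e + δ →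
      v = -P (c e) (r e + δ) w - ∑ e' ∈ s.erase e, P (c e') (r e') w) ∧
      ((∀ e ∈ s, r e < ‖w - c e‖) → v = f w - ∑ e ∈ s, P (c e) (r e) w) := by
    intro w
    by_cases h : ∃ e ∈ s, ‖w - c e‖ < r e + δ
    · obtain ⟨e, he, hw⟩ := h
      refine ⟨-P (c e) (r e + δ) w - ∑ e' ∈ s.erase e, P (c e') (r e') w, fun e' he' hw' => ?_,
        fun h1 => ?_⟩
      · by_cases hne : e = e'
        · rw [hne]
        · have := far e he e' he' hne w hw.le
          linarith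
      · have h2 : f w = P (c e) (r e) w - P (c e) (r e + δ) w := by
          rw [hP]
          exact dec_annulus hO hf (hr e he) (ann e he) (h1 e he) hw
        rw [← Finset.add_sum_erase s _ he, h2]
        ring
    · exact ⟨_, fun e he hw => absurd ⟨e, he, hw⟩ h, fun _ => rfl⟩
  choose g g1 g2 using ex
  have hV : IsOpen {w : ℂ | ∀ e ∈ s, r e < ‖w - c e‖} := by
    have : {w : ℂ | ∀ e ∈ s, r e < ‖w - c e‖} = ⋂ e ∈ s, {w : ℂ | r e < ‖w - c e‖} := by
      ext w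
      simp
    rw [this]
    exact isOpen_biInter_finset fun e _ => isOpen_lt continuous_const (by fun_prop)
  have hg : Differentiable ℂ g := by
    intro w
    by_cases h : ∃ e ∈ s, ‖w - c e‖ < r e + δ
    · obtain ⟨e, he, hw⟩ := h
      have h1 : DifferentiableAt ℂ
          (fun w => -P (c e) (r e + δ) w - ∑ e' ∈ s.erase e, P (c e') (r e') w) w := by
        refine (dP e he _ (by linarith) le_rfl w hw.ne).neg.sub
          (DifferentiableAt.fun_sum fun e' he' => ?_)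
        have he'' := Finset.mem_of_mem_erase he'
        have := far e he e' he'' (Finset.ne_of_mem_erase he').symm w hw.le
        exact dP e' he'' _ le_rfl (by linarith) w (by linarith : r e' < ‖w - c e'‖).ne'
      refine h1.congr_of_eventuallyEq ?_
      have ho : IsOpen {w : ℂ | ‖w - c e‖ < r e + δ} := isOpen_lt (by fun_prop) continuous_const
      filter_upwards [ho.mem_nhds hw] with u hu
      exact g1 u e he hu
    · have hw : ∀ e ∈ s, r e < ‖w - c e‖ := fun e he => by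
        have := not_lt.1 fun h' => h ⟨e, he, h'⟩
        linarith
      have h1 : DifferentiableAt ℂ (fun w => f w - ∑ e ∈ s, P (c e) (r e) w) w :=
        (hf.differentiableAt (hO.mem_nhds (hs fun e he => (hw e he).le))).sub
          (DifferentiableAt.fun_sum fun e he => dP e he _ le_rfl (by linarith) w (hw e he).ne')
      refine h1.congr_of_eventuallyEq ?_
      filter_upwards [hV.mem_nhds hw] with u hu
      exact g2 u hu
  have hlim : Tendsto g (Bornology.cobounded ℂ) (𝓝 f0) := by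
    have h1 : Tendsto (fun w => ∑ e ∈ s, P (c e) (r e) w) (Bornology.cobounded ℂ)
        (𝓝 (∑ e ∈ s, 0)) := by
      refine tendsto_finsetSum s fun e he => ?_
      rw [hP]
      exact dec_cauchy_lim (hr e he).le (cs e he _ le_rfl (by linarith))
    have h2 := hi.sub h1
    rw [Finset.sum_const_zero, sub_zero] at h2
    refine h2.congr' ?_
    have h3 : ∀ᶠ w in Bornology.cobounded ℂ, ∀ e ∈ s, r e < ‖w - c e‖ := by
      refine (Finset.eventually_all s).2 fun e _ => ?_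
      have := (tendsto_dist_right_cobounded_atTop (c e)).eventually_gt_atTop (r e)
      simpa only [dist_eq_norm] using this
    filter_upwards [h3] with w hw
    exact (g2 w hw).symm
  rw [Metric.cobounded_eq_cocompact] at hlim
  have h1 := hg.apply_eq_of_tendsto_cocompact z hlim
  have h2 := g2 z hz
  rw [h1, hP] at h2
  rw [h2]
  ring

theorem dec_norm_lt {c w ζ : ℂ} {r : ℝ} (hw : r < ‖w - c‖) (hζ : ζ ∈ sphere c r) :
    w - c ≠ 0 ∧ 1 - (ζ - c) / (w - c) ∈ slitPlane := by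
  rw [mem_sphere_iff_norm] at hζ
  have h0 : 0 < ‖w - c‖ := (hζ ▸ norm_nonneg (ζ - c)).trans_lt hw
  refine ⟨norm_pos_iff.1 h0, ?_⟩
  rw [sub_eq_add_neg]
  refine mem_slitPlane_of_norm_lt_one ?_
  rw [norm_neg, norm_div, hζ, div_lt_one h0]
  exact hw

theorem prim_deriv {f : ℂ → ℂ} {c z : ℂ} {r : ℝ} (hr : 0 < r) (hf : ContinuousOn f (sphere c r))
    (hz : r < ‖z - c‖) :
    HasDerivAt (fun z => (2 * Real.pi * I)⁻¹ * ∮ ζ in C(c, r), f ζ * log (1 - (ζ - c) / (z - c)))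
      (((2 * Real.pi * I)⁻¹ * ∮ ζ in C(c, r), f ζ / (z - ζ)) -
        ((2 * Real.pi * I)⁻¹ * ∮ ζ in C(c, r), f ζ) / (z - c)) z := by
  have hU : IsOpen {w : ℂ | r < ‖w - c‖} := isOpen_lt continuous_const (by fun_prop)
  have key := dec_circ_deriv (F := fun w ζ => f ζ * log (1 - (ζ - c) / (w - c)))
    (F' := fun w ζ => f ζ / (w - ζ) - (w - c)⁻¹ * f ζ) hU hz hr.le
    (fun w hw => hf.mul (ContinuousOn.clog (by fun_prop) fun ζ hζ => (dec_norm_lt hw hζ).2))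
    (((hf.comp continuousOn_snd fun p hp => hp.2).div (by fun_prop)
      fun p hp => dec_ne (ne_of_gt hp.1) hp.2).sub
      ((ContinuousOn.inv₀ (by fun_prop) fun p hp => (dec_norm_lt hp.1 hp.2).1).mul
        (hf.comp continuousOn_snd fun p hp => hp.2)))
    (fun w hw ζ hζ => by
      obtain ⟨h1, h2⟩ := dec_norm_lt hw hζ
      have h3 : w - ζ ≠ 0 := dec_ne (ne_of_gt hw) hζ
      have h4 := (((hasDerivAt_const w (ζ - c)).div ((hasDerivAt_id w).sub_const c) h1).const_sub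
        1).clog h2
      refine (h4.const_mul (f ζ)).congr_deriv ?_
      have h5 : 1 - (ζ - c) / (w - c) = (w - ζ) / (w - c) := by
        field_simp
        ring
      simp only [Pi.div_apply, id]
      rw [h5]
      field_simp
      ring)
  have i1 : CircleIntegrable (fun ζ => f ζ / (z - ζ)) c r :=
    ContinuousOn.circleIntegrable hr.le (hf.div (by fun_prop) fun ζ hζ => dec_ne hz.ne' hζ)
  have i2 : CircleIntegrable (fun ζ => (z - c)⁻¹ * f ζ) c r :=
    ContinuousOn.circleIntegrable hr.le (continuousOn_const.mul hf)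
  refine (key.const_mul (2 * Real.pi * I : ℂ)⁻¹).congr_deriv ?_
  rw [circleIntegral.integral_sub i1 i2, circleIntegral.integral_const_mul]
  ring

theorem prim_bound {f : ℂ → ℂ} {c z : ℂ} {r M : ℝ} (hr : 0 < r) (hf : ∀ ζ ∈ sphere c r, ‖f ζ‖ ≤ M)
    (hz : 2 * r ≤ ‖z - c‖) :
    ‖(2 * Real.pi * I)⁻¹ * ∮ ζ in C(c, r), f ζ * log (1 - (ζ - c) / (z - c))‖ ≤
      2 * M * r ^ 2 / ‖z - c‖ := by
  have h0 : 0 < ‖z - c‖ := by linarith
  have hM : 0 ≤ M := (norm_nonneg _).trans (hf _ (circleMap_mem_sphere c hr.le 0))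
  refine (circleIntegral.norm_two_pi_i_inv_smul_integral_le_of_norm_le_const
    (C := M * (2 * (r / ‖z - c‖))) hr.le fun ζ hζ => ?_).trans (le_of_eq (by ring))
  have h1 : ‖-((ζ - c) / (z - c))‖ = r / ‖z - c‖ := by
    rw [norm_neg, norm_div, mem_sphere_iff_norm.1 hζ]
  have h2 : r / ‖z - c‖ ≤ 1 / 2 := by
    rw [div_le_iff₀ h0]
    linarith
  have h3 := norm_log_one_add_half_le_self (h1.le.trans h2)
  have h4 : 0 ≤ r / ‖z - c‖ := by positivity
  rw [h1, ← sub_eq_add_neg] at h3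
  rw [norm_mul]
  exact mul_le_mul (hf ζ hζ) (by linarith) (norm_nonneg _) hM

theorem dec_mem {c γ ζ : ℂ} {r ρ : ℝ} (hr : 0 < r) (h : ‖γ‖ / r < ρ) (hζ : ζ ∈ sphere c r) :
    ζ - c ≠ 0 ∧ γ / (ζ - c) ∈ ball (0 : ℂ) ρ := by
  rw [mem_sphere_iff_norm] at hζ
  refine ⟨norm_pos_iff.1 (hζ ▸ hr), ?_⟩
  rw [mem_ball_zero_iff, norm_div, hζ]
  exact h

theorem inv_int0 {G : ℂ → ℂ} {c γ : ℂ} {r ρ : ℝ} (hr : 0 < r) (hG : DifferentiableOn ℂ G (ball 0 ρ))
    (h : ‖γ‖ / r < ρ) : (∮ ζ in C(c, r), G (γ / (ζ - c)) / (ζ - c) ^ 2) = 0 := by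
  by_cases hγ : γ = 0
  · refine circleIntegral.integral_eq_zero_of_hasDerivWithinAt (f := fun ζ => -G 0 / (ζ - c)) hr.le
      fun ζ hζ => HasDerivAt.hasDerivWithinAt ?_
    have h1 := (dec_mem hr h hζ).1
    refine ((hasDerivAt_const ζ (-G 0)).div ((hasDerivAt_id ζ).sub_const c) h1).congr_deriv ?_
    simp [hγ]
  · obtain ⟨H, hH⟩ := hG.isExactOn_ball
    refine circleIntegral.integral_eq_zero_of_hasDerivWithinAt
      (f := fun ζ => -γ⁻¹ * H (γ / (ζ - c))) hr.le fun ζ hζ => HasDerivAt.hasDerivWithinAt ?_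
    obtain ⟨h1, h2⟩ := dec_mem hr h hζ
    have h3 : HasDerivAt (fun ζ => γ / (ζ - c)) (-γ / (ζ - c) ^ 2) ζ := by
      refine ((hasDerivAt_const ζ γ).div ((hasDerivAt_id ζ).sub_const c) h1).congr_deriv ?_
      simp
    refine (((hH _ h2).comp ζ h3).const_mul (-γ⁻¹)).congr_deriv ?_
    field_simp

theorem inv_int1 {G : ℂ → ℂ} {c γ : ℂ} {r ρ : ℝ} (hr : 0 < r) (hG : DifferentiableOn ℂ G (ball 0 ρ))
    (h : ‖γ‖ / r < ρ) : ((2 * Real.pi * I)⁻¹ * ∮ ζ in C(c, r), G (γ / (ζ - c)) / (ζ - c)) = G 0 := by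
  have hρ : 0 < ρ := (div_nonneg (norm_nonneg γ) hr.le).trans_lt h
  have hK : DifferentiableOn ℂ (dslope G 0) (ball 0 ρ) :=
    (differentiableOn_dslope (ball_mem_nhds 0 hρ)).2 hG
  have h0 := inv_int0 (c := c) hr hK h
  have i1 : CircleIntegrable (fun ζ => G 0 * (ζ - c)⁻¹) c r :=
    ContinuousOn.circleIntegrable hr.le (continuousOn_const.mul
      (ContinuousOn.inv₀ (by fun_prop) fun ζ hζ => (dec_mem hr h hζ).1))
  have i2 : CircleIntegrable (fun ζ => γ * (dslope G 0 (γ / (ζ - c)) / (ζ - c) ^ 2)) c r :=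
    ContinuousOn.circleIntegrable hr.le (continuousOn_const.mul
      ((hK.continuousOn.comp (f := fun ζ => γ / (ζ - c))
        (continuousOn_const.div (by fun_prop) fun ζ hζ => (dec_mem hr h hζ).1)
        fun ζ hζ => (dec_mem hr h hζ).2).div (by fun_prop)
        fun ζ hζ => pow_ne_zero 2 (dec_mem hr h hζ).1))
  have e : (∮ ζ in C(c, r), G (γ / (ζ - c)) / (ζ - c)) =
      ∮ ζ in C(c, r), G 0 * (ζ - c)⁻¹ + γ * (dslope G 0 (γ / (ζ - c)) / (ζ - c) ^ 2) := by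
    refine circleIntegral.integral_congr hr.le fun ζ hζ => ?_
    have h1 := (dec_mem hr h hζ).1
    have h2 := sub_smul_dslope G 0 (γ / (ζ - c))
    rw [sub_zero, smul_eq_mul] at h2
    have h3 : G (γ / (ζ - c)) = G 0 + γ / (ζ - c) * dslope G 0 (γ / (ζ - c)) := by
      rw [h2]
      ring
    generalize dslope G 0 (γ / (ζ - c)) = k at h3
    rw [h3]
    field_simp
  rw [e, circleIntegral.integral_add i1 i2, circleIntegral.integral_const_mul,
    circleIntegral.integral_const_mul, h0, circleIntegral.integral_sub_center_inv c hr.ne']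
  have hpi : (2 * Real.pi * I : ℂ) ≠ 0 := two_pi_I_ne_zero
  field_simp
  ring

end Pool.Agent.MP_943ae2_gt

end
end

section

open Set Complex Filter
open scoped Topology ComplexConjugate ContDiff

noncomputable section

namespace Pool.Agent.MP_943ae2_gt

variable {ι : Type} {F : Frm ι} {d : Dat ι}

/-- the constant term of the Laurent expansion of `g v * k (γ / v)` -/
def resJ (r : ℝ) (γ : ℂ) (g k : ℂ → ℂ) : ℂ :=
  Real.circleAverage (fun v => g v * k (γ / v)) 0 r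

lemma res_norm_avg {f : ℂ → ℂ} {r M : ℝ} (hr : 0 ≤ r) (hf : ∀ v, ‖v‖ = r → ‖f v‖ ≤ M) :
    ‖Real.circleAverage f 0 r‖ ≤ M := by
  rw [Real.circleAverage_def, norm_smul]
  have h1 := intervalIntegral.norm_integral_le_of_norm_le_const (a := 0) (b := 2 * Real.pi)
    (f := fun θ => f (circleMap 0 r θ)) (C := M)
    (fun θ _ => hf _ (by simp [abs_of_nonneg hr]))
  have hp := Real.pi_pos
  rw [sub_zero, abs_of_pos (by positivity)] at h1
  rw [Real.norm_eq_abs, abs_of_pos (by positivity), inv_mul_le_iff₀ (by positivity)]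
  linarith

lemma res_mem {γ v : ℂ} {r ρ : ℝ} (hγ : ‖γ‖ / r < ρ) (hv : ‖v‖ = r) :
    γ / v ∈ Metric.ball (0 : ℂ) ρ := by
  rw [mem_ball_zero_iff, norm_div, hv]; exact hγ

lemma res_cont_inv {k : ℂ → ℂ} {γ : ℂ} {r ρ : ℝ} (hr : 0 < r)
    (hk : DifferentiableOn ℂ k (Metric.ball 0 ρ)) (hγ : ‖γ‖ / r < ρ) :
    ContinuousOn (fun v => k (γ / v)) (Metric.sphere 0 r) := by
  refine hk.continuousOn.comp (continuousOn_const.div continuousOn_id fun v hv => ?_)
    fun v hv => res_mem hγ (by simpa using hv)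
  have : ‖v‖ = r := by simpa using hv
  exact norm_pos_iff.1 (this ▸ hr)

lemma res_cont {g : ℂ → ℂ} {r ρ : ℝ} (hg : DifferentiableOn ℂ g (Metric.ball 0 ρ)) (hρ : r < ρ) :
    ContinuousOn g (Metric.sphere 0 r) :=
  hg.continuousOn.mono (Metric.sphere_subset_ball hρ)

lemma resJ_norm {g k : ℂ → ℂ} {γ : ℂ} {r ρ M N : ℝ} (hr : 0 < r) (hρ : r < ρ) (hγ : ‖γ‖ / r < ρ)
    (hg : ∀ v, ‖v‖ < ρ → ‖g v‖ ≤ M) (hk : ∀ v, ‖v‖ < ρ → ‖k v‖ ≤ N) :
    ‖resJ r γ g k‖ ≤ M * N := by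
  refine res_norm_avg hr.le fun v hv => ?_
  rw [norm_mul]
  have h1 := hg v (hv ▸ hρ)
  exact mul_le_mul h1 (hk _ (mem_ball_zero_iff.1 (res_mem hγ hv))) (norm_nonneg _)
    ((norm_nonneg _).trans h1)

lemma resJ_left {g k : ℂ → ℂ} {γ : ℂ} {r ρ : ℝ} (hr : 0 < r) (hρ : r < ρ) (hγ : ‖γ‖ / r < ρ)
    (hg : DifferentiableOn ℂ g (Metric.ball 0 ρ)) (hk : DifferentiableOn ℂ k (Metric.ball 0 ρ)) :
    resJ r γ g k - k 0 = resJ r γ (fun v => g v - 1) k := by
  have h1 : Real.circleAverage (fun v => k (γ / v)) 0 r = k 0 := by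
    rw [Real.circleAverage_eq_circleIntegral hr.ne', ← inv_int1 (c := 0) hr hk hγ, smul_eq_mul]
    congr 1
    refine circleIntegral.integral_congr hr.le fun v _ => ?_
    simp only [sub_zero, smul_eq_mul]
    ring
  have c2 := res_cont_inv hr hk hγ
  rw [← h1, resJ, resJ, ← Real.circleAverage_fun_sub (f₁ := fun v => g v * k (γ / v))
    (((res_cont hg hρ).mul c2).circleIntegrable hr.le) (c2.circleIntegrable hr.le)]
  congr 1
  funext v
  ring

lemma resJ_right {g k : ℂ → ℂ} {γ : ℂ} {r ρ : ℝ} (hr : 0 < r) (hρ : r < ρ) (hγ : ‖γ‖ / r < ρ)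
    (hg : DifferentiableOn ℂ g (Metric.ball 0 ρ)) (hk : DifferentiableOn ℂ k (Metric.ball 0 ρ)) :
    resJ r γ g k - g 0 = resJ r γ g (fun v => k v - 1) := by
  have h1 : Real.circleAverage g 0 r = g 0 := by
    refine circleAverage_of_differentiable_on_off_countable (s := ∅) countable_empty ?_ ?_
    · rw [abs_of_pos hr]
      exact hg.continuousOn.mono (Metric.closedBall_subset_ball hρ)
    · intro z hz
      rw [abs_of_pos hr] at hz
      exact hg.differentiableAt (Metric.isOpen_ball.mem_nhds (Metric.ball_subset_ball hρ.le hz.1))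
  have c1 := res_cont hg hρ
  rw [← h1, resJ, resJ, ← Real.circleAverage_fun_sub (f₁ := fun v => g v * k (γ / v))
    ((c1.mul (res_cont_inv hr hk hγ)).circleIntegrable hr.le) (c1.circleIntegrable hr.le)]
  congr 1
  funext v
  ring

lemma resJ_radius {g k : ℂ → ℂ} {γ : ℂ} {r r' ρ : ℝ} (hr : 0 < r) (hrr : r ≤ r') (hρ : r' < ρ)
    (hγ : ‖γ‖ / r < ρ)
    (hg : DifferentiableOn ℂ g (Metric.ball 0 ρ)) (hk : DifferentiableOn ℂ k (Metric.ball 0 ρ)) :
    resJ r' γ g k = resJ r γ g k := by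
  have key : ∀ v : ℂ, r ≤ ‖v‖ → ‖v‖ ≤ r' → DifferentiableAt ℂ (fun v => g v * k (γ / v)) v := by
    intro v h1 h2
    have hv : 0 < ‖v‖ := hr.trans_le h1
    have m1 : v ∈ Metric.ball (0 : ℂ) ρ := mem_ball_zero_iff.2 (h2.trans_lt hρ)
    have m2 : γ / v ∈ Metric.ball (0 : ℂ) ρ := by
      rw [mem_ball_zero_iff, norm_div]
      exact (div_le_div_of_nonneg_left (norm_nonneg _) hr h1).trans_lt hγ
    refine (hg.differentiableAt (Metric.isOpen_ball.mem_nhds m1)).mul ?_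
    exact (hk.differentiableAt (Metric.isOpen_ball.mem_nhds m2)).comp v
      ((differentiableAt_const γ).div differentiableAt_id (norm_pos_iff.1 hv))
  rw [resJ, resJ, Real.circleAverage_eq_circleIntegral hr.ne',
    Real.circleAverage_eq_circleIntegral (hr.trans_le hrr).ne']
  congr 1
  refine circleIntegral_sub_center_inv_smul_eq_of_differentiable_on_annulus_off_countable hr hrr
    countable_empty (fun v hv => (key v ?_ ?_).continuousAt.continuousWithinAt)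
    fun v hv => key v ?_ ?_
  · simpa using hv.2
  · simpa using hv.1
  · have := hv.1.2
    simp only [mem_closedBall_zero_iff, not_le] at this
    exact this.le
  · have := hv.1.1
    simp only [mem_ball_zero_iff] at this
    exact this.le

lemma resJ_conj {g k : ℂ → ℂ} {γ : ℂ} {r : ℝ} (hr : 0 < r) (hγ : γ ≠ 0) :
    conj (resJ r γ k (tl g)) = resJ (‖γ‖ / r) (conj γ) g (tl k) := by
  rw [resJ, resJ, Real.circleAverage_eq_integral_add (-arg γ) (R := ‖γ‖ / r),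
    Real.circleAverage_def, real_smul, real_smul, map_mul, conj_ofReal,
    ← intervalIntegral.intervalIntegral_conj]
  congr 2
  funext θ
  have hr' : (r : ℂ) ≠ 0 := ofReal_ne_zero.2 hr.ne'
  have e1 : circleMap 0 (‖γ‖ / r) (θ + -arg γ) = conj (γ / circleMap 0 r θ) := by
    have hγ' : conj γ = ‖γ‖ * exp (-(arg γ * I)) := by
      conv_lhs => rw [← norm_mul_exp_arg_mul_I γ]
      rw [map_mul, conj_ofReal, ← exp_conj, map_mul, conj_ofReal, conj_I, mul_neg]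
    rw [map_div₀, hγ', circleMap, circleMap, zero_add, zero_add, map_mul, conj_ofReal, ← exp_conj,
      map_mul, conj_ofReal, conj_I, mul_neg, exp_neg (θ * I)]
    push_cast
    rw [add_mul, exp_add, neg_mul]
    have := exp_ne_zero (θ * I)
    field_simp
  have hc : circleMap 0 r θ ≠ 0 := circleMap_ne_center hr.ne'
  rw [e1]
  have e2 : conj (conj γ / conj (γ / circleMap 0 r θ)) = circleMap 0 r θ := by
    rw [map_div₀, conj_conj, conj_conj]
    field_simp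
  simp only [tl, map_mul, conj_conj, e2]
  ring

lemma resJ_swap {g k : ℂ → ℂ} {γ : ℂ} {r ρ : ℝ} (hr : 0 < r) (hγ0 : γ ≠ 0) (hle : r ≤ ‖γ‖ / r)
    (hγ : ‖γ‖ / r < ρ)
    (hg : DifferentiableOn ℂ g (Metric.ball 0 ρ)) (hk : DifferentiableOn ℂ k (Metric.ball 0 ρ)) :
    conj (resJ r γ k (tl g)) = resJ r (conj γ) g (tl k) := by
  rw [resJ_conj hr hγ0]
  exact resJ_radius hr hle hγ (by simpa using hγ) hg (tl_differentiableOn hk)

/-- the residue of a product of two split functions -/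
lemma res_prod {f P Q P' Q' : ℂ → ℂ} {c β β' γ : ℂ} {r ρ : ℝ} (hr : 0 < r) (hρ : r < ρ)
    (hγ : ‖γ‖ / r < ρ) (hP : DifferentiableOn ℂ P (Metric.ball 0 ρ))
    (hQ : DifferentiableOn ℂ Q (Metric.ball 0 ρ)) (hP' : DifferentiableOn ℂ P' (Metric.ball 0 ρ))
    (hQ' : DifferentiableOn ℂ Q' (Metric.ball 0 ρ))
    (hf : ∀ v, ‖v‖ = r → f (c + v) = (P v + β / v * P' (γ / v)) * (Q v + β' / v * Q' (γ / v))) :
    (2 * Real.pi * I)⁻¹ * (∮ ζ in C(c, r), f ζ) = β' * resJ r γ P Q' + β * resJ r γ Q P' := by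
  have shift : (∮ ζ in C(c, r), f ζ) = ∮ v in C(0, r), f (c + v) := by
    simp [circleIntegral, circleMap]
  have hne : ∀ v ∈ Metric.sphere (0 : ℂ) r, v ≠ 0 := fun v hv => by
    have : ‖v‖ = r := by simpa using hv
    exact norm_pos_iff.1 (this ▸ hr)
  have cP := res_cont hP hρ
  have cQ := res_cont hQ hρ
  have cP' := res_cont_inv hr hP' hγ
  have cQ' := res_cont_inv hr hQ' hγ
  have ci : ContinuousOn (fun v : ℂ => (v - 0)⁻¹) (Metric.sphere 0 r) :=
    (continuousOn_id.sub continuousOn_const).inv₀ fun v hv => by simpa using hne v hv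
  have i1 : CircleIntegrable (fun v => P v * Q v) 0 r := (cP.mul cQ).circleIntegrable hr.le
  have i2 : CircleIntegrable (fun v => β' * ((v - 0)⁻¹ • (P v * Q' (γ / v)))) 0 r :=
    (continuousOn_const.mul (ci.smul (cP.mul cQ'))).circleIntegrable hr.le
  have i3 : CircleIntegrable (fun v => β * ((v - 0)⁻¹ • (Q v * P' (γ / v)))) 0 r :=
    (continuousOn_const.mul (ci.smul (cQ.mul cP'))).circleIntegrable hr.le
  have i4 : CircleIntegrable
      (fun v => β * β' * (P' (γ / (v - 0)) * Q' (γ / (v - 0)) / (v - 0) ^ 2)) 0 r := by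
    refine (continuousOn_const.mul (ContinuousOn.div ?_ (by fun_prop) ?_)).circleIntegrable hr.le
    · simp only [sub_zero]
      exact cP'.mul cQ'
    · intro v hv
      simpa using hne v hv
  have z1 : (∮ v in C(0, r), P v * Q v) = 0 :=
    circleIntegral_eq_zero_of_differentiable_on_off_countable hr.le countable_empty
      ((hP.mul hQ).continuousOn.mono (Metric.closedBall_subset_ball hρ)) fun z hz =>
      (hP.mul hQ).differentiableAt
        (Metric.isOpen_ball.mem_nhds (Metric.ball_subset_ball hρ.le hz.1))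
  have z4 := inv_int0 (G := fun w => P' w * Q' w) (c := 0) hr (hP'.mul hQ') hγ
  have e : (∮ v in C(0, r), f (c + v)) = ∮ v in C(0, r),
      (P v * Q v + β' * ((v - 0)⁻¹ • (P v * Q' (γ / v))) + β * ((v - 0)⁻¹ • (Q v * P' (γ / v))) +
        β * β' * (P' (γ / (v - 0)) * Q' (γ / (v - 0)) / (v - 0) ^ 2)) := by
    refine circleIntegral.integral_congr hr.le fun v hv => ?_
    have h0 := hne v hv
    simp only [hf v (by simpa using hv), sub_zero, smul_eq_mul]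
    field_simp
    ring
  have i12 : CircleIntegrable
      (fun v => P v * Q v + β' * ((v - 0)⁻¹ • (P v * Q' (γ / v)))) 0 r := i1.add i2
  have i123 : CircleIntegrable (fun v => P v * Q v + β' * ((v - 0)⁻¹ • (P v * Q' (γ / v))) +
      β * ((v - 0)⁻¹ • (Q v * P' (γ / v)))) 0 r := i12.add i3
  rw [shift, e, circleIntegral.integral_add i123 i4,
    circleIntegral.integral_add i12 i3, circleIntegral.integral_add i1 i2,
    circleIntegral.integral_const_mul, circleIntegral.integral_const_mul,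
    circleIntegral.integral_const_mul, z1, z4, resJ, resJ,
    Real.circleAverage_eq_circleIntegral hr.ne', Real.circleAverage_eq_circleIntegral hr.ne']
  simp only [smul_eq_mul]
  ring

namespace Frm.Adm

variable (h : F.Adm d)
include h

lemma res_big (e : ι × Bool) : ‖d.bet e ^ 2‖ / F.sr d e = 2 * F.R e := by
  have := h.bet_pos e
  have := h.R_pos e
  rw [norm_pow, Frm.sr]
  field_simp

lemma res_lt (e : ι × Bool) : ‖d.bet e ^ 2‖ / F.sr d e < 4 * F.R e := by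
  rw [h.res_big]
  linarith [h.R_pos e]

lemma res_le (e : ι × Bool) : F.sr d e ≤ ‖d.bet e ^ 2‖ / F.sr d e := by
  rw [h.res_big, Frm.sr, div_le_iff₀ (by linarith [h.R_pos e])]
  have h1 : 1 ≤ (F.t e.1)⁻¹ := one_le_inv₀ (h.t_pos _) |>.2 (by linarith [h.t_small e.1])
  have h2 : (F.t e.1)⁻¹ ≤ F.R e := le_self_pow₀ h1 (by norm_num)
  have h3 := (h.bet_le e).trans h2
  have h4 := h.bet_pos e
  nlinarith

lemma res_sr_lt (e : ι × Bool) : F.sr d e < 4 * F.R e := (h.res_le e).trans_lt (h.res_lt e)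

lemma res_holAt (e : ι × Bool) :
    DifferentiableOn ℂ (tl ((F.spin d).1 (opp e))) (Metric.ball 0 (4 * F.R e)) :=
  tl_differentiableOn (h.holA (opp e))

lemma res_holBt (e : ι × Bool) :
    DifferentiableOn ℂ (tl ((F.spin d).2 (opp e))) (Metric.ball 0 (4 * F.R e)) :=
  tl_differentiableOn (h.holB (opp e))

lemma res_bdAt (e : ι × Bool) (v : ℂ) (hv : ‖v‖ < 4 * F.R e) :
    ‖tl ((F.spin d).1 (opp e)) v - 1‖ ≤ 2 * F.t e.1 ^ 30 := by
  have := h.bdA (opp e) (v := conj v) (by simpa using hv)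
  rw [← norm_conj, map_sub, map_one] at this
  exact this

lemma res_bdBt (e : ι × Bool) (v : ℂ) (hv : ‖v‖ < 4 * F.R e) :
    ‖tl ((F.spin d).2 (opp e)) v‖ ≤ 4 * F.t e.1 ^ 30 := by
  have := h.bdB (opp e) (v := conj v) (by simpa using hv)
  rw [← norm_conj] at this
  exact this

lemma res_bdA (e : ι × Bool) (v : ℂ) (hv : ‖v‖ < 4 * F.R e) :
    ‖(F.spin d).1 e v‖ ≤ 1 + 2 * F.t e.1 ^ 30 := by
  have := h.bdA e hv
  have h2 := norm_add_le ((F.spin d).1 e v - 1) 1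
  rw [sub_add_cancel, norm_one] at h2
  linarith

lemma res_t30 (ν : ι) : 0 < F.t ν ^ 30 ∧ F.t ν ^ 30 ≤ 1 / 1000 :=
  ⟨pow_pos (h.t_pos ν) _, (pow_le_of_le_one (h.t_pos ν).le (by linarith [h.t_small ν])
    (by norm_num)).trans (h.t_small ν)⟩

lemma res_b_split (e : ι × Bool) {v : ℂ} (hv : ‖v‖ < 4 * F.R e) :
    F.b d (F.lay e) (d.pos e + v) =
      (F.spin d).2 e v + -d.bet e / v * tl ((F.spin d).1 (opp e)) (d.bet e ^ 2 / v) := by
  rw [h.b_split e hv]
  ring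

lemma res_ra (e : ι × Bool) : F.ra d e =
    2 * d.bet e * resJ (F.sr d e) (d.bet e ^ 2) ((F.spin d).1 e) (tl ((F.spin d).2 (opp e))) := by
  rw [Frm.ra, Frm.res, res_prod (β := d.bet e) (β' := d.bet e) (h.sr_pos e) (h.res_sr_lt e)
    (h.res_lt e) (h.holA e) (h.holA e) (h.res_holBt e) (h.res_holBt e) fun v hv => by
      rw [Frm.aa, h.a_split e (hv ▸ h.res_sr_lt e), sq]]
  ring

lemma res_rb (e : ι × Bool) : F.rb d e =
    -(2 * d.bet e * resJ (F.sr d e) (d.bet e ^ 2) ((F.spin d).2 e) (tl ((F.spin d).1 (opp e)))) := by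
  rw [Frm.rb, Frm.res, res_prod (β := -d.bet e) (β' := -d.bet e) (h.sr_pos e) (h.res_sr_lt e)
    (h.res_lt e) (h.holB e) (h.holB e) (h.res_holAt e) (h.res_holAt e) fun v hv => by
      rw [Frm.bb, h.res_b_split e (hv ▸ h.res_sr_lt e), sq]]
  ring

lemma res_rab (e : ι × Bool) : F.rab d e =
    -d.bet e * resJ (F.sr d e) (d.bet e ^ 2) ((F.spin d).1 e) (tl ((F.spin d).1 (opp e))) +
    d.bet e * resJ (F.sr d e) (d.bet e ^ 2) ((F.spin d).2 e) (tl ((F.spin d).2 (opp e))) := by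
  rw [Frm.rab, Frm.res, res_prod (β := d.bet e) (β' := -d.bet e) (h.sr_pos e) (h.res_sr_lt e)
    (h.res_lt e) (h.holA e) (h.holB e) (h.res_holBt e) (h.res_holAt e) fun v hv => by
      rw [Frm.ab, h.a_split e (hv ▸ h.res_sr_lt e), h.res_b_split e (hv ▸ h.res_sr_lt e)]]

theorem ra_est (e : ι × Bool) :
    ‖F.ra d e - 2 * d.bet e * conj ((F.spin d).2 (opp e) 0)‖ ≤ 16 * ‖d.bet e‖ * F.t e.1 ^ 60 := by
  have h0 : conj ((F.spin d).2 (opp e) 0) = tl ((F.spin d).2 (opp e)) 0 := by simp [tl]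
  rw [h.res_ra, h0, ← mul_sub, resJ_left (h.sr_pos e) (h.res_sr_lt e) (h.res_lt e) (h.holA e)
    (h.res_holBt e), norm_mul, norm_mul]
  have h1 := resJ_norm (g := fun v => (F.spin d).1 e v - 1) (h.sr_pos e) (h.res_sr_lt e)
    (h.res_lt e) (fun v hv => h.bdA e hv) (h.res_bdBt e)
  have h2 := mul_le_mul_of_nonneg_left h1 (h.bet_pos e).le
  simp only [Complex.norm_ofNat]
  nlinarith

theorem rb_est (e : ι × Bool) :
    ‖F.rb d e + 2 * d.bet e * (F.spin d).2 e 0‖ ≤ 16 * ‖d.bet e‖ * F.t e.1 ^ 60 := by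
  rw [h.res_rb, neg_add_eq_sub, norm_sub_rev, ← mul_sub, resJ_right (h.sr_pos e) (h.res_sr_lt e)
    (h.res_lt e) (h.holB e) (h.res_holAt e), norm_mul, norm_mul]
  have h1 := resJ_norm (k := fun v => tl ((F.spin d).1 (opp e)) v - 1) (h.sr_pos e) (h.res_sr_lt e)
    (h.res_lt e) (fun v hv => h.bdB e hv) (h.res_bdAt e)
  have h2 := mul_le_mul_of_nonneg_left h1 (h.bet_pos e).le
  simp only [Complex.norm_ofNat]
  nlinarith

theorem rab_est (e : ι × Bool) : ‖F.rab d e + d.bet e‖ ≤ 10 * ‖d.bet e‖ * F.t e.1 ^ 30 := by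
  have h1 := resJ_norm (k := fun v => tl ((F.spin d).1 (opp e)) v - 1) (h.sr_pos e) (h.res_sr_lt e)
    (h.res_lt e) (h.res_bdA e) (h.res_bdAt e)
  rw [← resJ_right (h.sr_pos e) (h.res_sr_lt e) (h.res_lt e) (h.holA e) (h.res_holAt e)] at h1
  have h2 := resJ_norm (h.sr_pos e) (h.res_sr_lt e) (h.res_lt e) (fun v hv => h.bdB e hv)
    (h.res_bdBt e)
  have h3 := h.bdA e (v := 0) (by simpa using h.R_pos e)
  rw [h.res_rab]
  set x := resJ (F.sr d e) (d.bet e ^ 2) ((F.spin d).1 e) (tl ((F.spin d).1 (opp e)))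
  set y := resJ (F.sr d e) (d.bet e ^ 2) ((F.spin d).2 e) (tl ((F.spin d).2 (opp e)))
  set z := (F.spin d).1 e 0
  have e1 : -d.bet e * x + d.bet e * y + d.bet e = d.bet e * (y - (x - z) - (z - 1)) := by ring
  have h4 : ‖y - (x - z) - (z - 1)‖ ≤ 10 * F.t e.1 ^ 30 := by
    have := norm_sub_le (y - (x - z)) (z - 1)
    have := norm_sub_le y (x - z)
    obtain ⟨h5, h6⟩ := h.res_t30 e.1
    nlinarith
  rw [e1, norm_mul]
  have := mul_le_mul_of_nonneg_left h4 (h.bet_pos e).le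
  linarith

theorem ra_le (e : ι × Bool) : ‖F.ra d e‖ ≤ 10 * ‖d.bet e‖ * F.t e.1 ^ 30 := by
  have h1 := resJ_norm (h.sr_pos e) (h.res_sr_lt e) (h.res_lt e) (h.res_bdA e) (h.res_bdBt e)
  obtain ⟨h5, h6⟩ := h.res_t30 e.1
  have h2 := mul_le_mul_of_nonneg_left (h1.trans (by nlinarith : _ ≤ 5 * F.t e.1 ^ 30))
    (h.bet_pos e).le
  rw [h.res_ra, norm_mul, norm_mul]
  simp only [Complex.norm_ofNat]
  linarith

omit h in
lemma res_sr_opp (e : ι × Bool) : F.sr d (opp e) = F.sr d e := by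
  simp [Frm.sr]

lemma res_swap (e : ι × Bool) {g k : ℂ → ℂ} (hg : DifferentiableOn ℂ g (Metric.ball 0 (4 * F.R e)))
    (hk : DifferentiableOn ℂ k (Metric.ball 0 (4 * F.R e))) :
    resJ (F.sr d (opp e)) (d.bet (opp e) ^ 2) g (tl k) =
      conj (resJ (F.sr d e) (d.bet e ^ 2) k (tl g)) := by
  rw [resJ_swap (h.sr_pos e) (pow_ne_zero 2 (h.bet_ne e)) (h.res_le e) (h.res_lt e) hg hk,
    res_sr_opp, bet_opp, neg_sq, map_pow]

theorem ra_opp (e : ι × Bool) : F.ra d (opp e) = conj (F.rb d e) := by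
  rw [h.res_ra, h.res_rb, opp_opp, h.res_swap e (h.holA (opp e)) (h.holB e), bet_opp]
  simp only [map_neg, map_mul, map_ofNat]
  ring

theorem rab_opp (e : ι × Bool) : F.rab d (opp e) = -conj (F.rab d e) := by
  rw [h.res_rab, h.res_rab, opp_opp, h.res_swap e (h.holA (opp e)) (h.holA e),
    h.res_swap e (h.holB (opp e)) (h.holB e), bet_opp]
  simp only [map_neg, map_mul, map_add]
  ring

theorem rab_lo (ν : ι) : (F.rab d (ν, false)).re ≤ -(‖d.2 ν‖ / 2) := by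
  have h1 := h.rab_est (ν, false)
  have h2 := h.b_real ν
  have h3 := h.b_ge (ν, false)
  rw [bet_false] at h1 h3
  have h4 := (re_le_norm _).trans h1
  have h5 := (neg_le_of_abs_le ((abs_re_le_norm _).trans h2))
  rw [add_re] at h4
  rw [sub_re, ofReal_re] at h5
  obtain ⟨h6, h7⟩ := h.res_t30 ν
  have ht := h.t_pos ν
  have h8 : F.t ν ^ 19 ≤ 1 / 1000 :=
    (pow_le_of_le_one ht.le (by linarith [h.t_small ν]) (by norm_num)).trans (h.t_small ν)
  have h9 : F.t ν ^ 20 ≤ F.t ν * (1 / 1000) := by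
    rw [pow_succ']
    exact mul_le_mul_of_nonneg_left h8 ht.le
  dsimp only at h3 h4
  nlinarith

theorem rab_up (ν : ι) : ‖d.2 ν‖ / 2 ≤ (F.rab d (ν, true)).re := by
  have h1 := h.rab_opp (ν, false)
  rw [opp_false] at h1
  rw [h1, neg_re, conj_re]
  linarith [h.rab_lo ν]

theorem rab_le (e : ι × Bool) : |(F.rab d e).re| ≤ 2 * ‖d.bet e‖ := by
  have h1 := h.rab_est e
  have h2 := norm_sub_le (F.rab d e + d.bet e) (d.bet e)
  rw [add_sub_cancel_right] at h2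
  obtain ⟨h6, h7⟩ := h.res_t30 e.1
  have h3 := h.bet_pos e
  refine (abs_re_le_norm _).trans ?_
  nlinarith

end Frm.Adm

end Pool.Agent.MP_943ae2_gt

end
end

section

open Set Complex Filter
open scoped Topology ComplexConjugate ContDiff

noncomputable section

namespace Pool.Agent.MP_943ae2_gt

variable {ι : Type} {F : Frm ι} {d : Dat ι} {C : ℕ → ℝ}

/-- the real differential of `z ↦ log ‖z - p‖` -/
lemma prim_log_hd {z p : ℂ} (hz : z - p ≠ 0) :
    ∃ L : ℂ →L[ℝ] ℝ, HasFDerivAt (fun w => Real.log ‖w - p‖) L z ∧ ∀ v, L v = (v / (z - p)).re := by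
  have h1 : HasDerivAt (fun w => (w - p) / (z - p)) (1 / (z - p)) z :=
    ((hasDerivAt_id z).sub_const p).div_const (z - p)
  have h2 : HasDerivAt (fun w => Complex.log ((w - p) / (z - p))) (1 / (z - p)) z := by
    have := h1.clog (by rw [div_self hz]; exact one_mem_slitPlane)
    simpa [div_self hz] using this
  have h3 := (reCLM.hasFDerivAt.comp z (h2.hasFDerivAt.restrictScalars ℝ)).add_const
    (Real.log ‖z - p‖)
  refine ⟨_, h3.congr_of_eventuallyEq ?_, fun v => ?_⟩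
  · have : ∀ᶠ w in 𝓝 z, w - p ≠ 0 :=
      (continuous_id.sub continuous_const).continuousAt.eventually_ne hz
    filter_upwards [this] with w hw
    simp only [Function.comp, reCLM_apply, log_re, norm_div]
    rw [Real.log_div (norm_ne_zero_iff.2 hw) (norm_ne_zero_iff.2 hz)]
    ring
  · simp [div_eq_mul_inv]

lemma prim_mk3_eq (z : ℂ) (t : ℝ) : mk3 z t =
    z.re • EuclideanSpace.single (0 : Fin 3) (1 : ℝ) + z.im • EuclideanSpace.single (1 : Fin 3) (1 : ℝ) +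
      t • EuclideanSpace.single (2 : Fin 3) (1 : ℝ) := by
  ext i
  fin_cases i <;> simp [mk3]

lemma prim_mk3_hd {H : ℂ → ℂ} {g : ℂ → ℝ} {L : ℂ →L[ℝ] ℂ} {L' : ℂ →L[ℝ] ℝ} {z : ℂ}
    (hH : HasFDerivAt H L z) (hg : HasFDerivAt g L' z) :
    ∃ M : ℂ →L[ℝ] E3, HasFDerivAt (fun w => mk3 (H w) (g w)) M z ∧ ∀ v, M v = mk3 (L v) (L' v) := by
  have h1 := (reCLM.hasFDerivAt.comp z hH).smul_const (EuclideanSpace.single (0 : Fin 3) (1 : ℝ))
  have h2 := (imCLM.hasFDerivAt.comp z hH).smul_const (EuclideanSpace.single (1 : Fin 3) (1 : ℝ))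
  have h3 := hg.smul_const (EuclideanSpace.single (2 : Fin 3) (1 : ℝ))
  refine ⟨_, ((h1.add h2).add h3).congr_of_eventuallyEq (Eventually.of_forall fun w => ?_),
    fun v => ?_⟩
  · simp [prim_mk3_eq]
  · simp [prim_mk3_eq]

namespace Frm.Adm

variable (h : F.Adm d)
include h

lemma prim_inv_t (e : ι × Bool) : 1000 ≤ (F.t e.1)⁻¹ := by
  have h1 := h.t_pos e.1
  have h2 := h.t_small e.1
  rw [le_inv_comm₀ (by norm_num) h1]
  linarith

lemma prim_bet_le_R (e : ι × Bool) : ‖d.bet e‖ ≤ F.R e := by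
  have h1 := h.prim_inv_t e
  refine (h.bet_le e).trans ?_
  exact le_self_pow₀ (by linarith) (by norm_num)

lemma prim_sr_le (e : ι × Bool) : F.sr d e ≤ F.R e := by
  have h1 := h.prim_bet_le_R e
  have h2 := h.bet_pos e
  have h3 := h.R_pos e
  unfold Frm.sr
  rw [div_le_iff₀ (by positivity)]
  nlinarith

lemma prim_sr_gt (e : ι × Bool) : ‖d.bet e‖ ^ 2 / (4 * F.R e) < F.sr d e := by
  have h2 := h.bet_pos e
  have h3 := h.R_pos e
  unfold Frm.sr
  exact div_lt_div_of_pos_left (by positivity) (by positivity) (by linarith)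

lemma prim_two_sr (e : ι × Bool) : 2 * F.sr d e = ‖d.bet e‖ ^ 2 / F.R e := by
  have h3 := h.R_pos e
  unfold Frm.sr
  field_simp

lemma prim_sph (e : ι × Bool) : Metric.sphere (d.pos e) (F.sr d e) ⊆ F.Big d (F.lay e) := by
  intro ζ hζ
  have h1 : ‖ζ - d.pos e‖ = F.sr d e := mem_sphere_iff_norm.1 hζ
  have h2 := h.mem_Big e (v := ζ - d.pos e) (by rw [h1]; exact h.prim_sr_gt e)
    (by rw [h1]; have := h.prim_sr_le e; have := h.R_pos e; linarith)
  simpa using h2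

lemma prim_a_le {k : ℕ} {z : ℂ} (hz : z ∈ F.Big d k) : ‖F.a d k z‖ ≤ 2 := by
  have h1 := h.a_near hz
  have h2 : F.T k ^ 11 ≤ 1 := pow_le_one₀ (h.T_pos k).le ((h.T_le k).trans (by norm_num))
  calc ‖F.a d k z‖ = ‖(F.a d k z - 1) + 1‖ := by simp
    _ ≤ ‖F.a d k z - 1‖ + ‖(1 : ℂ)‖ := norm_add_le _ _
    _ ≤ 2 := by rw [norm_one]; linarith

lemma prim_b_le (e : ι × Bool) {ζ : ℂ} (hζ : ζ ∈ Metric.sphere (d.pos e) (F.sr d e)) :
    ‖F.b d (F.lay e) ζ‖ ≤ 5 * F.R e / ‖d.bet e‖ := by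
  have h1 : ‖ζ - d.pos e‖ = F.sr d e := mem_sphere_iff_norm.1 hζ
  simpa using h.b_contour e h1

theorem prim_aa (e : ι × Bool) {z : ℂ} (hz : ‖d.bet e‖ ^ 2 / F.R e ≤ ‖z - d.pos e‖) :
    ‖F.prim d (F.aa d (F.lay e)) e z‖ ≤ 2 * ‖d.bet e‖ ^ 4 / (F.R e ^ 2 * ‖z - d.pos e‖) := by
  have h2 := h.bet_pos e
  have h3 := h.R_pos e
  have h4 : 0 < ‖z - d.pos e‖ := lt_of_lt_of_le (by positivity) hz
  have hb := prim_bound (f := F.aa d (F.lay e)) (M := 4) (z := z) (h.sr_pos e) (fun ζ hζ => by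
    have := h.prim_a_le (h.prim_sph e hζ)
    unfold Frm.aa
    rw [norm_pow]
    nlinarith [norm_nonneg (F.a d (F.lay e) ζ)]) (by rw [h.prim_two_sr]; exact hz)
  refine hb.trans (le_of_eq ?_)
  unfold Frm.sr
  field_simp
  ring

theorem prim_ab (e : ι × Bool) {z : ℂ} (hz : ‖d.bet e‖ ^ 2 / F.R e ≤ ‖z - d.pos e‖) :
    ‖F.prim d (F.ab d (F.lay e)) e z‖ ≤ 5 * ‖d.bet e‖ ^ 3 / (F.R e * ‖z - d.pos e‖) := by
  have h2 := h.bet_pos e
  have h3 := h.R_pos e
  have h4 : 0 < ‖z - d.pos e‖ := lt_of_lt_of_le (by positivity) hz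
  have hb := prim_bound (f := F.ab d (F.lay e)) (M := 2 * (5 * F.R e / ‖d.bet e‖)) (z := z)
    (h.sr_pos e) (fun ζ hζ => by
    unfold Frm.ab
    rw [norm_mul]
    exact mul_le_mul (h.prim_a_le (h.prim_sph e hζ)) (h.prim_b_le e hζ) (norm_nonneg _)
      (by norm_num)) (by rw [h.prim_two_sr]; exact hz)
  refine hb.trans (le_of_eq ?_)
  unfold Frm.sr
  field_simp

theorem prim_bb (e : ι × Bool) {z : ℂ} (hz : ‖d.bet e‖ ^ 2 / F.R e ≤ ‖z - d.pos e‖) :
    ‖F.prim d (F.bb d (F.lay e)) e z‖ ≤ 13 * ‖d.bet e‖ ^ 2 / ‖z - d.pos e‖ := by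
  have h2 := h.bet_pos e
  have h3 := h.R_pos e
  have h4 : 0 < ‖z - d.pos e‖ := lt_of_lt_of_le (by positivity) hz
  have hb := prim_bound (f := F.bb d (F.lay e)) (M := (5 * F.R e / ‖d.bet e‖) ^ 2) (z := z)
    (h.sr_pos e) (fun ζ hζ => by
    unfold Frm.bb
    rw [norm_pow]
    exact pow_le_pow_left₀ (norm_nonneg _) (h.prim_b_le e hζ) 2) (by rw [h.prim_two_sr]; exact hz)
  refine hb.trans ?_
  refine div_le_div_of_nonneg_right ?_ h4.le
  have : 2 * (5 * F.R e / ‖d.bet e‖) ^ 2 * F.sr d e ^ 2 = 25 / 2 * ‖d.bet e‖ ^ 2 := by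
    unfold Frm.sr
    field_simp
    ring
  rw [this]
  nlinarith [sq_nonneg ‖d.bet e‖]

lemma prim_U_lt {k : ℕ} {z : ℂ} (hz : z ∈ F.U d k) {e : ι × Bool} (he : e ∈ F.sides k) :
    F.sr d e < ‖z - d.pos e‖ := by
  have h1 := hz e he
  rw [← h.prim_two_sr] at h1
  have := h.sr_pos e
  linarith

lemma prim_U_ne {k : ℕ} {z : ℂ} (hz : z ∈ F.U d k) {e : ι × Bool} (he : e ∈ F.sides k) :
    z - d.pos e ≠ 0 :=
  norm_pos_iff.1 ((h.sr_pos e).trans (h.prim_U_lt hz he))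

lemma prim_hd {k : ℕ} {f : ℂ → ℂ} (hf : DifferentiableOn ℂ f (F.Big d k)) {z : ℂ}
    (hz : z ∈ F.U d k) {e : ι × Bool} (he : e ∈ F.sides k) :
    HasDerivAt (F.prim d f e)
      (((2 * Real.pi * I)⁻¹ * ∮ ζ in C(d.pos e, F.sr d e), f ζ / (z - ζ)) -
        F.res d f e / (z - d.pos e)) z := by
  have hk : F.lay e = k := mem_sides_iff.1 he
  exact prim_deriv (h.sr_pos e) (hf.continuousOn.mono (hk ▸ h.prim_sph e)) (h.prim_U_lt hz he)

lemma prim_sum_hd {k : ℕ} {f : ℂ → ℂ} {f0 : ℂ} (hf : DifferentiableOn ℂ f (F.Big d k))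
    (hi : Tendsto f (Bornology.cobounded ℂ) (𝓝 f0)) {z : ℂ} (hz : z ∈ F.U d k) :
    HasDerivAt (fun w => ∑ e ∈ F.sides k, F.prim d f e w)
      (f z - f0 - ∑ e ∈ F.sides k, F.res d f e / (z - d.pos e)) z := by
  have h1 := HasDerivAt.fun_sum (u := F.sides k) fun e he => h.prim_hd hf hz he
  have h2 := decomp (F.sides k) d.pos (F.sr d) (isOpen_Big k)
    (fun w hw e he => (h.prim_sr_gt e).trans_le (hw e he)) hf (fun e _ => h.sr_pos e)
    (fun e he e' he' hne => by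
      have hm : e' ∈ F.oth e :=
        mem_oth.2 ⟨hne.symm, (mem_sides_iff.1 he').trans (mem_sides_iff.1 he).symm⟩
      have := h.sep e e' hm
      have := h.sep' hm
      have := h.prim_sr_le e
      have := h.prim_sr_le e'
      have := h.R_pos e
      linarith) hi (fun e he => h.prim_U_lt hz he)
  refine h1.congr_deriv ?_
  rw [Finset.sum_sub_distrib, h2]
  ring

lemma prim_hol_aa (k : ℕ) : DifferentiableOn ℂ (F.aa d k) (F.Big d k) := (h.hol_a k).pow 2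

lemma prim_hol_ab (k : ℕ) : DifferentiableOn ℂ (F.ab d k) (F.Big d k) := (h.hol_a k).mul (h.hol_b k)

lemma prim_hol_bb (k : ℕ) : DifferentiableOn ℂ (F.bb d k) (F.Big d k) := (h.hol_b k).pow 2

lemma prim_log_cont {k : ℕ} {z : ℂ} (hz : z ∈ F.U d k) {e : ι × Bool} (he : e ∈ F.sides k) :
    ContinuousAt (fun w => Real.log ‖w - d.pos e‖) z := by
  obtain ⟨L, hL, -⟩ := prim_log_hd (h.prim_U_ne hz he)
  exact hL.continuousAt

theorem H_cont (k : ℕ) : ContinuousOn (F.H d k) (F.U d k) := by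
  intro z hz
  refine ContinuousAt.continuousWithinAt ?_
  unfold Frm.H
  refine continuousAt_id.add (tendsto_finsetSum _ fun e he => ?_)
  have h1 := (h.prim_hd (h.prim_hol_aa k) hz he).continuousAt
  have h2 := (h.prim_hd (h.prim_hol_bb k) hz he).continuousAt
  have h3 := h.prim_log_cont hz he
  exact (h1.sub (continuous_conj.continuousAt.comp h2)).add
    (continuousAt_const.mul (continuous_ofReal.continuousAt.comp h3))

theorem h0_cont (k : ℕ) : ContinuousOn (F.h0 d k) (F.U d k) := by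
  intro z hz
  refine ContinuousAt.continuousWithinAt ?_
  unfold Frm.h0
  refine tendsto_finsetSum _ fun e he => ?_
  have h1 := (h.prim_hd (h.prim_hol_ab k) hz he).continuousAt
  have h3 := h.prim_log_cont hz he
  exact (continuous_re.continuousAt.comp h1).add (continuousAt_const.mul h3)

lemma prim_hor (hs : F.Sol d C) (e : ι × Bool) : conj (F.rb d e) = -F.ra d e := by
  rcases e with ⟨ν, _ | _⟩
  · have h1 := congrArg conj (hs.hor ν)
    rw [map_add, conj_conj, map_zero] at h1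
    linear_combination h1
  · have h1 := h.ra_opp (ν, false)
    have h2 := h.ra_opp (ν, true)
    have h3 := congrArg conj (hs.hor ν)
    rw [map_add, conj_conj, map_zero] at h3
    rw [opp_false] at h1
    rw [opp_true] at h2
    linear_combination h3 - h2 + h1

lemma prim_ver (hs : F.Sol d C) (e : ι × Bool) : (F.rab d e).im = 0 := by
  rcases e with ⟨ν, _ | _⟩
  · exact hs.ver ν
  · have h1 := h.rab_opp (ν, false)
    rw [opp_false] at h1
    rw [h1]
    simp [hs.ver ν]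

theorem H_deriv (hs : F.Sol d C) {k : ℕ} {z : ℂ} (hz : z ∈ F.U d k) :
    ∃ L : ℂ →L[ℝ] ℂ, HasFDerivAt (F.H d k) L z ∧
      ∀ v, L v = F.a d k z ^ 2 * v - conj (F.b d k z ^ 2 * v) := by
  have ha := (h.prim_sum_hd (h.prim_hol_aa k) (f0 := 1)
    (by have := (h.a_tendsto k).pow 2; rwa [one_pow] at this) hz).hasFDerivAt.restrictScalars ℝ
  have hb := (h.prim_sum_hd (h.prim_hol_bb k) (f0 := 0)
    (by have := (h.b_tendsto k).pow 2; rwa [zero_pow two_ne_zero] at this) hz).hasFDerivAt.restrictScalars ℝ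
  have hb' := conjCLE.toContinuousLinearMap.hasFDerivAt.comp z hb
  have hl : ∀ e : ι × Bool, ∃ L : ℂ →L[ℝ] ℝ, e ∈ F.sides k →
      HasFDerivAt (fun w => Real.log ‖w - d.pos e‖) L z ∧ ∀ v, L v = (v / (z - d.pos e)).re := by
    intro e
    by_cases he : e ∈ F.sides k
    · obtain ⟨L, hL⟩ := prim_log_hd (h.prim_U_ne hz he)
      exact ⟨L, fun _ => hL⟩
    · exact ⟨0, fun h' => absurd h' he⟩
  choose L hL using hl
  have hc := HasFDerivAt.fun_sum (u := F.sides k) fun e he =>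
    (ofRealCLM.hasFDerivAt.comp z (hL e he).1).const_mul (2 * F.ra d e)
  refine ⟨_, (((hasFDerivAt_id z).add (ha.sub hb')).add hc).congr_of_eventuallyEq
    (Eventually.of_forall fun w => ?_), fun v => ?_⟩
  · simp only [Frm.H, Finset.sum_add_distrib, Finset.sum_sub_distrib, Pi.add_apply, Pi.sub_apply,
      id, Function.comp, ofRealCLM_apply, ContinuousLinearEquiv.coe_coe, conjCLE_apply, map_sum]
    ring
  · have key : ∑ e ∈ F.sides k, (2 * F.ra d e) * ((L e v : ℝ) : ℂ) =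
        v * ∑ e ∈ F.sides k, F.res d (F.aa d k) e / (z - d.pos e) -
          conj (v * ∑ e ∈ F.sides k, F.res d (F.bb d k) e / (z - d.pos e)) := by
      rw [Finset.mul_sum, Finset.mul_sum, map_sum, ← Finset.sum_sub_distrib]
      refine Finset.sum_congr rfl fun e he => ?_
      have hk : F.lay e = k := mem_sides_iff.1 he
      have e1 : F.res d (F.aa d k) e = F.ra d e := by rw [← hk]; rfl
      have e2 : F.res d (F.bb d k) e = F.rb d e := by rw [← hk]; rfl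
      have e3 : v * (F.rb d e / (z - d.pos e)) = F.rb d e * (v / (z - d.pos e)) := by ring
      rw [(hL e he).2, e1, e2, e3, map_mul, h.prim_hor hs e, re_eq_add_conj]
      ring
    simp only [_root_.add_apply, _root_.sub_apply,
      _root_.sum_apply, _root_.smul_apply, ContinuousLinearMap.comp_apply,
      ContinuousLinearMap.id_apply, ContinuousLinearMap.coe_restrictScalars',
      ContinuousLinearMap.toSpanSingleton_apply, ofRealCLM_apply, smul_eq_mul,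
      ContinuousLinearEquiv.coe_coe, conjCLE_apply]
    rw [key]
    simp only [Frm.aa, Frm.bb, map_mul, map_sub, map_zero]
    ring

theorem h0_deriv (hs : F.Sol d C) {k : ℕ} {z : ℂ} (hz : z ∈ F.U d k) :
    ∃ L : ℂ →L[ℝ] ℝ, HasFDerivAt (F.h0 d k) L z ∧ ∀ v, L v = (F.a d k z * F.b d k z * v).re := by
  have ha := (h.prim_sum_hd (h.prim_hol_ab k) (f0 := 0)
    (by have := (h.a_tendsto k).mul (h.b_tendsto k); rwa [mul_zero] at this) hz).hasFDerivAt.restrictScalars ℝ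
  have ha' := reCLM.hasFDerivAt.comp z ha
  have hl : ∀ e : ι × Bool, ∃ L : ℂ →L[ℝ] ℝ, e ∈ F.sides k →
      HasFDerivAt (fun w => Real.log ‖w - d.pos e‖) L z ∧ ∀ v, L v = (v / (z - d.pos e)).re := by
    intro e
    by_cases he : e ∈ F.sides k
    · obtain ⟨L, hL⟩ := prim_log_hd (h.prim_U_ne hz he)
      exact ⟨L, fun _ => hL⟩
    · exact ⟨0, fun h' => absurd h' he⟩
  choose L hL using hl
  have hc := HasFDerivAt.fun_sum (u := F.sides k) fun e he =>
    (hL e he).1.const_mul (F.rab d e).re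
  refine ⟨_, (ha'.add hc).congr_of_eventuallyEq (Eventually.of_forall fun w => ?_), fun v => ?_⟩
  · simp only [Frm.h0, Finset.sum_add_distrib, Pi.add_apply, Function.comp, reCLM_apply, re_sum]
  · have key : ∑ e ∈ F.sides k, (F.rab d e).re * L e v =
        (v * ∑ e ∈ F.sides k, F.res d (F.ab d k) e / (z - d.pos e)).re := by
      rw [Finset.mul_sum, re_sum]
      refine Finset.sum_congr rfl fun e he => ?_
      have hk : F.lay e = k := mem_sides_iff.1 he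
      have e1 : F.res d (F.ab d k) e = F.rab d e := by rw [← hk]; rfl
      have e3 : v * (F.rab d e / (z - d.pos e)) = F.rab d e * (v / (z - d.pos e)) := by ring
      rw [(hL e he).2, e1, e3, mul_re, h.prim_ver hs e]
      ring
    simp only [_root_.add_apply,
      _root_.sum_apply, _root_.smul_apply, ContinuousLinearMap.comp_apply,
      ContinuousLinearMap.coe_restrictScalars',
      ContinuousLinearMap.toSpanSingleton_apply, reCLM_apply, smul_eq_mul]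
    rw [key, ← add_re]
    congr 1
    simp only [Frm.ab]
    ring

theorem wei (hs : F.Sol d C) {k : ℕ} {z : ℂ} (hz : z ∈ F.U d k) :
    Wei (F.X d C k) (F.a d k z) (F.b d k z) z := by
  obtain ⟨L, hL, eL⟩ := h.H_deriv hs hz
  obtain ⟨L', hL', eL'⟩ := h.h0_deriv hs hz
  obtain ⟨M, hM, eM⟩ := prim_mk3_hd hL ((hL'.const_add (C k)).const_mul 2)
  refine ⟨M, hM, fun v => ?_⟩
  rw [eM, eL, _root_.smul_apply, eL', smul_eq_mul]

lemma prim_log_est {k : ℕ} {z : ℂ} (hz : z ∈ F.Ub d k) {e : ι × Bool} (he : e ∈ F.sides k) :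
    |Real.log ‖z - d.pos e‖ - Real.log (‖z‖ + Real.exp (F.T k)⁻¹)| ≤ 4 * (F.T k)⁻¹ := by
  have hk : F.lay e = k := mem_sides_iff.1 he
  have hT : 1000 ≤ (F.T k)⁻¹ := by
    have h1 := h.T_pos k
    have h2 := h.T_le k
    rw [le_inv_comm₀ (by norm_num) h1]
    linarith
  obtain ⟨τ, hτ⟩ : ∃ τ, τ = (F.T k)⁻¹ := ⟨_, rfl⟩
  have hp : ‖d.pos e‖ ≤ Real.exp τ := by rw [hτ, ← hk]; exact h.pos_le e
  have hx : Real.exp (-τ) ≤ ‖z - d.pos e‖ := by
    rw [hτ, ← hk]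
    exact (h.t_ge e).trans ((h.b_ge e).trans (hz e he))
  rw [← hτ] at hT ⊢
  have hE : 1 ≤ Real.exp τ := Real.one_le_exp (by linarith)
  have hx0 : 0 < ‖z - d.pos e‖ := (Real.exp_pos _).trans_le hx
  have hy0 : 0 < ‖z‖ + Real.exp τ := by positivity
  have h1 : ‖z - d.pos e‖ ≤ ‖z‖ + Real.exp τ := (norm_sub_le _ _).trans (by linarith)
  have h2 : ‖z‖ - Real.exp τ ≤ ‖z - d.pos e‖ := by
    have := norm_sub_norm_le z (d.pos e)
    linarith
  have h3 : 1 ≤ Real.exp τ * ‖z - d.pos e‖ := by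
    have : Real.exp τ * Real.exp (-τ) = 1 := by rw [← Real.exp_add]; simp
    nlinarith [Real.exp_pos τ]
  have h4 : ‖z‖ + Real.exp τ ≤ Real.exp τ ^ 4 * ‖z - d.pos e‖ := by
    have h5 : 3 ≤ Real.exp τ := by have := Real.add_one_le_exp τ; linarith
    have h6 : Real.exp τ ≤ Real.exp τ ^ 2 * ‖z - d.pos e‖ := by nlinarith
    have h7 : ‖z - d.pos e‖ ≤ Real.exp τ ^ 2 * ‖z - d.pos e‖ := by
      have : 1 ≤ Real.exp τ ^ 2 := one_le_pow₀ hE
      nlinarith
    have h8 : 3 ≤ Real.exp τ ^ 2 := by nlinarith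
    have h9 : 0 ≤ Real.exp τ ^ 2 * ‖z - d.pos e‖ := by positivity
    calc ‖z‖ + Real.exp τ ≤ 3 * (Real.exp τ ^ 2 * ‖z - d.pos e‖) := by linarith
      _ ≤ Real.exp τ ^ 2 * (Real.exp τ ^ 2 * ‖z - d.pos e‖) := by gcongr
      _ = _ := by ring
  have l1 := Real.log_le_log hx0 h1
  have l2 := Real.log_le_log hy0 h4
  rw [Real.log_mul (by positivity) hx0.ne', Real.log_pow, Real.log_exp] at l2
  rw [abs_le]
  constructor
  · push_cast at l2
    linarith
  · linarith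

theorem H_near (hs : F.Sol d C) {k : ℕ} {z : ℂ} (hz : z ∈ F.Ub d k) :
    ‖F.H d k z - z‖ ≤ (F.T k)⁻¹ ^ 3 := by
  have hT : 1000 ≤ (F.T k)⁻¹ := by
    have h1 := h.T_pos k
    have h2 := h.T_le k
    rw [le_inv_comm₀ (by norm_num) h1]
    linarith
  have e0 : F.H d k z - z = ∑ e ∈ F.sides k, (F.prim d (F.aa d k) e z -
      conj (F.prim d (F.bb d k) e z) + 2 * F.ra d e *
        ((Real.log ‖z - d.pos e‖ - Real.log (‖z‖ + Real.exp (F.T k)⁻¹) : ℝ) : ℂ)) := by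
    have h1 : ∑ e ∈ F.sides k, 2 * F.ra d e * (Real.log (‖z‖ + Real.exp (F.T k)⁻¹) : ℝ) = 0 := by
      rw [← Finset.sum_mul, ← Finset.mul_sum, hs.sum_ra k]
      ring
    simp only [Frm.H, ofReal_sub, mul_sub, Finset.sum_add_distrib, Finset.sum_sub_distrib, h1]
    ring
  rw [e0]
  have hb : ∀ e ∈ F.sides k, ‖F.prim d (F.aa d k) e z -
      conj (F.prim d (F.bb d k) e z) + 2 * F.ra d e *
        ((Real.log ‖z - d.pos e‖ - Real.log (‖z‖ + Real.exp (F.T k)⁻¹) : ℝ) : ℂ)‖ ≤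
      (F.T k)⁻¹ ^ 2 := by
    intro e he
    have hk : F.lay e = k := mem_sides_iff.1 he
    have hU := (h.Ub_sub k hz e he).le
    have hβ := h.bet_pos e
    have hx := hz e he
    have hx0 : 0 < ‖z - d.pos e‖ := hβ.trans_le hx
    have hR := h.R_pos e
    have hβR := h.prim_bet_le_R e
    have hβT : ‖d.bet e‖ ≤ (F.T k)⁻¹ := hk ▸ h.b_le e
    have h1 : ‖F.prim d (F.aa d k) e z‖ ≤ 2 * (F.T k)⁻¹ := by
      have := h.prim_aa e hU
      rw [hk] at this
      refine this.trans ?_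
      rw [div_le_iff₀ (by positivity)]
      have h5 : ‖d.bet e‖ ^ 2 ≤ F.R e ^ 2 := by gcongr
      calc 2 * ‖d.bet e‖ ^ 4 = 2 * ‖d.bet e‖ * (‖d.bet e‖ ^ 2 * ‖d.bet e‖) := by ring
        _ ≤ 2 * (F.T k)⁻¹ * (F.R e ^ 2 * ‖z - d.pos e‖) := by gcongr
    have h2 : ‖F.prim d (F.bb d k) e z‖ ≤ 13 * (F.T k)⁻¹ := by
      have := h.prim_bb e hU
      rw [hk] at this
      refine this.trans ?_
      rw [div_le_iff₀ hx0]
      calc 13 * ‖d.bet e‖ ^ 2 = 13 * ‖d.bet e‖ * ‖d.bet e‖ := by ring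
        _ ≤ 13 * (F.T k)⁻¹ * ‖z - d.pos e‖ := by gcongr
    have h3 : ‖F.ra d e‖ ≤ 10 := by
      refine (h.ra_le e).trans ?_
      have ht := h.t_pos e.1
      have h5 : ‖d.bet e‖ * F.t e.1 ≤ 1 := by
        have := mul_le_mul_of_nonneg_right (h.bet_le e) ht.le
        rwa [inv_mul_cancel₀ ht.ne'] at this
      have h6 : F.t e.1 ^ 29 ≤ 1 := pow_le_one₀ ht.le ((h.t_small _).trans (by norm_num))
      calc 10 * ‖d.bet e‖ * F.t e.1 ^ 30 = 10 * (‖d.bet e‖ * F.t e.1) * F.t e.1 ^ 29 := by ring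
        _ ≤ 10 * 1 * 1 := by gcongr
        _ = 10 := by norm_num
    have h4 := h.prim_log_est hz he
    refine (norm_add_le _ _).trans ?_
    have h5 := norm_sub_le (F.prim d (F.aa d k) e z) (conj (F.prim d (F.bb d k) e z))
    rw [norm_conj] at h5
    have h6 : ‖2 * F.ra d e *
        ((Real.log ‖z - d.pos e‖ - Real.log (‖z‖ + Real.exp (F.T k)⁻¹) : ℝ) : ℂ)‖ ≤
        2 * 10 * (4 * (F.T k)⁻¹) := by
      rw [norm_mul, norm_mul, norm_real, Real.norm_eq_abs, Complex.norm_ofNat]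
      gcongr
    nlinarith
  refine (norm_sum_le _ _).trans ((Finset.sum_le_sum hb).trans ?_)
  rw [Finset.sum_const, nsmul_eq_mul]
  have := h.card k
  calc ((F.sides k).card : ℝ) * (F.T k)⁻¹ ^ 2 ≤ (F.T k)⁻¹ * (F.T k)⁻¹ ^ 2 := by gcongr
    _ = _ := by ring

end Frm.Adm

theorem X_eq_iff {k k' : ℕ} {z z' : ℂ} : F.X d C k z = F.X d C k' z' ↔
    F.H d k z = F.H d k' z' ∧ C k + F.h0 d k z = C k' + F.h0 d k' z' := by
  constructor
  · intro h
    have h0 := congrArg (fun x : E3 => x 0) h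
    have h1 := congrArg (fun x : E3 => x 1) h
    have h2 := congrArg (fun x : E3 => x 2) h
    simp only [Frm.X, mk3] at h0 h1 h2
    refine ⟨Complex.ext (by simpa using h0) (by simpa using h1), ?_⟩
    have h3 : 2 * (C k + F.h0 d k z) = 2 * (C k' + F.h0 d k' z') := by simpa using h2
    linarith
  · rintro ⟨h1, h2⟩
    simp only [Frm.X, h1, h2]

end Pool.Agent.MP_943ae2_gt

end
end

section

open Set Complex Filter
open scoped Topology ComplexConjugate ContDiff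

noncomputable section

namespace Pool.Agent.MP_943ae2_gt

variable {ι : Type} {F : Frm ι} {d : Dat ι} {C : ℕ → ℝ}

lemma mat_avg {E : Type} [NormedAddCommGroup E] [NormedSpace ℝ E] [CompleteSpace E]
    {f g : ℂ → E} {p p' : ℂ} {r η M : ℝ} (hr : 0 ≤ r) (hf : ContinuousOn f (Metric.sphere p r))
    (hg : ContinuousOn g (Metric.sphere p' r)) (c : E)
    (h : ∀ θ, ‖f (circleMap p r θ) - g (circleMap p' r (θ + η)) - c‖ ≤ M) :
    ‖Real.circleAverage f p r - Real.circleAverage g p' r - c‖ ≤ M := by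
  have hπ := Real.pi_pos
  have h1 : Continuous fun θ : ℝ => f (circleMap p r θ) :=
    hf.comp_continuous (continuous_circleMap p r) fun θ => circleMap_mem_sphere p hr θ
  have h2 : Continuous fun θ : ℝ => g (circleMap p' r (θ + η)) :=
    hg.comp_continuous ((continuous_circleMap p' r).comp (by fun_prop))
      fun θ => circleMap_mem_sphere p' hr _
  have e : Real.circleAverage f p r - Real.circleAverage g p' r - c =
      (2 * Real.pi)⁻¹ • ∫ θ in (0 : ℝ)..2 * Real.pi,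
        (f (circleMap p r θ) - g (circleMap p' r (θ + η)) - c) := by
    rw [Real.circleAverage_eq_integral_add (f := g) η, Real.circleAverage_def,
      intervalIntegral.integral_sub ((h1.intervalIntegrable _ _).sub (h2.intervalIntegrable _ _))
        intervalIntegrable_const,
      intervalIntegral.integral_sub (h1.intervalIntegrable _ _) (h2.intervalIntegrable _ _),
      intervalIntegral.integral_const, smul_sub, smul_sub, smul_smul, sub_zero,
      inv_mul_cancel₀ (by positivity), one_smul]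
  rw [e, norm_smul, Real.norm_eq_abs, abs_of_pos (by positivity)]
  have h3 := intervalIntegral.norm_integral_le_of_norm_le_const (a := 0) (b := 2 * Real.pi)
    (C := M) (f := fun θ => f (circleMap p r θ) - g (circleMap p' r (θ + η)) - c)
    fun θ _ => h θ
  rw [sub_zero, abs_of_pos (by positivity)] at h3
  calc _ ≤ (2 * Real.pi)⁻¹ * (M * (2 * Real.pi)) := by gcongr
    _ = M := by field_simp

lemma mat_conn (r₁ r₂ : ℝ) (h : 0 ≤ r₁) : IsPreconnected {v : ℂ | r₁ < ‖v‖ ∧ ‖v‖ < r₂} := by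
  have e : {v : ℂ | r₁ < ‖v‖ ∧ ‖v‖ < r₂} =
      (fun x : ℝ × ℝ => circleMap 0 x.1 x.2) '' (Ioo r₁ r₂ ×ˢ univ) := by
    ext v
    constructor
    · intro hv
      refine ⟨(‖v‖, arg v), ⟨hv, trivial⟩, ?_⟩
      simp [circleMap]
    · rintro ⟨⟨r, θ⟩, ⟨hr, -⟩, rfl⟩
      have : ‖circleMap 0 r θ‖ = r := by
        rw [norm_circleMap_zero, abs_of_pos (h.trans_lt hr.1)]
      exact ⟨by rw [this]; exact hr.1, by rw [this]; exact hr.2⟩
  rw [e]
  refine (isPreconnected_Ioo.prod isPreconnected_univ).image _ (Continuous.continuousOn ?_)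
  unfold circleMap; fun_prop

lemma mat_log {ρ D β : ℝ} (hD : 0 < D) (h1 : D / 2 ≤ ρ) (h2 : |ρ - D| ≤ β) :
    |Real.log ρ - Real.log D| ≤ 2 * β / D := by
  have hρ : 0 < ρ := by linarith
  have hβ : 0 ≤ β := (abs_nonneg _).trans h2
  obtain ⟨h3, h4⟩ := abs_le.1 h2
  rw [abs_le]
  constructor
  · have := Real.log_le_sub_one_of_pos (div_pos hD hρ)
    rw [Real.log_div hD.ne' hρ.ne'] at this
    have h5 : D / ρ - 1 ≤ 2 * β / D := by
      rw [div_sub_one hρ.ne', div_le_div_iff₀ hρ hD]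
      nlinarith
    linarith
  · have := Real.log_le_sub_one_of_pos (div_pos hρ hD)
    rw [Real.log_div hρ.ne' hD.ne'] at this
    have h5 : ρ / D - 1 ≤ 2 * β / D := by
      rw [div_sub_one hD.ne']
      gcongr; linarith
    linarith

lemma mat_term (x y r : ℂ) (l : ℝ) :
    ‖x - conj y + 2 * r * (l : ℂ)‖ ≤ ‖x‖ + ‖y‖ + 2 * ‖r‖ * |l| := by
  refine (norm_add_le _ _).trans (add_le_add ((norm_sub_le _ _).trans ?_) ?_)
  · simp
  · simp

lemma mat_par_deriv (e : ι × Bool) {v : ℂ} (hv : v ≠ 0) :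
    ∃ L : ℂ →L[ℝ] ℂ, HasFDerivAt (d.par e) L v ∧ ∀ w, L w = conj (-(d.bet e ^ 2 / v ^ 2) * w) := by
  have h1 : HasDerivAt (fun v : ℂ => d.bet e ^ 2 / v) (-(d.bet e ^ 2 / v ^ 2)) v := by
    have := (hasDerivAt_inv hv).const_mul (d.bet e ^ 2)
    simpa [div_eq_mul_inv] using this
  have h2 := (conjCLE.toContinuousLinearMap.hasFDerivAt.comp v
    (h1.hasFDerivAt.restrictScalars ℝ)).const_add (d.pos (opp e))
  refine ⟨_, h2, fun w => ?_⟩
  simp [mul_comm]

lemma mat_rot (e : ι × Bool) (hb : d.bet e ≠ 0) (θ : ℝ) :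
    d.par e (circleMap 0 ‖d.bet e‖ θ) =
      circleMap (d.pos (opp e)) ‖d.bet e‖ (θ + -(2 * arg (d.bet e))) := by
  have hn : (‖d.bet e‖ : ℂ) ≠ 0 := by exact_mod_cast (norm_pos_iff.2 hb).ne'
  have h1 : d.bet e = ‖d.bet e‖ * exp (arg (d.bet e) * I) := (norm_mul_exp_arg_mul_I _).symm
  unfold Dat.par circleMap
  congr 1
  set β := ‖d.bet e‖
  set α := arg (d.bet e)
  have h2 : d.bet e ^ 2 / (0 + β * exp (θ * I)) = β * exp (-((θ + -(2 * α) : ℝ) * I)) := by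
    rw [h1, zero_add, div_eq_iff (mul_ne_zero hn (exp_ne_zero _)), mul_pow, ← exp_nat_mul,
      mul_mul_mul_comm, ← exp_add, ← sq]
    congr 2
    push_cast; ring
  rw [h2, map_mul, conj_ofReal, ← exp_conj]
  congr 2
  simp only [map_neg, map_mul, conj_ofReal, conj_I]
  ring

namespace Frm.Adm

variable (h : F.Adm d)
include h

lemma mat_bet_sq (e : ι × Bool) : ‖d.bet e‖ ^ 2 / F.R e ≤ F.t e.1 ^ 14 := by
  have ht := h.t_pos e.1
  rw [div_le_iff₀ (h.R_pos e)]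
  calc _ ≤ (F.t e.1)⁻¹ ^ 2 := pow_le_pow_left₀ (norm_nonneg _) (h.bet_le e) 2
    _ = _ := by unfold Frm.R; field_simp

lemma mat_lt_R (e : ι × Bool) : ‖d.bet e‖ < F.R e := by
  have ht := h.t_pos e.1
  have h1 : 1 < (F.t e.1)⁻¹ := (one_lt_inv₀ ht).2 (by linarith [h.t_small e.1])
  calc _ ≤ (F.t e.1)⁻¹ ^ 1 := by rw [pow_one]; exact h.bet_le e
    _ < _ := pow_lt_pow_right₀ h1 (by norm_num)

lemma mat_sq_lt (e : ι × Bool) : ‖d.bet e‖ ^ 2 / F.R e < ‖d.bet e‖ := by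
  rw [div_lt_iff₀ (h.R_pos e), sq]
  exact mul_lt_mul_of_pos_left (h.mat_lt_R e) (h.bet_pos e)

lemma mat_sphere (e : ι × Bool) : Metric.sphere (d.pos e) ‖d.bet e‖ ⊆ F.U d (F.lay e) := by
  intro z hz
  rw [mem_sphere_iff_norm] at hz
  have := h.mem_U e (v := z - d.pos e) (by rw [hz]; exact h.mat_sq_lt e)
    (by rw [hz]; linarith [h.mat_lt_R e, h.R_pos e])
  simpa using this

lemma mat_pow {ν : ι} {m n : ℕ} (hmn : m ≤ n) : F.t ν ^ n ≤ F.t ν ^ m :=
  pow_le_pow_of_le_one (h.t_pos ν).le (by linarith [h.t_small ν]) hmn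

lemma mat_own (e : ι × Bool) {z : ℂ} (hz : ‖z - d.pos e‖ = ‖d.bet e‖) :
    ‖F.prim d (F.aa d (F.lay e)) e z - conj (F.prim d (F.bb d (F.lay e)) e z) +
      2 * F.ra d e * (Real.log ‖z - d.pos e‖ : ℝ)‖ ≤ 35 * (F.t e.1)⁻¹ := by
  have ht := h.t_pos e.1
  have hb := h.bet_pos e
  have hb' := h.bet_le e
  have hR := h.R_pos e
  have hq := h.mat_bet_sq e
  have ht1 : F.t e.1 ≤ 1 := by linarith [h.t_small e.1]
  have h1 := h.prim_aa e (z := z) (by rw [hz]; exact (h.mat_sq_lt e).le)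
  have h2 := h.prim_bb e (z := z) (by rw [hz]; exact (h.mat_sq_lt e).le)
  have h3 := h.ra_le e
  refine (mat_term _ _ _ _).trans ?_
  rw [hz] at h1 h2 ⊢
  have e1 : 2 * ‖d.bet e‖ ^ 4 / (F.R e ^ 2 * ‖d.bet e‖) ≤ 2 * (F.t e.1)⁻¹ := by
    have : 2 * ‖d.bet e‖ ^ 4 / (F.R e ^ 2 * ‖d.bet e‖) =
        2 * (‖d.bet e‖ * (‖d.bet e‖ / F.R e) ^ 2) := by field_simp
    rw [this]
    have h5 : ‖d.bet e‖ / F.R e ≤ 1 := (div_le_one hR).2 (h.mat_lt_R e).le
    have h6 : (‖d.bet e‖ / F.R e) ^ 2 ≤ 1 := pow_le_one₀ (by positivity) h5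
    nlinarith
  have e2 : 13 * ‖d.bet e‖ ^ 2 / ‖d.bet e‖ = 13 * ‖d.bet e‖ := by field_simp
  have e3 : |Real.log ‖d.bet e‖| ≤ (F.t e.1)⁻¹ := by
    have hl := Real.log_le_sub_one_of_pos (inv_pos.2 ht)
    rw [Real.log_inv] at hl
    rw [abs_le]
    constructor
    · linarith [Real.log_le_log ht (h.b_ge e)]
    · linarith [Real.log_le_sub_one_of_pos hb]
  have e4 : ‖F.ra d e‖ ≤ 10 := by
    refine h3.trans ?_
    have h5 : ‖d.bet e‖ * F.t e.1 ≤ 1 := by
      calc _ ≤ (F.t e.1)⁻¹ * F.t e.1 := by gcongr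
        _ = 1 := inv_mul_cancel₀ ht.ne'
    have h6 : F.t e.1 ^ 30 ≤ F.t e.1 ^ 1 := h.mat_pow (by norm_num)
    rw [pow_one] at h6
    nlinarith
  have e5 : 2 * ‖F.ra d e‖ * |Real.log ‖d.bet e‖| ≤ 2 * 10 * (F.t e.1)⁻¹ := by gcongr
  linarith

lemma mat_oth {e μ : ι × Bool} (hμ : μ ∈ F.oth e) {z : ℂ} (hz : ‖z - d.pos e‖ = ‖d.bet e‖) :
    ‖F.prim d (F.aa d (F.lay e)) μ z - conj (F.prim d (F.bb d (F.lay e)) μ z) +
      2 * F.ra d μ * (Real.log ‖z - d.pos μ‖ : ℝ)‖ ≤ F.T (F.lay e) := by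
  have hl := (mem_oth.1 hμ).2
  have ht := h.t_pos μ.1
  have hT := h.T_pos (F.lay e)
  have hT' := h.T_le (F.lay e)
  have htT := h.t_le μ
  have hb := h.bet_pos μ
  have hbT := h.b_le μ
  have hR := h.R_pos μ
  have hq := h.mat_bet_sq μ
  rw [hl] at htT hbT
  have ht1 : F.t μ.1 ≤ 1 := by linarith
  have h0 := (h.arg_lt hμ (v := z - d.pos e)
    (by rw [hz]; linarith [h.mat_lt_R e, h.R_pos e])).1
  rw [add_sub_cancel] at h0
  have hρ : 4 * F.R μ ≤ ‖z - d.pos μ‖ := by linarith [h.sep' hμ]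
  have hle : ‖d.bet μ‖ ^ 2 / F.R μ ≤ ‖z - d.pos μ‖ := by
    linarith [h.mat_sq_lt μ, h.mat_lt_R μ]
  have h1 := h.prim_aa μ hle
  have h2 := h.prim_bb μ hle
  have h3 := h.ra_le μ
  rw [hl] at h1 h2
  refine (mat_term _ _ _ _).trans ?_
  have hR1 : 1 ≤ F.R μ := one_le_pow₀ ((one_le_inv₀ ht).2 ht1)
  have h14 : F.t μ.1 ^ 14 ≤ F.T (F.lay e) / 1000 := by
    have : F.t μ.1 ^ 14 ≤ F.t μ.1 ^ 2 := h.mat_pow (by norm_num)
    nlinarith
  set q := ‖d.bet μ‖ ^ 2 / F.R μ with hqd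
  have hq0 : 0 ≤ q := by positivity
  have e1 : 2 * ‖d.bet μ‖ ^ 4 / (F.R μ ^ 2 * ‖z - d.pos μ‖) ≤ 2 * q := by
    have : 2 * ‖d.bet μ‖ ^ 4 / (F.R μ ^ 2 * ‖z - d.pos μ‖) = 2 * q ^ 2 / ‖z - d.pos μ‖ := by
      rw [hqd]; field_simp
    rw [this, div_le_iff₀ (by linarith)]
    nlinarith
  have e2 : 13 * ‖d.bet μ‖ ^ 2 / ‖z - d.pos μ‖ ≤ 13 * q := by
    rw [mul_div_assoc, hqd]
    gcongr; linarith
  have e3 : |Real.log ‖z - d.pos μ‖| ≤ 3 * (F.T (F.lay e))⁻¹ := by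
    rw [abs_of_nonneg (Real.log_nonneg (by linarith))]
    have p1 := h.pos_le e
    have p2 := h.pos_le μ
    rw [hl] at p2
    have p3 := h.b_le e
    have p4 := Real.add_one_le_exp (F.T (F.lay e))⁻¹
    have p5 : ‖z - d.pos μ‖ ≤ 3 * Real.exp (F.T (F.lay e))⁻¹ := by
      have : z - d.pos μ = (z - d.pos e) + d.pos e - d.pos μ := by ring
      rw [this]
      linarith [norm_sub_le ((z - d.pos e) + d.pos e) (d.pos μ), norm_add_le (z - d.pos e) (d.pos e)]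
    have p6 := Real.log_le_log (by linarith) p5
    rw [Real.log_mul (by norm_num) (Real.exp_pos _).ne', Real.log_exp] at p6
    have p7 := Real.log_le_sub_one_of_pos (by norm_num : (0 : ℝ) < 3)
    have p8 : 1 ≤ (F.T (F.lay e))⁻¹ := (one_le_inv₀ hT).2 (by linarith)
    linarith
  have e4 : ‖F.ra d μ‖ ≤ 10 * ((F.T (F.lay e))⁻¹ * F.T (F.lay e) ^ 4) := by
    refine h3.trans ?_
    rw [mul_assoc]
    gcongr
    exact (h.mat_pow (by norm_num : 4 ≤ 30)).trans (pow_le_pow_left₀ ht.le htT 4)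
  have e5 : 2 * ‖F.ra d μ‖ * |Real.log ‖z - d.pos μ‖| ≤
      2 * (10 * ((F.T (F.lay e))⁻¹ * F.T (F.lay e) ^ 4)) * (3 * (F.T (F.lay e))⁻¹) := by gcongr
  have e6 : 2 * (10 * ((F.T (F.lay e))⁻¹ * F.T (F.lay e) ^ 4)) * (3 * (F.T (F.lay e))⁻¹) =
      60 * F.T (F.lay e) ^ 2 := by field_simp; ring
  nlinarith

lemma mat_card (e : ι × Bool) : ((F.oth e).card : ℝ) ≤ (F.T (F.lay e))⁻¹ := by
  classical
  refine le_trans ?_ (h.card (F.lay e))
  exact_mod_cast Finset.card_le_card fun μ hμ => mem_sides_iff.2 (mem_oth.1 hμ).2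

theorem Jh_est (e : ι × Bool) : ‖F.Jh d e - d.pos e‖ ≤ (F.t e.1)⁻¹ ^ 2 := by
  have key := mat_avg (g := fun _ => (0 : ℂ)) (p' := 0) (η := 0) (M := (F.t e.1)⁻¹ ^ 2)
    (norm_nonneg (d.bet e)) ((h.H_cont (F.lay e)).mono (h.mat_sphere e)) continuousOn_const
    (d.pos e) ?_
  · simpa [Real.circleAverage_const, Frm.Jh] using key
  intro θ
  set z := circleMap (d.pos e) ‖d.bet e‖ θ
  have hz : ‖z - d.pos e‖ = ‖d.bet e‖ :=
    mem_sphere_iff_norm.1 (circleMap_mem_sphere _ (norm_nonneg _) θ)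
  have ht := h.t_pos e.1
  have hT := h.T_pos (F.lay e)
  have h1 := h.mat_own e hz
  have h2 : ‖∑ μ ∈ F.oth e, (F.prim d (F.aa d (F.lay e)) μ z -
      conj (F.prim d (F.bb d (F.lay e)) μ z) + 2 * F.ra d μ * (Real.log ‖z - d.pos μ‖ : ℝ))‖ ≤ 1 := by
    refine (norm_sum_le _ _).trans ((Finset.sum_le_card_nsmul _ _ _
      fun μ hμ => h.mat_oth hμ hz).trans ?_)
    rw [nsmul_eq_mul]
    calc _ ≤ (F.T (F.lay e))⁻¹ * F.T (F.lay e) := by gcongr; exact h.mat_card e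
      _ = 1 := inv_mul_cancel₀ hT.ne'
  unfold Frm.H
  rw [sum_sides_split, sub_zero, add_sub_right_comm]
  have h3 := h.bet_le e
  have h4 : 1000 ≤ (F.t e.1)⁻¹ := by
    rw [le_inv_comm₀ (by norm_num) ht]; linarith [h.t_small e.1]
  refine (norm_add_le _ _).trans ((add_le_add hz.le ((norm_add_le _ _).trans
    (add_le_add h1 h2))).trans ?_)
  nlinarith

theorem J3_est (e : ι × Bool) :
    |F.J3 d e - ((F.rab d e).re * Real.log ‖d.bet e‖ +
      ∑ μ ∈ F.oth e, (F.rab d μ).re * Real.log ‖d.pos e - d.pos μ‖)| ≤ F.t e.1 ^ 13 := by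
  have key := mat_avg (g := fun _ => (0 : ℝ)) (p' := 0) (η := 0) (M := F.t e.1 ^ 13)
    (norm_nonneg (d.bet e)) ((h.h0_cont (F.lay e)).mono (h.mat_sphere e)) continuousOn_const
    ((F.rab d e).re * Real.log ‖d.bet e‖ +
      ∑ μ ∈ F.oth e, (F.rab d μ).re * Real.log ‖d.pos e - d.pos μ‖) ?_
  · simpa [Real.circleAverage_const, Frm.J3] using key
  intro θ
  set z := circleMap (d.pos e) ‖d.bet e‖ θ
  have hz : ‖z - d.pos e‖ = ‖d.bet e‖ :=
    mem_sphere_iff_norm.1 (circleMap_mem_sphere _ (norm_nonneg _) θ)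
  have ht := h.t_pos e.1
  have hb := h.bet_pos e
  have h1 : |(F.prim d (F.ab d (F.lay e)) e z).re| ≤ 5 * F.t e.1 ^ 14 := by
    refine (abs_re_le_norm _).trans ((h.prim_ab e (by rw [hz]; exact (h.mat_sq_lt e).le)).trans ?_)
    have hR := h.R_pos e
    have : 5 * ‖d.bet e‖ ^ 3 / (F.R e * ‖z - d.pos e‖) = 5 * (‖d.bet e‖ ^ 2 / F.R e) := by
      rw [hz]; field_simp
    rw [this]
    linarith [h.mat_bet_sq e]
  have h4 : 1000 ≤ (F.t e.1)⁻¹ := by
    rw [le_inv_comm₀ (by norm_num) ht]; linarith [h.t_small e.1]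
  have h2 : ∀ μ ∈ F.oth e, |(F.prim d (F.ab d (F.lay e)) μ z).re +
      (F.rab d μ).re * Real.log ‖z - d.pos μ‖ - (F.rab d μ).re * Real.log ‖d.pos e - d.pos μ‖| ≤
      5 * (F.t e.1)⁻¹ * (‖d.bet μ‖ / ‖d.pos e - d.pos μ‖) := by
    intro μ hμ
    have hl := (mem_oth.1 hμ).2
    have hR := h.R_pos μ
    have hbμ := h.bet_pos μ
    have h0 := (h.arg_lt hμ (v := z - d.pos e)
      (by rw [hz]; linarith [h.mat_lt_R e, h.R_pos e])).1
    rw [add_sub_cancel] at h0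
    have hD : 0 < ‖d.pos e - d.pos μ‖ := by linarith [h.sep' hμ]
    have hle : ‖d.bet μ‖ ^ 2 / F.R μ ≤ ‖z - d.pos μ‖ := by
      linarith [h.mat_sq_lt μ, h.mat_lt_R μ, h.sep' hμ]
    have p1 := h.prim_ab μ hle
    rw [hl] at p1
    have p2 : 5 * ‖d.bet μ‖ ^ 3 / (F.R μ * ‖z - d.pos μ‖) ≤
        10 * (‖d.bet μ‖ / ‖d.pos e - d.pos μ‖) := by
      have q1 : ‖d.bet μ‖ ^ 2 / F.R μ ≤ 1 :=
        (h.mat_bet_sq μ).trans (pow_le_one₀ (h.t_pos _).le (by linarith [h.t_small μ.1]))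
      calc _ = 5 * (‖d.bet μ‖ ^ 2 / F.R μ) * (‖d.bet μ‖ / ‖z - d.pos μ‖) := by field_simp
        _ ≤ 5 * 1 * (‖d.bet μ‖ / (‖d.pos e - d.pos μ‖ / 2)) := by gcongr
        _ = _ := by field_simp; ring
    have p3 := mat_log (β := ‖d.bet e‖) hD h0 (by
      rw [← hz]
      refine (abs_norm_sub_norm_le _ _).trans (le_of_eq ?_)
      congr 1; ring)
    have p4 : |(F.rab d μ).re * (Real.log ‖z - d.pos μ‖ - Real.log ‖d.pos e - d.pos μ‖)| ≤
        4 * (F.t e.1)⁻¹ * (‖d.bet μ‖ / ‖d.pos e - d.pos μ‖) := by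
      rw [abs_mul]
      calc _ ≤ 2 * ‖d.bet μ‖ * (2 * (F.t e.1)⁻¹ / ‖d.pos e - d.pos μ‖) := by
            refine mul_le_mul (h.rab_le μ) (p3.trans ?_) (abs_nonneg _) (by positivity)
            gcongr; exact h.bet_le e
        _ = _ := by ring
    have p5 : 0 ≤ ‖d.bet μ‖ / ‖d.pos e - d.pos μ‖ := by positivity
    rw [add_sub_assoc, ← mul_sub]
    refine (abs_add_le _ _).trans ((add_le_add ((abs_re_le_norm _).trans (p1.trans p2)) p4).trans ?_)
    nlinarith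
  have h3 := (Finset.abs_sum_le_sum_abs _ _).trans (Finset.sum_le_sum h2)
  rw [← Finset.mul_sum, Finset.sum_sub_distrib] at h3
  have h5 : 5 * (F.t e.1)⁻¹ * ∑ μ ∈ F.oth e, ‖d.bet μ‖ / ‖d.pos e - d.pos μ‖ ≤
      5 * F.t e.1 ^ 14 := by
    calc _ ≤ 5 * (F.t e.1)⁻¹ * F.t e.1 ^ 15 := by
          gcongr; exact (h.lam e).trans (h.mat_pow (by norm_num))
      _ = _ := by field_simp
  unfold Frm.h0
  rw [sum_sides_split, sub_zero, hz, Real.norm_eq_abs, add_sub_add_comm, add_sub_cancel_right]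
  refine (abs_add_le _ _).trans ((add_le_add h1 (h3.trans h5)).trans ?_)
  have h6 : 0 < F.t e.1 ^ 13 := by positivity
  have h7 : F.t e.1 ^ 14 = F.t e.1 ^ 13 * F.t e.1 := by ring
  nlinarith [h.t_small e.1]

lemma mat_par_mem (e : ι × Bool) {v : ℂ} (h1 : ‖d.bet e‖ ^ 2 / F.R e < ‖v‖) (h2 : ‖v‖ < F.R e) :
    d.par e v ∈ F.U d (F.lay (opp e)) := by
  have hb := h.bet_pos e
  have hR := h.R_pos e
  have hv : 0 < ‖v‖ := lt_trans (by positivity) h1
  have e1 : ‖conj (d.bet e ^ 2 / v)‖ = ‖d.bet e‖ ^ 2 / ‖v‖ := by simp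
  refine h.mem_U (opp e) ?_ ?_
  · rw [e1, norm_bet_opp, R_opp]; gcongr
  · rw [e1, R_opp, div_le_iff₀ hv]
    rw [div_lt_iff₀ hR] at h1
    nlinarith

theorem matching (hs : F.Sol d C) (e : ι × Bool) {v : ℂ} (h1 : ‖d.bet e‖ ^ 2 / F.R e < ‖v‖)
    (h2 : ‖v‖ < F.R e) :
    F.X d C (F.lay e) (d.pos e + v) = F.X d C (F.lay (opp e)) (d.par e v) := by
  have hb := h.bet_pos e
  have hR := h.R_pos e
  set Ω := {v : ℂ | ‖d.bet e‖ ^ 2 / F.R e < ‖v‖ ∧ ‖v‖ < F.R e} with hΩ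
  have hO : IsOpen Ω := (isOpen_lt continuous_const continuous_norm).inter
    (isOpen_lt continuous_norm continuous_const)
  have hc : IsPreconnected Ω := mat_conn _ _ (by positivity)
  have hD : ∀ w ∈ Ω,
      HasFDerivAt (fun w => F.H d (F.lay e) (d.pos e + w) - F.H d (F.lay (opp e)) (d.par e w))
        (0 : ℂ →L[ℝ] ℂ) w ∧
      HasFDerivAt (fun w => F.h0 d (F.lay e) (d.pos e + w) - F.h0 d (F.lay (opp e)) (d.par e w))
        (0 : ℂ →L[ℝ] ℝ) w := by
    rintro w ⟨w1, w2⟩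
    have hw : 0 < ‖w‖ := lt_trans (by positivity) w1
    have m1 := h.mem_U e w1 (by linarith)
    have m2 := h.mat_par_mem e w1 w2
    have w3 : ‖d.bet e‖ ^ 2 / (4 * F.R e) < ‖w‖ := by
      refine lt_of_le_of_lt ?_ w1
      gcongr; linarith
    have ga := h.glue_a e w3 (by linarith)
    have gb := h.glue_b e w3 (by linarith)
    obtain ⟨P, hP, hP'⟩ := mat_par_deriv (d := d) e (norm_pos_iff.1 hw)
    obtain ⟨L1, a1, b1⟩ := h.H_deriv hs m1
    obtain ⟨L2, a2, b2⟩ := h.H_deriv hs m2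
    obtain ⟨L3, a3, b3⟩ := h.h0_deriv hs m1
    obtain ⟨L4, a4, b4⟩ := h.h0_deriv hs m2
    have hI : HasFDerivAt (fun w : ℂ => d.pos e + w) (ContinuousLinearMap.id ℝ ℂ) w :=
      (hasFDerivAt_id w).const_add _
    constructor
    · refine ((a1.comp w hI).sub (a2.comp w hP)).congr_fderiv ?_
      refine ContinuousLinearMap.ext fun u => ?_
      simp only [zero_apply, sub_apply,
        ContinuousLinearMap.comp_apply, ContinuousLinearMap.id_apply, b1, b2, hP', ga, gb,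
        map_mul, map_pow, map_neg, map_div₀, conj_conj]
      ring
    · refine ((a3.comp w hI).sub (a4.comp w hP)).congr_fderiv ?_
      refine ContinuousLinearMap.ext fun u => ?_
      simp only [zero_apply, sub_apply,
        ContinuousLinearMap.comp_apply, ContinuousLinearMap.id_apply, b3, b4, hP', ga, gb]
      rw [← conj_re (_ * _ * conj _)]
      simp only [map_mul, conj_conj]
      rw [sub_eq_zero]
      congr 1
      ring
  have hm : ∀ θ, circleMap 0 ‖d.bet e‖ θ ∈ Ω := fun θ => by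
    rw [hΩ, mem_ofPred_eq, norm_circleMap_zero, abs_of_pos hb]
    exact ⟨h.mat_sq_lt e, h.mat_lt_R e⟩
  have hp : ∀ θ, d.pos e + circleMap 0 ‖d.bet e‖ θ = circleMap (d.pos e) ‖d.bet e‖ θ :=
    fun θ => by simp [circleMap]
  have hsp := h.mat_sphere (opp e)
  rw [norm_bet_opp] at hsp
  have k1 := mat_avg (M := 0) (η := -(2 * arg (d.bet e))) hb.le
    ((h.H_cont (F.lay e)).mono (h.mat_sphere e)) ((h.H_cont (F.lay (opp e))).mono hsp)
    (F.H d (F.lay e) (d.pos e + v) - F.H d (F.lay (opp e)) (d.par e v)) fun θ => by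
      rw [← mat_rot e (h.bet_ne e), ← hp, norm_le_zero_iff, sub_eq_zero]
      exact hO.is_const_of_fderiv_eq_zero (𝕜 := ℝ) hc
        (fun w hw => (hD w hw).1.differentiableAt.differentiableWithinAt)
        (fun w hw => (hD w hw).1.fderiv) (hm θ) ⟨h1, h2⟩
  have k2 := mat_avg (M := 0) (η := -(2 * arg (d.bet e))) hb.le
    ((h.h0_cont (F.lay e)).mono (h.mat_sphere e)) ((h.h0_cont (F.lay (opp e))).mono hsp)
    (F.h0 d (F.lay e) (d.pos e + v) - F.h0 d (F.lay (opp e)) (d.par e v)) fun θ => by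
      rw [← mat_rot e (h.bet_ne e), ← hp, norm_le_zero_iff, sub_eq_zero]
      exact hO.is_const_of_fderiv_eq_zero (𝕜 := ℝ) hc
        (fun w hw => (hD w hw).2.differentiableAt.differentiableWithinAt)
        (fun w hw => (hD w hw).2.fderiv) (hm θ) ⟨h1, h2⟩
  rw [norm_le_zero_iff, sub_eq_zero] at k1 k2
  have j1 : F.Jh d e - F.Jh d (opp e) =
      F.H d (F.lay e) (d.pos e + v) - F.H d (F.lay (opp e)) (d.par e v) := by
    unfold Frm.Jh; rw [norm_bet_opp]; exact k1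
  have j2 : F.J3 d e - F.J3 d (opp e) =
      F.h0 d (F.lay e) (d.pos e + v) - F.h0 d (F.lay (opp e)) (d.par e v) := by
    unfold Frm.J3; rw [norm_bet_opp]; exact k2
  rw [X_eq_iff]
  rcases e with ⟨ν, _ | _⟩
  · have t1 := hs.bh ν
    have t2 := hs.b3 ν
    simp only [opp_false, lay_false, lay_true] at j1 j2 ⊢
    exact ⟨by linear_combination t1 - j1, by linarith⟩
  · have t1 := hs.bh ν
    have t2 := hs.b3 ν
    simp only [opp_true, lay_false, lay_true] at j1 j2 ⊢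
    exact ⟨by linear_combination -t1 - j1, by linarith⟩

end Frm.Adm

end Pool.Agent.MP_943ae2_gt

end
end

section

open Set Complex Filter
open scoped Topology ComplexConjugate ContDiff

noncomputable section

namespace Pool.Agent.MP_943ae2_gt

variable {ι : Type} {F : Frm ι} {d : Dat ι} {π : ι ≃ ι} {u : ℂ}

/-- a rotation, possibly composed with complex conjugation -/
structure EquiSym (d : Dat ι) (π : ι ≃ ι) (u : ℂ) (σ : ℂ →+* ℂ) : Prop where
  unit : ‖u‖ = 1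
  alt : σ = RingHom.id ℂ ∨ σ = starRingEnd ℂ
  pos : ∀ e, d.pos (sd π e) = u * σ (d.pos e)
  bet : ∀ e, d.bet (sd π e) = σ (d.bet e)

lemma equi_res_eq (f : ℂ → ℂ) (c : ℂ) (r : ℝ) :
    (2 * Real.pi * I)⁻¹ * ∮ ζ in C(c, r), f ζ = Real.circleAverage (fun ζ => (ζ - c) * f ζ) c r := by
  have e : ∮ ζ in C(c, r), f ζ =
      I * ∫ θ in (0 : ℝ)..2 * Real.pi, (circleMap c r θ - c) * f (circleMap c r θ) := by
    rw [circleIntegral, ← intervalIntegral.integral_const_mul]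
    congr with θ
    simp only [deriv_circleMap, circleMap_sub_center, smul_eq_mul]
    ring
  rw [e, Real.circleAverage, real_smul]
  have := Real.pi_ne_zero
  push_cast
  field_simp

lemma equi_avg_rot {E : Type} [NormedAddCommGroup E] [NormedSpace ℝ E] (hu : ‖u‖ = 1) (g : ℂ → E)
    (c : ℂ) (r : ℝ) : Real.circleAverage g (u * c) r = Real.circleAverage (fun z => g (u * z)) c r := by
  rw [Real.circleAverage_eq_integral_add (arg u), Real.circleAverage]
  congr with θ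
  congr 1
  have e := norm_mul_exp_arg_mul_I u
  rw [hu, ofReal_one, one_mul] at e
  simp only [circleMap, ofReal_add, add_mul, Complex.exp_add, e]
  ring

lemma equi_avg_conj {E : Type} [NormedAddCommGroup E] [NormedSpace ℝ E] (g : ℂ → E)
    (c : ℂ) (r : ℝ) :
    Real.circleAverage g (conj c) r = Real.circleAverage (fun z => g (conj z)) c r := by
  unfold Real.circleAverage
  congr 1
  simp only [conj_circleMap]
  rw [intervalIntegral.integral_comp_neg (fun w => g (circleMap (conj c) r w))]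
  have t₀ : Function.Periodic (fun w => g (circleMap (conj c) r w)) (2 * Real.pi) :=
    fun x => by simp [periodic_circleMap (conj c) r x]
  simpa using (t₀.intervalIntegral_add_eq (-(2 * Real.pi)) 0).symm

lemma equi_avg_conj' (g : ℂ → ℂ) (c : ℂ) (r : ℝ) :
    Real.circleAverage (fun z => conj (g z)) c r = conj (Real.circleAverage g c r) := by
  unfold Real.circleAverage intervalIntegral
  simp only [integral_conj, real_smul, map_mul, map_sub, conj_ofReal]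

lemma equi_lay (hπ : F.Perm π) (e : ι × Bool) : F.lay (sd π e) = F.lay e := by
  simp [Frm.lay, sd, hπ.gap]

lemma equi_R (hπ : F.Perm π) (e : ι × Bool) : F.R (sd π e) = F.R e := by
  simp [Frm.R, sd, hπ.t]

lemma equi_inj {e μ : ι × Bool} : sd π μ = sd π e ↔ μ = e := by
  simp [sd, Prod.ext_iff]

lemma equi_sum_sides {M : Type} [AddCommMonoid M] (hπ : F.Perm π) (k : ℕ) (g : ι × Bool → M) :
    ∑ μ ∈ F.sides k, g μ = ∑ μ ∈ F.sides k, g (sd π μ) :=
  (Finset.sum_equiv (π.prodCongr (Equiv.refl _)) (fun μ => by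
    change _ ↔ sd π μ ∈ _
    rw [mem_sides_iff, mem_sides_iff, equi_lay hπ]) fun _ _ => rfl).symm

lemma equi_sum_oth {M : Type} [AddCommMonoid M] (hπ : F.Perm π) (e : ι × Bool)
    (g : ι × Bool → M) : ∑ μ ∈ F.oth (sd π e), g μ = ∑ μ ∈ F.oth e, g (sd π μ) :=
  (Finset.sum_equiv (π.prodCongr (Equiv.refl _)) (fun μ => by
    change _ ↔ sd π μ ∈ _
    rw [mem_oth, mem_oth, equi_lay hπ, equi_lay hπ, Ne, Ne, equi_inj]) fun _ _ => rfl).symm

namespace EquiSym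

variable {σ : ℂ →+* ℂ} (s : EquiSym d π u σ)
include s

lemma mul_conj : u * conj u = 1 := by
  rw [Complex.mul_conj, normSq_eq_norm_sq, s.unit]
  simp

lemma ne : u ≠ 0 := norm_pos_iff.1 (by rw [s.unit]; exact one_pos)

lemma conj_eq : conj u = u⁻¹ := eq_inv_of_mul_eq_one_right s.mul_conj

lemma comm (x : ℂ) : σ (conj x) = conj (σ x) := by rcases s.alt with e | e <;> simp [e]

lemma norm (x : ℂ) : ‖σ x‖ = ‖x‖ := by rcases s.alt with e | e <;> simp [e]

lemma re (x : ℂ) : (σ x).re = x.re := by rcases s.alt with e | e <;> simp [e]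

lemma real (x : ℝ) : σ x = x := by rcases s.alt with e | e <;> simp [e]

lemma cont : Continuous σ := by
  rcases s.alt with e | e <;> rw [e]
  exacts [continuous_id, continuous_conj]

lemma log {x : ℂ} (hx : ‖x‖ < 1) : Complex.log (1 - σ x) = σ (Complex.log (1 - x)) := by
  rcases s.alt with e | e <;> rw [e]
  · rfl
  · have := mem_slitPlane_of_norm_lt_one (z := -x) (by rwa [norm_neg])
    rw [← sub_eq_add_neg] at this
    rw [← log_conj _ (slitPlane_arg_ne_pi this), map_sub, map_one]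

lemma avg {E : Type} [NormedAddCommGroup E] [NormedSpace ℝ E] (g : ℂ → E) (c : ℂ) (r : ℝ) :
    Real.circleAverage g (u * σ c) r = Real.circleAverage (fun z => g (u * σ z)) c r := by
  rw [equi_avg_rot s.unit]
  rcases s.alt with e | e <;> rw [e]
  · rfl
  · exact equi_avg_conj _ c r

lemma avg2 {E : Type} [NormedAddCommGroup E] [NormedSpace ℝ E] (g : ℂ → E) (e : ι × Bool) (r : ℝ) :
    Real.circleAverage g (d.pos (sd π e)) r =
      Real.circleAverage (fun z => g (u * σ z)) (d.pos e) r := by rw [s.pos, s.avg]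

lemma avg' (g : ℂ → ℂ) (a c : ℂ) (r : ℝ) :
    Real.circleAverage (fun z => a * σ (g z)) c r = a * σ (Real.circleAverage g c r) := by
  have := Real.circleAverage_fun_smul (a := a) (f := fun z => σ (g z)) (c := c) (R := r)
  simp only [smul_eq_mul] at this
  rw [this]
  rcases s.alt with e | e <;> rw [e]
  · rfl
  · rw [equi_avg_conj']

lemma sub (z : ℂ) (μ : ι × Bool) : u * σ z - d.pos (sd π μ) = u * σ (z - d.pos μ) := by
  rw [s.pos, map_sub, mul_sub]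

lemma norm_sub (z : ℂ) (μ : ι × Bool) : ‖u * σ z - d.pos (sd π μ)‖ = ‖z - d.pos μ‖ := by
  rw [s.sub, norm_mul, s.unit, s.norm, one_mul]

lemma arg_eq (z : ℂ) (μ : ι × Bool) : conj (d.bet (sd π μ) ^ 2 / (u * σ z - d.pos (sd π μ))) =
    u * σ (conj (d.bet μ ^ 2 / (z - d.pos μ))) := by
  rw [s.sub, s.bet, s.comm, map_div₀ σ, map_pow σ, map_div₀, map_div₀, map_mul, s.conj_eq]
  have := s.ne
  field_simp

lemma tA {S : Spin ι} {z : ℂ} {μ : ι × Bool}
    (hS : S.2 (sd π (opp μ)) (u * σ (conj (d.bet μ ^ 2 / (z - d.pos μ)))) =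
      conj u * σ (S.2 (opp μ) (conj (d.bet μ ^ 2 / (z - d.pos μ))))) :
    d.tA S (sd π μ) (u * σ z) = σ (d.tA S μ z) := by
  unfold Dat.tA tl
  rw [s.arg_eq]
  change _ * conj (S.2 (sd π (opp μ)) _) = _
  rw [hS, s.sub, s.bet, map_mul σ, map_div₀ σ, s.comm, map_mul, conj_conj]
  have := s.ne
  field_simp

lemma tB {S : Spin ι} {z : ℂ} {μ : ι × Bool}
    (hS : S.1 (sd π (opp μ)) (u * σ (conj (d.bet μ ^ 2 / (z - d.pos μ)))) =
      σ (S.1 (opp μ) (conj (d.bet μ ^ 2 / (z - d.pos μ))))) :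
    d.tB S (sd π μ) (u * σ z) = conj u * σ (d.tB S μ z) := by
  unfold Dat.tB tl
  rw [s.arg_eq]
  change -(_ * conj (S.1 (sd π (opp μ)) _)) = _
  rw [hS, s.sub, s.bet, map_neg, map_mul σ, map_div₀ σ, s.comm, s.conj_eq]
  have := s.ne
  field_simp

variable (hπ : F.Perm π)
include hπ

lemma iter (n : ℕ) : ∀ e v, (F.iter d n).1 (sd π e) (u * σ v) = σ ((F.iter d n).1 e v) ∧
    (F.iter d n).2 (sd π e) (u * σ v) = conj u * σ ((F.iter d n).2 e v) := by
  induction n with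
  | zero => simp [Frm.iter]
  | succ n ih =>
    intro e v
    have e1 : d.pos (sd π e) + u * σ v = u * σ (d.pos e + v) := by rw [s.pos, map_add, mul_add]
    have e2 : F.iter d (n + 1) = F.step d (F.iter d n) := Function.iterate_succ_apply' _ _ _
    rw [e2]
    generalize F.iter d n = S at ih ⊢
    simp only [Frm.step]
    rw [e1, equi_sum_oth hπ, equi_sum_oth hπ, map_add σ 1, map_one, map_sum, map_sum,
      Finset.mul_sum]
    exact ⟨congrArg _ (Finset.sum_congr rfl fun μ _ => s.tA (ih _ _).2),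
      Finset.sum_congr rfl fun μ _ => s.tB (ih _ _).1⟩

lemma sr (e : ι × Bool) : F.sr d (sd π e) = F.sr d e := by
  simp only [Frm.sr, equi_R hπ, s.bet, s.norm]

variable (h : F.Adm d)
include h

lemma spin (e : ι × Bool) {v : ℂ} (hv : ‖v‖ < 4 * F.R e) :
    (F.spin d).1 (sd π e) (u * σ v) = σ ((F.spin d).1 e v) ∧
      (F.spin d).2 (sd π e) (u * σ v) = conj u * σ ((F.spin d).2 e v) := by
  have t : Tendsto (fun n : ℕ => 4 * (1 / 2 : ℝ) ^ n) atTop (𝓝 0) := by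
    simpa using (tendsto_pow_atTop_nhds_zero_of_lt_one (r := (1 / 2 : ℝ)) (by norm_num)
      (by norm_num)).const_mul 4
  have t1 : Tendsto (fun n => (F.iter d n).1 e v) atTop (𝓝 ((F.spin d).1 e v)) :=
    tendsto_iff_norm_sub_tendsto_zero.2
      (squeeze_zero (fun _ => norm_nonneg _) (fun n => (h.iter_rate n e hv).1) t)
  have t2 : Tendsto (fun n => (F.iter d n).2 e v) atTop (𝓝 ((F.spin d).2 e v)) :=
    tendsto_iff_norm_sub_tendsto_zero.2
      (squeeze_zero (fun _ => norm_nonneg _) (fun n => (h.iter_rate n e hv).2) t)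
  constructor
  · refine Tendsto.limUnder_eq ?_
    simp only [(s.iter hπ _ e v).1]
    exact (s.cont.tendsto _).comp t1
  · refine Tendsto.limUnder_eq ?_
    simp only [(s.iter hπ _ e v).2]
    exact ((s.cont.tendsto _).comp t2).const_mul _

omit s hπ in
lemma big_arg {k : ℕ} {z : ℂ} (hz : z ∈ F.Big d k) {μ : ι × Bool} (hμ : μ ∈ F.sides k) :
    ‖conj (d.bet μ ^ 2 / (z - d.pos μ))‖ < 4 * F.R (opp μ) := by
  have h1 := hz μ hμ
  have h2 := h.R_pos μ
  have h3 := h.bet_pos μ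
  have h4 : 0 < ‖z - d.pos μ‖ := lt_trans (by positivity) h1
  rw [norm_conj, norm_div, norm_pow, R_opp, div_lt_iff₀ h4, mul_comm]
  rwa [div_lt_iff₀ (by positivity)] at h1

lemma a_eq {k : ℕ} {z : ℂ} (hz : z ∈ F.Big d k) : F.a d k (u * σ z) = σ (F.a d k z) := by
  rw [Frm.a, Frm.a, equi_sum_sides hπ, map_add, map_one, map_sum]
  exact congrArg _ (Finset.sum_congr rfl fun μ hμ =>
    s.tA (s.spin hπ h _ (big_arg h hz hμ)).2)

lemma b_eq {k : ℕ} {z : ℂ} (hz : z ∈ F.Big d k) :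
    F.b d k (u * σ z) = conj u * σ (F.b d k z) := by
  rw [Frm.b, Frm.b, equi_sum_sides hπ, map_sum, Finset.mul_sum]
  exact Finset.sum_congr rfl fun μ hμ => s.tB (s.spin hπ h _ (big_arg h hz hμ)).1

omit s hπ in
lemma bet_le_R (e : ι × Bool) : 1 ≤ F.R e ∧ ‖d.bet e‖ ≤ F.R e := by
  have h1 : 1 ≤ (F.t e.1)⁻¹ := (one_le_inv₀ (h.t_pos _)).2 ((h.t_small _).trans (by norm_num))
  exact ⟨one_le_pow₀ h1, (h.bet_le e).trans (le_self_pow₀ h1 (by norm_num))⟩

omit s hπ in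
lemma sphere_big (e : ι × Bool) {ζ : ℂ} (hζ : ζ ∈ Metric.sphere (d.pos e) |F.sr d e|) :
    ζ ∈ F.Big d (F.lay e) ∧ ‖ζ - d.pos e‖ = F.sr d e := by
  rw [abs_of_pos (h.sr_pos e), mem_sphere_iff_norm] at hζ
  refine ⟨?_, hζ⟩
  have h2 := h.R_pos e
  have h3 := h.bet_pos e
  have h4 := (bet_le_R h e).2
  have := h.mem_Big e (v := ζ - d.pos e) (by
    rw [hζ, Frm.sr]
    exact div_lt_div_of_pos_left (by positivity) (by positivity) (by linarith)) (by
    rw [hζ, Frm.sr, div_le_iff₀ (by positivity)]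
    nlinarith)
  rwa [add_sub_cancel] at this

lemma res {f : ℂ → ℂ} {c : ℂ} (e : ι × Bool)
    (hf : ∀ z ∈ F.Big d (F.lay e), f (u * σ z) = c * σ (f z)) :
    F.res d f (sd π e) = c * u * σ (F.res d f e) := by
  rw [Frm.res, Frm.res, equi_res_eq, equi_res_eq, s.sr hπ, ← s.avg', s.pos e, s.avg, ← s.pos e]
  refine Real.circleAverage_congr_sphere fun ζ hζ => ?_
  simp only [s.sub, hf ζ (sphere_big h e hζ).1, map_mul]
  ring

lemma prim {f : ℂ → ℂ} {c : ℂ} (e : ι × Bool)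
    (hf : ∀ z ∈ F.Big d (F.lay e), f (u * σ z) = c * σ (f z)) {z : ℂ}
    (hz : z ∈ F.U d (F.lay e)) :
    F.prim d f (sd π e) (u * σ z) = c * u * σ (F.prim d f e z) := by
  rw [Frm.prim, Frm.prim, equi_res_eq, equi_res_eq, s.sr hπ, ← s.avg']
  refine (s.avg2 _ e _).trans ?_
  refine Real.circleAverage_congr_sphere fun ζ hζ => ?_
  have h1 := hz e (self_mem_sides e)
  have h2 := h.R_pos e
  have h3 := h.bet_pos e
  have h4 : ‖(ζ - d.pos e) / (z - d.pos e)‖ < 1 := by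
    rw [norm_div, div_lt_one (lt_trans (by positivity) h1), (sphere_big h e hζ).2, Frm.sr]
    exact lt_trans (div_lt_div_of_pos_left (by positivity) h2 (by linarith)) h1
  simp only [s.sub, hf ζ (sphere_big h e hζ).1, map_mul]
  rw [mul_div_mul_left _ _ s.ne, ← map_div₀, s.log h4]
  ring

lemma aa_eq (k : ℕ) : ∀ z ∈ F.Big d k, F.aa d k (u * σ z) = 1 * σ (F.aa d k z) := fun z hz => by
  rw [Frm.aa, Frm.aa, s.a_eq hπ h hz, map_pow, one_mul]

lemma ab_eq (k : ℕ) : ∀ z ∈ F.Big d k, F.ab d k (u * σ z) = conj u * σ (F.ab d k z) :=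
  fun z hz => by
    rw [Frm.ab, Frm.ab, s.a_eq hπ h hz, s.b_eq hπ h hz, map_mul σ]
    ring

lemma bb_eq (k : ℕ) : ∀ z ∈ F.Big d k, F.bb d k (u * σ z) = conj u ^ 2 * σ (F.bb d k z) :=
  fun z hz => by rw [Frm.bb, Frm.bb, s.b_eq hπ h hz, map_pow, mul_pow]

lemma ra (e : ι × Bool) : F.ra d (sd π e) = u * σ (F.ra d e) := by
  rw [Frm.ra, Frm.ra, equi_lay hπ, s.res hπ h e (s.aa_eq hπ h _), one_mul]

lemma rab (e : ι × Bool) : F.rab d (sd π e) = σ (F.rab d e) := by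
  rw [Frm.rab, Frm.rab, equi_lay hπ, s.res hπ h e (s.ab_eq hπ h _), mul_comm _ u, s.mul_conj,
    one_mul]

lemma rb (e : ι × Bool) : F.rb d (sd π e) = conj u * σ (F.rb d e) := by
  rw [Frm.rb, Frm.rb, equi_lay hπ, s.res hπ h e (s.bb_eq hπ h _), pow_two, mul_assoc _ _ u,
    mul_comm _ u, s.mul_conj, mul_one]

lemma H_eq {k : ℕ} {z : ℂ} (hz : z ∈ F.U d k) : F.H d k (u * σ z) = u * σ (F.H d k z) := by
  rw [Frm.H, Frm.H, equi_sum_sides hπ, map_add, map_sum, mul_add, Finset.mul_sum]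
  refine congrArg _ (Finset.sum_congr rfl fun e he => ?_)
  obtain rfl := mem_sides_iff.1 he
  rw [s.prim hπ h e (s.aa_eq hπ h _) hz, s.prim hπ h e (s.bb_eq hπ h _) hz, s.ra hπ h, s.norm_sub]
  simp only [map_add, map_sub, map_mul, map_pow, conj_conj, s.comm, s.real, map_ofNat]
  linear_combination -(u * conj (σ (F.prim d (F.bb d (F.lay e)) e z))) * s.mul_conj

lemma h0_eq {k : ℕ} {z : ℂ} (hz : z ∈ F.U d k) : F.h0 d k (u * σ z) = F.h0 d k z := by
  rw [Frm.h0, Frm.h0, equi_sum_sides hπ]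
  refine Finset.sum_congr rfl fun e he => ?_
  obtain rfl := mem_sides_iff.1 he
  rw [s.prim hπ h e (s.ab_eq hπ h _) hz, s.rab hπ h, s.norm_sub, mul_comm _ u, s.mul_conj,
    one_mul, s.re, s.re]

omit s hπ in
lemma sphere_U (e : ι × Bool) {ζ : ℂ} (hζ : ζ ∈ Metric.sphere (d.pos e) |‖d.bet e‖|) :
    ζ ∈ F.U d (F.lay e) := by
  rw [abs_norm, mem_sphere_iff_norm] at hζ
  have h2 := h.R_pos e
  have := h.mem_Ub e (v := ζ - d.pos e) hζ.ge (by linarith [(bet_le_R h e).2])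
  rw [add_sub_cancel] at this
  exact h.Ub_sub _ this

lemma Jh (e : ι × Bool) : F.Jh d (sd π e) = u * σ (F.Jh d e) := by
  rw [Frm.Jh, Frm.Jh, equi_lay hπ, s.pos, s.bet, s.norm, s.avg, ← s.avg']
  exact Real.circleAverage_congr_sphere fun ζ hζ => s.H_eq hπ h (sphere_U h e hζ)

lemma J3 (e : ι × Bool) : F.J3 d (sd π e) = F.J3 d e := by
  rw [Frm.J3, Frm.J3, equi_lay hπ, s.pos, s.bet, s.norm, s.avg]
  exact Real.circleAverage_congr_sphere fun ζ hζ => s.h0_eq hπ h (sphere_U h e hζ)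

end EquiSym

theorem rot_all (h : F.Adm d) (hπ : F.Perm π) (hr : d.Rot π u) (e : ι × Bool) :
    F.ra d (sd π e) = u * F.ra d e ∧ F.rb d (sd π e) = conj u * F.rb d e ∧
      F.rab d (sd π e) = F.rab d e ∧ F.Jh d (sd π e) = u * F.Jh d e ∧
      F.J3 d (sd π e) = F.J3 d e :=
  have s : EquiSym d π u (RingHom.id ℂ) :=
    ⟨hr.unit, Or.inl rfl, hr.pos, fun e => by simp [Dat.bet, sd, hr.bet]⟩
  ⟨s.ra hπ h e, s.rb hπ h e, s.rab hπ h e, s.Jh hπ h e, s.J3 hπ h e⟩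

theorem refl_all (h : F.Adm d) (hπ : F.Perm π) (hr : d.Refl π) (e : ι × Bool) :
    F.ra d (sd π e) = conj (F.ra d e) ∧ F.rb d (sd π e) = conj (F.rb d e) ∧
      F.rab d (sd π e) = conj (F.rab d e) ∧ F.Jh d (sd π e) = conj (F.Jh d e) ∧
      F.J3 d (sd π e) = F.J3 d e := by
  have s : EquiSym d π 1 (starRingEnd ℂ) :=
    ⟨norm_one, Or.inr rfl, fun e => by rw [hr.pos, one_mul], fun e => by
      rcases e with ⟨ν, _ | _⟩ <;> simp [sd, hr.bet]⟩
  exact ⟨by simpa using s.ra hπ h e, by simpa using s.rb hπ h e, s.rab hπ h e,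
    by simpa using s.Jh hπ h e, s.J3 hπ h e⟩

theorem sum_ra_rot (h : F.Adm d) (hπ : F.Perm π) (hr : d.Rot π u) (hu : u ≠ 1) (k : ℕ) :
    ∑ e ∈ F.sides k, F.ra d e = 0 := by
  have e := equi_sum_sides hπ k (F.ra d)
  simp only [(rot_all h hπ hr _).1, ← Finset.mul_sum] at e
  exact (mul_eq_zero.1 (by linear_combination e : (1 - u) * ∑ e ∈ F.sides k, F.ra d e = 0)).resolve_left
    (sub_ne_zero.2 hu.symm)

end Pool.Agent.MP_943ae2_gt

end
end

section

open Set Complex Filter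
open scoped Topology ComplexConjugate ContDiff

noncomputable section

namespace Pool.Agent.MP_943ae2_gt

variable {ι : Type} {F : Frm ι} {d : Dat ι} {C : ℕ → ℝ}

lemma Neck_path {E : Type} [NormedAddCommGroup E] [NormedSpace ℝ E] {f : ℝ → E} {K : ℝ}
    (h : ∀ x ∈ Icc (0 : ℝ) 1, ∃ f', HasDerivAt f f' x ∧ ‖f'‖ ≤ K) : ‖f 1 - f 0‖ ≤ K := by
  choose! g hg using h
  exact norm_image_sub_le_of_norm_deriv_le_segment_01' (f' := g)
    (fun x hx => (hg x hx).1.hasDerivWithinAt) (fun x hx => (hg x (Ico_subset_Icc_self hx)).2)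

lemma Neck_mul {x y : ℂ} {a b : ℝ} (hx : ‖x - 1‖ ≤ a) (hy : ‖y - 1‖ ≤ b) :
    ‖x * y - 1‖ ≤ a + b + a * b := by
  have e : x * y - 1 = (x - 1) + (y - 1) + (x - 1) * (y - 1) := by ring
  rw [e]
  refine (norm_add_le _ _).trans (add_le_add ((norm_add_le _ _).trans (add_le_add hx hy)) ?_)
  rw [norm_mul]
  exact mul_le_mul hx hy (norm_nonneg _) ((norm_nonneg _).trans hx)

lemma Neck_exp (p w : ℂ) (x : ℝ) :
    HasDerivAt (fun s : ℝ => p * exp (s * w)) (p * exp (x * w) * w) x := by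
  have h1 : HasDerivAt (fun s : ℝ => (s : ℂ) * w) w x := by
    simpa using ((hasDerivAt_id (x : ℂ)).mul_const w).comp_ofReal
  simpa [mul_assoc] using h1.cexp.const_mul p

lemma Neck_re {w : ℂ} (hθ : |w.im| ≤ Real.pi) (h1 : |w.re| ≤ ‖w‖ / 100) :
    |w.re| ≤ |w.im| / 99 ∧ |w.re| ≤ 1 / 2 := by
  have h2 := norm_le_abs_re_add_abs_im w
  have h3 := Real.pi_lt_four
  constructor <;> linarith

lemma Neck_exp_le {x : ℝ} (h : |x| ≤ 1 / 2) : Real.exp x ≤ 2 := by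
  have h1 := Real.abs_exp_sub_one_le (x := x) (by linarith)
  have h2 := le_abs_self (Real.exp x - 1)
  linarith

/-- The model catenoid is injective. -/
lemma Neck_core {p q w : ℂ} {A : ℝ} (hA : 0 < A) (h0 : ‖p‖ + ‖q‖ = A) (h0' : ‖p + q‖ = A)
    (hθ : |w.im| ≤ Real.pi) (h1 : |w.re| ≤ ‖w‖ / 100)
    (h2 : ‖p * exp w + q * exp (-conj w) - (p + q)‖ ≤ ‖w‖ * A / 50) : w = 0 := by
  obtain ⟨r1, r2⟩ := Neck_re hθ h1
  have hn := norm_le_abs_re_add_abs_im w
  have e1 : exp w = (Real.exp w.re : ℝ) * exp (I * w.im) := by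
    rw [ofReal_exp, ← exp_add]
    congr 1
    apply Complex.ext <;> simp
  have e2 : exp (-conj w) = (Real.exp (-w.re) : ℝ) * exp (I * w.im) := by
    rw [ofReal_exp, ← exp_add]
    congr 1
    apply Complex.ext <;> simp
  have n1 : ‖exp (I * w.im)‖ = 1 := by
    rw [norm_exp]
    simp
  have l1 : 2 / Real.pi * |w.im| ≤ ‖exp (I * w.im) - 1‖ := by
    rw [norm_exp_I_mul_ofReal_sub_one, Real.norm_eq_abs, abs_mul, abs_two]
    have := Real.mul_abs_le_abs_sin (x := w.im / 2) (by rw [abs_div, abs_two]; linarith)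
    rw [abs_div, abs_two] at this
    linarith
  have l2 : 1 / 2 ≤ 2 / Real.pi := by
    rw [div_le_div_iff₀ (by norm_num) Real.pi_pos]
    linarith [Real.pi_lt_four]
  have l3 : 1 / 2 * |w.im| ≤ ‖exp (I * w.im) - 1‖ :=
    (mul_le_mul_of_nonneg_right l2 (abs_nonneg _)).trans l1
  have b1 : ‖((Real.exp w.re : ℝ) : ℂ) - 1‖ ≤ 2 * |w.re| := by
    rw [← ofReal_one, ← ofReal_sub, norm_real, Real.norm_eq_abs]
    exact Real.abs_exp_sub_one_le (by linarith)
  have b2 : ‖((Real.exp (-w.re) : ℝ) : ℂ) - 1‖ ≤ 2 * |w.re| := by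
    rw [← ofReal_one, ← ofReal_sub, norm_real, Real.norm_eq_abs, ← abs_neg w.re]
    exact Real.abs_exp_sub_one_le (by rw [abs_neg]; linarith)
  rw [e1, e2] at h2
  generalize ((Real.exp w.re : ℝ) : ℂ) = x at *
  generalize ((Real.exp (-w.re) : ℝ) : ℂ) = y at *
  generalize exp (I * w.im) = u at *
  have e3 : (p + q) * (u - 1) =
      (p * (x * u) + q * (y * u) - (p + q)) - (p * (x - 1) + q * (y - 1)) * u := by ring
  have b3 : ‖(p * (x - 1) + q * (y - 1)) * u‖ ≤ A * (2 * |w.re|) := by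
    rw [norm_mul, n1, mul_one, ← h0, add_mul]
    refine (norm_add_le _ _).trans ?_
    rw [norm_mul, norm_mul]
    gcongr
  have b4 : A * ‖u - 1‖ ≤ ‖w‖ * A / 50 + A * (2 * |w.re|) := by
    rw [← h0', ← norm_mul, e3, h0']
    exact (norm_sub_le _ _).trans (add_le_add h2 b3)
  have b5 : ‖u - 1‖ ≤ ‖w‖ / 50 + 2 * |w.re| := by
    refine le_of_mul_le_mul_left (b4.trans (le_of_eq ?_)) hA
    ring
  have b6 := abs_nonneg w.im
  have b7 : ‖w‖ ≤ 0 := by linarith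
  exact norm_le_zero_iff.1 b7

lemma Neck_bet (h : F.Adm d) (e : ι × Bool) : ∃ μ : ℝ, ∃ β : ℂ, |μ| = ‖d.bet e‖ ∧
    d.bet e = μ * β ∧ ‖β - 1‖ ≤ 1 / 1000 := by
  have key : ∃ μ : ℝ, |μ| = ‖d.bet e‖ ∧ ‖d.bet e - μ‖ ≤ F.t e.1 ^ 20 := by
    rcases e with ⟨ν, _ | _⟩
    · exact ⟨‖d.2 ν‖, by simp, by simpa using h.b_real ν⟩
    · refine ⟨-‖d.2 ν‖, by simp, ?_⟩
      have e1 : d.bet (ν, true) - ((-‖d.2 ν‖ : ℝ) : ℂ) = -conj (d.2 ν - ‖d.2 ν‖) := by
        simp only [bet_true, map_sub, conj_ofReal, ofReal_neg]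
        ring
      rw [e1, norm_neg, norm_conj]
      exact h.b_real ν
  obtain ⟨μ, h1, h2⟩ := key
  have hb := h.bet_pos e
  have hμ : (μ : ℂ) ≠ 0 := by
    rw [ofReal_ne_zero, ← abs_pos, h1]
    exact hb
  refine ⟨μ, d.bet e / μ, h1, by field_simp, ?_⟩
  rw [div_sub_one hμ, norm_div, norm_real, Real.norm_eq_abs, h1, div_le_iff₀ hb]
  have t0 := h.t_pos e.1
  have t1 := h.t_small e.1
  have t2 : F.t e.1 ^ 18 ≤ 1 := pow_le_one₀ t0.le (by linarith)
  have t3 := h.b_ge e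
  calc ‖d.bet e - μ‖ ≤ F.t e.1 ^ 18 * (F.t e.1 * F.t e.1) := h2.trans (le_of_eq (by ring))
    _ ≤ 1 * (1 / 1000 * ‖d.bet e‖) := by gcongr
    _ = _ := one_mul _

lemma Neck_a (h : F.Adm d) {k : ℕ} {z : ℂ} (hz : z ∈ F.U d k) : ‖F.a d k z - 1‖ ≤ 1 / 1000 := by
  refine (h.a_near (h.U_sub k hz)).trans (le_trans ?_ (h.T_le k))
  exact pow_le_of_le_one (h.T_pos k).le ((h.T_le k).trans (by norm_num)) (by norm_num)

lemma Neck_loc (h : F.Adm d) (e : ι × Bool) {u : ℂ} (h1 : ‖d.bet e‖ ^ 2 / F.R e < ‖u‖)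
    (h2 : ‖u‖ < F.R e) : d.pos e + u ∈ F.U d (F.lay e) ∧ ∃ y : ℂ, ‖y - 1‖ ≤ 1 / 1000 ∧
      F.b d (F.lay e) (d.pos e + u) = -(d.bet e / u * y) := by
  have hR := h.R_pos e
  have hb := h.bet_pos e
  have hu : 0 < ‖u‖ := lt_trans (by positivity) h1
  refine ⟨h.mem_U e h1 (by linarith), conj (F.a d (F.lay (opp e)) (d.par e u)), ?_,
    h.glue_b e (lt_of_le_of_lt ?_ h1) (by linarith)⟩
  · have hm : d.par e u ∈ F.U d (F.lay (opp e)) := by
      refine h.mem_U (opp e) ?_ ?_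
      · rw [norm_bet_opp, R_opp, norm_conj, norm_div, norm_pow]
        exact div_lt_div_of_pos_left (by positivity) hu h2
      · rw [R_opp, norm_conj, norm_div, norm_pow, div_le_iff₀ hu]
        rw [div_lt_iff₀ hR] at h1
        nlinarith
    have e1 : conj (F.a d (F.lay (opp e)) (d.par e u)) - 1 =
        conj (F.a d (F.lay (opp e)) (d.par e u) - 1) := by simp
    rw [e1, norm_conj]
    exact Neck_a h hm
  · exact div_le_div_of_nonneg_left (by positivity) hR (by linarith)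

lemma Neck_between {a b r σ x : ℝ} (hr : 0 < r) (h1 : a < r) (h2 : r < b)
    (h1' : a < r * Real.exp σ) (h2' : r * Real.exp σ < b) (hx : x ∈ Icc (0 : ℝ) 1) :
    a < r * Real.exp (x * σ) ∧ r * Real.exp (x * σ) < b := by
  rcases le_total 0 σ with hs | hs
  · have l1 : 1 ≤ Real.exp (x * σ) := Real.one_le_exp (mul_nonneg hx.1 hs)
    have l2 : Real.exp (x * σ) ≤ Real.exp σ := Real.exp_le_exp.2 (by nlinarith [hx.2])
    constructor <;> nlinarith
  · have l1 : Real.exp (x * σ) ≤ 1 := Real.exp_le_one_iff.2 (mul_nonpos_of_nonneg_of_nonpos hx.1 hs)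
    have l2 : Real.exp σ ≤ Real.exp (x * σ) := Real.exp_le_exp.2 (by nlinarith [hx.2])
    constructor <;> nlinarith

theorem Frm.Adm.neck_inj (h : F.Adm d) (hs : F.Sol d C) (e : ι × Bool) {v v' : ℂ}
    (h1 : ‖d.bet e‖ ^ 2 / F.R e < ‖v‖) (h2 : ‖v‖ < F.R e)
    (h1' : ‖d.bet e‖ ^ 2 / F.R e < ‖v'‖) (h2' : ‖v'‖ < F.R e)
    (he : F.X d C (F.lay e) (d.pos e + v) = F.X d C (F.lay e) (d.pos e + v')) : v = v' := by
  have hR := h.R_pos e
  have hb := h.bet_pos e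
  have hv : 0 < ‖v‖ := lt_trans (by positivity) h1
  have hv' : 0 < ‖v'‖ := lt_trans (by positivity) h1'
  have hv0 : v ≠ 0 := norm_pos_iff.1 hv
  obtain ⟨w, hθ, rfl⟩ : ∃ w : ℂ, |w.im| ≤ Real.pi ∧ v' = v * exp w := by
    refine ⟨log (v' / v), by rw [log_im]; exact abs_arg_le_pi _, ?_⟩
    rw [exp_log (div_ne_zero (norm_pos_iff.1 hv') hv0)]
    field_simp
  obtain ⟨eH, eh⟩ := X_eq_iff.1 he
  have eh' : F.h0 d (F.lay e) (d.pos e + v) = F.h0 d (F.lay e) (d.pos e + v * exp w) := by linarith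
  obtain ⟨μ, β, m1, m2, m3⟩ := Neck_bet h e
  have nu : ∀ x : ℝ, ‖v * exp (x * w)‖ = ‖v‖ * Real.exp (x * w.re) := fun x => by
    rw [norm_mul, norm_exp, re_ofReal_mul]
  rw [norm_mul, norm_exp] at h1' h2'
  have loc : ∀ x ∈ Icc (0 : ℝ) 1, d.pos e + v * exp (x * w) ∈ F.U d (F.lay e) ∧ ∃ y : ℂ,
      ‖y - 1‖ ≤ 1 / 1000 ∧
        F.b d (F.lay e) (d.pos e + v * exp (x * w)) = -(d.bet e / (v * exp (x * w)) * y) :=
    fun x hx => by
      have := Neck_between hv h1 h2 h1' h2' hx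
      rw [← nu] at this
      exact Neck_loc h e this.1 this.2
  have hγ : ∀ x : ℝ, HasDerivAt (fun s : ℝ => d.pos e + v * exp (s * w)) (v * exp (x * w) * w) x :=
    fun x => (Neck_exp v w x).const_add _
  have hre : |w.re| ≤ ‖w‖ / 100 := by
    have key := Neck_path (f := fun s : ℝ => F.h0 d (F.lay e) (d.pos e + v * exp (s * w)) +
      μ * w.re * s) (K := ‖d.bet e‖ * (‖w‖ / 100)) (fun x hx => by
        obtain ⟨hU, y, hy, hB⟩ := loc x hx
        obtain ⟨L, hL, hL'⟩ := h.h0_deriv hs hU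
        refine ⟨_, (hL.comp_hasDerivAt x (hγ x)).add ((hasDerivAt_id x).const_mul (μ * w.re)), ?_⟩
        have ha := Neck_a h hU
        rw [hL', hB, m2]
        generalize F.a d (F.lay e) (d.pos e + v * exp (x * w)) = a at ha
        have hu : v * exp (x * w) ≠ 0 := mul_ne_zero hv0 (exp_ne_zero _)
        generalize v * exp (x * w) = u at hu
        have e1 : a * -(μ * β / u * y) * (u * w) = -(μ * (β * y * a * w)) := by
          field_simp
        have e2 : (a * -(μ * β / u * y) * (u * w)).re + μ * w.re * 1 =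
            -(μ * ((β * y * a - 1) * w).re) := by
          rw [e1, neg_re, re_ofReal_mul, sub_mul, one_mul, sub_re]
          ring
        rw [e2, ← m2, ← m1, norm_neg, norm_mul, Real.norm_eq_abs, Real.norm_eq_abs]
        refine mul_le_mul_of_nonneg_left ((abs_re_le_norm _).trans ?_) (abs_nonneg _)
        have b1 := Neck_mul (Neck_mul m3 hy) ha
        rw [norm_mul]
        have b2 : ‖β * y * a - 1‖ ≤ 1 / 100 := b1.trans (by norm_num)
        nlinarith [norm_nonneg w])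
    simp only [ofReal_one, one_mul, ofReal_zero, zero_mul, exp_zero, mul_one, mul_zero,
      add_zero] at key
    rw [← eh', add_sub_cancel_left, norm_mul, Real.norm_eq_abs, Real.norm_eq_abs, m1] at key
    exact le_of_mul_le_mul_left key hb
  obtain ⟨-, r2⟩ := Neck_re hθ hre
  set q : ℂ := conj ((μ : ℂ) ^ 2 / v) with hq
  have nq : ‖q‖ = μ ^ 2 / ‖v‖ := by
    rw [hq, norm_conj, norm_div, norm_pow, norm_real, Real.norm_eq_abs, sq_abs]
  have npq : ‖v + q‖ = ‖v‖ + ‖q‖ := by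
    have e1 : v + q = ((1 + μ ^ 2 / ‖v‖ ^ 2 : ℝ) : ℂ) * v := by
      have hc : conj v ≠ 0 := by simpa using hv0
      push_cast
      rw [← mul_conj' v, hq, map_div₀, map_pow, conj_ofReal]
      field_simp
    rw [e1, norm_mul, norm_real, Real.norm_eq_abs, abs_of_pos (by positivity), nq]
    field_simp
  have hw : w = 0 := by
    refine Neck_core (p := v) (q := q) (A := ‖v‖ + ‖q‖) (by positivity) rfl npq hθ hre ?_
    have key := Neck_path (f := fun s : ℝ => F.H d (F.lay e) (d.pos e + v * exp (s * w)) -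
      (v * exp (s * w) + q * exp (s * -conj w))) (K := ‖w‖ * (‖v‖ + ‖q‖) / 50) (fun x hx => by
        obtain ⟨hU, y, hy, hB⟩ := loc x hx
        obtain ⟨L, hL, hL'⟩ := h.H_deriv hs hU
        refine ⟨_, (hL.comp_hasDerivAt x (hγ x)).sub
          ((Neck_exp v w x).add (Neck_exp q (-conj w) x)), ?_⟩
        have ha := Neck_a h hU
        have hx1 : |x * w.re| ≤ 1 / 2 := by
          rw [abs_mul, abs_of_nonneg hx.1]
          nlinarith [hx.1, hx.2, abs_nonneg w.re]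
        have n1 : ‖v * exp (x * w)‖ ≤ ‖v‖ * 2 := by
          rw [nu]
          exact mul_le_mul_of_nonneg_left (Neck_exp_le hx1) hv.le
        have n2 : ‖q * exp (x * -conj w)‖ ≤ ‖q‖ * 2 := by
          rw [norm_mul, norm_exp, re_ofReal_mul, neg_re, conj_re, mul_neg]
          exact mul_le_mul_of_nonneg_left (Neck_exp_le (by rwa [abs_neg])) (norm_nonneg _)
        have e0 : q * exp (x * -conj w) = conj ((μ : ℂ) ^ 2 / (v * exp (x * w))) := by
          rw [hq, ← div_div, div_eq_mul_inv _ (exp _), ← exp_neg, map_mul, ← exp_conj]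
          simp
        rw [hL', hB, m2]
        rw [e0] at n2 ⊢
        generalize F.a d (F.lay e) (d.pos e + v * exp (x * w)) = a at ha
        have hu : v * exp (x * w) ≠ 0 := mul_ne_zero hv0 (exp_ne_zero _)
        generalize v * exp (x * w) = u at hu n1 n2
        have e1 : (-(μ * β / u * y)) ^ 2 * (u * w) = (β * y * (β * y)) * (μ ^ 2 / u) * w := by
          field_simp
        have e2 : a ^ 2 * (u * w) - conj ((-(μ * β / u * y)) ^ 2 * (u * w)) -
            (u * w + conj ((μ : ℂ) ^ 2 / u) * -conj w) =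
            (a * a - 1) * u * w - conj ((β * y * (β * y) - 1) * (μ ^ 2 / u) * w) := by
          rw [e1]
          simp only [map_mul, map_sub, map_one]
          ring
        rw [e2]
        rw [norm_conj] at n2
        have b1 : ‖a * a - 1‖ ≤ 1 / 100 := (Neck_mul ha ha).trans (by norm_num)
        have b2 : ‖β * y * (β * y) - 1‖ ≤ 1 / 100 :=
          (Neck_mul (Neck_mul m3 hy) (Neck_mul m3 hy)).trans (by norm_num)
        refine (norm_sub_le _ _).trans ?_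
        rw [norm_conj, norm_mul, norm_mul, norm_mul, norm_mul]
        calc _ ≤ 1 / 100 * (‖v‖ * 2) * ‖w‖ + 1 / 100 * (‖q‖ * 2) * ‖w‖ := by gcongr
          _ = _ := by ring)
    simp only [ofReal_one, one_mul, ofReal_zero, zero_mul, exp_zero, mul_one] at key
    rw [← eH, sub_sub_sub_cancel_left, norm_sub_rev] at key
    exact key
  rw [hw, exp_zero, mul_one]

theorem Frm.Adm.far_inj (h : F.Adm d) (hs : F.Sol d C) {k : ℕ} {z z' : ℂ} (hz : z ∈ F.Far d k)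
    (hz' : z' ∈ F.Far d k) (he : F.H d k z = F.H d k z') : z = z' := by
  have n1 := h.H_near hs (h.Far_sub k hz)
  have n2 := h.H_near hs (h.Far_sub k hz')
  have n3 : ‖z' - z‖ ≤ 2 * (F.T k)⁻¹ ^ 3 := by
    have e1 : z' - z = (F.H d k z - z) - (F.H d k z' - z') := by rw [he]; ring
    rw [e1]
    exact (norm_sub_le _ _).trans (by linarith)
  have T0 := h.T_pos k
  have T1 := h.T_le k
  have key := Neck_path (f := fun s : ℝ => F.H d k (z + s * (z' - z)) - (z + s * (z' - z)))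
    (K := ‖z' - z‖ / 2) (fun x hx => by
      have hγ : HasDerivAt (fun s : ℝ => z + s * (z' - z)) (z' - z) x := by
        simpa using (((hasDerivAt_id (x : ℂ)).mul_const (z' - z)).comp_ofReal).const_add z
      have hfar : ∀ e ∈ F.sides k, ‖d.bet e‖ ≤ F.Rs e / 2 ∧
          F.Rs e / 2 ≤ ‖z + x * (z' - z) - d.pos e‖ := fun e he => by
        have t0 := h.t_pos e.1
        have t1 : F.t e.1 ≤ F.T k := by
          have := h.t_le e
          rwa [mem_sides_iff.1 he] at this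
        have t2 : (F.T k)⁻¹ ≤ (F.t e.1)⁻¹ := inv_anti₀ t0 t1
        have t3 : 1000 ≤ (F.t e.1)⁻¹ := by
          rw [le_inv_comm₀ (by norm_num) t0]
          linarith
        have t4 : (F.T k)⁻¹ ^ 3 ≤ (F.t e.1)⁻¹ ^ 3 := pow_le_pow_left₀ (by positivity) t2 3
        have t5 : (F.t e.1)⁻¹ ^ 4 ≤ F.Rs e := pow_le_pow_right₀ (by linarith) (by norm_num)
        have t6 : (F.t e.1)⁻¹ ≤ (F.t e.1)⁻¹ ^ 3 := le_self_pow₀ (by linarith) (by norm_num)
        have t7 : 1000 * (F.t e.1)⁻¹ ^ 3 ≤ (F.t e.1)⁻¹ ^ 4 := by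
          rw [pow_succ' _ 3]
          exact mul_le_mul_of_nonneg_right t3 (by positivity)
        have t8 := h.bet_le e
        refine ⟨by linarith, ?_⟩
        have b1 : ‖(x : ℂ) * (z' - z)‖ ≤ ‖z' - z‖ := by
          rw [norm_mul, norm_real, Real.norm_eq_abs, abs_of_nonneg hx.1]
          exact mul_le_of_le_one_left (norm_nonneg _) hx.2
        have b2 : ‖z - d.pos e‖ ≤ ‖z + x * (z' - z) - d.pos e‖ + ‖(x : ℂ) * (z' - z)‖ := by
          refine le_trans (le_of_eq ?_) (norm_sub_le _ _)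
          congr 1
          ring
        have b3 := hz e he
        linarith
      have hU : z + x * (z' - z) ∈ F.U d k :=
        h.Ub_sub k fun e he => (hfar e he).1.trans (hfar e he).2
      obtain ⟨L, hL, hL'⟩ := h.H_deriv hs hU
      have hD := HasFDerivAt.comp_hasDerivAt (l := F.H d k) (l' := L) x hL hγ
      refine ⟨_, hD.sub hγ, ?_⟩
      have ha := Neck_a h hU
      have hb : ‖F.b d k (z + x * (z' - z))‖ ≤ 1 / 1000 :=
        (h.b_far fun e he => (hfar e he).2).trans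
          ((pow_le_of_le_one T0.le (by linarith) (by norm_num)).trans T1)
      rw [hL']
      generalize F.a d k (z + x * (z' - z)) = a at ha
      generalize F.b d k (z + x * (z' - z)) = b at hb
      generalize z' - z = w
      have e1 : a ^ 2 * w - conj (b ^ 2 * w) - w = (a * a - 1) * w - conj (b ^ 2 * w) := by ring
      have b1 : ‖a * a - 1‖ ≤ 1 / 100 := (Neck_mul ha ha).trans (by norm_num)
      rw [e1]
      refine (norm_sub_le _ _).trans ?_
      rw [norm_conj, norm_mul, norm_mul, norm_pow]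
      calc _ ≤ 1 / 100 * ‖w‖ + (1 / 1000) ^ 2 * ‖w‖ := by gcongr
        _ ≤ _ := by linarith [norm_nonneg w])
  simp only [ofReal_one, one_mul, ofReal_zero, zero_mul, add_zero, add_sub_cancel] at key
  rw [he, sub_sub_sub_cancel_left, norm_sub_rev] at key
  have : ‖z' - z‖ ≤ 0 := by linarith
  exact (sub_eq_zero.1 (norm_le_zero_iff.1 this)).symm

end Pool.Agent.MP_943ae2_gt

end
end
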