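import Pool.Agent.Mg.F943ae2.G08e149

section

open Set Complex Filter Finset
open scoped Topology ComplexConjugate ContDiff

noncomputable section

namespace Pool.Agent.MP_943ae2_gt

variable (n : ℕ) [NeZero n]

lemma Ring1_ne : (n : ℂ) ≠ 0 := Nat.cast_ne_zero.2 (NeZero.ne n)

lemma Ring1_pos : (0 : ℝ) < n := Nat.cast_pos.2 (NeZero.pos n)

lemma Ring1_one : (ZMod.stdAddChar (1 : ZMod n) : ℂ) = exp (2 * Real.pi * I / n) := by
  simpa using ZMod.stdAddChar_coe (N := n) 1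

lemma Ring1_nat (k : ℕ) :
    (ZMod.stdAddChar (k : ZMod n) : ℂ) = ZMod.stdAddChar (1 : ZMod n) ^ k := by
  rw [← AddChar.map_nsmul_eq_pow, nsmul_eq_mul, mul_one]

lemma Ring1_prim : IsPrimitiveRoot (ZMod.stdAddChar (1 : ZMod n) : ℂ) n := by
  rw [Ring1_one]
  exact isPrimitiveRoot_exp n (NeZero.ne n)

theorem norm_ze : ‖ze n‖ = 1 := by
  have e : (Real.pi : ℂ) * I / n = ((Real.pi / n : ℝ) : ℂ) * I := by
    push_cast
    ring
  rw [ze, e, norm_exp_ofReal_mul_I]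

theorem ze_pow : ze n ^ n = -1 := by
  rw [ze, ← exp_nat_mul, mul_div_cancel₀ _ (Ring1_ne n), exp_pi_mul_I]

theorem ze_sq : ze n ^ 2 = ZMod.stdAddChar (1 : ZMod n) := by
  rw [Ring1_one, ze, ← exp_nat_mul]
  congr 1
  push_cast
  ring

theorem norm_chi (i : ZMod n) : ‖(ZMod.stdAddChar i : ℂ)‖ = 1 := AddChar.norm_apply _ _

theorem chi_pow (i : ZMod n) : (ZMod.stdAddChar i : ℂ) ^ n = 1 := by
  rw [← AddChar.map_nsmul_eq_pow, nsmul_eq_mul, ZMod.natCast_self, zero_mul,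
    AddChar.map_zero_eq_one]

theorem norm_un (k : ℕ) (i : ZMod n) : ‖un n k i‖ = 1 := by
  rw [un, norm_mul, norm_pow, norm_ze, norm_chi, one_pow, one_mul]

theorem un_pow (k : ℕ) (i : ZMod n) : un n k i ^ n = (-1) ^ k := by
  rw [un, mul_pow, chi_pow, mul_one, ← pow_mul, mul_comm, pow_mul, ze_pow]

theorem un_add (k : ℕ) (i d : ZMod n) : un n k (i + d) = un n k i * ZMod.stdAddChar d := by
  rw [un, un, AddChar.map_add_eq_mul, mul_assoc]

lemma Ring1_un_ne (k : ℕ) (i : ZMod n) : un n k i ≠ 0 := by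
  rw [← norm_ne_zero_iff, norm_un]
  exact one_ne_zero

lemma Ring1_un_eq (k : ℕ) (i j : ZMod n) : un n k j = un n k i * ZMod.stdAddChar (j - i) := by
  rw [← un_add, add_sub_cancel]

theorem un_div (k : ℕ) (i j : ZMod n) : un n k j / un n k i = ZMod.stdAddChar (j - i) := by
  rw [Ring1_un_eq n k i j, mul_div_cancel_left₀ _ (Ring1_un_ne n k i)]

lemma Ring1_succ (k : ℕ) (j : ZMod n) : un n (k + 1) j = ze n * un n k j := by
  rw [un, un, pow_succ']
  ring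

theorem un_succ_div (k : ℕ) (i j : ZMod n) :
    un n (k + 1) j / un n k i = ze n * ZMod.stdAddChar (j - i) := by
  rw [Ring1_succ, mul_div_assoc, un_div]

theorem un_refl (k : ℕ) (i : ZMod n) : un n k (-i - k) = conj (un n k i) := by
  rw [← inv_eq_conj (norm_un n k i)]
  refine eq_inv_of_mul_eq_one_left ?_
  have e : un n k (-i - k) * un n k i =
      (ze n ^ 2) ^ k * (ZMod.stdAddChar (-i - (k : ZMod n)) * ZMod.stdAddChar i) := by
    rw [un, un]
    ring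
  rw [e, ze_sq, ← Ring1_nat, ← AddChar.map_add_eq_mul, ← AddChar.map_add_eq_mul,
    show (k : ZMod n) + (-i - k + i) = 0 by ring, AddChar.map_zero_eq_one]

lemma Ring1_sum (m : ℕ) :
    ∑ j : ZMod n, (ZMod.stdAddChar j : ℂ) ^ m = if n ∣ m then (n : ℂ) else 0 := by
  have h := AddChar.sum_mulShift (m : ZMod n) (ZMod.isPrimitive_stdAddChar n)
  simp only [ZMod.natCast_eq_zero_iff, ZMod.card, Nat.cast_ite, Nat.cast_zero] at h
  rw [← h]
  refine Finset.sum_congr rfl fun j _ => ?_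
  rw [← AddChar.map_nsmul_eq_pow, nsmul_eq_mul, mul_comm]

theorem sum_chi_pow {m : ℕ} (h1 : 1 ≤ m) (h2 : m < n) :
    ∑ j : ZMod n, (ZMod.stdAddChar j : ℂ) ^ m = 0 := by
  rw [Ring1_sum, if_neg (Nat.not_dvd_of_pos_of_lt h1 h2)]

lemma Ring1_prod_all {M : Type} [CommMonoid M] (f : ZMod n → M) :
    ∏ j : ZMod n, f j = ∏ k ∈ range n, f k :=
  Finset.prod_nbij' ZMod.val (fun k => (k : ZMod n)) (fun a _ => Finset.mem_range.2 (ZMod.val_lt a))
    (fun _ _ => Finset.mem_univ _) (fun a _ => ZMod.natCast_zmod_val a)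
    (fun _ ha => ZMod.val_cast_of_lt (Finset.mem_range.1 ha)) (fun a _ => by rw [ZMod.natCast_zmod_val])

lemma Ring1_prod_ne {M : Type} [CommMonoid M] (f : ZMod n → M) (i : ZMod n) :
    ∏ j ∈ univ.erase i, f (j - i) = ∏ k ∈ range (n - 1), f (k + 1 : ℕ) := by
  have hn := NeZero.pos n
  symm
  refine Finset.prod_nbij' (fun k => ((k + 1 : ℕ) : ZMod n) + i) (fun j => (j - i).val - 1)
    (fun a ha => ?_) (fun j _ => ?_) (fun a ha => ?_) (fun j hj => ?_) (fun a _ => ?_)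
  · have := Finset.mem_range.1 ha
    simp only [mem_erase, Finset.mem_univ, and_true, ne_eq, add_eq_right, ZMod.natCast_eq_zero_iff]
    exact Nat.not_dvd_of_pos_of_lt (by omega) (by omega)
  · have h1 := ZMod.val_lt (j - i)
    have h2 : (j - i).val ≠ 0 := by
      rw [ZMod.val_ne_zero, sub_ne_zero]
      exact (mem_erase.1 ‹_›).1
    rw [Finset.mem_range]
    omega
  · have := Finset.mem_range.1 ha
    simp only [add_sub_cancel_right]
    rw [ZMod.val_cast_of_lt (by omega), Nat.add_sub_cancel]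
  · have h2 : (j - i).val ≠ 0 := by
      rw [ZMod.val_ne_zero, sub_ne_zero]
      exact (mem_erase.1 hj).1
    rw [Nat.sub_add_cancel (Nat.pos_of_ne_zero h2), ZMod.natCast_zmod_val, sub_add_cancel]
  · simp only [add_sub_cancel_right]

lemma Ring1_sum_ne {M : Type} [AddCommMonoid M] (f : ZMod n → M) (i : ZMod n) :
    ∑ j ∈ univ.erase i, f (j - i) = ∑ k ∈ range (n - 1), f (k + 1 : ℕ) :=
  Ring1_prod_ne n (M := Multiplicative M) f i

theorem prod_sub_chi (z w : ℂ) : ∏ j : ZMod n, (z - w * ZMod.stdAddChar j) = z ^ n - w ^ n := by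
  have h := congrArg (Polynomial.eval z)
    (X_pow_sub_C_eq_prod (Ring1_prim n) (NeZero.pos n) (rfl : w ^ n = w ^ n))
  simp only [Polynomial.eval_sub, Polynomial.eval_pow, Polynomial.eval_X, Polynomial.eval_C,
    Polynomial.eval_prod] at h
  rw [h, Ring1_prod_all]
  refine Finset.prod_congr rfl fun k _ => ?_
  rw [Ring1_nat, mul_comm]

lemma Ring1_pick (z : ℂ) (c : ℕ → ℂ) {m : ℕ} (h1 : 1 ≤ m) (h2 : m ≤ n) :
    ∑ j : ZMod n, (ZMod.stdAddChar j : ℂ) ^ m * ∑ l ∈ range n, c l * (z * ZMod.stdAddChar j) ^ l =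
      n * (c (n - m) * z ^ (n - m)) := by
  have e : ∀ (j : ZMod n) (l : ℕ), (ZMod.stdAddChar j : ℂ) ^ m *
      (c l * (z * ZMod.stdAddChar j) ^ l) = c l * z ^ l * (ZMod.stdAddChar j : ℂ) ^ (m + l) :=
    fun j l => by ring
  simp_rw [Finset.mul_sum, e]
  rw [Finset.sum_comm]
  simp_rw [← Finset.mul_sum, Ring1_sum]
  rw [Finset.sum_eq_single (n - m), if_pos (by rw [Nat.add_sub_cancel' h2]), mul_comm]
  · intro l hl hne
    rw [if_neg, mul_zero]
    intro hd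
    have := Finset.mem_range.1 hl
    have h3 := (Nat.dvd_sub hd (dvd_refl n))
    rcases lt_trichotomy (m + l) n with h | h | h
    · exact Nat.not_dvd_of_pos_of_lt (by omega) h hd
    · omega
    · exact Nat.not_dvd_of_pos_of_lt (by omega) (by omega) h3
  · intro h
    exact absurd (Finset.mem_range.2 (by omega)) h

omit [NeZero n] in
lemma Ring1_kap {x : ℂ} (hx : x ^ n ≠ 1) :
    kap x = ∑ l ∈ range n, (1 - x ^ n)⁻¹ * x ^ l := by
  have h1 : 1 - x ≠ 0 := fun h => hx (by rw [← sub_eq_zero.1 h, one_pow])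
  have h2 : 1 - x ^ n ≠ 0 := sub_ne_zero.2 hx.symm
  rw [← Finset.mul_sum, kap, eq_inv_mul_iff_mul_eq₀ h2, ← mul_neg_geom_sum]
  field_simp

omit [NeZero n] in
lemma Ring1_geom (x : ℂ) : (1 - x) * ∑ l ∈ range n, (l : ℂ) * x ^ l =
    x * ∑ l ∈ range n, x ^ l - n * x ^ n := by
  induction n with
  | zero => simp
  | succ k ih =>
    rw [sum_range_succ, sum_range_succ, mul_add, ih]
    push_cast
    ring

omit [NeZero n] in
lemma Ring1_kap_sq {x : ℂ} (hx : x ^ n ≠ 1) : x * kap x ^ 2 =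
    ∑ l ∈ range n, ((l * (1 - x ^ n) + n * x ^ n) / (1 - x ^ n) ^ 2) * x ^ l := by
  have h1 : 1 - x ≠ 0 := fun h => hx (by rw [← sub_eq_zero.1 h, one_pow])
  have h2 : 1 - x ^ n ≠ 0 := sub_ne_zero.2 hx.symm
  have e : ∑ l ∈ range n, ((l * (1 - x ^ n) + n * x ^ n) / (1 - x ^ n) ^ 2) * x ^ l =
      ((1 - x ^ n) * ∑ l ∈ range n, (l : ℂ) * x ^ l + n * x ^ n * ∑ l ∈ range n, x ^ l) /
        (1 - x ^ n) ^ 2 := by
    rw [Finset.mul_sum, Finset.mul_sum, ← Finset.sum_add_distrib, Finset.sum_div]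
    exact Finset.sum_congr rfl fun l _ => by ring
  have g1 := mul_neg_geom_sum x n
  have g2 := Ring1_geom n x
  rw [e, kap]
  generalize ∑ l ∈ range n, (l : ℂ) * x ^ l = S' at *
  generalize ∑ l ∈ range n, x ^ l = S at *
  generalize x ^ n = Z at *
  field_simp
  linear_combination (-(1 - x) * (1 - Z)) * g2 - (x * (1 - Z) + (1 - x) * n * Z) * g1

lemma Ring1_zpow (z : ℂ) (j : ZMod n) : (z * ZMod.stdAddChar j) ^ n = z ^ n := by
  rw [mul_pow, chi_pow, mul_one]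

theorem sum_kap {z : ℂ} (hz : z ^ n ≠ 1) {m : ℕ} (h1 : 1 ≤ m) (h2 : m ≤ n) :
    ∑ j : ZMod n, (ZMod.stdAddChar j : ℂ) ^ m * kap (z * ZMod.stdAddChar j) =
      n * z ^ (n - m) / (1 - z ^ n) := by
  have e : ∀ j : ZMod n, kap (z * ZMod.stdAddChar j) =
      ∑ l ∈ range n, (1 - z ^ n)⁻¹ * (z * ZMod.stdAddChar j) ^ l := fun j => by
    rw [Ring1_kap n (by rwa [Ring1_zpow]), Ring1_zpow]
  simp_rw [e]
  rw [Ring1_pick n z (fun _ => (1 - z ^ n)⁻¹) h1 h2]
  ring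

theorem sum_kap_sq {z : ℂ} (hz : z ^ n ≠ 1) {m : ℕ} (h1 : 1 ≤ m) (h2 : m ≤ n) :
    ∑ j : ZMod n, (ZMod.stdAddChar j : ℂ) ^ m *
        (z * ZMod.stdAddChar j * kap (z * ZMod.stdAddChar j) ^ 2) =
      n * z ^ (n - m) * ((n - m) * (1 - z ^ n) + n * z ^ n) / (1 - z ^ n) ^ 2 := by
  have e : ∀ j : ZMod n, z * ZMod.stdAddChar j * kap (z * ZMod.stdAddChar j) ^ 2 =
      ∑ l ∈ range n, ((l * (1 - z ^ n) + n * z ^ n) / (1 - z ^ n) ^ 2) *
        (z * ZMod.stdAddChar j) ^ l := fun j => by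
    rw [Ring1_kap_sq n (by rwa [Ring1_zpow]), Ring1_zpow]
  simp_rw [e]
  rw [Ring1_pick n z (fun l => (l * (1 - z ^ n) + n * z ^ n) / (1 - z ^ n) ^ 2) h1 h2,
    Nat.cast_sub h2]
  ring

lemma Ring1_chi_ne {d : ZMod n} (hd : d ≠ 0) : (ZMod.stdAddChar d : ℂ) ≠ 1 := fun h =>
  hd (ZMod.injective_stdAddChar (h.trans (AddChar.map_zero_eq_one _).symm))

lemma Ring1_kap_add {d : ZMod n} (hd : d ≠ 0) :
    kap (ZMod.stdAddChar d) + kap (ZMod.stdAddChar (-d)) = 1 := by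
  have h0 : (ZMod.stdAddChar d : ℂ) ≠ 0 := by
    rw [← norm_ne_zero_iff, norm_chi]
    exact one_ne_zero
  have h1 := sub_ne_zero.2 (Ring1_chi_ne n hd).symm
  have h2 := sub_ne_zero.2 (Ring1_chi_ne n hd)
  rw [AddChar.map_neg_eq_inv, kap, kap]
  generalize (ZMod.stdAddChar d : ℂ) = u at *
  field_simp
  ring

theorem re_kap_chi {d : ZMod n} (hd : d ≠ 0) : (kap (ZMod.stdAddChar d)).re = 1 / 2 := by
  have h := Ring1_kap_add n hd
  have e : kap (ZMod.stdAddChar (-d)) = conj (kap (ZMod.stdAddChar d)) := by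
    rw [AddChar.map_neg_eq_inv, inv_eq_conj (norm_chi n d), kap, kap]
    simp
  rw [e, add_conj] at h
  have h2 : 2 * (kap (ZMod.stdAddChar d)).re = 1 := by exact_mod_cast h
  linarith

theorem sum_kap_same (k : ℕ) (i : ZMod n) :
    ∑ j ∈ univ.erase i, kap (un n k j / un n k i) = (n - 1) / 2 := by
  simp_rw [un_div]
  have e : ∑ j ∈ univ.erase i, kap (ZMod.stdAddChar (j - i)) =
      ∑ j ∈ univ.erase i, kap (ZMod.stdAddChar (-(j - i))) := by
    refine Finset.sum_nbij' (fun j => 2 * i - j) (fun j => 2 * i - j) (fun j hj => ?_)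
      (fun j hj => ?_) (fun j _ => by ring) (fun j _ => by ring) (fun j _ => ?_)
    · exact mem_erase.2 ⟨fun h => (mem_erase.1 hj).1 (by linear_combination -h), Finset.mem_univ _⟩
    · exact mem_erase.2 ⟨fun h => (mem_erase.1 hj).1 (by linear_combination -h), Finset.mem_univ _⟩
    · congr 2
      ring
  have h : ∑ j ∈ univ.erase i, (kap (ZMod.stdAddChar (j - i)) +
      kap (ZMod.stdAddChar (-(j - i)))) = n - 1 := by
    rw [Finset.sum_congr rfl fun j hj => Ring1_kap_add n (sub_ne_zero.2 (mem_erase.1 hj).1),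
      Finset.sum_const, Finset.card_erase_of_mem (Finset.mem_univ _), Finset.card_univ, ZMod.card,
      nsmul_eq_mul, mul_one, Nat.cast_pred (NeZero.pos n)]
  rw [Finset.sum_add_distrib, ← e] at h
  linear_combination h / 2

lemma Ring1_dist (k : ℕ) (i j : ZMod n) :
    ‖un n k i - un n k j‖ = ‖1 - (ZMod.stdAddChar (j - i) : ℂ)‖ := by
  rw [Ring1_un_eq n k i j, ← mul_one_sub, norm_mul, norm_un, one_mul]

theorem sum_log_same (k : ℕ) (i : ZMod n) :
    ∑ j ∈ univ.erase i, Real.log ‖un n k i - un n k j‖ = Real.log n := by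
  simp_rw [Ring1_dist]
  rw [← Real.log_prod fun j hj => norm_ne_zero_iff.2 (sub_ne_zero.2
    (Ring1_chi_ne n (sub_ne_zero.2 (mem_erase.1 hj).1)).symm), ← norm_prod,
    Ring1_prod_ne n (fun d => 1 - (ZMod.stdAddChar d : ℂ))]
  simp_rw [Ring1_nat]
  have hp := Ring1_prim n
  generalize (ZMod.stdAddChar (1 : ZMod n) : ℂ) = μ at hp
  obtain ⟨m, rfl⟩ := Nat.exists_eq_succ_of_ne_zero (NeZero.ne n)
  rw [Nat.succ_sub_one, hp.prod_one_sub_pow_eq_order, ← Nat.cast_succ, Complex.norm_natCast]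

theorem sum_log_ring {z w : ℂ} (h : z ^ n ≠ w ^ n) :
    ∑ j : ZMod n, Real.log ‖z - w * ZMod.stdAddChar j‖ = Real.log ‖z ^ n - w ^ n‖ := by
  rw [← Real.log_prod fun j _ => norm_ne_zero_iff.2 (sub_ne_zero.2 fun hc => h (by
    rw [hc, Ring1_zpow])), ← norm_prod, prod_sub_chi]

lemma Ring1_jordan (a : ℤ) (ha : 2 * |(a : ℝ)| ≤ n) :
    4 * |(a : ℝ)| / n ≤ ‖1 - (ZMod.stdAddChar (a : ZMod n) : ℂ)‖ := by
  have hn := Ring1_pos n
  have e : 2 * (Real.pi : ℂ) * I * a / n = I * ((2 * (Real.pi * (a / n)) : ℝ) : ℂ) := by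
    push_cast
    ring
  have e2 : |Real.pi * (a / n)| = Real.pi * (|(a : ℝ)| / n) := by
    rw [abs_mul, abs_div, abs_of_pos Real.pi_pos, abs_of_pos hn]
  have h1 : |(a : ℝ)| / n ≤ 1 / 2 := by
    rw [div_le_div_iff₀ hn (by norm_num)]
    linarith
  have h := Real.mul_abs_le_abs_sin (x := Real.pi * (a / n)) (by
    rw [e2]
    nlinarith [Real.pi_pos])
  rw [ZMod.stdAddChar_coe, e, norm_sub_rev, norm_exp_I_mul_ofReal_sub_one, Real.norm_eq_abs,
    abs_mul, abs_two, mul_div_cancel_left₀ _ two_ne_zero]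
  rw [e2, ← mul_assoc, div_mul_cancel₀ _ Real.pi_ne_zero] at h
  rw [mul_div_assoc]
  linarith

lemma Ring1_min {a b : ℕ} (ha : 1 ≤ a) (hb : 1 ≤ b) (h : a + b = n) :
    ‖1 - (ZMod.stdAddChar (a : ZMod n) : ℂ)‖⁻¹ ≤ n / 4 * ((a : ℝ)⁻¹ + (b : ℝ)⁻¹) ∧
      4 / n ≤ ‖1 - (ZMod.stdAddChar (a : ZMod n) : ℂ)‖ := by
  have hn := Ring1_pos n
  have ha' : (1 : ℝ) ≤ a := by exact_mod_cast ha
  have hb' : (1 : ℝ) ≤ b := by exact_mod_cast hb
  have h' : (a : ℝ) + b = n := by exact_mod_cast h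
  have key : ∃ c : ℝ, 1 ≤ c ∧ c⁻¹ ≤ (a : ℝ)⁻¹ + (b : ℝ)⁻¹ ∧
      4 * c / n ≤ ‖1 - (ZMod.stdAddChar (a : ZMod n) : ℂ)‖ := by
    rcases le_total (a : ℝ) b with hc | hc
    · have := Ring1_jordan n a (by push_cast; rw [Nat.abs_cast]; linarith)
      push_cast at this
      rw [Nat.abs_cast] at this
      exact ⟨a, ha', le_add_of_nonneg_right (by positivity), this⟩
    · have := Ring1_jordan n (-b) (by push_cast; rw [abs_neg, Nat.abs_cast]; linarith)
      have e : -(b : ZMod n) = a := by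
        have : ((a + b : ℕ) : ZMod n) = 0 := by rw [h, ZMod.natCast_self]
        push_cast at this
        linear_combination -this
      push_cast at this
      rw [abs_neg, Nat.abs_cast, e] at this
      exact ⟨b, hb', le_add_of_nonneg_left (by positivity), this⟩
  obtain ⟨c, c1, c2, c3⟩ := key
  constructor
  · refine (inv_anti₀ (by positivity) c3).trans ?_
    rw [inv_div, ← div_div, div_eq_mul_inv _ c]
    gcongr
  · exact le_trans (by gcongr; linarith) c3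

lemma Ring1_sep {d : ZMod n} (hd : d ≠ 0) : 4 / n ≤ ‖1 - (ZMod.stdAddChar d : ℂ)‖ := by
  have h1 := ZMod.val_lt d
  have h2 : d.val ≠ 0 := (ZMod.val_ne_zero d).2 hd
  have := (Ring1_min n (a := d.val) (b := n - d.val) (by omega) (by omega) (by omega)).2
  rwa [ZMod.natCast_zmod_val] at this

theorem sep_same (k : ℕ) {i j : ZMod n} (h : j ≠ i) : 4 / n ≤ ‖un n k i - un n k j‖ := by
  rw [Ring1_dist]
  exact Ring1_sep n (sub_ne_zero.2 h)

theorem sep_cross (k : ℕ) (i j : ZMod n) {a b : ℝ} (ha : 0 < a) (hb : 0 < b) :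
    2 * min a b / n ≤ ‖(a : ℂ) * un n k i - b * un n (k + 1) j‖ := by
  have hn := Ring1_pos n
  have : NeZero (2 * n) := ⟨mul_ne_zero two_ne_zero (NeZero.ne n)⟩
  have e1 : ze n = ZMod.stdAddChar (1 : ZMod (2 * n)) := by
    rw [Ring1_one, ze]
    congr 1
    have := Ring1_ne n
    push_cast
    field_simp
  have e2 : ze n * ZMod.stdAddChar (j - i) =
      ZMod.stdAddChar ((2 * (j - i).val + 1 : ℕ) : ZMod (2 * n)) := by
    rw [Ring1_nat, ← e1, pow_succ', pow_mul, ze_sq, ← Ring1_nat, ZMod.natCast_zmod_val]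
  have h1 : ((2 * (j - i).val + 1 : ℕ) : ZMod (2 * n)) ≠ 0 := by
    rw [Ne, ZMod.natCast_eq_zero_iff]
    intro hc
    have := (Dvd.intro _ rfl : 2 ∣ 2 * n).trans hc
    omega
  have h2 := Ring1_sep (2 * n) h1
  have h3 := norm_chi (2 * n) ((2 * (j - i).val + 1 : ℕ) : ZMod (2 * n))
  have e3 : (a : ℂ) * un n k i - b * un n (k + 1) j =
      un n k i * (a - b * (ze n * ZMod.stdAddChar (j - i))) := by
    rw [Ring1_succ, Ring1_un_eq n k i j]
    ring
  rw [e3, norm_mul, norm_un, one_mul, e2]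
  generalize (ZMod.stdAddChar ((2 * (j - i).val + 1 : ℕ) : ZMod (2 * n)) : ℂ) = w at h2 h3
  have m0 : 0 < min a b := lt_min ha hb
  have h4 : min a b * ‖1 - w‖ ≤ ‖(a : ℂ) - b * w‖ := by
    refine abs_le_of_sq_le_sq' ?_ (norm_nonneg _) |>.2
    have w1 : w.re * w.re + w.im * w.im = 1 := by
      rw [← normSq_apply, normSq_eq_norm_sq, h3, one_pow]
    have m1 : min a b ^ 2 ≤ a * b := by
      rw [sq]
      exact mul_le_mul (min_le_left _ _) (min_le_right _ _) m0.le ha.le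
    refine le_trans (le_of_eq (mul_pow _ _ _)) (le_trans
      (mul_le_mul_of_nonneg_right m1 (sq_nonneg _)) ?_)
    rw [← normSq_eq_norm_sq, ← normSq_eq_norm_sq, normSq_apply, normSq_apply]
    simp only [sub_re, one_re, sub_im, one_im, ofReal_re, ofReal_im, mul_re, mul_im, zero_mul,
      sub_zero, add_zero, zero_sub]
    have e4 : (a - b * w.re) * (a - b * w.re) + -(b * w.im) * -(b * w.im) =
        a * b * ((1 - w.re) * (1 - w.re) + -w.im * -w.im) + (a - b) ^ 2 := by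
      linear_combination (b ^ 2 - a * b) * w1
    rw [e4]
    exact le_add_of_nonneg_right (sq_nonneg _)
  refine le_trans (le_of_eq ?_) ((mul_le_mul_of_nonneg_left h2 m0.le).trans h4)
  push_cast
  field_simp
  norm_num

theorem sum_inv_same (k : ℕ) (i : ZMod n) :
    ∑ j ∈ univ.erase i, ‖un n k i - un n k j‖⁻¹ ≤ n * (1 + Real.log n) := by
  have hn := Ring1_pos n
  simp_rw [Ring1_dist]
  rw [Ring1_sum_ne n (fun d => ‖1 - (ZMod.stdAddChar d : ℂ)‖⁻¹)]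
  have h1 : ∑ l ∈ range (n - 1), ((l + 1 : ℕ) : ℝ)⁻¹ ≤ 1 + Real.log n := by
    refine le_trans ?_ (harmonic_le_one_add_log n)
    rw [harmonic]
    push_cast
    exact Finset.sum_le_sum_of_subset_of_nonneg (range_subset_range.2 (Nat.sub_le n 1))
      fun _ _ _ => by positivity
  have h0 : 0 ≤ ∑ l ∈ range (n - 1), ((l + 1 : ℕ) : ℝ)⁻¹ := by positivity
  refine (Finset.sum_le_sum fun l hl => (Ring1_min n (a := l + 1) (b := n - 1 - 1 - l + 1)
    (by omega) (by omega) (by have := Finset.mem_range.1 hl; omega)).1).trans ?_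
  rw [← Finset.mul_sum, Finset.sum_add_distrib,
    Finset.sum_range_reflect (fun l => ((l + 1 : ℕ) : ℝ)⁻¹)]
  nlinarith

end Pool.Agent.MP_943ae2_gt

end
end

section

open Set Complex Filter Finset
open scoped Topology ComplexConjugate ContDiff

noncomputable section

namespace Pool.Agent.MP_943ae2_gt

variable (n : ℕ) [NeZero n]

theorem four_ne (k : ℕ) (i : ZMod n) : un n k i ≠ 0 := fun h => by
  have := norm_un n k i
  rw [h, norm_zero] at this
  exact zero_ne_one this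

theorem four_chi_ne {d : ZMod n} (hd : d ≠ 0) : (ZMod.stdAddChar d : ℂ) ≠ 1 := fun h =>
  hd (ZMod.injective_stdAddChar (h.trans (AddChar.map_zero_eq_one _).symm))

theorem four_orth (a : ZMod n) :
    ∑ m ∈ range n, (ZMod.stdAddChar a : ℂ) ^ m = if a = 0 then (n : ℂ) else 0 := by
  split_ifs with h
  · simp [h]
  · rw [geom_sum_eq (four_chi_ne n h), chi_pow, sub_self, zero_div]

theorem four_pow_sub (k : ℕ) (i : ZMod n) {m : ℕ} (hm : m ≤ n) :
    un n k i ^ (n - m) = (-1) ^ k * conj (un n k i) ^ m := by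
  rw [pow_sub₀ _ (four_ne n k i) hm, un_pow, ← Complex.inv_eq_conj (norm_un n k i), inv_pow]

theorem four_conv (f g : ℕ → ZMod n → ℝ) (K : ZMod n → ℝ) (k k' : ℕ) (c : ℂ)
    (hc : ∀ i j, un n k' j / un n k i = c * ZMod.stdAddChar (j - i)) :
    ∑ i, ∑ j, K (j - i) * f k i * g k' j = (∑ m ∈ range n,
      ((∑ d, (K d : ℂ) * (c * ZMod.stdAddChar d) ^ m) *
        (hat n f m k * conj (hat n g m k'))).re) / n := by
  have hn : (n : ℝ) ≠ 0 := Nat.cast_ne_zero.2 (NeZero.ne n)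
  have e : ∀ d i j : ZMod n, c * ZMod.stdAddChar d * (un n k i * conj (un n k' j)) =
      ZMod.stdAddChar (d - (j - i)) := fun d i j => by
    have h1 := hc i j
    have h2 := four_ne n k i
    have h3 := four_ne n k' j
    have h4 : (ZMod.stdAddChar d : ℂ) = ZMod.stdAddChar (d - (j - i)) * ZMod.stdAddChar (j - i) := by
      rw [← AddChar.map_add_eq_mul, sub_add_cancel]
    rw [div_eq_iff h2] at h1
    rw [← Complex.inv_eq_conj (norm_un n k' j), h4]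
    field_simp
    linear_combination (-ZMod.stdAddChar (d - (j - i))) * h1
  have e1 : ∀ m : ℕ, (∑ d, (K d : ℂ) * (c * ZMod.stdAddChar d) ^ m) *
      (hat n f m k * conj (hat n g m k')) = ∑ i, ∑ j, ∑ d,
        ((K d * f k i * g k' j : ℝ) : ℂ) * ZMod.stdAddChar (d - (j - i)) ^ m := fun m => by
    simp only [hat, map_sum, map_mul, map_pow, conj_ofReal]
    rw [Finset.sum_mul_sum univ univ (fun i => (f k i : ℂ) * un n k i ^ m), Finset.mul_sum]
    refine Finset.sum_congr rfl fun i _ => ?_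
    rw [Finset.mul_sum]
    refine Finset.sum_congr rfl fun j _ => ?_
    rw [Finset.sum_mul]
    refine Finset.sum_congr rfl fun d _ => ?_
    rw [← e]
    push_cast
    ring
  rw [← re_sum, eq_div_iff hn]
  simp only [e1]
  have e2 : ∑ m ∈ range n, ∑ i, ∑ j, ∑ d, ((K d * f k i * g k' j : ℝ) : ℂ) *
      ZMod.stdAddChar (d - (j - i)) ^ m = (((∑ i, ∑ j, K (j - i) * f k i * g k' j) * n : ℝ) : ℂ) := by
    rw [Finset.sum_comm, Finset.sum_mul, ofReal_sum]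
    refine Finset.sum_congr rfl fun i _ => ?_
    rw [Finset.sum_comm, Finset.sum_mul, ofReal_sum]
    refine Finset.sum_congr rfl fun j _ => ?_
    rw [Finset.sum_comm]
    simp only [← Finset.mul_sum, four_orth, sub_eq_zero, mul_ite, mul_zero]
    rw [Finset.sum_ite_eq' univ (j - i), if_pos (Finset.mem_univ _)]
    push_cast
    ring
  rw [e2, ofReal_re]

theorem four_E {m : ℕ} (hm : m + 1 ≤ n) :
    ∑ d ∈ univ.erase (0 : ZMod n), (ZMod.stdAddChar d : ℂ) ^ (m + 1) * kap (ZMod.stdAddChar d) =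
      m - (n - 1) / 2 := by
  have st : ∀ m : ℕ, ∑ d ∈ univ.erase (0 : ZMod n), (ZMod.stdAddChar d : ℂ) ^ (m + 1) *
      kap (ZMod.stdAddChar d) = ∑ d ∈ univ.erase (0 : ZMod n), (ZMod.stdAddChar d : ℂ) ^ m *
      kap (ZMod.stdAddChar d) - (∑ d : ZMod n, (ZMod.stdAddChar d : ℂ) ^ m - 1) := fun m => by
    rw [← Finset.add_sum_erase univ _ (mem_univ (0 : ZMod n)), AddChar.map_zero_eq_one, one_pow,
      add_sub_cancel_left, ← Finset.sum_sub_distrib]
    refine Finset.sum_congr rfl fun d hd => ?_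
    have := sub_ne_zero.2 (four_chi_ne n (Finset.ne_of_mem_erase hd)).symm
    unfold kap
    field_simp
    ring
  induction m with
  | zero =>
    have := sum_kap_same n 0 0
    simp only [un_div, sub_zero] at this
    rw [st]
    simp only [pow_zero, one_mul, this, Finset.sum_const, card_univ, ZMod.card, nsmul_eq_mul]
    push_cast
    ring
  | succ m ih =>
    rw [st, ih (by omega), sum_chi_pow n (by omega) (by omega)]
    push_cast
    ring

theorem four_KK {d : ZMod n} (hd : d ≠ 0) : (Wall.KK (ZMod.stdAddChar d) : ℂ) =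
    -(ZMod.stdAddChar d * kap (ZMod.stdAddChar d) ^ 2) := by
  have h1 := sub_ne_zero.2 (four_chi_ne n hd).symm
  have h2 := Complex.inv_eq_conj (norm_chi n d)
  have h0 : (ZMod.stdAddChar d : ℂ) ≠ 0 := fun h => by
    have := norm_chi n d
    rw [h, norm_zero] at this
    exact zero_ne_one this
  unfold Wall.KK
  rw [ofReal_neg, conj_eq_iff_re.1]
  simp only [kap, map_mul, map_pow, map_div₀, map_one, map_sub, ← h2]
  generalize (ZMod.stdAddChar d : ℂ) = l at *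
  have h3 : l - 1 ≠ 0 := fun h => h1 (by linear_combination -h)
  field_simp
  ring

theorem four_refl (G : ℂ → ℂ) (hG : ∀ l, G (conj l) = conj (G l)) (r : ℝ) {m : ℕ} (hm : m ≤ n) :
    ∑ d : ZMod n, ((G (r * (ze n * ZMod.stdAddChar d))).re : ℂ) * (ze n * ZMod.stdAddChar d) ^ m =
      (∑ d : ZMod n, G (r * (ze n * ZMod.stdAddChar d)) * (ze n * ZMod.stdAddChar d) ^ m -
        ∑ d : ZMod n, G (r * (ze n * ZMod.stdAddChar d)) *
          (ze n * ZMod.stdAddChar d) ^ (n - m)) / 2 := by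
  have e : ∀ d : ZMod n, ze n * ZMod.stdAddChar d = un n 1 d := fun d => by rw [un, pow_one]
  simp only [e]
  rw [← Equiv.sum_comp (Equiv.subLeft (-((1 : ℕ) : ZMod n)))
    (fun d => G (r * un n 1 d) * un n 1 d ^ (n - m)), ← Finset.sum_sub_distrib, Finset.sum_div]
  refine Finset.sum_congr rfl fun d _ => ?_
  have h1 : Equiv.subLeft (-((1 : ℕ) : ZMod n)) d = -d - ((1 : ℕ) : ZMod n) := by
    rw [Equiv.subLeft_apply]; ring
  rw [h1, four_pow_sub n 1 _ hm, un_refl, conj_conj, ← conj_ofReal r, ← map_mul, hG, conj_ofReal,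
    re_eq_add_conj]
  ring

theorem four_z {r : ℝ} (hr : 0 < r) : ((r : ℂ) * ze n) ^ n = -(r : ℂ) ^ n ∧
    ((r : ℂ) * ze n) ^ n ≠ 1 ∧ 1 + (r : ℂ) ^ n ≠ 0 := by
  have h1 : ((r : ℂ) * ze n) ^ n = -(r : ℂ) ^ n := by rw [mul_pow, ze_pow]; ring
  have h2 : 1 + (r : ℂ) ^ n ≠ 0 := by exact_mod_cast (by positivity : (1 + r ^ n : ℝ) ≠ 0)
  exact ⟨h1, fun h => h2 (by linear_combination h1 - h), h2⟩

theorem four_zz (r : ℝ) {m : ℕ} (hm : m ≤ n) :
    ze n ^ m * ((r : ℂ) * ze n) ^ (n - m) = -(r : ℂ) ^ (n - m) := by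
  rw [mul_pow, mul_left_comm, ← pow_add, Nat.add_sub_cancel' hm, ze_pow]
  ring

theorem four_U {r : ℝ} (hr : 0 < r) {m : ℕ} (h1 : 1 ≤ m) (hm : m ≤ n) :
    ∑ d : ZMod n, kap (r * (ze n * ZMod.stdAddChar d)) * (ze n * ZMod.stdAddChar d) ^ m =
      -(n * (r : ℂ) ^ (n - m) / (1 + (r : ℂ) ^ n)) := by
  obtain ⟨a, b, -⟩ := four_z n hr
  have k := congrArg (ze n ^ m * ·) (sum_kap n b h1 hm)
  simp only [Finset.mul_sum] at k
  rw [a, ← mul_div_assoc, mul_left_comm, four_zz n r hm] at k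
  refine (Finset.sum_congr rfl fun d _ => ?_).trans (k.trans (by ring))
  rw [mul_assoc (r : ℂ)]
  ring

theorem four_T {r : ℝ} (hr : 0 < r) {m : ℕ} (hm : m ≤ n) :
    ∑ d : ZMod n, (r * (ze n * ZMod.stdAddChar d)) * kap (r * (ze n * ZMod.stdAddChar d)) ^ 2 *
      (ze n * ZMod.stdAddChar d) ^ m = -(n * (r : ℂ) ^ (n - m) *
        ((n - m) * (1 + (r : ℂ) ^ n) - n * (r : ℂ) ^ n) / (1 + (r : ℂ) ^ n) ^ 2) := by
  obtain ⟨a, b, -⟩ := four_z n hr
  have key : ∀ m : ℕ, 1 ≤ m → m ≤ n → ∑ d : ZMod n, (r * (ze n * ZMod.stdAddChar d)) *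
      kap (r * (ze n * ZMod.stdAddChar d)) ^ 2 * (ze n * ZMod.stdAddChar d) ^ m =
      -(n * (r : ℂ) ^ (n - m) * ((n - m) * (1 + (r : ℂ) ^ n) - n * (r : ℂ) ^ n) /
        (1 + (r : ℂ) ^ n) ^ 2) := fun m h1 hm => by
    have k := congrArg (ze n ^ m * ·) (sum_kap_sq n b h1 hm)
    simp only [Finset.mul_sum] at k
    rw [a, ← mul_div_assoc, ← mul_assoc, mul_left_comm, four_zz n r hm] at k
    refine (Finset.sum_congr rfl fun d _ => ?_).trans (k.trans (by ring))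
    rw [mul_assoc (r : ℂ)]
    ring_nf
  rcases Nat.eq_zero_or_pos m with rfl | h1
  · have k := key n (Nat.pos_of_ne_zero (NeZero.ne n)) le_rfl
    simp only [mul_pow, ze_pow, chi_pow, mul_one, mul_neg, Finset.sum_neg_distrib, neg_inj] at k
    simp only [pow_zero, mul_one]
    rw [k, Nat.sub_self, Nat.sub_zero]
    push_cast
    ring
  · exact key m h1 hm

theorem four_exp (y : ℝ) {m : ℕ} (hm : m ≤ n) :
    Real.exp (-y / n) ^ m = (Real.exp (m / n * y))⁻¹ ∧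
      Real.exp (-y / n) ^ (n - m) = (Real.exp ((1 - m / n) * y))⁻¹ ∧
      Real.exp (-y / n) ^ n = (Real.exp (m / n * y) * Real.exp ((1 - m / n) * y))⁻¹ := by
  have hn : (n : ℝ) ≠ 0 := Nat.cast_ne_zero.2 (NeZero.ne n)
  simp only [← Real.exp_nat_mul, ← Real.exp_add, ← Real.exp_neg, Nat.cast_sub hm]
  refine ⟨?_, ?_, ?_⟩ <;> congr 1 <;> field_simp
  ring

theorem hat_zero {f : ℕ → ZMod n → ℝ} {k : ℕ} (h : ∑ i, f k i = 0) : hat n f 0 k = 0 := by
  simp only [hat, pow_zero, mul_one]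
  exact_mod_cast h

theorem hat_symm (f : ℕ → ZMod n → ℝ) {m : ℕ} (hm : m ≤ n) (k : ℕ) :
    hat n f (n - m) k = (-1) ^ k * conj (hat n f m k) := by
  simp only [hat, map_sum, map_mul, map_pow, conj_ofReal, Finset.mul_sum, four_pow_sub n k _ hm]
  exact Finset.sum_congr rfl fun i _ => by ring

theorem parseval (f g : ℕ → ZMod n → ℝ) (k : ℕ) :
    ∑ i, f k i * g k i = (∑ m ∈ range n, (hat n f m k * conj (hat n g m k)).re) / n := by
  have h := four_conv n f g (fun d => if d = 0 then 1 else 0) k k 1 fun i j => by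
    rw [un_div, one_mul]
  have e : ∀ m : ℕ, ∑ d : ZMod n, (((if d = 0 then 1 else 0 : ℝ)) : ℂ) *
      (1 * ZMod.stdAddChar d) ^ m = 1 := fun m => by
    rw [Finset.sum_eq_single 0] <;> simp +contextual
  simp only [e] at h
  simpa only [one_mul, sub_eq_zero, ite_mul, zero_mul, Finset.sum_ite_eq', Finset.mem_univ, if_true]
    using h

theorem conv_same (f g : ℕ → ZMod n → ℝ) (K : ZMod n → ℝ) (k : ℕ) :
    ∑ i, ∑ j, K (j - i) * f k i * g k j = (∑ m ∈ range n,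
      ((∑ d, (K d : ℂ) * ZMod.stdAddChar d ^ m) * (hat n f m k * conj (hat n g m k))).re) / n := by
  simpa only [one_mul] using four_conv n f g K k k 1 fun i j => by rw [un_div, one_mul]

theorem conv_cross (f g : ℕ → ZMod n → ℝ) (K : ZMod n → ℝ) (k : ℕ) :
    ∑ i, ∑ j, K (j - i) * f k i * g (k + 1) j = (∑ m ∈ range n,
      ((∑ d, (K d : ℂ) * (ze n * ZMod.stdAddChar d) ^ m) *
        (hat n f m k * conj (hat n g m (k + 1)))).re) / n :=
  four_conv n f g K k (k + 1) (ze n) (un_succ_div n k)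

theorem p0_div_same (w : Wall) (k : ℕ) (i j : ZMod n) :
    w.p0 n k j / w.p0 n k i = ZMod.stdAddChar (j - i) := by
  unfold Wall.p0
  rw [mul_div_mul_left _ _ (ofReal_ne_zero.2 (Real.exp_pos _).ne'), un_div]

theorem p0_div_cross (w : Wall) (k : ℕ) (i j : ZMod n) :
    w.p0 n (k + 1) j / w.p0 n k i =
      (Real.exp (-w.y n k / n) : ℝ) * (ze n * ZMod.stdAddChar (j - i)) := by
  have hn : (n : ℝ) ≠ 0 := Nat.cast_ne_zero.2 (NeZero.ne n)
  unfold Wall.p0 Wall.y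
  rw [mul_div_mul_comm, un_succ_div, ← ofReal_div, ← Real.exp_sub]
  congr 3
  field_simp
  ring

theorem K_same {m : ℕ} (hm : m ≤ n) :
    ∑ d ∈ univ.erase (0 : ZMod n), (Wall.KK (ZMod.stdAddChar d) : ℂ) *
      (1 - ZMod.stdAddChar d ^ m) = m * (n - m) / 2 := by
  induction m with
  | zero => simp
  | succ m ih =>
    have e : ∑ d ∈ univ.erase (0 : ZMod n), (Wall.KK (ZMod.stdAddChar d) : ℂ) *
        (1 - ZMod.stdAddChar d ^ (m + 1)) = ∑ d ∈ univ.erase (0 : ZMod n),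
        (Wall.KK (ZMod.stdAddChar d) : ℂ) * (1 - ZMod.stdAddChar d ^ m) -
        ∑ d ∈ univ.erase (0 : ZMod n), (ZMod.stdAddChar d : ℂ) ^ (m + 1) *
          kap (ZMod.stdAddChar d) := by
      rw [← Finset.sum_sub_distrib]
      refine Finset.sum_congr rfl fun d hd => ?_
      have := sub_ne_zero.2 (four_chi_ne n (Finset.ne_of_mem_erase hd)).symm
      rw [four_KK n (Finset.ne_of_mem_erase hd)]
      unfold kap
      field_simp
      ring
    rw [e, ih (by omega), four_E n hm]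
    push_cast
    ring

theorem K_cross (w : Wall) (k : ℕ) {m : ℕ} (hm : m ≤ n) :
    ∑ d : ZMod n, (Wall.KK ((Real.exp (-w.y n k / n) : ℝ) * (ze n * ZMod.stdAddChar d)) : ℂ) *
      (ze n * ZMod.stdAddChar d) ^ m = ((n : ℝ) ^ 2 * w.Ak n m k : ℝ) := by
  have hn : (n : ℝ) ≠ 0 := Nat.cast_ne_zero.2 (NeZero.ne n)
  have hr := Real.exp_pos (-w.y n k / n)
  have h := four_refl n (fun l => l * kap l ^ 2) (fun l => by simp [kap]) (Real.exp (-w.y n k / n)) hm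
  rw [four_T n hr hm, four_T n hr (Nat.sub_le n m), Nat.sub_sub_self hm, Nat.cast_sub hm] at h
  simp only [Wall.KK, ofReal_neg, neg_mul, Finset.sum_neg_distrib]
  rw [h]
  norm_cast
  obtain ⟨e1, e2, e3⟩ := four_exp n (w.y n k) hm
  have e4 : Real.exp (w.y n k) = Real.exp (m / n * w.y n k) * Real.exp ((1 - m / n) * w.y n k) := by
    rw [← Real.exp_add]; congr 1; ring
  rw [e1, e2, e3]
  simp only [Wall.Ak, Wall.tk, Real.cosh_eq, Real.exp_neg, e4, Nat.cast_sub hm]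
  have a0 := Real.exp_pos (m / n * w.y n k)
  have b0 := Real.exp_pos ((1 - m / n) * w.y n k)
  generalize Real.exp (m / n * w.y n k) = a at *
  generalize Real.exp ((1 - m / n) * w.y n k) = b at *
  push_cast [Nat.cast_sub hm]
  field_simp
  ring

theorem P_cross (w : Wall) (k : ℕ) {m : ℕ} (h1 : 1 ≤ m) (h2 : m < n) :
    ∑ d : ZMod n, ((kap ((Real.exp (-w.y n k / n) : ℝ) * (ze n * ZMod.stdAddChar d))).re : ℂ) *
      (ze n * ZMod.stdAddChar d) ^ m = ((n : ℝ) * w.ph n m k / 2 : ℝ) := by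
  have hr := Real.exp_pos (-w.y n k / n)
  rw [four_refl n kap (fun l => by simp [kap]) _ h2.le, four_U n hr h1 h2.le,
    four_U n hr (by omega) (Nat.sub_le n m), Nat.sub_sub_self h2.le]
  norm_cast
  obtain ⟨e1, e2, e3⟩ := four_exp n (w.y n k) h2.le
  have e4 : Real.exp ((1 - m / n) * w.y n k) =
      Real.exp (w.y n k / 2) * Real.exp ((1 / 2 - m / n) * w.y n k) := by
    rw [← Real.exp_add]; congr 1; ring
  have e5 : Real.exp (m / n * w.y n k) =
      Real.exp (w.y n k / 2) * (Real.exp ((1 / 2 - m / n) * w.y n k))⁻¹ := by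
    rw [← Real.exp_neg, ← Real.exp_add]; congr 1; ring
  rw [e1, e2, e3, e4, e5]
  simp only [Wall.ph, Real.cosh_eq, Real.sinh_eq, Real.exp_neg]
  have a0 := Real.exp_pos (w.y n k / 2)
  have b0 := Real.exp_pos ((1 / 2 - m / n) * w.y n k)
  generalize Real.exp (w.y n k / 2) = a at *
  generalize Real.exp ((1 / 2 - m / n) * w.y n k) = b at *
  field_simp
  ring

end Pool.Agent.MP_943ae2_gt

end
end

section

open Set Complex Filter Finset
open scoped Topology ComplexConjugate ContDiff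

noncomputable section

namespace Pool.Agent.MP_943ae2_gt

variable {w : Wall} {n : ℕ} [NeZero n] {ξ : ℕ → ZMod n → ℂ} {ε : ℕ → ZMod n → ℝ} {P : ℝ}

theorem w1_p_zero (k : ℕ) (i : ZMod n) : w.p n 0 k i = w.p0 n k i := by simp [Wall.p]

omit [NeZero n] in
theorem w1_bq_zero (k : ℕ) (i : ZMod n) : w.bq n 0 k i = w.c k := by simp [Wall.bq]

theorem w1_norm_p0 (k : ℕ) (i : ZMod n) : ‖w.p0 n k i‖ = Real.exp (w.lr k) := by
  rw [Wall.p0, norm_mul, norm_un, mul_one, Complex.norm_real,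
    Real.norm_of_nonneg (Real.exp_pos _).le]

theorem w1_p0_ne (k : ℕ) (i : ZMod n) : w.p0 n k i ≠ 0 :=
  norm_pos_iff.1 (by rw [w1_norm_p0]; exact Real.exp_pos _)

theorem w1_zpow (y : ℝ) :
    (((Real.exp (-y / n) : ℝ) : ℂ) * ze n) ^ n = ((-Real.exp (-y) : ℝ) : ℂ) := by
  have hn : (n : ℝ) ≠ 0 := Nat.cast_ne_zero.2 (NeZero.ne n)
  rw [mul_pow, ze_pow, ← Complex.ofReal_pow, ← Real.exp_nat_mul, mul_div_cancel₀ _ hn]
  push_cast
  ring

theorem w1_zpow_ne (y : ℝ) : (((Real.exp (-y / n) : ℝ) : ℂ) * ze n) ^ n ≠ 1 := by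
  rw [w1_zpow, ← Complex.ofReal_one, Ne, Complex.ofReal_inj]
  linarith [Real.exp_pos (-y)]

theorem w1_sum_z (y : ℝ) :
    ∑ j : ZMod n, kap (((Real.exp (-y / n) : ℝ) : ℂ) * (ze n * ZMod.stdAddChar j)) =
      ((n * th y : ℝ) : ℂ) := by
  have h := sum_kap n (w1_zpow_ne (n := n) y) (Nat.pos_of_ne_zero (NeZero.ne n)) le_rfl
  simp only [chi_pow, one_mul, Nat.sub_self, pow_zero, mul_one, w1_zpow] at h
  simp only [← mul_assoc]
  rw [h, th]
  push_cast
  ring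

theorem w1_sum_up (k : ℕ) (i : ZMod n) :
    ∑ j, kap (w.p0 n (k + 1) j / w.p0 n k i) = ((n * th (w.y n k) : ℝ) : ℂ) := by
  simp only [p0_div_cross]
  rw [← w1_sum_z]
  exact Fintype.sum_equiv (Equiv.subRight i) _ _ fun j => rfl

theorem w1_kap_inv {l : ℂ} (h0 : l ≠ 0) (h1 : l ≠ 1) : kap l⁻¹ = 1 - kap l := by
  have h2 : 1 - l ≠ 0 := sub_ne_zero.2 h1.symm
  have h3 : l - 1 ≠ 0 := sub_ne_zero.2 h1
  unfold kap
  rw [show 1 - l⁻¹ = (l - 1) / l by field_simp]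
  field_simp
  ring

theorem w1_cross_ne (k : ℕ) (i j : ZMod n) : w.p0 n (k + 1) j / w.p0 n k i ≠ 1 := by
  intro h
  have h2 := congrArg (· ^ n) h
  simp only [p0_div_cross, ← mul_assoc, one_pow] at h2
  rw [mul_pow, chi_pow, mul_one] at h2
  exact w1_zpow_ne _ h2

theorem w1_sum_down (k : ℕ) (i : ZMod n) :
    ∑ j, kap (w.p0 n k j / w.p0 n (k + 1) i) = ((n * (1 - th (w.y n k)) : ℝ) : ℂ) := by
  have e : ∀ j, kap (w.p0 n k j / w.p0 n (k + 1) i) = 1 - kap (w.p0 n (k + 1) i / w.p0 n k j) :=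
    fun j => by
      rw [← w1_kap_inv (div_ne_zero (w1_p0_ne _ _) (w1_p0_ne _ _)) (w1_cross_ne k j i), inv_div]
  have e2 : ∑ j, kap (w.p0 n (k + 1) i / w.p0 n k j) = ((n * th (w.y n k) : ℝ) : ℂ) := by
    simp only [p0_div_cross]
    rw [← w1_sum_z]
    exact Fintype.sum_equiv (Equiv.subLeft i) _ _ fun j => rfl
  simp only [e]
  rw [sum_sub_distrib, e2, sum_const, card_univ, ZMod.card]
  push_cast
  ring

theorem w1_sum_same (k : ℕ) (i : ZMod n) :
    ∑ j ∈ univ.erase i, kap (w.p0 n k j / w.p0 n k i) = (n - 1) / 2 := by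
  simp only [p0_div_same]
  rw [← sum_kap_same n k i]
  simp only [un_div]

theorem Fw_zero {k : ℕ} (hk : 1 ≤ k) (i : ZMod n) : w.Fw n 0 0 k i = w.Em n k := by
  obtain ⟨k, rfl⟩ : ∃ m, k = m + 1 := ⟨k - 1, by omega⟩
  unfold Wall.Fw Wall.Em
  simp only [w1_p_zero, w1_bq_zero, ← mul_sum, Nat.add_sub_cancel]
  rw [w1_sum_same, w1_sum_up, w1_sum_down]
  push_cast
  ring

theorem w1_log_same (k : ℕ) (i : ZMod n) :
    ∑ j ∈ univ.erase i, Real.log ‖w.p0 n k i - w.p0 n k j‖ = (n - 1) * w.lr k + Real.log n := by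
  have hn : (0 : ℝ) < n := Nat.cast_pos.2 (Nat.pos_of_ne_zero (NeZero.ne n))
  have e : ∀ j ∈ univ.erase i, Real.log ‖w.p0 n k i - w.p0 n k j‖ =
      w.lr k + Real.log ‖un n k i - un n k j‖ := by
    intro j hj
    have h1 := sep_same n k (ne_of_mem_erase hj)
    have h2 : 0 < ‖un n k i - un n k j‖ := lt_of_lt_of_le (by positivity) h1
    rw [Wall.p0, Wall.p0, ← mul_sub, norm_mul, Complex.norm_real,
      Real.norm_of_nonneg (Real.exp_pos _).le, Real.log_mul (Real.exp_pos _).ne' h2.ne',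
      Real.log_exp]
  rw [sum_congr rfl e, sum_add_distrib, sum_log_same, sum_const, card_erase_of_mem (mem_univ i),
    card_univ, ZMod.card, nsmul_eq_mul, Nat.cast_pred (Nat.pos_of_ne_zero (NeZero.ne n))]

theorem w1_log_cross {k k' : ℕ} (h : (-1 : ℂ) ^ k' = -(-1) ^ k) (i : ZMod n) :
    ∑ j, Real.log ‖w.p0 n k i - w.p0 n k' j‖ =
      n * w.lr k + Real.log (1 + Real.exp (n * (w.lr k' - w.lr k))) := by
  have e1 : w.p0 n k i ^ n - (((Real.exp (w.lr k') : ℝ) : ℂ) * ze n ^ k') ^ n =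
      (-1) ^ k * ((Real.exp (n * w.lr k) * (1 + Real.exp (n * (w.lr k' - w.lr k))) : ℝ) : ℂ) := by
    rw [Wall.p0, mul_pow, mul_pow, un_pow, ← pow_mul, mul_comm k' n, pow_mul, ze_pow, h,
      ← Complex.ofReal_pow, ← Complex.ofReal_pow, ← Real.exp_nat_mul, ← Real.exp_nat_mul,
      mul_add (Real.exp _), ← Real.exp_add, mul_one,
      show n * w.lr k + n * (w.lr k' - w.lr k) = n * w.lr k' by ring, Complex.ofReal_add]
    ring
  have hpos : 0 < Real.exp (n * w.lr k) * (1 + Real.exp (n * (w.lr k' - w.lr k))) := by positivity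
  have e2 : ‖w.p0 n k i ^ n - (((Real.exp (w.lr k') : ℝ) : ℂ) * ze n ^ k') ^ n‖ =
      Real.exp (n * w.lr k) * (1 + Real.exp (n * (w.lr k' - w.lr k))) := by
    rw [e1, norm_mul, norm_pow, norm_neg, norm_one, one_pow, one_mul, Complex.norm_real,
      Real.norm_of_nonneg hpos.le]
  have hne : w.p0 n k i ^ n ≠ (((Real.exp (w.lr k') : ℝ) : ℂ) * ze n ^ k') ^ n :=
    sub_ne_zero.1 (norm_pos_iff.1 (e2 ▸ hpos))
  have h2 := sum_log_ring n hne
  rw [e2, Real.log_mul (Real.exp_pos _).ne' (by positivity), Real.log_exp] at h2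
  rw [← h2]
  refine sum_congr rfl fun j _ => ?_
  rw [Wall.p0.eq_1 w n k' j, un, mul_assoc]

theorem Dw_zero {k : ℕ} (hk : 1 ≤ k) (i : ZMod n) : w.Dw n 0 0 k i = w.Ds n k := by
  obtain ⟨k, rfl⟩ : ∃ m, k = m + 1 := ⟨k - 1, by omega⟩
  have hn : (n : ℝ) ≠ 0 := Nat.cast_ne_zero.2 (NeZero.ne n)
  unfold Wall.Dw Wall.Ds Wall.y
  simp only [w1_p_zero, w1_bq_zero, ← mul_sum, Nat.add_sub_cancel]
  rw [w1_log_same, w1_log_cross (k' := k + 1 + 1) (by rw [pow_succ]; ring),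
    w1_log_cross (k' := k) (by rw [pow_succ]; ring), w1_norm_p0, Real.log_exp,
    show -(n * (w.lr (k + 1) - w.lr (k + 1 + 1))) = n * (w.lr (k + 1 + 1) - w.lr (k + 1)) by ring]
  rcases eq_or_ne (w.c (k + 1)) 0 with h0 | h0
  · rw [h0]; ring
  · rw [Real.log_mul hn h0]; ring

/-- the signed sum over the neighbours -/
def w1A (T : ℕ → ZMod n → ℕ → ZMod n → ℝ) (k : ℕ) (i : ZMod n) : ℝ :=
  2 * ∑ j ∈ univ.erase i, T k i k j - ∑ j, T k i (k + 1) j - ∑ j, T k i (k - 1) j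

theorem w1A_add (T T' : ℕ → ZMod n → ℕ → ZMod n → ℝ) (k : ℕ) (i : ZMod n) :
    w1A (fun a b c d => T a b c d + T' a b c d) k i = w1A T k i + w1A T' k i := by
  simp only [w1A, sum_add_distrib]
  ring

theorem w1_shift (U : ℕ → ℝ) (N : ℕ) (h1 : U 1 = 0) (hN : U N = 0) :
    ∑ k ∈ Ico 1 N, U k = ∑ k ∈ Ico 1 N, U (k + 1) := by
  have key : ∀ M, 1 ≤ M → ∑ k ∈ Ico 1 M, U k + U M = ∑ k ∈ Ico 1 M, U (k + 1) + U 1 := by
    intro M hM
    induction M, hM using Nat.le_induction with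
    | base => simp
    | succ M hM ih => rw [sum_Ico_succ_top hM, sum_Ico_succ_top hM]; linarith
  rcases Nat.eq_zero_or_pos N with rfl | h
  · simp
  · have := key N h
    linarith

theorem w1_canon (T : ℕ → ZMod n → ℕ → ZMod n → ℝ) (N : ℕ) (h1 : ∀ i j, T 1 i 0 j = 0)
    (hN : ∀ i j, T N i (N - 1) j = 0) :
    ∑ k ∈ Ico 1 N, ∑ i, w1A T k i = ∑ k ∈ Ico 1 N,
      (∑ i, ∑ j ∈ univ.erase i, (T k i k j + T k j k i) -
        ∑ i, ∑ j, (T k i (k + 1) j + T (k + 1) j k i)) := by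
  have s1 := w1_shift (fun k => ∑ i, ∑ j, T k i (k - 1) j) N (by simp [h1]) (by simp [hN])
  have s2 : ∀ k, ∑ i, ∑ j ∈ univ.erase i, T k j k i = ∑ i, ∑ j ∈ univ.erase i, T k i k j :=
    fun k => sum_comm' fun x y => by simp [eq_comm]
  have s3 : ∀ k, ∑ i, ∑ j, T (k + 1) j k i = ∑ i, ∑ j, T (k + 1) i k j := fun k => sum_comm
  simp only [Nat.add_sub_cancel] at s1
  simp only [w1A, sum_add_distrib, sum_sub_distrib, ← mul_sum, s2, s3, s1]
  ring

theorem w1_M_inv {l : ℂ} (h0 : l ≠ 0) : l⁻¹ * kap l⁻¹ ^ 2 = l * kap l ^ 2 := by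
  by_cases h1 : l = 1
  · rw [h1, inv_one]
  · have h2 : 1 - l ≠ 0 := sub_ne_zero.2 (Ne.symm h1)
    rw [w1_kap_inv h0 h1]
    unfold kap
    field_simp
    ring

variable (w ξ ε) in
/-- the quadratic term plus an antisymmetric term -/
def w1D (k : ℕ) (i : ZMod n) (k' : ℕ) (j : ZMod n) : ℝ :=
  w.c k * w.c k' * (conj (ξ k i) * (w.p0 n k' j / w.p0 n k i *
      kap (w.p0 n k' j / w.p0 n k i) ^ 2 * (ξ k' j - ξ k i))).re +
    ε k i * w.c k' * (kap (w.p0 n k i / w.p0 n k' j) * ξ k' j).re -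
    ε k' j * w.c k * (kap (w.p0 n k' j / w.p0 n k i) * ξ k i).re

theorem w1D_sym (k : ℕ) (i : ZMod n) (k' : ℕ) (j : ZMod n) :
    w1D w ξ ε k i k' j + w1D w ξ ε k' j k i =
      w.c k * w.c k' * (Wall.KK (w.p0 n k' j / w.p0 n k i) * ((ξ k' j).re - (ξ k i).re) ^ 2) +
      w.c k * w.c k' * (Wall.KK (w.p0 n k' j / w.p0 n k i) * ((ξ k' j).im - (ξ k i).im) ^ 2) := by
  have h := w1_M_inv (div_ne_zero (w1_p0_ne (w := w) k' j) (w1_p0_ne (w := w) k i))
  rw [inv_div] at h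
  unfold w1D Wall.KK
  rw [h]
  generalize w.p0 n k' j / w.p0 n k i * kap (w.p0 n k' j / w.p0 n k i) ^ 2 = M
  simp only [mul_re, mul_im, sub_re, sub_im, conj_re, conj_im]
  ring

theorem w1_point {k : ℕ} (hk : 1 ≤ k) (i : ZMod n) :
    w.c k * (conj (ξ k i) * w.LF n ξ ε k i).re - ε k i * w.LD n ξ ε k i =
      w1A (w1D w ξ ε) k i -
      ε k i * (-2 * (Real.log (w.c k) + 1) * ε k i -
        2 * ∑ j ∈ univ.erase i, ε k j * Real.log ‖w.p0 n k i - w.p0 n k j‖ +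
        ∑ j, ε (k + 1) j * Real.log ‖w.p0 n k i - w.p0 n (k + 1) j‖ +
        ∑ j, ε (k - 1) j * Real.log ‖w.p0 n k i - w.p0 n (k - 1) j‖) +
      2 * w.c k * (ξ k i).re *
        (2 * ∑ j ∈ univ.erase i, ε k j * (kap (w.p0 n k j / w.p0 n k i)).re -
          ∑ j, ε (k + 1) j * (kap (w.p0 n (k + 1) j / w.p0 n k i)).re -
          ∑ j, ε (k - 1) j * (kap (w.p0 n (k - 1) j / w.p0 n k i)).re) +
      ε k i * (w.Em n k * (ξ k i).re) := by
  have ea : w.c k * (conj (ξ k i) * w.LF n ξ ε k i).re =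
      w1A (fun a b c d => w.c a * (conj (ξ a b) * w.lf n ξ ε a b c d).re) k i := by
    unfold w1A Wall.LF
    simp only [← mul_sum, ← re_sum]
    simp only [mul_re, sub_re, sub_im, mul_im, re_ofNat, im_ofNat]
    ring
  have eb : w1A (fun a b c d => ε a b * w.ld n ξ ε a b c d) k i =
      ε k i * (2 * ∑ j ∈ univ.erase i, w.ld n ξ ε k i k j - ∑ j, w.ld n ξ ε k i (k + 1) j -
        ∑ j, w.ld n ξ ε k i (k - 1) j) := by
    unfold w1A
    simp only [← mul_sum]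
    ring
  have ec : w1A (fun a b c d => ε a b * (ε c d * Real.log ‖w.p0 n a b - w.p0 n c d‖)) k i =
      ε k i * (2 * ∑ j ∈ univ.erase i, ε k j * Real.log ‖w.p0 n k i - w.p0 n k j‖ -
        ∑ j, ε (k + 1) j * Real.log ‖w.p0 n k i - w.p0 n (k + 1) j‖ -
        ∑ j, ε (k - 1) j * Real.log ‖w.p0 n k i - w.p0 n (k - 1) j‖) := by
    unfold w1A
    simp only [← mul_sum]
    ring
  have ed : w1A (fun a b c d => 2 * w.c a * (ξ a b).re *
      (ε c d * (kap (w.p0 n c d / w.p0 n a b)).re)) k i = 2 * w.c k * (ξ k i).re *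
        (2 * ∑ j ∈ univ.erase i, ε k j * (kap (w.p0 n k j / w.p0 n k i)).re -
          ∑ j, ε (k + 1) j * (kap (w.p0 n (k + 1) j / w.p0 n k i)).re -
          ∑ j, ε (k - 1) j * (kap (w.p0 n (k - 1) j / w.p0 n k i)).re) := by
    unfold w1A
    simp only [← mul_sum]
    ring
  have ee : ε k i * (w.Em n k * (ξ k i).re) = w1A (fun a b c d =>
      ε a b * (ξ a b * ((w.c c : ℂ) * kap (w.p0 n c d / w.p0 n a b))).re) k i +
        ε k i * (w.g k * (ξ k i).re) := by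
    have h1 : w.Em n k * (ξ k i).re = (ξ k i * w.Fw n 0 0 k i).re := by
      rw [Fw_zero hk, mul_re, ofReal_re, ofReal_im]; ring
    rw [h1]
    unfold w1A Wall.Fw
    simp only [w1_p_zero, w1_bq_zero, ← mul_sum, ← re_sum]
    simp only [mul_re, sub_re, sub_im, add_re, add_im, mul_im, re_ofNat, im_ofNat, ofReal_re,
      ofReal_im]
    ring
  have ef : w1A (fun a b c d => w.c a * (conj (ξ a b) * w.lf n ξ ε a b c d).re +
      ε a b * w.ld n ξ ε a b c d) k i = w1A (fun a b c d => w1D w ξ ε a b c d +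
        ε a b * (ε c d * Real.log ‖w.p0 n a b - w.p0 n c d‖) +
        2 * w.c a * (ξ a b).re * (ε c d * (kap (w.p0 n c d / w.p0 n a b)).re) +
        ε a b * (ξ a b * ((w.c c : ℂ) * kap (w.p0 n c d / w.p0 n a b))).re) k i := by
    congr 1
    funext a b c d
    unfold w1D Wall.lf Wall.ld
    generalize w.p0 n c d / w.p0 n a b * kap (w.p0 n c d / w.p0 n a b) ^ 2 = M
    simp only [mul_re, mul_im, sub_re, sub_im, add_re, add_im, conj_re, conj_im, ofReal_re,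
      ofReal_im]
    ring
  rw [w1A_add, w1A_add, w1A_add, w1A_add, ← ea, eb, ec, ed] at ef
  rw [ee]
  unfold Wall.LD
  linear_combination ef

theorem pair_lin (hb : w.Bd n P) (hξ : ∀ k i, (k = 0 ∨ w.N ≤ k) → ξ k i = 0)
    (hε : ∀ k i, (k = 0 ∨ w.N ≤ k) → ε k i = 0) :
    w.pair n ξ ε (w.LF n ξ ε) (w.LD n ξ ε) =
      -w.Sq n (fun k i => (ξ k i).re) - w.Sq n (fun k i => (ξ k i).im) - w.Hq n ε +
        w.Xq n ε (fun k i => (ξ k i).re) +
        ∑ k ∈ Ico 1 w.N, ∑ i, ε k i * (w.Em n k * (ξ k i).re) := by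
  have h1 := w1_canon (w1D w ξ ε) w.N
    (fun i j => by simp [w1D, hb.c_zero, hε 0 j (Or.inl rfl), hξ 0 j (Or.inl rfl)])
    (fun i j => by simp [w1D, hb.c_out w.N le_rfl, hε w.N i (Or.inr le_rfl)])
  have h2 : ∑ k ∈ Ico 1 w.N, ∑ i, w1A (w1D w ξ ε) k i =
      -w.Sq n (fun k i => (ξ k i).re) - w.Sq n (fun k i => (ξ k i).im) := by
    rw [h1]
    unfold Wall.Sq
    rw [← sum_neg_distrib, ← sum_sub_distrib]
    refine sum_congr rfl fun k _ => ?_
    simp only [w1D_sym, sum_add_distrib, ← mul_sum]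
    ring
  rw [← h2]
  unfold Wall.pair Wall.Hq Wall.Xq
  rw [← sum_sub_distrib, ← sum_add_distrib, ← sum_add_distrib]
  refine sum_congr rfl fun k hk => ?_
  rw [← sum_sub_distrib, ← sum_add_distrib, ← sum_add_distrib]
  exact sum_congr rfl fun i _ => w1_point (mem_Ico.1 hk).1 i

end Pool.Agent.MP_943ae2_gt

end
end

section

open Set Complex Filter Finset
open scoped Topology ComplexConjugate ContDiff

noncomputable section

namespace Pool.Agent.MP_943ae2_gt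

lemma W2_kap {l : ℂ} {P : ℝ} (hP : 0 < P) (h : P⁻¹ ≤ ‖1 - l‖) : ‖kap l‖ ≤ P := by
  have h0 : 0 < P⁻¹ := inv_pos.2 hP
  rw [kap, norm_div, norm_one, one_div]
  exact (inv_le_comm₀ (h0.trans_le h) hP).2 h

lemma W2_small {P r : ℝ} (hP : 1000 ≤ P) (hr : r ≤ P⁻¹ ^ 4) : r * P ^ 4 ≤ 1 := by
  have h0 : 0 < P := by linarith
  calc r * P ^ 4 ≤ P⁻¹ ^ 4 * P ^ 4 := by gcongr
    _ = 1 := by rw [← mul_pow, inv_mul_cancel₀ h0.ne', one_pow]

lemma W2_core {l u : ℂ} {c e P r : ℝ} (hP : 1000 ≤ P) (hr : r ≤ P⁻¹ ^ 4) (hl : ‖l‖ ≤ 2)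
    (hs : P⁻¹ ≤ ‖1 - l‖) (hu : ‖u‖ ≤ 2 * r) (hc : |c| ≤ P) (he : |e| ≤ r) :
    ‖((c + e : ℝ) : ℂ) * kap (l * exp u) - c * kap l -
      (e * kap l + c * (l * kap l ^ 2) * u)‖ ≤ 200 * P ^ 4 * r ^ 2 := by
  have h0 : 0 < P := by linarith
  have r0 : 0 ≤ r := (abs_nonneg e).trans he
  have hsm := W2_small hP hr
  have hP3 : (1000 : ℝ) ≤ P ^ 3 := by nlinarith [mul_pos h0 h0]
  have hrP : r * P * 1000 ≤ 1 := by
    have : r * P * 1000 ≤ r * P * P ^ 3 := by gcongr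
    nlinarith
  have hr1 : r * 1000 ≤ 1 := by nlinarith
  have hu1 : ‖u‖ ≤ 1 := by linarith
  set d := exp u - 1 with hd
  have hd1 : ‖d‖ ≤ 4 * r := (Complex.norm_exp_sub_one_le hu1).trans (by linarith)
  have hd2 : ‖d - u‖ ≤ 4 * r ^ 2 := by
    refine (Complex.norm_exp_sub_one_sub_id_le hu1).trans ?_
    calc ‖u‖ ^ 2 ≤ (2 * r) ^ 2 := by gcongr
      _ = 4 * r ^ 2 := by ring
  have hK : ‖kap l‖ ≤ P := W2_kap h0 hs
  have hld : ‖l * d‖ ≤ 8 * r := by
    rw [norm_mul]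
    calc ‖l‖ * ‖d‖ ≤ 2 * (4 * r) := by gcongr
      _ = 8 * r := by ring
  have hs' : (2 * P)⁻¹ ≤ ‖1 - l * exp u‖ := by
    have e1 : 1 - l * exp u = (1 - l) - l * d := by rw [hd]; ring
    have h1 : ‖1 - l‖ - ‖l * d‖ ≤ ‖1 - l * exp u‖ := by rw [e1]; exact norm_sub_norm_le _ _
    have h2 : 8 * r ≤ (2 * P)⁻¹ := by
      rw [← one_div, le_div_iff₀ (by linarith)]; nlinarith
    have h3 : P⁻¹ = (2 * P)⁻¹ + (2 * P)⁻¹ := by field_simp; ring
    linarith
  have hK' : ‖kap (l * exp u)‖ ≤ 2 * P := W2_kap (by linarith) hs'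
  have n1 : 1 - l ≠ 0 := norm_pos_iff.1 ((inv_pos.2 h0).trans_le hs)
  have n2 : 1 - l * exp u ≠ 0 := norm_pos_iff.1 ((inv_pos.2 (by linarith)).trans_le hs')
  have key : kap (l * exp u) - kap l = kap (l * exp u) * kap l * l * d := by
    rw [kap, kap, hd]; field_simp; ring
  have e2 : ((c + e : ℝ) : ℂ) * kap (l * exp u) - c * kap l -
      (e * kap l + c * (l * kap l ^ 2) * u) =
      e * (kap (l * exp u) * kap l * l * d) +
        c * (l * kap l * (kap (l * exp u) * kap l * l * d * d + kap l * (d - u))) := by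
    push_cast
    linear_combination (e + c + c * l * kap l * d) * key
  have b1 : ‖kap (l * exp u) * kap l * l * d‖ ≤ 2 * P * P * 2 * (4 * r) := by
    simp only [norm_mul]; gcongr
  have b2 : ‖kap (l * exp u) * kap l * l * d * d + kap l * (d - u)‖ ≤
      2 * P * P * 2 * (4 * r) * (4 * r) + P * (4 * r ^ 2) := by
    refine (norm_add_le _ _).trans (add_le_add ?_ ?_)
    · rw [norm_mul]; gcongr
    · rw [norm_mul]; gcongr
  rw [e2]
  refine (norm_add_le _ _).trans ?_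
  have b3 : ‖(e : ℂ) * (kap (l * exp u) * kap l * l * d)‖ ≤ r * (2 * P * P * 2 * (4 * r)) := by
    rw [norm_mul, Complex.norm_real, Real.norm_eq_abs]; gcongr
  have b4 : ‖(c : ℂ) * (l * kap l * (kap (l * exp u) * kap l * l * d * d + kap l * (d - u)))‖ ≤
      P * (2 * P * (2 * P * P * 2 * (4 * r) * (4 * r) + P * (4 * r ^ 2))) := by
    rw [norm_mul, norm_mul, norm_mul, Complex.norm_real, Real.norm_eq_abs]; gcongr
  have q1 : P ^ 2 * r ^ 2 ≤ P ^ 4 * r ^ 2 := by gcongr <;> linarith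
  have q2 : P ^ 3 * r ^ 2 ≤ P ^ 4 * r ^ 2 := by gcongr <;> linarith
  nlinarith

lemma W2_lin {l u : ℂ} {c e P r : ℝ} (hP : 1000 ≤ P) (hl : ‖l‖ ≤ 2)
    (hs : P⁻¹ ≤ ‖1 - l‖) (hu : ‖u‖ ≤ 2 * r) (hc : |c| ≤ P) (he : |e| ≤ r) :
    ‖(e : ℂ) * kap l + c * (l * kap l ^ 2) * u‖ ≤ 5 * P ^ 3 * r := by
  have h0 : 0 < P := by linarith
  have r0 : 0 ≤ r := (abs_nonneg e).trans he
  have hK : ‖kap l‖ ≤ P := W2_kap h0 hs
  have b1 : ‖(e : ℂ) * kap l‖ ≤ r * P := by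
    rw [norm_mul, Complex.norm_real, Real.norm_eq_abs]; gcongr
  have b2 : ‖(c : ℂ) * (l * kap l ^ 2) * u‖ ≤ P * (2 * P ^ 2) * (2 * r) := by
    rw [norm_mul, norm_mul, norm_mul, norm_pow, Complex.norm_real, Real.norm_eq_abs]; gcongr
  have q1 : P ^ 1 * r ≤ P ^ 3 * r := by gcongr <;> linarith
  refine (norm_add_le _ _).trans ?_
  nlinarith

lemma W2_ratio {x y : ℂ} (hx : x ≠ 0) : ‖1 - y / x‖ = ‖x - y‖ / ‖x‖ := by
  rw [← norm_div, sub_div, div_self hx]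

section
variable {w : Wall} {n : ℕ} [NeZero n] {P : ℝ}

lemma W2_norm_p0 (k : ℕ) (i : ZMod n) : ‖w.p0 n k i‖ = Real.exp (w.lr k) := by
  rw [Wall.p0, norm_mul, norm_un, mul_one, Complex.norm_real, Real.norm_eq_abs,
    abs_of_pos (Real.exp_pos _)]

lemma W2_p0_ne (k : ℕ) (i : ZMod n) : w.p0 n k i ≠ 0 :=
  norm_pos_iff.1 (by rw [W2_norm_p0]; exact Real.exp_pos _)

omit [NeZero n] in
lemma W2_c (hb : w.Bd n P) (k : ℕ) : |w.c k| ≤ P := by
  have h0 : 0 < P := by linarith [hb.P_ge]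
  have : 0 ≤ w.c k := by
    rcases Nat.eq_zero_or_pos k with rfl | h1
    · exact hb.c_zero.ge
    · rcases lt_or_ge k w.N with h2 | h2
      · exact (inv_pos.2 h0).le.trans (hb.c_ge k h1 h2)
      · exact (hb.c_out k h2).ge
  rw [abs_of_nonneg this]; exact hb.c_le k

lemma W2_inv (hb : w.Bd n P) : P⁻¹ ≤ 1 / (n : ℝ) := by
  have : (0 : ℝ) < n := Nat.cast_pos.2 (NeZero.pos n)
  rw [one_div]; exact inv_anti₀ this hb.n_le

lemma W2_same (hb : w.Bd n P) (k : ℕ) {i j : ZMod n} (h : j ≠ i) :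
    ‖w.p0 n k j / w.p0 n k i‖ ≤ 2 ∧ P⁻¹ ≤ ‖1 - w.p0 n k j / w.p0 n k i‖ := by
  have hn : (0 : ℝ) < n := Nat.cast_pos.2 (NeZero.pos n)
  have he := Real.exp_pos (w.lr k)
  constructor
  · rw [norm_div, W2_norm_p0, W2_norm_p0, div_self he.ne']; norm_num
  · rw [W2_ratio (W2_p0_ne k i), W2_norm_p0, Wall.p0, Wall.p0, ← mul_sub, norm_mul,
      Complex.norm_real, Real.norm_eq_abs, abs_of_pos he, mul_div_cancel_left₀ _ he.ne']
    refine (W2_inv hb).trans (le_trans ?_ (sep_same n k h))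
    gcongr; norm_num

lemma W2_exp {a b : ℝ} (h : |a - b| ≤ 1 / 4) : Real.exp a ≤ 2 * Real.exp b := by
  have h1 : Real.exp a * Real.exp (b - a) = Real.exp b := by rw [← Real.exp_add]; congr 1; ring
  have h2 := Real.add_one_le_exp (b - a)
  have h3 := (abs_le.1 h).2
  have h4 := Real.exp_pos a
  nlinarith

omit [NeZero n] in
lemma W2_lr (hb : w.Bd n P) {k : ℕ} (hk : k < w.N) : |w.lr k - w.lr (k + 1)| ≤ 1 / 4 := by
  have h := hb.y_le k hk
  have h2 : (2 : ℝ) ≤ n := by exact_mod_cast hb.n_ge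
  rw [Wall.y, abs_mul, abs_of_nonneg (by linarith : (0 : ℝ) ≤ n)] at h
  nlinarith [abs_nonneg (w.lr k - w.lr (k + 1))]

lemma W2_cross (hb : w.Bd n P) {k : ℕ} (hk : k < w.N) (i j : ZMod n) :
    (‖w.p0 n (k + 1) j / w.p0 n k i‖ ≤ 2 ∧ P⁻¹ ≤ ‖1 - w.p0 n (k + 1) j / w.p0 n k i‖) ∧
    (‖w.p0 n k i / w.p0 n (k + 1) j‖ ≤ 2 ∧ P⁻¹ ≤ ‖1 - w.p0 n k i / w.p0 n (k + 1) j‖) := by
  have hn : (0 : ℝ) < n := Nat.cast_pos.2 (NeZero.pos n)
  have ha := Real.exp_pos (w.lr k)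
  have hc := Real.exp_pos (w.lr (k + 1))
  have h1 := W2_exp (W2_lr hb hk)
  have h2 := W2_exp (a := w.lr (k + 1)) (b := w.lr k) (by rw [abs_sub_comm]; exact W2_lr hb hk)
  have hs : 2 * min (Real.exp (w.lr k)) (Real.exp (w.lr (k + 1))) / n ≤
      ‖w.p0 n k i - w.p0 n (k + 1) j‖ := sep_cross n k i j ha hc
  have m1 : Real.exp (w.lr k) ≤ 2 * min (Real.exp (w.lr k)) (Real.exp (w.lr (k + 1))) := by
    rcases le_total (Real.exp (w.lr k)) (Real.exp (w.lr (k + 1))) with h | h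
    · rw [min_eq_left h]; linarith
    · rw [min_eq_right h]; linarith
  have m2 : Real.exp (w.lr (k + 1)) ≤ 2 * min (Real.exp (w.lr k)) (Real.exp (w.lr (k + 1))) := by
    rcases le_total (Real.exp (w.lr k)) (Real.exp (w.lr (k + 1))) with h | h
    · rw [min_eq_left h]; linarith
    · rw [min_eq_right h]; linarith
  refine ⟨⟨?_, ?_⟩, ?_, ?_⟩
  · rw [norm_div, W2_norm_p0, W2_norm_p0, div_le_iff₀ ha]; exact h2
  · rw [W2_ratio (W2_p0_ne k i), W2_norm_p0, le_div_iff₀ ha]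
    refine le_trans ?_ hs
    calc P⁻¹ * Real.exp (w.lr k) ≤ 1 / n * Real.exp (w.lr k) := by gcongr; exact W2_inv hb
      _ = Real.exp (w.lr k) / n := by ring
      _ ≤ _ := by gcongr
  · rw [norm_div, W2_norm_p0, W2_norm_p0, div_le_iff₀ hc]; exact h1
  · rw [W2_ratio (W2_p0_ne (k + 1) j), W2_norm_p0, le_div_iff₀ hc, norm_sub_rev]
    refine le_trans ?_ hs
    calc P⁻¹ * Real.exp (w.lr (k + 1)) ≤ 1 / n * Real.exp (w.lr (k + 1)) := by
          gcongr; exact W2_inv hb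
      _ = Real.exp (w.lr (k + 1)) / n := by ring
      _ ≤ _ := by gcongr

lemma W2_three (hb : w.Bd n P) {k : ℕ} (h1 : 1 ≤ k) (h2 : k < w.N) (i : ZMod n)
    (T : ℕ → ZMod n → ℂ) {B : ℝ} (hB : 0 ≤ B)
    (hT : ∀ k' j, ‖w.p0 n k' j / w.p0 n k i‖ ≤ 2 → P⁻¹ ≤ ‖1 - w.p0 n k' j / w.p0 n k i‖ →
      ‖T k' j‖ ≤ B) :
    ‖2 * ∑ j ∈ univ.erase i, T k j - ∑ j, T (k + 1) j - ∑ j, T (k - 1) j‖ ≤ 4 * P * B := by
  have hcard : ∀ s : Finset (ZMod n), (s.card : ℝ) * B ≤ P * B := by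
    intro s
    have : s.card ≤ n := by simpa [ZMod.card] using s.card_le_univ
    have h : (s.card : ℝ) ≤ P := (Nat.cast_le.2 this).trans hb.n_le
    gcongr
  have hsum : ∀ (s : Finset (ZMod n)) (f : ZMod n → ℂ), (∀ j ∈ s, ‖f j‖ ≤ B) →
      ‖∑ j ∈ s, f j‖ ≤ P * B := by
    intro s f hf
    refine (norm_sum_le _ _).trans (le_trans ?_ (hcard s))
    simpa using Finset.sum_le_card_nsmul s _ B hf
  have a1 := hsum (univ.erase i) (T k) fun j hj =>
    hT k j (W2_same hb k (Finset.ne_of_mem_erase hj)).1 (W2_same hb k (Finset.ne_of_mem_erase hj)).2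
  have a2 := hsum univ (T (k + 1)) fun j _ =>
    hT (k + 1) j (W2_cross hb h2 i j).1.1 (W2_cross hb h2 i j).1.2
  have a3 := hsum univ (T (k - 1)) fun j _ => by
    have h := (W2_cross hb (k := k - 1) (by omega) j i).2
    rw [Nat.sub_add_cancel h1] at h
    exact hT (k - 1) j h.1 h.2
  refine (norm_sub_le _ _).trans ?_
  have a4 := norm_sub_le (2 * ∑ j ∈ univ.erase i, T k j) (∑ j, T (k + 1) j)
  rw [norm_mul, Complex.norm_ofNat] at a4
  linarith

lemma W2_pdiv (ξ : ℕ → ZMod n → ℂ) (k k' : ℕ) (i j : ZMod n) :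
    w.p n ξ k' j / w.p n ξ k i = w.p0 n k' j / w.p0 n k i * exp (ξ k' j - ξ k i) := by
  rw [Wall.p, Wall.p, Complex.exp_sub, mul_div_mul_comm]

end

variable {w : Wall} {n : ℕ} [NeZero n] {ξ : ℕ → ZMod n → ℂ} {ε : ℕ → ZMod n → ℝ} {P r : ℝ}
  (hb : w.Bd n P) (hr : r ≤ P⁻¹ ^ 4) (hξ : ∀ k i, ‖ξ k i‖ ≤ r) (hε : ∀ k i, |ε k i| ≤ r)
  (hε0 : ∀ k i, (k = 0 ∨ w.N ≤ k) → ε k i = 0)
include hb hr hξ hε hε0

theorem Fw_taylor {k : ℕ} (h1 : 1 ≤ k) (h2 : k < w.N) (i : ZMod n) :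
    ‖w.Fw n ξ ε k i - w.Em n k - w.LF n ξ ε k i‖ ≤ P ^ 7 * r ^ 2 := by
  have _ := hε0
  have hP := hb.P_ge
  have h0 : 0 < P := by linarith
  have h := W2_three hb h1 h2 i (fun k' j => ((w.c k' + ε k' j : ℝ) : ℂ) *
      kap (w.p0 n k' j / w.p0 n k i * exp (ξ k' j - ξ k i)) -
      w.c k' * kap (w.p0 n k' j / w.p0 n k i) - w.lf n ξ ε k i k' j)
    (B := 200 * P ^ 4 * r ^ 2) (by positivity) fun k' j a b =>
      W2_core hP hr a b ((norm_sub_le _ _).trans (by linarith [hξ k' j, hξ k i])) (W2_c hb k')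
        (hε k' j)
  rw [← Fw_zero h1 i]
  refine le_trans (le_of_eq ?_) (h.trans ?_)
  · congr 1
    simp only [Wall.Fw, Wall.LF, Wall.bq, W2_pdiv, Finset.sum_sub_distrib, Pi.zero_apply,
      add_zero, sub_self, Complex.exp_zero, mul_one]
    ring
  · have q : 800 * P ^ 5 ≤ P ^ 7 := by
      have : P ^ 7 = P ^ 2 * P ^ 5 := by ring
      rw [this]; gcongr; nlinarith
    have := mul_le_mul_of_nonneg_right q (sq_nonneg r)
    nlinarith

theorem Fw_lip {k : ℕ} (h1 : 1 ≤ k) (h2 : k < w.N) (i : ZMod n) :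
    ‖w.Fw n ξ ε k i - w.Em n k‖ ≤ P ^ 6 * r := by
  have hP := hb.P_ge
  have h0 : 0 < P := by linarith
  have r0 : 0 ≤ r := (norm_nonneg _).trans (hξ k i)
  have ht := Fw_taylor hb hr hξ hε hε0 h1 h2 i
  have h : ‖w.LF n ξ ε k i‖ ≤ 4 * P * (5 * P ^ 3 * r) :=
    W2_three hb h1 h2 i (fun k' j => w.lf n ξ ε k i k' j) (by positivity) fun k' j a b =>
      W2_lin hP a b ((norm_sub_le _ _).trans (by linarith [hξ k' j, hξ k i])) (W2_c hb k')
        (hε k' j)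
  have hs := W2_small hP hr
  have e : w.Fw n ξ ε k i - w.Em n k =
      (w.Fw n ξ ε k i - w.Em n k - w.LF n ξ ε k i) + w.LF n ξ ε k i := by ring
  rw [e]
  refine (norm_add_le _ _).trans ?_
  have q1 : P ^ 7 * r ^ 2 ≤ P ^ 3 * r := by
    have : P ^ 7 * r ^ 2 = P ^ 3 * r * (r * P ^ 4) := by ring
    rw [this]; exact mul_le_of_le_one_right (by positivity) hs
  have q2 : P ^ 3 * r ≤ P ^ 4 * r := by gcongr <;> linarith
  have q3 : 21 * P ^ 4 ≤ P ^ 6 := by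
    have : P ^ 6 = P ^ 2 * P ^ 4 := by ring
    rw [this]; gcongr; nlinarith
  have := mul_le_mul_of_nonneg_right q3 r0
  nlinarith

end Pool.Agent.MP_943ae2_gt

end
end

section

open Set Complex Filter Finset
open scoped Topology ComplexConjugate ContDiff

noncomputable section

namespace Pool.Agent.MP_943ae2_gt

/-- two points that are well separated -/
structure W3Sep (P : ℝ) (a b : ℂ) : Prop where
  a0 : a ≠ 0
  b0 : b ≠ 0
  ha : ‖a‖ ≤ P * ‖a - b‖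
  hb : ‖b‖ ≤ P * ‖a - b‖
  lg : |Real.log ‖a - b‖| ≤ 3 * P

lemma W3Sep.symm {P : ℝ} {a b : ℂ} (h : W3Sep P a b) : W3Sep P b a :=
  ⟨h.b0, h.a0, by rw [norm_sub_rev]; exact h.hb, by rw [norm_sub_rev]; exact h.ha,
    by rw [norm_sub_rev]; exact h.lg⟩

lemma w3_sep {P s t : ℝ} {a b : ℂ} (hP : 1000 ≤ P) (ha : ‖a‖ = Real.exp s)
    (hb : ‖b‖ = Real.exp t) (hs : |s| ≤ P) (ht : |t| ≤ P) (h1 : Real.exp s ≤ P * ‖a - b‖)
    (h2 : Real.exp t ≤ P * ‖a - b‖) : W3Sep P a b := by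
  have P0 : 0 < P := by linarith
  have d0 : 0 < ‖a - b‖ := (mul_pos_iff_of_pos_left P0).1 ((Real.exp_pos s).trans_le h1)
  refine ⟨norm_pos_iff.1 (ha ▸ Real.exp_pos s), norm_pos_iff.1 (hb ▸ Real.exp_pos t), ha ▸ h1,
    hb ▸ h2, abs_le.2 ⟨?_, ?_⟩⟩
  · have h3 := Real.log_le_log (Real.exp_pos s) h1
    rw [Real.log_exp, Real.log_mul P0.ne' d0.ne'] at h3
    have h4 := Real.log_le_sub_one_of_pos P0
    linarith [(abs_le.1 hs).1]
  · have h3 : ‖a - b‖ ≤ 2 * Real.exp P := by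
      have h4 := norm_sub_le a b
      have h5 := Real.exp_le_exp.2 (abs_le.1 hs).2
      have h6 := Real.exp_le_exp.2 (abs_le.1 ht).2
      linarith
    have h4 := Real.log_le_log d0 h3
    rw [Real.log_mul two_ne_zero (Real.exp_pos P).ne', Real.log_exp] at h4
    have h5 := Real.log_le_sub_one_of_pos (show (0 : ℝ) < 2 by norm_num)
    linarith

lemma w3_small {P r : ℝ} (hP : 1000 ≤ P) (hr : r ≤ P⁻¹ ^ 4) : P ^ 4 * r ≤ 1 := by
  have P0 : 0 < P := by linarith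
  have h := mul_le_mul_of_nonneg_left hr (pow_pos P0 4).le
  rwa [← mul_pow, mul_inv_cancel₀ P0.ne', one_pow] at h

lemma w3_small' {P r : ℝ} (hP : 1000 ≤ P) (hr : r ≤ P⁻¹ ^ 4) (r0 : 0 ≤ r) :
    1000 * (P * r) ≤ 1 ∧ 1000 * r ≤ P * r := by
  have h1 := w3_small hP hr
  have P0 : 0 < P := by linarith
  have h2 : (1000 : ℝ) ≤ P ^ 3 :=
    hP.trans (le_self_pow₀ (by linarith) (by norm_num))
  have h3 := mul_le_mul_of_nonneg_right h2 (mul_nonneg P0.le r0)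
  exact ⟨by linarith, mul_le_mul_of_nonneg_right hP r0⟩

lemma w3_log {P r : ℝ} {a b x y : ℂ} (hP : 1000 ≤ P) (hr : r ≤ P⁻¹ ^ 4) (h : W3Sep P a b)
    (hx : ‖x‖ ≤ r) (hy : ‖y‖ ≤ r) :
    |Real.log ‖a * exp x - b * exp y‖ - Real.log ‖a - b‖ -
      (kap (b / a) * x + kap (a / b) * y).re| ≤ 17 * P ^ 2 * r ^ 2 ∧
    |(kap (b / a) * x + kap (a / b) * y).re| ≤ 3 * P * r := by
  have P0 : 0 < P := by linarith
  have r0 : 0 ≤ r := (norm_nonneg x).trans hx
  obtain ⟨s1, s2⟩ := w3_small' hP hr r0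
  have a0 := h.a0
  have b0 := h.b0
  have d0 : 0 < ‖a - b‖ := (mul_pos_iff_of_pos_left P0).1 ((norm_pos_iff.2 a0).trans_le h.ha)
  have d1 : a - b ≠ 0 := norm_pos_iff.1 d0
  have d2 : b - a ≠ 0 := fun h1 => d1 (by linear_combination -h1)
  have k1 : kap (a / b) = -(b / (a - b)) := by
    unfold kap
    have : 1 - a / b = (b - a) / b := by field_simp
    rw [this]
    field_simp
    ring
  have k2 : kap (b / a) = 1 - kap (a / b) := by
    rw [k1]
    unfold kap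
    have : 1 - b / a = (a - b) / a := by field_simp
    rw [this]
    field_simp
    ring
  have k3 : ‖kap (a / b)‖ ≤ P := by
    rw [k1, norm_neg, norm_div, div_le_iff₀ d0]
    exact h.hb
  have e1 : a * exp x - b * exp y = (a - b) * exp x * (1 + kap (a / b) * (exp (y - x) - 1)) := by
    rw [k1, Complex.exp_sub]
    have := Complex.exp_ne_zero x
    field_simp
    ring
  have e2 : kap (b / a) * x + kap (a / b) * y = x + kap (a / b) * (y - x) := by
    rw [k2]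
    ring
  rw [e1, e2]
  generalize kap (a / b) = κ at k3
  have u1 : ‖y - x‖ ≤ 2 * r := (norm_sub_le y x).trans (by linarith)
  generalize y - x = u at u1
  have u2 : ‖u‖ ≤ 1 := by linarith
  have u3 := Complex.norm_exp_sub_one_le u2
  have u4 := Complex.norm_exp_sub_one_sub_id_le u2
  have q1 : ‖κ * (exp u - 1)‖ ≤ 4 * (P * r) := by
    rw [norm_mul]
    have := mul_le_mul k3 (u3.trans (by linarith : 2 * ‖u‖ ≤ 4 * r)) (norm_nonneg _) P0.le
    linarith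
  have q2 : ‖κ * (exp u - 1) - κ * u‖ ≤ 4 * P * r ^ 2 := by
    rw [← mul_sub, norm_mul]
    have h1 : ‖u‖ ^ 2 ≤ (2 * r) ^ 2 := pow_le_pow_left₀ (norm_nonneg u) u1 2
    have := mul_le_mul k3 (u4.trans h1) (norm_nonneg _) P0.le
    linarith
  have q3 : ‖κ * u‖ ≤ 2 * (P * r) := by
    rw [norm_mul]
    have := mul_le_mul k3 u1 (norm_nonneg _) P0.le
    linarith
  generalize κ * (exp u - 1) = q at q1 q2
  generalize κ * u = v at q2 q3
  have q4 : ‖q‖ ≤ 1 / 2 := by linarith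
  have q5 : 1 + q ≠ 0 := fun h1 => by
    have : q = -1 := by linear_combination h1
    rw [this, norm_neg, norm_one] at q4
    linarith
  have q6 : ‖Complex.log (1 + q) - q‖ ≤ 16 * P ^ 2 * r ^ 2 := by
    refine (Complex.norm_log_one_add_sub_self_le (by linarith)).trans ?_
    have h1 : (1 - ‖q‖)⁻¹ ≤ 2 := by
      rw [inv_eq_one_div, div_le_iff₀ (by linarith)]
      linarith
    have h2 := mul_le_mul (pow_le_pow_left₀ (norm_nonneg q) q1 2) h1
      (inv_nonneg.2 (by linarith)) (sq_nonneg _)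
    linarith
  refine ⟨?_, ?_⟩
  · rw [norm_mul, norm_mul, Real.log_mul (mul_pos d0 (norm_pos_iff.2 (Complex.exp_ne_zero x))).ne'
      (norm_ne_zero_iff.2 q5), Real.log_mul d0.ne' (norm_ne_zero_iff.2 (Complex.exp_ne_zero x)),
      Complex.norm_exp, Real.log_exp, ← Complex.log_re (1 + q), add_re]
    have h1 := (Complex.abs_re_le_norm _).trans q6
    have h2 := (Complex.abs_re_le_norm _).trans q2
    rw [sub_re] at h1 h2
    have h3 : 4 * P * r ^ 2 ≤ P ^ 2 * r ^ 2 :=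
      mul_le_mul_of_nonneg_right (by nlinarith) (sq_nonneg r)
    rw [abs_le] at h1 h2 ⊢
    constructor <;> linarith [h1.1, h1.2, h2.1, h2.2]
  · refine (Complex.abs_re_le_norm _).trans ((norm_add_le _ _).trans ?_)
    linarith

lemma w3_pair {P r c e : ℝ} {a b x y : ℂ} (hP : 1000 ≤ P) (hr : r ≤ P⁻¹ ^ 4) (h : W3Sep P a b)
    (hx : ‖x‖ ≤ r) (hy : ‖y‖ ≤ r) (hc : |c| ≤ P) (he : |e| ≤ r) :
    |(c + e) * Real.log ‖a * exp x - b * exp y‖ - c * Real.log ‖a - b‖ -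
      (e * Real.log ‖a - b‖ + c * (kap (b / a) * x + kap (a / b) * y).re)| ≤
        18 * P ^ 3 * r ^ 2 ∧
    |e * Real.log ‖a - b‖ + c * (kap (b / a) * x + kap (a / b) * y).re| ≤ 4 * P ^ 2 * r := by
  have P0 : 0 < P := by linarith
  have r0 : 0 ≤ r := (norm_nonneg x).trans hx
  obtain ⟨s1, s2⟩ := w3_small' hP hr r0
  obtain ⟨h1, h2⟩ := w3_log hP hr h hx hy
  have h3 := h.lg
  generalize Real.log ‖a * exp x - b * exp y‖ = L at h1
  generalize Real.log ‖a - b‖ = L0 at h1 h3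
  generalize (kap (b / a) * x + kap (a / b) * y).re = D at h1 h2
  have m1 : |c * (L - L0 - D)| ≤ P * (17 * P ^ 2 * r ^ 2) := by
    rw [abs_mul]
    exact mul_le_mul hc h1 (abs_nonneg _) P0.le
  have m2 : |e * (L - L0 - D)| ≤ r * (17 * P ^ 2 * r ^ 2) := by
    rw [abs_mul]
    exact mul_le_mul he h1 (abs_nonneg _) r0
  have m3 : |e * D| ≤ r * (3 * P * r) := by
    rw [abs_mul]
    exact mul_le_mul he h2 (abs_nonneg _) r0
  have m4 : |e * L0| ≤ r * (3 * P) := by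
    rw [abs_mul]
    exact mul_le_mul he h3 (abs_nonneg _) r0
  have m5 : |c * D| ≤ P * (3 * P * r) := by
    rw [abs_mul]
    exact mul_le_mul hc h2 (abs_nonneg _) P0.le
  have n1 : 1000 * (P * r) * (P * r ^ 2) ≤ 1 * (P * r ^ 2) :=
    mul_le_mul_of_nonneg_right s1 (by positivity)
  have n2 : 1000 * (P * r ^ 2) ≤ P ^ 2 * (P * r ^ 2) :=
    mul_le_mul_of_nonneg_right (hP.trans (le_self_pow₀ (by linarith) (by norm_num)))
      (by positivity)
  have n3 : 1000 * (P * r) ≤ P * (P * r) := mul_le_mul_of_nonneg_right hP (by positivity)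
  have n4 : 0 ≤ P * r ^ 2 := by positivity
  have n5 : 0 ≤ P * r := by positivity
  rw [abs_le] at m1 m2 m3 m4 m5
  refine ⟨abs_le.2 ⟨?_, ?_⟩, abs_le.2 ⟨?_, ?_⟩⟩
  · linarith [m1.1, m2.1, m3.1]
  · linarith [m1.2, m2.2, m3.2]
  · linarith [m4.1, m5.1]
  · linarith [m4.2, m5.2]

lemma w3_ent {P r c e : ℝ} (hP : 1000 ≤ P) (hr : r ≤ P⁻¹ ^ 4) (hc : P⁻¹ ≤ c) (he : |e| ≤ r) :
    |(c + e) * Real.log (c + e) - c * Real.log c - (Real.log c + 1) * e| ≤ P * r ^ 2 := by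
  have P0 : 0 < P := by linarith
  have r0 : 0 ≤ r := (abs_nonneg e).trans he
  obtain ⟨s1, -⟩ := w3_small' hP hr r0
  have c0 : 0 < c := (inv_pos.2 P0).trans_le hc
  have c1 : 1 ≤ P * c := by
    have := mul_le_mul_of_nonneg_left hc P0.le
    rwa [mul_inv_cancel₀ P0.ne'] at this
  have c2 : r < c := by
    refine lt_of_mul_lt_mul_left ?_ P0.le
    linarith
  have c3 : 0 < c + e := by linarith [(abs_le.1 he).1]
  have t0 : 0 < (c + e) / c := div_pos c3 c0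
  have h1 := mul_le_mul_of_nonneg_left (Real.log_le_sub_one_of_pos t0) c3.le
  have h2 := mul_le_mul_of_nonneg_left (Real.one_sub_inv_le_log_of_pos t0) c3.le
  rw [Real.log_div c3.ne' c0.ne'] at h1 h2
  have e1 : (c + e) * ((c + e) / c - 1) = e + e ^ 2 / c := by
    field_simp
    ring
  have e2 : (c + e) * (1 - ((c + e) / c)⁻¹) = e := by
    field_simp
    ring
  have e3 : e ^ 2 / c ≤ P * r ^ 2 := by
    rw [div_le_iff₀ c0]
    have h3 : e ^ 2 ≤ r ^ 2 := sq_le_sq' (abs_le.1 he).1 (abs_le.1 he).2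
    have h4 := mul_le_mul_of_nonneg_right c1 (sq_nonneg r)
    linarith
  have e4 : 0 ≤ P * r ^ 2 := by positivity
  rw [e1] at h1
  rw [e2] at h2
  rw [abs_le]
  constructor <;> linarith

lemma w3_sum {n : ℕ} [NeZero n] {P B : ℝ} (hn : (n : ℝ) ≤ P) (hB : 0 ≤ B) (s : Finset (ZMod n))
    {f : ZMod n → ℝ} (h : ∀ j ∈ s, |f j| ≤ B) : |∑ j ∈ s, f j| ≤ P * B := by
  refine (Finset.abs_sum_le_sum_abs _ _).trans ((Finset.sum_le_card_nsmul _ _ _ h).trans ?_)
  rw [nsmul_eq_mul]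
  refine mul_le_mul_of_nonneg_right (le_trans ?_ hn) hB
  have := Finset.card_le_univ s
  rw [ZMod.card] at this
  exact_mod_cast this

section

variable {w : Wall} {n : ℕ} [NeZero n] {P : ℝ}

lemma w3_norm_p0 (k : ℕ) (i : ZMod n) : ‖w.p0 n k i‖ = Real.exp (w.lr k) := by
  unfold Wall.p0
  rw [norm_mul, norm_un, mul_one, Complex.norm_real, Real.norm_eq_abs, abs_of_pos (Real.exp_pos _)]

lemma w3_same (hb : w.Bd n P) {k : ℕ} (hk : k ≤ w.N) {i j : ZMod n} (h : j ≠ i) :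
    W3Sep P (w.p0 n k i) (w.p0 n k j) := by
  have n0 : (0 : ℝ) < n := by exact_mod_cast NeZero.pos n
  have key : Real.exp (w.lr k) ≤ P * ‖w.p0 n k i - w.p0 n k j‖ := by
    unfold Wall.p0
    rw [← mul_sub, norm_mul, Complex.norm_real, Real.norm_eq_abs, abs_of_pos (Real.exp_pos _)]
    have h1 := sep_same n k h
    rw [div_le_iff₀ n0] at h1
    have h2 := mul_le_mul_of_nonneg_left hb.n_le (norm_nonneg (un n k i - un n k j))
    have h3 := mul_le_mul_of_nonneg_left (h1.trans h2) (Real.exp_pos (w.lr k)).le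
    linarith [Real.exp_pos (w.lr k)]
  exact w3_sep hb.P_ge (w3_norm_p0 k i) (w3_norm_p0 k j) (hb.lr_le k hk) (hb.lr_le k hk) key key

lemma w3_cross (hb : w.Bd n P) {k : ℕ} (hk : k < w.N) (i j : ZMod n) :
    W3Sep P (w.p0 n k i) (w.p0 n (k + 1) j) := by
  have n0 : (0 : ℝ) < n := by exact_mod_cast NeZero.pos n
  have n1 : (1 : ℝ) ≤ n := by exact_mod_cast NeZero.one_le
  have h1 := sep_cross n k i j (Real.exp_pos (w.lr k)) (Real.exp_pos (w.lr (k + 1)))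
  rw [div_le_iff₀ n0] at h1
  have h2 := h1.trans (mul_le_mul_of_nonneg_left hb.n_le (norm_nonneg _))
  have h3 : |w.lr k - w.lr (k + 1)| ≤ 1 / 2 := by
    have h4 := hb.y_le k hk
    unfold Wall.y at h4
    rw [abs_mul, abs_of_pos n0] at h4
    exact (le_mul_of_one_le_left (abs_nonneg _) n1).trans h4
  have h4 : ∀ s t : ℝ, s - t ≤ 1 / 2 → Real.exp s ≤ 2 * Real.exp t := fun s t h => by
    have h5 := Real.add_one_le_exp (t - s)
    have h6 := mul_le_mul_of_nonneg_left (show 1 / 2 ≤ Real.exp (t - s) by linarith)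
      (Real.exp_pos s).le
    rw [← Real.exp_add, add_sub_cancel] at h6
    linarith
  have h5 := h4 _ _ (abs_le.1 h3).2
  have h6 := h4 (w.lr (k + 1)) (w.lr k) (by linarith [(abs_le.1 h3).1])
  have h7 := Real.exp_pos (w.lr k)
  have h8 := Real.exp_pos (w.lr (k + 1))
  refine w3_sep hb.P_ge (w3_norm_p0 k i) (w3_norm_p0 (k + 1) j) (hb.lr_le k hk.le)
    (hb.lr_le (k + 1) hk) ?_ ?_
  · refine le_trans ?_ (h2.trans_eq (mul_comm _ _))
    rw [mul_min_of_nonneg _ _ two_pos.le]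
    exact le_min (by linarith) h5
  · refine le_trans ?_ (h2.trans_eq (mul_comm _ _))
    rw [mul_min_of_nonneg _ _ two_pos.le]
    exact le_min h6 (by linarith)

omit [NeZero n] in
lemma w3_c (hb : w.Bd n P) (k : ℕ) : |w.c k| ≤ P := by
  have P0 : 0 < P := by linarith [hb.P_ge]
  rw [abs_of_nonneg]
  · exact hb.c_le k
  rcases Nat.eq_zero_or_pos k with rfl | h1
  · exact hb.c_zero.ge
  rcases lt_or_ge k w.N with h2 | h2
  · exact (inv_pos.2 P0).le.trans (hb.c_ge k h1 h2)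
  · exact (hb.c_out k h2).ge

end

variable {w : Wall} {n : ℕ} [NeZero n] {ξ : ℕ → ZMod n → ℂ} {ε : ℕ → ZMod n → ℝ} {P r : ℝ}
  (hb : w.Bd n P) (hr : r ≤ P⁻¹ ^ 4) (hξ : ∀ k i, ‖ξ k i‖ ≤ r) (hε : ∀ k i, |ε k i| ≤ r)
  (hε0 : ∀ k i, (k = 0 ∨ w.N ≤ k) → ε k i = 0)

include hb hr hξ hε in
lemma w3_ring {k k' : ℕ} {i : ZMod n} {s : Finset (ZMod n)}
    (h : ∀ j ∈ s, W3Sep P (w.p0 n k i) (w.p0 n k' j)) :
    |∑ j ∈ s, w.bq n ε k' j * Real.log ‖w.p n ξ k i - w.p n ξ k' j‖ -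
      ∑ j ∈ s, w.c k' * Real.log ‖w.p0 n k i - w.p0 n k' j‖ -
      ∑ j ∈ s, w.ld n ξ ε k i k' j| ≤ P * (18 * P ^ 3 * r ^ 2) ∧
    |∑ j ∈ s, w.ld n ξ ε k i k' j| ≤ P * (4 * P ^ 2 * r) := by
  have P0 : 0 < P := by linarith [hb.P_ge]
  have r0 : 0 ≤ r := (norm_nonneg _).trans (hξ k i)
  have key := fun j hj => w3_pair hb.P_ge hr (h j hj) (hξ k i) (hξ k' j) (w3_c hb k') (hε k' j)
  rw [← Finset.sum_sub_distrib, ← Finset.sum_sub_distrib]
  exact ⟨w3_sum hb.n_le (by positivity) s fun j hj => (key j hj).1,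
    w3_sum hb.n_le (by positivity) s fun j hj => (key j hj).2⟩

include hb hr hξ hε in
lemma w3_both {k : ℕ} (h1 : 1 ≤ k) (h2 : k < w.N) (i : ZMod n) :
    |w.Dw n ξ ε k i - w.Ds n k - w.LD n ξ ε k i| ≤ 74 * (P ^ 4 * r ^ 2) ∧
      |w.LD n ξ ε k i| ≤ 21 * (P ^ 3 * r) := by
  have hP := hb.P_ge
  have P0 : 0 < P := by linarith
  have P1 : 1 ≤ P := by linarith
  have r0 : 0 ≤ r := (norm_nonneg _).trans (hξ k i)
  obtain ⟨a1, a2⟩ := w3_ring hb hr hξ hε (s := univ.erase i)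
    fun j hj => w3_same hb h2.le (Finset.ne_of_mem_erase hj)
  obtain ⟨b1, b2⟩ := w3_ring hb hr hξ hε (s := univ) fun j _ => w3_cross hb h2 i j
  obtain ⟨c1, c2⟩ := w3_ring hb hr hξ hε (s := univ) (k := k) (k' := k - 1) (i := i)
    fun j _ => by
      have := (w3_cross hb (k := k - 1) (by omega) j i).symm
      rwa [Nat.sub_add_cancel h1] at this
  have d1 := w3_ent hP hr (hb.c_ge k h1 h2) (hε k i)
  have p0 : ∀ k' j, w.p n 0 k' j = w.p0 n k' j := fun k' j => by simp [Wall.p]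
  have q0 : ∀ k' j, w.bq n 0 k' j = w.c k' := fun k' j => by simp [Wall.bq]
  have l1 : Real.log ‖w.p n ξ k i‖ = Real.log ‖w.p0 n k i‖ + (ξ k i).re := by
    unfold Wall.p
    rw [norm_mul, Complex.norm_exp, w3_norm_p0, ← Real.exp_add, Real.log_exp, Real.log_exp]
  have l2 : |Real.log (w.c k) + 1| ≤ 2 * P := by
    have c0 : 0 < w.c k := (inv_pos.2 P0).trans_le (hb.c_ge k h1 h2)
    have h3 := Real.log_le_log (inv_pos.2 P0) (hb.c_ge k h1 h2)
    have h4 := Real.log_le_log c0 (hb.c_le k)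
    have h5 := Real.log_le_sub_one_of_pos P0
    rw [Real.log_inv] at h3
    rw [abs_le]
    constructor <;> linarith
  have l3 : |(Real.log (w.c k) + 1) * ε k i| ≤ 2 * P * r := by
    rw [abs_mul]
    exact mul_le_mul l2 (hε k i) (abs_nonneg _) (by positivity)
  have l4 : |w.g k * (ξ k i).re| ≤ P * r := by
    rw [abs_mul]
    exact mul_le_mul (hb.g_le k) ((Complex.abs_re_le_norm _).trans (hξ k i)) (abs_nonneg _) P0.le
  have m1 : P * r ^ 2 ≤ P ^ 4 * r ^ 2 :=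
    mul_le_mul_of_nonneg_right (le_self_pow₀ P1 (by norm_num)) (sq_nonneg r)
  have m2 : P * r ≤ P ^ 3 * r := mul_le_mul_of_nonneg_right (le_self_pow₀ P1 (by norm_num)) r0
  have e0 : w.bq n ε k i = w.c k + ε k i := rfl
  rw [← Dw_zero h1 i]
  unfold Wall.Dw Wall.LD
  simp only [p0, q0]
  rw [l1, e0]
  rw [abs_le] at a1 a2 b1 b2 c1 c2 d1 l3 l4
  refine ⟨abs_le.2 ⟨?_, ?_⟩, abs_le.2 ⟨?_, ?_⟩⟩
  · linarith [a1.2, b1.1, c1.1, d1.2]
  · linarith [a1.1, b1.2, c1.2, d1.1]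
  · linarith [a2.2, b2.1, c2.1, l3.2, l4.2]
  · linarith [a2.1, b2.2, c2.2, l3.1, l4.1]

include hb hr hξ hε hε0

theorem Dw_taylor {k : ℕ} (h1 : 1 ≤ k) (h2 : k < w.N) (i : ZMod n) :
    |w.Dw n ξ ε k i - w.Ds n k - w.LD n ξ ε k i| ≤ P ^ 7 * r ^ 2 := by
  have _ := hε0
  have hP := hb.P_ge
  have h3 : (1000 : ℝ) ≤ P ^ 3 := hP.trans (le_self_pow₀ (by linarith) (by norm_num))
  have h4 : 0 ≤ P ^ 4 * r ^ 2 := by positivity
  have h5 := mul_le_mul_of_nonneg_right h3 h4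
  linarith [(w3_both hb hr hξ hε h1 h2 i).1]

theorem Dw_lip {k : ℕ} (h1 : 1 ≤ k) (h2 : k < w.N) (i : ZMod n) :
    |w.Dw n ξ ε k i - w.Ds n k| ≤ P ^ 6 * r := by
  have _ := hε0
  have hP := hb.P_ge
  have P0 : 0 < P := by linarith
  have r0 : 0 ≤ r := (norm_nonneg _).trans (hξ k i)
  obtain ⟨a1, a2⟩ := w3_both hb hr hξ hε h1 h2 i
  have h3 : (1000 : ℝ) ≤ P ^ 3 := hP.trans (le_self_pow₀ (by linarith) (by norm_num))
  have h4 : 0 ≤ P ^ 3 * r := by positivity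
  have h5 := mul_le_mul_of_nonneg_right h3 h4
  have h6 := mul_le_mul_of_nonneg_right (w3_small hP hr) r0
  have h7 := mul_le_mul_of_nonneg_right h3 r0
  have h8 := abs_add_le (w.Dw n ξ ε k i - w.Ds n k - w.LD n ξ ε k i) (w.LD n ξ ε k i)
  rw [sub_add_cancel] at h8
  linarith

end Pool.Agent.MP_943ae2_gt

end
end

section

open Set Complex Filter Finset
open scoped Topology ComplexConjugate ContDiff

noncomputable section

namespace Pool.Agent.MP_943ae2_gt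

variable {w : Wall} {n : ℕ} [NeZero n] {ρ ε : ℕ → ZMod n → ℝ} {P : ℝ}

theorem W4_drop (F : ℕ → ℝ) (h : F 0 = 0) : ∑ m ∈ range n, F m = ∑ m ∈ Ico 1 n, F m := by
  rw [range_eq_Ico, sum_eq_sum_Ico_succ_bot (Nat.pos_of_ne_zero (NeZero.ne n)), h, zero_add]

theorem W4_shift (T : ℕ → ℝ) (N : ℕ) (h0 : T 0 = 0) (hN : T (N - 1) = 0) :
    ∑ k ∈ Ico 1 N, T (k - 1) = ∑ k ∈ Ico 1 N, T k := by
  have H : ∀ M : ℕ, ∑ k ∈ Ico 1 (M + 1), T (k - 1) + T M = ∑ k ∈ Ico 1 (M + 1), T k + T 0 := by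
    intro M
    induction M with
    | zero => simp
    | succ M ih =>
      rw [sum_Ico_succ_top (by omega), sum_Ico_succ_top (a := 1) (b := M + 1) (by omega),
        Nat.add_sub_cancel]
      linarith
  cases N with
  | zero => simp
  | succ M =>
    have := H M
    rw [Nat.add_sub_cancel] at hN
    linarith

theorem W4_sum_left (K : ZMod n → ℝ) (i : ZMod n) : ∑ j, K (j - i) = ∑ d, K d :=
  Fintype.sum_equiv (Equiv.subRight i) _ _ fun _ => rfl

theorem W4_sum_right (K : ZMod n → ℝ) (j : ZMod n) : ∑ i, K (j - i) = ∑ d, K d :=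
  Fintype.sum_equiv (Equiv.subLeft j) _ _ fun _ => rfl

theorem W4_expand (K a b : ZMod n → ℝ) :
    ∑ i, ∑ j, K (j - i) * (b j - a i) ^ 2 = (∑ d, K d) * (∑ i, a i * a i) +
      (∑ d, K d) * (∑ j, b j * b j) - 2 * ∑ i, ∑ j, K (j - i) * a i * b j := by
  have h1 : ∑ i, ∑ j, K (j - i) * (a i * a i) = (∑ d, K d) * (∑ i, a i * a i) := by
    rw [mul_sum]
    exact sum_congr rfl fun i _ => by rw [← sum_mul, W4_sum_left]
  have h2 : ∑ i, ∑ j, K (j - i) * (b j * b j) = (∑ d, K d) * (∑ j, b j * b j) := by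
    rw [sum_comm, mul_sum]
    exact sum_congr rfl fun j _ => by rw [← sum_mul, W4_sum_right]
  rw [← h1, ← h2, mul_sum, ← sum_add_distrib, ← sum_sub_distrib]
  refine sum_congr rfl fun i _ => ?_
  rw [mul_sum, ← sum_add_distrib, ← sum_sub_distrib]
  exact sum_congr rfl fun j _ => by ring

theorem W4_normsq (z : ℂ) : (z * conj z).re = ‖z‖ ^ 2 := by
  rw [mul_conj, ofReal_re, normSq_eq_norm_sq]

theorem W4_cross (hρ : ∀ k, ∑ i, ρ k i = 0) (k : ℕ) :
    ∑ i, ∑ j, Wall.KK (w.p0 n (k + 1) j / w.p0 n k i) * (ρ (k + 1) j - ρ k i) ^ 2 =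
      (∑ m ∈ Ico 1 n, (n : ℝ) ^ 2 * (w.tk n k * (‖hat n ρ m k‖ ^ 2 + ‖hat n ρ m (k + 1)‖ ^ 2) -
        2 * w.Ak n m k * (hat n ρ m k * conj (hat n ρ m (k + 1))).re)) / n := by
  simp only [p0_div_cross]
  rw [W4_expand (fun d => Wall.KK ((Real.exp (-w.y n k / n) : ℝ) * (ze n * ZMod.stdAddChar d)))
    (ρ k) (ρ (k + 1)), conv_cross n ρ ρ (fun d => Wall.KK ((Real.exp (-w.y n k / n) : ℝ) *
      (ze n * ZMod.stdAddChar d))), parseval n ρ ρ k, parseval n ρ ρ (k + 1)]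
  have h0 : ∑ d : ZMod n, Wall.KK ((Real.exp (-w.y n k / n) : ℝ) * (ze n * ZMod.stdAddChar d)) =
      (n : ℝ) ^ 2 * w.tk n k := by
    have := K_cross n w k (Nat.zero_le n)
    simp only [pow_zero, mul_one] at this
    rw [← ofReal_sum, ofReal_inj] at this
    rw [this]
    simp [Wall.Ak]
  rw [h0, ← W4_drop _ (by simp [hat_zero n (hρ _)]), ← mul_div_assoc, ← mul_div_assoc,
    ← mul_div_assoc, ← add_div, ← sub_div, mul_sum, mul_sum, mul_sum, ← sum_add_distrib,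
    ← sum_sub_distrib]
  congr 1
  refine sum_congr rfl fun m hm => ?_
  rw [K_cross n w k (mem_range.1 hm).le, re_ofReal_mul, W4_normsq, W4_normsq]
  ring

theorem W4_same (k : ℕ) :
    ∑ i, ∑ j ∈ univ.erase i, Wall.KK (w.p0 n k j / w.p0 n k i) * (ρ k j - ρ k i) ^ 2 =
      (∑ m ∈ Ico 1 n, (n : ℝ) ^ 2 * (m / n * (1 - m / n) * ‖hat n ρ m k‖ ^ 2)) / n := by
  have hn : (n : ℝ) ≠ 0 := Nat.cast_ne_zero.2 (NeZero.ne n)
  have e : ∀ i, ∑ j ∈ univ.erase i, Wall.KK (w.p0 n k j / w.p0 n k i) * (ρ k j - ρ k i) ^ 2 =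
      ∑ j, Wall.KK (ZMod.stdAddChar (j - i)) * (ρ k j - ρ k i) ^ 2 := by
    intro i
    simp only [p0_div_same]
    exact sum_erase _ (by simp)
  simp only [e]
  rw [W4_expand (fun d => Wall.KK (ZMod.stdAddChar d)) (ρ k) (ρ k),
    conv_same n ρ ρ (fun d => Wall.KK (ZMod.stdAddChar d)),
    parseval n ρ ρ k, ← W4_drop _ (by simp), ← mul_div_assoc, ← mul_div_assoc,
    ← add_div, ← sub_div, mul_sum, mul_sum, ← sum_add_distrib, ← sum_sub_distrib]
  congr 1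
  refine sum_congr rfl fun m hm => ?_
  have h := K_same n (mem_range.1 hm).le
  rw [sum_erase _ (by simp)] at h
  simp only [mul_sub, mul_one, sum_sub_distrib] at h
  have h' : ∑ d : ZMod n, (Wall.KK (ZMod.stdAddChar d) : ℂ) * ZMod.stdAddChar d ^ m =
      ((∑ d : ZMod n, Wall.KK (ZMod.stdAddChar d) - m * (n - m) / 2 : ℝ) : ℂ) := by
    push_cast
    linear_combination -h
  rw [h', re_ofReal_mul, W4_normsq]
  field_simp
  ring

theorem Sq_modes (hρ : ∀ k, ∑ i, ρ k i = 0) :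
    w.Sq n ρ = (∑ m ∈ Ico 1 n, w.Sm n m (hat n ρ m)) / n := by
  unfold Wall.Sq Wall.Sm
  simp only [W4_cross hρ, W4_same, mul_sum]
  rw [sum_comm, sum_div]
  refine sum_congr rfl fun k _ => ?_
  rw [← mul_div_assoc, ← mul_div_assoc, ← sub_div, mul_sum, mul_sum, ← sum_sub_distrib]
  congr 1
  exact sum_congr rfl fun m _ => by ring

theorem W4_kap_inv {l : ℂ} (h0 : l ≠ 0) (h1 : l ≠ 1) : (kap l⁻¹).re = 1 - (kap l).re := by
  have h : kap l⁻¹ = 1 - kap l := by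
    have h2 : 1 - l ≠ 0 := sub_ne_zero.2 h1.symm
    have h3 : 1 - l⁻¹ ≠ 0 := sub_ne_zero.2 fun e => h1 (inv_eq_one.1 e.symm)
    unfold kap
    rw [div_eq_iff h3]
    field_simp
    ring
  rw [h, sub_re, one_re]

theorem W4_ne (k : ℕ) (d : ZMod n) :
    ((Real.exp (-w.y n k / n) : ℝ) : ℂ) * (ze n * ZMod.stdAddChar d) ≠ 0 ∧
      ((Real.exp (-w.y n k / n) : ℝ) : ℂ) * (ze n * ZMod.stdAddChar d) ≠ 1 := by
  have h : (((Real.exp (-w.y n k / n) : ℝ) : ℂ) * (ze n * ZMod.stdAddChar d)) ^ n =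
      ((-(Real.exp (-w.y n k / n)) ^ n : ℝ) : ℂ) := by
    rw [mul_pow, mul_pow, ze_pow, chi_pow]
    push_cast
    ring
  have hp : 0 < (Real.exp (-w.y n k / n)) ^ n := by positivity
  constructor
  · intro e
    rw [e, zero_pow (NeZero.ne n), eq_comm, ofReal_eq_zero] at h
    linarith
  · intro e
    rw [e, one_pow, eq_comm, ← ofReal_one, ofReal_inj] at h
    linarith

theorem W4_P (f g : ℕ → ZMod n → ℝ) (k : ℕ) (hf : ∑ i, f k i = 0) :
    ∑ i, ∑ j, (kap (w.p0 n (k + 1) j / w.p0 n k i)).re * f k i * g (k + 1) j =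
      (∑ m ∈ Ico 1 n, n * w.ph n m k / 2 * (hat n f m k * conj (hat n g m (k + 1))).re) / n := by
  simp only [p0_div_cross]
  rw [conv_cross n f g (fun d => (kap ((Real.exp (-w.y n k / n) : ℝ) *
    (ze n * ZMod.stdAddChar d))).re), W4_drop _ (by simp [hat_zero n hf])]
  congr 1
  refine sum_congr rfl fun m hm => ?_
  rw [P_cross n w k (mem_Ico.1 hm).1 (mem_Ico.1 hm).2, re_ofReal_mul]

theorem W4_re_comm (a b : ℂ) : (a * conj b).re = (b * conj a).re := by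
  simp only [mul_re, conj_re, conj_im]
  ring

theorem Xq_modes (hb : w.Bd n P) (hρ : ∀ k, ∑ i, ρ k i = 0) (hε : ∀ k, ∑ i, ε k i = 0)
    (hε0 : ∀ k i, (k = 0 ∨ w.N ≤ k) → ε k i = 0) :
    w.Xq n ε ρ = (∑ m ∈ Ico 1 n, w.Xm n m (hat n ρ m) (hat n ε m)) / n := by
  -- the contribution of the lower ring
  obtain ⟨T, hT⟩ : ∃ T : ℕ → ℝ, ∀ k, T k = 2 * w.c (k + 1) *
      ∑ j, ∑ i, (kap (w.p0 n (k + 1) i / w.p0 n k j)).re * ε k j * ρ (k + 1) i := ⟨_, fun _ => rfl⟩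
  have h1 : ∀ k i, 2 * ∑ j ∈ univ.erase i, ε k j * (kap (w.p0 n k j / w.p0 n k i)).re =
      -ε k i := by
    intro k i
    have : ∑ j ∈ univ.erase i, ε k j * (kap (w.p0 n k j / w.p0 n k i)).re =
        ∑ j ∈ univ.erase i, ε k j * (1 / 2) := sum_congr rfl fun j hj => by
      rw [p0_div_same, re_kap_chi n (sub_ne_zero.2 (ne_of_mem_erase hj))]
    rw [this, ← sum_mul, sum_erase_eq_sub (mem_univ i), hε k]
    ring
  have h3 : ∀ k i, ∑ j, ε k j * (kap (w.p0 n k j / w.p0 n (k + 1) i)).re =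
      -∑ j, ε k j * (kap (w.p0 n (k + 1) i / w.p0 n k j)).re := by
    intro k i
    have : ∀ j, ε k j * (kap (w.p0 n k j / w.p0 n (k + 1) i)).re =
        ε k j - ε k j * (kap (w.p0 n (k + 1) i / w.p0 n k j)).re := by
      intro j
      rw [← inv_div, W4_kap_inv (by rw [p0_div_cross]; exact (W4_ne k _).1)
        (by rw [p0_div_cross]; exact (W4_ne k _).2)]
      ring
    simp only [this]
    rw [sum_sub_distrib, hε k, zero_sub]
  have h4 : w.Xq n ε ρ = ∑ k ∈ Ico 1 w.N, (-2 * w.c k * ∑ i, ρ k i * ε k i - 2 * w.c k *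
      ∑ i, ∑ j, (kap (w.p0 n (k + 1) j / w.p0 n k i)).re * ρ k i * ε (k + 1) j + T (k - 1)) := by
    unfold Wall.Xq
    refine sum_congr rfl fun k hk => ?_
    obtain ⟨k, rfl⟩ : ∃ k', k = k' + 1 := ⟨k - 1, by have := (mem_Ico.1 hk).1; omega⟩
    rw [Nat.add_sub_cancel, hT, sum_comm (f := fun j i =>
      (kap (w.p0 n (k + 1) i / w.p0 n k j)).re * ε k j * ρ (k + 1) i), mul_sum, mul_sum, mul_sum,
      ← sum_sub_distrib, ← sum_add_distrib]
    refine sum_congr rfl fun i _ => ?_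
    rw [h1, h3]
    have e1 : ∑ j, (kap (w.p0 n (k + 1 + 1) j / w.p0 n (k + 1) i)).re * ρ (k + 1) i *
        ε (k + 1 + 1) j = ρ (k + 1) i * ∑ j, ε (k + 1 + 1) j *
          (kap (w.p0 n (k + 1 + 1) j / w.p0 n (k + 1) i)).re := by
      rw [mul_sum]
      exact sum_congr rfl fun j _ => by ring
    have e2 : ∑ j, (kap (w.p0 n (k + 1) i / w.p0 n k j)).re * ε k j * ρ (k + 1) i =
        ρ (k + 1) i * ∑ j, ε k j * (kap (w.p0 n (k + 1) i / w.p0 n k j)).re := by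
      rw [mul_sum]
      exact sum_congr rfl fun j _ => by ring
    rw [e1, e2]
    ring
  have h5 : ∑ k ∈ Ico 1 w.N, T (k - 1) = ∑ k ∈ Ico 1 w.N, T k := by
    refine W4_shift T _ ?_ ?_
    · simp [hT, hε0 0 _ (Or.inl rfl)]
    · rw [hT, hb.c_out _ (by omega)]
      simp
  rw [h4, sum_add_distrib, h5, ← sum_add_distrib]
  unfold Wall.Xm
  rw [sum_comm, sum_div]
  refine sum_congr rfl fun k _ => ?_
  rw [hT, W4_P ρ ε k (hρ k), W4_P ε ρ k (hε k), parseval n ρ ε k,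
    W4_drop _ (by simp [hat_zero n (hρ _)]), ← mul_div_assoc, ← mul_div_assoc, ← mul_div_assoc,
    ← sub_div, ← add_div, mul_sum, mul_sum, mul_sum, ← sum_sub_distrib, ← sum_add_distrib]
  congr 1
  refine sum_congr rfl fun m _ => ?_
  rw [W4_re_comm (hat n ε m k)]
  ring

theorem W4_cast {m : ℕ} (hm : m ≤ n) : ((n - m : ℕ) : ℝ) / n = 1 - m / n := by
  have hn : (n : ℝ) ≠ 0 := Nat.cast_ne_zero.2 (NeZero.ne n)
  rw [Nat.cast_sub hm, sub_div, div_self hn]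

theorem W4_Ak {m : ℕ} (hm : m ≤ n) (k : ℕ) : w.Ak n (n - m) k = -w.Ak n m k := by
  unfold Wall.Ak
  rw [W4_cast hm, sub_sub_cancel]
  ring

theorem W4_ph {m : ℕ} (hm : m ≤ n) (k : ℕ) : w.ph n (n - m) k = -w.ph n m k := by
  unfold Wall.ph
  rw [W4_cast hm, ← neg_div, ← Real.sinh_neg]
  congr 2
  ring

theorem W4_hat_norm (f : ℕ → ZMod n → ℝ) {m : ℕ} (hm : m ≤ n) (k : ℕ) :
    ‖hat n f (n - m) k‖ = ‖hat n f m k‖ := by
  rw [hat_symm n f hm]
  simp

theorem W4_hat_re (f g : ℕ → ZMod n → ℝ) {m : ℕ} (hm : m ≤ n) (k l : ℕ) :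
    (hat n f (n - m) k * conj (hat n g (n - m) l)).re =
      (-1) ^ (k + l) * (hat n f m k * conj (hat n g m l)).re := by
  rw [hat_symm n f hm, hat_symm n g hm]
  have : (-1) ^ k * conj (hat n f m k) * conj ((-1) ^ l * conj (hat n g m l)) =
      (((-1) ^ (k + l) : ℝ) : ℂ) * conj (hat n f m k * conj (hat n g m l)) := by
    simp only [map_mul, map_pow, map_neg, map_one]
    push_cast
    ring
  rw [this, re_ofReal_mul, conj_re]

theorem W4_even (k : ℕ) : (-1 : ℝ) ^ (k + k) = 1 := Even.neg_one_pow ⟨k, rfl⟩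

theorem W4_odd (k : ℕ) : (-1 : ℝ) ^ (k + (k + 1)) = -1 := Odd.neg_one_pow ⟨k, by ring⟩

theorem W4_odd' (k : ℕ) : (-1 : ℝ) ^ (k + 1 + k) = -1 := Odd.neg_one_pow ⟨k, by ring⟩

theorem Sm_symm (ρ : ℕ → ZMod n → ℝ) {m : ℕ} (hm : m ≤ n) :
    w.Sm n (n - m) (hat n ρ (n - m)) = w.Sm n m (hat n ρ m) := by
  unfold Wall.Sm
  congr 1
  refine sum_congr rfl fun k _ => ?_
  rw [W4_cast hm, W4_Ak hm, W4_hat_norm ρ hm, W4_hat_norm ρ hm, W4_hat_re ρ ρ hm, W4_odd]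
  ring

theorem Xm_symm (ρ ε : ℕ → ZMod n → ℝ) {m : ℕ} (hm : m ≤ n) :
    w.Xm n (n - m) (hat n ρ (n - m)) (hat n ε (n - m)) = w.Xm n m (hat n ρ m) (hat n ε m) := by
  unfold Wall.Xm
  refine sum_congr rfl fun k _ => ?_
  rw [W4_ph hm, W4_hat_re ρ ε hm, W4_hat_re ρ ε hm, W4_hat_re ρ ε hm, W4_odd, W4_odd', W4_even]
  ring

end Pool.Agent.MP_943ae2_gt

end
end
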