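import Pool.Agent.Mg.F943ae2.Gc30303
import Pool.Agent.Mg.F943ae2.Gbb4df3
import Pool.Agent.Mg.F943ae2.G3fd220

section

/-! Smooth minimum; the logarithmic potentials on the layers. -/

open Set Complex Filter Finset
open scoped Topology ComplexConjugate ContDiff

noncomputable section

namespace Pool.Agent.MP_943ae2_gt

def chi (x : ℝ) : ℝ :=
  ∫ s in (0:ℝ)..(x + (1 - ∫ s in (0:ℝ)..1, Real.smoothTransition s)), Real.smoothTransition s

def smin (δ a b : ℝ) : ℝ := a - δ * chi ((a - b) / δ)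

/-- sum of truncated logarithms -/
def lgs {n : ℕ} [NeZero n] (p : ZMod n → ℂ) (s : ℝ) (z : ℂ) : ℝ :=
  ∑ i, Real.log (max ‖z - p i‖ s)

def pj (j : ℕ) : ℝ := (23 / 100) ^ j

/-- total current through ring `k` of wall `j` -/
def Af (j k : ℕ) : ℝ :=
  if j = 0 then 0 else if k ≤ Lb j then k * pj j else if k ≤ NN j then (NN j - k) * pj j / 5 else 0

/-- coefficient on the lower sides of ring `k` -/
def al (j k : ℕ) : ℝ := Af j k / nn j

/-- coefficient on the upper sides of ring `k` -/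
def ap (j k : ℕ) : ℝ := if k = 0 then 0 else (Af j k + pj j / 100) / nn j

/-- coefficient at the origin on the local layer `i` -/
def po (j i : ℕ) : ℝ := if i ≤ Lb j then nn j * (al j i - ap j (i - 1)) else 0

def dl (ν : Nk) : ℝ := pj ν.j / 100 / nn ν.j

namespace Prm

variable (x : Prm)

def xr (j k : ℕ) : ℝ := x.lr j k - ell j

def h1 (j k : ℕ) : ℝ :=
  al j k * (Real.log (nn j) + (nn j - 1) * x.xr j k) -
    ap j (k - 1) * (nn j * x.xr j k + Real.log (1 + Real.exp (x.y j (k - 1)))) - po j k * x.xr j k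

def h2 (j k : ℕ) : ℝ :=
  -ap j k * (Real.log (nn j) + (nn j - 1) * x.xr j k) +
    al j (k + 1) * (nn j * x.xr j k + Real.log (1 + Real.exp (-x.y j k))) - po j (k + 1) * x.xr j k

def dV (j k : ℕ) : ℝ :=
  (ap j k + al j k) * (Real.log ((x.wall j).c k) - ell j) - x.h2 j k + x.h1 j k

def V1 : ℕ → ℝ
  | 0 => 100 * ell 0
  | j + 1 => V1 j + ∑ i ∈ Ico 1 (Lb j + 1), x.dV j i - 66 / 100 * pj j * ell j

def VV (j k : ℕ) : ℝ := x.V1 j + ∑ i ∈ Ico 1 k, x.dV j i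

/-- the potential adapted to wall `j` on its local layer `i` -/
def fl (j i : ℕ) (z : ℂ) : ℝ :=
  x.VV j i + wallSum (fun e => (if e.2 then -ap e.1.j e.1.k else al e.1.j e.1.k) *
    Real.log (‖z - x.dat.pos e‖ / rho j)) j i - po j i * Real.log (‖z‖ / rho j)

/-- the potential on layer `a` of block `j` -/
def fb (j a : ℕ) (z : ℂ) : ℝ :=
  if ‖z‖ ≤ 3 * rho j then x.fl j (Lb j + a) z
  else if rho (j + 1) / 3 ≤ ‖z‖ then x.fl (j + 1) a z
  else smin (pj j) (x.fl j (Lb j + a) z) (x.fl (j + 1) a z)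

def phi (l : ℕ) (z : ℂ) : ℝ :=
  if l = 0 then x.fl 0 1 z else x.fb (lev l) (l + 1 - bs (lev l + 1)) z

end Prm

end Pool.Agent.MP_943ae2_gt

end
end

section

open Set Complex Filter Finset
open scoped Topology ComplexConjugate ContDiff

noncomputable section

namespace Pool.Agent.MP_943ae2_gt

lemma Ring2_log {d e t : ℝ} (hd : 0 < d) (h : |e - d| ≤ t * d) (ht : t ≤ 1 / 2) :
    |Real.log e - Real.log d| ≤ 2 * t := by
  obtain ⟨h1, h2⟩ := abs_le.1 h
  have t0 : 0 ≤ t := nonneg_of_mul_nonneg_left ((abs_nonneg _).trans h) hd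
  have he : d / 2 ≤ e := by nlinarith
  have e0 : 0 < e := by linarith
  have a := Real.log_le_sub_one_of_pos (div_pos e0 hd)
  have b := Real.log_le_sub_one_of_pos (div_pos hd e0)
  rw [Real.log_div e0.ne' hd.ne'] at a
  rw [Real.log_div hd.ne' e0.ne'] at b
  have a' : e / d ≤ t + 1 := by rw [div_le_iff₀ hd]; linarith
  have b' : d / e ≤ 2 * t + 1 := by rw [div_le_iff₀ e0]; nlinarith
  exact abs_le.2 ⟨by linarith, by linarith⟩

lemma Ring2_prod (n : ℕ) [NeZero n] (k : ℕ) (r z : ℂ) (i : ZMod n) :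
    ∏ j, (z - r * un n k j) = z ^ n - (r * un n k i) ^ n := by
  rw [← prod_sub_chi, ← Equiv.prod_comp (Equiv.addLeft i)]
  exact Finset.prod_congr rfl fun j _ => by rw [Equiv.coe_addLeft, un_add, mul_assoc]

lemma Ring2_geom (n : ℕ) [NeZero n] (k : ℕ) (r z : ℂ) (i : ZMod n) :
    ∏ j ∈ univ.erase i, (z - r * un n k j) =
      ∑ a ∈ range n, z ^ a * (r * un n k i) ^ (n - 1 - a) := by
  refine congrFun (Continuous.ext_on (f := fun z => ∏ j ∈ univ.erase i, (z - r * un n k j))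
    (g := fun z => ∑ a ∈ range n, z ^ a * (r * un n k i) ^ (n - 1 - a))
    (dense_compl_singleton (r * un n k i)) (by fun_prop) (by fun_prop) fun z hz => ?_) z
  refine mul_right_cancel₀ (sub_ne_zero.2 hz) ?_
  rw [geom_sum₂_mul, ← Ring2_prod n k r z i]
  exact Finset.prod_erase_mul _ (fun j => z - r * un n k j) (Finset.mem_univ i)

lemma Ring2_deriv (n : ℕ) [NeZero n] (k : ℕ) (r z : ℂ) :
    ∑ i, ∏ j ∈ univ.erase i, (z - r * un n k j) = n * z ^ (n - 1) := by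
  have h1 := HasDerivAt.fun_finsetProd (u := univ) (x := z) (f := fun j z => z - r * un n k j)
    (f' := fun _ => 1) fun j _ => (hasDerivAt_id z).sub_const _
  have h2 := (hasDerivAt_pow n z).sub_const ((r * un n k 0) ^ n)
  simp only [Ring2_prod n k r _ 0, smul_eq_mul, mul_one] at h1
  exact h1.unique h2

lemma Ring2_big (n : ℕ) [NeZero n] (k : ℕ) (r z : ℂ) (i : ZMod n)
    (hi : ∀ j, ‖z - r * un n k i‖ ≤ ‖z - r * un n k j‖) :
    ‖z‖ ^ (n - 1) ≤ ∏ j ∈ univ.erase i, ‖z - r * un n k j‖ := by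
  have h := congrArg norm (Ring2_deriv n k r z)
  rw [norm_mul, norm_pow, Complex.norm_natCast] at h
  refine le_of_mul_le_mul_left ?_ (Ring1_pos n)
  rw [← h]
  refine (norm_sum_le _ _).trans ((Finset.sum_le_card_nsmul _ _ _ fun l _ => ?_).trans
    (by rw [Finset.card_univ, ZMod.card, nsmul_eq_mul]))
  rw [norm_prod]
  by_cases hl : l = i
  · rw [hl]
  rw [← Finset.mul_prod_erase _ _ (mem_erase.2 ⟨Ne.symm hl, Finset.mem_univ i⟩),
    ← Finset.mul_prod_erase _ _ (mem_erase.2 ⟨hl, Finset.mem_univ l⟩), Finset.erase_right_comm]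
  exact mul_le_mul_of_nonneg_right (hi l) (Finset.prod_nonneg fun _ _ => norm_nonneg _)

lemma Ring2_nq (n : ℕ) [NeZero n] (k : ℕ) {r : ℝ} (hr : 0 < r) (i : ZMod n) :
    ‖(r : ℂ) * un n k i‖ = r := by
  rw [norm_mul, norm_un, mul_one, Complex.norm_real, Real.norm_of_nonneg hr.le]

lemma Ring2_min (n : ℕ) [NeZero n] (k : ℕ) {r : ℝ} (hr : 0 < r) (z : ℂ) :
    ∃ i, (∀ j, ‖z - r * un n k i‖ ≤ ‖z - r * un n k j‖) ∧
      ∀ j ∈ univ.erase i, r / (2 * n) ≤ ‖z - r * un n k j‖ := by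
  obtain ⟨i, hi⟩ := Finite.exists_min fun j => ‖z - r * un n k j‖
  refine ⟨i, hi, fun j hj => ?_⟩
  have h1 := sep_same n k (mem_erase.1 hj).1
  have h2 : ‖(r : ℂ) * un n k i - r * un n k j‖ ≤ ‖z - r * un n k i‖ + ‖z - r * un n k j‖ := by
    rw [norm_sub_rev z]
    exact norm_sub_le_norm_sub_add_norm_sub _ _ _
  rw [← mul_sub, norm_mul, Complex.norm_real, Real.norm_of_nonneg hr.le] at h2
  have h3 := mul_le_mul_of_nonneg_left h1 hr.le
  have h4 : r * (4 / n) = 8 * (r / (2 * n)) := by ring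
  have h5 : 0 < r / (2 * n) := div_pos hr (mul_pos two_pos (Ring1_pos n))
  linarith [hi j]

variable {n : ℕ} [NeZero n] {p : ZMod n → ℂ} {k : ℕ} {r η s : ℝ} (hn : 10 ≤ n) (hr : 0 < r)
  (hp : ∀ i, ‖p i - r * un n k i‖ ≤ η * r) (hη : η * (n : ℝ) ^ 2 ≤ 1 / 100)
include hn hr hp hη

lemma Ring2_eta : 0 ≤ η ∧ η * n ≤ 1 / 1000 ∧ η * r ≤ r / (10 * n) := by
  have h0 : 0 ≤ η := nonneg_of_mul_nonneg_left ((norm_nonneg _).trans (hp 0)) hr
  have hn' : (10 : ℝ) ≤ n := by exact_mod_cast hn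
  have h1 : η * n ≤ 1 / 1000 := by nlinarith [mul_nonneg h0 (Ring1_pos n).le]
  refine ⟨h0, h1, ?_⟩
  rw [le_div_iff₀ (by positivity)]
  nlinarith

lemma Ring2_abs (z : ℂ) (i : ZMod n) : |‖z - p i‖ - ‖z - r * un n k i‖| ≤ η * r := by
  refine (abs_norm_sub_norm_le _ _).trans ?_
  rw [sub_sub_sub_cancel_left, norm_sub_rev]
  exact hp i

lemma Ring2_near {z : ℂ} {i : ZMod n} (h : r / (2 * n) ≤ ‖z - r * un n k i‖) :
    r / (4 * n) ≤ ‖z - p i‖ ∧
      |Real.log ‖z - p i‖ - Real.log ‖z - r * un n k i‖| ≤ 2 * (2 * (η * n)) := by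
  obtain ⟨h0, h1, h2⟩ := Ring2_eta hn hr hp hη
  have h3 := Ring2_abs hn hr hp hη z i
  have hn' := Ring1_pos n
  have h4 : 0 < r / n := div_pos hr hn'
  have e1 : r / (2 * n) = r / n / 2 := by ring
  have e2 : r / (4 * n) = r / n / 4 := by ring
  have e3 : r / (10 * n) = r / n / 10 := by ring
  refine ⟨by linarith [(abs_le.1 h3).1], Ring2_log (by linarith) (h3.trans ?_) (by linarith)⟩
  refine le_trans (le_of_eq ?_) (mul_le_mul_of_nonneg_left h (by positivity))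
  field_simp

lemma Ring2_sum {z : ℂ} {T : Finset (ZMod n)} (h : ∀ i ∈ T, r / (2 * n) ≤ ‖z - r * un n k i‖) :
    |∑ i ∈ T, Real.log ‖z - p i‖ - Real.log (∏ i ∈ T, ‖z - r * un n k i‖)| ≤ 1 := by
  have hn' := Ring1_pos n
  have h0 := (Ring2_eta hn hr hp hη).1
  rw [Real.log_prod fun i hi => (lt_of_lt_of_le (by positivity) (h i hi)).ne',
    ← Finset.sum_sub_distrib]
  refine (Finset.abs_sum_le_sum_abs _ _).trans ((Finset.sum_le_card_nsmul _ _ _
    fun i hi => (Ring2_near hn hr hp hη (h i hi)).2).trans ?_)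
  have h1 : (T.card : ℝ) ≤ n := by
    have := Finset.card_le_univ T
    rw [ZMod.card] at this
    exact_mod_cast this
  rw [nsmul_eq_mul]
  nlinarith [mul_le_mul_of_nonneg_right h1 (mul_nonneg h0 hn'.le)]

lemma Ring2_split (h2 : s ≤ r / (10 * n)) {z : ℂ} {i : ZMod n}
    (h : ∀ j ∈ univ.erase i, r / (2 * n) ≤ ‖z - r * un n k j‖) :
    lgs p s z = Real.log (max ‖z - p i‖ s) + ∑ j ∈ univ.erase i, Real.log ‖z - p j‖ := by
  rw [lgs, ← Finset.add_sum_erase _ _ (Finset.mem_univ i)]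
  congr 1
  refine Finset.sum_congr rfl fun j hj => ?_
  rw [max_eq_left (h2.trans (le_trans ?_ (Ring2_near hn hr hp hη (h j hj)).1))]
  have := Ring1_pos n
  gcongr
  norm_num

theorem lgs_up (h1 : 0 < s) (h2 : s ≤ r / (10 * n)) (z : ℂ) :
    lgs p s z ≤ n * Real.log (max ‖z‖ r) + 5 := by
  obtain ⟨i, -, hi⟩ := Ring2_min n k hr z
  have hn' := Ring1_pos n
  have a1 := (abs_le.1 (Ring2_sum hn hr hp hη hi)).2
  rw [Ring2_split hn hr hp hη h2 hi]
  set D := ∏ j ∈ univ.erase i, ‖z - r * un n k j‖ with hD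
  set M := max ‖z‖ r
  have M1 : ‖z‖ ≤ M := le_max_left _ _
  have M2 : r ≤ M := le_max_right _ _
  have M0 : 0 < M := hr.trans_le M2
  have D0 : 0 < D := Finset.prod_pos fun j hj => lt_of_lt_of_le (by positivity) (hi j hj)
  have b1 : D * ‖z - r * un n k i‖ ≤ 2 * M ^ n := by
    rw [hD, Finset.prod_erase_mul _ (fun j => ‖z - r * un n k j‖) (Finset.mem_univ i), ← norm_prod,
      Ring2_prod n k r z i]
    refine (norm_sub_le _ _).trans ?_
    rw [norm_pow, norm_pow, Ring2_nq n k hr, two_mul]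
    gcongr
  have b2 : D ≤ n * M ^ (n - 1) := by
    rw [hD, ← norm_prod, Ring2_geom]
    refine (norm_sum_le _ _).trans ((Finset.sum_le_card_nsmul _ _ (M ^ (n - 1))
      fun a ha => ?_).trans (by rw [Finset.card_range, nsmul_eq_mul]))
    have := Finset.mem_range.1 ha
    rw [norm_mul, norm_pow, norm_pow, Ring2_nq n k hr,
      show M ^ (n - 1) = M ^ a * M ^ (n - 1 - a) by rw [← pow_add]; congr 1; omega]
    gcongr
  have b3 : max ‖z - p i‖ s ≤ ‖z - r * un n k i‖ + r / (10 * n) :=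
    max_le (by linarith [(abs_le.1 (Ring2_abs hn hr hp hη z i)).2, (Ring2_eta hn hr hp hη).2.2])
      (by linarith [norm_nonneg (z - r * un n k i)])
  have b4 : n * M ^ (n - 1) * (r / (10 * n)) ≤ M ^ n := by
    rw [show M ^ n = M ^ (n - 1) * M by rw [← pow_succ]; congr 1; omega,
      show n * M ^ (n - 1) * (r / (10 * n)) = M ^ (n - 1) * (r / 10) by field_simp]
    gcongr
    linarith
  have b5 : max ‖z - p i‖ s * D ≤ 4 * M ^ n := by
    have c1 := mul_le_mul_of_nonneg_left b3 D0.le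
    have c2 := mul_le_mul_of_nonneg_right b2 (h1.le.trans h2)
    have c3 := pow_pos M0 n
    linarith
  have m0 : 0 < max ‖z - p i‖ s := h1.trans_le (le_max_right _ _)
  have b6 := Real.log_le_log (mul_pos m0 D0) b5
  rw [Real.log_mul m0.ne' D0.ne', Real.log_mul (by norm_num) (pow_pos M0 n).ne', Real.log_pow] at b6
  linarith [Real.log_le_sub_one_of_pos (show (0 : ℝ) < 4 by norm_num)]

theorem log_mid {z : ℂ} (hz : ‖z‖ ≤ r * Real.exp (-1 / n) ∨ r * Real.exp (1 / n) ≤ ‖z‖) :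
    (∀ i, r / (4 * n) ≤ ‖z - p i‖) ∧
      |∑ i, Real.log ‖z - p i‖ - n * Real.log (max ‖z‖ r)| ≤ 5 := by
  have hn' := Ring1_pos n
  have hn1 : (10 : ℝ) ≤ n := by exact_mod_cast hn
  have x0 : (0 : ℝ) < 1 / n := by positivity
  have x1 : (1 : ℝ) / n ≤ 1 := by rw [div_le_one hn']; linarith
  have e0 := Real.add_one_le_exp (1 / (n : ℝ))
  have e1 : Real.exp (-1 / n) ≤ 1 - 1 / n / 2 := by
    rw [neg_div, Real.exp_neg, inv_le_iff_one_le_mul₀ (Real.exp_pos _)]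
    nlinarith
  have e2 : Real.exp (1 / n) ^ n = Real.exp 1 := by
    rw [← Real.exp_nat_mul, mul_one_div_cancel hn'.ne']
  have e3 : Real.exp (-1 / n) ^ n = (Real.exp 1)⁻¹ := by
    rw [neg_div, Real.exp_neg, inv_pow, e2]
  have e4 : 2 ≤ Real.exp 1 := by linarith [Real.add_one_le_exp 1]
  have e5 : (Real.exp 1)⁻¹ ≤ 2⁻¹ := inv_anti₀ two_pos e4
  have e6 : r / (2 * n) = r * (1 / n / 2) := by ring
  have hq : ∀ i ∈ Finset.univ, r / (2 * n) ≤ ‖z - r * un n k i‖ := fun i _ => by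
    have := abs_le.1 (abs_norm_sub_norm_le z (r * un n k i))
    rw [Ring2_nq n k hr] at this
    rcases hz with hz | hz <;> nlinarith
  refine ⟨fun i => (Ring2_near hn hr hp hη (hq i (Finset.mem_univ i))).1, ?_⟩
  have a1 := abs_le.1 (Ring2_sum hn hr hp hη hq)
  rw [← norm_prod, Ring2_prod n k r z 0] at a1
  have a2 := abs_le.1 (abs_norm_sub_norm_le (z ^ n) ((r * un n k 0) ^ n))
  have a3 := norm_sub_le (z ^ n) ((r * un n k 0) ^ n)
  rw [norm_pow, norm_pow, Ring2_nq n k hr] at a2 a3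
  have r0 := pow_pos hr n
  have key : max ‖z‖ r ^ n / 2 ≤ ‖z ^ n - (r * un n k 0) ^ n‖ ∧
      ‖z ^ n - (r * un n k 0) ^ n‖ ≤ max ‖z‖ r ^ n * 2 := by
    rcases hz with hz | hz
    · have := pow_le_pow_left₀ (norm_nonneg _) hz n
      rw [mul_pow, e3] at this
      rw [max_eq_right (by nlinarith)]
      constructor <;> nlinarith
    · have := pow_le_pow_left₀ (by positivity) hz n
      rw [mul_pow, e2] at this
      rw [max_eq_left (by nlinarith)]
      constructor <;> nlinarith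
  have M0 : 0 < max ‖z‖ r ^ n := pow_pos (hr.trans_le (le_max_right _ _)) n
  have b1 := Real.log_le_log (by positivity) key.1
  have b2 := Real.log_le_log (lt_of_lt_of_le (by positivity) key.1) key.2
  rw [Real.log_div M0.ne' two_ne_zero, Real.log_pow] at b1
  rw [Real.log_mul M0.ne' two_ne_zero, Real.log_pow] at b2
  have := Real.log_le_sub_one_of_pos two_pos
  exact abs_le.2 ⟨by linarith, by linarith⟩

theorem lgs_lo (h1 : 0 < s) (h2 : s ≤ r / (10 * n)) (z : ℂ) :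
    n * Real.log (max ‖z‖ r) - Real.log (r / s) - 5 ≤ lgs p s z := by
  have hn' := Ring1_pos n
  have hn1 : (10 : ℝ) ≤ n := by exact_mod_cast hn
  by_cases hz : ‖z‖ ≤ r * Real.exp (-1 / n) ∨ r * Real.exp (1 / n) ≤ ‖z‖
  · obtain ⟨a1, a2⟩ := log_mid hn hr hp hη hz
    have a3 : 0 ≤ Real.log (r / s) := Real.log_nonneg ((one_le_div h1).2
      (h2.trans (div_le_self hr.le (by linarith))))
    have a4 : ∑ i, Real.log ‖z - p i‖ ≤ lgs p s z := Finset.sum_le_sum fun i _ =>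
      Real.log_le_log (lt_of_lt_of_le (by positivity) (a1 i)) (le_max_left _ _)
    linarith [(abs_le.1 a2).1]
  obtain ⟨z1, z2⟩ := not_or.1 hz
  rw [not_le] at z1 z2
  obtain ⟨i, hi0, hi⟩ := Ring2_min n k hr z
  have a1 := (abs_le.1 (Ring2_sum hn hr hp hη hi)).1
  rw [Ring2_split hn hr hp hη h2 hi, Real.log_div hr.ne' h1.ne']
  have z0 : 0 < ‖z‖ := lt_trans (by positivity) z1
  have b1 := Real.log_le_log (pow_pos z0 _) (Ring2_big n k r z i hi0)
  have b2 := Real.log_le_log (by positivity) z1.le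
  have b3 : Real.log (max ‖z‖ r) ≤ Real.log (r * Real.exp (1 / n)) :=
    Real.log_le_log (hr.trans_le (le_max_right _ _)) (max_le z2.le
      (le_mul_of_one_le_right hr.le (Real.one_le_exp (by positivity))))
  have b4 := Real.log_le_log h1 (le_max_right ‖z - p i‖ s)
  rw [Real.log_mul hr.ne' (Real.exp_pos _).ne', Real.log_exp] at b2 b3
  rw [Real.log_pow, Nat.cast_pred (NeZero.pos n)] at b1
  have c1 := mul_le_mul_of_nonneg_left b2 (show (0 : ℝ) ≤ n - 1 by linarith)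
  have c2 := mul_le_mul_of_nonneg_left b3 hn'.le
  have c3 : (n : ℝ) * (1 / n) = 1 := mul_one_div_cancel hn'.ne'
  have c4 : (-1 : ℝ) / n = -(1 / n) := neg_div _ _
  have c5 : (0 : ℝ) < 1 / n := by positivity
  rw [c4] at c1
  nlinarith

theorem log_term (h1 : 0 < s) (h2 : s ≤ r) (z : ℂ) (i : ZMod n) :
    |Real.log (max ‖z - p i‖ s) - Real.log (max ‖z‖ r)| ≤ Real.log (r / s) + 2 := by
  have hn1 : (10 : ℝ) ≤ n := by exact_mod_cast hn
  have a1 := abs_le.1 (Ring2_abs hn hr hp hη z i)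
  have a2 : η * r ≤ r := (Ring2_eta hn hr hp hη).2.2.trans (div_le_self hr.le (by linarith))
  have a3 := abs_le.1 (abs_norm_sub_norm_le z (r * un n k i))
  have a4 := norm_sub_le z (r * un n k i)
  rw [Ring2_nq n k hr] at a3 a4
  have a5 : 0 ≤ Real.log (r / s) := Real.log_nonneg ((one_le_div h1).2 h2)
  have M1 := le_max_left ‖z‖ r
  have M2 := le_max_right ‖z‖ r
  have m1 := le_max_left ‖z - p i‖ s
  have m2 := le_max_right ‖z - p i‖ s
  have M0 := hr.trans_le M2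
  have m0 := h1.trans_le m2
  have b1 : max ‖z - p i‖ s ≤ 2 ^ 2 * max ‖z‖ r := max_le (by linarith) (by linarith)
  have b2 : max ‖z‖ r ≤ 2 ^ 2 * (r / s * max ‖z - p i‖ s) := by
    have c1 : r ≤ r / s * max ‖z - p i‖ s := by
      rw [div_mul_eq_mul_div, le_div_iff₀ h1]
      gcongr
    have c2 : max ‖z - p i‖ s ≤ r / s * max ‖z - p i‖ s :=
      le_mul_of_one_le_left m0.le ((one_le_div h1).2 h2)
    exact max_le (by linarith) (by linarith)
  have d1 := Real.log_le_log m0 b1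
  have d2 := Real.log_le_log M0 b2
  rw [Real.log_mul (by norm_num) M0.ne', Real.log_pow] at d1
  rw [Real.log_mul (by norm_num) (by positivity), Real.log_mul (by positivity) m0.ne',
    Real.log_pow] at d2
  have := Real.log_le_sub_one_of_pos two_pos
  push_cast at d1 d2
  exact abs_le.2 ⟨by linarith, by linarith⟩

end Pool.Agent.MP_943ae2_gt

end
end

section

open Set Complex Filter
open scoped Topology ComplexConjugate ContDiff

noncomputable section

namespace Pool.Agent.MP_943ae2_gt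

/-- the shift in the definition of `chi` -/
def sup1c : ℝ := 1 - ∫ s in (0:ℝ)..1, Real.smoothTransition s

theorem sup1_int (a b : ℝ) :
    IntervalIntegrable Real.smoothTransition MeasureTheory.volume a b :=
  Real.smoothTransition.continuous.intervalIntegrable a b

theorem sup1_le {t : ℝ} (ht : 0 ≤ t) : ∫ s in (0:ℝ)..t, Real.smoothTransition s ≤ t := by
  have := intervalIntegral.integral_mono_on ht (sup1_int 0 t)
    (intervalIntegrable_const (c := (1:ℝ))) fun s _ => Real.smoothTransition.le_one s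
  simpa using this

theorem sup1c_nonneg : 0 ≤ sup1c := sub_nonneg.2 (sup1_le zero_le_one)

theorem sup1c_le : sup1c ≤ 1 :=
  sub_le_self _ (intervalIntegral.integral_nonneg zero_le_one fun s _ =>
    Real.smoothTransition.nonneg s)

theorem sup1_chi (x : ℝ) : chi x = ∫ s in (0:ℝ)..(x + sup1c), Real.smoothTransition s := rfl

theorem sup1_zero {x : ℝ} (h : x + sup1c ≤ 0) : chi x = 0 := by
  rw [sup1_chi, intervalIntegral.integral_congr (g := fun _ => 0)]
  · simp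
  · intro s hs
    rw [uIcc_of_ge h] at hs
    exact Real.smoothTransition.zero_of_nonpos hs.2

theorem sup1_id {x : ℝ} (h : 1 ≤ x) : chi x = x := by
  have h1 : 1 ≤ x + sup1c := by linarith [sup1c_nonneg]
  rw [sup1_chi, ← intervalIntegral.integral_add_adjacent_intervals (sup1_int 0 1) (sup1_int 1 _),
    intervalIntegral.integral_congr (a := 1) (g := fun _ => 1)]
  · simp [sup1c]
    ring
  · intro s hs
    rw [uIcc_of_le h1] at hs
    exact Real.smoothTransition.one_of_one_le hs.1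

theorem sup1_ub (x : ℝ) : chi x ≤ max x 0 + 1 := by
  rcases le_total (x + sup1c) 0 with h | h
  · rw [sup1_zero h]
    linarith [le_max_right x 0]
  · rw [sup1_chi]
    linarith [sup1_le h, le_max_left x 0, sup1c_le]

theorem sup1_deriv (x : ℝ) : HasDerivAt chi (Real.smoothTransition (x + sup1c)) x := by
  have h1 := (Real.smoothTransition.continuous.integral_hasStrictDerivAt 0 (x + sup1c)).hasDerivAt
  exact h1.comp_add_const x sup1c

theorem sup1_smooth : ContDiff ℝ ∞ chi := by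
  rw [contDiff_infty_iff_deriv]
  refine ⟨fun x => (sup1_deriv x).differentiableAt, ?_⟩
  have : deriv chi = fun x => Real.smoothTransition (x + sup1c) :=
    funext fun x => (sup1_deriv x).deriv
  rw [this]
  exact Real.smoothTransition.contDiff.comp (contDiff_id.add contDiff_const)

theorem smin_left {δ a b : ℝ} (hδ : 0 < δ) (h : a + δ ≤ b) : smin δ a b = a := by
  have h1 : (a - b) / δ ≤ -1 := by rw [div_le_iff₀ hδ]; linarith
  rw [smin, sup1_zero (by linarith [sup1c_le])]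
  simp

theorem smin_right {δ a b : ℝ} (hδ : 0 < δ) (h : b + δ ≤ a) : smin δ a b = b := by
  have h1 : 1 ≤ (a - b) / δ := by rw [le_div_iff₀ hδ]; linarith
  rw [smin, sup1_id h1]
  field_simp
  ring

theorem smin_ge {δ a b : ℝ} (hδ : 0 < δ) : min a b - δ ≤ smin δ a b := by
  have h1 := mul_le_mul_of_nonneg_left (sup1_ub ((a - b) / δ)) hδ.le
  rw [mul_add, mul_max_of_nonneg _ _ hδ.le, mul_zero, mul_div_cancel₀ _ hδ.ne', mul_one] at h1
  rw [smin]
  rcases le_total a b with h | h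
  · rw [max_eq_right (by linarith)] at h1
    rw [min_eq_left h]
    linarith
  · rw [max_eq_left (by linarith)] at h1
    rw [min_eq_right h]
    linarith

theorem sup1_second {φ φ₁ : ℝ → ℝ} {φ₂ : ℝ} {w : ℂ → ℝ} {z : ℂ} (hw : ContDiffAt ℝ 2 w z)
    (h1 : ∀ t, HasDerivAt φ (φ₁ t) t) (h2 : HasDerivAt φ₁ φ₂ (w z)) (v : ℂ) :
    fderiv ℝ (fderiv ℝ fun y => φ (w y)) z v v =
      φ₁ (w z) * fderiv ℝ (fderiv ℝ w) z v v + φ₂ * (fderiv ℝ w z v) ^ 2 := by
  have e1 : (fderiv ℝ fun y => φ (w y)) =ᶠ[𝓝 z] fun y => φ₁ (w y) • fderiv ℝ w y := by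
    filter_upwards [hw.eventually (by simp)] with y hy
    exact ((h1 (w y)).comp_hasFDerivAt y (hy.differentiableAt (by simp)).hasFDerivAt).fderiv
  have d1 : HasFDerivAt w (fderiv ℝ w z) z := (hw.differentiableAt (by simp)).hasFDerivAt
  have d2 : HasFDerivAt (fderiv ℝ w) (fderiv ℝ (fderiv ℝ w) z) z :=
    ((hw.fderiv_right (m := 1) (by norm_num)).differentiableAt (by simp)).hasFDerivAt
  have d3 := (h2.comp_hasFDerivAt z d1).smul d2
  rw [e1.fderiv_eq]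
  have e2 : (fun y => φ₁ (w y) • fderiv ℝ w y) = (φ₁ ∘ w) • fderiv ℝ w := rfl
  rw [e2, d3.fderiv]
  simp
  ring

theorem sup1_lap {φ φ₁ : ℝ → ℝ} {φ₂ : ℝ} {w : ℂ → ℝ} {z : ℂ} (hw : ContDiffAt ℝ 2 w z)
    (h1 : ∀ t, HasDerivAt φ (φ₁ t) t) (h2 : HasDerivAt φ₁ φ₂ (w z)) :
    Laplacian.laplacian (fun y => φ (w y)) z = φ₁ (w z) * Laplacian.laplacian w z +
      φ₂ * ((fderiv ℝ w z 1) ^ 2 + (fderiv ℝ w z I) ^ 2) := by
  simp only [InnerProductSpace.laplacian_eq_iteratedFDeriv_complexPlane, iteratedFDeriv_two_apply,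
    Matrix.cons_val_zero, Matrix.cons_val_one, sup1_second hw h1 h2]
  ring

theorem smin_sup {δ : ℝ} (hδ : 0 < δ) {f g : ℂ → ℝ} {z : ℂ} (hf : SupOn f {z}) (hg : SupOn g {z}) :
    SupOn (fun y => smin δ (f y) (g y)) {z} := by
  intro y hy
  rw [mem_singleton_iff] at hy
  subst hy
  obtain ⟨f1, f2⟩ := hf y rfl
  obtain ⟨g1, g2⟩ := hg y rfl
  have hle : (2 : WithTop ℕ∞) ≤ ∞ := WithTop.coe_le_coe.2 (le_top : (2 : ℕ∞) ≤ ⊤)
  have w1 : ContDiffAt ℝ ∞ (δ⁻¹ • (f - g)) y := (f1.sub g1).const_smul δ⁻¹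
  have c1 : ContDiffAt ℝ ∞ (fun x => chi ((δ⁻¹ • (f - g)) x)) y :=
    sup1_smooth.contDiffAt.comp y w1
  have e : (fun y => smin δ (f y) (g y)) = f - δ • fun x => chi ((δ⁻¹ • (f - g)) x) := by
    funext x
    simp [smin, div_eq_inv_mul]
  rw [e]
  refine ⟨f1.sub (c1.const_smul δ), ?_⟩
  have s1 : Differentiable ℝ fun t => Real.smoothTransition (t + sup1c) :=
    ((Real.smoothTransition.contDiff (n := 1)).differentiable (by simp)).comp
      (differentiable_id.add_const _)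
  have s2 : Monotone fun t => Real.smoothTransition (t + sup1c) := fun a b h =>
    Real.smoothTransition.monotone (by linarith)
  have c2 : ContDiffAt ℝ 2 (δ • fun x => chi ((δ⁻¹ • (f - g)) x)) y := (c1.of_le hle).const_smul δ
  have w2 : ContDiffAt ℝ 2 (f - g) y := (f1.sub g1).of_le hle
  rw [(f1.of_le hle).laplacian_sub c2,
    InnerProductSpace.laplacian_smul δ (c1.of_le hle),
    sup1_lap (w1.of_le hle) sup1_deriv (s1 _).hasDerivAt,
    InnerProductSpace.laplacian_smul δ⁻¹ w2,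
    (f1.of_le hle).laplacian_sub (g1.of_le hle)]
  have p0 := Real.smoothTransition.nonneg ((δ⁻¹ • (f - g)) y + sup1c)
  have p1 := Real.smoothTransition.le_one ((δ⁻¹ • (f - g)) y + sup1c)
  have p2 := s2.deriv_nonneg (x := (δ⁻¹ • (f - g)) y)
  generalize Real.smoothTransition ((δ⁻¹ • (f - g)) y + sup1c) = p at *
  generalize deriv (fun t => Real.smoothTransition (t + sup1c)) ((δ⁻¹ • (f - g)) y) = q at *
  generalize Laplacian.laplacian f y = A at *
  generalize Laplacian.laplacian g y = B at *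
  have p3 : 0 ≤ δ * (q * ((fderiv ℝ (δ⁻¹ • (f - g)) y 1) ^ 2 +
      (fderiv ℝ (δ⁻¹ • (f - g)) y I) ^ 2)) := by positivity
  simp only [smul_eq_mul]
  have e2 : δ * (p * (δ⁻¹ * (A - B))) = p * (A - B) := by field_simp
  rw [mul_add, e2]
  nlinarith [mul_nonneg p0 (neg_nonneg.2 g2), mul_nonneg (sub_nonneg.2 p1) (neg_nonneg.2 f2)]

theorem supOn_of_harm {f : ℂ → ℝ} {z : ℂ} (hf : InnerProductSpace.HarmonicAt f z) : SupOn f {z} := by
  intro y hy
  rw [mem_singleton_iff] at hy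
  subst hy
  exact ⟨(HarmonicAt.analyticAt hf).contDiffAt, hf.2.eq_of_nhds.le⟩

theorem supOn_congr {f g : ℂ → ℝ} {z : ℂ} (hf : SupOn f {z}) (h : g =ᶠ[𝓝 z] f) : SupOn g {z} := by
  intro y hy
  rw [mem_singleton_iff] at hy
  subst hy
  obtain ⟨f1, f2⟩ := hf y rfl
  exact ⟨f1.congr_of_eventuallyEq h,
    (InnerProductSpace.laplacian_congr_nhds h).eq_of_nhds.le.trans f2⟩

theorem harm_comp_conj {f : ℂ → ℝ} {G : ℂ → ℂ} {z : ℂ} (hG : AnalyticAt ℂ G z)
    (hf : InnerProductSpace.HarmonicAt f (conj (G z))) :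
    InnerProductSpace.HarmonicAt (fun y => f (conj (G y))) z := by
  obtain ⟨ε, hε, h1⟩ := Metric.eventually_nhds_iff_ball.1 hf.eventually
  obtain ⟨F, hF, h2⟩ := InnerProductSpace.HarmonicOnNhd.exists_analyticOnNhd_ball_re_eq h1
  have hc : ∀ᶠ u in 𝓝 (G z), conj u ∈ Metric.ball (conj (G z)) ε :=
    continuous_conj.continuousAt.eventually (Metric.ball_mem_nhds _ hε)
  have h3 : AnalyticAt ℂ (conj ∘ F ∘ conj) (G z) := by
    rw [analyticAt_iff_eventually_differentiableAt]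
    filter_upwards [hc] with u hu
    exact differentiableAt_conj_conj_iff.2 (hF _ hu).differentiableAt
  refine (InnerProductSpace.harmonicAt_congr_nhds ?_).1 (h3.comp hG).harmonicAt_re
  filter_upwards [hG.continuousAt.eventually hc] with y hy
  simpa using h2 hy

end Pool.Agent.MP_943ae2_gt

end
end

section

open Set Complex Filter Finset
open scoped Topology ComplexConjugate ContDiff

noncomputable section

namespace Pool.Agent.MP_943ae2_gt

/-- truncated logarithmic potential of the lower or upper sides of a ring -/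
def Prm.G (x : Prm) (s : Bool) (j k : ℕ) (z : ℂ) : ℝ :=
  ringSum (fun e => (if e.2 then 1 else -1) * (frm.rab x.dat e).re *
    Real.log (max ‖z - x.dat.pos e‖ (frm.Rs e))) s j k

/-- contribution of wall `j` to the gap at its ring `k` -/
def Prm.Br (x : Prm) (j k : ℕ) (z : ℂ) : ℝ :=
  x.G true j k z + x.G false j k z - x.G false j (k + 1) z - x.G true j (k - 1) z

def mx (j : ℕ) (z : ℂ) : ℝ := Real.log (max ‖z‖ (rho j))

lemma Gap0_out (x : Prm) (s : Bool) {j k : ℕ} (h : k = 0 ∨ NN j ≤ k) (z : ℂ) : x.G s j k z = 0 := by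
  unfold Prm.G ringSum
  rw [dif_neg (by omega)]

lemma Gap0_wall (x : Prm) (j i : ℕ) (z : ℂ) :
    wallSum (fun e => (frm.rab x.dat e).re * Real.log (max ‖z - x.dat.pos e‖ (frm.Rs e))) j i =
      x.G true j (i - 1) z - x.G false j i z := by
  unfold wallSum Prm.G ringSum
  rw [add_comm, sub_eq_add_neg]
  congr 1
  · split_ifs <;> simp
  · split_ifs <;> simp

lemma Gap0_block (x : Prm) (C : ℕ → ℝ) {j a l : ℕ} (h1 : 1 ≤ a) (h2 : a ≤ Mt j)
    (hl : l = bs (j + 1) + a - 1) (z : ℂ) :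
    frm.Ut x.dat C l z = C l +
      ((x.G true j (Lb j + a - 1) z - x.G false j (Lb j + a) z) +
        (x.G true (j + 1) (a - 1) z - x.G false (j + 1) a z)) := by
  subst hl
  unfold Frm.Ut
  rw [sum_sides_block _ h1 h2, Gap0_wall, Gap0_wall]

theorem Ut_zero (x : Prm) (C : ℕ → ℝ) (z : ℂ) : frm.Ut x.dat C 0 z = C 0 - x.G false 0 1 z := by
  unfold Frm.Ut
  rw [sum_sides_zero, Gap0_wall, Gap0_out x true (Or.inl rfl)]
  ring

theorem gap_zero (x : Prm) (C : ℕ → ℝ) (z : ℂ) :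
    frm.Ut x.dat C 1 z - frm.Ut x.dat C 0 z = C 1 - C 0 + x.Br 0 1 z + x.Br 1 0 z := by
  rw [Ut_zero, Gap0_block x C (j := 0) (a := 1) (l := 1) le_rfl le_rfl rfl]
  unfold Prm.Br
  simp only [Lb_zero, Nat.reduceAdd, Nat.add_one_sub_one, Nat.zero_sub, Nat.sub_self, zero_add]
  rw [Gap0_out x true (j := 0) (k := 0) (Or.inl rfl), Gap0_out x true (j := 1) (k := 0) (Or.inl rfl),
    Gap0_out x false (j := 1) (k := 0) (Or.inl rfl)]
  ring

theorem gap_int (x : Prm) (C : ℕ → ℝ) {j a : ℕ} (h1 : 1 ≤ a) (h2 : a < Mt j) (z : ℂ) :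
    frm.Ut x.dat C (bs (j + 1) + a) z - frm.Ut x.dat C (bs (j + 1) + a - 1) z =
      C (bs (j + 1) + a) - C (bs (j + 1) + a - 1) + x.Br j (Lb j + a) z + x.Br (j + 1) a z := by
  rw [Gap0_block x C (j := j) (a := a + 1) (l := bs (j + 1) + a) (by omega) h2 (by omega),
    Gap0_block x C h1 h2.le rfl]
  unfold Prm.Br
  rw [show Lb j + (a + 1) - 1 = Lb j + a by omega, show Lb j + (a + 1) = Lb j + a + 1 by omega,
    show a + 1 - 1 = a by omega]
  ring

theorem gap_face (x : Prm) (C : ℕ → ℝ) (j : ℕ) (z : ℂ) :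
    frm.Ut x.dat C (bs (j + 2)) z - frm.Ut x.dat C (bs (j + 2) - 1) z =
      C (bs (j + 2)) - C (bs (j + 2) - 1) + x.Br j (NN j) z + x.Br (j + 1) (Lb (j + 1)) z +
        x.Br (j + 2) 0 z := by
  have hb : bs (j + 2) = bs (j + 1) + Mt j := rfl
  rw [Gap0_block x C (j := j + 1) (a := 1) (l := bs (j + 2)) le_rfl (Mt_pos _) rfl,
    Gap0_block x C (j := j) (a := Mt j) (l := bs (j + 2) - 1) (Mt_pos _) le_rfl (by rw [hb])]
  unfold Prm.Br
  rw [show Lb j + Mt j = NN j from rfl, Lb_succ, show Mt j + 1 - 1 = Mt j by omega,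
    show j + 1 + 1 = j + 2 from rfl]
  simp only [Nat.sub_self, Nat.zero_sub, zero_add]
  rw [Gap0_out x true (j := j + 2) (k := 0) (Or.inl rfl),
    Gap0_out x false (j := j + 2) (k := 0) (Or.inl rfl),
    Gap0_out x true (j := j) (k := NN j) (Or.inr le_rfl),
    Gap0_out x false (j := j) (k := NN j + 1) (Or.inr (Nat.le_succ _))]
  ring

lemma Gap0_log {a b η : ℝ} (hb : 0 < b) (hη : η ≤ 1 / 2) (h : |a - b| ≤ η * b) :
    |Real.log a - Real.log b| ≤ 2 * η := by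
  obtain ⟨h1, h2⟩ := abs_le.1 h
  have h0 : 0 ≤ η * b := (abs_nonneg _).trans h
  have hη0 : 0 ≤ η := nonneg_of_mul_nonneg_left h0 hb
  have h3 : η * b ≤ 1 / 2 * b := mul_le_mul_of_nonneg_right hη hb.le
  have ha : 0 < a := by linarith
  rw [abs_le]
  constructor
  · have h4 := Real.log_le_sub_one_of_pos (div_pos hb ha)
    rw [Real.log_div hb.ne' ha.ne'] at h4
    have h5 : b / a ≤ 1 + 2 * η := by
      rw [div_le_iff₀ ha]
      nlinarith
    linarith
  · have h4 := Real.log_le_sub_one_of_pos (div_pos ha hb)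
    rw [Real.log_div ha.ne' hb.ne'] at h4
    have h5 : a / b ≤ 1 + η := by
      rw [div_le_iff₀ hb]
      linarith
    linarith

lemma Gap0_PP2 (j : ℕ) : PP j * tt j ≤ 1 / 1000 := by
  have h1 := admM_pow_tt j (m := 2) (by norm_num)
  have h2 := Mac2_PP_one j
  have h3 := tt_pos j
  have h4 : 1000 * (PP j * tt j) ≤ PP j * (PP j * tt j) :=
    mul_le_mul_of_nonneg_right h2 (by positivity)
  nlinarith

namespace InK

variable {x : Prm} (hx : InK x)
include hx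

lemma Gap0_key (s : Bool) (j k : ℕ) (z : ℂ) {L δ : ℝ} (hδ : 0 ≤ δ)
    (h : ∀ i h1 h2, |Real.log (max ‖z - x.dat.pos (⟨j, k, i, h1, h2⟩, s)‖ ((tt j)⁻¹ ^ 12)) - L| ≤ δ) :
    |x.G s j k z - x.w j k * L| ≤ tt j ^ 28 * |L| + PP j * δ := by
  have ht := tt_pos j
  have hP := admM_PP_pos j
  by_cases hk : 1 ≤ k ∧ k < NN j
  · have hn : (nn j : ℝ) * tt j ^ 29 ≤ tt j ^ 28 := by
      have h1 := Mac2_nn_le j
      have h2 := admM_PP_tt j
      have h3 : (nn j : ℝ) * tt j ≤ 1 := (mul_le_mul_of_nonneg_right h1 ht.le).trans h2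
      calc (nn j : ℝ) * tt j ^ 29 = (nn j * tt j) * tt j ^ 28 := by ring
        _ ≤ 1 * tt j ^ 28 := mul_le_mul_of_nonneg_right h3 (by positivity)
        _ = _ := one_mul _
    have h28 : tt j ^ 28 ≤ 1 := pow_le_one₀ ht.le (admM_tt_one j)
    have hw : x.w j k + tt j ^ 28 ≤ PP j := by
      have h1 := hx.w_le j k
      have h2 := hx.Mac2_W_le j
      have h3 := Mac2_PP_one j
      linarith
    unfold Prm.G ringSum
    rw [dif_pos hk, ← hx.sum_bq j k, sum_mul, ← sum_sub_distrib]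
    refine (abs_sum_le_sum_abs _ _).trans ?_
    have hb : ∀ i : ZMod (nn j), |(if s then 1 else -1) *
        (frm.rab x.dat (⟨j, k, i, hk.1, hk.2⟩, s)).re *
        Real.log (max ‖z - x.dat.pos (⟨j, k, i, hk.1, hk.2⟩, s)‖
          (frm.Rs (⟨j, k, i, hk.1, hk.2⟩, s))) - x.bq j k i * L| ≤
        tt j ^ 29 * |L| + (x.bq j k i + tt j ^ 29) * δ := by
      intro i
      have h1 := hx.rab_re (⟨j, k, i, hk.1, hk.2⟩, s)
      have h2 := h i hk.1 hk.2
      have h3 : 0 ≤ x.bq j k i :=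
        le_trans (by positivity) (hx.bq_ge ⟨j, k, i, hk.1, hk.2⟩)
      dsimp only at h1
      change |_ * Real.log (max _ ((tt j)⁻¹ ^ 12)) - _| ≤ _
      generalize (if s then 1 else -1) * (frm.rab x.dat (⟨j, k, i, hk.1, hk.2⟩, s)).re = a at h1 ⊢
      generalize Real.log (max ‖z - x.dat.pos (⟨j, k, i, hk.1, hk.2⟩, s)‖ ((tt j)⁻¹ ^ 12)) = l
        at h2 ⊢
      have h4 : |a| ≤ x.bq j k i + tt j ^ 29 := by
        have := abs_le.1 h1
        have h5 : 0 < tt j ^ 29 := by positivity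
        rw [abs_le]; constructor <;> linarith
      calc |a * l - x.bq j k i * L| = |(a - x.bq j k i) * L + a * (l - L)| := by ring_nf
        _ ≤ |(a - x.bq j k i) * L| + |a * (l - L)| := abs_add_le _ _
        _ = |a - x.bq j k i| * |L| + |a| * |l - L| := by rw [abs_mul, abs_mul]
        _ ≤ _ := by gcongr
    refine (sum_le_sum fun i _ => hb i).trans ?_
    simp only [sum_add_distrib, add_mul, ← sum_mul, sum_const, card_univ, ZMod.card, nsmul_eq_mul]
    rw [hx.sum_bq j k]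
    have h5 := mul_le_mul_of_nonneg_right hn (abs_nonneg L)
    have h6 := mul_le_mul_of_nonneg_right hn hδ
    have h7 := mul_le_mul_of_nonneg_right hw hδ
    nlinarith
  · have hk' : k = 0 ∨ NN j ≤ k := by omega
    have hw : x.w j k = 0 := by
      rcases hk' with rfl | h0
      · exact x.w_zero j
      · exact x.w_out h0
    rw [Gap0_out x s hk', hw]
    simp only [zero_mul, sub_zero, abs_zero]
    positivity

theorem G_out (s : Bool) (j k : ℕ) {z : ℂ} (hz : (tt j)⁻¹ ^ 40 ≤ ‖z‖) :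
    |x.G s j k z - x.w j k * Real.log ‖z‖| ≤ tt j ^ 2 * (1 + Real.log ‖z‖) := by
  have ht := tt_pos j
  have ht1 := tt_le j
  have hi := admM_inv_one j
  have h40 : 1 ≤ (tt j)⁻¹ ^ 40 := one_le_pow₀ hi
  have hz1 : 1 ≤ ‖z‖ := h40.trans hz
  have hl : 0 ≤ Real.log ‖z‖ := Real.log_nonneg hz1
  have h8 : tt j ^ 8 ≤ 1 / 1000 := (pow_le_of_le_one ht.le (by linarith) (by norm_num)).trans ht1
  have h8' : 0 < tt j ^ 8 := by positivity
  have hr : rho j ≤ tt j ^ 8 * ‖z‖ := by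
    have : rho j = tt j ^ 8 * (tt j)⁻¹ ^ 40 := by unfold rho; field_simp
    rw [this]
    exact mul_le_mul_of_nonneg_left hz h8'.le
  have h12 : (tt j)⁻¹ ^ 12 ≤ rho j := pow_le_pow_right₀ hi (by norm_num)
  have hk := hx.Gap0_key s j k z (L := Real.log ‖z‖) (δ := 2 * (2 * tt j ^ 8)) (by positivity) (by
    intro i h1 h2
    have h3 := hx.pos_le (⟨j, k, i, h1, h2⟩, s)
    dsimp only at h3
    have h4 := abs_norm_sub_norm_le (z - x.dat.pos (⟨j, k, i, h1, h2⟩, s)) z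
    rw [sub_sub_cancel_left, norm_neg] at h4
    have h5 := mul_le_mul_of_nonneg_right h8 (norm_nonneg z)
    have h6 := (abs_le.1 h4).1
    have h7 := rho_pos j
    rw [max_eq_left (by linarith)]
    exact Gap0_log (by linarith) (by linarith) (by linarith))
  rw [abs_of_nonneg hl] at hk
  refine hk.trans ?_
  have h2 : tt j ^ 28 ≤ tt j ^ 2 := pow_le_pow_of_le_one ht.le (by linarith) (by norm_num)
  have h3 : tt j ^ 7 ≤ tt j ^ 2 := pow_le_pow_of_le_one ht.le (by linarith) (by norm_num)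
  have h4 := mul_le_mul_of_nonneg_right (Gap0_PP2 j) (show 0 ≤ tt j ^ 7 by positivity)
  have h5 := mul_le_mul_of_nonneg_right h2 hl
  have h6 : 0 < tt j ^ 2 := by positivity
  have h7 : PP j * (2 * (2 * tt j ^ 8)) = 4 * (PP j * tt j * tt j ^ 7) := by ring
  rw [h7]
  nlinarith

theorem G_in (s : Bool) {j : ℕ} (hj : 1 ≤ j) (k : ℕ) {z : ℂ} (hz : ‖z‖ ≤ (tt j)⁻¹ ^ 24) :
    |x.G s j k z - x.w j k * x.lr j k| ≤ tt j ^ 2 := by
  have ht := tt_pos j
  have ht1 := tt_le j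
  have hi := admM_inv_one j
  have h6 : 0 < tt j ^ 2 := by positivity
  by_cases hk0 : NN j ≤ k
  · rw [Gap0_out x s (Or.inr hk0), x.w_out hk0]
    simp only [zero_mul, sub_zero, abs_zero]
    exact h6.le
  have hkN : k ≤ NN j := by omega
  have h3 := Pos_t3 j
  have h3' : 0 < tt j ^ 3 := by positivity
  have hρ := rho_pos j
  obtain ⟨he1, he2⟩ := hx.Pos_exp hj hkN
  have h24 : (tt j)⁻¹ ^ 24 ≤ tt j ^ 3 * rho j / 2 := by
    have e1 : (tt j)⁻¹ ^ 24 = tt j ^ 5 * (tt j ^ 3 * rho j) := by unfold rho; field_simp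
    have e2 : tt j ^ 5 ≤ 1 / 2 :=
      (pow_le_of_le_one ht.le (by linarith) (by norm_num)).trans (by linarith)
    have e3 := mul_le_mul_of_nonneg_right e2 (mul_pos h3' hρ).le
    linarith
  have h12 : (tt j)⁻¹ ^ 12 ≤ (tt j)⁻¹ ^ 24 := pow_le_pow_right₀ hi (by norm_num)
  have hE := Real.exp_pos (x.lr j k)
  have hk := hx.Gap0_key s j k z (L := x.lr j k) (δ := 2 * (3 * tt j ^ 3)) (by positivity) (by
    intro i h1 h2
    have h4 := hx.pos_near (⟨j, k, i, h1, h2⟩, s) hj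
    dsimp only at h4
    have h5 := abs_norm_sub_norm_le (z - x.dat.pos (⟨j, k, i, h1, h2⟩, s))
      (-(((Real.exp (x.lr j k) : ℝ) : ℂ) * un (nn j) k i))
    rw [norm_neg, norm_mul, norm_un, mul_one, norm_real, Real.norm_eq_abs, abs_of_pos hE,
      show z - x.dat.pos (⟨j, k, i, h1, h2⟩, s) - -(((Real.exp (x.lr j k) : ℝ) : ℂ) * un (nn j) k i) =
        z - (x.dat.pos (⟨j, k, i, h1, h2⟩, s) - ((Real.exp (x.lr j k) : ℝ) : ℂ) * un (nn j) k i) by
        ring] at h5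
    have h7 := h5.trans (norm_sub_le _ _)
    have h8 := mul_le_mul_of_nonneg_left he1 h3'.le
    have h9 := mul_le_mul_of_nonneg_right h3 hE.le
    have h10 := mul_pos h3' hρ
    have h11 : |‖z - x.dat.pos (⟨j, k, i, h1, h2⟩, s)‖ - Real.exp (x.lr j k)| ≤
        3 * tt j ^ 3 * Real.exp (x.lr j k) := by linarith
    have h13 := (abs_le.1 h11).1
    rw [max_eq_left (by linarith)]
    have h14 := Gap0_log hE (by linarith) h11
    rwa [Real.log_exp] at h14)
  refine hk.trans ?_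
  have hlr : |x.lr j k| ≤ PP j := by
    have a1 := abs_le.1 (hx.lr_near hj hkN)
    have a2 := ell_le_PP j
    have a3 := ell_succ j
    have a4 := ell_ge j
    have a5 : (1 : ℝ) ≤ 4 ^ j := one_le_pow₀ (by norm_num)
    have a6 : 1 / (1000 * (nn j : ℝ)) ≤ 1 := by
      have := Mac2_nn_one j
      rw [div_le_one (by linarith)]
      linarith
    rw [abs_le]
    constructor <;> linarith
  have b1 := mul_le_mul_of_nonneg_left hlr (show 0 ≤ tt j ^ 28 by positivity)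
  have b2 := mul_le_mul_of_nonneg_right (Gap0_PP2 j) h6.le
  have b3 := mul_le_mul_of_nonneg_right (Gap0_PP2 j) (show 0 ≤ tt j ^ 27 by positivity)
  have b4 : tt j ^ 27 ≤ tt j ^ 2 := pow_le_pow_of_le_one ht.le (by linarith) (by norm_num)
  have b5 : PP j * (2 * (3 * tt j ^ 3)) = 6 * (PP j * tt j * tt j ^ 2) := by ring
  have b6 : tt j ^ 28 * PP j = PP j * tt j * tt j ^ 27 := by ring
  linarith

theorem G_ctr (s : Bool) (z : ℂ) :
    99 / 100 * Real.log (max ‖z‖ ((tt 0)⁻¹ ^ 12)) ≤ x.G s 0 1 z := by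
  have ht := tt_pos 0
  have ht1 := tt_le 0
  have hl : 0 ≤ Real.log (max ‖z‖ ((tt 0)⁻¹ ^ 12)) :=
    Real.log_nonneg (le_max_of_le_right (one_le_pow₀ (admM_inv_one 0)))
  have hk := hx.Gap0_key s 0 1 z (L := Real.log (max ‖z‖ ((tt 0)⁻¹ ^ 12))) (δ := 0) le_rfl (by
    intro i h1 h2
    rw [hx.pos_zero _ rfl, sub_zero, sub_self, abs_zero])
  have hw : x.w 0 1 = 1 := x.w_L 0
  rw [hw, abs_of_nonneg hl, one_mul, mul_zero, add_zero] at hk
  have h28 : tt 0 ^ 28 ≤ 1 / 1000 := (pow_le_of_le_one ht.le (by linarith) (by norm_num)).trans ht1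
  have h1 := mul_le_mul_of_nonneg_right h28 hl
  have h2 := (abs_le.1 hk).1
  linarith

end InK

end Pool.Agent.MP_943ae2_gt

end
end

section

open Set Complex Filter Finset
open scoped Topology ComplexConjugate ContDiff

noncomputable section

namespace Pool.Agent.MP_943ae2_gt

lemma Gap1_ell_pos (j : ℕ) : 0 ≤ ell j :=
  le_trans (by positivity) (ell_ge j)

lemma Gap1_ell_le (j : ℕ) (z : ℂ) : ell j ≤ mx j z :=
  Real.log_le_log (rho_pos j) (le_max_right _ _)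

lemma Gap1_mx (j : ℕ) (z : ℂ) : 0 ≤ mx j z := (Gap1_ell_pos j).trans (Gap1_ell_le j z)

lemma Gap1_nt (j : ℕ) : (nn j : ℝ) * tt j ≤ 1 / 1024 := by
  have h1 := admM_nn_le j
  have h2 := admM_PP_tt j
  have h3 := tt_pos j
  nlinarith

/-- the truncated logarithm changes by at most the change of the truncation level -/
lemma Gap1_max {a b : ℝ} (u : ℝ) :
    Real.log (max u (Real.exp a)) ≤ Real.log (max u (Real.exp b)) + |a - b| := by
  have hb : 0 < max u (Real.exp b) := lt_of_lt_of_le (Real.exp_pos b) (le_max_right _ _)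
  have ha : 0 < max u (Real.exp a) := lt_of_lt_of_le (Real.exp_pos a) (le_max_right _ _)
  have h1 : 1 ≤ Real.exp |a - b| := Real.one_le_exp (abs_nonneg _)
  have h : max u (Real.exp a) ≤ max u (Real.exp b) * Real.exp |a - b| := by
    refine max_le ?_ ?_
    · exact (le_max_left u (Real.exp b)).trans (le_mul_of_one_le_right hb.le h1)
    · calc Real.exp a ≤ Real.exp b * Real.exp |a - b| := by
            rw [← Real.exp_add]
            exact Real.exp_le_exp.2 (by linarith [le_abs_self (a - b)])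
        _ ≤ _ := mul_le_mul_of_nonneg_right (le_max_right _ _) (Real.exp_pos _).le
  calc Real.log (max u (Real.exp a)) ≤ Real.log (max u (Real.exp b) * Real.exp |a - b|) :=
        Real.log_le_log ha h
    _ = _ := by rw [Real.log_mul hb.ne' (Real.exp_pos _).ne', Real.log_exp]

lemma Gap1_logRs (j : ℕ) : Real.log ((tt j)⁻¹ ^ 12) = 3 / 8 * ell j := by
  rw [Real.log_pow, ell_eq]; push_cast; ring

/-- the positions of the sides of a ring -/
def Gap1_p (x : Prm) (s : Bool) {j k : ℕ} (h : 1 ≤ k ∧ k < NN j) (i : ZMod (nn j)) : ℂ :=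
  x.dat.pos (⟨j, k, i, h.1, h.2⟩, s)

namespace InK

variable {x : Prm} (hx : InK x)
include hx

lemma Gap1_c (j k : ℕ) : 0 ≤ (x.wall j).c k := by
  rw [Prm.Mac1_c]
  exact div_nonneg (hx.w_nonneg j k) (Mac2_nn_pos j).le

omit hx in
lemma Gap1_out (s : Bool) {j k : ℕ} (h : ¬ (1 ≤ k ∧ k < NN j)) (z : ℂ) :
    x.G s j k z = 0 ∧ x.w j k = 0 ∧ (x.wall j).c k = 0 := by
  have hw : x.w j k = 0 := by
    rcases Nat.eq_zero_or_pos k with rfl | hk
    · exact x.w_zero j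
    · exact x.w_out (by omega)
  refine ⟨?_, hw, ?_⟩
  · unfold Prm.G ringSum
    rw [dif_neg h]
  · rw [Prm.Mac1_c, hw, zero_div]

/-- the potential of a ring is `c * lgs` up to a small error -/
lemma Gap1_split (s : Bool) {j k : ℕ} (h : 1 ≤ k ∧ k < NN j) (z : ℂ) {B : ℝ}
    (hB : ∀ i, |Real.log (max ‖z - Gap1_p x s h i‖ ((tt j)⁻¹ ^ 12))| ≤ B) :
    |x.G s j k z - (x.wall j).c k * lgs (Gap1_p x s h) ((tt j)⁻¹ ^ 12) z| ≤
      nn j * (2 * tt j ^ 3 * B) := by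
  unfold Prm.G ringSum lgs
  rw [dif_pos h, Finset.mul_sum, ← Finset.sum_sub_distrib]
  refine (Finset.abs_sum_le_sum_abs _ _).trans ?_
  have hc : (nn j : ℝ) * (2 * tt j ^ 3 * B) = ∑ _i : ZMod (nn j), 2 * tt j ^ 3 * B := by
    rw [Finset.sum_const, Finset.card_univ, ZMod.card, nsmul_eq_mul]
  rw [hc]
  refine Finset.sum_le_sum fun i _ => ?_
  have h1 := hx.rab_re (⟨j, k, i, h.1, h.2⟩, s)
  have h2 := hx.ε_le j k i
  have h3 : tt j ^ 29 ≤ tt j ^ 3 := pow_le_pow_of_le_one (tt_pos j).le (admM_tt_one j) (by norm_num)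
  have h4 := hB i
  simp only [Pos_bq] at h1
  have h5 : |(if s then 1 else -1) * (frm.rab x.dat (⟨j, k, i, h.1, h.2⟩, s)).re -
      (x.wall j).c k| ≤ 2 * tt j ^ 3 := by
    rw [abs_le] at h1 h2 ⊢
    constructor <;> linarith [h1.1, h1.2, h2.1, h2.2]
  have h6 : (if s then 1 else -1) * (frm.rab x.dat (⟨j, k, i, h.1, h.2⟩, s)).re *
      Real.log (max ‖z - x.dat.pos (⟨j, k, i, h.1, h.2⟩, s)‖ (frm.Rs (⟨j, k, i, h.1, h.2⟩, s))) -
      (x.wall j).c k * Real.log (max ‖z - Gap1_p x s h i‖ ((tt j)⁻¹ ^ 12)) =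
      ((if s then 1 else -1) * (frm.rab x.dat (⟨j, k, i, h.1, h.2⟩, s)).re - (x.wall j).c k) *
        Real.log (max ‖z - Gap1_p x s h i‖ ((tt j)⁻¹ ^ 12)) := by
    rw [sub_mul]; rfl
  rw [h6, abs_mul]
  exact mul_le_mul h5 h4 (abs_nonneg _) (by have := tt_pos j; positivity)

omit hx in
lemma Gap1_err (j : ℕ) {M : ℝ} (hM : 0 ≤ M) :
    (nn j : ℝ) * (2 * tt j ^ 3 * (3 * (1 + M))) ≤ tt j ^ 2 * (1 + M) := by
  have h1 := Gap1_nt j
  have h2 : 0 ≤ tt j ^ 2 * (1 + M) := by positivity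
  calc (nn j : ℝ) * (2 * tt j ^ 3 * (3 * (1 + M))) = 6 * (nn j * tt j) * (tt j ^ 2 * (1 + M)) := by
        ring
    _ ≤ 1 * (tt j ^ 2 * (1 + M)) := mul_le_mul_of_nonneg_right (by linarith) h2
    _ = _ := one_mul _

omit hx in
lemma Gap1_hn {j : ℕ} (hj : 1 ≤ j) : 10 ≤ nn j := le_trans (by norm_num) (nn_ge hj)

omit hx in
lemma Gap1_eta (j : ℕ) : 2 * tt j ^ 3 * (nn j : ℝ) ^ 2 ≤ 1 / 100 := by
  have h1 := Gap1_nt j
  have h2 := tt_pos j
  have h3 := tt_le j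
  have h4 : 0 ≤ (nn j : ℝ) * tt j := by positivity
  have h5 : ((nn j : ℝ) * tt j) ^ 2 ≤ 1 := pow_le_one₀ h4 (by linarith)
  calc 2 * tt j ^ 3 * (nn j : ℝ) ^ 2 = 2 * tt j * ((nn j : ℝ) * tt j) ^ 2 := by ring
    _ ≤ 2 * tt j * 1 := mul_le_mul_of_nonneg_left h5 (by positivity)
    _ ≤ 1 / 100 := by linarith

lemma Gap1_hp (s : Bool) {j k : ℕ} (hj : 1 ≤ j) (h : 1 ≤ k ∧ k < NN j) (i : ZMod (nn j)) :
    ‖Gap1_p x s h i - (Real.exp (x.lr j k) : ℝ) * un (nn j) k i‖ ≤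
      2 * tt j ^ 3 * Real.exp (x.lr j k) :=
  hx.pos_near (⟨j, k, i, h.1, h.2⟩, s) hj

lemma Gap1_Rs {j k : ℕ} (hj : 1 ≤ j) (hk : k ≤ NN j) :
    (tt j)⁻¹ ^ 12 ≤ Real.exp (x.lr j k) / (10 * nn j) := by
  have h1 := (hx.admM_rad hj hk).1
  have h2 := Mac2_nn_pos j
  have h3 := admM_nn_le j
  have h4 := admM_PP_le j
  have h5 := admM_inv_one j
  have h6 : (tt j)⁻¹ ≤ (tt j)⁻¹ ^ 20 := le_self_pow₀ h5 (by norm_num)
  have h7 : 0 < (tt j)⁻¹ ^ 12 := by positivity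
  rw [le_div_iff₀ (by positivity)]
  have h8 : rho j = (tt j)⁻¹ ^ 12 * (tt j)⁻¹ ^ 20 := by unfold rho; ring
  have h9 : (tt j)⁻¹ ^ 12 * (10 * nn j) ≤ (tt j)⁻¹ ^ 12 * (9 / 10 * (tt j)⁻¹ ^ 20) :=
    mul_le_mul_of_nonneg_left (by linarith) h7.le
  nlinarith

lemma Gap1_lr {j k : ℕ} (hj : 1 ≤ j) (hk : k ≤ NN j) : |x.lr j k - ell j| ≤ 1 / 1000 := by
  refine (hx.lr_near hj hk).trans ?_
  have h2 := Mac2_nn_one j
  exact one_div_le_one_div_of_le (by norm_num) (by linarith)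

lemma Gap1_near {j k : ℕ} (hj : 1 ≤ j) (hk : k ≤ NN j) (z : ℂ) :
    |Real.log (max ‖z‖ (Real.exp (x.lr j k))) - mx j z| ≤ 1 / (1000 * nn j) := by
  have h1 := hx.lr_near hj hk
  have h2 := Gap1_max (a := x.lr j k) (b := ell j) ‖z‖
  have h3 := Gap1_max (a := ell j) (b := x.lr j k) ‖z‖
  rw [abs_sub_comm] at h3
  rw [exp_ell] at h2 h3
  unfold mx
  rw [abs_le]
  constructor <;> linarith

lemma Gap1_near' {j k : ℕ} (hj : 1 ≤ j) (hk : k ≤ NN j) (z : ℂ) :
    |nn j * Real.log (max ‖z‖ (Real.exp (x.lr j k))) - nn j * mx j z| ≤ 1 / 1000 := by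
  have h1 := hx.Gap1_near hj hk z
  have h2 := Mac2_nn_pos j
  rw [← mul_sub, abs_mul, abs_of_pos h2]
  calc (nn j : ℝ) * |Real.log (max ‖z‖ (Real.exp (x.lr j k))) - mx j z| ≤
        nn j * (1 / (1000 * nn j)) := mul_le_mul_of_nonneg_left h1 h2.le
    _ = 1 / 1000 := by field_simp

omit hx in
lemma Gap1_logq (j k : ℕ) :
    Real.log (Real.exp (x.lr j k) / (tt j)⁻¹ ^ 12) = x.lr j k - 3 / 8 * ell j := by
  have h := tt_pos j
  rw [Real.log_div (Real.exp_pos _).ne' (by positivity), Real.log_exp, Gap1_logRs]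

/-- the error estimate for `j ≥ 1` -/
lemma Gap1_main (s : Bool) {j k : ℕ} (hj : 1 ≤ j) (h : 1 ≤ k ∧ k < NN j) (z : ℂ) :
    |x.G s j k z - (x.wall j).c k * lgs (Gap1_p x s h) ((tt j)⁻¹ ^ 12) z| ≤
      tt j ^ 2 * (1 + mx j z) := by
  refine (hx.Gap1_split s h z (B := 3 * (1 + mx j z)) fun i => ?_).trans
    (Gap1_err j (Gap1_mx j z))
  have ht := tt_pos j
  have h0 := hx.Gap1_Rs hj h.2.le
  have hn := Mac2_nn_one j
  have hs : (tt j)⁻¹ ^ 12 ≤ Real.exp (x.lr j k) :=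
    h0.trans (div_le_self (Real.exp_pos _).le (by linarith))
  have h1 := log_term (Gap1_hn hj) (Real.exp_pos _) (hx.Gap1_hp s hj h) (Gap1_eta j)
    (by positivity) hs z i
  rw [Gap1_logq] at h1
  have h2 := hx.Gap1_near hj h.2.le z
  have h3 : 1 / (1000 * (nn j : ℝ)) ≤ 1 / 1000 :=
    one_div_le_one_div_of_le (by norm_num) (by linarith)
  have h4 := hx.Gap1_lr hj h.2.le
  have h5 := Gap1_ell_le j z
  have h6 := Gap1_ell_pos j
  rw [abs_le] at h1 h2 h4 ⊢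
  constructor <;> linarith [h1.1, h1.2, h2.1, h2.2, h4.1, h4.2]

theorem G_up (s : Bool) (j k : ℕ) (z : ℂ) :
    x.G s j k z ≤ x.w j k * mx j z + 6 * (x.wall j).c k + tt j ^ 2 * (1 + mx j z) := by
  have hM := Gap1_mx j z
  have ht := tt_pos j
  by_cases h : 1 ≤ k ∧ k < NN j
  swap
  · obtain ⟨h1, h2, h3⟩ := Gap1_out (x := x) s h z
    rw [h1, h2, h3]
    positivity
  have hc := hx.Gap1_c j k
  have hw := x.n_mul_c j k
  rcases Nat.eq_zero_or_pos j with rfl | hj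
  · have hp : ∀ i, Gap1_p x s h i = 0 := fun i => hx.pos_zero (⟨0, k, i, h.1, h.2⟩, s) rfl
    have h5 := admM_inv_one 0
    have hL : ∀ i, 0 ≤ Real.log (max ‖z - Gap1_p x s h i‖ ((tt 0)⁻¹ ^ 12)) ∧
        Real.log (max ‖z - Gap1_p x s h i‖ ((tt 0)⁻¹ ^ 12)) ≤ mx 0 z := by
      intro i
      have h6 : (1 : ℝ) ≤ (tt 0)⁻¹ ^ 12 := one_le_pow₀ h5
      refine ⟨Real.log_nonneg (h6.trans (le_max_right _ _)), ?_⟩
      rw [hp i, sub_zero]
      refine Real.log_le_log (lt_of_lt_of_le (by linarith) (le_max_right _ _)) ?_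
      exact max_le_max le_rfl (pow_le_pow_right₀ h5 (by norm_num))
    have h1 := (hx.Gap1_split s h z (B := 3 * (1 + mx 0 z)) fun i => by
      rw [abs_of_nonneg (hL i).1]; linarith [(hL i).2]).trans (Gap1_err 0 hM)
    have h2 : lgs (Gap1_p x s h) ((tt 0)⁻¹ ^ 12) z ≤ nn 0 * mx 0 z := by
      unfold lgs
      refine (Finset.sum_le_sum fun i _ => (hL i).2).trans ?_
      rw [Finset.sum_const, Finset.card_univ, ZMod.card, nsmul_eq_mul]
    have h3 := mul_le_mul_of_nonneg_left h2 hc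
    have h4 := (abs_le.1 h1).2
    rw [← hw]
    nlinarith
  · have h1 := (abs_le.1 (hx.Gap1_main s hj h z)).2
    have h2 := lgs_up (Gap1_hn hj) (Real.exp_pos _) (hx.Gap1_hp s hj h) (Gap1_eta j)
      (by positivity) (hx.Gap1_Rs hj h.2.le) z
    have h3 := (abs_le.1 (hx.Gap1_near' hj h.2.le z)).2
    have h4 : lgs (Gap1_p x s h) ((tt j)⁻¹ ^ 12) z ≤ nn j * mx j z + 6 := by linarith
    have h5 := mul_le_mul_of_nonneg_left h4 hc
    rw [← hw]
    nlinarith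

theorem G_lo (s : Bool) {j : ℕ} (hj : 1 ≤ j) (k : ℕ) (z : ℂ) :
    x.w j k * mx j z - (x.wall j).c k * (5 / 8 * ell j + 6) - tt j ^ 2 * (1 + mx j z) ≤
      x.G s j k z := by
  have hM := Gap1_mx j z
  have ht := tt_pos j
  by_cases h : 1 ≤ k ∧ k < NN j
  swap
  · obtain ⟨h1, h2, h3⟩ := Gap1_out (x := x) s h z
    rw [h1, h2, h3]
    have : 0 ≤ tt j ^ 2 * (1 + mx j z) := by positivity
    linarith
  have hc := hx.Gap1_c j k
  have hw := x.n_mul_c j k
  have h1 := (abs_le.1 (hx.Gap1_main s hj h z)).1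
  have h2 := lgs_lo (Gap1_hn hj) (Real.exp_pos _) (hx.Gap1_hp s hj h) (Gap1_eta j)
    (by positivity) (hx.Gap1_Rs hj h.2.le) z
  rw [Gap1_logq] at h2
  have h3 := (abs_le.1 (hx.Gap1_near' hj h.2.le z)).1
  have h6 := (abs_le.1 (hx.Gap1_lr hj h.2.le)).2
  have h4 : nn j * mx j z - (5 / 8 * ell j + 6) ≤ lgs (Gap1_p x s h) ((tt j)⁻¹ ^ 12) z := by
    linarith
  have h5 := mul_le_mul_of_nonneg_left h4 hc
  rw [← hw]
  nlinarith

theorem G_mid (s : Bool) {j : ℕ} (hj : 1 ≤ j) (k : ℕ) {z : ℂ}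
    (hz : ‖z‖ ≤ rho j * Real.exp (-2 / nn j) ∨ rho j * Real.exp (2 / nn j) ≤ ‖z‖) :
    x.w j k * mx j z - 6 * (x.wall j).c k - tt j ^ 2 * (1 + mx j z) ≤ x.G s j k z := by
  have hM := Gap1_mx j z
  have ht := tt_pos j
  by_cases h : 1 ≤ k ∧ k < NN j
  swap
  · obtain ⟨h1, h2, h3⟩ := Gap1_out (x := x) s h z
    rw [h1, h2, h3]
    have : 0 ≤ tt j ^ 2 * (1 + mx j z) := by positivity
    linarith
  have hc := hx.Gap1_c j k
  have hw := x.n_mul_c j k
  have hn := Mac2_nn_pos j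
  have h1 := (abs_le.1 (hx.Gap1_main s hj h z)).1
  have hl := abs_le.1 (hx.lr_near hj h.2.le)
  have hq : 1 / (1000 * (nn j : ℝ)) ≤ 1 / nn j := one_div_le_one_div_of_le hn (by linarith)
  have e1 : (-2 : ℝ) / nn j = -2 * (1 / nn j) := by ring
  have e2 : (2 : ℝ) / nn j = 2 * (1 / nn j) := by ring
  have e3 : (-1 : ℝ) / nn j = -(1 / nn j) := by ring
  have hz' : ‖z‖ ≤ Real.exp (x.lr j k) * Real.exp (-1 / nn j) ∨
      Real.exp (x.lr j k) * Real.exp (1 / nn j) ≤ ‖z‖ := by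
    rw [← exp_ell, ← Real.exp_add, ← Real.exp_add] at hz
    rw [← Real.exp_add, ← Real.exp_add]
    refine hz.imp (fun h' => h'.trans (Real.exp_le_exp.2 ?_))
      (fun h' => (Real.exp_le_exp.2 ?_).trans h')
    all_goals linarith [hl.1, hl.2]
  obtain ⟨h2, h7⟩ := log_mid (Gap1_hn hj) (Real.exp_pos _) (hx.Gap1_hp s hj h) (Gap1_eta j) hz'
  have h8 : lgs (Gap1_p x s h) ((tt j)⁻¹ ^ 12) z = ∑ i, Real.log ‖z - Gap1_p x s h i‖ := by
    unfold lgs
    refine Finset.sum_congr rfl fun i _ => ?_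
    rw [max_eq_left]
    refine (hx.Gap1_Rs hj h.2.le).trans (le_trans ?_ (h2 i))
    exact div_le_div_of_nonneg_left (Real.exp_pos _).le (by positivity) (by linarith)
  have h3 := (abs_le.1 (hx.Gap1_near' hj h.2.le z)).1
  have h9 := (abs_le.1 h7).1
  have h4 : nn j * mx j z - 6 ≤ lgs (Gap1_p x s h) ((tt j)⁻¹ ^ 12) z := by
    rw [h8]; linarith
  have h5 := mul_le_mul_of_nonneg_left h4 hc
  rw [← hw]
  nlinarith

end InK

end Pool.Agent.MP_943ae2_gt

end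
end

section

open Set Complex Filter
open scoped Topology ComplexConjugate ContDiff

noncomputable section

namespace Pool.Agent.MP_943ae2_gt

variable {ι : Type} {F : Frm ι} {d : Dat ι} {C : ℕ → ℝ}

lemma emb1_log1 {x y m : ℝ} (hm : 0 < m) (hx : m ≤ x) (hy : m ≤ y) :
    Real.log x - Real.log y ≤ |x - y| / m := by
  have hx0 : 0 < x := hm.trans_le hx
  have hy0 : 0 < y := hm.trans_le hy
  rw [← Real.log_div hx0.ne' hy0.ne']
  refine (Real.log_le_sub_one_of_pos (div_pos hx0 hy0)).trans ?_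
  have e : x / y - 1 = (x - y) / y := by field_simp
  rw [e]
  exact (div_le_div_of_nonneg_right (le_abs_self _) hy0.le).trans
    (div_le_div_of_nonneg_left (abs_nonneg _) hm hy)

lemma emb1_log {x y m : ℝ} (hm : 0 < m) (hx : m ≤ x) (hy : m ≤ y) :
    |Real.log x - Real.log y| ≤ |x - y| / m := by
  refine abs_le.2 ⟨?_, emb1_log1 hm hx hy⟩
  have := emb1_log1 hm hy hx
  rw [abs_sub_comm] at this
  linarith

lemma emb1_norm (x y p : ℂ) : |‖x - p‖ - ‖y - p‖| ≤ ‖y - x‖ := by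
  have := abs_norm_sub_norm_le (x - p) (y - p)
  rwa [sub_sub_sub_cancel_right, norm_sub_rev x y] at this

lemma emb1_pow {x : ℝ} (h0 : 0 < x) (h1 : x ≤ 1 / 1000) (n m : ℕ) :
    1000 * x ^ (n + 1 + m) ≤ x ^ n := by
  have h2 : x ^ m ≤ 1 := pow_le_one₀ h0.le (by linarith)
  have h3 : 0 < x ^ n := pow_pos h0 n
  have h4 : 1000 * x * x ^ m ≤ 1 := by
    have := mul_le_mul_of_nonneg_left h2 (by linarith : 0 ≤ 1000 * x)
    linarith
  calc 1000 * x ^ (n + 1 + m) = x ^ n * (1000 * x * x ^ m) := by ring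
    _ ≤ x ^ n * 1 := mul_le_mul_of_nonneg_left h4 h3.le
    _ = x ^ n := mul_one _

/-- the contribution of one side to the difference of the height and its model -/
def emb1T (F : Frm ι) (d : Dat ι) (e : ι × Bool) (z y : ℂ) : ℝ :=
  (F.prim d (F.ab d (F.lay e)) e z).re +
    (F.rab d e).re * (Real.log ‖z - d.pos e‖ - Real.log (max ‖y - d.pos e‖ (F.Rs e)))

lemma emb1_sum (k : ℕ) (z y : ℂ) :
    C k + F.h0 d k z - F.Ut d C k y = ∑ e ∈ F.sides k, emb1T F d e z y := by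
  unfold Frm.h0 Frm.Ut
  rw [add_sub_add_left_eq_sub, ← Finset.sum_sub_distrib]
  refine Finset.sum_congr rfl fun e he => ?_
  unfold emb1T
  rw [mem_sides_iff.1 he]
  ring

namespace Frm.Adm

section

variable (h : F.Adm d)
include h

lemma emb1_u (e : ι × Bool) : (1000 : ℝ) ≤ (F.t e.1)⁻¹ := by
  have := inv_anti₀ (h.t_pos e.1) (h.t_small e.1)
  simpa using this

lemma emb1_u3 (e : ι × Bool) : (F.t e.1)⁻¹ ^ 3 ≤ F.Rs e :=
  pow_le_pow_right₀ (by linarith [h.emb1_u e]) (by norm_num)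

lemma emb1_bRs (e : ι × Bool) : ‖d.bet e‖ ≤ F.Rs e := by
  refine (h.bet_le e).trans ?_
  have := pow_le_pow_right₀ (a := (F.t e.1)⁻¹) (by linarith [h.emb1_u e])
    (by norm_num : 1 ≤ 12)
  rwa [pow_one] at this

lemma emb1_RsR (e : ι × Bool) : F.Rs e ≤ F.R e :=
  pow_le_pow_right₀ (by linarith [h.emb1_u e]) (by norm_num)

lemma emb1_bR (e : ι × Bool) : ‖d.bet e‖ < F.R e := by
  refine (h.bet_le e).trans_lt ?_
  have := pow_lt_pow_right₀ (a := (F.t e.1)⁻¹) (by linarith [h.emb1_u e])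
    (by norm_num : 1 < 16)
  rwa [pow_one] at this

lemma emb1_b2 (e : ι × Bool) : ‖d.bet e‖ ^ 2 / F.R e < ‖d.bet e‖ := by
  have h1 := h.bet_pos e
  rw [div_lt_iff₀ (h.R_pos e), sq]
  exact mul_lt_mul_of_pos_left (h.emb1_bR e) h1

lemma emb1_b14 (e : ι × Bool) : ‖d.bet e‖ ^ 2 / F.R e ≤ F.t e.1 ^ 14 := by
  have h1 := h.t_pos e.1
  rw [div_le_iff₀ (h.R_pos e)]
  refine (pow_le_pow_left₀ (norm_nonneg _) (h.bet_le e) 2).trans (le_of_eq ?_)
  unfold Frm.R
  field_simp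

lemma emb1_prim (e : ι × Bool) {z : ℂ} (hz : ‖d.bet e‖ ≤ ‖z - d.pos e‖) :
    |(F.prim d (F.ab d (F.lay e)) e z).re| ≤ F.T (F.lay e) ^ 8 := by
  have h1 := h.bet_pos e
  have h2 := h.R_pos e
  have h3 := h.t_pos e.1
  refine (abs_re_le_norm _).trans ((h.prim_ab e ((h.emb1_b2 e).le.trans hz)).trans ?_)
  have h4 : 5 * ‖d.bet e‖ ^ 3 / (F.R e * ‖z - d.pos e‖) ≤
      5 * ‖d.bet e‖ ^ 3 / (F.R e * ‖d.bet e‖) :=
    div_le_div_of_nonneg_left (by positivity) (by positivity)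
      (mul_le_mul_of_nonneg_left hz h2.le)
  have h5 : 5 * ‖d.bet e‖ ^ 3 / (F.R e * ‖d.bet e‖) = 5 * (‖d.bet e‖ ^ 2 / F.R e) := by
    field_simp
  have h6 := h.emb1_b14 e
  have h7 := emb1_pow h3 (h.t_small e.1) 8 5
  have h8 : F.t e.1 ^ 8 ≤ F.T (F.lay e) ^ 8 := pow_le_pow_left₀ h3.le (h.t_le e) 8
  have h9 : 0 < F.t e.1 ^ 14 := pow_pos h3 14
  norm_num at h7
  linarith

/-- a side that is far from the point -/
lemma emb1_far (e : ι × Bool) {z y : ℂ} (hz : F.Rs e ≤ ‖z - d.pos e‖)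
    (hy : ‖y - z‖ ≤ (F.T (F.lay e))⁻¹ ^ 3) : |emb1T F d e z y| ≤ 3 * F.T (F.lay e) ^ 8 := by
  have h1 := h.emb1_prim e ((h.emb1_bRs e).trans hz)
  have h2 := h.Rs_pos e
  have h3 := h.t_pos e.1
  have hT := h.T_pos (F.lay e)
  have h4 := emb1_log h2 hz (le_max_right ‖y - d.pos e‖ (F.Rs e))
  have h5 : |‖z - d.pos e‖ - max ‖y - d.pos e‖ (F.Rs e)| ≤ (F.T (F.lay e))⁻¹ ^ 3 := by
    have h6 := abs_max_sub_max_le_abs ‖z - d.pos e‖ ‖y - d.pos e‖ (F.Rs e)
    rw [max_eq_left hz] at h6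
    exact h6.trans ((emb1_norm z y _).trans hy)
  have h6 : (F.T (F.lay e))⁻¹ ^ 12 ≤ F.Rs e :=
    pow_le_pow_left₀ (inv_pos.2 hT).le (inv_anti₀ h3 (h.t_le e)) 12
  have h7 : |Real.log ‖z - d.pos e‖ - Real.log (max ‖y - d.pos e‖ (F.Rs e))| ≤
      F.T (F.lay e) ^ 9 := by
    refine h4.trans ((div_le_div₀ (by positivity) h5 (by positivity) h6).trans (le_of_eq ?_))
    field_simp
  have h8 : |(F.rab d e).re| ≤ 2 * (F.T (F.lay e))⁻¹ := by
    have := h.rab_le e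
    have := h.b_le e
    linarith
  have h9 := mul_le_mul h8 h7 (abs_nonneg _) (by positivity)
  have h10 : 2 * (F.T (F.lay e))⁻¹ * F.T (F.lay e) ^ 9 = 2 * F.T (F.lay e) ^ 8 := by
    field_simp
  unfold emb1T
  refine (abs_add_le _ _).trans ?_
  rw [abs_mul]
  linarith

lemma emb1_card {k : ℕ} {s : Finset (ι × Bool)} (hs : s ⊆ F.sides k) {f : ι × Bool → ℝ}
    (hf : ∀ e ∈ s, |f e| ≤ 3 * F.T k ^ 8) : |∑ e ∈ s, f e| ≤ 3 * F.T k ^ 7 := by
  have hT := h.T_pos k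
  refine (Finset.abs_sum_le_sum_abs _ _).trans ((Finset.sum_le_card_nsmul _ _ _ hf).trans ?_)
  rw [nsmul_eq_mul]
  have h1 : (s.card : ℝ) ≤ (F.T k)⁻¹ :=
    le_trans (by exact_mod_cast Finset.card_le_card hs) (h.card k)
  refine (mul_le_mul_of_nonneg_right h1 (by positivity)).trans (le_of_eq ?_)
  field_simp

lemma emb1_away {e μ : ι × Bool} (hμ : μ ∈ F.oth e) {z : ℂ} (hz : ‖z - d.pos e‖ < 4 * F.R e) :
    ‖d.pos e - d.pos μ‖ / 2 ≤ ‖z - d.pos μ‖ ∧ F.Rs μ ≤ ‖z - d.pos μ‖ := by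
  have h1 := (h.arg_lt hμ hz).1
  rw [add_sub_cancel] at h1
  have h2 := h.sep' hμ
  have h3 := h.emb1_RsR μ
  have h4 := h.R_pos μ
  exact ⟨h1, by linarith⟩

/-- the other sides seen from a neighbourhood of a side -/
lemma emb1_lam (e : ι × Bool) {z y : ℂ} (hz : ‖z - d.pos e‖ ≤ F.Rs e)
    (hy : ‖y - d.pos e‖ ≤ 3 * F.Rs e) : |∑ μ ∈ F.oth e, emb1T F d μ z y| ≤ F.t e.1 ^ 6 := by
  have h1 := h.emb1_RsR e
  have h2 := h.R_pos e
  have h3 := h.Rs_pos e
  have ht := h.t_pos e.1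
  have hRs : 1 ≤ F.Rs e := one_le_pow₀ (by linarith [h.emb1_u e])
  have h4 : ‖y - z‖ ≤ 4 * F.Rs e := by
    have := norm_sub_le (y - d.pos e) (z - d.pos e)
    rw [sub_sub_sub_cancel_right] at this
    linarith
  have key : ∀ μ ∈ F.oth e, |emb1T F d μ z y| ≤
      26 * F.Rs e * (‖d.bet μ‖ / ‖d.pos e - d.pos μ‖) := by
    intro μ hμ
    obtain ⟨a1, a2⟩ := h.emb1_away hμ (z := z) (by linarith)
    obtain ⟨b1, b2⟩ := h.emb1_away hμ (z := y) (by linarith)
    have hR := h.R_pos μ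
    have hb := h.bet_pos μ
    have hD : 0 < ‖d.pos e - d.pos μ‖ := by linarith [h.sep' hμ]
    have hq : 0 ≤ ‖d.bet μ‖ / ‖d.pos e - d.pos μ‖ := by positivity
    have c1 : |(F.prim d (F.ab d (F.lay μ)) μ z).re| ≤
        10 * (‖d.bet μ‖ / ‖d.pos e - d.pos μ‖) := by
      refine (abs_re_le_norm _).trans ((h.prim_ab μ
        ((h.emb1_b2 μ).le.trans ((h.emb1_bRs μ).trans a2))).trans ?_)
      have c2 : 5 * ‖d.bet μ‖ ^ 3 / (F.R μ * ‖z - d.pos μ‖) ≤
          5 * ‖d.bet μ‖ ^ 3 / (F.R μ * (‖d.pos e - d.pos μ‖ / 2)) :=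
        div_le_div_of_nonneg_left (by positivity) (by positivity)
          (mul_le_mul_of_nonneg_left a1 hR.le)
      have c3 : 5 * ‖d.bet μ‖ ^ 3 / (F.R μ * (‖d.pos e - d.pos μ‖ / 2)) =
          10 * (‖d.bet μ‖ / ‖d.pos e - d.pos μ‖) * (‖d.bet μ‖ ^ 2 / F.R μ) := by
        field_simp
        ring
      have c4 : ‖d.bet μ‖ ^ 2 / F.R μ ≤ 1 :=
        (h.emb1_b14 μ).trans (pow_le_one₀ (h.t_pos _).le (by linarith [h.t_small μ.1]))
      have c5 := mul_le_mul_of_nonneg_left c4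
        (by positivity : 0 ≤ 10 * (‖d.bet μ‖ / ‖d.pos e - d.pos μ‖))
      linarith
    have c6 : |Real.log ‖z - d.pos μ‖ - Real.log ‖y - d.pos μ‖| ≤
        4 * F.Rs e / (‖d.pos e - d.pos μ‖ / 2) :=
      (emb1_log (half_pos hD) a1 b1).trans
        (div_le_div_of_nonneg_right ((emb1_norm z y _).trans h4) (half_pos hD).le)
    have c7 := mul_le_mul (h.rab_le μ) c6 (abs_nonneg _) (by positivity)
    have c8 : 2 * ‖d.bet μ‖ * (4 * F.Rs e / (‖d.pos e - d.pos μ‖ / 2)) =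
        16 * F.Rs e * (‖d.bet μ‖ / ‖d.pos e - d.pos μ‖) := by
      field_simp
      ring
    have c9 := mul_le_mul_of_nonneg_right hRs hq
    unfold emb1T
    refine (abs_add_le _ _).trans ?_
    rw [abs_mul, max_eq_left b2]
    linarith
  refine (Finset.abs_sum_le_sum_abs _ _).trans ((Finset.sum_le_sum key).trans ?_)
  rw [← Finset.mul_sum]
  refine (mul_le_mul_of_nonneg_left (h.lam e) (by positivity)).trans ?_
  have h5 : 26 * F.Rs e * F.t e.1 ^ 30 = 26 * F.t e.1 ^ 18 := by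
    unfold Frm.Rs
    field_simp
  have h6 := emb1_pow ht (h.t_small e.1) 6 11
  have h7 : 0 < F.t e.1 ^ 18 := pow_pos ht 18
  norm_num at h6
  linarith

end

variable (h : F.Adm d) (hs : F.Sol d C)
include h hs

theorem height_far {k : ℕ} {z : ℂ} (hz : z ∈ F.Far d k) :
    |C k + F.h0 d k z - F.Ut d C k (F.H d k z)| ≤ F.T k ^ 6 := by
  have h1 := h.H_near hs (h.Far_sub k hz)
  rw [emb1_sum]
  refine (h.emb1_card (k := k) subset_rfl fun e he => ?_).trans ?_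
  · have hk := mem_sides_iff.1 he
    have h2 := h.emb1_far e (y := F.H d k z) (hz e he) (by rw [hk]; exact h1)
    rwa [hk] at h2
  · have h6 := emb1_pow (h.T_pos k) (h.T_le k) 6 0
    have h7 : 0 < F.T k ^ 7 := pow_pos (h.T_pos k) 7
    norm_num at h6
    linarith

/-- comparison with the model of the same layer near a side -/
lemma emb1_own (e : ι × Bool) {z : ℂ} (hz : z ∈ F.Ub d (F.lay e))
    (hn : ‖z - d.pos e‖ < F.Rs e) : ∃ N : ℝ, 0 ≤ N ∧
      |C (F.lay e) + F.h0 d (F.lay e) z - F.Ut d C (F.lay e) (F.H d (F.lay e) z) +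
        (F.rab d e).re * N| ≤ F.T (F.lay e) ^ 6 := by
  have h1 := h.H_near hs hz
  have hb := hz e (self_mem_sides e)
  have hT := h.T_pos (F.lay e)
  refine ⟨Real.log (max ‖F.H d (F.lay e) z - d.pos e‖ (F.Rs e)) - Real.log ‖z - d.pos e‖,
    sub_nonneg.2 (Real.log_le_log ((h.bet_pos e).trans_le hb)
      (hn.le.trans (le_max_right _ _))), ?_⟩
  rw [emb1_sum, sum_sides_split]
  have h2 := h.emb1_prim e hb
  have h3 : |∑ μ ∈ F.oth e, emb1T F d μ z (F.H d (F.lay e) z)| ≤ 3 * F.T (F.lay e) ^ 7 := by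
    refine h.emb1_card (fun μ hμ => mem_sides_iff.2 (mem_oth.1 hμ).2) fun μ hμ => ?_
    have hk := (mem_oth.1 hμ).2
    have h4 := (h.emb1_away hμ (z := z) (by linarith [h.emb1_RsR e, h.R_pos e])).2
    have h5 := h.emb1_far μ (y := F.H d (F.lay e) z) h4 (by rw [hk]; exact h1)
    rwa [hk] at h5
  have h6 := emb1_pow hT (h.T_le _) 6 0
  have h7 := emb1_pow hT (h.T_le _) 7 0
  have h8 : 0 < F.T (F.lay e) ^ 8 := pow_pos hT 8
  norm_num at h6 h7
  obtain ⟨a1, a2⟩ := abs_le.1 h2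
  obtain ⟨b1, b2⟩ := abs_le.1 h3
  unfold emb1T at *
  rw [abs_le]
  constructor <;> linarith

/-- comparison with the model of the other layer near a side -/
lemma emb1_other (e : ι × Bool) {z : ℂ} (hz : z ∈ F.Ub d (F.lay e))
    (hn : ‖z - d.pos e‖ < F.Rs e) : ∃ N : ℝ, 1 ≤ N ∧
      |C (F.lay e) + F.h0 d (F.lay e) z - F.Ut d C (F.lay (opp e)) (F.H d (F.lay e) z) +
        (F.rab d (opp e)).re * N| ≤ F.T (F.lay e) ^ 6 + ‖d.bet e‖ / 2 := by
  have h1 := h.H_near hs hz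
  have hb := hz e (self_mem_sides e)
  have hβ := h.bet_pos e
  have ht := h.t_pos e.1
  have hR := h.R_pos e
  have hRs := h.Rs_pos e
  have hv : 0 < ‖z - d.pos e‖ := hβ.trans_le hb
  have hm := h.matching hs e ((h.emb1_b2 e).trans_le hb) (hn.trans_le (h.emb1_RsR e))
  rw [add_sub_cancel] at hm
  obtain ⟨-, m2⟩ := X_eq_iff.1 hm
  have hw := norm_par_sub (d := d) e (z - d.pos e)
  generalize d.par e (z - d.pos e) = z' at m2 hw
  generalize F.H d (F.lay e) z = y at h1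
  have w1 : ‖z' - d.pos (opp e)‖ ≤ ‖d.bet e‖ := by
    rw [hw, div_le_iff₀ hv, sq]
    exact mul_le_mul_of_nonneg_left hb hβ.le
  have w2 : ‖d.bet e‖ ^ 2 / F.Rs e ≤ ‖z' - d.pos (opp e)‖ := by
    rw [hw]
    exact div_le_div_of_nonneg_left (by positivity) hv hn.le
  have w3 : 0 < ‖z' - d.pos (opp e)‖ := lt_of_lt_of_le (by positivity) w2
  have y1 : ‖y - d.pos (opp e)‖ ≤ 3 * F.Rs e := by
    have a1 : ‖y - d.pos (opp e)‖ ≤ ‖y - z‖ + ‖z - d.pos e‖ + ‖d.pos e - d.pos (opp e)‖ := by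
      have := norm_add₃_le (a := y - z) (b := z - d.pos e) (c := d.pos e - d.pos (opp e))
      rwa [sub_add_sub_cancel, sub_add_sub_cancel] at this
    have a2 : (F.T (F.lay e))⁻¹ ^ 3 ≤ (F.t e.1)⁻¹ ^ 3 :=
      pow_le_pow_left₀ (inv_pos.2 (h.T_pos _)).le (inv_anti₀ ht (h.t_le e)) 3
    have a3 := h.pq e
    have a4 := h.emb1_u3 e
    linarith
  have h2 := h.emb1_lam (opp e) (z := z') (y := y) (w1.trans (h.emb1_bRs e)) y1
  have h3 : F.t e.1 ^ 6 ≤ F.T (F.lay e) ^ 6 := pow_le_pow_left₀ ht.le (h.t_le e) 6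
  have h4 : |(F.prim d (F.ab d (F.lay (opp e))) (opp e) z').re| ≤ ‖d.bet e‖ / 2 := by
    have a1 := h.prim_ab (opp e) (z := z') (by
      rw [norm_bet_opp, R_opp]
      exact (div_le_div_of_nonneg_left (by positivity) hRs (h.emb1_RsR e)).trans w2)
    rw [norm_bet_opp, R_opp] at a1
    have a2 : 5 * ‖d.bet e‖ ^ 3 / (F.R e * ‖z' - d.pos (opp e)‖) ≤
        5 * ‖d.bet e‖ ^ 3 / (F.R e * (‖d.bet e‖ ^ 2 / F.Rs e)) :=
      div_le_div_of_nonneg_left (by positivity) (by positivity)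
        (mul_le_mul_of_nonneg_left w2 hR.le)
    have a3 : 5 * ‖d.bet e‖ ^ 3 / (F.R e * (‖d.bet e‖ ^ 2 / F.Rs e)) =
        ‖d.bet e‖ * (5 * F.t e.1 ^ 4) := by
      unfold Frm.R Frm.Rs
      field_simp
    have a4 := emb1_pow ht (h.t_small e.1) 0 3
    norm_num at a4
    have a5 := mul_le_mul_of_nonneg_left (by linarith : 5 * F.t e.1 ^ 4 ≤ 1 / 2) hβ.le
    refine (abs_re_le_norm _).trans ?_
    linarith
  refine ⟨Real.log (max ‖y - d.pos (opp e)‖ (F.Rs (opp e))) - Real.log ‖z' - d.pos (opp e)‖,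
    ?_, ?_⟩
  · have a0 := h.emb1_u e
    have a1 : Real.log ‖z' - d.pos (opp e)‖ ≤ Real.log (F.t e.1)⁻¹ :=
      Real.log_le_log w3 (w1.trans (h.bet_le e))
    have a2 : Real.log (F.Rs e) ≤ Real.log (max ‖y - d.pos (opp e)‖ (F.Rs (opp e))) :=
      Real.log_le_log hRs (le_max_right _ _)
    have a3 : Real.log (F.Rs e) = 12 * Real.log (F.t e.1)⁻¹ := by
      unfold Frm.Rs
      rw [Real.log_pow]
      norm_num
    have a4 := Real.one_sub_inv_le_log_of_pos (inv_pos.2 ht)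
    rw [inv_inv] at a4
    have a5 := h.t_small e.1
    linarith
  · rw [m2, emb1_sum, sum_sides_split]
    obtain ⟨a1, a2⟩ := abs_le.1 h2
    obtain ⟨b1, b2⟩ := abs_le.1 h4
    rw [opp_fst] at a1 a2
    unfold emb1T at *
    rw [abs_le]
    constructor <;> linarith

theorem height_lo (ν : ι) {z : ℂ} (hz : z ∈ F.Ub d (F.gap ν))
    (hn : ‖z - d.pos (ν, false)‖ < F.Rs (ν, false)) :
    F.Ut d C (F.gap ν) (F.H d (F.gap ν) z) - F.T (F.gap ν) ^ 6 ≤ C (F.gap ν) + F.h0 d (F.gap ν) z ∧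
      C (F.gap ν) + F.h0 d (F.gap ν) z ≤
        F.Ut d C (F.gap ν + 1) (F.H d (F.gap ν) z) + F.T (F.gap ν) ^ 6 := by
  have hz' : z ∈ F.Ub d (F.lay (ν, false)) := by rwa [lay_false]
  obtain ⟨N, hN, h1⟩ := h.emb1_own hs (ν, false) hz' hn
  obtain ⟨M, hM, h2⟩ := h.emb1_other hs (ν, false) hz' hn
  rw [opp_false, lay_true, bet_false] at h2
  rw [lay_false] at h1 h2
  have a1 := h.rab_lo ν
  have a2 := h.rab_up ν
  have a3 := norm_nonneg (d.2 ν)
  have a4 := mul_nonneg (by linarith : 0 ≤ -(F.rab d (ν, false)).re) hN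
  have a5 := mul_le_mul_of_nonneg_left hM (by linarith : 0 ≤ (F.rab d (ν, true)).re)
  have b1 := (abs_le.1 h1).1
  have b2 := (abs_le.1 h2).2
  constructor <;> linarith

theorem height_up (ν : ι) {z : ℂ} (hz : z ∈ F.Ub d (F.gap ν + 1))
    (hn : ‖z - d.pos (ν, true)‖ < F.Rs (ν, true)) :
    F.Ut d C (F.gap ν) (F.H d (F.gap ν + 1) z) - F.T (F.gap ν + 1) ^ 6 ≤
        C (F.gap ν + 1) + F.h0 d (F.gap ν + 1) z ∧
      C (F.gap ν + 1) + F.h0 d (F.gap ν + 1) z ≤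
        F.Ut d C (F.gap ν + 1) (F.H d (F.gap ν + 1) z) + F.T (F.gap ν + 1) ^ 6 := by
  have hz' : z ∈ F.Ub d (F.lay (ν, true)) := by rwa [lay_true]
  obtain ⟨N, hN, h1⟩ := h.emb1_own hs (ν, true) hz' hn
  obtain ⟨M, hM, h2⟩ := h.emb1_other hs (ν, true) hz' hn
  rw [opp_true, lay_false, norm_bet] at h2
  rw [lay_true] at h1 h2
  have a1 := h.rab_lo ν
  have a2 := h.rab_up ν
  have a3 := norm_nonneg (d.2 ν)
  have a4 := mul_nonneg (by linarith : 0 ≤ (F.rab d (ν, true)).re) hN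
  have a5 := mul_le_mul_of_nonneg_left hM (by linarith : 0 ≤ -(F.rab d (ν, false)).re)
  have b1 := (abs_le.1 h1).2
  have b2 := (abs_le.1 h2).1
  constructor <;> linarith

end Frm.Adm

end Pool.Agent.MP_943ae2_gt

end
end

section

open Set Complex Filter
open scoped Topology ComplexConjugate ContDiff

noncomputable section

namespace Pool.Agent.MP_943ae2_gt

variable {ι : Type} {F : Frm ι} {d : Dat ι} {C : ℕ → ℝ}

/-- the two points correspond to each other across a neck -/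
def Frm.Rel (F : Frm ι) (d : Dat ι) (k : ℕ) (z : ℂ) (k' : ℕ) (z' : ℂ) : Prop :=
  ∃ e v, F.lay e = k ∧ F.lay (opp e) = k' ∧ ‖d.bet e‖ ^ 2 / F.R e < ‖v‖ ∧ ‖v‖ < F.R e ∧
    z = d.pos e + v ∧ z' = d.par e v

theorem emb2_mk3 (z : ℂ) (s : ℝ) : ‖z‖ ≤ ‖mk3 z s‖ ∧ |s| ≤ ‖mk3 z s‖ := by
  have h1 : ‖mk3 z s‖ ^ 2 = ‖z‖ ^ 2 + s ^ 2 := by
    rw [EuclideanSpace.norm_sq_eq, Fin.sum_univ_three, Complex.sq_norm, Complex.normSq_apply]
    simp [mk3]
    ring
  refine ⟨(pow_le_pow_iff_left₀ (norm_nonneg _) (norm_nonneg _) two_ne_zero).1 ?_,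
    (pow_le_pow_iff_left₀ (abs_nonneg _) (norm_nonneg _) two_ne_zero).1 ?_⟩
  · rw [h1]; linarith [sq_nonneg s]
  · rw [h1, sq_abs]; linarith [sq_nonneg ‖z‖]

theorem emb2_lay (e : ι × Bool) :
    (F.lay e = F.gap e.1 ∧ F.lay (opp e) = F.gap e.1 + 1 ∧ e.2 = false) ∨
      (F.lay e = F.gap e.1 + 1 ∧ F.lay (opp e) = F.gap e.1 ∧ e.2 = true) := by
  rcases e with ⟨ν, _ | _⟩ <;> simp

namespace Frm.Adm

section
variable (h : F.Adm d)
include h

theorem emb2_x (e : ι × Bool) : 1000 ≤ (F.t e.1)⁻¹ := by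
  rw [le_inv_comm₀ (by norm_num) (h.t_pos _)]
  simpa using h.t_small e.1

theorem emb2_T (e : ι × Bool) : (F.T (F.lay e))⁻¹ ^ 3 ≤ (F.t e.1)⁻¹ ^ 3 :=
  pow_le_pow_left₀ (inv_pos.2 (h.T_pos _)).le (inv_anti₀ (h.t_pos _) (h.t_le e)) 3

theorem emb2_R (e : ι × Bool) : F.Rs e + 3 * (F.t e.1)⁻¹ ^ 3 ≤ F.R e := by
  have hx := h.emb2_x e
  unfold Frm.Rs Frm.R
  generalize (F.t e.1)⁻¹ = x at hx
  have h1 : x ^ 3 ≤ x ^ 12 := pow_le_pow_right₀ (by linarith) (by norm_num)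
  have h2 : (4 : ℝ) ≤ x ^ 4 := le_trans (by linarith) (le_self_pow₀ (by linarith) (by norm_num))
  have h3 : 0 < x ^ 12 := by positivity
  calc x ^ 12 + 3 * x ^ 3 ≤ x ^ 12 * 4 := by linarith
    _ ≤ x ^ 12 * x ^ 4 := by gcongr
    _ = x ^ 16 := by ring

theorem emb2_bet (e : ι × Bool) : ‖d.bet e‖ < F.R e := by
  have hx := h.emb2_x e
  have h1 := h.emb2_R e
  have h2 := h.Rs_pos e
  have h3 := h.bet_le e
  have h4 : (F.t e.1)⁻¹ ≤ (F.t e.1)⁻¹ ^ 3 := le_self_pow₀ (by linarith) (by norm_num)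
  linarith

theorem emb2_low (e : ι × Bool) {s : ℝ} (hs : ‖d.bet e‖ ≤ s) : ‖d.bet e‖ ^ 2 / F.R e < s := by
  refine lt_of_lt_of_le ?_ hs
  rw [div_lt_iff₀ (h.R_pos e), sq]
  exact mul_lt_mul_of_pos_left (h.emb2_bet e) (h.bet_pos e)

theorem emb2_inv (e : ι × Bool) {v : ℂ} (h1 : ‖d.bet e‖ ^ 2 / F.R e < ‖v‖) (h2 : ‖v‖ < F.R e) :
    ‖d.bet e‖ ^ 2 / F.R e < ‖conj (d.bet e ^ 2 / v)‖ ∧ ‖conj (d.bet e ^ 2 / v)‖ < F.R e := by
  have hb := h.bet_pos e
  have hR := h.R_pos e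
  have hv : 0 < ‖v‖ := lt_trans (by positivity) h1
  rw [Complex.norm_conj, norm_div, norm_pow]
  refine ⟨div_lt_div_of_pos_left (by positivity) hv h2, ?_⟩
  rw [div_lt_iff₀ hR] at h1
  rw [div_lt_iff₀ hv]
  linarith

theorem emb2_symm {k k' : ℕ} {z z' : ℂ} (hr : F.Rel d k z k' z') : F.Rel d k' z' k z := by
  obtain ⟨e, v, rfl, rfl, h1, h2, rfl, rfl⟩ := hr
  obtain ⟨h3, h4⟩ := h.emb2_inv e h1 h2
  exact ⟨opp e, conj (d.bet e ^ 2 / v), rfl, by rw [opp_opp], by simpa using h3, by simpa using h4,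
    rfl, (par_par (h.bet_ne e) v).symm⟩

theorem emb2_side {e μ : ι × Bool} (hl : F.lay μ = F.lay e)
    (hd : ‖d.pos e - d.pos μ‖ ≤ F.R e + F.R μ) : μ = e := by
  by_contra hne
  have hμ : μ ∈ F.oth e := mem_oth.2 ⟨hne, hl⟩
  have h1 := h.sep e μ hμ
  have h2 := h.sep' hμ
  have h3 := h.R_pos e
  linarith

theorem emb2_two {k k₁ k₂ : ℕ} {z z₁ z₂ : ℂ} (hr : F.Rel d k z k₁ z₁) (hr' : F.Rel d k₁ z₁ k₂ z₂) :
    k = k₂ ∧ z = z₂ := by
  obtain ⟨e, v, h0, rfl, h1, h2, h3, rfl⟩ := h.emb2_symm hr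
  obtain ⟨μ, w, g0, rfl, g1, g2, g3, rfl⟩ := hr'
  have hd : ‖d.pos e - d.pos μ‖ ≤ F.R e + F.R μ := by
    have : d.pos e - d.pos μ = w - v := by linear_combination g3 - h3
    rw [this]
    linarith [norm_sub_le w v]
  obtain rfl := h.emb2_side (g0.trans h0.symm) hd
  obtain rfl : v = w := by linear_combination g3 - h3
  exact ⟨rfl, rfl⟩

theorem emb2_trans {k k₁ k₂ : ℕ} {z z₁ z₂ : ℂ} (hr : (k = k₁ ∧ z = z₁) ∨ F.Rel d k z k₁ z₁)
    (hr' : (k₁ = k₂ ∧ z₁ = z₂) ∨ F.Rel d k₁ z₁ k₂ z₂) :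
    (k = k₂ ∧ z = z₂) ∨ F.Rel d k z k₂ z₂ := by
  rcases hr with ⟨rfl, rfl⟩ | hr
  · exact hr'
  · rcases hr' with ⟨rfl, rfl⟩ | hr'
    · exact Or.inr hr
    · exact Or.inl (h.emb2_two hr hr')

theorem emb2_symm' {k k' : ℕ} {z z' : ℂ} (hr : (k = k' ∧ z = z') ∨ F.Rel d k z k' z') :
    (k' = k ∧ z' = z) ∨ F.Rel d k' z' k z :=
  hr.imp (fun h => ⟨h.1.symm, h.2.symm⟩) h.emb2_symm

theorem emb2_mono (ho : F.Ord d C) {i j : ℕ} (hij : i < j) (p : ℂ) :
    F.Ut d C i p + F.T (i - 1) ^ 5 ≤ F.Ut d C j p := by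
  induction j, hij using Nat.le_induction with
  | base => exact ho.gap i p
  | succ j _ ih =>
    have h1 := ho.gap j p
    have h2 := pow_pos (h.T_pos (j - 1)) 5
    linarith

theorem emb2_ord (ho : F.Ord d C) {i j k k' : ℕ} {p : ℂ} {s : ℝ} (hk : i ≤ k + 1) (hk' : j ≤ k')
    (h1 : s ≤ F.Ut d C i p + F.T k ^ 6) (h2 : F.Ut d C j p - F.T k' ^ 6 ≤ s) : j ≤ i := by
  by_contra hlt
  have h3 := h.emb2_mono ho (not_le.1 hlt) p
  have h4 : F.T k ^ 6 ≤ F.T (i - 1) ^ 6 :=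
    pow_le_pow_left₀ (h.T_pos _).le (h.T_anti (by omega)) 6
  have h5 : F.T k' ^ 6 ≤ F.T (i - 1) ^ 6 :=
    pow_le_pow_left₀ (h.T_pos _).le (h.T_anti (by omega)) 6
  have h6 := pow_pos (h.T_pos (i - 1)) 5
  have h7 := h.T_le (i - 1)
  have h8 : F.T (i - 1) ^ 6 ≤ F.T (i - 1) ^ 5 * (1 / 1000) := by
    rw [pow_succ]; gcongr
  linarith

end

variable (h : F.Adm d) (hs : F.Sol d C)
include h hs

theorem emb2_X {k k' : ℕ} {z z' : ℂ} (hr : F.Rel d k z k' z') : F.X d C k z = F.X d C k' z' := by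
  obtain ⟨e, v, rfl, rfl, h1, h2, rfl, rfl⟩ := hr
  exact h.matching hs e h1 h2

theorem emb2_cls {k : ℕ} {z : ℂ} (hz : z ∈ F.Ub d k) :
    (z ∈ F.Far d k ∧ F.Ut d C k (F.H d k z) - F.T k ^ 6 ≤ C k + F.h0 d k z ∧
      C k + F.h0 d k z ≤ F.Ut d C k (F.H d k z) + F.T k ^ 6) ∨
    ∃ e, F.lay e = k ∧ ‖z - d.pos e‖ < F.Rs e ∧
      F.Ut d C (F.gap e.1) (F.H d k z) - F.T k ^ 6 ≤ C k + F.h0 d k z ∧
      C k + F.h0 d k z ≤ F.Ut d C (F.gap e.1 + 1) (F.H d k z) + F.T k ^ 6 := by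
  by_cases hf : z ∈ F.Far d k
  · have h1 := abs_le.1 (h.height_far hs hf)
    exact Or.inl ⟨hf, by linarith [h1.1], by linarith [h1.2]⟩
  · right
    simp only [Frm.Far, mem_setOf_eq, not_forall, not_le] at hf
    obtain ⟨e, he, hn⟩ := hf
    obtain rfl := mem_sides_iff.1 he
    refine ⟨e, rfl, hn, ?_⟩
    rcases e with ⟨ν, _ | _⟩
    · rw [lay_false] at hz ⊢
      exact h.height_lo hs ν hz hn
    · rw [lay_true] at hz ⊢
      exact h.height_up hs ν hz hn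

theorem emb2_dist {k k' : ℕ} {z z' : ℂ} (hz : z ∈ F.Ub d k) (hz' : z' ∈ F.Ub d k')
    (he : F.H d k z = F.H d k' z') : ‖z' - z‖ ≤ (F.T k)⁻¹ ^ 3 + (F.T k')⁻¹ ^ 3 := by
  have h1 := h.H_near hs hz
  have h2 := h.H_near hs hz'
  have h3 : z' - z = (F.H d k z - z) - (F.H d k' z' - z') := by rw [he]; ring
  rw [h3]
  linarith [norm_sub_le (F.H d k z - z) (F.H d k' z' - z')]

theorem emb2_near (e : ι × Bool) {k' : ℕ} {z z' : ℂ} (hz : z ∈ F.Ub d (F.lay e))
    (hz' : z' ∈ F.Ub d k') (hn : ‖z - d.pos e‖ < F.Rs e)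
    (hk : k' = F.gap e.1 ∨ k' = F.gap e.1 + 1) (he : F.X d C (F.lay e) z = F.X d C k' z') :
    (F.lay e = k' ∧ z = z') ∨ F.Rel d (F.lay e) z k' z' := by
  have hk' : k' = F.lay e ∨ k' = F.lay (opp e) := by
    rcases emb2_lay (F := F) e with h1 | h1 <;> omega
  have hd := h.emb2_dist hs hz hz' (X_eq_iff.1 he).1
  have t1 := h.emb2_T e
  have t2 : (F.T (F.lay (opp e)))⁻¹ ^ 3 ≤ (F.t e.1)⁻¹ ^ 3 := h.emb2_T (opp e)
  have t3 := h.emb2_R e
  have t4 : 0 < (F.t e.1)⁻¹ ^ 3 := pow_pos (inv_pos.2 (h.t_pos _)) 3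
  have v1 := h.emb2_low e (hz e (self_mem_sides e))
  have v2 : ‖z - d.pos e‖ < F.R e := by linarith
  rcases hk' with rfl | rfl
  · left
    have w1 := h.emb2_low e (hz' e (self_mem_sides e))
    have w2 : ‖z' - d.pos e‖ < F.R e := by
      linarith [norm_sub_le_norm_sub_add_norm_sub z' z (d.pos e)]
    have h1 := h.neck_inj hs e v1 v2 w1 w2 (by simpa using he)
    exact ⟨rfl, by linear_combination h1⟩
  · right
    have w1 := h.emb2_low (opp e) (hz' _ (self_mem_sides (opp e)))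
    have w2 : ‖z' - d.pos (opp e)‖ < F.R (opp e) := by
      rw [R_opp]
      linarith [norm_sub_le_norm_sub_add_norm_sub z' z (d.pos (opp e)),
        norm_sub_le_norm_sub_add_norm_sub z (d.pos e) (d.pos (opp e)), h.pq e]
    have r1 : F.Rel d (F.lay (opp e)) z' (F.lay e) (d.par (opp e) (z' - d.pos (opp e))) :=
      ⟨opp e, _, rfl, by rw [opp_opp], w1, w2, by ring, rfl⟩
    obtain ⟨u1, u2⟩ := h.emb2_inv (opp e) w1 w2
    have h2 : d.par (opp e) (z' - d.pos (opp e)) =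
        d.pos e + conj (d.bet (opp e) ^ 2 / (z' - d.pos (opp e))) := by
      rw [Dat.par, opp_opp]
    have h1 := h.neck_inj hs e v1 v2 (by simpa using u1) (by simpa using u2)
      (v' := conj (d.bet (opp e) ^ 2 / (z' - d.pos (opp e))))
      (by rw [← h2, ← h.emb2_X hs r1, ← he]; simp)
    have h3 : d.par (opp e) (z' - d.pos (opp e)) = z := by rw [h2, ← h1]; ring
    rw [h3] at r1
    exact h.emb2_symm r1

theorem emb2_skip {e μ : ι × Bool} {z z' : ℂ} (hz : z ∈ F.Ub d (F.lay e))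
    (hz' : z' ∈ F.Ub d (F.lay μ)) (hn : ‖z - d.pos e‖ < F.Rs e) (hn' : ‖z' - d.pos μ‖ < F.Rs μ)
    (hl : F.lay (opp μ) = F.lay (opp e)) (he : F.H d (F.lay e) z = F.H d (F.lay μ) z') :
    μ = e := by
  have hd := h.emb2_dist hs hz hz' he
  have t1 := h.emb2_T e
  have t2 := h.emb2_T μ
  have t3 := h.emb2_R e
  have t4 := h.emb2_R μ
  have t5 : 0 < (F.t e.1)⁻¹ ^ 3 := pow_pos (inv_pos.2 (h.t_pos _)) 3
  have t6 : 0 < (F.t μ.1)⁻¹ ^ 3 := pow_pos (inv_pos.2 (h.t_pos _)) 3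
  have h1 : opp μ = opp e := by
    refine h.emb2_side hl ?_
    rw [R_opp, R_opp, norm_sub_rev]
    have p1 := h.pq e
    have p2 := h.pq μ
    rw [norm_sub_rev] at p2 hn'
    linarith [norm_sub_le_norm_sub_add_norm_sub (d.pos (opp μ)) (d.pos μ) (d.pos (opp e)),
      norm_sub_le_norm_sub_add_norm_sub (d.pos μ) z' (d.pos (opp e)),
      norm_sub_le_norm_sub_add_norm_sub z' z (d.pos (opp e)),
      norm_sub_le_norm_sub_add_norm_sub z (d.pos e) (d.pos (opp e))]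
  rw [← opp_opp μ, h1, opp_opp]

theorem emb2_inj (ho : F.Ord d C) {k k' : ℕ} {z z' : ℂ} (hz : z ∈ F.Ub d k) (hz' : z' ∈ F.Ub d k')
    (he : F.X d C k z = F.X d C k' z') : (k = k' ∧ z = z') ∨ F.Rel d k z k' z' := by
  obtain ⟨hH, hh⟩ := X_eq_iff.1 he
  rcases h.emb2_cls hs hz with ⟨f, l1, u1⟩ | ⟨e, rfl, hn, l1, u1⟩ <;>
    rcases h.emb2_cls hs hz' with ⟨f', l2, u2⟩ | ⟨μ, rfl, hn', l2, u2⟩ <;>
    rw [← hH, ← hh] at l2 u2
  · have a1 := h.emb2_ord ho (Nat.le_succ _) le_rfl u1 l2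
    have a2 := h.emb2_ord ho (Nat.le_succ _) le_rfl u2 l1
    obtain rfl : k = k' := le_antisymm a2 a1
    exact Or.inl ⟨rfl, h.far_inj hs f f' hH⟩
  · have c := emb2_lay (F := F) μ
    have a1 := h.emb2_ord ho (Nat.le_succ _) (by omega) u1 l2
    have a2 := h.emb2_ord ho (by omega) le_rfl u2 l1
    exact h.emb2_symm' (h.emb2_near hs μ hz' hz hn' (by omega) he.symm)
  · have c := emb2_lay (F := F) e
    have a1 := h.emb2_ord ho (by omega) le_rfl u1 l2
    have a2 := h.emb2_ord ho (Nat.le_succ _) (by omega) u2 l1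
    exact h.emb2_near hs e hz hz' hn (by omega) he
  · have c := emb2_lay (F := F) e
    have c' := emb2_lay (F := F) μ
    have a1 := h.emb2_ord ho (by omega) (by omega) u1 l2
    have a2 := h.emb2_ord ho (by omega) (by omega) u2 l1
    by_cases b1 : F.lay μ = F.gap e.1 ∨ F.lay μ = F.gap e.1 + 1
    · exact h.emb2_near hs e hz hz' hn b1 he
    by_cases b2 : F.lay e = F.gap μ.1 ∨ F.lay e = F.gap μ.1 + 1
    · exact h.emb2_symm' (h.emb2_near hs μ hz' hz hn' b2 he.symm)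
    obtain rfl := h.emb2_skip hs hz hz' hn hn' (by omega) hH
    omega

theorem cover {k : ℕ} {z : ℂ} (hz : z ∈ F.U d k) :
    z ∈ F.Ub d k ∨ ∃ k', ∃ z' ∈ F.Ub d k', F.Rel d k z k' z' := by
  by_cases hb : z ∈ F.Ub d k
  · exact Or.inl hb
  right
  simp only [Frm.Ub, mem_setOf_eq, not_forall, not_le] at hb
  obtain ⟨e, he, hn⟩ := hb
  obtain rfl := mem_sides_iff.1 he
  have h1 := hz e he
  have h2 : ‖z - d.pos e‖ < F.R e := hn.trans (h.emb2_bet e)
  have h3 := (h.emb2_inv e h1 h2).2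
  have hb := h.bet_pos e
  have hR := h.R_pos e
  have hv : 0 < ‖z - d.pos e‖ := lt_trans (by positivity) h1
  refine ⟨F.lay (opp e), d.par e (z - d.pos e), h.mem_Ub (opp e) ?_ ?_,
    e, z - d.pos e, rfl, rfl, h1, h2, by ring, rfl⟩
  · rw [norm_bet_opp, Complex.norm_conj, norm_div, norm_pow, le_div_iff₀ hv, sq]
    exact mul_le_mul_of_nonneg_left hn.le hb.le
  · rw [R_opp]; linarith

theorem inj (ho : F.Ord d C) {k k' : ℕ} {z z' : ℂ} (hz : z ∈ F.U d k) (hz' : z' ∈ F.U d k')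
    (he : F.X d C k z = F.X d C k' z') : (k = k' ∧ z = z') ∨ F.Rel d k z k' z' := by
  have key : ∀ {k : ℕ} {z : ℂ}, z ∈ F.U d k → ∃ k₁, ∃ z₁ ∈ F.Ub d k₁,
      F.X d C k z = F.X d C k₁ z₁ ∧ ((k = k₁ ∧ z = z₁) ∨ F.Rel d k z k₁ z₁) := by
    intro k z hz
    rcases h.cover hs hz with hb | ⟨k₁, z₁, hb, hr⟩
    · exact ⟨k, z, hb, rfl, Or.inl ⟨rfl, rfl⟩⟩
    · exact ⟨k₁, z₁, hb, h.emb2_X hs hr, Or.inr hr⟩
  obtain ⟨k₁, z₁, b1, x1, r1⟩ := key hz
  obtain ⟨k₂, z₂, b2, x2, r2⟩ := key hz'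
  exact h.emb2_trans (h.emb2_trans r1 (h.emb2_inj hs ho b1 b2 (x1.symm.trans (he.trans x2))))
    (h.emb2_symm' r2)

theorem proper (ho : F.Ord d C) (r : ℝ) :
    ∃ K : ℕ, ∀ k, ∀ z ∈ F.Ub d k, ‖F.X d C k z‖ ≤ r → k ≤ K ∧ ‖z‖ ≤ K := by
  obtain ⟨K, hK⟩ := ho.up r (r + 1)
  refine ⟨max K ⌈r + (F.T K)⁻¹ ^ 3⌉₊, fun k z hz hr => ?_⟩
  obtain ⟨n1, n2⟩ := emb2_mk3 (F.H d k z) (2 * (C k + F.h0 d k z))
  have h1 : ‖F.H d k z‖ ≤ r := n1.trans hr
  have h2 : 2 * (C k + F.h0 d k z) ≤ r := (le_abs_self _).trans (n2.trans hr)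
  have h3 : 0 ≤ r := (norm_nonneg _).trans h1
  have h4 : F.T k ^ 6 < 1 :=
    pow_lt_one₀ (h.T_pos k).le ((h.T_le k).trans_lt (by norm_num)) (by norm_num)
  have hk : k ≤ K := by
    by_contra hlt
    rcases h.emb2_cls hs hz with ⟨-, l1, -⟩ | ⟨e, rfl, -, l1, -⟩
    · linarith [hK k (by omega) _ h1]
    · have c := emb2_lay (F := F) e
      linarith [hK (F.gap e.1) (by omega) _ h1]
  refine ⟨hk.trans (le_max_left _ _), ?_⟩
  have h5 := h.H_near hs hz
  have h6 : (F.T k)⁻¹ ^ 3 ≤ (F.T K)⁻¹ ^ 3 :=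
    pow_le_pow_left₀ (inv_pos.2 (h.T_pos _)).le (inv_anti₀ (h.T_pos _) (h.T_anti hk)) 3
  have h7 : ‖z‖ ≤ ‖F.H d k z‖ + ‖F.H d k z - z‖ := by
    simpa using norm_sub_le (F.H d k z) (F.H d k z - z)
  have h8 := Nat.le_ceil (r + (F.T K)⁻¹ ^ 3)
  have h9 : ((⌈r + (F.T K)⁻¹ ^ 3⌉₊ : ℕ) : ℝ) ≤ (max K ⌈r + (F.T K)⁻¹ ^ 3⌉₊ : ℕ) :=
    Nat.cast_le.2 (le_max_right _ _)
  linarith

end Frm.Adm

end Pool.Agent.MP_943ae2_gt

end
end

section

open Set Complex Filter
open scoped Topology ComplexConjugate ContDiff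

noncomputable section

namespace Pool.Agent.MP_943ae2_gt

open scoped Manifold

theorem glue1_toC_toE2 (z : ℂ) : toC (toE2 z) = z := by
  apply Complex.ext <;> simp [toC, toE2]

theorem glue1_toE2_toC (x : E2) : toE2 (toC x) = x := by
  ext i
  fin_cases i <;> simp [toC, toE2]

theorem glue1_contDiff_toE2 : ContDiff ℝ ∞ toE2 := by
  refine contDiff_euclidean.2 fun i => ?_
  fin_cases i
  · exact reCLM.contDiff
  · exact imCLM.contDiff

theorem glue1_contDiff_toC : ContDiff ℝ ∞ toC := by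
  have : toC = fun x : E2 => (x 0 : ℝ) • (1 : ℂ) + (x 1 : ℝ) • I := by
    funext x
    apply Complex.ext <;> simp [toC]
  rw [this]
  fun_prop

theorem glue1_mk3 {f : ℂ → ℂ} {h : ℂ → ℝ} {U : Set ℂ} (hf : ContDiffOn ℝ ∞ f U)
    (hh : ContDiffOn ℝ ∞ h U) : ContDiffOn ℝ ∞ (fun z => mk3 (f z) (h z)) U := by
  refine contDiffOn_euclidean.2 fun i => ?_
  fin_cases i
  · exact reCLM.contDiff.comp_contDiffOn hf
  · exact imCLM.contDiff.comp_contDiffOn hf
  · exact hh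

theorem Wei.contDiffAt {X : ℂ → E3} {a b : ℂ → ℂ} {U : Set ℂ} (hU : IsOpen U)
    (ha : DifferentiableOn ℂ a U) (hb : DifferentiableOn ℂ b U)
    (hw : ∀ z ∈ U, Wei X (a z) (b z) z) {z : ℂ} (hz : z ∈ U) : ContDiffAt ℝ ∞ X z := by
  have ha' : ContDiffOn ℝ ∞ a U := (ha.contDiffOn hU).restrict_scalars ℝ
  have hb' : ContDiffOn ℝ ∞ b U := (hb.contDiffOn hU).restrict_scalars ℝ
  have hv : ∀ v : ℂ, ContDiffOn ℝ ∞
      (fun z => mk3 (a z ^ 2 * v - conj (b z ^ 2 * v)) (2 * (a z * b z * v).re)) U := fun v =>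
    glue1_mk3 (((ha'.pow 2).mul contDiffOn_const).sub
        (conjCLE.contDiff.comp_contDiffOn ((hb'.pow 2).mul contDiffOn_const)))
      (contDiffOn_const.mul (reCLM.contDiff.comp_contDiffOn ((ha'.mul hb').mul contDiffOn_const)))
  refine ContDiffOn.contDiffAt ?_ (hU.mem_nhds hz)
  refine (contDiffOn_infty_iff_fderiv_of_isOpen hU).2 ⟨fun y hy => ?_, ?_⟩
  · obtain ⟨L, hL, -⟩ := hw y hy
    exact hL.differentiableAt.differentiableWithinAt
  · refine contDiffOn_clm_apply.2 fun v => (hv v).congr fun y hy => ?_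
    obtain ⟨L, hL, h⟩ := hw y hy
    rw [hL.fderiv, h]

theorem glue1_cont (A : Atlas) (k : ℕ) {z : ℂ} (hz : z ∈ A.U k) : ContinuousAt (A.X k) z := by
  obtain ⟨L, hL, -⟩ := A.wei k z hz
  exact hL.continuousAt

theorem Atlas.isOpen_image (A : Atlas) (k : ℕ) {O : Set ℂ} (hO : IsOpen O) (hs : O ⊆ A.U k) :
    IsOpen ((Subtype.val : A.S → E3) ⁻¹' (A.X k '' O)) := by
  have hV : ∀ k', IsOpen {z' | z' ∈ A.U k' ∧ A.X k' z' ∈ A.X k '' O} := fun k' => by
    refine isOpen_iff_mem_nhds.2 ?_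
    rintro z' ⟨hz', z, hz, e⟩
    obtain ⟨φ, h1, h2, h3⟩ := A.rel k' k z' hz' z (hs hz) e.symm
    have h4 : ∀ᶠ y in 𝓝 z', φ y ∈ O := h1.continuousAt.eventually (hO.mem_nhds (h2 ▸ hz))
    filter_upwards [h3, h4, (A.opn k').mem_nhds hz'] with y y1 y2 y3
    exact ⟨y3, φ y, y2, y1⟩
  refine isOpen_iff_mem_nhds.2 fun p hp => ?_
  obtain ⟨K, hK⟩ := A.proper (‖p.1‖ + 1)
  have hC : IsClosed (⋃ k' ∈ Finset.range (K + 1), A.X k' '' ((A.Ub k' ∩ Metric.closedBall 0 K) \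
      {z' | z' ∈ A.U k' ∧ A.X k' z' ∈ A.X k '' O})) := by
    refine isClosed_biUnion_finset fun k' _ => IsCompact.isClosed ?_
    refine IsCompact.image_of_continuousOn
      (((isCompact_closedBall 0 K).inter_left (A.cls k')).diff (hV k')) fun z hz => ?_
    exact (glue1_cont A k' (A.sub k' hz.1.1)).continuousWithinAt
  have h1 := continuous_subtype_val.continuousAt (x := p) |>.eventually
    (hC.isOpen_compl.mem_nhds (by
      simp only [mem_compl_iff, mem_iUnion, not_exists]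
      rintro k' - ⟨z, hz, e⟩
      exact hz.2 ⟨A.sub k' hz.1.1, e ▸ hp⟩))
  have h2 := continuous_subtype_val.continuousAt (x := p) |>.eventually
    (Metric.ball_mem_nhds p.1 one_pos)
  filter_upwards [h1, h2] with q q1 q2
  obtain ⟨k₁, z₁, hz₁, e₁⟩ := mem_iUnion.1 q.2
  obtain ⟨k', z', hz', e'⟩ := A.cover k₁ z₁ hz₁
  have e : A.X k' z' = q.1 := e'.trans e₁
  have hn : ‖A.X k' z'‖ ≤ ‖p.1‖ + 1 := by
    rw [e]
    have := norm_le_norm_add_norm_sub' q.1 p.1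
    have q3 : ‖q.1 - p.1‖ < 1 := mem_ball_iff_norm.1 q2
    linarith
  obtain ⟨h3, h4⟩ := hK k' z' hz' hn
  by_contra hq
  refine q1 (mem_iUnion₂.2 ⟨k', Finset.mem_range.2 (by omega), z',
    ⟨⟨hz', mem_closedBall_zero_iff.2 h4⟩, fun h => hq ?_⟩, e⟩)
  have := h.2
  rwa [e] at this

open scoped Classical in
/-- the inverse of the parametrisation number `k` as a chart -/
def glue1Chart (A : Atlas) (k : ℕ) (p₀ : A.S) : OpenPartialHomeomorph A.S E2 where
  toFun p := toE2 (Function.invFunOn (A.X k) (A.U k) p.1)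
  invFun y := if h : toC y ∈ A.U k then
    ⟨A.X k (toC y), mem_iUnion.2 ⟨k, mem_image_of_mem _ h⟩⟩ else p₀
  source := Subtype.val ⁻¹' (A.X k '' A.U k)
  target := toC ⁻¹' A.U k
  map_source' p hp := by
    rw [mem_preimage, glue1_toC_toE2]
    exact Function.invFunOn_mem hp
  map_target' y hy := by
    rw [mem_preimage, dif_pos (show toC y ∈ A.U k from hy)]
    exact mem_image_of_mem _ hy
  left_inv' p hp := by
    have h : toC (toE2 (Function.invFunOn (A.X k) (A.U k) p.1)) ∈ A.U k := by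
      rw [glue1_toC_toE2]
      exact Function.invFunOn_mem hp
    rw [dif_pos h]
    refine Subtype.ext ?_
    simp only [glue1_toC_toE2]
    exact Function.invFunOn_eq hp
  right_inv' y hy := by
    rw [dif_pos (show toC y ∈ A.U k from hy)]
    simp only
    rw [(A.inj k).leftInvOn_invFunOn hy, glue1_toE2_toC]
  open_source := A.isOpen_image k (A.opn k) Subset.rfl
  open_target := (A.opn k).preimage glue1_contDiff_toC.continuous
  continuousOn_toFun := by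
    refine glue1_contDiff_toE2.continuous.comp_continuousOn ?_
    refine (continuousOn_open_iff (A.isOpen_image k (A.opn k) Subset.rfl)).2 fun t ht => ?_
    convert A.isOpen_image k ((A.opn k).inter ht) inter_subset_left using 1
    ext p
    constructor
    · rintro ⟨hp, hp'⟩
      exact ⟨_, ⟨Function.invFunOn_mem hp, hp'⟩, Function.invFunOn_eq hp⟩
    · rintro ⟨z, hz, e⟩
      refine ⟨⟨z, hz.1, e⟩, ?_⟩
      rw [mem_preimage, ← e, (A.inj k).leftInvOn_invFunOn hz.1]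
      exact hz.2
  continuousOn_invFun := by
    refine Topology.IsInducing.subtypeVal.continuousOn_iff.2 ?_
    refine ContinuousOn.congr (f := fun y => A.X k (toC y)) (fun y hy => ?_) fun y hy => ?_
    · exact ((glue1_cont A k hy).comp glue1_contDiff_toC.continuous.continuousAt).continuousWithinAt
    · simp only [Function.comp]
      rw [dif_pos (show toC y ∈ A.U k from hy)]

theorem glue1_symm (A : Atlas) (k : ℕ) (p₀ : A.S) {y : E2} (hy : toC y ∈ A.U k) :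
    ((glue1Chart A k p₀).symm y).1 = A.X k (toC y) := by
  classical
  change (dite _ _ _ : A.S).1 = _
  rw [dif_pos hy]

theorem Atlas.manifold (A : Atlas) : ∃ (_ : ChartedSpace E2 A.S) (_ : IsManifold (𝓡 2) ∞ A.S),
    A.Charts (Subtype.val : A.S → E3) := by
  choose κ hκ using fun p : A.S => mem_iUnion.1 p.2
  let C : ChartedSpace E2 A.S :=
    { atlas := {e | ∃ k p, e = glue1Chart A k p}
      chartAt := fun p => glue1Chart A (κ p) p
      mem_chart_source := fun p => hκ p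
      chart_mem_atlas := fun p => ⟨κ p, p, rfl⟩ }
  refine ⟨C, isManifold_of_contDiffOn _ _ _ ?_, fun p => ?_⟩
  · rintro _ _ ⟨k, p, rfl⟩ ⟨k', p', rfl⟩
    simp only [modelWithCornersSelf_coe, modelWithCornersSelf_coe_symm, Function.comp_id,
      Function.id_comp, preimage_id, range_id, inter_univ]
    intro y hy
    have hy1 : toC y ∈ A.U k := hy.1
    obtain ⟨z', hz', e⟩ : ((glue1Chart A k p).symm y).1 ∈ A.X k' '' A.U k' := hy.2
    rw [glue1_symm A k p hy1] at e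
    obtain ⟨φ, h1, h2, h3⟩ := A.rel k k' _ hy1 z' hz' e.symm
    have h4 : ∀ᶠ w in 𝓝 (toC y), φ w ∈ A.U k' :=
      h1.continuousAt.eventually ((A.opn k').mem_nhds (h2 ▸ hz'))
    have h5 := glue1_contDiff_toC.continuous.continuousAt.eventually
      (h3.and (h4.and ((A.opn k).mem_nhds hy1)))
    refine ContDiffAt.contDiffWithinAt ?_
    refine (glue1_contDiff_toE2.contDiffAt.comp y
      (h1.comp y glue1_contDiff_toC.contDiffAt)).congr_of_eventuallyEq ?_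
    filter_upwards [h5] with w hw
    change toE2 (Function.invFunOn (A.X k') (A.U k') ((glue1Chart A k p).symm w).1) =
      toE2 (φ (toC w))
    rw [glue1_symm A k p hw.2.2, ← hw.1, (A.inj k').leftInvOn_invFunOn hw.2.1]
  · have h1 := Function.invFunOn_mem (hκ p)
    refine ⟨κ p, _, h1, rfl, (Function.invFunOn_eq (hκ p)).symm, ?_⟩
    have h2 : toC (ctr p) ∈ A.U (κ p) := by
      change toC (toE2 _) ∈ _
      rwa [glue1_toC_toE2]
    filter_upwards [glue1_contDiff_toC.continuous.continuousAt.eventually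
      ((A.opn (κ p)).mem_nhds h2)] with y hy
    exact glue1_symm A (κ p) p hy

end Pool.Agent.MP_943ae2_gt

end
end

section

open Set Complex Filter
open scoped Topology ComplexConjugate ContDiff

noncomputable section

namespace Pool.Agent.MP_943ae2_gt

open scoped Manifold

namespace Glue2X

open scoped RealInnerProductSpace

/-- `toC` as a continuous linear equivalence -/
def cE : E2 ≃L[ℝ] ℂ := orthonormalBasisOneI.repr.symm.toContinuousLinearEquiv

lemma cE_eq (y : E2) : cE y = toC y := by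
  change orthonormalBasisOneI.repr.symm y = _
  rw [orthonormalBasisOneI_repr_symm_apply]
  apply Complex.ext <;> simp [toC]

lemma toC_eq : toC = cE := funext fun y => (cE_eq y).symm

lemma cE_toE2 (z : ℂ) : cE (toE2 z) = z := by
  rw [cE_eq]
  apply Complex.ext <;> simp [toC, toE2]

/-- the two coordinate directions -/
def dir (i : Fin 2) : ℂ := cE (EuclideanSpace.single i 1)

lemma dir0 : dir 0 = 1 := by
  unfold dir
  rw [cE_eq]
  apply Complex.ext <;> simp [toC]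

lemma dir1 : dir 1 = I := by
  unfold dir
  rw [cE_eq]
  apply Complex.ext <;> simp [toC]

lemma pd_comp {F : Type} [NormedAddCommGroup F] [NormedSpace ℝ F] (g : ℂ → F) (i : Fin 2) :
    pd (g ∘ cE) i = (fun w => fderiv ℝ g w (dir i)) ∘ cE := by
  funext y
  unfold pd
  rw [cE.comp_right_fderiv]
  rfl

lemma pd_congr {F : Type} [NormedAddCommGroup F] [NormedSpace ℝ F] {g g' : E2 → F} {x : E2}
    (h : g =ᶠ[𝓝 x] g') (i : Fin 2) : pd g i =ᶠ[𝓝 x] pd g' i := by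
  filter_upwards [h.fderiv (𝕜 := ℝ)] with y hy
  unfold pd
  rw [hy]

/-- the real linear map behind the Weierstrass representation -/
def lamL : (ℂ × ℂ × ℂ) →ₗ[ℝ] E3 where
  toFun t := mk3 (t.1 - conj t.2.1) (2 * t.2.2.re)
  map_add' s t := by
    ext i
    fin_cases i <;> simp [mk3] <;> ring
  map_smul' c t := by
    ext i
    fin_cases i <;> simp [mk3] <;> ring

def lam : (ℂ × ℂ × ℂ) →L[ℝ] E3 := LinearMap.toContinuousLinearMap lamL

def tri (a b : ℂ) : ℂ × ℂ × ℂ := (a ^ 2, b ^ 2, a * b)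

lemma lam_tri (a b v : ℂ) :
    lam (v • tri a b) = mk3 (a ^ 2 * v - conj (b ^ 2 * v)) (2 * (a * b * v).re) := by
  change mk3 (v * a ^ 2 - conj (v * b ^ 2)) (2 * (v * (a * b)).re) = _
  rw [mul_comm v, mul_comm v, mul_comm v]

lemma inner_mk3 (z z' : ℂ) (h h' : ℝ) :
    ⟪mk3 z h, mk3 z' h'⟫ = z.re * z'.re + z.im * z'.im + h * h' := by
  simp [mk3, PiLp.inner_apply, Fin.sum_univ_three]
  ring

/-- the conformal factor -/
def cf (a b : ℂ) : ℝ := (normSq a + normSq b) ^ 2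

lemma cf_pos {a : ℂ} (h : a ≠ 0) (b : ℂ) : 0 < cf a b :=
  pow_pos (add_pos_of_pos_of_nonneg (normSq_pos.2 h) (normSq_nonneg b)) 2

lemma inner00 (a b : ℂ) : ⟪lam (dir 0 • tri a b), lam (dir 0 • tri a b)⟫ = cf a b := by
  rw [lam_tri, inner_mk3, dir0]
  simp [cf, normSq_apply, sq]
  ring

lemma inner11 (a b : ℂ) : ⟪lam (dir 1 • tri a b), lam (dir 1 • tri a b)⟫ = cf a b := by
  rw [lam_tri, inner_mk3, dir1]
  simp [cf, normSq_apply, sq]
  ring

lemma inner01 (a b : ℂ) : ⟪lam (dir 0 • tri a b), lam (dir 1 • tri a b)⟫ = 0 := by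
  rw [lam_tri, lam_tri, inner_mk3, dir0, dir1]
  simp [sq]
  ring

lemma pd_lam {G : ℂ → ℂ × ℂ × ℂ} {G' : ℂ × ℂ × ℂ} {x : E2} (hG : HasDerivAt G G' (cE x)) (c : ℂ)
    (i : Fin 2) : pd ((fun w => lam (c • G w)) ∘ cE) i x = lam (dir i • c • G') := by
  have h1 := lam.hasFDerivAt.comp (cE x) ((hG.const_smul c).hasFDerivAt.restrictScalars ℝ)
  rw [pd_comp]
  change fderiv ℝ (lam ∘ fun w => c • G w) (cE x) (dir i) = _
  erw [h1.fderiv]
  rfl

variable {M : Type} [TopologicalSpace M] [ChartedSpace E2 M]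

lemma smooth [IsManifold (𝓡 2) ∞ M] {F : Type} [NormedAddCommGroup F] [NormedSpace ℝ F]
    {g : M → F} {G : ℂ → F} {p : M} (hG : ContDiffAt ℝ ∞ G (cE (ctr p)))
    (he : loc g p =ᶠ[𝓝 (ctr p)] G ∘ cE) : ContMDiffAt (𝓡 2) 𝓘(ℝ, F) ∞ g p := by
  have hs := (chartAt E2 p).open_source.mem_nhds (mem_chart_source E2 p)
  have h1 : ContMDiffAt (𝓡 2) 𝓘(ℝ, E2) ∞ (chartAt E2 p) p := contMDiffOn_chart.contMDiffAt hs
  have h2 : ContDiffAt ℝ ∞ (G ∘ cE) (chartAt E2 p p) := hG.comp _ cE.contDiff.contDiffAt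
  refine (h2.comp_contMDiffAt h1).congr_of_eventuallyEq ?_
  filter_upwards [hs, h1.continuousAt.eventually he] with x hx hx'
  have : loc g p (chartAt E2 p x) = g x := by
    unfold loc
    rw [Function.comp_apply, (chartAt E2 p).left_inv hx]
  exact this.symm.trans hx'

/-- What the charts give at a point. -/
structure At (A : Atlas) (f : M → E3) (p : M) (k : ℕ) : Prop where
  mem : cE (ctr p) ∈ A.U k
  val : f p = A.X k (cE (ctr p))
  ev : loc f p =ᶠ[𝓝 (ctr p)] A.X k ∘ cE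

lemma exists_at {A : Atlas} {f : M → E3} (h : A.Charts f) (p : M) : ∃ k, At A f p k := by
  obtain ⟨k, z, hz, h1, h2, h3⟩ := h p
  have e : cE (ctr p) = z := by rw [h1, cE_toE2]
  rw [toC_eq] at h3
  exact ⟨k, e ▸ hz, e ▸ h2, h3⟩

variable {A : Atlas} {f : M → E3} {p : M} {k : ℕ}

lemma At.near (h : At A f p k) : ∀ᶠ y in 𝓝 (ctr p), cE y ∈ A.U k :=
  cE.continuous.continuousAt.eventually ((A.opn k).mem_nhds h.mem)

lemma At.pd (h : At A f p k) (i : Fin 2) :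
    pd (loc f p) i =ᶠ[𝓝 (ctr p)] (fun w => lam (dir i • tri (A.a k w) (A.b k w))) ∘ cE := by
  refine (pd_congr h.ev i).trans ?_
  rw [pd_comp]
  filter_upwards [h.near] with y hy
  obtain ⟨L, hL, hv⟩ := A.wei k _ hy
  simp only [Function.comp_apply]
  rw [hL.fderiv, hv, lam_tri]

lemma At.met (h : At A f p k) : ∀ᶠ y in 𝓝 (ctr p), ∃ E, 0 < E ∧ met f p 0 0 y = E ∧
    met f p 1 1 y = E ∧ met f p 0 1 y = 0 := by
  filter_upwards [h.near, h.pd 0, h.pd 1] with y hy h0 h1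
  refine ⟨_, cf_pos (A.a_ne k _ hy) (A.b k (cE y)), ?_⟩
  unfold MP_943ae2_gt.met
  rw [h0, h1]
  exact ⟨inner00 _ _, inner11 _ _, inner01 _ _⟩

lemma At.harm (h : At A f p k) :
    MP_943ae2_gt.pd (MP_943ae2_gt.pd (loc f p) 0) 0 (ctr p) +
      MP_943ae2_gt.pd (MP_943ae2_gt.pd (loc f p) 1) 1 (ctr p) = 0 := by
  have hn := (A.opn k).mem_nhds h.mem
  have ha := (A.hol_a k).differentiableAt hn
  have hb := (A.hol_b k).differentiableAt hn
  have hG : DifferentiableAt ℂ (fun w => tri (A.a k w) (A.b k w)) (cE (ctr p)) :=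
    (ha.pow 2).prodMk ((hb.pow 2).prodMk (ha.mul hb))
  rw [(pd_congr (h.pd 0) 0).eq_of_nhds, (pd_congr (h.pd 1) 1).eq_of_nhds,
    pd_lam hG.hasDerivAt, pd_lam hG.hasDerivAt, ← map_add, dir0, dir1, smul_smul, smul_smul,
    I_mul_I, ← add_smul]
  simp

lemma pd_pd {g : ℂ → ℝ} {x : E2} (hg : ContDiffAt ℝ ∞ g (cE x)) (i : Fin 2) :
    pd (pd (g ∘ cE) i) i x = iteratedFDeriv ℝ 2 g (cE x) ![dir i, dir i] := by
  have h1 : DifferentiableAt ℝ (fderiv ℝ g) (cE x) :=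
    (hg.fderiv_right (m := 1) (by norm_cast)).differentiableAt one_ne_zero
  rw [pd_comp, pd_comp, iteratedFDeriv_two_apply, Function.comp_apply,
    fderiv_clm_apply h1 (differentiableAt_const _)]
  simp

lemma At.lap (h : At A f p k) {u : M → ℝ} {g : ℂ → ℝ} (hg : ContDiffAt ℝ ∞ g (cE (ctr p)))
    (he : loc u p =ᶠ[𝓝 (ctr p)] g ∘ cE) (hl : Laplacian.laplacian g (cE (ctr p)) ≤ 0) :
    lapBel f u p ≤ 0 := by
  have hd : ∀ {y E}, 0 < E → MP_943ae2_gt.met f p 0 0 y = E → MP_943ae2_gt.met f p 1 1 y = E →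
      MP_943ae2_gt.met f p 0 1 y = 0 → dens f p y = E := fun {y E} hE h0 h1 h2 => by
    unfold dens
    rw [h0, h1, h2, zero_pow two_ne_zero, sub_zero, Real.sqrt_mul_self hE.le]
  have e0 : (fun x => (MP_943ae2_gt.met f p 1 1 x * MP_943ae2_gt.pd (loc u p) 0 x -
      MP_943ae2_gt.met f p 0 1 x * MP_943ae2_gt.pd (loc u p) 1 x) / dens f p x) =ᶠ[𝓝 (ctr p)]
      MP_943ae2_gt.pd (g ∘ cE) 0 := by
    filter_upwards [h.met, pd_congr he 0] with y ⟨E, hE, h0, h1, h2⟩ hy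
    rw [hd hE h0 h1 h2, h1, h2, hy]
    field_simp
    ring
  have e1 : (fun x => (MP_943ae2_gt.met f p 0 0 x * MP_943ae2_gt.pd (loc u p) 1 x -
      MP_943ae2_gt.met f p 0 1 x * MP_943ae2_gt.pd (loc u p) 0 x) / dens f p x) =ᶠ[𝓝 (ctr p)]
      MP_943ae2_gt.pd (g ∘ cE) 1 := by
    filter_upwards [h.met, pd_congr he 1] with y ⟨E, hE, h0, h1, h2⟩ hy
    rw [hd hE h0 h1 h2, h0, h2, hy]
    field_simp
    ring
  unfold lapBel
  rw [(pd_congr e0 0).eq_of_nhds, (pd_congr e1 1).eq_of_nhds, pd_pd hg, pd_pd hg, dir0, dir1]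
  rw [InnerProductSpace.laplacian_eq_iteratedFDeriv_complexPlane] at hl
  exact div_nonpos_of_nonpos_of_nonneg hl (Real.sqrt_nonneg _)

end Glue2X

open Glue2X

theorem Atlas.isMinimal (A : Atlas) {M : Type} [TopologicalSpace M] [ChartedSpace E2 M]
    [IsManifold (𝓡 2) ∞ M] {f : M → E3} (h : A.Charts f) : IsMinimal f := by
  refine ⟨fun p => ?_, fun p => ?_, fun p N _ => ?_⟩
  · obtain ⟨k, hk⟩ := exists_at h p
    exact smooth (Wei.contDiffAt (A.opn k) (A.hol_a k) (A.hol_b k) (A.wei k) hk.mem) hk.ev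
  · obtain ⟨k, hk⟩ := exists_at h p
    obtain ⟨E, hE, h0, h1, h2⟩ := hk.met.self_of_nhds
    unfold met at h0 h1 h2
    refine linearIndependent_of_ne_zero_of_inner_eq_zero (fun i hi => ?_) fun i j hij => ?_
    · fin_cases i
      · erw [hi, inner_zero_left] at h0
        exact hE.ne h0
      · erw [hi, inner_zero_left] at h1
        exact hE.ne h1
    · fin_cases i <;> fin_cases j
      · exact absurd rfl hij
      · exact h2
      · exact (real_inner_comm _ _).trans h2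
      · exact absurd rfl hij
  · obtain ⟨k, hk⟩ := exists_at h p
    obtain ⟨E, hE, h0, h1, h2⟩ := hk.met.self_of_nhds
    have h3 : sff f p N 0 0 + sff f p N 1 1 = 0 := by
      unfold sff
      rw [← inner_add_left, hk.harm, inner_zero_left]
    rw [h0, h1, h2, mul_zero, sub_zero, ← add_mul, h3, zero_mul]

theorem Atlas.exists_super (A : Atlas) {M : Type} [TopologicalSpace M] [ChartedSpace E2 M]
    [IsManifold (𝓡 2) ∞ M] {f : M → E3} (h : A.Charts f) (hr : range f = A.S) :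
    ∃ u : M → ℝ, ContMDiff (𝓡 2) 𝓘(ℝ, ℝ) ∞ u ∧ (∀ p, 0 < u p) ∧ (∀ p, lapBel f u p ≤ 0) ∧
      ∃ p q, u p ≠ u q := by
  choose k hk using exists_at h
  have hu : ∀ p k', ∀ z ∈ A.U k', f p = A.X k' z → A.u (k p) (cE (ctr p)) = A.u k' z :=
    fun p k' z hz e => A.u_rel _ _ _ (hk p).mem _ hz ((hk p).val.symm.trans e)
  have he : ∀ p, loc (fun p => A.u (k p) (cE (ctr p))) p =ᶠ[𝓝 (ctr p)] A.u (k p) ∘ cE := fun p => by
    filter_upwards [(hk p).near, (hk p).ev] with y hy hy'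
    exact hu _ _ _ hy hy'
  refine ⟨fun p => A.u (k p) (cE (ctr p)), fun p => smooth (A.u_sup _ _ (hk p).mem).1 (he p),
    fun p => A.u_pos _ _ (hk p).mem,
    fun p => (hk p).lap (A.u_sup _ _ (hk p).mem).1 (he p) (A.u_sup _ _ (hk p).mem).2, ?_⟩
  obtain ⟨k', z, hz, z', hz', hne⟩ := A.u_nc
  obtain ⟨p, hp⟩ : A.X k' z ∈ range f := hr ▸ mem_iUnion.2 ⟨k', z, hz, rfl⟩
  obtain ⟨q, hq⟩ : A.X k' z' ∈ range f := hr ▸ mem_iUnion.2 ⟨k', z', hz', rfl⟩
  refine ⟨p, q, ?_⟩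
  change A.u (k p) (cE (ctr p)) ≠ A.u (k q) (cE (ctr q))
  rw [hu p k' z hz hp, hu q k' z' hz' hq]
  exact hne

end Pool.Agent.MP_943ae2_gt

end
end

section

open Set Complex Filter
open scoped Topology ComplexConjugate ContDiff

noncomputable section

namespace Pool.Agent.MP_943ae2_gt

lemma glue3_cont (A : Atlas) (k : ℕ) : ContinuousOn (A.X k) (A.U k) := fun z hz => by
  obtain ⟨L, hL, -⟩ := A.wei k z hz
  exact hL.continuousAt.continuousWithinAt

lemma glue3_S (A : Atlas) : A.S = ⋃ k, A.X k '' A.Ub k := by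
  refine Subset.antisymm (iUnion_subset fun k => ?_)
    (iUnion_mono fun k => image_mono (A.sub k))
  rintro _ ⟨z, hz, rfl⟩
  obtain ⟨k', z', hz', e⟩ := A.cover k z hz
  exact mem_iUnion.2 ⟨k', z', hz', e⟩

theorem Atlas.connectedSpace (A : Atlas) : ConnectedSpace A.S := by
  refine isConnected_iff_connectedSpace.1 ⟨?_, ?_⟩
  · obtain ⟨z, hz, -⟩ := A.link 0
    exact ⟨_, mem_iUnion.2 ⟨0, z, A.sub 0 hz, rfl⟩⟩
  · rw [glue3_S]
    refine IsPreconnected.iUnion_of_chain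
      (fun k => (A.conn k).image _ ((glue3_cont A k).mono (A.sub k))) fun k => ?_
    obtain ⟨z, hz, z', hz', e⟩ := A.link k
    exact ⟨_, ⟨z, hz, rfl⟩, z', hz', e.symm⟩

lemma glue3_compact (A : Atlas) {B : ℕ → Set ℂ} (hB : ∀ k, IsClosed (B k))
    (hs : ∀ k, B k ⊆ A.Ub k) {K : Set E3} (hK : IsCompact K) :
    IsCompact ((⋃ k, A.X k '' B k) ∩ K) := by
  obtain ⟨R, hR⟩ := hK.isBounded.exists_norm_le
  obtain ⟨N, hN⟩ := A.proper R
  have e : (⋃ k, A.X k '' B k) ∩ K =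
      (⋃ k ∈ Iic N, A.X k '' (B k ∩ Metric.closedBall 0 N)) ∩ K := by
    refine Subset.antisymm ?_ (inter_subset_inter_left _
      (iUnion_mono fun k => iUnion_subset fun _ => image_mono inter_subset_left))
    rintro x ⟨hx, hxK⟩
    obtain ⟨k, z, hz, rfl⟩ := mem_iUnion.1 hx
    obtain ⟨h1, h2⟩ := hN k z (hs k hz) (hR _ hxK)
    exact ⟨mem_biUnion (t := fun k => A.X k '' (B k ∩ Metric.closedBall 0 N)) h1
      ⟨z, ⟨hz, mem_closedBall_zero_iff.2 h2⟩, rfl⟩, hxK⟩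
  rw [e]
  refine IsCompact.inter_right ((finite_Iic N).isCompact_biUnion fun k _ => ?_) hK.isClosed
  exact ((isCompact_closedBall _ _).inter_left (hB k)).image_of_continuousOn
    ((glue3_cont A k).mono fun z hz => A.sub k (hs k hz.1))

theorem Atlas.isCompact_preimage (A : Atlas) {K : Set E3} (hK : IsCompact K) :
    IsCompact ((Subtype.val : A.S → E3) ⁻¹' K) := by
  rw [Subtype.isCompact_iff, Subtype.image_preimage_coe, glue3_S]
  exact glue3_compact A A.cls (fun _ => Subset.rfl) hK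

lemma glue3_closed (A : Atlas) (k : ℕ) {B : Set ℂ} (hB : IsClosed B) (hs : B ⊆ A.Ub k) :
    IsClosed (A.X k '' B) := by
  classical
  have e : A.X k '' B = ⋃ j, A.X j '' (if j = k then B else ∅) := by
    refine Subset.antisymm (subset_iUnion_of_subset k (by simp)) (iUnion_subset fun j => ?_)
    split_ifs with h
    · rw [h]
    · simp
  refine isClosed_of_closure_subset fun x hx => ?_
  have h1 : IsCompact (A.X k '' B ∩ Metric.closedBall x 1) := by
    rw [e]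
    refine glue3_compact A (fun j => ?_) (fun j => ?_) (isCompact_closedBall _ _)
    · split_ifs
      · exact hB
      · exact isClosed_empty
    · split_ifs with h
      · rw [h]; exact hs
      · exact empty_subset _
  have h2 := Metric.isOpen_ball.closure_inter ⟨hx, Metric.mem_ball_self (x := x) one_pos⟩
  exact (h1.isClosed.closure_subset (closure_mono
    (inter_subset_inter_right _ Metric.ball_subset_closedBall) h2)).1

lemma glue3_out (r : ℝ) : IsPreconnected {z : ℂ | r < ‖z‖} := by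
  have e : {z : ℂ | r < ‖z‖} =
      (fun p : ℝ × ℝ => (p.1 : ℂ) * exp (p.2 * I)) '' (Ioi r ×ˢ univ) := by
    ext z
    constructor
    · intro hz
      exact ⟨(‖z‖, arg z), ⟨hz, trivial⟩, norm_mul_exp_arg_mul_I z⟩
    · rintro ⟨⟨s, t⟩, ⟨hs, -⟩, rfl⟩
      have hs' : r < s := hs
      simp only [mem_ofPred_eq, norm_mul, norm_real, norm_exp_ofReal_mul_I, mul_one,
        Real.norm_eq_abs]
      exact hs'.trans_le (le_abs_self s)
  rw [e]
  exact (isPreconnected_Ioi.prod isPreconnected_univ).image _ (by fun_prop)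

lemma glue3_end {M : Type} [TopologicalSpace M] (E : ℕ → Set M) (anti : Antitone E)
    (ne : ∀ n, (E n).Nonempty) (pc : ∀ n, IsPreconnected (E n))
    (esc : ∀ K, IsCompact K → ∃ n, E n ⊆ Kᶜ) :
    ∃ e, IsEnd e ∧ ∀ K n x, E n ⊆ Kᶜ → x ∈ E n → e K = connectedComponentIn Kᶜ x := by
  have h0 : ∀ K n x y, E n ⊆ Kᶜ → x ∈ E n → y ∈ E n →
      connectedComponentIn Kᶜ x = connectedComponentIn Kᶜ y := fun K n x y h hx hy =>
    connectedComponentIn_eq ((pc n).subset_connectedComponentIn hx h hy)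
  have h1 : ∀ K n x, E n ⊆ Kᶜ → x ∈ E n →
      {y | ∃ n, E n ⊆ Kᶜ ∧ ∃ x ∈ E n, y ∈ connectedComponentIn Kᶜ x} =
        connectedComponentIn Kᶜ x := by
    intro K n x h hx
    refine Subset.antisymm ?_ fun y hy => ⟨n, h, x, hx, hy⟩
    rintro y ⟨m, hm, x', hx', hy⟩
    obtain ⟨w, hw⟩ := ne (max n m)
    rwa [h0 K n x w h hx (anti (le_max_left _ _) hw), ← h0 K m x' w hm hx' (anti (le_max_right _ _) hw)]
  refine ⟨fun K => {y | ∃ n, E n ⊆ Kᶜ ∧ ∃ x ∈ E n, y ∈ connectedComponentIn Kᶜ x},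
    ⟨fun K hK => ?_, ?_⟩, h1⟩
  · obtain ⟨n, hn⟩ := esc K hK
    obtain ⟨x, hx⟩ := ne n
    refine ⟨⟨x, hn hx, h1 K n x hn hx⟩, fun hc => ?_⟩
    obtain ⟨m, hm⟩ := esc _ hc
    obtain ⟨w, hw⟩ := ne (max n m)
    have hw' := anti (le_max_left _ _) hw
    exact hm (anti (le_max_right _ _) hw)
      (subset_closure ⟨n, hn, w, hw', mem_connectedComponentIn (hn hw')⟩)
  · rintro K K' - - h y ⟨n, hn, x, hx, hy⟩
    exact ⟨n, hn.trans (compl_subset_compl.2 h), x, hx,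
      connectedComponentIn_mono _ (compl_subset_compl.2 h) hy⟩

lemma glue3_layer (A : Atlas) (k : ℕ) {R : ℝ} (hR : 0 ≤ R) (h : ∀ z, R ≤ ‖z‖ → z ∈ A.Ub k) :
    ∃ e : Set A.S → Set A.S, IsEnd e ∧ ∀ K, IsCompact K → ∃ x, x ∉ K ∧
      (∃ z, R < ‖z‖ ∧ A.X k z = x.1) ∧ e K = connectedComponentIn Kᶜ x := by
  have hsub : ∀ n : ℕ, {z : ℂ | R + n < ‖z‖} ⊆ A.Ub k := fun n z hz =>
    h z ((le_add_of_nonneg_right (Nat.cast_nonneg n)).trans (le_of_lt hz))
  have hS : ∀ n : ℕ, A.X k '' {z : ℂ | R + n < ‖z‖} ⊆ A.S := fun n =>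
    subset_iUnion_of_subset k (image_mono ((hsub n).trans (A.sub k)))
  have ne : ∀ n : ℕ,
      ((Subtype.val : A.S → E3) ⁻¹' (A.X k '' {z : ℂ | R + n < ‖z‖})).Nonempty := by
    intro n
    have hz : ((R + n + 1 : ℝ) : ℂ) ∈ {z : ℂ | R + n < ‖z‖} := by
      rw [mem_ofPred_eq, norm_real, Real.norm_eq_abs]
      exact (lt_add_one _).trans_le (le_abs_self _)
    exact ⟨⟨_, hS n ⟨_, hz, rfl⟩⟩, _, hz, rfl⟩
  have esc : ∀ K : Set A.S, IsCompact K → ∃ n : ℕ,
      (Subtype.val : A.S → E3) ⁻¹' (A.X k '' {z : ℂ | R + n < ‖z‖}) ⊆ Kᶜ := by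
    intro K hK
    obtain ⟨r, hr⟩ := (hK.image continuous_subtype_val).isBounded.exists_norm_le
    obtain ⟨N, hN⟩ := A.proper r
    refine ⟨N, ?_⟩
    rintro x ⟨z, hz, e⟩ hx
    have h1 := (hN k z (hsub N hz) (e ▸ hr _ ⟨x, hx, rfl⟩)).2
    have h2 : R + N < ‖z‖ := hz
    linarith
  obtain ⟨e, he, h1⟩ := glue3_end
    (fun n : ℕ => (Subtype.val : A.S → E3) ⁻¹' (A.X k '' {z : ℂ | R + n < ‖z‖}))
    (fun n m hnm => preimage_mono (image_mono fun z hz =>
      lt_of_le_of_lt (add_le_add_right (Nat.cast_le.2 hnm) R) hz)) ne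
    (fun n => by
      rw [← Topology.IsInducing.subtypeVal.isPreconnected_image, Subtype.image_preimage_coe,
        inter_eq_right.2 (hS n)]
      exact (glue3_out _).image _
        ((glue3_cont A k).mono ((hsub n).trans (A.sub k)))) esc
  refine ⟨e, he, fun K hK => ?_⟩
  obtain ⟨n, hn⟩ := esc K hK
  obtain ⟨x, hx⟩ := ne n
  refine ⟨x, hn hx, ?_, h1 K n x hn hx⟩
  obtain ⟨z, hz, e⟩ := hx
  exact ⟨z, lt_of_le_of_lt (le_add_of_nonneg_right (Nat.cast_nonneg n)) hz, e⟩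

theorem Atlas.twoEnds (A : Atlas) : TwoEnds A.S := by
  obtain ⟨R0, h0⟩ := A.far 0
  obtain ⟨R1, h1⟩ := A.far 1
  have a0 : ∀ z : ℂ, |R0| ≤ ‖z‖ → z ∈ A.Ub 0 := fun z hz => (h0 z ((le_abs_self _).trans hz)).1
  obtain ⟨e0, he0, k0⟩ := glue3_layer A 0 (abs_nonneg R0) a0
  obtain ⟨e1, he1, k1⟩ := glue3_layer A 1 (abs_nonneg R1)
    fun z hz => (h1 z ((le_abs_self _).trans hz)).1
  have hK : IsCompact ((Subtype.val : A.S → E3) ⁻¹' (A.X 0 '' Metric.sphere 0 |R0|)) :=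
    A.isCompact_preimage ((isCompact_sphere _ _).image_of_continuousOn
      ((glue3_cont A 0).mono fun z hz => A.sub 0 (a0 z (mem_sphere_zero_iff_norm.1 hz).ge)))
  refine ⟨e0, e1, he0, he1, _, hK, fun he => ?_⟩
  obtain ⟨x, hx, ⟨z, hz, ez⟩, ex⟩ := k0 _ hK
  obtain ⟨y, hy, ⟨w, hw, ew⟩, ey⟩ := k1 _ hK
  have hO : IsOpen ((Subtype.val : A.S → E3) ⁻¹' (A.X 0 '' {z | |R0| < ‖z‖})) :=
    A.isOpen_image 0 (isOpen_lt continuous_const continuous_norm)
      fun z hz => A.sub 0 (a0 z (le_of_lt hz))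
  have hC : IsClosed ((Subtype.val : A.S → E3) ⁻¹' (A.X 0 '' {z | |R0| ≤ ‖z‖})) :=
    (glue3_closed A 0 (isClosed_le continuous_const continuous_norm) a0).preimage
      continuous_subtype_val
  have hW := (isPreconnected_connectedComponentIn (x := x)
    (F := ((Subtype.val : A.S → E3) ⁻¹' (A.X 0 '' Metric.sphere 0 |R0|))ᶜ)).subset_left_of_subset_union
    hO hC.isOpen_compl
    (disjoint_compl_right.mono_left (preimage_mono (image_mono
      fun z (hz : |R0| < ‖z‖) => show |R0| ≤ ‖z‖ from hz.le)))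
    (fun p hp => by
      have hp' := connectedComponentIn_subset _ _ hp
      by_cases hc : p ∈ (Subtype.val : A.S → E3) ⁻¹' (A.X 0 '' {z | |R0| ≤ ‖z‖})
      · obtain ⟨v, hv, ev⟩ := hc
        rcases lt_or_eq_of_le (show |R0| ≤ ‖v‖ from hv) with h | h
        · exact Or.inl ⟨v, h, ev⟩
        · exact absurd ⟨v, mem_sphere_zero_iff_norm.2 h.symm, ev⟩ hp'
      · exact Or.inr hc)
    ⟨x, mem_connectedComponentIn hx, z, hz, ez⟩
  have hy' := mem_connectedComponentIn (mem_compl hy)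
  rw [← ey, ← he, ex] at hy'
  obtain ⟨v, hv, ev⟩ := hW hy'
  exact zero_ne_one ((h1 w ((le_abs_self _).trans hw.le)).2 0 v (A.sub 0 (a0 v (le_of_lt hv)))
    (ev.trans ew.symm))

theorem Atlas.final (A : Atlas) : Final := by
  obtain ⟨cs, mf, h⟩ := A.manifold
  exact ⟨A.S, inferInstance, cs, mf, inferInstance, A.connectedSpace, Subtype.val, A.isMinimal h,
    Topology.IsEmbedding.subtypeVal, fun K hK => A.isCompact_preimage hK, A.twoEnds,
    A.exists_super h Subtype.range_coe⟩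

end Pool.Agent.MP_943ae2_gt

end
end

section

open Set Complex Filter
open scoped Topology ComplexConjugate ContDiff

noncomputable section

namespace Pool.Agent.MP_943ae2_gt

variable {ι : Type} {F : Frm ι} {d : Dat ι} {C : ℕ → ℝ}

theorem asm_bet_lt (h : F.Adm d) (e : ι × Bool) : ‖d.bet e‖ < F.R e := by
  have h1 : 1 < (F.t e.1)⁻¹ := one_lt_inv₀ (h.t_pos _) |>.2 (by linarith [h.t_small e.1])
  exact (h.bet_le e).trans_lt (lt_self_pow₀ h1 (by norm_num))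

theorem asm_uniq (h : F.Adm d) {e μ : ι × Bool} (hl : F.lay μ = F.lay e) {z : ℂ}
    (h1 : ‖z - d.pos e‖ < F.R e) (h2 : ‖z - d.pos μ‖ < F.R μ) : μ = e := by
  by_contra hne
  have hm : μ ∈ F.oth e := mem_oth.2 ⟨hne, hl⟩
  have k1 := h.sep e μ hm
  have k2 := h.sep' hm
  have k3 : ‖d.pos e - d.pos μ‖ ≤ ‖z - d.pos μ‖ + ‖z - d.pos e‖ := by
    rw [show d.pos e - d.pos μ = (z - d.pos μ) - (z - d.pos e) by ring]
    exact norm_sub_le _ _
  linarith [h.R_pos e, h.R_pos μ]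

theorem asm_lay_ne (e : ι × Bool) : F.lay (opp e) ≠ F.lay e := by
  rcases e with ⟨ν, _ | _⟩ <;> simp

theorem asm_inv (h : F.Adm d) (e : ι × Bool) {v : ℂ} (h1 : ‖d.bet e‖ ^ 2 / F.R e < ‖v‖)
    (h2 : ‖v‖ < F.R e) : 0 < ‖v‖ ∧ ‖d.bet e‖ ^ 2 / F.R e < ‖d.bet e‖ ^ 2 / ‖v‖ ∧
      ‖d.bet e‖ ^ 2 / ‖v‖ < F.R e := by
  have hb := h.bet_pos e
  have hR := h.R_pos e
  have hv : 0 < ‖v‖ := lt_trans (by positivity) h1
  refine ⟨hv, div_lt_div_of_pos_left (by positivity) hv h2, ?_⟩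
  rw [div_lt_iff₀ hR] at h1
  rw [div_lt_iff₀ hv]; linarith

theorem asm_par_mem (h : F.Adm d) (e : ι × Bool) {v : ℂ} (h1 : ‖d.bet e‖ ^ 2 / F.R e < ‖v‖)
    (h2 : ‖v‖ < F.R e) : d.par e v ∈ F.U d (F.lay (opp e)) := by
  obtain ⟨_, k1, k2⟩ := asm_inv h e h1 h2
  refine h.mem_U (opp e) ?_ ?_
  · simpa using k1
  · have := h.R_pos e
    simp only [RCLike.norm_conj, norm_div, norm_pow, R_opp]; linarith

/-- the smooth minimum of the two potentials across the neck of `e` -/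
def asmS (F : Frm ι) (d : Dat ι) (φ : ℕ → ℂ → ℝ) (δ : ι → ℝ) (e : ι × Bool) (z : ℂ) : ℝ :=
  if e.2 then smin (δ e.1) (φ (F.lay (opp e)) (d.par e (z - d.pos e))) (φ (F.lay e) z)
  else smin (δ e.1) (φ (F.lay e) z) (φ (F.lay (opp e)) (d.par e (z - d.pos e)))

open Classical in
/-- the superharmonic function on layer `k` -/
def asmU (F : Frm ι) (d : Dat ι) (φ : ℕ → ℂ → ℝ) (δ : ι → ℝ) (k : ℕ) (z : ℂ) : ℝ :=
  if h : ∃ e, F.lay e = k ∧ ‖z - d.pos e‖ < F.R e then asmS F d φ δ h.choose z else φ k z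

variable {φ : ℕ → ℂ → ℝ} {δ : ι → ℝ}

theorem asm_in (h : F.Adm d) (e : ι × Bool) {z : ℂ} (hz : ‖z - d.pos e‖ < F.R e) :
    asmU F d φ δ (F.lay e) z = asmS F d φ δ e z := by
  have hx : ∃ μ, F.lay μ = F.lay e ∧ ‖z - d.pos μ‖ < F.R μ := ⟨e, rfl, hz⟩
  rw [asmU, dif_pos hx, asm_uniq h hx.choose_spec.1 hz hx.choose_spec.2]

theorem asm_out (h : F.Adm d) (hp : F.Pots d φ δ) {k : ℕ} {z : ℂ}
    (hz : ∀ e ∈ F.sides k, F.R e / 4 ≤ ‖z - d.pos e‖) : asmU F d φ δ k z = φ k z := by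
  by_cases hx : ∃ μ, F.lay μ = k ∧ ‖z - d.pos μ‖ < F.R μ
  · obtain ⟨e, rfl, he⟩ := hx
    have h1 := hp.cmp e _ (hz e (self_mem_sides e)) he.le
    rw [add_sub_cancel] at h1
    rw [asm_in h e he, asmS]
    split_ifs
    · exact smin_right (hp.δ_pos _) h1
    · exact smin_left (hp.δ_pos _) h1
  · rw [asmU, dif_neg hx]

theorem asm_cases (F : Frm ι) (d : Dat ι) (k : ℕ) (z : ℂ) :
    (∃ e, F.lay e = k ∧ ‖z - d.pos e‖ < F.R e) ∨ ∀ e ∈ F.sides k, F.R e ≤ ‖z - d.pos e‖ := by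
  by_contra hc
  push Not at hc
  obtain ⟨h1, e, he, h2⟩ := hc
  exact absurd (h1 e (mem_sides_iff.1 he)) (not_le.2 h2)

theorem asm_sup (h : F.Adm d) (hp : F.Pots d φ δ) (k : ℕ) : SupOn (asmU F d φ δ k) (F.U d k) := by
  intro z hz
  have hf : SupOn (φ k) {z} := fun y hy => hp.sup k y (by rw [hy]; exact hz)
  rcases asm_cases F d k z with ⟨e, rfl, he⟩ | ho
  · obtain ⟨k0, k1, k2⟩ := asm_inv h e (hz e (self_mem_sides e)) he
    have hb := h.bet_pos e
    have hR := h.R_pos e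
    have hG : AnalyticAt ℂ (fun y => conj (d.pos (opp e)) + d.bet e ^ 2 / (y - d.pos e)) z :=
      analyticAt_const.add (analyticAt_const.div (analyticAt_id.sub analyticAt_const)
        (norm_pos_iff.1 k0))
    have hc : ∀ y, conj (conj (d.pos (opp e)) + d.bet e ^ 2 / (y - d.pos e)) =
        d.par e (y - d.pos e) := fun y => by rw [map_add, conj_conj, Dat.par]
    have hg := supOn_of_harm (harm_comp_conj (f := φ (F.lay (opp e))) hG (by
      rw [hc]
      refine hp.harm (opp e) _ ?_ ?_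
      · rw [norm_par_sub]; positivity
      · rw [norm_par_sub, R_opp]; linarith))
    simp only [hc] at hg
    have hS : SupOn (asmS F d φ δ e) {z} := by
      unfold asmS
      split_ifs
      · exact smin_sup (hp.δ_pos _) hg hf
      · exact smin_sup (hp.δ_pos _) hf hg
    refine supOn_congr hS ?_ z rfl
    have ho : IsOpen {y : ℂ | ‖y - d.pos e‖ < F.R e} := isOpen_lt (by fun_prop) continuous_const
    filter_upwards [ho.mem_nhds he] with y hy using asm_in h e hy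
  · refine supOn_congr hf ?_ z rfl
    have h1 : ∀ᶠ y in 𝓝 z, ∀ e ∈ F.sides k, F.R e / 4 < ‖y - d.pos e‖ := by
      rw [Filter.eventually_all_finset]
      intro e he
      have ho' : IsOpen {y : ℂ | F.R e / 4 < ‖y - d.pos e‖} :=
        isOpen_lt continuous_const (by fun_prop)
      refine ho'.mem_nhds ?_
      have := ho e he
      have := h.R_pos e
      change F.R e / 4 < ‖z - d.pos e‖
      linarith
    filter_upwards [h1] with y hy using asm_out h hp fun e he => (hy e he).le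

theorem asm_quarter (h : F.Adm d) {k : ℕ} {z : ℂ} (ho : ∀ e ∈ F.sides k, F.R e ≤ ‖z - d.pos e‖) :
    ∀ e ∈ F.sides k, F.R e / 4 ≤ ‖z - d.pos e‖ := fun e he => by
  linarith [ho e he, h.R_pos e]

theorem asm_Ub (h : F.Adm d) {k : ℕ} {z : ℂ} (ho : ∀ e ∈ F.sides k, F.R e ≤ ‖z - d.pos e‖) :
    z ∈ F.Ub d k := fun e he => (asm_bet_lt h e).le.trans (ho e he)

theorem asm_pos (h : F.Adm d) (hp : F.Pots d φ δ) (k : ℕ) {z : ℂ} (hz : z ∈ F.U d k) :
    0 < asmU F d φ δ k z := by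
  have h1 := hp.low k z hz
  rcases asm_cases F d k z with ⟨e, rfl, he⟩ | ho
  · have h2 := hp.low _ _ (asm_par_mem h e (hz e (self_mem_sides e)) he)
    have h3 := hp.δ_le e.1
    rw [asm_in h e he, asmS]
    split_ifs
    · linarith [smin_ge (a := φ (F.lay (opp e)) (d.par e (z - d.pos e))) (b := φ (F.lay e) z)
        (hp.δ_pos e.1), le_min h2 h1]
    · linarith [smin_ge (b := φ (F.lay (opp e)) (d.par e (z - d.pos e))) (a := φ (F.lay e) z)
        (hp.δ_pos e.1), le_min h1 h2]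
  · rw [asm_out h hp (asm_quarter h ho)]; linarith

theorem asm_rel (h : F.Adm d) {k k' : ℕ} {z z' : ℂ} (hr : F.Rel d k z k' z') :
    asmU F d φ δ k z = asmU F d φ δ k' z' := by
  obtain ⟨e, v, rfl, rfl, h1, h2, rfl, rfl⟩ := hr
  obtain ⟨_, _, k2⟩ := asm_inv h e h1 h2
  rw [asm_in h e (by rwa [add_sub_cancel_left]), asm_in h (opp e) (by rwa [norm_par_sub, R_opp])]
  have h3 : d.par (opp e) (d.par e v - d.pos (opp e)) = d.pos e + v := by
    rw [← par_par (h.bet_ne e) v, Dat.par, Dat.par, Dat.par, add_sub_cancel_left]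
  unfold asmS
  rw [h3, add_sub_cancel_left, opp_opp, opp_fst]
  rcases e with ⟨ν, _ | _⟩ <;> simp [opp]

theorem Frm.Adm.exists_u (h : F.Adm d) {φ : ℕ → ℂ → ℝ} {δ : ι → ℝ} (hp : F.Pots d φ δ) :
    ∃ u : ℕ → ℂ → ℝ, (∀ k, SupOn (u k) (F.U d k)) ∧ (∀ k, ∀ z ∈ F.U d k, 0 < u k z) ∧
      (∀ k z k' z', F.Rel d k z k' z' → u k z = u k' z') ∧
      ∃ k, ∃ z ∈ F.U d k, ∃ z' ∈ F.U d k, u k z ≠ u k z' := by
  refine ⟨asmU F d φ δ, asm_sup h hp, fun k z hz => asm_pos h hp k hz,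
    fun k z k' z' hr => asm_rel h hr, ?_⟩
  obtain ⟨k, z, z', h1, h2⟩ := hp.nc
  refine ⟨k, z, h.Ub_sub k (asm_Ub h fun e he => (h1 e he).1), z',
    h.Ub_sub k (asm_Ub h fun e he => (h1 e he).2), ?_⟩
  rwa [asm_out h hp (asm_quarter h fun e he => (h1 e he).1),
    asm_out h hp (asm_quarter h fun e he => (h1 e he).2)]

theorem Frm.Adm.conn (h : F.Adm d) (k : ℕ) : IsPreconnected (F.Ub d k) := by
  let P : ℂ → ℂ := fun z => z + ∑ e ∈ F.sides k,
    ((max ‖z - d.pos e‖ ‖d.bet e‖ / ‖z - d.pos e‖ - 1 : ℝ) : ℂ) * (z - d.pos e)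
  have hs : (d.pos '' (F.sides k : Set (ι × Bool))).Countable :=
    ((F.sides k).finite_toSet.image _).countable
  have hc := (hs.isPathConnected_compl_of_one_lt_rank
    (by rw [Complex.rank_real_complex]; norm_num)).isConnected.isPreconnected
  have hne : ∀ z ∈ (d.pos '' (F.sides k : Set (ι × Bool)))ᶜ, ∀ e ∈ F.sides k,
      ‖z - d.pos e‖ ≠ 0 := fun z hz e he h0 => hz ⟨e, he, (sub_eq_zero.1 (norm_eq_zero.1 h0)).symm⟩
  have hP : ContinuousOn P (d.pos '' (F.sides k : Set (ι × Bool)))ᶜ := by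
    refine continuousOn_id.add (continuousOn_finsetSum _ fun e he => ?_)
    refine ContinuousOn.mul (continuous_ofReal.comp_continuousOn ?_) (by fun_prop)
    exact (ContinuousOn.div (by fun_prop) (by fun_prop) fun z hz => hne z hz e he).sub
      continuousOn_const
  have h0 : ∀ (z : ℂ) e, ‖d.bet e‖ ≤ ‖z - d.pos e‖ →
      ((max ‖z - d.pos e‖ ‖d.bet e‖ / ‖z - d.pos e‖ - 1 : ℝ) : ℂ) * (z - d.pos e) = 0 :=
    fun z e he => by
      rw [max_eq_left he, div_self ((h.bet_pos e).trans_le he).ne', sub_self]; simp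
  have hid : ∀ z ∈ F.Ub d k, P z = z := fun z hz => by
    simp only [P]
    rw [Finset.sum_eq_zero fun e he => h0 z e (hz e he), add_zero]
  have himg : P '' (d.pos '' (F.sides k : Set (ι × Bool)))ᶜ = F.Ub d k := by
    refine Subset.antisymm ?_ fun z hz => ⟨z, ?_, hid z hz⟩
    · rintro _ ⟨z, hz, rfl⟩
      by_cases hu : z ∈ F.Ub d k
      · rwa [hid z hu]
      · simp only [Frm.Ub, mem_ofPred_eq, not_forall, not_le] at hu
        obtain ⟨e, he, hlt⟩ := hu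
        obtain rfl := mem_sides_iff.1 he
        have hz0 := hne z hz e he
        have h1 : P z = d.pos e + ((‖d.bet e‖ / ‖z - d.pos e‖ : ℝ) : ℂ) * (z - d.pos e) := by
          simp only [P]
          rw [sum_sides_split, Finset.sum_eq_zero fun μ hμ => h0 z μ ?_, max_eq_right hlt.le]
          · push_cast; ring
          · by_contra hc'
            exact (mem_oth.1 hμ).1 (asm_uniq h (mem_oth.1 hμ).2 (hlt.trans (asm_bet_lt h e))
              ((not_le.1 hc').trans (asm_bet_lt h μ)))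
        have h2 : ‖((‖d.bet e‖ / ‖z - d.pos e‖ : ℝ) : ℂ) * (z - d.pos e)‖ = ‖d.bet e‖ := by
          rw [norm_mul, Complex.norm_real, Real.norm_of_nonneg (by positivity),
            div_mul_cancel₀ _ hz0]
        rw [h1]
        exact h.mem_Ub e h2.ge (by linarith [asm_bet_lt h e, h.R_pos e])
    · rintro ⟨e, he, rfl⟩
      have := hz e he
      rw [sub_self, norm_zero] at this
      exact absurd (h.bet_pos e) (not_lt.2 this)
  rw [← himg]
  exact hc.image P hP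

theorem asm_X (h : F.Adm d) (hs : F.Sol d C) {k k' : ℕ} {z z' : ℂ} (hr : F.Rel d k z k' z') :
    F.X d C k z = F.X d C k' z' := by
  obtain ⟨e, v, rfl, rfl, h1, h2, rfl, rfl⟩ := hr
  exact h.matching hs e h1 h2

theorem Frm.Adm.final (h : F.Adm d) (hs : F.Sol d C) (ho : F.Ord d C) {φ : ℕ → ℂ → ℝ} {δ : ι → ℝ}
    (hp : F.Pots d φ δ) : Final := by
  obtain ⟨u, u1, u2, u3, u4⟩ := h.exists_u hp
  refine Atlas.final
    { U := F.U d, Ub := F.Ub d, X := F.X d C, a := F.a d, b := F.b d, u := u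
      opn := isOpen_U, cls := isClosed_Ub, sub := h.Ub_sub
      hol_a := fun k => (h.hol_a k).mono (h.U_sub k)
      hol_b := fun k => (h.hol_b k).mono (h.U_sub k)
      a_ne := fun k z hz h0 => ?_
      wei := fun k z hz => h.wei hs hz
      cover := fun k z hz => ?_
      inj := fun k z hz z' hz' he => ?_
      rel := fun k k' z hz z' hz' he => ?_
      proper := h.proper hs ho
      conn := h.conn
      link := fun k => ?_
      far := fun k => ?_
      u_sup := u1, u_pos := u2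
      u_rel := fun k k' z hz z' hz' he => ?_
      u_nc := u4 }
  · have h1 := h.a_near (h.U_sub k hz)
    have h2 : F.T k ^ 11 < 1 :=
      pow_lt_one₀ (h.T_pos k).le (by linarith [h.T_le k]) (by norm_num)
    rw [h0, zero_sub, norm_neg, norm_one] at h1
    linarith
  · rcases h.cover hs hz with h1 | ⟨k', z', h1, h2⟩
    · exact ⟨k, z, h1, rfl⟩
    · exact ⟨k', z', h1, (asm_X h hs h2).symm⟩
  · rcases h.inj hs ho hz hz' he with h1 | ⟨e, v, h1, h2, _⟩
    · exact h1.2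
    · exact absurd (h2.trans h1.symm) (asm_lay_ne e)
  · rcases h.inj hs ho hz hz' he with ⟨rfl, rfl⟩ | ⟨e, v, rfl, rfl, h1, h2, rfl, rfl⟩
    · exact ⟨id, contDiffAt_id, rfl, Eventually.of_forall fun _ => rfl⟩
    · obtain ⟨k0, _, _⟩ := asm_inv h e h1 h2
      refine ⟨fun y => d.par e (y - d.pos e), ?_, by simp, ?_⟩
      · unfold Dat.par
        refine contDiffAt_const.add (Complex.conjCLE.contDiff.contDiffAt.comp _
          (f := fun y => d.bet e ^ 2 / (y - d.pos e)) ?_)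
        refine ContDiffAt.restrict_scalars ℝ (𝕜' := ℂ) ?_
        exact contDiffAt_const.div (contDiffAt_id.sub contDiffAt_const)
          (by rw [add_sub_cancel_left]; exact norm_pos_iff.1 k0)
      · have o1 : IsOpen {y : ℂ | ‖y - d.pos e‖ < F.R e} := isOpen_lt (by fun_prop) continuous_const
        have o2 : IsOpen {y : ℂ | ‖d.bet e‖ ^ 2 / F.R e < ‖y - d.pos e‖} :=
          isOpen_lt continuous_const (by fun_prop)
        filter_upwards [o1.mem_nhds (by simpa using h2), o2.mem_nhds (by simpa using h1)]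
          with y y1 y2
        rw [← h.matching hs e y2 y1, add_sub_cancel]
  · obtain ⟨ν, rfl⟩ := h.ne k
    have hb := h.bet_pos (ν, false)
    have hR := asm_bet_lt h (ν, false)
    have hn : ‖((‖d.bet (ν, false)‖ : ℝ) : ℂ)‖ = ‖d.bet (ν, false)‖ := by
      rw [Complex.norm_real, norm_norm]
    have hn' : ‖conj (d.bet (ν, false) ^ 2 / ((‖d.bet (ν, false)‖ : ℝ) : ℂ))‖ =
        ‖d.bet (ν, false)‖ := by
      rw [RCLike.norm_conj, norm_div, norm_pow, hn]; field_simp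
    have m1 := h.mem_Ub (ν, false) hn.ge (by linarith)
    have m2 := h.mem_Ub (opp (ν, false)) (v := conj (d.bet (ν, false) ^ 2 /
      ((‖d.bet (ν, false)‖ : ℝ) : ℂ))) (by rw [hn', norm_bet_opp]) (by rw [hn', R_opp]; linarith)
    have m3 := h.matching hs (ν, false) (v := ((‖d.bet (ν, false)‖ : ℝ) : ℂ)) (by
      rw [hn, div_lt_iff₀ (hb.trans hR), sq]; exact mul_lt_mul_of_pos_left hR hb) (by rwa [hn])
    rw [lay_false] at m1
    rw [opp_false, lay_true] at m2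
    rw [lay_false, opp_false, lay_true] at m3
    exact ⟨_, m1, _, m2, m3⟩
  · refine ⟨∑ e ∈ F.sides k, (‖d.pos e‖ + F.R e), fun z hz => ?_⟩
    have h1 : ∀ e ∈ F.sides k, F.R e ≤ ‖z - d.pos e‖ := fun e he => by
      have k1 := Finset.single_le_sum (f := fun e => ‖d.pos e‖ + F.R e)
        (fun μ _ => add_nonneg (norm_nonneg _) (h.R_pos μ).le) he
      have k2 := norm_sub_norm_le z (d.pos e)
      linarith
    refine ⟨asm_Ub h h1, fun k' z' hz' he => ?_⟩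
    rcases h.inj hs ho (h.Ub_sub k (asm_Ub h h1)) hz' he.symm with
      h2 | ⟨e, v, rfl, rfl, _, h2, rfl, rfl⟩
    · exact h2.1.symm
    · have := h1 e (self_mem_sides e)
      rw [add_sub_cancel_left] at this
      exact absurd h2 (not_lt.2 this)
  · rcases h.inj hs ho hz hz' he with ⟨rfl, rfl⟩ | h1
    · rfl
    · exact u3 _ _ _ _ h1

end Pool.Agent.MP_943ae2_gt

end
end
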