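import Pool.Agent.Mg.F943ae2.Gc30303
import Pool.Agent.Mg.F943ae2.G9093ed

section

open Set Complex Filter Finset
open scoped Topology ComplexConjugate ContDiff

noncomputable section

namespace Pool.Agent.MP_943ae2_gt

theorem pj_pos (j : ℕ) : 0 < pj j := by unfold pj; positivity

theorem pj_le (j : ℕ) : pj j ≤ 1 := pow_le_one₀ (by norm_num) (by norm_num)

theorem pj_ge (j : ℕ) : (PP j)⁻¹ ≤ pj j := by
  have h1 : (32 : ℝ) ^ j ≤ PP j := by
    rw [Cst_PP]
    exact le_mul_of_one_le_left (by positivity) (by norm_num)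
  calc (PP j)⁻¹ ≤ ((32 : ℝ) ^ j)⁻¹ := inv_anti₀ (by positivity) h1
    _ = (32⁻¹ : ℝ) ^ j := (inv_pow _ _).symm
    _ ≤ pj j := pow_le_pow_left₀ (by norm_num) (by norm_num) j

theorem Pot1_succ (j : ℕ) : pj (j + 1) = 23 / 100 * pj j := by
  unfold pj; ring

theorem Pot1_NN {j : ℕ} (hj : 1 ≤ j) : (NN j : ℝ) = 6 * Lb j := by
  rw [NN_eq hj]; push_cast; ring

theorem Pot1_Af0 (k : ℕ) : Af 0 k = 0 := if_pos rfl

theorem Pot1_bot {j k : ℕ} (hj : 1 ≤ j) (h : k ≤ Lb j) : Af j k = k * pj j := by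
  unfold Af; rw [if_neg (by omega), if_pos h]

theorem Pot1_top {j k : ℕ} (hj : 1 ≤ j) (h : Lb j ≤ k) (h2 : k ≤ NN j) :
    Af j k = (NN j - k) * pj j / 5 := by
  rcases h.eq_or_lt with rfl | h
  · rw [Pot1_bot hj le_rfl, Pot1_NN hj]; ring
  · unfold Af; rw [if_neg (by omega), if_neg (by omega), if_pos h2]

theorem Pot1_Af (j k : ℕ) : 0 ≤ Af j k ∧ Af j k ≤ Lb j * pj j := by
  have hp := pj_pos j
  have hL := Mac2_Lb_one j
  have h0 : 0 ≤ Lb j * pj j := by positivity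
  rcases Nat.eq_zero_or_pos j with rfl | hj
  · rw [Pot1_Af0]; exact ⟨le_rfl, h0⟩
  rcases le_total k (Lb j) with h | h
  · rw [Pot1_bot hj h]
    exact ⟨by positivity, mul_le_mul_of_nonneg_right (Nat.cast_le.2 h) hp.le⟩
  rcases le_or_gt k (NN j) with h2 | h2
  · rw [Pot1_top hj h h2]
    have h3 : (k : ℝ) ≤ NN j := Nat.cast_le.2 h2
    have h4 : (Lb j : ℝ) ≤ k := Nat.cast_le.2 h
    rw [Pot1_NN hj] at h3 ⊢
    constructor <;> nlinarith
  · have : Af j k = 0 := by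
      have := NN_eq hj
      unfold Af; rw [if_neg (by omega), if_neg (by omega), if_neg (by omega)]
    rw [this]; exact ⟨le_rfl, h0⟩

theorem al_nonneg (j k : ℕ) : 0 ≤ al j k := div_nonneg (Pot1_Af j k).1 (Nat.cast_nonneg _)

theorem ap_nonneg (j k : ℕ) : 0 ≤ ap j k := by
  have := (Pot1_Af j k).1
  have := pj_pos j
  unfold ap; split_ifs
  · exact le_rfl
  · positivity

theorem al_le (j k : ℕ) : al j k ≤ Lb j * pj j / nn j :=
  div_le_div_of_nonneg_right (Pot1_Af j k).2 (Nat.cast_nonneg _)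

theorem ap_le (j k : ℕ) : ap j k ≤ 2 * Lb j * pj j / nn j := by
  have h1 := (Pot1_Af j k).2
  have hp := pj_pos j
  have hL := Mac2_Lb_one j
  unfold ap; split_ifs
  · positivity
  · exact div_le_div_of_nonneg_right (by nlinarith) (Nat.cast_nonneg _)

theorem al_out {j k : ℕ} (h : NN j ≤ k) : al j k = 0 := by
  have : Af j k = 0 := by
    rcases Nat.eq_zero_or_pos j with rfl | hj
    · exact Pot1_Af0 k
    have h1 := NN_eq hj
    have h2 := Lb_pos j
    rcases h.eq_or_lt with rfl | h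
    · rw [Pot1_top hj (by omega) le_rfl]; ring
    · unfold Af; rw [if_neg (by omega), if_neg (by omega), if_neg (by omega)]
  rw [al, this, zero_div]

theorem ap_sub (ν : Nk) : ap ν.j ν.k - al ν.j ν.k = dl ν := by
  have := ν.h1
  unfold ap al dl
  rw [if_neg (by omega)]; ring

theorem po_zero (i : ℕ) : po 0 i = 0 := by
  unfold po; split_ifs with h
  · rw [Lb_zero] at h
    rw [al, Pot1_Af0, ap, if_pos (by omega)]; ring
  · rfl

theorem po_top {j i : ℕ} (h : Lb j < i) : po j i = 0 := if_neg (by omega)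

theorem po_bot {j i : ℕ} (hj : 1 ≤ j) (h1 : 1 ≤ i) (h2 : i ≤ Lb j) :
    99 / 100 * pj j ≤ po j i ∧ po j i ≤ pj j := by
  have hp := pj_pos j
  have hn := Mac1_nn j
  rw [po, if_pos h2, al, Pot1_bot hj h2, ap]
  split_ifs with h
  · obtain rfl : i = 1 := by omega
    have : (nn j : ℝ) * (((1 : ℕ) : ℝ) * pj j / nn j - 0) = pj j := by
      field_simp; push_cast; ring
    rw [this]; constructor <;> linarith
  · rw [Pot1_bot hj (by omega : i - 1 ≤ Lb j), Nat.cast_sub h1]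
    have : (nn j : ℝ) * ((i : ℝ) * pj j / nn j - (((i : ℝ) - (1 : ℕ)) * pj j + pj j / 100) / nn j) =
        99 / 100 * pj j := by
      field_simp; push_cast; ring
    rw [this]; constructor <;> linarith

theorem top_slope {j i : ℕ} (hj : 1 ≤ j) (h1 : Lb j < i) (h2 : i ≤ NN j) :
    (nn j : ℝ) * (al j i - ap j (i - 1)) = -(21 / 100 * pj j) := by
  have hn := Mac1_nn j
  have hL := Lb_pos j
  rw [al, ap, if_neg (by omega), Pot1_top hj h1.le h2,
    Pot1_top hj (by omega : Lb j ≤ i - 1) (by omega), Nat.cast_sub (by omega : 1 ≤ i)]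
  field_simp; push_cast; ring

theorem Pot1_po {j i : ℕ} (hj : 1 ≤ j) (h1 : 1 ≤ i) : |po j i| ≤ pj j := by
  have hp := pj_pos j
  rcases le_or_gt i (Lb j) with h | h
  · have := po_bot hj h1 h
    rw [abs_le]; constructor <;> linarith [this.1, this.2]
  · rw [po_top h, abs_zero]; exact hp.le

theorem Pot1_al0 (k : ℕ) : al 0 k = 0 := by rw [al, Pot1_Af0, zero_div]

theorem fl_zero_one (x : Prm) (z : ℂ) : x.fl 0 1 z = 100 * ell 0 := by
  simp [Prm.fl, Prm.VV, Prm.V1, wallSum, ringSum, po_zero, Pot1_al0]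

theorem Pot1_lg {y : ℝ} (h : |y| ≤ 1) : |Real.log (1 + Real.exp y)| ≤ 3 := by
  have h0 := Real.exp_pos y
  have h1 : Real.exp y ≤ Real.exp 1 := Real.exp_le_exp.2 (abs_le.1 h).2
  have h2 := Real.exp_one_lt_d9
  rw [abs_of_nonneg (Real.log_nonneg (by linarith))]
  have := Real.log_le_sub_one_of_pos (show 0 < 1 + Real.exp y by linarith)
  linarith

theorem Pot1_mul {a b A B : ℝ} (h0 : 0 ≤ a) (ha : a ≤ A) (hb : |b| ≤ B) : |a * b| ≤ A * B := by
  rw [abs_mul, abs_of_nonneg h0]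
  exact mul_le_mul ha hb (abs_nonneg _) (h0.trans ha)

theorem Pot1_small {j : ℕ} (hj : 1 ≤ j) :
    6 * Lb j * (20 * Lb j * pj j * ell j / nn j) ≤ pj j * ell j / 10000 := by
  have hn := Mac2_nn_pos j
  have hb := nn_big hj
  have hp := pj_pos j
  have hl : 0 < ell j := lt_of_lt_of_le (by positivity) (ell_ge j)
  rw [Pot1_NN hj] at hb
  have hq : 0 < pj j * ell j := mul_pos hp hl
  have h1 : 6 * Lb j * (20 * Lb j * pj j * ell j / nn j) =
      120 * (Lb j : ℝ) ^ 2 / nn j * (pj j * ell j) := by ring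
  have h2 : 120 * (Lb j : ℝ) ^ 2 / nn j ≤ 1 / 10000 := by
    rw [div_le_iff₀ hn]; nlinarith [sq_nonneg (Lb j : ℝ)]
  rw [h1]; nlinarith

namespace InK

variable {x : Prm} (hx : InK x)
include hx

theorem dV_le {j k : ℕ} (hj : 1 ≤ j) (h1 : 1 ≤ k) (h2 : k < NN j) :
    |x.dV j k| ≤ 20 * Lb j * pj j * ell j / nn j := by
  have hn := Mac2_nn_pos j
  have hn1 := Mac2_nn_one j
  have hp := pj_pos j
  have hL := Mac2_Lb_one j
  have hl : 90000 ≤ ell j := le_trans
    (le_mul_of_one_le_right (by norm_num) (one_le_pow₀ (by norm_num))) (ell_ge j)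
  set A : ℝ := Lb j * pj j / nn j with hA
  have hA0 : 0 ≤ A := by positivity
  have hal : ∀ k, al j k ≤ A := al_le j
  have hap : ∀ k, ap j k ≤ 2 * A := fun k => (ap_le j k).trans_eq (by rw [hA]; ring)
  have hxr : |x.xr j k| ≤ 1 / (1000 * nn j) := hx.lr_near hj h2.le
  have hnx : |nn j * x.xr j k| ≤ 1 := by
    refine (Pot1_mul hn.le le_rfl hxr).trans ?_
    rw [mul_one_div, div_le_one (by positivity)]; linarith
  have hnx' : |(nn j - 1) * x.xr j k| ≤ 1 := by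
    refine (Pot1_mul (by linarith) (by linarith : (nn j : ℝ) - 1 ≤ nn j) hxr).trans ?_
    rw [mul_one_div, div_le_one (by positivity)]; linarith
  have hlg0 : 0 ≤ Real.log (nn j) := Real.log_nonneg hn1
  have hlg : Real.log (nn j) ≤ ell j / 1000 :=
    (Real.log_le_log hn (Mac2_nn_le j)).trans (log_PP j)
  have hy : ∀ i, |x.y j i| ≤ 1 := fun i => by
    refine (hx.y_le j i).trans ?_
    have hb := nn_big hj
    have hN : (1 : ℝ) ≤ NN j := by rw [Pot1_NN hj]; linarith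
    rw [div_le_one hn]; nlinarith
  have hc : |Real.log ((x.wall j).c k) - ell j| ≤ 2 * ell j := by
    have hw : 0 < x.w j k := lt_of_lt_of_le (inv_pos.2 (by linarith [Mac2_PP_one j]))
      (hx.Mac2_w_ge h1 h2)
    have := abs_le.1 (hx.log_w h1 h2)
    rw [x.Mac1_c, Real.log_div hw.ne' hn.ne', abs_le]
    constructor <;> linarith [this.1, this.2]
  have hb1 : |Real.log (nn j) + (nn j - 1) * x.xr j k| ≤ ell j := by
    have := abs_le.1 hnx'
    rw [abs_le]; constructor <;> linarith [this.1, this.2]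
  have hb2 : ∀ y : ℝ, |y| ≤ 1 → |nn j * x.xr j k + Real.log (1 + Real.exp y)| ≤ ell j :=
    fun y h => (abs_add_le _ _).trans (by linarith [Pot1_lg h])
  have hb3 : ∀ i, 1 ≤ i → |po j i * x.xr j k| ≤ A * ell j := fun i hi => by
    rw [abs_mul]
    refine (mul_le_mul (Pot1_po hj hi) hxr (abs_nonneg _) hp.le).trans ?_
    have h3 : pj j * (1 / (1000 * nn j)) = pj j / nn j * (1 / 1000) := by field_simp
    have h4 : pj j / nn j ≤ A := div_le_div_of_nonneg_right (by nlinarith) hn.le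
    rw [h3]
    exact mul_le_mul h4 (by linarith) (by norm_num) hA0
  have e1 := abs_le.1 (Pot1_mul (add_nonneg (ap_nonneg j k) (al_nonneg j k))
    (add_le_add (hap k) (hal k)) hc)
  have e2 := abs_le.1 (Pot1_mul (ap_nonneg j k) (hap k) hb1)
  have e3 := abs_le.1 (Pot1_mul (al_nonneg j (k + 1)) (hal (k + 1))
    (hb2 (-x.y j k) (by rw [abs_neg]; exact hy k)))
  have e4 := abs_le.1 (hb3 (k + 1) (by omega))
  have e5 := abs_le.1 (Pot1_mul (al_nonneg j k) (hal k) hb1)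
  have e6 := abs_le.1 (Pot1_mul (ap_nonneg j (k - 1)) (hap (k - 1)) (hb2 _ (hy (k - 1))))
  have e7 := abs_le.1 (hb3 k h1)
  have e8 : 20 * Lb j * pj j * ell j / nn j = 20 * (A * ell j) := by rw [hA]; ring
  have e9 : 0 ≤ A * ell j := by positivity
  rw [e8, Prm.dV, Prm.h1, Prm.h2, abs_le]
  constructor <;> nlinarith [e1.1, e1.2, e2.1, e2.2, e3.1, e3.2, e4.1, e4.2, e5.1, e5.2, e6.1, e6.2,
    e7.1, e7.2]

theorem Pot1_sum {j a b : ℕ} (hj : 1 ≤ j) (ha : 1 ≤ a) (hb : b ≤ NN j) :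
    |∑ i ∈ Ico a b, x.dV j i| ≤ pj j * ell j / 10000 := by
  refine le_trans ?_ (Pot1_small hj)
  have hp := pj_pos j
  have hl : 0 < ell j := lt_of_lt_of_le (by positivity) (ell_ge j)
  refine (Finset.abs_sum_le_sum_abs _ _).trans ?_
  refine (Finset.sum_le_card_nsmul _ _ _ fun i hi => hx.dV_le hj
    (ha.trans (Finset.mem_Ico.1 hi).1) ((Finset.mem_Ico.1 hi).2.trans_le hb)).trans ?_
  rw [nsmul_eq_mul, Nat.card_Ico, ← Pot1_NN hj]
  exact mul_le_mul_of_nonneg_right (Nat.cast_le.2 (by omega)) (by positivity)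

omit hx in
theorem Pot1_dV0 : x.dV 0 1 = -(ell 0 / 100) := by
  have hw : x.w 0 1 = 1 := x.w_L 0
  have h1 : ap 0 1 = 1 / 100 := by simp [ap, Pot1_Af0, pj, nn_zero]
  have h0 : ap 0 0 = 0 := if_pos rfl
  simp only [Prm.dV, Prm.h1, Prm.h2, Prm.Mac1_c, hw, h1, h0, Pot1_al0, po_zero, nn_zero,
    Nat.sub_self, Nat.cast_one, div_one, Real.log_one]
  ring

theorem VV_zero_two : x.VV 0 2 = 100 * ell 0 - ell 0 / 100 := by
  have _ := hx
  have : ∑ i ∈ Ico 1 2, x.dV 0 i = x.dV 0 1 := by simp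
  rw [Prm.VV, this, Pot1_dV0, Prm.V1]; ring

theorem Pot1_sum0 {j b : ℕ} (hb : b ≤ NN j) :
    -(pj j * ell j / 100) ≤ ∑ i ∈ Ico 1 b, x.dV j i := by
  have hp := pj_pos j
  have hl : 0 < ell j := lt_of_lt_of_le (by positivity) (ell_ge j)
  have hq : 0 < pj j * ell j := mul_pos hp hl
  rcases Nat.eq_zero_or_pos j with rfl | hj
  · rw [NN_zero] at hb
    rcases hb.eq_or_lt with rfl | hb
    · have : ∑ i ∈ Ico 1 2, x.dV 0 i = x.dV 0 1 := by simp
      rw [this, Pot1_dV0]; simp [pj]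
    · rw [Finset.Ico_eq_empty (by omega), Finset.sum_empty]; linarith
  · linarith [(abs_le.1 (hx.Pot1_sum hj le_rfl hb)).1]

theorem Pot1_V1 (j : ℕ) : 90 * ell 0 + 9 * (pj j * ell j) ≤ x.V1 j := by
  induction j with
  | zero =>
    have hl : 0 < ell 0 := lt_of_lt_of_le (by positivity) (ell_ge 0)
    simp only [Prm.V1, pj, pow_zero]; linarith
  | succ j ih =>
    have hp := pj_pos j
    have hl : 0 < ell j := lt_of_lt_of_le (by positivity) (ell_ge j)
    have hq : 0 < pj j * ell j := mul_pos hp hl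
    have h1 := hx.Pot1_sum0 (j := j) (b := Lb j + 1) (Nat.add_le_add_left (Mt_pos j) _)
    rw [Prm.V1, Pot1_succ, ell_succ]
    nlinarith

theorem VV_ge {j i : ℕ} (h : i ≤ NN j) : 80 * ell 0 ≤ x.VV j i := by
  have hp := pj_pos j
  have hl : 0 < ell j := lt_of_lt_of_le (by positivity) (ell_ge j)
  have hl0 : 0 < ell 0 := lt_of_lt_of_le (by positivity) (ell_ge 0)
  have hq : 0 < pj j * ell j := mul_pos hp hl
  have h1 := hx.Pot1_sum0 h
  have h2 := hx.Pot1_V1 j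
  rw [Prm.VV]; linarith

theorem VV_diff {j a : ℕ} (h1 : 1 ≤ a) (h2 : a ≤ Mt j) :
    |x.VV j (Lb j + a) - x.VV (j + 1) a - 66 / 100 * pj j * ell j| ≤ pj j * ell j / 1000 := by
  have hp := pj_pos j
  have hl : 0 < ell j := lt_of_lt_of_le (by positivity) (ell_ge j)
  have hq : 0 < pj j * ell j := mul_pos hp hl
  have e : x.VV j (Lb j + a) - x.VV (j + 1) a - 66 / 100 * pj j * ell j =
      ∑ i ∈ Ico (Lb j + 1) (Lb j + a), x.dV j i - ∑ i ∈ Ico 1 a, x.dV (j + 1) i := by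
    rw [Prm.VV, Prm.VV, Prm.V1,
      ← Finset.sum_Ico_consecutive _ (by omega : 1 ≤ Lb j + 1) (by omega : Lb j + 1 ≤ Lb j + a)]
    ring
  have h3 : |∑ i ∈ Ico (Lb j + 1) (Lb j + a), x.dV j i| ≤ pj j * ell j / 10000 := by
    rcases Nat.eq_zero_or_pos j with rfl | hj
    · rw [Mt_zero] at h2
      rw [Finset.Ico_eq_empty (by omega), Finset.sum_empty, abs_zero]; linarith
    · exact hx.Pot1_sum hj (by omega) (Nat.add_le_add_left h2 _)
  have h4 := hx.Pot1_sum (j := j + 1) (b := a) (by omega) le_rfl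
    (h2.trans (Nat.le_add_right (Lb (j + 1)) _))
  rw [Pot1_succ, ell_succ] at h4
  rw [e]
  refine (abs_sub _ _).trans ?_
  nlinarith

end InK

end Pool.Agent.MP_943ae2_gt

end
end

section

open Set Complex Filter Finset
open scoped Topology ComplexConjugate ContDiff

noncomputable section

namespace Pool.Agent.MP_943ae2_gt

lemma Pot2_rho_ge (j : ℕ) : 90000 ≤ rho j := by
  have h1 := Real.add_one_le_exp (ell j)
  have h2 := ell_ge j
  have h3 : (1 : ℝ) ≤ 4 ^ j := one_le_pow₀ (by norm_num)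
  rw [exp_ell] at h1
  linarith

lemma Pot2_ell_ge (j : ℕ) : 90000 ≤ ell j := by
  have h2 := ell_ge j
  have h3 : (1 : ℝ) ≤ 4 ^ j := one_le_pow₀ (by norm_num)
  linarith

lemma Pot2_rho_succ (j : ℕ) : 8 * rho j ≤ rho (j + 1) := by
  have h := Pot2_rho_ge j
  rw [rho_succ]
  have h3 : rho j ≤ rho j ^ 3 := le_self_pow₀ (by linarith) (by norm_num)
  nlinarith

lemma Pot2_n_le (j : ℕ) : 2 ^ 10 * (nn j : ℝ) ≤ PP j := by
  have h1 := nn_le_PP j
  have h2 : (nn j : ℝ) ≤ nn (j + 1) := Nat.cast_le.2 (nn_mono j)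
  linarith

lemma Pot2_tP (j : ℕ) : PP j ^ 2 * PP j * tt j ≤ 1 := by
  have h1 := PP_tt j
  have h2 : (1 : ℝ) ≤ PP j := le_trans (by norm_num) (PP_ge j)
  have h3 : PP j ^ 3 ≤ PP j ^ 60 := pow_le_pow_right₀ h2 (by norm_num)
  have h4 := tt_pos j
  calc PP j ^ 2 * PP j * tt j = PP j ^ 3 * tt j := by ring
    _ ≤ PP j ^ 60 * tt j := by gcongr
    _ ≤ 1 := h1

lemma Pot2_eta (j : ℕ) : 2 * tt j ^ 3 * (nn j : ℝ) ^ 2 ≤ 1 / 100 := by
  have h1 := Pos_tP j
  have h2 := Pot2_n_le j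
  have h3 := Mac2_nn_pos j
  have h4 : (0 : ℝ) < PP j := by linarith [Mac2_PP_one j]
  have h5 : (nn j : ℝ) * (PP j)⁻¹ ≤ 1 / 1000 := by
    rw [← div_eq_mul_inv, div_le_iff₀ h4]
    linarith
  have h6 : 0 ≤ (nn j : ℝ) * (PP j)⁻¹ := by positivity
  calc 2 * tt j ^ 3 * (nn j : ℝ) ^ 2 ≤ 2 * (PP j)⁻¹ ^ 2 * (nn j : ℝ) ^ 2 := by gcongr
    _ = 2 * ((nn j : ℝ) * (PP j)⁻¹) ^ 2 := by ring
    _ ≤ 1 / 100 := by nlinarith

lemma Pot2_PP_rho (j : ℕ) : PP j ≤ rho j := by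
  have h1 := Pot2_tP j
  have h2 := Mac2_PP_one j
  have h4 := tt_pos j
  have h5 : PP j ≤ (tt j)⁻¹ := by
    rw [← one_div, le_div_iff₀ h4]
    have : 1 ≤ PP j ^ 2 := one_le_pow₀ (by linarith)
    have : 0 ≤ PP j * tt j := by positivity
    nlinarith
  exact h5.trans (le_self_pow₀ (by linarith) (by norm_num))

lemma Pot2_Ln {j : ℕ} (hj : 1 ≤ j) : (Lb j : ℝ) / nn j ≤ 1 / 10 ^ 7 := by
  have h1 := nn_big hj
  have h2 := Mac2_Lb_one j
  rw [NN_eq hj] at h1
  push_cast at h1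
  rw [div_le_iff₀ (Mac2_nn_pos j)]
  nlinarith

lemma Pot2_al {j : ℕ} (hj : 1 ≤ j) (k : ℕ) : al j k ≤ pj j / 10 ^ 6 := by
  have h1 := al_le j k
  have h2 := Pot2_Ln hj
  have h3 := pj_pos j
  have e : Lb j * pj j / nn j = Lb j / nn j * pj j := by ring
  nlinarith

lemma Pot2_ap {j : ℕ} (hj : 1 ≤ j) (k : ℕ) : ap j k ≤ pj j / 10 ^ 6 := by
  have h1 := ap_le j k
  have h2 := Pot2_Ln hj
  have h3 := pj_pos j
  have e : 2 * Lb j * pj j / nn j = 2 * (Lb j / nn j * pj j) := by ring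
  nlinarith

lemma Pot2_max {a r ρ δ : ℝ} (hr : 0 < r) (hρ : 0 < ρ) (h : |Real.log r - Real.log ρ| ≤ δ) :
    |Real.log (max a r) - Real.log (max a ρ)| ≤ δ := by
  obtain ⟨h1, h2⟩ := abs_le.1 h
  rw [abs_le]
  rcases le_total a r with h3 | h3 <;> rcases le_total a ρ with h4 | h4
  · rw [max_eq_right h3, max_eq_right h4]
    exact ⟨h1, h2⟩
  · rw [max_eq_right h3, max_eq_left h4]
    have := Real.log_le_log hρ h4
    have := Real.log_le_log (hρ.trans_le h4) h3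
    constructor <;> linarith
  · rw [max_eq_left h3, max_eq_right h4]
    have := Real.log_le_log hr h3
    have := Real.log_le_log (hr.trans_le h3) h4
    constructor <;> linarith
  · rw [max_eq_left h3, max_eq_left h4]
    constructor <;> linarith

/-- positions of the sides of a ring -/
def Pot2p (x : Prm) (s : Bool) {j k : ℕ} (h : 1 ≤ k ∧ k < NN j) (i : ZMod (nn j)) : ℂ :=
  x.dat.pos (⟨j, k, i, h.1, h.2⟩, s)

/-- deviation of the logarithmic sum of a ring from its radial model -/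
def Pot2D (x : Prm) (s : Bool) (j k : ℕ) (z : ℂ) : ℝ :=
  if h : 1 ≤ k ∧ k < NN j then ∑ i, Real.log (‖z - Pot2p x s h i‖ / rho j) -
    nn j * Real.log (max ‖z‖ (rho j) / rho j) else 0

lemma Pot2_fl (x : Prm) {j i : ℕ} (h1 : 1 ≤ i) (h2 : i ≤ NN j) (z : ℂ) :
    x.fl j i z = x.VV j i +
      nn j * (al j i - ap j (i - 1)) * Real.log (max ‖z‖ (rho j) / rho j) -
      po j i * Real.log (‖z‖ / rho j) +
      (al j i * Pot2D x false j i z - ap j (i - 1) * Pot2D x true j (i - 1) z) := by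
  have e1 : ringSum (fun e => (if e.2 then -ap e.1.j e.1.k else al e.1.j e.1.k) *
      Real.log (‖z - x.dat.pos e‖ / rho j)) false j i =
      al j i * (Pot2D x false j i z + nn j * Real.log (max ‖z‖ (rho j) / rho j)) := by
    unfold ringSum Pot2D
    split_ifs with h
    · rw [sub_add_cancel, Finset.mul_sum]
      rfl
    · rw [al_out (by omega), zero_mul]
  have e2 : ringSum (fun e => (if e.2 then -ap e.1.j e.1.k else al e.1.j e.1.k) *
      Real.log (‖z - x.dat.pos e‖ / rho j)) true j (i - 1) =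
      -ap j (i - 1) * (Pot2D x true j (i - 1) z + nn j * Real.log (max ‖z‖ (rho j) / rho j)) := by
    unfold ringSum Pot2D
    split_ifs with h
    · rw [sub_add_cancel, Finset.mul_sum]
      rfl
    · have : ap j (i - 1) = 0 := if_pos (by omega)
      rw [this, neg_zero, zero_mul]
  rw [Prm.fl, wallSum, e1, e2]
  ring

lemma Pot2_D_eq (x : Prm) (s : Bool) {j k : ℕ} (h : 1 ≤ k ∧ k < NN j) {z : ℂ}
    (hz : ∀ i, 0 < ‖z - Pot2p x s h i‖) : Pot2D x s j k z =
      ∑ i, Real.log ‖z - Pot2p x s h i‖ - nn j * Real.log (max ‖z‖ (rho j)) := by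
  have hρ := rho_pos j
  rw [Pot2D, dif_pos h, Finset.sum_congr rfl fun i _ => Real.log_div (hz i).ne' hρ.ne',
    Real.log_div (lt_max_of_lt_right hρ).ne' hρ.ne', Finset.sum_sub_distrib, Finset.sum_const,
    card_univ, ZMod.card, nsmul_eq_mul]
  ring

namespace InK

variable {x : Prm} (hx : InK x)
include hx

theorem fl_zero_two (z : ℂ) : x.fl 0 2 z = x.VV 0 2 - 1 / 100 * Real.log (‖z‖ / rho 0) := by
  have h1 : ap 0 1 = 1 / 100 := by simp [ap, Af, pj, nn_zero]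
  rw [Prm.fl, wallSum, po_zero, ringSum, ringSum, dif_neg (by decide), dif_pos (by decide),
    Finset.sum_congr rfl (g := fun _ => -(1 / 100) * Real.log (‖z‖ / rho 0)) fun i _ => by
      rw [hx.pos_zero _ rfl, sub_zero, if_pos rfl, ← h1],
    Finset.sum_const, card_univ, ZMod.card, nn_zero, one_smul]
  ring

lemma Pot2_near (s : Bool) {j k : ℕ} (hj : 1 ≤ j) (h : 1 ≤ k ∧ k < NN j) (i : ZMod (nn j)) :
    ‖Pot2p x s h i - (Real.exp (x.lr j k) : ℝ) * un (nn j) k i‖ ≤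
      2 * tt j ^ 3 * Real.exp (x.lr j k) :=
  hx.pos_near (⟨j, k, i, h.1, h.2⟩, s) hj

lemma Pot2_rad {j k : ℕ} (hj : 1 ≤ j) (h : k ≤ NN j) (a : ℝ) :
    |nn j * Real.log (max a (Real.exp (x.lr j k))) - nn j * Real.log (max a (rho j))| ≤ 1 := by
  have hn := Mac2_nn_pos j
  have h1 := Pot2_max (a := a) (δ := 1 / (1000 * (nn j : ℝ))) (Real.exp_pos (x.lr j k)) (rho_pos j)
    (by rw [Real.log_exp]; exact hx.lr_near hj h)
  rw [← mul_sub, abs_mul, abs_of_pos hn]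
  calc _ ≤ nn j * (1 / (1000 * (nn j : ℝ))) := by gcongr
    _ = 1 / 1000 := by field_simp
    _ ≤ 1 := by norm_num

lemma Pot2_D_far (s : Bool) {j : ℕ} (hj : 1 ≤ j) (k : ℕ) {z : ℂ}
    (hz : ‖z‖ ≤ rho j / 2 ∨ 2 * rho j ≤ ‖z‖) : |Pot2D x s j k z| ≤ 6 := by
  by_cases h : 1 ≤ k ∧ k < NN j
  · have hn : 10 ≤ nn j := le_trans (by norm_num) (nn_ge hj)
    have hn' : (10 : ℝ) ≤ nn j := by exact_mod_cast hn
    have hr := Real.exp_pos (x.lr j k)
    have hρ := rho_pos j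
    obtain ⟨r1, r2⟩ := hx.Pos_exp hj h.2.le
    have hi : (1 : ℝ) / nn j ≤ 1 / 10 := one_div_le_one_div_of_le (by norm_num) hn'
    have hz' : ‖z‖ ≤ Real.exp (x.lr j k) * Real.exp (-1 / nn j) ∨
        Real.exp (x.lr j k) * Real.exp (1 / nn j) ≤ ‖z‖ := by
      have e1 : 9 / 10 ≤ Real.exp (-1 / nn j) := by
        have := Real.add_one_le_exp (-1 / nn j)
        rw [neg_div] at this ⊢
        linarith
      have e2 : Real.exp (1 / nn j) ≤ 10 / 9 := by
        have e : Real.exp (1 / nn j) * Real.exp (-1 / nn j) = 1 := by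
          rw [← Real.exp_add, neg_div, add_neg_cancel, Real.exp_zero]
        have := Real.exp_pos (1 / nn j)
        nlinarith
      rcases hz with hz | hz
      · left; nlinarith
      · right; nlinarith
    obtain ⟨h1, h2⟩ := log_mid hn hr (hx.Pot2_near s hj h) (Pot2_eta j) hz'
    rw [Pot2_D_eq x s h fun i => lt_of_lt_of_le (by positivity) (h1 i)]
    have h3 := abs_le.1 (hx.Pot2_rad hj h.2.le ‖z‖)
    have h4 := abs_le.1 h2
    rw [abs_le]
    constructor <;> linarith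
  · rw [Pot2D, dif_neg h]
    norm_num

theorem fl_far {j i : ℕ} (hj : 1 ≤ j) (h1 : 1 ≤ i) (h2 : i ≤ NN j) {z : ℂ}
    (hz : ‖z‖ ≤ rho j / 2 ∨ 2 * rho j ≤ ‖z‖) :
    |x.fl j i z - (x.VV j i + nn j * (al j i - ap j (i - 1)) * Real.log (max ‖z‖ (rho j) / rho j) -
      po j i * Real.log (‖z‖ / rho j))| ≤ pj j / 1000 := by
  rw [Pot2_fl x h1 h2, add_sub_cancel_left]
  obtain ⟨a1, a2⟩ := abs_le.1 (hx.Pot2_D_far false hj i hz)
  obtain ⟨b1, b2⟩ := abs_le.1 (hx.Pot2_D_far true hj (i - 1) hz)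
  have c1 := al_nonneg j i
  have c2 := ap_nonneg j (i - 1)
  have c3 := Pot2_al hj i
  have c4 := Pot2_ap hj (i - 1)
  have c5 := pj_pos j
  rw [abs_le]
  constructor <;> nlinarith

lemma Pot2_bet (e : Nk × Bool) : tt e.1.j ≤ ‖x.dat.bet e‖ := by
  have h1 := hx.bq_ge e.1
  have h2 := (abs_le.1 (hx.bet_near e)).1
  have h3 := Pot2_tP e.1.j
  have h4 := Mac2_PP_one e.1.j
  have h5 := tt_pos e.1.j
  have h6 : tt e.1.j ^ 28 ≤ tt e.1.j :=
    pow_le_of_le_one h5.le (by linarith [tt_le e.1.j]) (by norm_num)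
  have h7 : 2 * tt e.1.j ≤ (PP e.1.j)⁻¹ ^ 2 := by
    rw [inv_pow, ← one_div, le_div_iff₀ (by positivity)]
    have : 0 ≤ PP e.1.j ^ 2 * tt e.1.j := by positivity
    nlinarith
  linarith

lemma Pot2_D_U (s : Bool) {j : ℕ} (hj : 1 ≤ j) (k : ℕ) {l : ℕ} {z : ℂ} (hz : z ∈ frm.U x.dat l)
    (hl : ∀ e : Nk × Bool, e.1.j = j → e.1.k = k → e.2 = s → e ∈ frm.sides l) :
    -(2 * ell j) ≤ Pot2D x s j k z ∧ Pot2D x s j k z ≤ 6 := by
  have hE := Pot2_ell_ge j
  by_cases h : 1 ≤ k ∧ k < NN j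
  · have hn : 10 ≤ nn j := le_trans (by norm_num) (nn_ge hj)
    have hn' : (10 : ℝ) ≤ nn j := by exact_mod_cast hn
    have hr := Real.exp_pos (x.lr j k)
    have ht := tt_pos j
    have hs : 0 < tt j ^ 18 := by positivity
    have hU : ∀ i, tt j ^ 18 ≤ ‖z - Pot2p x s h i‖ := by
      intro i
      have h1 := hz _ (hl (⟨j, k, i, h.1, h.2⟩, s) rfl rfl rfl)
      have h2 : tt j ≤ _ := hx.Pot2_bet (⟨j, k, i, h.1, h.2⟩, s)
      refine le_trans ?_ h1.le
      change _ ≤ _ / (tt j)⁻¹ ^ 16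
      rw [inv_pow, div_inv_eq_mul]
      calc tt j ^ 18 = tt j ^ 2 * tt j ^ 16 := by ring
        _ ≤ _ := by gcongr
    have hs2 : tt j ^ 18 ≤ Real.exp (x.lr j k) / (10 * nn j) := by
      have h1 : tt j ^ 18 ≤ 1 := pow_le_one₀ ht.le (by linarith [tt_le j])
      have h2 := (hx.Pos_exp hj h.2.le).1
      have h3 := Pot2_n_le j
      have h4 := Pot2_PP_rho j
      refine h1.trans ?_
      rw [le_div_iff₀ (by positivity)]
      linarith
    have h1 := lgs_up hn hr (hx.Pot2_near s hj h) (Pot2_eta j) hs hs2 z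
    have h2 := lgs_lo hn hr (hx.Pot2_near s hj h) (Pot2_eta j) hs hs2 z
    have e : lgs (Pot2p x s h) (tt j ^ 18) z = ∑ i, Real.log ‖z - Pot2p x s h i‖ :=
      Finset.sum_congr rfl fun i _ => by rw [max_eq_left (hU i)]
    have h3 := abs_le.1 (hx.Pot2_rad hj h.2.le ‖z‖)
    have h4 : Real.log (Real.exp (x.lr j k) / tt j ^ 18) ≤ 25 / 16 * ell j + 1 := by
      have h5 := (abs_le.1 (hx.lr_near hj h.2.le)).2
      have h6 : 1 / (1000 * (nn j : ℝ)) ≤ 1 := by
        rw [div_le_one (by positivity)]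
        linarith
      have h7 := ell_eq j
      rw [Real.log_inv] at h7
      rw [Real.log_div hr.ne' hs.ne', Real.log_exp, Real.log_pow]
      push_cast
      linarith
    rw [Pot2_D_eq x s h fun i => hs.trans_le (hU i), ← e]
    constructor <;> linarith
  · rw [Pot2D, dif_neg h]
    constructor <;> linarith

theorem fl_low {j i : ℕ} (hj : 1 ≤ j) (h1 : 1 ≤ i) (h2 : i ≤ NN j) {z : ℂ}
    (hz : z ∈ frm.U x.dat (bs j + i - 1)) :
    x.VV j i + nn j * (al j i - ap j (i - 1)) * Real.log (max ‖z‖ (rho j) / rho j) -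
      po j i * Real.log (‖z‖ / rho j) - pj j * ell j / 1000 ≤ x.fl j i z := by
  rw [Pot2_fl x h1 h2]
  have a1 := (hx.Pot2_D_U false hj i hz fun e e1 e2 e3 =>
    (mem_sides_wall h1 h2 e).2 (.inl ⟨e1, by simp [e2, e3]⟩)).1
  have b1 := (hx.Pot2_D_U true hj (i - 1) hz fun e e1 e2 e3 =>
    (mem_sides_wall h1 h2 e).2 (.inl ⟨e1, by simp only [e2, e3, if_true]; omega⟩)).2
  have c1 := al_nonneg j i
  have c2 := ap_nonneg j (i - 1)
  have c3 := Pot2_al hj i
  have c4 := Pot2_ap hj (i - 1)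
  have c5 := pj_pos j
  have c6 := Pot2_ell_ge j
  have d1 : -(al j i * (2 * ell j)) ≤ al j i * Pot2D x false j i z := by nlinarith
  have d2 : ap j (i - 1) * Pot2D x true j (i - 1) z ≤ ap j (i - 1) * 6 := by gcongr
  have d3 : al j i * (2 * ell j) ≤ pj j / 10 ^ 6 * (2 * ell j) := by gcongr
  nlinarith

lemma Pot2_top {j a : ℕ} (h1 : 1 ≤ a) (h2 : a ≤ Mt j) {z : ℂ} (hz : 2 * rho j ≤ ‖z‖) :
    x.VV j (Lb j + a) - 21 / 100 * pj j * Real.log (‖z‖ / rho j) - pj j / 1000 ≤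
      x.fl j (Lb j + a) z ∧ x.fl j (Lb j + a) z ≤ x.VV j (Lb j + a) + pj j / 1000 := by
  have hρ := rho_pos j
  have hl : 0 ≤ Real.log (‖z‖ / rho j) := Real.log_nonneg (by rw [le_div_iff₀ hρ]; linarith)
  rcases Nat.eq_zero_or_pos j with rfl | hj
  · obtain rfl : a = 1 := le_antisymm h2 h1
    have e : pj 0 = 1 := pow_zero _
    change _ ≤ x.fl 0 2 z ∧ x.fl 0 2 z ≤ x.VV 0 2 + _
    change x.VV 0 2 - _ - _ ≤ _ ∧ _
    rw [hx.fl_zero_two, e]
    constructor <;> linarith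
  · have h3 : Lb j + a ≤ NN j := Nat.add_le_add_left h2 _
    have h4 := abs_le.1 (hx.fl_far hj (by omega) h3 (.inr hz))
    rw [top_slope hj (by omega) h3, po_top (by omega), max_eq_left (by linarith)] at h4
    have h5 : 0 ≤ pj j * Real.log (‖z‖ / rho j) := mul_nonneg (pj_pos j).le hl
    constructor <;> linarith [h4.1, h4.2]

lemma Pot2_bot {j a : ℕ} (h1 : 1 ≤ a) (h2 : a ≤ Mt j) {z : ℂ} (hz : ‖z‖ ≤ rho (j + 1) / 2) :
    |x.fl (j + 1) a z - (x.VV (j + 1) a - po (j + 1) a * Real.log (‖z‖ / rho (j + 1)))| ≤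
      pj j / 1000 := by
  have hρ := rho_pos (j + 1)
  have h3 : a ≤ NN (j + 1) := h2.trans (Nat.le_add_right _ _)
  have h4 := hx.fl_far (by omega) h1 h3 (.inl hz)
  rw [max_eq_right (by linarith), div_self hρ.ne', Real.log_one, mul_zero, add_zero] at h4
  have e : pj (j + 1) = pj j * (23 / 100) := pow_succ _ _
  have := pj_pos j
  linarith

theorem ann_in {j a : ℕ} (h1 : 1 ≤ a) (h2 : a ≤ Mt j) {z : ℂ} (hz1 : 2 * rho j ≤ ‖z‖)
    (hz2 : ‖z‖ ≤ 4 * rho j) : x.fl j (Lb j + a) z + pj j ≤ x.fl (j + 1) a z := by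
  have hρ := rho_pos j
  have h8 := Pot2_rho_succ j
  have a1 := (hx.Pot2_top h1 h2 hz1).2
  have a2 := (abs_le.1 (hx.Pot2_bot h1 h2 (z := z) (by linarith))).1
  have a3 := (abs_le.1 (hx.VV_diff h1 h2)).2
  have a4 := (po_bot (j := j + 1) (by omega) h1 h2).1
  have e : pj (j + 1) = pj j * (23 / 100) := pow_succ _ _
  have c5 := pj_pos j
  have c6 := Pot2_ell_ge j
  have a5 : Real.log (‖z‖ / rho (j + 1)) ≤ 3 - 3 * ell j := by
    have b1 : Real.log ‖z‖ ≤ Real.log (4 * rho j) := Real.log_le_log (by linarith) hz2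
    have b2 := Real.log_le_sub_one_of_pos (show (0 : ℝ) < 4 by norm_num)
    have b3 := ell_succ j
    rw [Real.log_mul (by norm_num) hρ.ne'] at b1
    rw [Real.log_div (by linarith) (by linarith)]
    unfold ell at b3 ⊢
    linarith
  have a6 : 99 / 100 * pj (j + 1) * (3 * ell j - 3) ≤
      po (j + 1) a * -Real.log (‖z‖ / rho (j + 1)) :=
    mul_le_mul a4 (by linarith) (by linarith) (by linarith)
  rw [e] at a6
  nlinarith

theorem ann_out {j a : ℕ} (h1 : 1 ≤ a) (h2 : a ≤ Mt j) {z : ℂ} (hz1 : rho (j + 1) / 4 ≤ ‖z‖)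
    (hz2 : ‖z‖ ≤ rho (j + 1) / 2) : x.fl (j + 1) a z + pj j ≤ x.fl j (Lb j + a) z := by
  have hρ := rho_pos j
  have h8 := Pot2_rho_succ j
  have a1 := (hx.Pot2_top h1 h2 (z := z) (by linarith)).1
  have a2 := (abs_le.1 (hx.Pot2_bot h1 h2 hz2)).2
  have a3 := (abs_le.1 (hx.VV_diff h1 h2)).1
  obtain ⟨a4, a4'⟩ := po_bot (j := j + 1) (by omega) h1 h2
  have e : pj (j + 1) = pj j * (23 / 100) := pow_succ _ _
  have c5 := pj_pos j
  have c6 := Pot2_ell_ge j
  have b3 := ell_succ j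
  have a5 : -Real.log (‖z‖ / rho (j + 1)) ≤ 3 := by
    have b1 : Real.log (rho (j + 1) / 4) ≤ Real.log ‖z‖ := Real.log_le_log (by linarith) hz1
    have b2 := Real.log_le_sub_one_of_pos (show (0 : ℝ) < 4 by norm_num)
    rw [Real.log_div (by linarith) (by norm_num)] at b1
    rw [Real.log_div (by linarith) (by linarith)]
    linarith
  have a6 : Real.log (‖z‖ / rho j) ≤ 3 * ell j := by
    have b1 : Real.log ‖z‖ ≤ Real.log (rho (j + 1)) := Real.log_le_log (by linarith) (by linarith)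
    rw [Real.log_div (by linarith) hρ.ne']
    unfold ell at b3 ⊢
    linarith
  have a7 : po (j + 1) a * -Real.log (‖z‖ / rho (j + 1)) ≤ pj (j + 1) * 3 :=
    (mul_le_mul_of_nonneg_left a5 (by linarith)).trans (by linarith)
  have a8 : pj j * Real.log (‖z‖ / rho j) ≤ pj j * (3 * ell j) := by gcongr
  rw [e] at a7
  nlinarith

end InK

end Pool.Agent.MP_943ae2_gt

end
end
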