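import Pool.Agent.Mg.F943ae2.G08e149

open Set Complex Filter Finset
open scoped Topology ComplexConjugate ContDiff

noncomputable section

namespace Pool.Agent.MP_943ae2_gt

variable {w : Wall} {n : ℕ} [NeZero n] {P : ℝ} {L m : ℕ}

lemma W6b_shift {N : ℕ} (hN : 1 ≤ N) (g : ℕ → ℝ) (hg : g N = 0) :
    ∑ k ∈ range N, g (k + 1) = ∑ k ∈ Ico 1 N, g k := by
  rw [Finset.range_eq_Ico, Finset.sum_Ico_add' g 0 N 1, zero_add, Finset.sum_Ico_succ_top hN, hg,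
    add_zero]

lemma W6b_bot {N : ℕ} (hN : 1 ≤ N) (g : ℕ → ℝ) (hg : g 0 = 0) :
    ∑ k ∈ range N, g k = ∑ k ∈ Ico 1 N, g k := by
  rw [Finset.range_eq_Ico, Finset.sum_eq_sum_Ico_succ_bot hN, hg, zero_add]

lemma W6b_tele (f : ℕ → ℂ) {a b : ℕ} (h : a ≤ b) :
    ‖f b - f a‖ ^ 2 ≤ ((b : ℝ) - a) * ∑ j ∈ Ico a b, ‖f (j + 1) - f j‖ ^ 2 := by
  have h1 : ‖f b - f a‖ ≤ ∑ j ∈ Ico a b, ‖f (j + 1) - f j‖ := by
    rw [← Finset.sum_Ico_sub f h]
    exact norm_sum_le _ _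
  have h2 := sq_sum_le_card_mul_sum_sq (s := Ico a b) (f := fun j => ‖f (j + 1) - f j‖)
  rw [Nat.card_Ico, Nat.cast_sub h] at h2
  exact (pow_le_pow_left₀ (norm_nonneg _) h1 2).trans h2

lemma W6b_nsub (x y : ℂ) : ‖y - x‖ ^ 2 = ‖x‖ ^ 2 + ‖y‖ ^ 2 - 2 * (x * conj y).re := by
  simp only [Complex.sq_norm, Complex.normSq_apply, Complex.sub_re, Complex.sub_im, Complex.mul_re,
    Complex.conj_re, Complex.conj_im]
  ring

lemma W6b_nsub' (a b : ℝ) (x y : ℂ) :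
    ‖(b : ℂ) * y - (a : ℂ) * x‖ ^ 2 =
      a ^ 2 * ‖x‖ ^ 2 + b ^ 2 * ‖y‖ ^ 2 - 2 * (a * b) * (x * conj y).re := by
  simp only [Complex.sq_norm, Complex.normSq_apply, Complex.sub_re, Complex.sub_im, Complex.mul_re,
    Complex.mul_im, Complex.conj_re, Complex.conj_im, Complex.ofReal_re, Complex.ofReal_im]
  ring

lemma W6b_nmul (a : ℝ) (x : ℂ) : ‖(a : ℂ) * x‖ ^ 2 = a ^ 2 * ‖x‖ ^ 2 := by
  rw [norm_mul, mul_pow, Complex.norm_real, Real.norm_eq_abs, sq_abs]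

/-- the neighbour sum, re-indexed -/
lemma W6b_nb {N : ℕ} (hN : 1 ≤ N) (c : ℕ → ℝ) (h0 : c 0 = 0) (hc : c N = 0) (f : ℕ → ℝ) :
    ∑ k ∈ range N, c k * c (k + 1) * (f k + f (k + 1)) =
      ∑ k ∈ Ico 1 N, c k * (c (k + 1) + c (k - 1)) * f k := by
  have e1 := W6b_shift hN (fun k => c k * c (k - 1) * f k) (by simp [hc])
  have e2 := W6b_bot hN (fun k => c k * c (k + 1) * f k) (by simp [h0])
  simp only [Nat.add_sub_cancel] at e1
  calc ∑ k ∈ range N, c k * c (k + 1) * (f k + f (k + 1))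
      = ∑ k ∈ range N, c k * c (k + 1) * f k + ∑ k ∈ range N, c (k + 1) * c k * f (k + 1) := by
        rw [← Finset.sum_add_distrib]
        exact Finset.sum_congr rfl fun k _ => by ring
    _ = _ := by
        rw [e1, e2, ← Finset.sum_add_distrib]
        exact Finset.sum_congr rfl fun k _ => by ring

/-- the identity `G = Q - T` -/
lemma W6b_ident {N : ℕ} (hN : 1 ≤ N) (c : ℕ → ℝ) (h0 : c 0 = 0) (hc : c N = 0) (v : ℕ → ℂ) :
    ∑ k ∈ range N, ‖(c (k + 1) : ℂ) * v (k + 1) - (c k : ℂ) * v k‖ ^ 2 =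
      ∑ k ∈ range N, c k * c (k + 1) * ‖v (k + 1) - v k‖ ^ 2 -
        ∑ k ∈ Ico 1 N, c k * (c (k + 1) - 2 * c k + c (k - 1)) * ‖v k‖ ^ 2 := by
  have e1 := W6b_shift hN (fun k => c k ^ 2 * ‖v k‖ ^ 2) (by simp [hc])
  have e2 := W6b_bot hN (fun k => c k ^ 2 * ‖v k‖ ^ 2) (by simp [h0])
  have e3 := W6b_nb hN c h0 hc (fun k => ‖v k‖ ^ 2)
  have e4 : ∑ k ∈ range N, ‖(c (k + 1) : ℂ) * v (k + 1) - (c k : ℂ) * v k‖ ^ 2 =
      ∑ k ∈ range N, c k ^ 2 * ‖v k‖ ^ 2 + ∑ k ∈ range N, c (k + 1) ^ 2 * ‖v (k + 1)‖ ^ 2 -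
        ∑ k ∈ range N, 2 * (c k * c (k + 1)) * (v k * conj (v (k + 1))).re := by
    rw [← Finset.sum_add_distrib, ← Finset.sum_sub_distrib]
    exact Finset.sum_congr rfl fun k _ => W6b_nsub' _ _ _ _
  have e5 : ∑ k ∈ range N, c k * c (k + 1) * ‖v (k + 1) - v k‖ ^ 2 =
      ∑ k ∈ range N, c k * c (k + 1) * (‖v k‖ ^ 2 + ‖v (k + 1)‖ ^ 2) -
        ∑ k ∈ range N, 2 * (c k * c (k + 1)) * (v k * conj (v (k + 1))).re := by
    rw [← Finset.sum_sub_distrib]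
    exact Finset.sum_congr rfl fun k _ => by rw [W6b_nsub]; ring
  have e6 : ∑ k ∈ Ico 1 N, c k * (c (k + 1) - 2 * c k + c (k - 1)) * ‖v k‖ ^ 2 =
      ∑ k ∈ Ico 1 N, c k * (c (k + 1) + c (k - 1)) * ‖v k‖ ^ 2 -
        2 * ∑ k ∈ Ico 1 N, c k ^ 2 * ‖v k‖ ^ 2 := by
    rw [Finset.mul_sum, ← Finset.sum_sub_distrib]
    exact Finset.sum_congr rfl fun k _ => by ring
  rw [e4, e5, e6, e3, e1, e2]
  ring

/-- discrete Hardy inequality -/
lemma W6b_hardy {N k : ℕ} (hk : k ≤ N) (η : ℕ → ℂ) (h0 : η 0 = 0) (hN : η N = 0) :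
    ‖η k‖ ^ 2 ≤ ((min k (N - k) : ℕ) : ℝ) * ∑ j ∈ range N, ‖η (j + 1) - η j‖ ^ 2 := by
  have hsub : ∀ a b : ℕ, b ≤ N → ∑ j ∈ Ico a b, ‖η (j + 1) - η j‖ ^ 2 ≤
      ∑ j ∈ range N, ‖η (j + 1) - η j‖ ^ 2 := fun a b hb =>
    Finset.sum_le_sum_of_subset_of_nonneg
      (fun j hj => by rw [Finset.mem_Ico] at hj; rw [Finset.mem_range]; omega)
      (fun _ _ _ => by positivity)
  rcases le_total k (N - k) with h | h
  · rw [min_eq_left h]
    have := W6b_tele η (Nat.zero_le k)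
    rw [h0, sub_zero, Nat.cast_zero, sub_zero] at this
    exact this.trans (mul_le_mul_of_nonneg_left (hsub 0 k hk) (by positivity))
  · rw [min_eq_right h, Nat.cast_sub hk]
    have := W6b_tele η hk
    rw [hN, zero_sub, norm_neg] at this
    have hk' : (0 : ℝ) ≤ (N : ℝ) - k := sub_nonneg.2 (by exact_mod_cast hk)
    exact this.trans (mul_le_mul_of_nonneg_left (hsub k N le_rfl) hk')

lemma W6b_c_nonneg (hb : w.Bd n P) (k : ℕ) : 0 ≤ w.c k := by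
  rcases Nat.eq_zero_or_pos k with rfl | h1
  · exact hb.c_zero.ge
  rcases Nat.lt_or_ge k w.N with h2 | h2
  · have hP : 0 < P := lt_of_lt_of_le (by norm_num) hb.P_ge
    exact (inv_pos.2 hP).le.trans (hb.c_ge k h1 h2)
  · exact (hb.c_out k h2).ge

/-- the window estimate -/
lemma W6b_window (hb : w.Bd n P) (hs : w.Shape n L) (v : ℕ → ℂ) :
    (L : ℝ) * (w.c L ^ 2 * ‖v L‖ ^ 2) ≤ 8 * ∑ k ∈ Ico 1 w.N, w.c k ^ 2 * ‖v k‖ ^ 2 +
      8 * (L : ℝ) ^ 2 * ∑ k ∈ range w.N, w.c k * w.c (k + 1) * ‖v (k + 1) - v k‖ ^ 2 := by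
  have hL := hs.L_pos
  have hN := hs.N_eq
  have hc := W6b_c_nonneg hb
  set Q := ∑ k ∈ range w.N, w.c k * w.c (k + 1) * ‖v (k + 1) - v k‖ ^ 2 with hQ
  have hQ0 : 0 ≤ Q := Finset.sum_nonneg fun k _ => by
    have := hc k; have := hc (k + 1); positivity
  have hL0 : (0 : ℝ) ≤ L := Nat.cast_nonneg _
  have key : ∀ k ∈ Finset.Ico L (2 * L), w.c L ^ 2 * ‖v L‖ ^ 2 ≤
      8 * (w.c k ^ 2 * ‖v k‖ ^ 2) + 8 * (L : ℝ) * Q := by
    intro k hk
    rw [Finset.mem_Ico] at hk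
    have t1 := W6b_tele v hk.1
    have t2 : w.c L ^ 2 * ∑ j ∈ Ico L k, ‖v (j + 1) - v j‖ ^ 2 ≤ 4 * Q := by
      rw [Finset.mul_sum]
      calc ∑ j ∈ Ico L k, w.c L ^ 2 * ‖v (j + 1) - v j‖ ^ 2
          ≤ ∑ j ∈ Ico L k, 4 * (w.c j * w.c (j + 1) * ‖v (j + 1) - v j‖ ^ 2) := by
            refine Finset.sum_le_sum fun j hj => ?_
            rw [Finset.mem_Ico] at hj
            have a1 := hs.c_mid j hj.1 (by omega)
            have a2 := hs.c_mid (j + 1) (by omega) (by omega)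
            have a3 : w.c L / 2 * (w.c L / 2) ≤ w.c j * w.c (j + 1) :=
              mul_le_mul a1 a2 (by have := hc L; positivity) (hc j)
            have a4 : w.c L ^ 2 ≤ 4 * (w.c j * w.c (j + 1)) := by nlinarith
            calc _ ≤ 4 * (w.c j * w.c (j + 1)) * ‖v (j + 1) - v j‖ ^ 2 :=
                  mul_le_mul_of_nonneg_right a4 (by positivity)
              _ = _ := by ring
        _ ≤ 4 * Q := by
            rw [← Finset.mul_sum]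
            refine mul_le_mul_of_nonneg_left ?_ (by norm_num)
            exact Finset.sum_le_sum_of_subset_of_nonneg
              (fun j hj => by rw [Finset.mem_Ico] at hj; rw [Finset.mem_range]; omega)
              (fun j _ _ => by have := hc j; have := hc (j + 1); positivity)
    have hkL : (k : ℝ) - L ≤ L := by
      have : (k : ℝ) ≤ 2 * L := by exact_mod_cast hk.2.le
      linarith
    have t3 : w.c L ^ 2 * ‖v k - v L‖ ^ 2 ≤ L * (4 * Q) := by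
      calc w.c L ^ 2 * ‖v k - v L‖ ^ 2
          ≤ w.c L ^ 2 * (L * ∑ j ∈ Ico L k, ‖v (j + 1) - v j‖ ^ 2) := by
            refine mul_le_mul_of_nonneg_left (t1.trans ?_) (by positivity)
            exact mul_le_mul_of_nonneg_right hkL (Finset.sum_nonneg fun _ _ => by positivity)
        _ = L * (w.c L ^ 2 * ∑ j ∈ Ico L k, ‖v (j + 1) - v j‖ ^ 2) := by ring
        _ ≤ _ := mul_le_mul_of_nonneg_left t2 hL0
    have t4 : ‖v L‖ ^ 2 ≤ 2 * ‖v k‖ ^ 2 + 2 * ‖v k - v L‖ ^ 2 := by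
      have : ‖v L‖ ≤ ‖v k‖ + ‖v k - v L‖ := by
        calc ‖v L‖ = ‖v k - (v k - v L)‖ := by congr 1; ring
          _ ≤ _ := norm_sub_le _ _
      nlinarith [norm_nonneg (v L), norm_nonneg (v k), norm_nonneg (v k - v L),
        sq_nonneg (‖v k‖ - ‖v k - v L‖)]
    have a1 := hs.c_mid k hk.1 hk.2.le
    have a2 : w.c L ^ 2 ≤ 4 * w.c k ^ 2 := by nlinarith [hc L, hc k]
    have t5 : w.c L ^ 2 * ‖v k‖ ^ 2 ≤ 4 * w.c k ^ 2 * ‖v k‖ ^ 2 :=
      mul_le_mul_of_nonneg_right a2 (by positivity)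
    have t6 := mul_le_mul_of_nonneg_left t4 (sq_nonneg (w.c L))
    nlinarith
  have s1 := Finset.sum_le_sum key
  rw [Finset.sum_const, Finset.sum_add_distrib, Finset.sum_const, Nat.card_Ico, ← Finset.mul_sum,
    show 2 * L - L = L by omega, nsmul_eq_mul, nsmul_eq_mul] at s1
  have s2 : ∑ k ∈ Ico L (2 * L), w.c k ^ 2 * ‖v k‖ ^ 2 ≤ ∑ k ∈ Ico 1 w.N, w.c k ^ 2 * ‖v k‖ ^ 2 :=
    Finset.sum_le_sum_of_subset_of_nonneg
      (fun j hj => by rw [Finset.mem_Ico] at hj ⊢; omega) (fun j _ _ => by positivity)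
  nlinarith

/-- the curvature terms -/
lemma W6b_curv (hb : w.Bd n P) (hs : w.Shape n L) (v : ℕ → ℂ) :
    |∑ k ∈ Ico 1 w.N, w.c k * (w.c (k + 1) - 2 * w.c k + w.c (k - 1)) * ‖v k‖ ^ 2| ≤
      (128 / 10 ^ 7) * ∑ k ∈ range w.N, ‖(w.c (k + 1) : ℂ) * v (k + 1) - (w.c k : ℂ) * v k‖ ^ 2 +
        2 / L * (w.c L ^ 2 * ‖v L‖ ^ 2) := by
  have hL := hs.L_pos
  have hN := hs.N_eq
  have hc := W6b_c_nonneg hb
  have hP : 0 < P := lt_of_lt_of_le (by norm_num) hb.P_ge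
  have hn : (0 : ℝ) < n := by have := hb.n_ge; positivity
  have hLr : (0 : ℝ) < L := by positivity
  have hNr : (w.N : ℝ) = 6 * L := by exact_mod_cast hN
  set G := ∑ k ∈ range w.N, ‖(w.c (k + 1) : ℂ) * v (k + 1) - (w.c k : ℂ) * v k‖ ^ 2 with hG
  have hG0 : 0 ≤ G := Finset.sum_nonneg fun _ _ => by positivity
  have hLm : L ∈ Finset.Ico 1 w.N := by rw [Finset.mem_Ico]; omega
  refine (Finset.abs_sum_le_sum_abs _ _).trans ?_
  rw [← Finset.sum_erase_add _ _ hLm]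
  refine add_le_add ?_ ?_
  · have key : ∀ k ∈ (Finset.Ico 1 w.N).erase L,
        |w.c k * (w.c (k + 1) - 2 * w.c k + w.c (k - 1)) * ‖v k‖ ^ 2| ≤ 128 * w.N / n * G := by
      intro k hk
      rw [Finset.mem_erase, Finset.mem_Ico] at hk
      have hck : 0 < w.c k := (inv_pos.2 hP).trans_le (hb.c_ge k hk.2.1 hk.2.2)
      have h1 := W6b_hardy hk.2.2.le (fun j => (w.c j : ℂ) * v j) (by simp [hb.c_zero])
        (by simp [hb.c_out w.N le_rfl])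
      simp only [W6b_nmul] at h1
      rw [← hG] at h1
      have h2 := hs.c_ge k hk.2.2.le
      have h3 := hs.d2 k hk.2.1 hk.2.2 hk.1
      set μ : ℝ := ((min k (w.N - k) : ℕ) : ℝ) with hμ
      have hμ0 : 0 ≤ μ := Nat.cast_nonneg _
      rw [div_le_iff₀ (by positivity), ← hNr] at h2
      -- `c_L * c_k * |v_k|^2 ≤ N * G`
      have h4 : w.c L * (w.c k * ‖v k‖ ^ 2) ≤ w.N * G := by
        refine le_of_mul_le_mul_left ?_ hck
        calc w.c k * (w.c L * (w.c k * ‖v k‖ ^ 2)) = w.c L * (w.c k ^ 2 * ‖v k‖ ^ 2) := by ring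
          _ ≤ w.c L * (μ * G) := mul_le_mul_of_nonneg_left h1 (hc L)
          _ = w.c L * μ * G := by ring
          _ ≤ w.c k * w.N * G := mul_le_mul_of_nonneg_right h2 hG0
          _ = _ := by ring
      rw [abs_mul, abs_mul, abs_of_pos hck, abs_of_nonneg (sq_nonneg ‖v k‖)]
      calc w.c k * |w.c (k + 1) - 2 * w.c k + w.c (k - 1)| * ‖v k‖ ^ 2
          ≤ w.c k * (128 * w.c L / n) * ‖v k‖ ^ 2 := by gcongr
        _ = 128 / n * (w.c L * (w.c k * ‖v k‖ ^ 2)) := by ring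
        _ ≤ 128 / n * (w.N * G) := by gcongr
        _ = _ := by ring
    refine (Finset.sum_le_sum key).trans ?_
    rw [Finset.sum_const, nsmul_eq_mul]
    have hcard : (((Finset.Ico 1 w.N).erase L).card : ℝ) ≤ w.N := by
      have : ((Finset.Ico 1 w.N).erase L).card ≤ w.N := by
        refine (Finset.card_erase_le).trans ?_
        rw [Nat.card_Ico]; omega
      exact_mod_cast this
    have h5 : (w.N : ℝ) ^ 2 / n ≤ 1 / 10 ^ 7 := by
      rw [div_le_div_iff₀ hn (by norm_num)]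
      have := hs.n_ge
      linarith
    calc (((Finset.Ico 1 w.N).erase L).card : ℝ) * (128 * w.N / n * G)
        ≤ w.N * (128 * w.N / n * G) := by gcongr
      _ = 128 * ((w.N : ℝ) ^ 2 / n) * G := by ring
      _ ≤ 128 * (1 / 10 ^ 7) * G := by gcongr
      _ = _ := by ring
  · rw [abs_mul, abs_mul, abs_of_nonneg (hc L), abs_of_nonneg (sq_nonneg ‖v L‖)]
    have := hs.d2L
    have := hc L
    calc w.c L * |w.c (L + 1) - 2 * w.c L + w.c (L - 1)| * ‖v L‖ ^ 2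
        ≤ w.c L * (2 * w.c L / L) * ‖v L‖ ^ 2 := by gcongr
      _ = _ := by ring

/-- lower bound for the mode form -/
lemma W6b_Sm (hb : w.Bd n P) (hs : w.Shape n L) (h1 : 1 ≤ m) (h2 : 100 * m ≤ n) (v : ℕ → ℂ) :
    (n : ℝ) ^ 2 * (6 / 25 * ∑ k ∈ range w.N, w.c k * w.c (k + 1) * ‖v (k + 1) - v k‖ ^ 2 +
      ((m : ℝ) / n) ^ 2 / 4 * ∑ k ∈ Ico 1 w.N, w.c k ^ 2 * ‖v k‖ ^ 2 +
      m / n * (1 - m / n) / 2 *
        ∑ k ∈ Ico 1 w.N, w.c k * (w.c (k + 1) - 2 * w.c k + w.c (k - 1)) * ‖v k‖ ^ 2) ≤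
      w.Sm n m v := by
  have hL := hs.L_pos
  have hN := hs.N_eq
  have hN1 : 1 ≤ w.N := by omega
  have hc := W6b_c_nonneg hb
  unfold Wall.Sm
  refine mul_le_mul_of_nonneg_left ?_ (by positivity)
  set a : ℝ := (m : ℝ) / n with ha
  set β : ℝ := a * (1 - a) / 2 + a ^ 2 / 4 with hβ
  have e1 := W6b_nb hN1 w.c hb.c_zero (hb.c_out _ le_rfl) (fun k => ‖v k‖ ^ 2)
  rw [W6b_bot hN1 _ (by simp [hb.c_zero])] at e1
  rw [W6b_bot hN1 _ (by simp [hb.c_zero])]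
  have s1 : ∑ k ∈ Ico 1 w.N, (6 / 25 * (w.c k * w.c (k + 1) * ‖v (k + 1) - v k‖ ^ 2) +
        β * (w.c k * w.c (k + 1) * (‖v k‖ ^ 2 + ‖v (k + 1)‖ ^ 2)) -
        a * (1 - a) * (w.c k ^ 2 * ‖v k‖ ^ 2)) ≤
      ∑ k ∈ Ico 1 w.N, (w.c k * w.c (k + 1) *
        (w.tk n k * (‖v k‖ ^ 2 + ‖v (k + 1)‖ ^ 2) - 2 * w.Ak n m k * (v k * conj (v (k + 1))).re) -
        a * (1 - a) * w.c k ^ 2 * ‖v k‖ ^ 2) := by
    refine Finset.sum_le_sum fun k hk => ?_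
    rw [Finset.mem_Ico] at hk
    have a1 := (le_abs_self _).trans (Ak_abs hs h1 (by omega) hk.2)
    have a2 := Ak_ge hs h2 hk.2
    rw [← ha, ← hβ] at a1
    have a3 := W6b_nsub (v k) (v (k + 1))
    have a4 : 6 / 25 * ‖v (k + 1) - v k‖ ^ 2 + β * (‖v k‖ ^ 2 + ‖v (k + 1)‖ ^ 2) ≤
        w.tk n k * (‖v k‖ ^ 2 + ‖v (k + 1)‖ ^ 2) -
          2 * w.Ak n m k * (v k * conj (v (k + 1))).re := by
      have b1 : 6 / 25 * ‖v (k + 1) - v k‖ ^ 2 ≤ w.Ak n m k * ‖v (k + 1) - v k‖ ^ 2 :=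
        mul_le_mul_of_nonneg_right a2 (by positivity)
      have b2 : β * (‖v k‖ ^ 2 + ‖v (k + 1)‖ ^ 2) ≤
          (w.tk n k - w.Ak n m k) * (‖v k‖ ^ 2 + ‖v (k + 1)‖ ^ 2) :=
        mul_le_mul_of_nonneg_right (by linarith) (by positivity)
      have b3 : w.Ak n m k * ‖v (k + 1) - v k‖ ^ 2 = w.Ak n m k * (‖v k‖ ^ 2 + ‖v (k + 1)‖ ^ 2) -
          2 * w.Ak n m k * (v k * conj (v (k + 1))).re := by rw [a3]; ring
      linarith
    have a5 := mul_le_mul_of_nonneg_left a4 (mul_nonneg (hc k) (hc (k + 1)))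
    linarith
  refine le_trans ?_ s1
  rw [Finset.sum_sub_distrib, Finset.sum_add_distrib, ← Finset.mul_sum, ← Finset.mul_sum,
    ← Finset.mul_sum, e1]
  have s2 : ∑ k ∈ Ico 1 w.N, w.c k ^ 2 * ‖v k‖ ^ 2 ≤
      ∑ k ∈ Ico 1 w.N, w.c k * (w.c (k + 1) + w.c (k - 1)) * ‖v k‖ ^ 2 := by
    refine Finset.sum_le_sum fun k hk => ?_
    rw [Finset.mem_Ico] at hk
    have := mul_le_mul_of_nonneg_left (hs.c_nb k hk.1 hk.2) (hc k)
    exact mul_le_mul_of_nonneg_right (by linarith) (by positivity)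
  have e6 : ∑ k ∈ Ico 1 w.N, w.c k * (w.c (k + 1) - 2 * w.c k + w.c (k - 1)) * ‖v k‖ ^ 2 =
      ∑ k ∈ Ico 1 w.N, w.c k * (w.c (k + 1) + w.c (k - 1)) * ‖v k‖ ^ 2 -
        2 * ∑ k ∈ Ico 1 w.N, w.c k ^ 2 * ‖v k‖ ^ 2 := by
    rw [Finset.mul_sum, ← Finset.sum_sub_distrib]
    exact Finset.sum_congr rfl fun k _ => by ring
  rw [e6, hβ]
  have s3 := mul_le_mul_of_nonneg_left s2 (show 0 ≤ a ^ 2 / 4 by positivity)
  linarith

lemma W6b_re_le (x y : ℂ) : |(x * conj y).re| ≤ ‖x‖ * ‖y‖ := by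
  refine (Complex.abs_re_le_norm _).trans ?_
  rw [norm_mul, Complex.norm_conj]

/-- upper bound for the cross form -/
lemma W6b_Xm (hs : w.Shape n L) (h1 : 1 ≤ m) (h2 : 2 * m ≤ n) (v e : ℕ → ℂ) :
    w.Xm n m v e ≤ (1 + 5020000 * (m / n) * (w.N : ℝ) ^ 2) * ∑ k ∈ Ico 1 w.N, w.c k ^ 2 * ‖v k‖ ^ 2 +
      51 * ∑ k ∈ Ico 1 w.N, ‖e k‖ ^ 2 +
      5011 * (w.N : ℝ) ^ 2 *
        ∑ k ∈ range w.N, ‖(w.c (k + 1) : ℂ) * v (k + 1) - (w.c k : ℂ) * v k‖ ^ 2 +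
      n / (20 * m) * ∑ k ∈ range w.N, ‖e (k + 1) - e k‖ ^ 2 := by
  have hm : (0 : ℝ) < m := by positivity
  have hn : (0 : ℝ) < n := by have : 0 < n := by omega
                              positivity
  have hsub : ∀ f : ℕ → ℝ, (∀ k, 0 ≤ f k) → ∑ k ∈ Ico 1 w.N, f k ≤ ∑ k ∈ range w.N, f k :=
    fun f hf => Finset.sum_le_sum_of_subset_of_nonneg
      (fun j hj => by rw [Finset.mem_Ico] at hj; rw [Finset.mem_range]; omega)
      (fun j _ _ => hf j)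
  have g1 := mul_le_mul_of_nonneg_left
    (hsub (fun k => ‖(w.c (k + 1) : ℂ) * v (k + 1) - (w.c k : ℂ) * v k‖ ^ 2)
      (fun _ => by positivity)) (show 0 ≤ 5011 * (w.N : ℝ) ^ 2 by positivity)
  have g2 := mul_le_mul_of_nonneg_left
    (hsub (fun k => ‖e (k + 1) - e k‖ ^ 2) (fun _ => by positivity))
    (show 0 ≤ (n : ℝ) / (20 * m) by positivity)
  refine le_trans ?_ (add_le_add (add_le_add le_rfl g1) g2)
  simp only [Finset.mul_sum, ← Finset.sum_add_distrib]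
  unfold Wall.Xm
  refine Finset.sum_le_sum fun k hk => ?_
  rw [Finset.mem_Ico] at hk
  have hph := ph_le hs h2 hk.2
  set x : ℂ := (w.c k : ℂ) * v k with hx
  set x' : ℂ := (w.c (k + 1) : ℂ) * v (k + 1) with hx'
  have r0 : w.c k ^ 2 * ‖v k‖ ^ 2 = ‖x‖ ^ 2 := (W6b_nmul _ _).symm
  have r1 : -2 * w.c k * (v k * conj (e k)).re = -2 * (x * conj (e k)).re := by
    rw [hx, mul_assoc (w.c k : ℂ), Complex.re_ofReal_mul]; ring
  have r2 : w.c (k + 1) * (v (k + 1) * conj (e k)).re - w.c k * (v k * conj (e (k + 1))).re =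
      ((x' - x) * conj (e k)).re - (x * conj (e (k + 1) - e k)).re := by
    rw [hx, hx', ← Complex.re_ofReal_mul, ← Complex.re_ofReal_mul, ← Complex.sub_re,
      ← Complex.sub_re, map_sub]
    congr 1; ring
  rw [r0, r1, r2]
  have b1 := abs_le.1 (W6b_re_le x (e k))
  have b2 := W6b_re_le (x' - x) (e k)
  have b3 := W6b_re_le x (e (k + 1) - e k)
  have b4 : (n : ℝ) * w.ph n m k * (((x' - x) * conj (e k)).re - (x * conj (e (k + 1) - e k)).re) ≤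
      1001 * w.N * (‖x' - x‖ * ‖e k‖ + ‖x‖ * ‖e (k + 1) - e k‖) := by
    refine (le_abs_self _).trans ?_
    rw [abs_mul, abs_mul, abs_of_pos hn]
    exact mul_le_mul hph ((abs_sub _ _).trans (add_le_add b2 b3)) (abs_nonneg _) (by positivity)
  have b5 : 2 * (‖x‖ * ‖e k‖) ≤ ‖x‖ ^ 2 + ‖e k‖ ^ 2 := by nlinarith [sq_nonneg (‖x‖ - ‖e k‖)]
  have b6 : 1001 * w.N * (‖x' - x‖ * ‖e k‖) ≤ 50 * ‖e k‖ ^ 2 + 5011 * (w.N : ℝ) ^ 2 * ‖x' - x‖ ^ 2 := by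
    nlinarith [sq_nonneg (100 * ‖e k‖ - 1001 * w.N * ‖x' - x‖), sq_nonneg (w.N * ‖x' - x‖)]
  have b7 : 1001 * w.N * (‖x‖ * ‖e (k + 1) - e k‖) ≤
      5020000 * (m / n) * (w.N : ℝ) ^ 2 * ‖x‖ ^ 2 + n / (20 * m) * ‖e (k + 1) - e k‖ ^ 2 := by
    set a : ℝ := (m : ℝ) / n with ha
    have ha0 : 0 < a := by positivity
    have hna : (n : ℝ) / (20 * m) = 1 / (20 * a) := by rw [ha]; field_simp
    rw [hna]
    refine le_of_mul_le_mul_left ?_ (show 0 < 20 * a by positivity)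
    have : 20 * a * (5020000 * a * (w.N : ℝ) ^ 2 * ‖x‖ ^ 2 + 1 / (20 * a) * ‖e (k + 1) - e k‖ ^ 2) =
        100400000 * (a * w.N * ‖x‖) ^ 2 + ‖e (k + 1) - e k‖ ^ 2 := by field_simp; ring
    rw [this]
    nlinarith [sq_nonneg (10010 * (a * w.N * ‖x‖) - ‖e (k + 1) - e k‖), sq_nonneg (a * w.N * ‖x‖)]
  nlinarith

lemma W6b_final {Q Y T G E H S X W a l N nn mm : ℝ} (hQ : 0 ≤ Q) (hY : 0 ≤ Y) (hG : 0 ≤ G)
    (hE : 0 ≤ E) (hl : 1 ≤ l) (hN : N = 6 * l) (hm : 10 ^ 6 ≤ mm) (hn : 10 ^ 7 * N ^ 2 ≤ nn)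
    (ha : a * nn = mm) (ha0 : 0 < a) (ha1 : a ≤ 1 / 100) (hal : 10 ^ 5 ≤ a * l ^ 2)
    (hW : l * W ≤ 8 * Y + 8 * l ^ 2 * Q) (hT : |T| ≤ 128 / 10 ^ 7 * G + 2 / l * W)
    (hI : G = Q - T)
    (hS : nn ^ 2 * (6 / 25 * Q + a ^ 2 / 4 * Y + a * (1 - a) / 2 * T) ≤ S)
    (hX : X ≤ (1 + 5020000 * a * N ^ 2) * Y + 51 * E + 5011 * N ^ 2 * G + H) :
    Y + E ≤ S + 100 * E + H - X := by
  have hl0 : 0 < l := by linarith
  have hl2 : 0 < l ^ 2 := by positivity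
  set Z := Y / l ^ 2 with hZ
  have hZ0 : 0 ≤ Z := by positivity
  have hYZ : Y = l ^ 2 * Z := by rw [hZ]; field_simp
  have h1 : 2 / l * W ≤ 16 * Z + 16 * Q := by
    refine le_of_mul_le_mul_left ?_ hl2
    have : l ^ 2 * (2 / l * W) = 2 * (l * W) := by field_simp
    rw [this]
    nlinarith
  have hT' := abs_le.1 hT
  have h2 : G ≤ 18 * Q + 17 * Z := by linarith
  have h3 : -(17 * Q + 17 * Z) ≤ T := by linarith
  -- `a * Z ≤ a ^ 2 * Y / 10 ^ 5`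
  have h4 : 10 ^ 5 * Z ≤ a * Y := by
    rw [hYZ, ← mul_assoc]
    exact mul_le_mul_of_nonneg_right hal hZ0
  have h5 : a * (1 - a) / 2 * (-(17 * Q + 17 * Z)) ≤ a * (1 - a) / 2 * T :=
    mul_le_mul_of_nonneg_left h3 (by have : 0 ≤ 1 - a := by linarith
                                     positivity)
  have h6 : a * (1 - a) / 2 * (17 * Q + 17 * Z) ≤ 1 / 10 * Q + a ^ 2 / 100 * Y := by
    have b1 : a * (1 - a) / 2 ≤ a / 2 := by nlinarith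
    have b2 := mul_le_mul_of_nonneg_right b1 (show 0 ≤ 17 * Q + 17 * Z by positivity)
    have b3 := mul_le_mul_of_nonneg_right ha1 hQ
    have b4 := mul_le_mul_of_nonneg_left h4 ha0.le
    have b5 : 0 ≤ a * Z := by positivity
    nlinarith
  have h7 : 7 / 50 * Q + 6 / 25 * (a ^ 2 * Y) ≤ 6 / 25 * Q + a ^ 2 / 4 * Y + a * (1 - a) / 2 * T := by
    linarith
  have h8 := (mul_le_mul_of_nonneg_left h7 (sq_nonneg nn)).trans hS
  have h9 : nn ^ 2 * (7 / 50 * Q + 6 / 25 * (a ^ 2 * Y)) = 7 / 50 * (nn ^ 2 * Q) + 6 / 25 * (mm ^ 2 * Y) := by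
    rw [← ha]; ring
  rw [h9] at h8
  have hN1 : 1 ≤ N ^ 2 := by rw [hN]; nlinarith
  have h10 : 10 ^ 7 * N ^ 2 ≤ nn ^ 2 := by nlinarith
  have h11 := mul_le_mul_of_nonneg_right h10 hQ
  have h12 : 10 ^ 6 * mm ≤ mm ^ 2 := by nlinarith
  have h13 := mul_le_mul_of_nonneg_right h12 hY
  have h14 : 10 ^ 7 * (a * N ^ 2) ≤ mm := by
    rw [← ha]; nlinarith [mul_le_mul_of_nonneg_left hn ha0.le]
  have h15 := mul_le_mul_of_nonneg_right h14 hY
  have h16 := mul_le_mul_of_nonneg_right hm hY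
  have h17 := mul_le_mul_of_nonneg_left h2 (show 0 ≤ 5011 * N ^ 2 by positivity)
  have h18 : N ^ 2 * Z = 36 * Y := by rw [hYZ, hN]; ring
  have h19 : 0 ≤ N ^ 2 * Q := by positivity
  nlinarith

theorem mode_low (hb : w.Bd n P) (hs : w.Shape n L) (h1 : 10 ^ 6 ≤ m) (h2 : 100 * m ≤ n)
    (h3 : 10 ^ 5 * n ≤ m * L ^ 2) (v e : ℕ → ℂ) (he0 : e 0 = 0) (he : e w.N = 0) :
    ∑ k ∈ Ico 1 w.N, (w.c k ^ 2 * ‖v k‖ ^ 2 + ‖e k‖ ^ 2) ≤
      w.Sm n m v + 100 * ∑ k ∈ Ico 1 w.N, ‖e k‖ ^ 2 +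
        n / (20 * m) * ∑ k ∈ range w.N, ‖e (k + 1) - e k‖ ^ 2 - w.Xm n m v e := by
  have hL := hs.L_pos
  have hN := hs.N_eq
  have hm1 : 1 ≤ m := le_trans (by norm_num) h1
  have hc := W6b_c_nonneg hb
  have hm : (0 : ℝ) < m := by positivity
  have hn : (0 : ℝ) < n := by have : 0 < n := by omega
                              positivity
  rw [Finset.sum_add_distrib]
  refine W6b_final (a := (m : ℝ) / n) (l := L) (N := w.N) (nn := n) (mm := m)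
    (Finset.sum_nonneg fun k _ => by have := hc k; have := hc (k + 1); positivity)
    (Finset.sum_nonneg fun k _ => by positivity) (Finset.sum_nonneg fun k _ => by positivity)
    (Finset.sum_nonneg fun k _ => by positivity) (by exact_mod_cast hL) (by exact_mod_cast hN)
    (by exact_mod_cast h1) hs.n_ge (by field_simp) (by positivity) ?_ ?_ (W6b_window hb hs v)
    (W6b_curv hb hs v) (W6b_ident (by omega) w.c hb.c_zero (hb.c_out _ le_rfl) v)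
    (W6b_Sm hb hs hm1 h2 v) (W6b_Xm hs hm1 (by omega) v e)
  · rw [div_le_div_iff₀ hn (by norm_num)]
    have : (100 : ℝ) * m ≤ n := by exact_mod_cast h2
    linarith
  · rw [div_mul_eq_mul_div, le_div_iff₀ hn]
    exact_mod_cast h3

end Pool.Agent.MP_943ae2_gt
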