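import Pool.Agent.Mg.F943ae2.Gbb4df3
import Pool.Agent.Mg.F943ae2.Gafd0bc
import Pool.Agent.Mg.F943ae2.G3fd220

section

open Set Complex Filter Finset
open scoped Topology ComplexConjugate ContDiff

noncomputable section

namespace Pool.Agent.MP_943ae2_gt

lemma W5_series {ι : Type} [Fintype ι] {z : ι → ℂ} (hz : ∀ a, ‖z a‖ < 1) (μ : ι → ℝ) :
    HasSum (fun l : ℕ => (l : ℝ)⁻¹ * ‖∑ a, (μ a : ℂ) * z a ^ l‖ ^ 2)
      (∑ a, ∑ b, μ a * μ b * -Real.log ‖1 - z a * conj (z b)‖) := by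
  have h : ∀ a b, HasSum (fun l : ℕ => μ a * μ b * ((z a * conj (z b)) ^ l / l).re)
      (μ a * μ b * -Real.log ‖1 - z a * conj (z b)‖) := fun a b => by
    have h1 := Complex.hasSum_re (hasSum_taylorSeries_neg_log (z := z a * conj (z b)) (by
      rw [norm_mul, Complex.norm_conj]
      exact mul_lt_one_of_nonneg_of_lt_one_left (norm_nonneg _) (hz a) (hz b).le))
    rw [neg_re, log_re] at h1
    exact h1.mul_left _
  convert hasSum_sum fun a (_ : a ∈ Finset.univ) => hasSum_sum fun b (_ : b ∈ Finset.univ) => h a b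
    using 2 with l
  rw [← Complex.normSq_eq_norm_sq, ← ofReal_re (normSq _), ← Complex.mul_conj, map_sum,
    Finset.sum_mul_sum, re_sum, Finset.mul_sum]
  refine Finset.sum_congr rfl fun a _ => ?_
  rw [re_sum, Finset.mul_sum]
  refine Finset.sum_congr rfl fun b _ => ?_
  rw [← re_ofReal_mul, ← re_ofReal_mul, map_mul, conj_ofReal, map_pow, mul_pow]
  congr 1
  push_cast
  ring

lemma W5_green {x y : ℂ} (hx : ‖x‖ < 1) (hy : ‖y‖ < 1) (h : x ≠ y) :
    Real.log ‖x - y‖ ≤ Real.log ‖1 - x * conj y‖ := by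
  refine Real.log_le_log (norm_pos_iff.2 (sub_ne_zero.2 h)) ?_
  have h1 : 0 ≤ (1 - ‖x‖ ^ 2) * (1 - ‖y‖ ^ 2) :=
    mul_nonneg (by nlinarith [norm_nonneg x]) (by nlinarith [norm_nonneg y])
  refine (sq_le_sq₀ (norm_nonneg _) (norm_nonneg _)).1 ?_
  simp only [← Complex.normSq_eq_norm_sq, normSq_apply, sub_re, sub_im, mul_re, mul_im, conj_re,
    conj_im, one_re, one_im] at h1 ⊢
  nlinarith

lemma W5_energy {ι : Type} [Fintype ι] {z : ι → ℂ} (hz : ∀ a, ‖z a‖ < 1)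
    (hi : Function.Injective z) {μ : ι → ℝ} (h0 : ∑ a, μ a = 0) {R C : ℝ} (hR : 0 < R)
    (hC : ∀ a, ∑ b, Real.log ‖1 - z a * conj (z b)‖ - ∑ b, Real.log ‖z a - z b‖ -
      2 * Real.log ‖1 - z a * conj (z a)‖ ≤ C) (s : Finset ℕ) :
    (Real.log R - C) * ∑ a, μ a ^ 2 + ∑ l ∈ s, (l : ℝ)⁻¹ * ‖∑ a, (μ a : ℂ) * z a ^ l‖ ^ 2 ≤
      -∑ a, ∑ b, μ a * μ b * Real.log ‖R * z a - R * z b‖ := by
  classical
  have h1 := sum_le_hasSum s (fun l _ => by positivity) (W5_series hz μ)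
  obtain ⟨G, hG⟩ : ∃ G : ι → ι → ℝ, ∀ a b,
      G a b = Real.log ‖1 - z a * conj (z b)‖ - Real.log ‖z a - z b‖ := ⟨_, fun _ _ => rfl⟩
  have Gs : ∀ a b, G a b = G b a := fun a b => by
    rw [hG, hG, norm_sub_rev (z a), ← Complex.norm_conj (1 - _), map_sub, map_one, map_mul,
      conj_conj, mul_comm]
  have h2 : ∑ a, ∑ b, μ a * μ b * Real.log ‖R * z a - R * z b‖ =
      ∑ a, ∑ b, μ a * μ b * Real.log ‖z a - z b‖ - Real.log R * ∑ a, μ a ^ 2 := by
    rw [Finset.mul_sum, ← Finset.sum_sub_distrib]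
    refine Finset.sum_congr rfl fun a _ => ?_
    have e : ∀ b, μ a * μ b * Real.log ‖R * z a - R * z b‖ = μ a * μ b * Real.log ‖z a - z b‖ +
        μ a * Real.log R * μ b - if b = a then Real.log R * μ a ^ 2 else 0 := fun b => by
      split_ifs with h
      · subst h
        simp only [sub_self, norm_zero, Real.log_zero]
        ring
      · rw [← mul_sub, norm_mul, Complex.norm_real, Real.norm_of_nonneg hR.le, Real.log_mul hR.ne'
          (norm_ne_zero_iff.2 (sub_ne_zero.2 (hi.ne (Ne.symm h))))]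
        ring
    rw [Finset.sum_congr rfl fun b _ => e b, Finset.sum_sub_distrib, Finset.sum_add_distrib,
      ← Finset.mul_sum _ μ, h0]
    simp
  have h3 : ∑ a, 4 * (μ a ^ 2 * G a a) ≤ ∑ a, ∑ b, (μ a + μ b) ^ 2 * G a b := by
    refine Finset.sum_le_sum fun a _ => ?_
    rw [← Finset.add_sum_erase _ _ (mem_univ a)]
    have : 0 ≤ ∑ b ∈ univ.erase a, (μ a + μ b) ^ 2 * G a b := Finset.sum_nonneg fun b hb =>
      mul_nonneg (sq_nonneg _) (by
        rw [hG]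
        exact sub_nonneg.2 (W5_green (hz a) (hz b) (hi.ne (Finset.ne_of_mem_erase hb).symm)))
    linarith
  have h4 : ∑ a, ∑ b, (μ a + μ b) ^ 2 * G a b =
      2 * ∑ a, ∑ b, μ a * μ b * G a b + 2 * ∑ a, μ a ^ 2 * ∑ b, G a b := by
    have e : ∑ a, ∑ b, μ b ^ 2 * G a b = ∑ a, ∑ b, μ a ^ 2 * G a b := by
      rw [Finset.sum_comm]
      simp only [Gs]
    have e2 : ∑ a, ∑ b, (μ a + μ b) ^ 2 * G a b = ∑ a, ∑ b, (2 * (μ a * μ b * G a b) +
        μ a ^ 2 * G a b + μ b ^ 2 * G a b) :=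
      Finset.sum_congr rfl fun a _ => Finset.sum_congr rfl fun b _ => by ring
    simp only [e2, Finset.sum_add_distrib, e, ← Finset.mul_sum]
    ring
  have h5 : ∑ a, μ a ^ 2 * ∑ b, G a b ≤ ∑ a, (C * μ a ^ 2 + 2 * (μ a ^ 2 * G a a)) := by
    refine Finset.sum_le_sum fun a _ => ?_
    have := mul_le_mul_of_nonneg_left (hC a) (sq_nonneg (μ a))
    simp only [hG, Finset.sum_sub_distrib, sub_self, norm_zero, Real.log_zero]
    linarith
  have h6 : ∑ a, ∑ b, μ a * μ b * -Real.log ‖1 - z a * conj (z b)‖ =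
      -∑ a, ∑ b, μ a * μ b * G a b - ∑ a, ∑ b, μ a * μ b * Real.log ‖z a - z b‖ := by
    simp only [← Finset.sum_neg_distrib, ← Finset.sum_sub_distrib]
    exact Finset.sum_congr rfl fun a _ => Finset.sum_congr rfl fun b _ => by rw [hG]; ring
  rw [Finset.sum_add_distrib, ← Finset.mul_sum, ← Finset.mul_sum] at h5
  rw [← Finset.mul_sum] at h3
  linarith

variable {w : Wall} {n : ℕ} [NeZero n] {ε : ℕ → ZMod n → ℝ} {P : ℝ}

lemma W5_norm (σ : ℝ) (k : ℕ) (i : ZMod n) : ‖(Real.exp σ : ℂ) * un n k i‖ = Real.exp σ := by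
  rw [norm_mul, norm_un, Complex.norm_real, Real.norm_of_nonneg (Real.exp_pos σ).le, mul_one]

lemma W5_row1 {x : ℂ} (hx : ‖x‖ < 1) {σ : ℝ} (hσ : σ ≤ 0) (k : ℕ) :
    ∑ j : ZMod n, Real.log ‖1 - x * conj ((Real.exp σ : ℂ) * un n k j)‖ ≤ 1 := by
  have h1 : ‖x * (Real.exp σ : ℂ)‖ < 1 := by
    rw [norm_mul, Complex.norm_real, Real.norm_of_nonneg (Real.exp_pos σ).le]
    exact mul_lt_one_of_nonneg_of_lt_one_left (norm_nonneg _) hx (Real.exp_le_one_iff.2 hσ)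
  have h2 : ‖(x * (Real.exp σ : ℂ)) ^ n‖ < 1 := by
    rw [norm_pow]
    exact pow_lt_one₀ (norm_nonneg _) h1 (NeZero.ne n)
  have h3 : ‖(ze n ^ k) ^ n‖ = 1 := by rw [norm_pow, norm_pow, norm_ze, one_pow, one_pow]
  have h4 : (x * (Real.exp σ : ℂ)) ^ n ≠ (ze n ^ k) ^ n := fun h => by
    rw [h, h3] at h2
    exact lt_irrefl _ h2
  have e : ∀ j : ZMod n, ‖1 - x * conj ((Real.exp σ : ℂ) * un n k j)‖ =
      ‖x * (Real.exp σ : ℂ) - ze n ^ k * ZMod.stdAddChar j‖ := fun j => by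
    have e1 : un n k j * conj (un n k j) = 1 := by
      rw [Complex.mul_conj, Complex.normSq_eq_norm_sq, norm_un]
      simp
    rw [← one_mul ‖1 - _‖, ← norm_un n k j, ← norm_mul, norm_sub_rev, map_mul, conj_ofReal]
    congr 1
    change _ = un n k j - _
    linear_combination (-x * (Real.exp σ : ℂ)) * e1
  rw [Finset.sum_congr rfl fun j _ => congrArg Real.log (e j), sum_log_ring n h4]
  refine (Real.log_le_sub_one_of_pos (norm_pos_iff.2 (sub_ne_zero.2 h4))).trans ?_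
  linarith [norm_sub_le ((x * (Real.exp σ : ℂ)) ^ n) ((ze n ^ k) ^ n)]

lemma W5_row2 {σ : ℝ} (hσ : σ ≤ 0) (h1 : -(3 / 2) ≤ n * σ) (k : ℕ) (i : ZMod n) :
    Real.log n - 3 / 2 ≤
      ∑ j, Real.log ‖(Real.exp σ : ℂ) * un n k i - (Real.exp σ : ℂ) * un n k j‖ := by
  have n0 : (0 : ℝ) < n := Nat.cast_pos.2 (NeZero.pos n)
  rw [← Finset.sum_erase (a := i) _ (by simp), Finset.sum_congr rfl fun j hj => show _ =
    σ + Real.log ‖un n k i - un n k j‖ by
      rw [← mul_sub, norm_mul, Complex.norm_real, Real.norm_of_nonneg (Real.exp_pos σ).le,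
        Real.log_mul (Real.exp_pos σ).ne' ((div_pos four_pos n0).trans_le
          (sep_same n k (Finset.ne_of_mem_erase hj))).ne', Real.log_exp],
    Finset.sum_add_distrib, sum_log_same, Finset.sum_const, Finset.card_erase_of_mem (mem_univ i),
    Finset.card_univ, ZMod.card, nsmul_eq_mul, Nat.cast_pred (NeZero.pos n)]
  linarith

lemma W5_row3 {σ : ℝ} (σ' : ℝ) (h1 : -(3 / 2) ≤ n * σ) {k k' : ℕ} (h : (-1 : ℂ) ^ k' = -(-1) ^ k)
    (i : ZMod n) :
    -(3 / 2) ≤ ∑ j, Real.log ‖(Real.exp σ : ℂ) * un n k i - (Real.exp σ' : ℂ) * un n k' j‖ := by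
  have e : ‖((Real.exp σ : ℂ) * un n k i) ^ n - ((Real.exp σ' : ℂ) * ze n ^ k') ^ n‖ =
      Real.exp σ ^ n + Real.exp σ' ^ n := by
    rw [mul_pow, mul_pow, un_pow, ← pow_mul, mul_comm k', pow_mul, ze_pow, h, mul_neg,
      sub_neg_eq_add, ← add_mul, norm_mul, norm_pow, norm_neg, norm_one, one_pow, mul_one]
    norm_cast
    exact Real.norm_of_nonneg (by positivity)
  have h2 : ((Real.exp σ : ℂ) * un n k i) ^ n ≠ ((Real.exp σ' : ℂ) * ze n ^ k') ^ n :=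
    sub_ne_zero.1 (norm_pos_iff.1 (by rw [e]; positivity))
  have h3 := sum_log_ring n h2
  simp only [mul_assoc] at h3
  refine h1.trans (le_of_le_of_eq ?_ h3.symm)
  rw [e, Real.le_log_iff_exp_le (by positivity), Real.exp_nat_mul]
  exact le_add_of_nonneg_right (by positivity)

lemma W5_diag (hn : 2 ≤ n) {σ : ℝ} (hσ : n * σ ≤ -1) (k : ℕ) (i : ZMod n) : -Real.log n ≤
    Real.log ‖1 - (Real.exp σ : ℂ) * un n k i * conj ((Real.exp σ : ℂ) * un n k i)‖ := by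
  have n2 : (2 : ℝ) ≤ n := by exact_mod_cast hn
  rw [Complex.mul_conj, Complex.normSq_eq_norm_sq, W5_norm, ← Real.log_inv]
  refine Real.log_le_log (by positivity) ?_
  norm_cast
  refine le_trans ?_ (le_abs_self _)
  have h1 : Real.exp σ ^ 2 * Real.exp (-(2 * σ)) = 1 := by
    rw [← Real.exp_nat_mul, ← Real.exp_add]
    simp
  have h2 := mul_le_mul_of_nonneg_left (Real.add_one_le_exp (-(2 * σ))) (sq_nonneg (Real.exp σ))
  have h3 := mul_le_mul_of_nonneg_left hσ (sq_nonneg (Real.exp σ))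
  rw [inv_le_iff_one_le_mul₀ (by positivity)]
  have h4 := mul_le_mul_of_nonneg_left (h2.trans_eq h1) (show (0 : ℝ) ≤ n by linarith)
  rcases le_total (2 * Real.exp σ ^ 2) 1 with h5 | h5 <;> nlinarith

lemma W5_lip {u v : ℝ} (hu : u ≤ 0) (h : v ≤ u) : Real.exp u - Real.exp v ≤ u - v := by
  have h1 := mul_le_mul_of_nonneg_left (Real.add_one_le_exp (v - u)) (Real.exp_pos u).le
  rw [← Real.exp_add, add_sub_cancel] at h1
  nlinarith [Real.exp_le_one_iff.2 hu]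

lemma W5_mode {u v d : ℝ} (hu : u ≤ 0) (hv : v ≤ 0) (h1 : -(3 / 4) ≤ v) (hd : |u - v| ≤ d)
    (e e' : ℂ) : 1 / 10 * ‖e' - e‖ ^ 2 - d ^ 2 * ‖e'‖ ^ 2 ≤
      ‖(Real.exp u : ℂ) * e' - (Real.exp v : ℂ) * e‖ ^ 2 := by
  have h2 : |Real.exp u - Real.exp v| ≤ d := by
    rcases le_total v u with h | h
    · rw [abs_of_nonneg (sub_nonneg.2 (Real.exp_le_exp.2 h))]
      exact (W5_lip hu h).trans ((le_abs_self _).trans hd)
    · rw [abs_sub_comm] at hd ⊢
      rw [abs_of_nonneg (sub_nonneg.2 (Real.exp_le_exp.2 h))]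
      exact (W5_lip hv h).trans ((le_abs_self _).trans hd)
  have h3 : 1 / 5 ≤ Real.exp v ^ 2 := by
    have a3 : (61 / 64 : ℝ) ≤ Real.exp (v / 16) := by linarith [Real.add_one_le_exp (v / 16)]
    have a4 := pow_le_pow_left₀ (by norm_num) a3 32
    rw [← Real.exp_nat_mul] at a4 ⊢
    refine le_trans (by norm_num) (a4.trans_eq (congrArg _ ?_))
    push_cast
    ring
  have h4 : Real.exp v * ‖e' - e‖ ≤ ‖(Real.exp u : ℂ) * e' - (Real.exp v : ℂ) * e‖ + d * ‖e'‖ := by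
    have a1 : (Real.exp v : ℂ) * (e' - e) = ((Real.exp u : ℂ) * e' - (Real.exp v : ℂ) * e) -
      ((Real.exp u - Real.exp v : ℝ) : ℂ) * e' := by
      push_cast
      ring
    have a2 := congrArg norm a1
    rw [norm_mul, Complex.norm_real, Real.norm_of_nonneg (Real.exp_pos v).le] at a2
    refine a2.trans_le ((norm_sub_le _ _).trans ?_)
    rw [norm_mul ((Real.exp u - Real.exp v : ℝ) : ℂ), Complex.norm_real, Real.norm_eq_abs]
    gcongr
  have h5 := pow_le_pow_left₀ (by positivity) h4 2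
  nlinarith [mul_le_mul_of_nonneg_right h3 (sq_nonneg ‖e' - e‖),
    sq_nonneg (‖(Real.exp u : ℂ) * e' - (Real.exp v : ℂ) * e‖ - d * ‖e'‖)]

lemma W5_pair (hn : 2 ≤ n) (hε : ∀ k, ∑ i, ε k i = 0) (k : ℕ) (hy : |w.y n k| ≤ 1 / 2) :
    (w.lr k - Real.log n - 5) * ∑ i, ε k i ^ 2 +
      (w.lr (k + 1) - Real.log n - 6) * ∑ i, ε (k + 1) i ^ 2 +
      1 / 10 * ∑ l ∈ Icc 1 (n / 2), (l : ℝ)⁻¹ * ‖hat n ε l (k + 1) - hat n ε l k‖ ^ 2 ≤
    2 * ∑ i, ∑ j, ε k i * ε (k + 1) j * Real.log ‖w.p0 n k i - w.p0 n (k + 1) j‖ -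
      ∑ i, ∑ j, ε k i * ε k j * Real.log ‖w.p0 n k i - w.p0 n k j‖ -
      ∑ i, ∑ j, ε (k + 1) i * ε (k + 1) j * Real.log ‖w.p0 n (k + 1) i - w.p0 n (k + 1) j‖ := by
  have n2 : (2 : ℝ) ≤ n := by exact_mod_cast hn
  have n0 : (0 : ℝ) < n := by linarith
  obtain ⟨m, s, t, e1, e2, s1, s2, t1, t2, st⟩ : ∃ m s t : ℝ, w.lr k = m + s ∧
      w.lr (k + 1) = m + t ∧ -(3 / 2) ≤ n * s ∧ n * s ≤ -1 ∧ -(3 / 2) ≤ n * t ∧ n * t ≤ -1 ∧
      |n * t - n * s| ≤ 1 / 2 := by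
    have h1 := abs_le.1 hy
    have h2 : (n : ℝ) * (n : ℝ)⁻¹ = 1 := mul_inv_cancel₀ n0.ne'
    unfold Wall.y at h1
    refine ⟨max (w.lr k) (w.lr (k + 1)) + (n : ℝ)⁻¹, _, _, (add_sub_cancel _ _).symm,
      (add_sub_cancel _ _).symm, ?_⟩
    rw [abs_le]
    rcases le_total (w.lr k) (w.lr (k + 1)) with h | h
    · rw [max_eq_right h]
      have := mul_le_mul_of_nonneg_left h n0.le
      refine ⟨?_, ?_, ?_, ?_, ?_, ?_⟩ <;> linarith
    · rw [max_eq_left h]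
      have := mul_le_mul_of_nonneg_left h n0.le
      refine ⟨?_, ?_, ?_, ?_, ?_, ?_⟩ <;> linarith
  have s0 : s < 0 := by nlinarith
  have t0 : t < 0 := by nlinarith
  have ns : ∀ (σ : ℝ) (k : ℕ) (i : ZMod n), σ < 0 → ‖(Real.exp σ : ℂ) * un n k i‖ < 1 :=
    fun σ k i h => by rw [W5_norm]; exact Real.exp_lt_one_iff.2 h
  have same : ∀ (σ : ℝ) (k : ℕ), Function.Injective fun i => (Real.exp σ : ℂ) * un n k i :=
    fun σ k i j h => by_contra fun h' => by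
      have := sep_same n k (Ne.symm h')
      rw [mul_left_cancel₀ (ofReal_ne_zero.2 (Real.exp_pos σ).ne') h, sub_self, norm_zero] at this
      exact this.not_gt (by positivity)
  have key := W5_energy (ι := ZMod n ⊕ ZMod n)
    (z := Sum.elim (fun i => (Real.exp s : ℂ) * un n k i) fun i => (Real.exp t : ℂ) * un n (k + 1) i)
    (by rintro (i | i); exacts [ns _ _ _ s0, ns _ _ _ t0])
    ((same _ _).sumElim (same _ _) fun i j h => by
      have := sep_cross n k i j (Real.exp_pos s) (Real.exp_pos t)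
      rw [h, sub_self, norm_zero] at this
      exact this.not_gt (by positivity))
    (μ := Sum.elim (fun i => -ε k i) (ε (k + 1))) (by simp [hε]) (C := 5 + Real.log n)
    (Real.exp_pos m) (by
      rintro (i | i) <;> simp only [Fintype.sum_sum_type, Sum.elim_inl, Sum.elim_inr]
      · linarith [W5_row1 (n := n) (ns _ k i s0) s0.le k, W5_row1 (n := n) (ns _ k i s0) t0.le (k + 1),
          W5_row2 s0.le s1 k i, W5_row3 t s1 (k := k) (k' := k + 1) (by ring) i, W5_diag hn s2 k i]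
      · linarith [W5_row1 (n := n) (ns _ (k + 1) i t0) s0.le k,
          W5_row1 (n := n) (ns _ (k + 1) i t0) t0.le (k + 1), W5_row2 t0.le t1 (k + 1) i,
          W5_row3 s t1 (k := k + 1) (k' := k) (by ring) i, W5_diag hn t2 (k + 1) i])
    (Icc 1 (n / 2))
  have p1 : ∀ i, (Real.exp m : ℂ) * ((Real.exp s : ℂ) * un n k i) = w.p0 n k i := fun i => by
    rw [Wall.p0, e1, Real.exp_add, ofReal_mul, mul_assoc]
  have p2 : ∀ i, (Real.exp m : ℂ) * ((Real.exp t : ℂ) * un n (k + 1) i) = w.p0 n (k + 1) i :=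
    fun i => by rw [Wall.p0, e2, Real.exp_add, ofReal_mul, mul_assoc]
  have p3 : ∑ i, ∑ j, ε (k + 1) i * ε k j * Real.log ‖w.p0 n (k + 1) i - w.p0 n k j‖ =
      ∑ i, ∑ j, ε k i * ε (k + 1) j * Real.log ‖w.p0 n k i - w.p0 n (k + 1) j‖ := by
    rw [Finset.sum_comm]
    simp only [norm_sub_rev (w.p0 n (k + 1) _), mul_comm (ε (k + 1) _)]
  simp only [Fintype.sum_sum_type, Sum.elim_inl, Sum.elim_inr, p1, p2, Real.log_exp, neg_mul,
    mul_neg, neg_sq, Finset.sum_add_distrib, Finset.sum_neg_distrib, p3] at key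
  have f1 : ∑ l ∈ Icc 1 (n / 2), (1 / 10 * ((l : ℝ)⁻¹ * ‖hat n ε l (k + 1) - hat n ε l k‖ ^ 2) -
      ‖hat n ε l (k + 1)‖ ^ 2 / n) ≤ ∑ l ∈ Icc 1 (n / 2), (l : ℝ)⁻¹ *
        ‖∑ i, ((-ε k i : ℝ) : ℂ) * ((Real.exp s : ℂ) * un n k i) ^ l +
          ∑ i, (ε (k + 1) i : ℂ) * ((Real.exp t : ℂ) * un n (k + 1) i) ^ l‖ ^ 2 := by
    refine Finset.sum_le_sum fun l hl => ?_
    obtain ⟨l1, l2⟩ := Finset.mem_Icc.1 hl
    have l0 : (0 : ℝ) < l := by exact_mod_cast l1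
    have l3 : 2 * (l : ℝ) ≤ n := by exact_mod_cast (by omega : 2 * l ≤ n)
    have h1 := W5_mode (u := l * t) (v := l * s) (d := l / n) (by nlinarith) (by nlinarith)
      (by nlinarith) (by
        rw [le_div_iff₀ n0, ← mul_sub, abs_mul, abs_of_pos l0, mul_assoc, ← abs_of_pos n0, ← abs_mul,
          mul_comm (t - s), mul_sub]
        nlinarith) (hat n ε l k) (hat n ε l (k + 1))
    have h2 : ∑ i, ((-ε k i : ℝ) : ℂ) * ((Real.exp s : ℂ) * un n k i) ^ l +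
        ∑ i, (ε (k + 1) i : ℂ) * ((Real.exp t : ℂ) * un n (k + 1) i) ^ l =
        (Real.exp (l * t) : ℂ) * hat n ε l (k + 1) - (Real.exp (l * s) : ℂ) * hat n ε l k := by
      rw [hat, hat, Finset.mul_sum, Finset.mul_sum, ← Finset.sum_sub_distrib,
        ← Finset.sum_add_distrib, Real.exp_nat_mul, Real.exp_nat_mul, ofReal_pow, ofReal_pow]
      refine Finset.sum_congr rfl fun i _ => ?_
      rw [ofReal_neg]
      ring
    have h3 : (l : ℝ)⁻¹ * (l / n) ^ 2 ≤ (n : ℝ)⁻¹ := by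
      field_simp
      linarith
    rw [h2]
    linarith [mul_le_mul_of_nonneg_left h1 (inv_pos.2 l0).le,
      mul_le_mul_of_nonneg_right h3 (sq_nonneg ‖hat n ε l (k + 1)‖),
      div_eq_inv_mul (‖hat n ε l (k + 1)‖ ^ 2) n]
  have f2 : ∑ l ∈ Icc 1 (n / 2), ‖hat n ε l (k + 1)‖ ^ 2 / n ≤ ∑ i, ε (k + 1) i ^ 2 := by
    have h1 := parseval n ε ε (k + 1)
    simp only [Complex.mul_conj, ofReal_re, Complex.normSq_eq_norm_sq, ← sq] at h1
    rw [h1, Finset.sum_div]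
    exact Finset.sum_le_sum_of_subset_of_nonneg (fun l hl => Finset.mem_range.2 (by
      have := (Finset.mem_Icc.1 hl).2
      omega)) fun _ _ _ => by positivity
  rw [Finset.sum_sub_distrib, ← Finset.mul_sum] at f1
  have q1 : 0 ≤ ∑ i, ε k i ^ 2 := by positivity
  have q2 : 0 ≤ ∑ i, ε (k + 1) i ^ 2 := by positivity
  rw [e1, e2]
  nlinarith [mul_nonneg (neg_pos.2 s0).le q1, mul_nonneg (neg_pos.2 t0).le q2]

lemma W5_sum0 {f : ℕ → ℝ} (h : f 0 = 0) (N : ℕ) : ∑ k ∈ range N, f k = ∑ k ∈ Ico 1 N, f k := by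
  rcases N with _ | N
  · simp
  · rw [Finset.range_eq_Ico, Finset.sum_eq_sum_Ico_succ_bot (Nat.succ_pos N), h, zero_add]

lemma W5_sum1 {f : ℕ → ℝ} {N : ℕ} (h : f N = 0) :
    ∑ k ∈ range N, f (k + 1) = ∑ k ∈ Ico 1 N, f k := by
  rcases N with _ | N
  · simp
  · rw [Finset.range_eq_Ico, Finset.sum_Ico_add' f 0 (N + 1) 1,
      Finset.sum_Ico_succ_top (by omega), h, add_zero]

theorem Hq_ge (hb : w.Bd n P) (hε : ∀ k, ∑ i, ε k i = 0)
    (hε0 : ∀ k i, (k = 0 ∨ w.N ≤ k) → ε k i = 0) :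
    100 * ∑ k ∈ Ico 1 w.N, ∑ i, ε k i ^ 2 + 1 / 10 * ∑ l ∈ Icc 1 (n / 2), (l : ℝ)⁻¹ *
      ∑ k ∈ range w.N, ‖hat n ε l (k + 1) - hat n ε l k‖ ^ 2 ≤ w.Hq n ε := by
  have z0 : ∀ i, ε 0 i = 0 := fun i => hε0 0 i (Or.inl rfl)
  have zN : ∀ i, ε w.N i = 0 := fun i => hε0 _ i (Or.inr le_rfl)
  have h1 := Finset.sum_le_sum fun k (hk : k ∈ range w.N) =>
    W5_pair hb.n_ge hε k (hb.y_le k (Finset.mem_range.1 hk))
  obtain ⟨S, hS⟩ : ∃ S : ℕ → ℕ → ℝ, ∀ k k', S k k' =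
    ∑ i, ∑ j, ε k i * ε k' j * Real.log ‖w.p0 n k i - w.p0 n k' j‖ := ⟨_, fun _ _ => rfl⟩
  have Ss : ∀ k k', S k k' = S k' k := fun k k' => by
    rw [hS, hS, Finset.sum_comm]
    simp only [norm_sub_rev (w.p0 n k _), mul_comm (ε k _)]
  simp only [← hS, Finset.sum_add_distrib, Finset.sum_sub_distrib, ← Finset.mul_sum] at h1
  rw [W5_sum0 (f := fun k => (w.lr k - Real.log n - 5) * ∑ i, ε k i ^ 2) (by simp [z0]),
    W5_sum1 (f := fun k => (w.lr k - Real.log n - 6) * ∑ i, ε k i ^ 2) (by simp [zN]),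
    W5_sum0 (f := fun k => S k k) (by simp [hS, z0]),
    W5_sum1 (f := fun k => S k k) (by simp [hS, zN]), Finset.sum_comm (s := range w.N)] at h1
  have h2 := W5_sum0 (f := fun k => S k (k + 1)) (by simp [hS, z0]) w.N
  have h3 := W5_sum1 (f := fun k => S k (k - 1)) (N := w.N) (by simp [hS, zN])
  simp only [Nat.add_sub_cancel, Ss (_ + 1)] at h3
  have h4 : w.Hq n ε = ∑ k ∈ Ico 1 w.N, (-2 * (Real.log (w.c k) + 1) * ∑ i, ε k i ^ 2 -
      2 * S k k + S k (k + 1) + S k (k - 1)) := by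
    refine Finset.sum_congr rfl fun k _ => ?_
    simp only [hS, Finset.mul_sum, ← Finset.sum_add_distrib, ← Finset.sum_sub_distrib]
    refine Finset.sum_congr rfl fun i _ => ?_
    rw [Finset.sum_erase _ (by simp)]
    simp only [← Finset.mul_sum, mul_assoc]
    ring
  have h5 : ∑ k ∈ Ico 1 w.N, 100 * ∑ i, ε k i ^ 2 ≤ ∑ k ∈ Ico 1 w.N,
      ((w.lr k - Real.log n - 5) * ∑ i, ε k i ^ 2 + (w.lr k - Real.log n - 6) * ∑ i, ε k i ^ 2 +
        -2 * (Real.log (w.c k) + 1) * ∑ i, ε k i ^ 2) := by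
    refine Finset.sum_le_sum fun k hk => ?_
    obtain ⟨k1, k2⟩ := Finset.mem_Ico.1 hk
    have a1 := hb.big k k1 k2
    have a2 : 0 < w.c k := (inv_pos.2 (by linarith [hb.P_ge])).trans_le (hb.c_ge k k1 k2)
    rw [Real.log_mul (Nat.cast_ne_zero.2 (NeZero.ne n)) a2.ne'] at a1
    rw [← add_mul, ← add_mul]
    exact mul_le_mul_of_nonneg_right (by linarith) (by positivity)
  simp only [Finset.sum_add_distrib, Finset.sum_sub_distrib, ← Finset.mul_sum] at h1 h4 h5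
  linarith

end Pool.Agent.MP_943ae2_gt

end
end

section

open Set Complex Filter Finset
open scoped Topology ComplexConjugate ContDiff

noncomputable section

namespace Pool.Agent.MP_943ae2_gt

theorem w7_fold (n : ℕ) (F g : ℕ → ℝ) (hF : ∀ m ≤ n, F (n - m) = F m) (hg : ∀ l, 0 ≤ g l)
    (h : ∀ l, 1 ≤ l → 2 * l ≤ n → 0 ≤ F l + g l) :
    0 ≤ ∑ m ∈ Ico 1 n, F m + 2 * ∑ l ∈ Icc 1 (n / 2), g l := by
  set u : ℕ → ℝ := fun m => if 2 * m ≤ n then g m else 0 with hu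
  have h1 : ∑ m ∈ Ico 1 n, u m = ∑ l ∈ Icc 1 (n / 2), g l := by
    rw [hu, ← sum_filter]
    refine sum_congr ?_ fun _ _ => rfl
    ext m
    simp only [mem_filter, Finset.mem_Ico, Finset.mem_Icc]
    omega
  have h2 : ∑ m ∈ Ico 1 n, u (n - m) = ∑ m ∈ Ico 1 n, u m := by
    rw [sum_Ico_reflect u 1 (Nat.le_succ n), Nat.add_sub_cancel_left, Nat.add_sub_cancel]
  have h0 : ∀ m, 0 ≤ u m := fun m => by
    simp only [hu]
    split_ifs
    exacts [hg m, le_rfl]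
  rw [← h1, two_mul]
  nth_rewrite 2 [← h2]
  rw [← sum_add_distrib, ← sum_add_distrib]
  refine sum_nonneg fun m hm => ?_
  obtain ⟨m1, m2⟩ := Finset.mem_Ico.1 hm
  by_cases hc : 2 * m ≤ n
  · have h3 : u m = g m := if_pos hc
    linarith [h m m1 hc, h0 (n - m)]
  · have h3 : u (n - m) = g (n - m) := if_pos (by omega)
    linarith [h (n - m) (by omega) (by omega), h0 m, hF m m2.le]

variable {w : Wall} {n : ℕ} [NeZero n] {ξ : ℕ → ZMod n → ℂ} {ε : ℕ → ZMod n → ℝ} {P : ℝ} {L : ℕ}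

theorem w7_pars {f : ℕ → ZMod n → ℝ} (hf : ∀ k, ∑ i, f k i = 0) (k : ℕ) :
    ∑ i, f k i ^ 2 = (∑ m ∈ Ico 1 n, ‖hat n f m k‖ ^ 2) / n := by
  simp only [sq (f k _)]
  rw [parseval n f f k, W4_drop _ (by simp [hat_zero n (hf _)])]
  simp only [W4_normsq]

theorem w7_mode (hb : w.Bd n P) (hs : w.Shape n L) {m : ℕ} (h2 : 2 * m ≤ n) (v e : ℕ → ℂ)
    (hz : (m < 10 ^ 6 ∨ m * L ^ 2 < 10 ^ 5 * n ∨ L < 1000) → ∀ k, v k = 0 ∧ e k = 0)
    (he0 : e 0 = 0) (he : e w.N = 0) :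
    ∑ k ∈ Ico 1 w.N, (w.c k ^ 2 * ‖v k‖ ^ 2 + ‖e k‖ ^ 2) ≤
      w.Sm n m v + 100 * ∑ k ∈ Ico 1 w.N, ‖e k‖ ^ 2 +
        n / (20 * m) * ∑ k ∈ range w.N, ‖e (k + 1) - e k‖ ^ 2 - w.Xm n m v e := by
  by_cases hc : m < 10 ^ 6 ∨ m * L ^ 2 < 10 ^ 5 * n ∨ L < 1000
  · have h1 := fun k => (hz hc k).1
    have h3 := fun k => (hz hc k).2
    simp [Wall.Sm, Wall.Xm, h1, h3]
  · push Not at hc
    by_cases hm : 100 * m ≤ n
    · exact mode_low hb hs hc.1 hm hc.2.1 v e he0 he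
    · have h1 := mode_high hb hs (not_le.1 hm) h2 hc.2.2 v e he
      have h3 : 0 ≤ (n : ℝ) / (20 * m) * ∑ k ∈ range w.N, ‖e (k + 1) - e k‖ ^ 2 := by positivity
      linarith

variable (hb : w.Bd n P) (hs : w.Shape n L) (hp : w.Pert n ξ ε L)
include hb hs hp

theorem coercive :
    ∑ k ∈ Ico 1 w.N, ∑ i, (w.c k ^ 2 * ‖ξ k i‖ ^ 2 + ε k i ^ 2) ≤
      w.Sq n (fun k i => (ξ k i).re) + w.Sq n (fun k i => (ξ k i).im) + w.Hq n ε -
        w.Xq n ε (fun k i => (ξ k i).re) := by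
  have hn : (0 : ℝ) < n := Nat.cast_pos.2 (NeZero.pos n)
  set ρ : ℕ → ZMod n → ℝ := fun k i => (ξ k i).re with hρ
  set σ : ℕ → ZMod n → ℝ := fun k i => (ξ k i).im with hσ
  have mρ : ∀ k, ∑ i, ρ k i = 0 := fun k => by rw [hρ, ← re_sum, hp.ξ_mean, zero_re]
  have mσ : ∀ k, ∑ i, σ k i = 0 := fun k => by rw [hσ, ← im_sum, hp.ξ_mean, zero_im]
  have hout : ∀ m k, (k = 0 ∨ w.N ≤ k) → hat n ε m k = 0 := fun m k hk => by
    simp [hat, hp.ε_out k _ hk]
  have key := w7_fold n (fun m => w.Sm n m (hat n ρ m) + w.Sm n m (hat n σ m) +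
      100 * ∑ k ∈ Ico 1 w.N, ‖hat n ε m k‖ ^ 2 - w.Xm n m (hat n ρ m) (hat n ε m) -
      ∑ k ∈ Ico 1 w.N, (w.c k ^ 2 * (‖hat n ρ m k‖ ^ 2 + ‖hat n σ m k‖ ^ 2) + ‖hat n ε m k‖ ^ 2))
    (fun m => n / (20 * m) * ∑ k ∈ range w.N, ‖hat n ε m (k + 1) - hat n ε m k‖ ^ 2)
    (fun m hm => by simp only [Sm_symm _ hm, Xm_symm _ _ hm, W4_hat_norm _ hm])
    (fun l => by positivity) fun m _ h2 => by
      have a1 := w7_mode hb hs h2 (hat n ρ m) (hat n ε m)
        (fun hc k => ⟨(hp.modes m k h2 hc).1, (hp.modes m k h2 hc).2.2⟩)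
        (hout m 0 (Or.inl rfl)) (hout m _ (Or.inr le_rfl))
      have a2 := w7_mode hb hs h2 (hat n σ m) (fun _ => 0)
        (fun hc k => ⟨(hp.modes m k h2 hc).2.1, rfl⟩) rfl rfl
      have a3 : w.Xm n m (hat n σ m) (fun _ => 0) = 0 := by simp [Wall.Xm]
      simp only [a3, norm_zero, sub_zero, ne_eq, OfNat.ofNat_ne_zero, not_false_eq_true, zero_pow,
        sum_const_zero, mul_zero, add_zero] at a2
      simp only [mul_add, sum_add_distrib] at a1 ⊢
      linarith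
  have e1 : ∑ k ∈ Ico 1 w.N, ∑ i, (w.c k ^ 2 * ‖ξ k i‖ ^ 2 + ε k i ^ 2) = (∑ m ∈ Ico 1 n,
      ∑ k ∈ Ico 1 w.N, (w.c k ^ 2 * (‖hat n ρ m k‖ ^ 2 + ‖hat n σ m k‖ ^ 2) + ‖hat n ε m k‖ ^ 2))
        / n := by
    rw [sum_comm (s := Ico 1 n), sum_div]
    refine sum_congr rfl fun k _ => ?_
    have : ∀ i, ‖ξ k i‖ ^ 2 = ρ k i ^ 2 + σ k i ^ 2 := fun i => by
      rw [← normSq_eq_norm_sq, normSq_apply, sq, sq]
    simp only [this, sum_add_distrib, ← mul_sum]
    rw [w7_pars mρ, w7_pars mσ, w7_pars hp.ε_mean]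
    ring
  have e2 : ∑ k ∈ Ico 1 w.N, ∑ i, ε k i ^ 2 =
      (∑ m ∈ Ico 1 n, ∑ k ∈ Ico 1 w.N, ‖hat n ε m k‖ ^ 2) / n := by
    rw [sum_comm (s := Ico 1 n), sum_div]
    exact sum_congr rfl fun k _ => w7_pars hp.ε_mean k
  have e3 : ∑ l ∈ Icc 1 (n / 2), (n : ℝ) / (20 * l) *
      ∑ k ∈ range w.N, ‖hat n ε l (k + 1) - hat n ε l k‖ ^ 2 = n / 20 * ∑ l ∈ Icc 1 (n / 2),
      (l : ℝ)⁻¹ * ∑ k ∈ range w.N, ‖hat n ε l (k + 1) - hat n ε l k‖ ^ 2 := by
    rw [mul_sum]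
    exact sum_congr rfl fun l _ => by ring
  have hH := Hq_ge hb hp.ε_mean hp.ε_out
  rw [e2] at hH
  rw [e1, Sq_modes mρ, Sq_modes mσ, Xq_modes hb mρ hp.ε_mean hp.ε_out]
  rw [e3, sum_sub_distrib, sum_sub_distrib, sum_add_distrib, sum_add_distrib, ← mul_sum] at key
  have k2 := div_nonneg key hn.le
  simp only [add_div, sub_div, mul_div_assoc] at k2
  generalize ∑ l ∈ Icc 1 (n / 2),
      (l : ℝ)⁻¹ * ∑ k ∈ range w.N, ‖hat n ε l (k + 1) - hat n ε l k‖ ^ 2 = G at k2 hH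
  have e4 : (n : ℝ) / 20 * (G / n) = G / 20 := by field_simp
  rw [e4] at k2
  linarith

theorem wall_neg {r E : ℝ} (hr0 : 0 ≤ r) (hr : r ≤ P⁻¹ ^ 20) (hn : w.nsq n ξ ε = r ^ 2)
    (hE : ∀ k, 1 ≤ k → k < w.N → |w.Em n k| ≤ E) :
    w.pair n ξ ε (w.Fw n ξ ε) (w.Dw n ξ ε) ≤ -(P⁻¹ ^ 2 * r ^ 2) + P ^ 11 * r ^ 3 + E * r ^ 2 := by
  have hP := hb.P_ge
  have P0 : 0 < P := by linarith
  have Pi1 : P⁻¹ ≤ 1 := inv_le_one_of_one_le₀ (by linarith)
  have hr4 : r ≤ P⁻¹ ^ 4 := hr.trans (pow_le_pow_of_le_one (by positivity) Pi1 (by norm_num))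
  have hle : ∀ k i, ‖ξ k i‖ ^ 2 + ε k i ^ 2 ≤ r ^ 2 := fun k i => by
    by_cases hk : k = 0 ∨ w.N ≤ k
    · rw [hp.ξ_out k i hk, hp.ε_out k i hk]; simp [sq_nonneg]
    · rw [← hn]
      exact (single_le_sum (f := fun i => ‖ξ k i‖ ^ 2 + ε k i ^ 2) (fun _ _ => by positivity)
        (mem_univ i)).trans (single_le_sum (f := fun k => ∑ i, (‖ξ k i‖ ^ 2 + ε k i ^ 2))
          (fun _ _ => by positivity) (Finset.mem_Ico.2 (by omega)))
  have hξ : ∀ k i, ‖ξ k i‖ ≤ r := fun k i =>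
    (abs_le_of_sq_le_sq' (by linarith [hle k i, sq_nonneg (ε k i)]) hr0).2
  have hε : ∀ k i, |ε k i| ≤ r := fun k i =>
    abs_le_of_sq_le_sq (by linarith [hle k i, sq_nonneg ‖ξ k i‖]) hr0
  have h1 : w.pair n ξ ε (w.Fw n ξ ε) (w.Dw n ξ ε) ≤ w.pair n ξ ε (w.LF n ξ ε) (w.LD n ξ ε) +
      ∑ _k ∈ Ico 1 w.N, ∑ _i : ZMod n, 2 * P ^ 8 * r ^ 3 := by
    unfold Wall.pair
    rw [← sum_add_distrib]
    refine sum_le_sum fun k hk => ?_
    obtain ⟨k1, k2⟩ := Finset.mem_Ico.1 hk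
    have z : ∑ i, (w.c k * w.Em n k * (ξ k i).re - w.Ds n k * ε k i) = 0 := by
      rw [sum_sub_distrib, ← mul_sum, ← mul_sum, ← re_sum, hp.ξ_mean, hp.ε_mean]; simp
    rw [← sum_add_distrib, ← add_zero (∑ i, (_ + 2 * P ^ 8 * r ^ 3)), ← z, ← sum_add_distrib]
    refine sum_le_sum fun i _ => ?_
    have a1 := Fw_taylor hb hr4 hξ hε hp.ε_out k1 k2 i
    have a2 := Dw_taylor hb hr4 hξ hε hp.ε_out k1 k2 i
    obtain ⟨RF, hRF⟩ : ∃ RF, RF = w.Fw n ξ ε k i - w.Em n k - w.LF n ξ ε k i := ⟨_, rfl⟩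
    obtain ⟨RD, hRD⟩ : ∃ RD, RD = w.Dw n ξ ε k i - w.Ds n k - w.LD n ξ ε k i := ⟨_, rfl⟩
    rw [← hRF] at a1
    rw [← hRD] at a2
    have b1 : w.c k * (conj (ξ k i) * RF).re ≤ P * (r * (P ^ 7 * r ^ 2)) := by
      refine (le_abs_self _).trans ?_
      rw [abs_mul]
      refine mul_le_mul (W2_c hb k) ((abs_re_le_norm _).trans ?_) (abs_nonneg _) P0.le
      rw [norm_mul, RCLike.norm_conj]
      exact mul_le_mul (hξ k i) a1 (norm_nonneg _) hr0
    have b2 : -(ε k i * RD) ≤ r * (P ^ 7 * r ^ 2) := by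
      refine (neg_le_abs _).trans ?_
      rw [abs_mul]
      exact mul_le_mul (hε k i) a2 (abs_nonneg _) hr0
    have b3 : r * (P ^ 7 * r ^ 2) ≤ P * (r * (P ^ 7 * r ^ 2)) :=
      le_mul_of_one_le_left (by positivity) (by linarith)
    rw [show w.Fw n ξ ε k i = w.LF n ξ ε k i + w.Em n k + RF by rw [hRF]; ring,
      show w.Dw n ξ ε k i = w.LD n ξ ε k i + w.Ds n k + RD by rw [hRD]; ring]
    simp only [mul_add, add_re, mul_re (conj (ξ k i)) (w.Em n k), ofReal_re, ofReal_im, conj_re]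
    linarith
  have h2 : ∑ _k ∈ Ico 1 w.N, ∑ _i : ZMod n, 2 * P ^ 8 * r ^ 3 ≤ P ^ 11 * r ^ 3 := by
    rw [sum_const, sum_const, card_univ, ZMod.card, Nat.card_Ico, nsmul_eq_mul, nsmul_eq_mul]
    have c1 : ((w.N - 1 : ℕ) : ℝ) ≤ P := (Nat.cast_le.2 (Nat.sub_le _ _)).trans hb.N_le
    have c2 := hb.n_le
    calc _ ≤ P * (P * (P * P ^ 8 * r ^ 3)) := by gcongr; linarith
      _ = _ := by ring
  have h3 : P⁻¹ ^ 2 * r ^ 2 ≤ ∑ k ∈ Ico 1 w.N, ∑ i, (w.c k ^ 2 * ‖ξ k i‖ ^ 2 + ε k i ^ 2) := by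
    rw [← hn, Wall.nsq, mul_sum]
    refine sum_le_sum fun k hk => ?_
    obtain ⟨k1, k2⟩ := Finset.mem_Ico.1 hk
    rw [mul_sum]
    refine sum_le_sum fun i _ => ?_
    have c1 := hb.c_ge k k1 k2
    have c2 : P⁻¹ ^ 2 ≤ 1 := pow_le_one₀ (by positivity) Pi1
    rw [mul_add]
    exact add_le_add (by gcongr) (mul_le_of_le_one_left (sq_nonneg _) c2)
  have h4 : ∑ k ∈ Ico 1 w.N, ∑ i, ε k i * (w.Em n k * (ξ k i).re) ≤ E * r ^ 2 := by
    rw [← hn, Wall.nsq, mul_sum]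
    refine sum_le_sum fun k hk => ?_
    obtain ⟨k1, k2⟩ := Finset.mem_Ico.1 hk
    rw [mul_sum]
    refine sum_le_sum fun i _ => (le_abs_self _).trans ?_
    have c1 := hE k k1 k2
    have c2 := abs_re_le_norm (ξ k i)
    rw [mul_left_comm, abs_mul, abs_mul, ← sq_abs (ε k i)]
    refine mul_le_mul c1 ?_ (by positivity) ((abs_nonneg _).trans c1)
    have c3 := mul_le_mul_of_nonneg_left c2 (abs_nonneg (ε k i))
    nlinarith [sq_nonneg (|ε k i| - ‖ξ k i‖), sq_nonneg ‖ξ k i‖, sq_nonneg |ε k i|]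
  have h5 := coercive hb hs hp
  rw [pair_lin hb hp.ξ_out hp.ε_out] at h1
  linarith

end Pool.Agent.MP_943ae2_gt

end
end

section

open Set Complex Filter
open scoped Topology ComplexConjugate ContDiff

noncomputable section

namespace Pool.Agent.MP_943ae2_gt

section Aux

variable {ι : Type} {F : Frm ι} {Y : Type} [TopologicalSpace Y] {D : Y → Dat ι}

/-- joint continuity of a family of spinors, tested on parameter spaces -/
def CtsS (F : Frm ι) (S : Dat ι → Spin ι) : Prop :=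
  ∀ (Y : Type) [TopologicalSpace Y] (D : Y → Dat ι) (v : Y → ℂ) (e : ι × Bool), Continuous D →
    (∀ y, F.Adm (D y)) → Continuous v → (∀ y, ‖v y‖ < 4 * F.R e) →
    Continuous (fun y => (S (D y)).1 e (v y)) ∧ Continuous (fun y => (S (D y)).2 e (v y))

/-- joint continuity of a function on a layer -/
def CtsF (F : Frm ι) (k : ℕ) (f : Dat ι → ℂ → ℂ) : Prop :=
  ∀ (Y : Type) [TopologicalSpace Y] (D : Y → Dat ι) (z : Y → ℂ), Continuous D →
    (∀ y, F.Adm (D y)) → Continuous z → (∀ y, z y ∈ F.Big (D y) k) →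
    Continuous fun y => f (D y) (z y)

lemma Cts_pos (hD : Continuous D) (e : ι × Bool) : Continuous fun y => (D y).pos e :=
  (continuous_apply e).comp (continuous_fst.comp hD)

lemma Cts_bet (hD : Continuous D) (e : ι × Bool) : Continuous fun y => (D y).bet e := by
  have h : Continuous fun y => (D y).2 e.1 := (continuous_apply e.1).comp (continuous_snd.comp hD)
  rcases e with ⟨ν, _ | _⟩
  · simpa only [bet_false] using h
  · simp only [bet_true]
    exact (continuous_conj.comp h).neg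

lemma Cts_t {S : Dat ι → Spin ι} (hS : CtsS F S) (hD : Continuous D) (hA : ∀ y, F.Adm (D y))
    (μ : ι × Bool) {z : Y → ℂ} (hz : Continuous z) (h0 : ∀ y, z y - (D y).pos μ ≠ 0)
    (h1 : ∀ y, ‖(D y).bet μ ^ 2 / (z y - (D y).pos μ)‖ < 4 * F.R μ) :
    Continuous (fun y => (D y).tA (S (D y)) μ (z y)) ∧
      Continuous (fun y => (D y).tB (S (D y)) μ (z y)) := by
  have hw : Continuous fun y => z y - (D y).pos μ := hz.sub (Cts_pos hD μ)
  have hb := Cts_bet hD μ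
  have h2 := hS Y D (fun y => conj ((D y).bet μ ^ 2 / (z y - (D y).pos μ))) (opp μ) hD hA
    (continuous_conj.comp ((hb.pow 2).div hw h0)) (fun y => by
      rw [Complex.norm_conj]; exact h1 y)
  exact ⟨(hb.div hw h0).mul (continuous_conj.comp h2.2),
    ((hb.div hw h0).mul (continuous_conj.comp h2.1)).neg⟩

lemma Cts_step {S : Dat ι → Spin ι} (hS : CtsS F S) : CtsS F fun d => F.step d (S d) := by
  intro Y _ D v e hD hA hv hv'
  have key : ∀ μ ∈ F.oth e,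
      Continuous (fun y => (D y).tA (S (D y)) μ ((D y).pos e + v y)) ∧
        Continuous (fun y => (D y).tB (S (D y)) μ ((D y).pos e + v y)) := by
    intro μ hμ
    refine Cts_t hS hD hA μ ((Cts_pos hD e).add hv) (fun y => ?_)
      fun y => ((hA y).arg_lt hμ (hv' y)).2
    have h1 := ((hA y).arg_lt hμ (hv' y)).1
    have h2 := (hA y).sep e μ hμ
    have h3 := (hA y).R_pos e
    exact norm_pos_iff.1 (by linarith)
  exact ⟨continuous_const.add (continuous_finsetSum _ fun μ hμ => (key μ hμ).1),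
    continuous_finsetSum _ fun μ hμ => (key μ hμ).2⟩

lemma Cts_iter (n : ℕ) : CtsS F fun d => F.iter d n := by
  induction n with
  | zero => exact fun Y _ D v e _ _ _ _ => ⟨continuous_const, continuous_const⟩
  | succ n ih =>
    have h : (fun d => F.iter d (n + 1)) = fun d => F.step d (F.iter d n) :=
      funext fun d => Function.iterate_succ_apply' _ _ _
    rw [h]
    exact Cts_step ih

lemma Cts_lim {f : ℕ → Y → ℂ} {g : Y → ℂ} (hf : ∀ n, Continuous (f n))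
    (h : ∀ n y, ‖f n y - g y‖ ≤ 4 * (1 / 2) ^ n) : Continuous g := by
  refine TendstoUniformly.continuous (F := f) (p := atTop) ?_ (Frequently.of_forall hf)
  rw [Metric.tendstoUniformly_iff]
  intro ε hε
  have h1 : Tendsto (fun n : ℕ => 4 * (1 / 2 : ℝ) ^ n) atTop (𝓝 (4 * 0)) :=
    (tendsto_pow_atTop_nhds_zero_of_lt_one (by norm_num) (by norm_num)).const_mul 4
  rw [mul_zero] at h1
  filter_upwards [h1.eventually (gt_mem_nhds hε)] with n hn y
  rw [dist_comm, dist_eq_norm]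
  exact (h n y).trans_lt hn

lemma Cts_spin : CtsS F F.spin := by
  intro Y _ D v e hD hA hv hv'
  exact ⟨Cts_lim (fun n => (Cts_iter n Y D v e hD hA hv hv').1)
      fun n y => ((hA y).iter_rate n e (hv' y)).1,
    Cts_lim (fun n => (Cts_iter n Y D v e hD hA hv hv').2)
      fun n y => ((hA y).iter_rate n e (hv' y)).2⟩

lemma Cts_ab0 (k : ℕ) : CtsF F k (fun d => F.a d k) ∧ CtsF F k (fun d => F.b d k) := by
  have key : ∀ (Y : Type) [TopologicalSpace Y] (D : Y → Dat ι) (z : Y → ℂ), Continuous D →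
      (∀ y, F.Adm (D y)) → Continuous z → (∀ y, z y ∈ F.Big (D y) k) → ∀ μ ∈ F.sides k,
      Continuous (fun y => (D y).tA (F.spin (D y)) μ (z y)) ∧
        Continuous (fun y => (D y).tB (F.spin (D y)) μ (z y)) := by
    intro Y _ D z hD hA hz hz' μ hμ
    have h0 : ∀ y, 0 < ‖z y - (D y).pos μ‖ := fun y => by
      have h1 := hz' y μ hμ
      have h2 := (hA y).R_pos μ
      exact lt_of_le_of_lt (by positivity) h1
    refine Cts_t Cts_spin hD hA μ hz (fun y => norm_pos_iff.1 (h0 y)) fun y => ?_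
    have h1 := hz' y μ hμ
    have h2 := (hA y).R_pos μ
    rw [div_lt_iff₀ (by positivity)] at h1
    rw [norm_div, norm_pow, div_lt_iff₀ (h0 y)]
    linarith
  exact ⟨fun Y _ D z hD hA hz hz' => continuous_const.add
      (continuous_finsetSum _ fun μ hμ => (key Y D z hD hA hz hz' μ hμ).1),
    fun Y _ D z hD hA hz hz' => continuous_finsetSum _ fun μ hμ => (key Y D z hD hA hz hz' μ hμ).2⟩

lemma Cts_aa (k : ℕ) : CtsF F k fun d => F.aa d k := fun Y _ D z hD hA hz hz' =>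
  ((Cts_ab0 k).1 Y D z hD hA hz hz').pow 2

lemma Cts_bb (k : ℕ) : CtsF F k fun d => F.bb d k := fun Y _ D z hD hA hz hz' =>
  ((Cts_ab0 k).2 Y D z hD hA hz hz').pow 2

lemma Cts_ab (k : ℕ) : CtsF F k fun d => F.ab d k := fun Y _ D z hD hA hz hz' =>
  ((Cts_ab0 k).1 Y D z hD hA hz hz').mul ((Cts_ab0 k).2 Y D z hD hA hz hz')

lemma Cts_map {c : Y → ℂ} {r : Y → ℝ} (hc : Continuous c) (hr : Continuous r) :
    Continuous fun p : Y × ℝ => circleMap (c p.1) (r p.1) p.2 := by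
  unfold circleMap
  fun_prop

lemma Cts_circ {c : Y → ℂ} {r : Y → ℝ} (hr : Continuous r) {g : Y → ℂ → ℂ}
    (hg : Continuous fun p : Y × ℝ => g p.1 (circleMap (c p.1) (r p.1) p.2)) :
    Continuous fun y => ∮ ζ in C(c y, r y), g y ζ := by
  unfold circleIntegral
  refine intervalIntegral.continuous_parametric_intervalIntegral_of_continuous'
    (f := fun y θ => deriv (circleMap (c y) (r y)) θ • g y (circleMap (c y) (r y) θ)) ?_ _ _
  have h : Continuous fun p : Y × ℝ => circleMap 0 (r p.1) p.2 * I :=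
    (Cts_map (c := fun _ => 0) continuous_const hr).mul continuous_const
  simp only [deriv_circleMap]
  exact h.smul hg

lemma Cts_avg {E : Type} [NormedAddCommGroup E] [NormedSpace ℝ E] {c : Y → ℂ} {r : Y → ℝ}
    {g : Y → ℂ → E} (hg : Continuous fun p : Y × ℝ => g p.1 (circleMap (c p.1) (r p.1) p.2)) :
    Continuous fun y => Real.circleAverage (g y) (c y) (r y) := by
  unfold Real.circleAverage
  exact (intervalIntegral.continuous_parametric_intervalIntegral_of_continuous'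
    (f := fun y θ => g y (circleMap (c y) (r y) θ)) hg _ _).const_smul _

lemma Cts_bet_le {d : Dat ι} (h : F.Adm d) (e : ι × Bool) : ‖d.bet e‖ ≤ F.R e := by
  refine (h.bet_le e).trans (le_self_pow₀ ?_ (by norm_num))
  exact (one_le_inv₀ (h.t_pos _)).2 ((h.t_small _).trans (by norm_num))

lemma Cts_sr (hD : Continuous D) (e : ι × Bool) : Continuous fun y => F.sr (D y) e :=
  ((Cts_bet hD e).norm.pow 2).div_const _

lemma Cts_add (c : ℂ) (r θ : ℝ) : circleMap c r θ = c + circleMap 0 r θ := by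
  simp [circleMap]

lemma Cts_mem {d : Dat ι} (h : F.Adm d) (e : ι × Bool) (θ : ℝ) :
    circleMap (d.pos e) (F.sr d e) θ ∈ F.Big d (F.lay e) := by
  have h1 := h.R_pos e
  have h2 := h.bet_pos e
  have h3 := Cts_bet_le h e
  rw [Cts_add]
  refine h.mem_Big e ?_ ?_ <;> rw [norm_circleMap_zero, abs_of_pos (h.sr_pos e), Frm.sr]
  · exact div_lt_div_of_pos_left (by positivity) (by positivity) (by linarith)
  · rw [div_le_iff₀ (by positivity)]
    nlinarith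

lemma Cts_on {e : ι × Bool} {f : Dat ι → ℂ → ℂ} (hf : CtsF F (F.lay e) f) (hD : Continuous D)
    (hA : ∀ y, F.Adm (D y)) :
    Continuous fun p : Y × ℝ => f (D p.1) (circleMap ((D p.1).pos e) (F.sr (D p.1) e) p.2) :=
  hf (Y × ℝ) (fun p => D p.1) _ (hD.comp continuous_fst) (fun p => hA p.1)
    (Cts_map (Cts_pos hD e) (Cts_sr hD e)) fun p => Cts_mem (hA p.1) e p.2

lemma Cts_res {e : ι × Bool} {f : Dat ι → ℂ → ℂ} (hf : CtsF F (F.lay e) f) (hD : Continuous D)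
    (hA : ∀ y, F.Adm (D y)) : Continuous fun y => F.res (D y) (f (D y)) e :=
  continuous_const.mul (Cts_circ (g := fun y => f (D y)) (Cts_sr hD e) (Cts_on hf hD hA))

lemma Cts_prim {e : ι × Bool} {f : Dat ι → ℂ → ℂ} (hf : CtsF F (F.lay e) f) (hD : Continuous D)
    (hA : ∀ y, F.Adm (D y)) {z : Y → ℂ} (hz : Continuous z)
    (hz' : ∀ y, F.sr (D y) e < ‖z y - (D y).pos e‖) :
    Continuous fun y => F.prim (D y) (f (D y)) e (z y) := by
  refine continuous_const.mul (Cts_circ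
    (g := fun y ζ => f (D y) ζ * Complex.log (1 - (ζ - (D y).pos e) / (z y - (D y).pos e)))
    (Cts_sr hD e) ((Cts_on hf hD hA).mul ?_))
  have h0 : ∀ y, 0 < ‖z y - (D y).pos e‖ := fun y => ((hA y).sr_pos e).trans (hz' y)
  have hp : Continuous fun p : Y × ℝ => (D p.1).pos e := (Cts_pos hD e).comp continuous_fst
  refine Continuous.clog (continuous_const.sub
    (((Cts_map (Cts_pos hD e) (Cts_sr hD e)).sub hp).div ((hz.comp continuous_fst).sub hp)
      fun p => norm_pos_iff.1 (h0 p.1))) fun p => ?_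
  rw [sub_eq_add_neg]
  refine mem_slitPlane_of_norm_lt_one ?_
  rw [norm_neg, norm_div, circleMap_sub_center, norm_circleMap_zero,
    abs_of_pos ((hA p.1).sr_pos e), div_lt_one (h0 p.1)]
  exact hz' p.1

lemma Cts_U {d : Dat ι} (h : F.Adm d) {e : ι × Bool} {z : ℂ} (hz : z ∈ F.U d (F.lay e)) :
    F.sr d e < ‖z - d.pos e‖ := by
  have h1 := h.R_pos e
  have h2 := h.bet_pos e
  refine lt_trans ?_ (hz e (self_mem_sides e))
  exact div_lt_div_of_pos_left (by positivity) h1 (by linarith)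

lemma Cts_log (hD : Continuous D) (hA : ∀ y, F.Adm (D y)) {e : ι × Bool} {z : Y → ℂ}
    (hz : Continuous z) (hz' : ∀ y, z y ∈ F.U (D y) (F.lay e)) :
    Continuous fun y => Real.log ‖z y - (D y).pos e‖ :=
  (hz.sub (Cts_pos hD e)).norm.log fun y => (((hA y).sr_pos e).trans (Cts_U (hA y) (hz' y))).ne'

lemma Cts_H (hD : Continuous D) (hA : ∀ y, F.Adm (D y)) {k : ℕ} {z : Y → ℂ}
    (hz : Continuous z) (hz' : ∀ y, z y ∈ F.U (D y) k) :
    Continuous fun y => F.H (D y) k (z y) := by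
  refine hz.add (continuous_finsetSum _ fun e he => ?_)
  obtain rfl := mem_sides_iff.1 he
  have h1 := fun y => Cts_U (hA y) (hz' y)
  exact ((Cts_prim (Cts_aa _) hD hA hz h1).sub
    (continuous_conj.comp (Cts_prim (Cts_bb _) hD hA hz h1))).add
    ((continuous_const.mul (Cts_res (Cts_aa _) hD hA)).mul
      (continuous_ofReal.comp (Cts_log hD hA hz hz')))

lemma Cts_h0 (hD : Continuous D) (hA : ∀ y, F.Adm (D y)) {k : ℕ} {z : Y → ℂ}
    (hz : Continuous z) (hz' : ∀ y, z y ∈ F.U (D y) k) :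
    Continuous fun y => F.h0 (D y) k (z y) := by
  refine continuous_finsetSum _ fun e he => ?_
  obtain rfl := mem_sides_iff.1 he
  have h1 := fun y => Cts_U (hA y) (hz' y)
  exact (continuous_re.comp (Cts_prim (Cts_ab _) hD hA hz h1)).add
    ((continuous_re.comp (Cts_res (Cts_ab _) hD hA)).mul (Cts_log hD hA hz hz'))

lemma Cts_memU {d : Dat ι} (h : F.Adm d) (e : ι × Bool) (θ : ℝ) :
    circleMap (d.pos e) ‖d.bet e‖ θ ∈ F.U d (F.lay e) := by
  have h1 := h.R_pos e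
  have h3 := Cts_bet_le h e
  rw [Cts_add]
  refine h.Ub_sub _ (h.mem_Ub e ?_ ?_) <;> rw [norm_circleMap_zero, abs_norm]
  linarith

end Aux

variable {ι : Type} (F : Frm ι)

theorem continuousOn_ra (e : ι × Bool) : ContinuousOn (fun d => F.ra d e) {d | F.Adm d} :=
  continuousOn_iff_continuous_domRestrict.2
    (Cts_res (Cts_aa _) continuous_subtype_val fun y => y.2)

theorem continuousOn_rb (e : ι × Bool) : ContinuousOn (fun d => F.rb d e) {d | F.Adm d} :=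
  continuousOn_iff_continuous_domRestrict.2
    (Cts_res (Cts_bb _) continuous_subtype_val fun y => y.2)

theorem continuousOn_rab (e : ι × Bool) : ContinuousOn (fun d => F.rab d e) {d | F.Adm d} :=
  continuousOn_iff_continuous_domRestrict.2
    (Cts_res (Cts_ab _) continuous_subtype_val fun y => y.2)

theorem continuousOn_Jh (e : ι × Bool) : ContinuousOn (fun d => F.Jh d e) {d | F.Adm d} :=
  continuousOn_iff_continuous_domRestrict.2
    (Cts_avg (g := fun y : {d | F.Adm d} => F.H y.1 (F.lay e))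
      (Cts_H (continuous_subtype_val.comp continuous_fst) (fun p => p.1.2)
        (Cts_map (Cts_pos continuous_subtype_val e) (Cts_bet continuous_subtype_val e).norm)
        fun p => Cts_memU p.1.2 e p.2))

theorem continuousOn_J3 (e : ι × Bool) : ContinuousOn (fun d => F.J3 d e) {d | F.Adm d} :=
  continuousOn_iff_continuous_domRestrict.2
    (Cts_avg (g := fun y : {d | F.Adm d} => F.h0 y.1 (F.lay e))
      (Cts_h0 (continuous_subtype_val.comp continuous_fst) (fun p => p.1.2)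
        (Cts_map (Cts_pos continuous_subtype_val e) (Cts_bet continuous_subtype_val e).norm)
        fun p => Cts_memU p.1.2 e p.2))

end Pool.Agent.MP_943ae2_gt

end
end
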