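import Pool.Agent.Mg.F943ae2.Gc30303
import Pool.Agent.Mg.F943ae2.G3fd220
import Pool.Agent.Mg.F943ae2.Geeed55
import Pool.Agent.MP_943ae2_gt.Tych
import Pool.Agent.Mg.F943ae2.G9093ed

section

open Set Complex Filter Finset
open scoped Topology ComplexConjugate ContDiff

noncomputable section

namespace Pool.Agent.MP_943ae2_gt

lemma Mac3_avg {n : ℕ} [NeZero n] {f : ZMod n → ℝ} {v B : ℝ} (h : ∀ i, |f i - v| ≤ B) :
    |avg n f - v| ≤ B := by
  have hn : (0 : ℝ) < n := Nat.cast_pos.2 (Nat.pos_of_ne_zero (NeZero.ne n))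
  have e : avg n f - v = (∑ i, (f i - v)) / n := by
    rw [avg, sum_sub_distrib, sum_const, card_univ, ZMod.card, nsmul_eq_mul]
    field_simp
  rw [e, abs_div, abs_of_pos hn, div_le_iff₀ hn]
  refine (abs_sum_le_sum_abs _ _).trans ((sum_le_card_nsmul _ _ _ fun i _ => h i).trans ?_)
  rw [card_univ, ZMod.card, nsmul_eq_mul, mul_comm]

lemma Mac3_mul {a b A B : ℝ} (ha : |a| ≤ A) (hb : |b| ≤ B) : |a * b| ≤ A * B := by
  rw [abs_mul]
  exact mul_le_mul ha hb (abs_nonneg _) ((abs_nonneg _).trans ha)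

lemma Mac3_log {f : ℝ} (hf : |f| ≤ 1 / 10) :
    |Real.log ((1 + 2 * f) / (1 - 2 * f))| ≤ 5 * |f| := by
  obtain ⟨h1, h2⟩ := abs_le.1 hf
  have a : 0 < 1 + 2 * f := by linarith
  have b : 0 < 1 - 2 * f := by linarith
  have f1 := le_abs_self f
  have f2 := neg_abs_le f
  have f0 := abs_nonneg f
  rw [abs_le]
  constructor
  · have h := Real.log_le_sub_one_of_pos (div_pos b a)
    have e : Real.log ((1 - 2 * f) / (1 + 2 * f)) = -Real.log ((1 + 2 * f) / (1 - 2 * f)) := by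
      rw [← Real.log_inv, inv_div]
    have g : (1 - 2 * f) / (1 + 2 * f) ≤ 1 + 5 * |f| := by
      rw [div_le_iff₀ a]
      nlinarith
    linarith
  · have h := Real.log_le_sub_one_of_pos (div_pos a b)
    have g : (1 + 2 * f) / (1 - 2 * f) ≤ 1 + 5 * |f| := by
      rw [div_le_iff₀ b]
      nlinarith
    linarith

lemma Mac3_lexp {y : ℝ} (hy : |y| ≤ 1) : |Real.log (1 + Real.exp y)| ≤ 3 := by
  have h0 := Real.exp_pos y
  have h1 : Real.exp y ≤ 3 :=
    (Real.exp_le_exp.2 (abs_le.1 hy).2).trans (Real.exp_one_lt_d9.le.trans (by norm_num))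
  rw [abs_of_nonneg (Real.log_nonneg (by linarith))]
  have := Real.log_le_sub_one_of_pos (show 0 < 1 + Real.exp y by linarith)
  linarith

lemma Mac3_fin {s l a a1 a2 b b1 b2 p p' q1 q2 q1' q2' d e : ℝ} (hl : 90000 ≤ l) (hs : |s| ≤ 8)
    (ha : |a| ≤ 1) (ha1 : |a1| ≤ 1) (ha2 : |a2| ≤ 1) (hb : |b| ≤ 2) (hb1 : |b1| ≤ 2)
    (hb2 : |b2| ≤ 2) (hp : |p| ≤ 11 / 10 * l) (hp' : |p'| ≤ 41 / 10 * l) (hq1 : |q1| ≤ 3)
    (hq2 : |q2| ≤ 3) (hq1' : |q1'| ≤ 4) (hq2' : |q2'| ≤ 4) (hd : |3 * l - d| ≤ 1) (he : |e| ≤ 2) :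
    |s + (2 * (a * p) + a1 * q1 + a2 * q2 - s * d - 2 * (b * p') - b1 * q1' - b2 * q2' + e) /
      (3 * l)| ≤ 8 := by
  have l0 : 0 < 3 * l := by linarith
  have e1 : s + (2 * (a * p) + a1 * q1 + a2 * q2 - s * d - 2 * (b * p') - b1 * q1' - b2 * q2' + e) /
      (3 * l) = (s * (3 * l - d) + 2 * (a * p) + a1 * q1 + a2 * q2 - 2 * (b * p') - b1 * q1' -
        b2 * q2' + e) / (3 * l) := by
    field_simp
    ring
  rw [e1, abs_div, abs_of_pos l0, div_le_iff₀ l0]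
  have m0 := abs_le.1 (Mac3_mul hs hd)
  have m1 := abs_le.1 (Mac3_mul ha hp)
  have m2 := abs_le.1 (Mac3_mul ha1 hq1)
  have m3 := abs_le.1 (Mac3_mul ha2 hq2)
  have m4 := abs_le.1 (Mac3_mul hb hp')
  have m5 := abs_le.1 (Mac3_mul hb1 hq1')
  have m6 := abs_le.1 (Mac3_mul hb2 hq2')
  have m7 := abs_le.1 he
  rw [abs_le]
  constructor <;> linarith [m0.1, m0.2, m1.1, m1.2, m2.1, m2.2, m3.1, m3.2, m4.1, m4.2, m5.1, m5.2,
    m6.1, m6.2, m7.1, m7.2]

lemma Mac3_tn (j : ℕ) : tt j ^ 2 * nn j ≤ 1 := by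
  have h1 := admM_PP_tt j
  have h2 := Mac2_nn_le j
  have h3 := tt_pos j
  have h4 := admM_tt_one j
  have h5 := Mac2_nn_pos j
  have h6 : tt j * nn j ≤ 1 := by nlinarith
  nlinarith

lemma Mac3_NN {j : ℕ} (hj : 1 ≤ j) : (NN j : ℝ) = 6 * Lb j := by
  rw [NN_eq hj]
  push_cast
  ring

lemma Mac3_Mt {j : ℕ} (hj : 1 ≤ j) : (Mt j : ℝ) = 5 * Lb j := by
  rw [Mt_eq hj]
  push_cast
  ring

lemma Mac3_small {j : ℕ} (hj : 1 ≤ j) : (NN j : ℝ) / nn j ≤ 1 / 10 ^ 7 := by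
  have h := nn_big hj
  have q := Mac2_nn_pos j
  have h1 := Mac2_Lb_one j
  have h2 := Mac3_NN hj
  rw [div_le_div_iff₀ q (by norm_num)]
  nlinarith

namespace InK

variable {x : Prm} (hx : InK x)
include hx

lemma Mac3_W_one (j : ℕ) : 1 ≤ x.W j :=
  (one_le_pow₀ (by norm_num)).trans (hx.W_ge j)

lemma Mac3_t (j : ℕ) : tt j ^ 2 ≤ x.W j / nn j := by
  rw [le_div_iff₀ (Mac2_nn_pos j)]
  exact (Mac3_tn j).trans (hx.Mac3_W_one j)

lemma Mac3_c (j k : ℕ) : |(x.wall j).c k| ≤ x.W j / nn j := by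
  have q := Mac2_nn_pos j
  rw [x.Mac1_c, abs_of_nonneg (div_nonneg (hx.w_nonneg j k) q.le)]
  exact div_le_div_of_nonneg_right (hx.w_le j k) q.le

lemma Mac3_up {j i k : ℕ} (h : i ≤ k) (hk : k ≤ Lb j) : x.w j i ≤ x.w j k := by
  induction k, h using Nat.le_induction with
  | base => exact le_rfl
  | succ k _ ih => exact (ih (by omega)).trans (hx.Mac2_up (by omega))

lemma Mac3_down {j i k : ℕ} (h : i ≤ k) (hi : Lb j ≤ i) : x.w j k ≤ x.w j i := by
  induction k, h using Nat.le_induction with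
  | base => exact le_rfl
  | succ k hk ih => exact (hx.Mac2_down (by omega)).trans ih

theorem eta_le {j k : ℕ} (hj : 1 ≤ j) (h1 : 1 ≤ k) (h2 : k < NN j) (h3 : k ≠ Lb j) :
    |x.eta j k| ≤ 200 * x.W j / nn j := by
  have c := abs_le.1 (hx.Mac3_c j k)
  have e := abs_le.1 ((hx.err_le hj h1 h2).trans (hx.Mac3_t j))
  have r : 0 ≤ x.W j / nn j := (abs_nonneg _).trans (hx.Mac3_c j k)
  rw [mul_div_assoc, Prm.eta]
  rcases lt_or_gt_of_ne h3 with h | h
  · have hj2 : 2 ≤ j := by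
      by_contra hc
      obtain rfl : j = 1 := by omega
      have : Lb 1 = 1 := rfl
      omega
    have s := hx.sBot_le hj2 k
    rw [mul_div_assoc, abs_le] at s
    rw [x.g_bot h1 h, x.D2_bot h1 h]
    have d : x.sTop (j - 1) k = -x.sBot j k - x.W j / nn j := by
      rw [Prm.sBot]
      ring
    rw [d, abs_le]
    constructor <;> linarith [c.1, c.2, e.1, e.2, s.1, s.2]
  · obtain ⟨a, rfl⟩ : ∃ a, k = Lb j + a := ⟨k - Lb j, by omega⟩
    have hN : NN j = Lb j + Mt j := rfl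
    have s := hx.sTop_le j a
    rw [mul_div_assoc, abs_le] at s
    rw [x.g_top h, x.D2_top (by omega) (by omega), abs_le]
    constructor <;> linarith [c.1, c.2, e.1, e.2, s.1, s.2]

theorem eta_L (j : ℕ) :
    |x.eta (j + 1) (Lb (j + 1)) * Lb (j + 1) - (3 / 5 * x.W (j + 1) - x.W j)| ≤
      x.W (j + 1) / 1000 := by
  have hj : 1 ≤ j + 1 := by omega
  have hN : NN j = Lb j + Mt j := rfl
  have hN' : NN (j + 1) = Lb (j + 1) + Mt (j + 1) := rfl
  have hL := Lb_pos (j + 1)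
  have hM := Mt_pos (j + 1)
  have hM0 := Mt_pos j
  have L1 := Mac2_Lb_one (j + 1)
  have L0 : (0 : ℝ) < Lb (j + 1) := by linarith
  have q := Mac2_nn_pos (j + 1)
  have W0 := hx.Mac2_W_pos j
  have W1 := (hx.W_succ j).1
  have a1 := hx.w_top (j := j) (k := NN j - 1) (by omega) (by omega)
  rw [Nat.cast_sub (by omega), Nat.cast_one, sub_sub_cancel, mul_one, ← Lb_succ] at a1
  have a2 := hx.slope_top (j := j + 1) (k := Lb (j + 1)) le_rfl (by omega)
  rw [Mac3_Mt hj] at a2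
  have a3 := hx.slope_bot (j := j + 1) (k := Lb (j + 1) - 1) (by omega)
  rw [Nat.sub_add_cancel hL] at a3
  have a4 := hx.Mac3_c (j + 1) (Lb (j + 1))
  have a5 := (hx.err_le hj hL (by omega)).trans (hx.Mac3_t (j + 1))
  have a6 : x.W (j + 1) / nn (j + 1) * Lb (j + 1) ≤ x.W (j + 1) / 10 ^ 7 := by
    have b := Mac3_small hj
    rw [Mac3_NN hj, mul_div_assoc] at b
    have b0 : (0 : ℝ) ≤ Lb (j + 1) / nn (j + 1) := by positivity
    have e : x.W (j + 1) / nn (j + 1) * Lb (j + 1) = x.W (j + 1) * (Lb (j + 1) / nn (j + 1)) := by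
      ring
    rw [e]
    nlinarith
  have k0 : |(Lb (j + 1) : ℝ)| ≤ Lb (j + 1) := (abs_of_pos L0).le
  have b1 := abs_le.1 (Mac3_mul a1 k0)
  have b2 := abs_le.1 (Mac3_mul a2 k0)
  have b3 := abs_le.1 (Mac3_mul a3 k0)
  have b4 := abs_le.1 ((Mac3_mul a4 k0).trans a6)
  have b5 := abs_le.1 ((Mac3_mul a5 k0).trans a6)
  have e1 : x.W j / Lb (j + 1) * Lb (j + 1) = x.W j := div_mul_cancel₀ _ L0.ne'
  have e2 : x.W (j + 1) / (5 * Lb (j + 1)) * Lb (j + 1) = x.W (j + 1) / 5 := by field_simp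
  have e3 : x.W (j + 1) / Lb (j + 1) * Lb (j + 1) = x.W (j + 1) := div_mul_cancel₀ _ L0.ne'
  rw [Prm.eta, x.g_L, Prm.D2, abs_le]
  constructor <;> linarith [b1.1, b1.2, b2.1, b2.2, b3.1, b3.2, b4.1, b4.2, b5.1, b5.2]

lemma Mac3_sum {j : ℕ} (hj : 1 ≤ j) (S : Finset ℕ) {B : ℝ}
    (hS : ∀ i ∈ S, 1 ≤ i ∧ i < NN j ∧ i ≠ Lb j ∧ x.w j i ≤ B) :
    |∑ i ∈ S, x.w j i * x.eta j i| ≤ S.card * (B * (200 * x.W j / nn j)) := by
  refine (abs_sum_le_sum_abs _ _).trans ((sum_le_card_nsmul _ _ _ fun i hi => ?_).trans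
    (nsmul_eq_mul _ _).le)
  obtain ⟨h1, h2, h3, h4⟩ := hS i hi
  exact Mac3_mul ((abs_of_nonneg (hx.w_nonneg j i)).le.trans h4) (hx.eta_le hj h1 h2 h3)

theorem ff_le {j k : ℕ} (hj : 1 ≤ j) (h1 : 1 ≤ k) (h2 : k + 1 < NN j) :
    |x.ff j k| ≤ 400 * NN j / nn j := by
  have q := Mac2_nn_pos j
  have W0 := hx.Mac2_W_pos j
  have L1 := Mac2_Lb_one j
  have hN := Mac3_NN hj
  have hM := Mac3_Mt hj
  have N0 : (0 : ℝ) < NN j := by linarith
  have p0 : 0 < x.W j / NN j := div_pos W0 N0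
  have p1 : 0 < x.w j k := p0.trans_le (hx.w_ge h1 (by omega))
  have p2 : 0 < x.w j (k + 1) := p0.trans_le (hx.w_ge (by omega) h2)
  rw [Prm.ff, abs_div, abs_of_pos (mul_pos p1 p2), div_le_iff₀ (mul_pos p1 p2), Prm.psi]
  split_ifs with h
  · refine (hx.Mac3_sum hj _ (B := x.w j k) fun i hi => ?_).trans ?_
    · rw [Finset.mem_Icc] at hi
      exact ⟨hi.1, by omega, by omega, hx.Mac3_up hi.2 h.le⟩
    · have a := (abs_le.1 (hx.w_bot (j := j) (k := k + 1) h)).1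
      have L0 : (0 : ℝ) < Lb j := by linarith
      have b : x.W j * k ≤ 2 * NN j * x.w j (k + 1) := by
        have e : x.W j * ((k + 1 : ℕ) : ℝ) / Lb j * Lb j = x.W j * (k + 1) := by
          push_cast
          field_simp
        have k0 : (0 : ℝ) ≤ k := Nat.cast_nonneg k
        have c : x.W j * ((k + 1 : ℕ) : ℝ) / Lb j ≤ 2 * x.w j (k + 1) := by linarith
        have c' := mul_le_mul_of_nonneg_right c L0.le
        rw [hN]
        nlinarith
      rw [Nat.card_Icc, Nat.add_sub_cancel]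
      have e1 : (k : ℝ) * (x.w j k * (200 * x.W j / nn j)) =
        200 * x.w j k / nn j * (x.W j * k) := by ring
      have e2 : 400 * (NN j : ℝ) / nn j * (x.w j k * x.w j (k + 1)) =
        200 * x.w j k / nn j * (2 * NN j * x.w j (k + 1)) := by ring
      rw [e1, e2]
      exact mul_le_mul_of_nonneg_left b (by positivity)
  · rw [abs_neg]
    refine (hx.Mac3_sum hj _ (B := x.w j (k + 1)) fun i hi => ?_).trans ?_
    · rw [Finset.mem_Ioo] at hi
      exact ⟨by omega, hi.2, by omega, hx.Mac3_down hi.1 (by omega)⟩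
    · have a := (abs_le.1 (hx.w_top (j := j) (k := k) (by omega) (by omega))).1
      have M0 : (0 : ℝ) < Mt j := by linarith
      have hc : (((Finset.Ioo k (NN j)).card : ℕ) : ℝ) ≤ NN j - k := by
        rw [Nat.card_Ioo, ← Nat.cast_sub (by omega)]
        exact Nat.cast_le.2 (by omega)
      have b : x.W j * ((Finset.Ioo k (NN j)).card : ℕ) ≤ 2 * NN j * x.w j k := by
        have e : x.W j * ((NN j : ℝ) - k) / Mt j * Mt j = x.W j * (NN j - k) := by
          field_simp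
        have c : x.W j * ((NN j : ℝ) - k) / Mt j ≤ 2 * x.w j k := by linarith
        have c' := mul_le_mul_of_nonneg_right c M0.le
        have c'' := mul_le_mul_of_nonneg_left hc W0.le
        have : 2 * x.w j k * Mt j ≤ 2 * NN j * x.w j k := by
          rw [hN, hM]
          nlinarith
        linarith
      have e1 : (((Finset.Ioo k (NN j)).card : ℕ) : ℝ) * (x.w j (k + 1) * (200 * x.W j / nn j)) =
        200 * x.w j (k + 1) / nn j * (x.W j * ((Finset.Ioo k (NN j)).card : ℕ)) := by ring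
      have e2 : 400 * (NN j : ℝ) / nn j * (x.w j k * x.w j (k + 1)) =
        200 * x.w j (k + 1) / nn j * (2 * NN j * x.w j k) := by ring
      rw [e1, e2]
      exact mul_le_mul_of_nonneg_left b (by positivity)

theorem uN_mem (j : ℕ) : |x.uN j - 5 / 3| ≤ 1 / 100 := by
  rcases j with _ | j
  · rw [Prm.uN, if_pos rfl]
    norm_num
  have hj : 1 ≤ j + 1 := by omega
  have hN' : NN (j + 1) = Lb (j + 1) + Mt (j + 1) := rfl
  have hL := Lb_pos (j + 1)
  have hM := Mt_pos (j + 1)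
  have L1 := Mac2_Lb_one (j + 1)
  have q := Mac2_nn_pos (j + 1)
  have W0 := hx.Mac2_W_pos j
  have W1 := hx.Mac2_W_pos (j + 1)
  have W2 := (hx.W_succ j).2
  have hW : x.W (j + 1) = x.W j * x.u (j + 1) := rfl
  have hm : Lb (j + 1) ∈ Finset.Ico 1 (NN (j + 1)) := Finset.mem_Ico.2 ⟨hL, by omega⟩
  have a1 := hx.eta_L j
  have a2 := hx.Mac3_sum hj ((Finset.Ico 1 (NN (j + 1))).erase (Lb (j + 1))) (B := x.W (j + 1))
    fun i hi => by
      rw [Finset.mem_erase, Finset.mem_Ico] at hi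
      exact ⟨hi.2.1, hi.2.2, hi.1, hx.w_le _ _⟩
  have hc : ((((Finset.Ico 1 (NN (j + 1))).erase (Lb (j + 1))).card : ℕ) : ℝ) ≤ NN (j + 1) := by
    refine Nat.cast_le.2 (Finset.card_erase_le.trans ?_)
    rw [Nat.card_Ico]
    omega
  replace a2 := a2.trans (mul_le_mul_of_nonneg_right hc (by positivity))
  rw [Prm.uN, if_neg (by omega), Nat.add_sub_cancel, ← Finset.add_sum_erase _ _ hm, x.w_L]
  generalize ∑ i ∈ (Finset.Ico 1 (NN (j + 1))).erase (Lb (j + 1)),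
    x.w (j + 1) i * x.eta (j + 1) i = R at a2 ⊢
  have e : x.u (j + 1) - 5 / 3 * (Lb (j + 1) / (x.W j * x.W (j + 1))) *
      (x.W (j + 1) * x.eta (j + 1) (Lb (j + 1)) + R) - 5 / 3 =
      -(5 / 3) * ((x.eta (j + 1) (Lb (j + 1)) * Lb (j + 1) - (3 / 5 * x.W (j + 1) - x.W j)) /
        x.W j + Lb (j + 1) / (x.W j * x.W (j + 1)) * R) := by
    have hu : x.u (j + 1) = x.W (j + 1) / x.W j := by
      rw [hW]
      field_simp
    rw [hu]
    field_simp
    ring
  have b1 : |(x.eta (j + 1) (Lb (j + 1)) * Lb (j + 1) - (3 / 5 * x.W (j + 1) - x.W j)) / x.W j| ≤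
      2 / 1000 := by
    rw [abs_div, abs_of_pos W0, div_le_iff₀ W0]
    linarith
  have b2 : |Lb (j + 1) / (x.W j * x.W (j + 1)) * R| ≤ 1 / 1000 := by
    have k0 : |(Lb (j + 1) : ℝ) / (x.W j * x.W (j + 1))| ≤ NN (j + 1) / (x.W j * x.W (j + 1)) := by
      rw [abs_of_pos (by positivity), Mac3_NN hj]
      gcongr
      linarith
    refine (Mac3_mul k0 a2).trans ?_
    have e2 : (NN (j + 1) : ℝ) / (x.W j * x.W (j + 1)) *
        (NN (j + 1) * (x.W (j + 1) * (200 * x.W (j + 1) / nn (j + 1)))) =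
        200 * (x.W (j + 1) / x.W j) * (NN (j + 1) ^ 2 / nn (j + 1)) := by
      field_simp
    have c1 : x.W (j + 1) / x.W j ≤ 2 := by
      rw [div_le_iff₀ W0]
      linarith
    have c2 : (NN (j + 1) : ℝ) ^ 2 / nn (j + 1) ≤ 1 / 10 ^ 7 := by
      rw [div_le_div_iff₀ q (by norm_num)]
      linarith [nn_big hj]
    rw [e2]
    calc _ ≤ 200 * (2 : ℝ) * (1 / 10 ^ 7) := by gcongr
      _ ≤ _ := by norm_num
  rw [e, abs_le]
  obtain ⟨b1, b1'⟩ := abs_le.1 b1
  obtain ⟨b2, b2'⟩ := abs_le.1 b2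
  constructor <;> linarith

theorem yN_le (j k : ℕ) : |x.yN j k| ≤ 2000 * NN j / nn j := by
  have q := Mac2_nn_pos j
  rw [Prm.yN]
  split_ifs with h
  · have hj : 1 ≤ j := by
      by_contra hc
      obtain rfl : j = 0 := by omega
      have := NN_zero
      omega
    have a := hx.ff_le hj h.1 h.2
    have b := Mac3_small hj
    rw [mul_div_assoc] at a ⊢
    refine (Mac3_log (by linarith)).trans (by linarith)
  · rw [abs_zero]
    positivity

lemma Mac3_y {j : ℕ} (hj : 1 ≤ j) (k : ℕ) : |(x.wall j).y (nn j) k| ≤ 1 := by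
  have a := hx.Mac2_y (j := j) (k := k)
  have b := Mac3_small hj
  rw [mul_div_assoc] at a
  linarith

lemma Mac3_lr {j k : ℕ} (hj : 1 ≤ j) (h : k ≤ NN j) : |x.lr j k - ell j| ≤ 1 / 1000 := by
  refine (hx.lr_near hj h).trans (one_div_le_one_div_of_le (by norm_num) ?_)
  linarith [Mac2_nn_one j]

lemma Mac3_rc (j k : ℕ) : |nn j / x.W j * (x.wall j).c k| ≤ 1 := by
  have q := Mac2_nn_pos j
  have W0 := hx.Mac2_W_pos j
  refine (Mac3_mul (abs_of_pos (div_pos q W0)).le (hx.Mac3_c j k)).trans (le_of_eq ?_)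
  field_simp

lemma Mac3_rc' (j k : ℕ) : |nn j / x.W j * (x.wall (j + 1)).c k| ≤ 2 := by
  have q := Mac2_nn_pos j
  have q' := Mac2_nn_pos (j + 1)
  have W0 := hx.Mac2_W_pos j
  have W1 := hx.Mac2_W_pos (j + 1)
  have W2 := (hx.W_succ j).2
  have m : (nn j : ℝ) ≤ nn (j + 1) := Nat.cast_le.2 (nn_mono j)
  refine (Mac3_mul (abs_of_pos (div_pos q W0)).le (hx.Mac3_c (j + 1) k)).trans ?_
  rw [div_mul_div_comm, div_le_iff₀ (by positivity)]
  nlinarith

theorem sN_le (j a : ℕ) : |x.sN j a| ≤ 8 := by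
  rw [Prm.sN]
  split_ifs with h
  swap
  · norm_num
  obtain ⟨h1, h2⟩ := h
  have hj : 1 ≤ j := by
    by_contra hc
    obtain rfl : j = 0 := by omega
    have := Mt_zero
    omega
  have hj' : 1 ≤ j + 1 := by omega
  have hN : NN j = Lb j + Mt j := rfl
  have hN' : NN (j + 1) = Lb (j + 1) + Mt (j + 1) := rfl
  have hL : Lb (j + 1) = Mt j := rfl
  have q := Mac2_nn_pos j
  have W0 := hx.Mac2_W_pos j
  have l0 : 90000 ≤ ell j := by
    have := ell_ge j
    have : (1 : ℝ) ≤ 4 ^ j := one_le_pow₀ (by norm_num)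
    linarith
  have l1 := ell_succ j
  have k1 : 1 ≤ Lb j + a := by omega
  have k2 : Lb j + a < NN j := by omega
  have k3 : a < NN (j + 1) := by omega
  have a1 := Mac3_avg (hx.Dt_val k1 k2)
  have a2 := Mac3_avg (hx.Dt_val h1 k3)
  have o2 : x.Oc (j + 1) a = 0 := by rw [Prm.Oc, if_neg (by omega)]
  have o1 : x.Oc j (Lb j + a) = x.D2 (j + 1) a * x.lr (j + 1) a -
      (x.wall (j + 1)).c (a + 1) * (x.wall (j + 1)).y (nn (j + 1)) a +
      (x.wall (j + 1)).c (a - 1) * (x.wall (j + 1)).y (nn (j + 1)) (a - 1) := by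
    rw [Prm.Oc, if_pos (by omega), Nat.add_sub_cancel_left, x.wlr_eq (j + 1) h1]
  have t1 := hx.Mac3_t j
  have t2 : tt (j + 1) ^ 2 ≤ tt j ^ 2 :=
    pow_le_pow_left₀ (tt_pos _).le (tt_anti (Nat.le_succ j)) 2
  rw [o1, x.Ds_eq, x.g_top (by omega), x.D2_top h1 h2] at a1
  rw [o2, x.Ds_eq, x.Mac1_g, x.D2_top h1 h2] at a2
  have r1 := abs_le.1 (hx.Mac3_lr hj k2.le)
  have r2 := abs_le.1 (hx.Mac3_lr hj' k3.le)
  have g1 := abs_le.1 (hx.log_w k1 k2)
  have g2 := abs_le.1 (hx.log_w h1 k3)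
  have y1 := hx.Mac3_y hj (Lb j + a - 1)
  have y2 := hx.Mac3_y hj (Lb j + a)
  have y3 := hx.Mac3_y hj' (a - 1)
  have y4 := hx.Mac3_y hj' a
  have z1 := Mac3_lexp y1
  have z2 := Mac3_lexp ((abs_neg _).trans_le y2)
  have z3 := abs_le.1 (Mac3_lexp y3)
  have z4 := abs_le.1 (Mac3_lexp ((abs_neg _).trans_le y4))
  replace y3 := abs_le.1 y3
  replace y4 := abs_le.1 y4
  have hs : x.sTop j a = x.s j a * x.W j / nn j := rfl
  have E := abs_le.1 (a1.trans t1)
  have E' := abs_le.1 (a2.trans (t2.trans t1))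
  generalize avg (nn j) (x.Dt j (Lb j + a)) = A at E ⊢
  generalize avg (nn (j + 1)) (x.Dt (j + 1) a) = A' at E' ⊢
  clear a1 a2
  have key := Mac3_fin (p := x.lr j (Lb j + a) - Real.log (x.w j (Lb j + a)))
    (p' := x.lr (j + 1) a - Real.log (x.w (j + 1) a))
    (q1' := Real.log (1 + Real.exp ((x.wall (j + 1)).y (nn (j + 1)) (a - 1))) -
      (x.wall (j + 1)).y (nn (j + 1)) (a - 1))
    (q2' := Real.log (1 + Real.exp (-(x.wall (j + 1)).y (nn (j + 1)) a)) +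
      (x.wall (j + 1)).y (nn (j + 1)) a)
    (d := x.lr (j + 1) a - x.lr j (Lb j + a))
    (e := nn j / x.W j * ((A - (2 * (x.wall j).c (Lb j + a) *
        (x.lr j (Lb j + a) - Real.log (x.w j (Lb j + a))) + (x.sTop j a - 0) * x.lr j (Lb j + a) +
        (x.wall j).c (Lb j + a - 1) *
          Real.log (1 + Real.exp ((x.wall j).y (nn j) (Lb j + a - 1))) +
        (x.wall j).c (Lb j + a + 1) * Real.log (1 + Real.exp (-(x.wall j).y (nn j) (Lb j + a))) +
        (x.D2 (j + 1) a * x.lr (j + 1) a -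
          (x.wall (j + 1)).c (a + 1) * (x.wall (j + 1)).y (nn (j + 1)) a +
          (x.wall (j + 1)).c (a - 1) * (x.wall (j + 1)).y (nn (j + 1)) (a - 1)))) -
      (A' - (2 * (x.wall (j + 1)).c a * (x.lr (j + 1) a - Real.log (x.w (j + 1) a)) +
        (x.D2 (j + 1) a - -x.sTop j a) * x.lr (j + 1) a +
        (x.wall (j + 1)).c (a - 1) *
          Real.log (1 + Real.exp ((x.wall (j + 1)).y (nn (j + 1)) (a - 1))) +
        (x.wall (j + 1)).c (a + 1) *
          Real.log (1 + Real.exp (-(x.wall (j + 1)).y (nn (j + 1)) a)) + 0))))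
    l0 (hx.s_le j a) (hx.Mac3_rc j (Lb j + a)) (hx.Mac3_rc j (Lb j + a - 1))
    (hx.Mac3_rc j (Lb j + a + 1)) (hx.Mac3_rc' j a) (hx.Mac3_rc' j (a - 1)) (hx.Mac3_rc' j (a + 1))
    (abs_le.2 ⟨by linarith [r1.1, g1.2], by linarith [r1.2, g1.1]⟩)
    (abs_le.2 ⟨by linarith [r2.1, g2.2], by linarith [r2.2, g2.1]⟩) z1 z2
    (abs_le.2 ⟨by linarith [z3.1, y3.2], by linarith [z3.2, y3.1]⟩)
    (abs_le.2 ⟨by linarith [z4.1, y4.1], by linarith [z4.2, y4.2]⟩)
    (abs_le.2 ⟨by linarith [r1.1, r2.2], by linarith [r1.2, r2.1]⟩)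
    ((Mac3_mul (B := 2 * (x.W j / nn j)) (abs_of_pos (div_pos q W0)).le
      (abs_le.2 ⟨by linarith [E.1, E'.2], by linarith [E.2, E'.1]⟩)).trans
      (le_of_eq (by field_simp)))
  refine le_of_eq_of_le ?_ key
  congr 3
  rw [hs]
  field_simp
  ring

end InK

end Pool.Agent.MP_943ae2_gt

end
end

section

open Set Complex Filter Finset
open scoped Topology ComplexConjugate ContDiff

noncomputable section

namespace Pool.Agent.MP_943ae2_gt

theorem symm_uu : uu * conj uu = 1 := by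
  rw [mul_conj, normSq_eq_norm_sq, norm_uu]
  simp

theorem symm_pp (x : Prm) (ν : Nk) : x.dat.pos (ν, false) = x.pp ν.j ν.k ν.i := by
  simp [Dat.pos, Prm.dat]

theorem symm_rot_fix (ν : Nk) (hj : ν.j = 0) : rotN ν = ν := by
  obtain ⟨j, k, i, h1, h2⟩ := ν
  obtain rfl : j = 0 := hj
  have : Subsingleton (ZMod (nn 0)) := by
    rw [nn_zero]
    infer_instance
  show (⟨0, k, i + sh 0, h1, h2⟩ : Nk) = ⟨0, k, i, h1, h2⟩
  rw [Subsingleton.elim (i + sh 0) i]

namespace InK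

variable {x : Prm} (hx : InK x)
include hx

theorem symm_bq_rot (j k : ℕ) (i : ZMod (nn j)) : x.bq j k (i + sh j) = x.bq j k i := by
  simp only [Prm.bq, Wall.bq, hx.ε_rot]

theorem symm_bq_refl (j k : ℕ) (i : ZMod (nn j)) : x.bq j k (-i - k) = x.bq j k i := by
  simp only [Prm.bq, Wall.bq, hx.ε_refl]

theorem Ft_rot (j k : ℕ) (i : ZMod (nn j)) : x.Ft j k (i + sh j) = x.Ft j k i := by
  unfold Prm.Ft Prm.ext
  split_ifs with h
  · let ν : Nk := ⟨j, k, i, h.1, h.2⟩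
    obtain ⟨h1, h2, -⟩ := rot_all hx.adm perm_rot hx.dat_rot (ν, false)
    have h3 := hx.dat_rot.pos (ν, false)
    have h4 : x.pp j k (i + sh j) = uu * x.pp j k i := by
      rw [symm_pp] at h3
      exact (symm_pp x (rotN ν)).symm.trans h3
    show x.pp j k (i + sh j) * (conj (frm.ra x.dat (sd rotN (ν, false))) +
      frm.rb x.dat (sd rotN (ν, false))) / (2 * x.bq j k (i + sh j)) =
      x.pp j k i * (conj (frm.ra x.dat (ν, false)) + frm.rb x.dat (ν, false)) / (2 * x.bq j k i)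
    rw [h1, h2, h4, hx.symm_bq_rot, map_mul]
    congr 1
    linear_combination
      (x.pp j k i * (conj (frm.ra x.dat (ν, false)) + frm.rb x.dat (ν, false))) * symm_uu
  · rfl

theorem Ft_refl (j k : ℕ) (i : ZMod (nn j)) : x.Ft j k (-i - k) = conj (x.Ft j k i) := by
  unfold Prm.Ft Prm.ext
  split_ifs with h
  · let ν : Nk := ⟨j, k, i, h.1, h.2⟩
    obtain ⟨h1, h2, -⟩ := refl_all hx.adm perm_refl hx.dat_refl (ν, false)
    have h3 := hx.dat_refl.pos (ν, false)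
    have h4 : x.pp j k (-i - k) = conj (x.pp j k i) := by
      rw [symm_pp] at h3
      exact (symm_pp x (reflN ν)).symm.trans h3
    show x.pp j k (-i - k) * (conj (frm.ra x.dat (sd reflN (ν, false))) +
      frm.rb x.dat (sd reflN (ν, false))) / (2 * x.bq j k (-i - k)) =
      conj (x.pp j k i * (conj (frm.ra x.dat (ν, false)) + frm.rb x.dat (ν, false)) /
        (2 * x.bq j k i))
    rw [h1, h2, h4, hx.symm_bq_refl]
    simp only [map_div₀, map_mul, map_add, conj_ofReal, map_ofNat]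
  · exact (map_zero _).symm

theorem Dt_rot (j k : ℕ) (i : ZMod (nn j)) : x.Dt j k (i + sh j) = x.Dt j k i := by
  unfold Prm.Dt Prm.ext
  split_ifs with h
  · let ν : Nk := ⟨j, k, i, h.1, h.2⟩
    exact congrArg₂ (· - ·) (rot_all hx.adm perm_rot hx.dat_rot (ν, false)).2.2.2.2
      (rot_all hx.adm perm_rot hx.dat_rot (ν, true)).2.2.2.2
  · rfl

theorem Dt_refl (j k : ℕ) (i : ZMod (nn j)) : x.Dt j k (-i - k) = x.Dt j k i := by
  unfold Prm.Dt Prm.ext
  split_ifs with h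
  · let ν : Nk := ⟨j, k, i, h.1, h.2⟩
    exact congrArg₂ (· - ·) (refl_all hx.adm perm_refl hx.dat_refl (ν, false)).2.2.2.2
      (refl_all hx.adm perm_refl hx.dat_refl (ν, true)).2.2.2.2
  · rfl

theorem avgC_Ft (j k : ℕ) : avgC (nn j) (x.Ft j k) = (avg (nn j) fun i => (x.Ft j k i).re : ℝ) := by
  have h1 : ∑ i, x.Ft j k i = conj (∑ i, x.Ft j k i) := by
    rw [map_sum]
    refine (Fintype.sum_equiv ((Equiv.neg _).trans (Equiv.subRight (k : ZMod (nn j)))) _ _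
      fun i => ?_).symm
    exact (hx.Ft_refl j k i).symm
  have h2 : ∑ i, x.Ft j k i = ((∑ i, (x.Ft j k i).re : ℝ) : ℂ) := by
    rw [← re_sum]
    exact (conj_eq_iff_re.1 h1.symm).symm
  rw [avgC, avg, h2, ofReal_div, ofReal_natCast]

theorem hor_zero (ν : Nk) (hj : ν.j = 0) :
    conj (frm.ra x.dat (ν, false)) + frm.rb x.dat (ν, false) = 0 := by
  obtain ⟨h1, h2, -⟩ := rot_all hx.adm perm_rot hx.dat_rot (ν, false)
  rw [sd, symm_rot_fix ν hj] at h1 h2
  have h3 : conj uu ≠ 1 := fun h => uu_ne (by simpa using congrArg conj h)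
  have h4 : frm.ra x.dat (ν, false) = 0 :=
    (mul_eq_zero.1 (by linear_combination h1 : (1 - uu) * frm.ra x.dat (ν, false) = 0)).resolve_left
      (sub_ne_zero.2 uu_ne.symm)
  have h5 : frm.rb x.dat (ν, false) = 0 :=
    (mul_eq_zero.1 (by linear_combination h2 :
      (1 - conj uu) * frm.rb x.dat (ν, false) = 0)).resolve_left (sub_ne_zero.2 h3.symm)
  rw [h4, h5, map_zero, add_zero]

end InK

end Pool.Agent.MP_943ae2_gt

end
end

section

open Set Complex Filter Finset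
open scoped Topology ComplexConjugate ContDiff

noncomputable section

namespace Pool.Agent.MP_943ae2_gt

lemma Map_out {K : Type} [Zero K] (f : Nk → K) {j k : ℕ} (h : k = 0 ∨ NN j ≤ k) :
    Prm.ext f j k = fun _ => 0 := funext fun _ => dif_neg (by omega)

lemma Map_ext {K : Type} [Zero K] (f : Nk → K) {P : ∀ j, ℕ → (ZMod (nn j) → K) → Prop} (j k : ℕ)
    (h0 : P j k fun _ => 0)
    (h1 : ∀ (h1 : 1 ≤ k) (h2 : k < NN j), P j k fun i => f ⟨j, k, i, h1, h2⟩) :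
    P j k (Prm.ext f j k) := by
  by_cases h : 1 ≤ k ∧ k < NN j
  · convert h1 h.1 h.2 with i
    exact dif_pos h
  · rwa [Map_out f (by omega)]

lemma Map_nsq (x : Prm) (j : ℕ) :
    (x.wall j).nsq (nn j) (x.ξN j) (x.εN j) ≤ (tt j ^ 3) ^ 2 := by
  set Q := (x.wall j).nsq (nn j) (x.ξ j + x.vξ j) (x.ε j + x.vε j) with hQ
  have h0 : 0 ≤ Q := sum_nonneg fun _ _ => sum_nonneg fun _ _ => by positivity
  have h1 : (x.wall j).nsq (nn j) (x.ξN j) (x.εN j) = (x.sc j * √Q) ^ 2 := by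
    rw [mul_pow, Real.sq_sqrt h0, hQ]
    simp only [Wall.nsq, mul_sum, Prm.ξN, Prm.εN, norm_mul, mul_pow, norm_real, Real.norm_eq_abs,
      sq_abs, mul_add (x.sc j ^ 2), Pi.add_apply]
  have h2 : 0 < tt j ^ 3 := pow_pos (tt_pos j) 3
  have h3 : 0 < max (tt j ^ 3) √Q := lt_max_of_lt_left h2
  rw [h1, Prm.sc, ← hQ]
  refine pow_le_pow_left₀ (by positivity) ?_ 2
  rw [div_mul_eq_mul_div, div_le_iff₀ h3]
  exact mul_le_mul_of_nonneg_left (le_max_right _ _) h2.le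

theorem InK.phi {x : Prm} (hx : InK x) : InK x.Phi := by
  have hn : ∀ j, (nn j : ℝ) ≠ 0 := fun j => Nat.cast_ne_zero.2 (NeZero.ne _)
  have hn' : ∀ j, (nn j : ℂ) ≠ 0 := fun j => Nat.cast_ne_zero.2 (NeZero.ne _)
  have hr := rot_all hx.adm perm_rot hx.dat_rot
  have hf := refl_all hx.adm perm_refl hx.dat_refl
  let fi : Nk → ℝ := fun ν => x.io ν.j ν.k ν.i + (frm.rab x.dat (ν, false)).im
  let fd : Nk → ℂ := fun ν =>
    x.de ν.j ν.k ν.i + (frm.Jh x.dat (ν, false) - frm.Jh x.dat (ν, true))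
  refine ⟨hx.uN_mem, hx.sN_le, hx.yN_le, fun j k i h => ?_, fun j k i h => ?_, Map_nsq x,
    fun j k => ?_, fun j k => ?_, fun j k => ?_, fun j k => ?_, fun j k i => ?_, fun j k i => ?_,
    fun j k => ?_, fun j k => ?_, fun j k i => ?_, fun j k i => ?_, fun j k => ?_, fun j k => ?_⟩
  · change x.ξN j k i = 0
    simp [Prm.ξN, Prm.vξ, Prm.Ft, hx.ξ_out j k i h, Map_out _ h, avgC]
  · change x.εN j k i = 0
    simp [Prm.εN, Prm.vε, Prm.Dt, hx.ε_out j k i h, Map_out _ h, avg]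
  · change ∑ i, x.ξN j k i = 0
    simp only [Prm.ξN, Prm.vξ, ← mul_sum, sum_add_distrib, sum_sub_distrib, hx.ξ_mean, avgC,
      sum_const, card_univ, ZMod.card, nsmul_eq_mul, mul_div_cancel₀ _ (hn' j)]
    simp
  · change ∑ i, x.εN j k i = 0
    simp only [Prm.εN, Prm.vε, ← mul_sum, sum_add_distrib, sum_neg_distrib, sum_sub_distrib,
      hx.ε_mean, avg, sum_const, card_univ, ZMod.card, nsmul_eq_mul, mul_div_cancel₀ _ (hn j)]
    simp
  · have ht := tt_pos j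
    refine Map_ext fi (P := fun j _ g => ∀ i, |g i| ≤ tt j ^ 28) j k
      (fun _ => by rw [abs_zero]; positivity) fun h1 h2 i => ?_
    have e1 := hx.adm.rab_est (⟨j, k, i, h1, h2⟩, false)
    have e2 : ‖x.dat.bet (⟨j, k, i, h1, h2⟩, false)‖ ≤ (tt j)⁻¹ := hx.adm.bet_le _
    refine le_trans (le_of_eq ?_) ((abs_im_le_norm _).trans (e1.trans ?_))
    · simp [fi, Prm.dat, add_comm]
    · change 10 * _ * tt j ^ 30 ≤ _
      calc _ ≤ 10 * (tt j)⁻¹ * tt j ^ 30 := by gcongr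
        _ = 10 * tt j * tt j ^ 28 := by field_simp
        _ ≤ 1 * tt j ^ 28 := by gcongr; linarith [tt_le j]
        _ = _ := one_mul _
  · have ht := tt_pos j
    refine Map_ext fd (P := fun j _ g => ∀ i, ‖g i‖ ≤ (tt j)⁻¹ ^ 3) j k
      (fun _ => by rw [norm_zero]; positivity) fun h1 h2 i => ?_
    have e1 : _ ≤ (tt j)⁻¹ ^ 2 := hx.adm.Jh_est (⟨j, k, i, h1, h2⟩, false)
    have e2 : _ ≤ (tt j)⁻¹ ^ 2 := hx.adm.Jh_est (⟨j, k, i, h1, h2⟩, true)
    refine le_trans (le_of_eq ?_) ((norm_sub_le _ _).trans ((add_le_add e1 e2).trans ?_))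
    · congr 1
      simp only [fd, Dat.pos, Prm.dat, Bool.false_eq_true, if_false, if_true]
      ring
    · have : 2 ≤ (tt j)⁻¹ := by
        rw [le_inv_comm₀ two_pos ht]; linarith [tt_le j]
      rw [← two_mul, pow_succ' _ 2]
      gcongr
  · change x.ξN j k _ = x.ξN j k i
    simp only [Prm.ξN, Prm.vξ, hx.ξ_rot, hx.Ft_rot]
  · change x.εN j k _ = x.εN j k i
    simp only [Prm.εN, Prm.vε, hx.ε_rot, hx.Dt_rot]
  · refine Map_ext fi (P := fun j _ g => ∀ i, g (i + sh j) = g i) j k (fun _ => rfl)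
      fun h1 h2 i => ?_
    exact congrArg₂ (· + ·) (hx.io_rot j k i) (congrArg im (hr (⟨j, k, i, h1, h2⟩, false)).2.2.1)
  · refine Map_ext fd (P := fun j _ g => ∀ i, g (i + sh j) = uu * g i) j k
      (fun _ => (mul_zero _).symm) fun h1 h2 i => ?_
    simp only [fd, mul_add, mul_sub]
    exact congrArg₂ (· + ·) (hx.de_rot j k i) (congrArg₂ (· - ·)
      (hr (⟨j, k, i, h1, h2⟩, false)).2.2.2.1 (hr (⟨j, k, i, h1, h2⟩, true)).2.2.2.1)
  · change x.ξN j k _ = conj (x.ξN j k i)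
    simp only [Prm.ξN, Prm.vξ, hx.ξ_refl, hx.Ft_refl, hx.avgC_Ft, map_mul, map_add, map_sub,
      conj_ofReal]
  · change x.εN j k _ = x.εN j k i
    simp only [Prm.εN, Prm.vε, hx.ε_refl, hx.Dt_refl]
  · refine Map_ext fi (P := fun j k g => ∀ i, g (-i - k) = -g i) j k (fun _ => neg_zero.symm)
      fun h1 h2 i => ?_
    simp only [fi, neg_add, ← conj_im]
    exact congrArg₂ (· + ·) (hx.io_refl j k i) (congrArg im (hf (⟨j, k, i, h1, h2⟩, false)).2.2.1)
  · refine Map_ext fd (P := fun j k g => ∀ i, g (-i - k) = conj (g i)) j k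
      (fun _ => (map_zero _).symm) fun h1 h2 i => ?_
    simp only [fd, map_add, map_sub]
    exact congrArg₂ (· + ·) (hx.de_refl j k i) (congrArg₂ (· - ·)
      (hf (⟨j, k, i, h1, h2⟩, false)).2.2.2.1 (hf (⟨j, k, i, h1, h2⟩, true)).2.2.2.1)

end Pool.Agent.MP_943ae2_gt

end
end

section

open Set Complex Filter Finset
open scoped Topology ComplexConjugate ContDiff

noncomputable section

namespace Pool.Agent.MP_943ae2_gt

lemma Fix1_th {f : ℝ} (h : |f| < 1 / 2) :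
    th (Real.log ((1 + 2 * f) / (1 - 2 * f))) = 1 / 2 + f := by
  obtain ⟨h1, h2⟩ := abs_lt.1 h
  have a : 0 < 1 + 2 * f := by linarith
  have b : 0 < 1 - 2 * f := by linarith
  unfold th
  rw [Real.exp_neg, Real.exp_log (div_pos a b)]
  field_simp
  ring

lemma Fix1_nsq (w : Wall) (n : ℕ) [NeZero n] {ξ ξ' : ℕ → ZMod n → ℂ} {ε ε' : ℕ → ZMod n → ℝ}
    (s : ℝ) (h1 : ∀ k i, ξ k i = s * ξ' k i) (h2 : ∀ k i, ε k i = s * ε' k i) :
    w.nsq n ξ ε = s ^ 2 * w.nsq n ξ' ε' := by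
  unfold Wall.nsq
  rw [mul_sum]
  refine sum_congr rfl fun k _ => ?_
  rw [mul_sum]
  refine sum_congr rfl fun i _ => ?_
  rw [h1, h2, norm_mul, norm_real, Real.norm_eq_abs, mul_pow, mul_pow, sq_abs]
  ring

lemma Fix1_num {t P : ℝ} (ht : 0 < t) (ht1 : t ≤ 1 / 1000) (hP : 1 ≤ P) (h : P ^ 60 * t ≤ 1) :
    -((P ^ 2)⁻¹ ^ 2 * (t ^ 3) ^ 2) + (P ^ 2) ^ 11 * (t ^ 3) ^ 3 + t ^ 2 * (t ^ 3) ^ 2 +
      P ^ 2 * (P ^ 2 * (2 * P ^ 2 * t ^ 9)) ≤ 0 := by
  have P0 : 0 < P := by linarith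
  have hm : ∀ m : ℕ, m ≤ 60 → P ^ m * t ≤ 1 := fun m hm =>
    le_trans (mul_le_mul_of_nonneg_right (pow_le_pow_right₀ hP hm) ht.le) h
  have a1 : P ^ 26 * t ^ 3 ≤ 1 / 4 := by
    have := mul_le_mul (hm 26 (by norm_num)) (show t ^ 2 ≤ 1 / 4 by nlinarith) (by positivity)
      zero_le_one
    calc _ = P ^ 26 * t * t ^ 2 := by ring
      _ ≤ _ := by linarith
  have a2 : P ^ 4 * t ^ 2 ≤ 1 / 4 := by
    have := mul_le_mul (hm 4 (by norm_num)) (show t ≤ 1 / 4 by linarith) (by positivity)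
      zero_le_one
    calc _ = P ^ 4 * t * t := by ring
      _ ≤ _ := by linarith
  have a3 : P ^ 10 * t ^ 3 ≤ 1 / 4 := by
    have := mul_le_mul (hm 10 (by norm_num)) (show t ^ 2 ≤ 1 / 4 by nlinarith) (by positivity)
      zero_le_one
    calc _ = P ^ 10 * t * t ^ 2 := by ring
      _ ≤ _ := by linarith
  have e : -((P ^ 2)⁻¹ ^ 2 * (t ^ 3) ^ 2) + (P ^ 2) ^ 11 * (t ^ 3) ^ 3 + t ^ 2 * (t ^ 3) ^ 2 +
      P ^ 2 * (P ^ 2 * (2 * P ^ 2 * t ^ 9)) =
      (P ^ 4)⁻¹ * t ^ 6 * (-1 + P ^ 26 * t ^ 3 + P ^ 4 * t ^ 2 + 2 * (P ^ 10 * t ^ 3)) := by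
    field_simp
  rw [e]
  exact mul_nonpos_of_nonneg_of_nonpos (by positivity) (by linarith)

lemma Fix1_sc (x : Prm) (j : ℕ) : 0 < x.sc j ∧ x.sc j ≤ 1 := by
  have h : 0 < tt j ^ 3 := pow_pos (tt_pos j) 3
  have h' := lt_of_lt_of_le h (le_max_left _
    √((x.wall j).nsq (nn j) (x.ξ j + x.vξ j) (x.ε j + x.vε j)))
  exact ⟨div_pos h h', (div_le_one h').2 (le_max_left _ _)⟩

variable {x : Prm} (hx : InK x) (hf : x.Phi = x)
include hx hf

lemma Fix1_sum {j : ℕ} (hj : 1 ≤ j) : ∑ i ∈ Ico 1 (NN j), x.w j i * x.eta j i = 0 := by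
  have h : x.uN j = x.u j := congrFun (congrArg Prod.fst hf) j
  unfold Prm.uN at h
  rw [if_neg (by omega), sub_eq_self] at h
  have p1 := hx.Mac2_W_pos j
  have p2 := hx.Mac2_W_pos (j - 1)
  have p3 := Mac2_Lb_one j
  exact (mul_eq_zero.1 h).resolve_left (by positivity)

lemma Fix1_psi {j k : ℕ} (hj : 1 ≤ j) (h2 : k < NN j) :
    x.psi j k = ∑ i ∈ Ico 1 (k + 1), x.w j i * x.eta j i := by
  unfold Prm.psi
  split_ifs
  · rfl
  · have h := Fix1_sum hx hf hj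
    rw [← sum_Ico_consecutive _ (show 1 ≤ k + 1 by omega) (show k + 1 ≤ NN j by omega)] at h
    have e : Finset.Ioo k (NN j) = Finset.Ico (k + 1) (NN j) := by
      ext i; simp only [Finset.mem_Ioo, Finset.mem_Ico]; omega
    rw [e]
    linarith

lemma Fix1_A {j k : ℕ} (hj : 1 ≤ j) (h2 : k < NN j) :
    x.w j k * x.w j (k + 1) * th ((x.wall j).y (nn j) k) =
      x.w j k * x.w j (k + 1) / 2 + x.psi j k := by
  rcases Nat.eq_zero_or_pos k with rfl | h1
  · rw [Fix1_psi hx hf hj h2, x.w_zero]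
    simp
  rcases eq_or_lt_of_le (show k + 1 ≤ NN j by omega) with h3 | h3
  · rw [Fix1_psi hx hf hj h2, x.w_out h3.ge, h3, Fix1_sum hx hf hj]
    simp
  have h : x.yN j k = x.y j k := congrFun (congrFun (congrArg (fun p : Prm => p.2.2.1) hf) j) k
  unfold Prm.yN at h
  rw [if_pos ⟨h1, h3⟩] at h
  have q := Mac2_nn_pos j
  have N1 : (1 : ℝ) ≤ NN j := Nat.one_le_cast.2 (by omega)
  have hff : |x.ff j k| < 1 / 2 := by
    refine (hx.ff_le hj h1 h3).trans_lt ?_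
    rw [div_lt_iff₀ q]
    nlinarith [nn_big hj]
  have Pi : 0 < (PP j)⁻¹ := inv_pos.2 (admM_PP_pos j)
  have w1 := Pi.trans_le (hx.Mac2_w_ge h1 h2)
  have w2 := Pi.trans_le (hx.Mac2_w_ge (k := k + 1) (by omega) h3)
  rw [x.wall_y h1, ← h, Fix1_th hff]
  unfold Prm.ff
  field_simp

theorem fix_macro {j k : ℕ} (hj : 1 ≤ j) (h1 : 1 ≤ k) (h2 : k < NN j) :
    (x.wall j).Em (nn j) k = x.err j k := by
  have Pi : 0 < (PP j)⁻¹ := inv_pos.2 (admM_PP_pos j)
  have w1 := Pi.trans_le (hx.Mac2_w_ge h1 h2)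
  have a1 := Fix1_A hx hf hj h2
  have a2 := Fix1_A hx hf hj (k := k - 1) (by omega)
  have a3 := Fix1_psi hx hf hj h2
  have a4 := Fix1_psi hx hf hj (k := k - 1) (by omega)
  rw [Nat.sub_add_cancel h1] at a2 a4
  rw [sum_Ico_succ_top h1, ← a4] at a3
  have a5 : x.eta j k = (x.wall j).g k - (x.w j (k + 1) - 2 * x.w j k + x.w j (k - 1)) / 2 -
      (x.wall j).c k - x.err j k := rfl
  refine mul_left_cancel₀ w1.ne' ?_
  unfold Wall.Em
  rw [x.n_mul_c, x.n_mul_c, x.n_mul_c]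
  rw [a5] at a3
  linear_combination a2 - a1 - a3

omit hf in
lemma Fix1_pair (j : ℕ) : (x.wall j).pair (nn j) (x.ξ j) (x.ε j) (x.Ft j) (x.Dt j) =
    ∑ k ∈ Ico 1 (NN j), ∑ i, ((conj (x.ξ j k i) * x.vξ j k i).re + x.ε j k i * x.vε j k i) := by
  refine sum_congr rfl fun k _ => ?_
  have z : ∑ i, ((x.wall j).c k * (conj (x.ξ j k i) * avgC (nn j) (x.Ft j k)).re -
      x.ε j k i * avg (nn j) (x.Dt j k)) = 0 := by
    rw [sum_sub_distrib, ← mul_sum, ← sum_mul, ← re_sum, ← sum_mul, ← map_sum, hx.ξ_mean,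
      hx.ε_mean]
    simp
  rw [← sub_zero (∑ i, _), ← z, ← sum_sub_distrib]
  refine sum_congr rfl fun i _ => ?_
  unfold Prm.vξ Prm.vε
  rw [mul_left_comm, re_ofReal_mul, mul_sub (conj _), sub_re]
  ring

omit hf in
lemma Fix1_le {j : ℕ} (hj : 1 ≤ j) : (x.wall j).pair (nn j) (x.ξ j) (x.ε j) (x.Ft j) (x.Dt j) ≤
    (x.wall j).pair (nn j) (x.ξ j) (x.ε j) ((x.wall j).Fw (nn j) (x.ξ j) (x.ε j))
      ((x.wall j).Dw (nn j) (x.ξ j) (x.ε j)) +
      PP j ^ 2 * (PP j ^ 2 * (2 * PP j ^ 2 * tt j ^ 9)) := by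
  have hb := hx.wall_bd hj
  have t0 := tt_pos j
  have P1 : 1 ≤ PP j ^ 2 := by linarith [hb.P_ge]
  have h2 : ∑ _k ∈ Ico 1 (NN j), ∑ _i : ZMod (nn j), 2 * PP j ^ 2 * tt j ^ 9 ≤
      PP j ^ 2 * (PP j ^ 2 * (2 * PP j ^ 2 * tt j ^ 9)) := by
    rw [sum_const, sum_const, card_univ, ZMod.card, Nat.card_Ico, nsmul_eq_mul, nsmul_eq_mul]
    have c1 : ((NN j - 1 : ℕ) : ℝ) ≤ PP j ^ 2 := (Nat.cast_le.2 (Nat.sub_le _ _)).trans hb.N_le
    have c2 := hb.n_le
    gcongr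
  refine le_trans ?_ (add_le_add_right h2 _)
  unfold Wall.pair
  rw [show (x.wall j).N = NN j from rfl, ← sum_add_distrib]
  refine sum_le_sum fun k hk => ?_
  obtain ⟨k1, k2⟩ := Finset.mem_Ico.1 hk
  have z : ∑ i, -(x.ε j k i * x.Oc j k) = 0 := by
    rw [sum_neg_distrib, ← sum_mul, hx.ε_mean]
    simp
  rw [← sum_add_distrib, ← add_zero (∑ i, (_ + 2 * PP j ^ 2 * tt j ^ 9)), ← z, ← sum_add_distrib]
  refine sum_le_sum fun i _ => ?_
  have a1 := hx.Ft_err hj k1 k2 i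
  have a2 := hx.Dt_err k1 k2 i
  obtain ⟨RF, hRF⟩ : ∃ RF, RF = x.Ft j k i - (x.wall j).Fw (nn j) (x.ξ j) (x.ε j) k i := ⟨_, rfl⟩
  obtain ⟨RD, hRD⟩ : ∃ RD, RD = x.Dt j k i -
    ((x.wall j).Dw (nn j) (x.ξ j) (x.ε j) k i + x.Oc j k) := ⟨_, rfl⟩
  rw [← hRF] at a1
  rw [← hRD] at a2
  have b1 : (x.wall j).c k * (conj (x.ξ j k i) * RF).re ≤ PP j ^ 2 * (tt j ^ 3 * tt j ^ 6) := by
    refine (le_abs_self _).trans ?_
    rw [abs_mul]
    refine mul_le_mul (W2_c hb k) ((abs_re_le_norm _).trans ?_) (abs_nonneg _) (by positivity)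
    rw [norm_mul, RCLike.norm_conj]
    exact mul_le_mul (hx.ξ_le j k i) a1 (norm_nonneg _) (by positivity)
  have b2 : -(x.ε j k i * RD) ≤ tt j ^ 3 * tt j ^ 6 := by
    refine (neg_le_abs _).trans ?_
    rw [abs_mul]
    exact mul_le_mul (hx.ε_le j k i) a2 (abs_nonneg _) (by positivity)
  have b3 : tt j ^ 3 * tt j ^ 6 ≤ PP j ^ 2 * (tt j ^ 3 * tt j ^ 6) :=
    le_mul_of_one_le_left (by positivity) P1
  rw [show x.Ft j k i = (x.wall j).Fw (nn j) (x.ξ j) (x.ε j) k i + RF by rw [hRF]; ring,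
    show x.Dt j k i = (x.wall j).Dw (nn j) (x.ξ j) (x.ε j) k i + x.Oc j k + RD by rw [hRD]; ring]
  simp only [mul_add, add_re]
  have e : PP j ^ 2 * (tt j ^ 3 * tt j ^ 6) = PP j ^ 2 * tt j ^ 9 := by ring
  linarith

lemma Fix1_neg {j : ℕ} (hj : 2 ≤ j)
    (hn : (x.wall j).nsq (nn j) (x.ξ j) (x.ε j) = (tt j ^ 3) ^ 2) :
    (x.wall j).pair (nn j) (x.ξ j) (x.ε j) (x.Ft j) (x.Dt j) ≤ 0 := by
  have hj1 : 1 ≤ j := by omega
  have t0 := tt_pos j
  have P0 := admM_PP_pos j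
  have hr : tt j ^ 3 ≤ (PP j ^ 2)⁻¹ ^ 20 := by
    rw [inv_pow, ← pow_mul, ← one_div, le_div_iff₀ (by positivity)]
    have a := admM_pow_tt j (m := 40) (by norm_num)
    have b : tt j ^ 2 ≤ 1 := pow_le_one₀ t0.le (admM_tt_one j)
    calc _ = PP j ^ 40 * tt j * tt j ^ 2 := by ring
      _ ≤ 1 * 1 := mul_le_mul a b (by positivity) zero_le_one
      _ = 1 := one_mul 1
  have h1 := wall_neg (hx.wall_bd hj1) (hx.wall_shape hj) (hx.wall_pert hj1) (E := tt j ^ 2)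
    (by positivity) hr hn fun k k1 k2 => by
      rw [fix_macro hx hf hj1 k1 k2]
      exact hx.err_le hj1 k1 k2
  have h2 := Fix1_le hx hj1
  have h3 := Fix1_num t0 (tt_le j) (admM_PP_one j) (PP_tt j)
  linarith

theorem fix_micro (j k : ℕ) (i : ZMod (nn j)) : x.vξ j k i = 0 ∧ x.vε j k i = 0 := by
  have hξ : ∀ k i, x.ξ j k i = x.sc j * (x.ξ j k i + x.vξ j k i) := fun k i =>
    (congrFun (congrFun (congrFun (congrArg (fun p : Prm => p.2.2.2.1) hf) j) k) i).symm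
  have hε : ∀ k i, x.ε j k i = x.sc j * (x.ε j k i + x.vε j k i) := fun k i =>
    (congrFun (congrFun (congrFun (congrArg (fun p : Prm => p.2.2.2.2.1) hf) j) k) i).symm
  obtain ⟨s0, s1⟩ := Fix1_sc x j
  have s2 : (x.sc j : ℂ) ≠ 0 := ofReal_ne_zero.2 s0.ne'
  by_cases hj : j ≤ 5
  · obtain ⟨m1, m2⟩ := hx.micro_zero hj
    have a := hξ k i
    have b := hε k i
    rw [m1] at a
    rw [m2] at b
    simp only [Pi.zero_apply, zero_add] at a b
    exact ⟨(mul_eq_zero.1 a.symm).resolve_left s2, (mul_eq_zero.1 b.symm).resolve_left s0.ne'⟩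
  rcases eq_or_lt_of_le s1 with s3 | s3
  · have a := hξ k i
    have b := hε k i
    rw [s3] at a b
    rw [ofReal_one, one_mul] at a
    rw [one_mul] at b
    exact ⟨left_eq_add.1 a, left_eq_add.1 b⟩
  exfalso
  have t3 : 0 < tt j ^ 3 := pow_pos (tt_pos j) 3
  have hn : (x.wall j).nsq (nn j) (x.ξ j) (x.ε j) = (tt j ^ 3) ^ 2 := by
    rw [Fix1_nsq (x.wall j) (nn j) (ξ' := x.ξ j + x.vξ j) (ε' := x.ε j + x.vε j) (x.sc j) hξ hε]
    unfold Prm.sc at s3 ⊢
    generalize (x.wall j).nsq (nn j) (x.ξ j + x.vξ j) (x.ε j + x.vε j) = Q at s3 ⊢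
    rcases le_total √Q (tt j ^ 3) with h | h
    · rw [max_eq_left h, div_self t3.ne'] at s3
      exact absurd s3 (lt_irrefl _)
    · have q0 : 0 < √Q := t3.trans_le h
      rw [max_eq_right h, div_pow, Real.sq_sqrt (Real.sqrt_pos.1 q0).le,
        div_mul_cancel₀ _ (Real.sqrt_pos.1 q0).ne']
  have h1 := Fix1_neg hx hf (by omega) hn
  have h2 : x.sc j * (x.wall j).pair (nn j) (x.ξ j) (x.ε j) (x.Ft j) (x.Dt j) =
      (1 - x.sc j) * (x.wall j).nsq (nn j) (x.ξ j) (x.ε j) := by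
    rw [Fix1_pair hx, mul_sum]
    unfold Wall.nsq
    rw [mul_sum]
    refine sum_congr rfl fun k _ => ?_
    rw [mul_sum, mul_sum]
    refine sum_congr rfl fun i _ => ?_
    have a : (x.sc j : ℂ) * x.vξ j k i = ((1 - x.sc j : ℝ) : ℂ) * x.ξ j k i := by
      push_cast
      linear_combination -hξ k i
    have b : x.sc j * x.vε j k i = (1 - x.sc j) * x.ε j k i := by
      linear_combination -hε k i
    rw [mul_add, ← re_ofReal_mul, mul_left_comm, a, mul_left_comm (conj _), re_ofReal_mul,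
      conj_mul', mul_left_comm (x.sc j), b, ← ofReal_pow, ofReal_re]
    ring
  rw [hn] at h2
  have h3 : 0 < (1 - x.sc j) * (tt j ^ 3) ^ 2 := mul_pos (by linarith) (by positivity)
  have h4 := mul_nonpos_of_nonneg_of_nonpos s0.le h1
  linarith

end Pool.Agent.MP_943ae2_gt

end
end

section

open Set Complex Filter Finset
open scoped Topology ComplexConjugate ContDiff

noncomputable section

namespace Pool.Agent.MP_943ae2_gt

section Aux

variable {Y : Type} [TopologicalSpace Y] {X : Y → Prm}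

lemma Cont_u (hX : Continuous X) (j : ℕ) : Continuous fun y => (X y).u j :=
  (continuous_apply j).comp hX.fst

lemma Cont_s (hX : Continuous X) (j a : ℕ) : Continuous fun y => (X y).s j a :=
  (continuous_apply a).comp ((continuous_apply j).comp hX.snd.fst)

lemma Cont_y (hX : Continuous X) (j a : ℕ) : Continuous fun y => (X y).y j a :=
  (continuous_apply a).comp ((continuous_apply j).comp hX.snd.snd.fst)

lemma Cont_xi (hX : Continuous X) (j k : ℕ) (i : ZMod (nn j)) :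
    Continuous fun y => (X y).ξ j k i :=
  (continuous_apply i).comp ((continuous_apply k).comp
    ((continuous_apply j).comp hX.snd.snd.snd.fst))

lemma Cont_eps (hX : Continuous X) (j k : ℕ) (i : ZMod (nn j)) :
    Continuous fun y => (X y).ε j k i :=
  (continuous_apply i).comp ((continuous_apply k).comp
    ((continuous_apply j).comp hX.snd.snd.snd.snd.fst))

lemma Cont_io (hX : Continuous X) (j k : ℕ) (i : ZMod (nn j)) :
    Continuous fun y => (X y).io j k i :=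
  (continuous_apply i).comp ((continuous_apply k).comp
    ((continuous_apply j).comp hX.snd.snd.snd.snd.snd.fst))

lemma Cont_de (hX : Continuous X) (j k : ℕ) (i : ZMod (nn j)) :
    Continuous fun y => (X y).de j k i :=
  (continuous_apply i).comp ((continuous_apply k).comp
    ((continuous_apply j).comp hX.snd.snd.snd.snd.snd.snd))

lemma Cont_W (hX : Continuous X) (j : ℕ) : Continuous fun y => (X y).W j := by
  induction j with
  | zero => exact continuous_const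
  | succ j ih => exact ih.mul (Cont_u hX (j + 1))

lemma Cont_sTop (hX : Continuous X) (j a : ℕ) : Continuous fun y => (X y).sTop j a :=
  ((Cont_s hX j a).mul (Cont_W hX j)).div_const _

lemma Cont_sBot (hX : Continuous X) (j a : ℕ) : Continuous fun y => (X y).sBot j a :=
  (Cont_sTop hX (j - 1) a).neg.sub ((Cont_W hX j).div_const _)

lemma Cont_prof {s : Y → ℕ → ℝ} (hs : ∀ l, Continuous fun y => s y l) (m a : ℕ) :
    Continuous fun y => prof (s y) m a :=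
  continuous_finsetSum _ fun _ _ => (continuous_finsetSum _ fun l _ => hs l).sub
    ((continuous_finsetSum _ fun _ _ => continuous_finsetSum _ fun l _ => hs l).div_const _)

lemma Cont_w (hX : Continuous X) (j k : ℕ) : Continuous fun y => (X y).w j k := by
  unfold Prm.w
  split_ifs
  · exact (((Cont_W hX j).mul continuous_const).div_const _).add
      (Cont_prof (s := fun y => (X y).sBot j) (Cont_sBot hX j) _ _)
  · exact (((Cont_W hX j).mul continuous_const).div_const _).add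
      (Cont_prof (s := fun y => (X y).sTop j) (Cont_sTop hX j) _ _)
  · exact continuous_const

lemma Cont_D2 (hX : Continuous X) (j k : ℕ) : Continuous fun y => (X y).D2 j k :=
  ((Cont_w hX j (k + 1)).sub (continuous_const.mul (Cont_w hX j k))).add (Cont_w hX j (k - 1))

lemma Cont_lr (hX : Continuous X) (j k : ℕ) : Continuous fun y => (X y).lr j k :=
  continuous_const.sub ((continuous_finsetSum _ fun i _ => Cont_y hX j i).div_const _)

lemma Cont_c (hX : Continuous X) (j k : ℕ) : Continuous fun y => ((X y).wall j).c k :=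
  (Cont_w hX j k).div_const _

lemma Cont_g (hX : Continuous X) (j k : ℕ) : Continuous fun y => ((X y).wall j).g k := by
  cases j with
  | zero => exact continuous_const
  | succ j => exact (Cont_D2 hX j (Lb j + k)).neg

lemma Cont_wy (hX : Continuous X) (j k : ℕ) : Continuous fun y => ((X y).wall j).y (nn j) k :=
  continuous_const.mul ((Cont_lr hX j k).sub (Cont_lr hX j (k + 1)))

lemma Cont_th : Continuous th := by
  unfold th
  exact continuous_const.div (continuous_const.add (Real.continuous_exp.comp continuous_neg))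
    fun y => by positivity

lemma Cont_Em (hX : Continuous X) (j k : ℕ) : Continuous fun y => ((X y).wall j).Em (nn j) k :=
  ((((continuous_const.mul (Cont_c hX j k)).sub (Cont_c hX j k)).add (Cont_g hX j k)).sub
    ((continuous_const.mul (Cont_c hX j (k + 1))).mul (Cont_th.comp (Cont_wy hX j k)))).sub
    ((continuous_const.mul (Cont_c hX j (k - 1))).mul
      (continuous_const.sub (Cont_th.comp (Cont_wy hX j (k - 1)))))

lemma Cont_pp (hX : Continuous X) (j k : ℕ) (i : ZMod (nn j)) :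
    Continuous fun y => (X y).pp j k i := by
  unfold Prm.pp
  split_ifs
  · exact continuous_const
  · exact ((continuous_ofReal.comp (Real.continuous_exp.comp (Cont_lr hX j k))).mul
      continuous_const).mul (continuous_exp.comp (Cont_xi hX j k i))

lemma Cont_bq (hX : Continuous X) (j k : ℕ) (i : ZMod (nn j)) :
    Continuous fun y => (X y).bq j k i :=
  (Cont_c hX j k).add (Cont_eps hX j k i)

lemma Cont_dat (hX : Continuous X) : Continuous fun y => (X y).dat := by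
  refine Continuous.prodMk (continuous_pi fun e => (Cont_pp hX _ _ _).add ?_)
    (continuous_pi fun ν => (continuous_ofReal.comp (Cont_bq hX _ _ _)).add
      ((continuous_ofReal.comp (Cont_io hX _ _ _)).mul continuous_const))
  split_ifs
  · exact Cont_de hX _ _ _
  · exact continuous_const

lemma Cont_ext {K : Type} [Zero K] [TopologicalSpace K] {f : Y → Nk → K}
    (hf : ∀ ν, Continuous fun y => f y ν) (j k : ℕ) (i : ZMod (nn j)) :
    Continuous fun y => Prm.ext (f y) j k i := by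
  unfold Prm.ext
  split_ifs
  · exact hf _
  · exact continuous_const

lemma Cont_avg {n : ℕ} [NeZero n] {f : Y → ZMod n → ℝ} (hf : ∀ i, Continuous fun y => f y i) :
    Continuous fun y => avg n (f y) :=
  (continuous_finsetSum _ fun i _ => hf i).div_const _

lemma Cont_avgC {n : ℕ} [NeZero n] {f : Y → ZMod n → ℂ} (hf : ∀ i, Continuous fun y => f y i) :
    Continuous fun y => avgC n (f y) :=
  (continuous_finsetSum _ fun i _ => hf i).div_const _

lemma Cont_comp {K : Type} [TopologicalSpace K] {f : Dat Nk → K}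
    (hf : ContinuousOn f {d | frm.Adm d}) (hX : Continuous X) (hK : ∀ y, InK (X y)) :
    Continuous fun y => f (X y).dat :=
  hf.comp_continuous (Cont_dat hX) fun y => (hK y).adm

variable (hX : Continuous X) (hK : ∀ y, InK (X y))
include hX hK

lemma Cont_Ft (j k : ℕ) (i : ZMod (nn j)) : Continuous fun y => (X y).Ft j k i := by
  refine Cont_ext (fun ν => ?_) j k i
  refine ((Cont_pp hX _ _ _).mul ((continuous_conj.comp
    (Cont_comp (continuousOn_ra frm (ν, false)) hX hK)).add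
    (Cont_comp (continuousOn_rb frm (ν, false)) hX hK))).div
    (continuous_const.mul (continuous_ofReal.comp (Cont_bq hX _ _ _))) fun y => ?_
  have h1 := (hK y).bq_ge ν
  have h2 : (0 : ℝ) < PP ν.j := lt_of_lt_of_le (by positivity) (PP_ge ν.j)
  have h3 : 0 < (X y).bq ν.j ν.k ν.i := lt_of_lt_of_le (by positivity) h1
  exact mul_ne_zero two_ne_zero (ofReal_ne_zero.2 h3.ne')

lemma Cont_Dt (j k : ℕ) (i : ZMod (nn j)) : Continuous fun y => (X y).Dt j k i :=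
  Cont_ext (fun ν => (Cont_comp (continuousOn_J3 frm (ν, false)) hX hK).sub
    (Cont_comp (continuousOn_J3 frm (ν, true)) hX hK)) j k i

lemma Cont_err (j k : ℕ) : Continuous fun y => (X y).err j k :=
  (Cont_Em hX j k).sub (Cont_avg (f := fun y i => ((X y).Ft j k i).re)
    fun i => continuous_re.comp (Cont_Ft hX hK j k i))

lemma Cont_eta (j k : ℕ) : Continuous fun y => (X y).eta j k :=
  (((Cont_g hX j k).sub ((Cont_D2 hX j k).div_const _)).sub (Cont_c hX j k)).sub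
    (Cont_err hX hK j k)

lemma Cont_psi (j k : ℕ) : Continuous fun y => (X y).psi j k := by
  unfold Prm.psi
  split_ifs
  · exact continuous_finsetSum _ fun i _ => (Cont_w hX j i).mul (Cont_eta hX hK j i)
  · exact (continuous_finsetSum _ fun i _ => (Cont_w hX j i).mul (Cont_eta hX hK j i)).neg

omit [TopologicalSpace Y] hX in
lemma Cont_wpos {j k : ℕ} (h1 : 1 ≤ k) (h2 : k < NN j) (y : Y) : 0 < (X y).w j k := by
  have h3 := (hK y).w_ge h1 h2
  have h4 := (hK y).Mac2_W_pos j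
  have h5 : (0 : ℝ) < NN j := Nat.cast_pos.2 (by omega)
  exact lt_of_lt_of_le (by positivity) h3

lemma Cont_ff {j k : ℕ} (h1 : 1 ≤ k) (h2 : k + 1 < NN j) : Continuous fun y => (X y).ff j k :=
  (Cont_psi hX hK j k).div ((Cont_w hX j k).mul (Cont_w hX j (k + 1))) fun y =>
    (mul_pos (Cont_wpos hK h1 (by omega) y) (Cont_wpos hK (by omega) h2 y)).ne'

omit [TopologicalSpace Y] hX in
lemma Cont_ff_lt {j k : ℕ} (h1 : 1 ≤ k) (h2 : k + 1 < NN j) (y : Y) : |(X y).ff j k| < 1 / 2 := by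
  have hj : 1 ≤ j := by
    rcases Nat.eq_zero_or_pos j with rfl | h
    · rw [NN_zero] at h2; omega
    · exact h
  refine ((hK y).ff_le hj h1 h2).trans_lt ?_
  have h3 := nn_big hj
  have h4 : (1 : ℝ) ≤ NN j := Nat.one_le_cast.2 (by omega)
  rw [div_lt_iff₀ (Mac2_nn_pos j)]
  nlinarith

lemma Cont_uN (j : ℕ) : Continuous fun y => (X y).uN j := by
  unfold Prm.uN
  split_ifs
  · exact continuous_const
  · refine (Cont_u hX j).sub ((continuous_const.mul (continuous_const.div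
      ((Cont_W hX (j - 1)).mul (Cont_W hX j)) fun y => ?_)).mul
      (continuous_finsetSum _ fun i _ => (Cont_w hX j i).mul (Cont_eta hX hK j i)))
    exact (mul_pos ((hK y).Mac2_W_pos _) ((hK y).Mac2_W_pos _)).ne'

lemma Cont_sN (j a : ℕ) : Continuous fun y => (X y).sN j a := by
  unfold Prm.sN
  split_ifs
  · exact (Cont_s hX j a).add (((continuous_const.div (Cont_W hX j)
      fun y => ((hK y).Mac2_W_pos _).ne').mul
      ((Cont_avg (f := fun y => (X y).Dt j (Lb j + a)) (Cont_Dt hX hK j _)).sub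
        (Cont_avg (f := fun y => (X y).Dt (j + 1) a) (Cont_Dt hX hK (j + 1) _)))).div_const _)
  · exact continuous_const

lemma Cont_yN (j k : ℕ) : Continuous fun y => (X y).yN j k := by
  unfold Prm.yN
  split_ifs with h
  · have hf := Cont_ff hX hK h.1 h.2
    have hp : ∀ y, 0 < 1 + 2 * (X y).ff j k := fun y => by
      have := (abs_lt.1 (Cont_ff_lt hK h.1 h.2 y)).1
      linarith
    have hm : ∀ y, 0 < 1 - 2 * (X y).ff j k := fun y => by
      have := (abs_lt.1 (Cont_ff_lt hK h.1 h.2 y)).2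
      linarith
    exact ((continuous_const.add (continuous_const.mul hf)).div
      (continuous_const.sub (continuous_const.mul hf)) fun y => (hm y).ne').log
      fun y => (div_pos (hp y) (hm y)).ne'
  · exact continuous_const

lemma Cont_vxi (j k : ℕ) (i : ZMod (nn j)) : Continuous fun y => (X y).vξ j k i :=
  (continuous_ofReal.comp (Cont_c hX j k)).mul ((Cont_Ft hX hK j k i).sub
    (Cont_avgC (f := fun y => (X y).Ft j k) (Cont_Ft hX hK j k)))

lemma Cont_veps (j k : ℕ) (i : ZMod (nn j)) : Continuous fun y => (X y).vε j k i :=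
  ((Cont_Dt hX hK j k i).sub (Cont_avg (f := fun y => (X y).Dt j k) (Cont_Dt hX hK j k))).neg

lemma Cont_sc (j : ℕ) : Continuous fun y => (X y).sc j := by
  have h : Continuous fun y =>
      ((X y).wall j).nsq (nn j) ((X y).ξ j + (X y).vξ j) ((X y).ε j + (X y).vε j) :=
    continuous_finsetSum (Ico 1 (NN j)) fun k _ => continuous_finsetSum _ fun i _ =>
      (((Cont_xi hX j k i).add (Cont_vxi hX hK j k i)).norm.pow 2).add
        (((Cont_eps hX j k i).add (Cont_veps hX hK j k i)).pow 2)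
  exact continuous_const.div (continuous_const.max h.sqrt) fun y =>
    (lt_max_of_lt_left (pow_pos (tt_pos j) 3)).ne'

lemma Cont_xiN (j k : ℕ) (i : ZMod (nn j)) : Continuous fun y => (X y).ξN j k i :=
  (continuous_ofReal.comp (Cont_sc hX hK j)).mul ((Cont_xi hX j k i).add (Cont_vxi hX hK j k i))

lemma Cont_epsN (j k : ℕ) (i : ZMod (nn j)) : Continuous fun y => (X y).εN j k i :=
  (Cont_sc hX hK j).mul ((Cont_eps hX j k i).add (Cont_veps hX hK j k i))

lemma Cont_ioN (j k : ℕ) (i : ZMod (nn j)) : Continuous fun y => (X y).ioN j k i :=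
  Cont_ext (fun ν => (Cont_io hX _ _ _).add
    (continuous_im.comp (Cont_comp (continuousOn_rab frm (ν, false)) hX hK))) j k i

lemma Cont_deN (j k : ℕ) (i : ZMod (nn j)) : Continuous fun y => (X y).deN j k i :=
  Cont_ext (fun ν => (Cont_de hX _ _ _).add
    ((Cont_comp (continuousOn_Jh frm (ν, false)) hX hK).sub
      (Cont_comp (continuousOn_Jh frm (ν, true)) hX hK))) j k i

lemma Cont_Phi : Continuous fun y => (X y).Phi :=
  (continuous_pi (Cont_uN hX hK)).prodMk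
    ((continuous_pi fun j => continuous_pi (Cont_sN hX hK j)).prodMk
    ((continuous_pi fun j => continuous_pi (Cont_yN hX hK j)).prodMk
    ((continuous_pi fun j => continuous_pi fun k => continuous_pi (Cont_xiN hX hK j k)).prodMk
    ((continuous_pi fun j => continuous_pi fun k => continuous_pi (Cont_epsN hX hK j k)).prodMk
    ((continuous_pi fun j => continuous_pi fun k => continuous_pi (Cont_ioN hX hK j k)).prodMk
      (continuous_pi fun j => continuous_pi fun k => continuous_pi (Cont_deN hX hK j k)))))))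

end Aux

theorem Phi_continuousOn : ContinuousOn Prm.Phi {x : Prm | InK x} :=
  continuousOn_iff_continuous_domRestrict.2 (Cont_Phi continuous_subtype_val fun y => y.2)

end Pool.Agent.MP_943ae2_gt

end
end

section

open Set Complex Filter Finset
open scoped Topology ComplexConjugate ContDiff

noncomputable section

namespace Pool.Agent.MP_943ae2_gt

theorem Fix2_ext {K : Type} [Zero K] (f : Nk → K) (ν : Nk) : Prm.ext f ν.j ν.k ν.i = f ν := by
  unfold Prm.ext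
  rw [dif_pos ⟨ν.h1, ν.h2⟩]

theorem fix_eqs {x : Prm} (hx : InK x) (hf : x.Phi = x) : Eqs x := by
  have hD : ∀ j k i, x.Dt j k i = avg (nn j) (x.Dt j k) := fun j k i =>
    sub_eq_zero.1 (neg_eq_zero.1 (fix_micro hx hf j k i).2)
  refine ⟨fun j k i => ?_, fun j k i i' => by rw [hD j k i, hD j k i'], fun j a i i' h1 h2 => ?_,
    fun ν => ?_, fun ν => ?_⟩
  · by_cases h : 1 ≤ k ∧ k < NN j
    swap
    · unfold Prm.Ft Prm.ext
      rw [dif_neg h]
    rcases Nat.eq_zero_or_pos j with rfl | hj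
    · unfold Prm.Ft Prm.ext
      rw [dif_pos h]
      simp [Prm.pp]
    have hc : (0 : ℝ) < (x.wall j).c k := by
      have h0 : (0 : ℝ) < PP j := lt_of_lt_of_le (by norm_num) (PP_ge j)
      exact lt_of_lt_of_le (by positivity) (hx.c_ge ⟨j, k, i, h.1, h.2⟩)
    have e₁ : x.Ft j k i = avgC (nn j) (x.Ft j k) :=
      sub_eq_zero.1 ((mul_eq_zero.1 (fix_micro hx hf j k i).1).resolve_left
        (ofReal_ne_zero.2 hc.ne'))
    have e₂ := fix_macro hx hf hj h.1 h.2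
    rw [Prm.err] at e₂
    have e₃ : (avg (nn j) fun i => (x.Ft j k i).re) = 0 := by linarith
    rw [e₁, hx.avgC_Ft, e₃, ofReal_zero]
  · have e : x.sN j a = x.s j a := congrArg (fun p : Prm => p.s j a) hf
    rw [Prm.sN, if_pos ⟨h1, h2⟩, add_eq_left] at e
    have l : (0 : ℝ) < ell j := lt_of_lt_of_le (by positivity) (ell_ge j)
    have w := hx.Mac2_W_pos j
    have n := Mac2_nn_pos j
    rw [hD j _ i, hD (j + 1) a i']
    exact sub_eq_zero.1 ((mul_eq_zero.1 ((div_eq_zero_iff.1 e).resolve_right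
      (by positivity))).resolve_left (by positivity))
  · have e : x.ioN ν.j ν.k ν.i = x.io ν.j ν.k ν.i :=
      congrArg (fun p : Prm => p.io ν.j ν.k ν.i) hf
    rwa [Prm.ioN, Fix2_ext, add_eq_left] at e
  · have e : x.deN ν.j ν.k ν.i = x.de ν.j ν.k ν.i :=
      congrArg (fun p : Prm => p.de ν.j ν.k ν.i) hf
    rwa [Prm.deN, Fix2_ext, add_eq_left, sub_eq_zero] at e

theorem exists_eqs : ∃ x, InK x ∧ Eqs x := by
  obtain ⟨x, hx, hf⟩ := tychonoff K_compact K_convex K_nonempty Phi_continuousOn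
    (fun x hx => InK.phi hx)
  exact ⟨x, hx, fix_eqs hx hf⟩

theorem CC_step {x : Prm} (he : Eqs x) (ν : Nk) :
    CC x (ν.gap + 1) - CC x ν.gap = x.Dt ν.j ν.k ν.i := by
  obtain ⟨j, k, i, h1, h2⟩ := ν
  have key : ∀ j₁ k₁ j₂ k₂, j₁ = j₂ → k₁ = k₂ → x.Dt j₁ k₁ 0 = x.Dt j₂ k₂ 0 := by
    rintro _ _ _ _ rfl rfl; rfl
  simp only [Nk.gap, CC, add_sub_cancel_left]
  rcases Nat.eq_zero_or_pos j with rfl | hj
  · have hk : k = 1 := by rw [NN_zero] at h2; omega
    subst hk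
    rw [if_pos (by simp [bs])]
    exact he.ring 0 1 0 i
  have hb := le_bs j
  rw [if_neg (by omega)]
  have hl := lev_wall h1 h2.le
  split_ifs at hl with h
  · have e : lev (bs j + k - 1) + 1 = j := by omega
    exact (key _ _ j k e (by rw [e]; omega)).trans (he.ring j k 0 i)
  · obtain ⟨a, rfl⟩ : ∃ a, k = Lb j + a := ⟨k - Lb j, by omega⟩
    have e : lev (bs j + (Lb j + a) - 1) + 1 = j + 1 := by rw [hl]
    exact (key _ _ (j + 1) a e (by rw [hl, bs]; omega)).trans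
      (he.two j a i 0 (by omega) (by unfold NN at h2; omega)).symm

theorem Eqs.sol {x : Prm} (he : Eqs x) (hx : InK x) : frm.Sol x.dat (CC x) := by
  refine ⟨fun ν => ?_, he.ver, he.bh, fun ν => ?_,
    sum_ra_rot hx.adm perm_rot hx.dat_rot uu_ne⟩
  · rcases Nat.eq_zero_or_pos ν.j with hj | hj
    · exact hx.hor_zero ν hj
    have e := he.force ν.j ν.k ν.i
    rw [Prm.Ft, Fix2_ext] at e
    have h0 : (0 : ℝ) < PP ν.j := lt_of_lt_of_le (by norm_num) (PP_ge ν.j)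
    have hb : (0 : ℝ) < x.bq ν.j ν.k ν.i := lt_of_lt_of_le (by positivity) (hx.bq_ge ν)
    have hp := hx.pos_ge (ν, false) hj
    rw [symm_pp] at hp
    have hr := rho_pos ν.j
    have hp' : x.pp ν.j ν.k ν.i ≠ 0 := norm_pos_iff.1 (lt_of_lt_of_le (by positivity) hp)
    exact (mul_eq_zero.1 ((div_eq_zero_iff.1 e).resolve_right
      (mul_ne_zero two_ne_zero (ofReal_ne_zero.2 hb.ne')))).resolve_left hp'
  · have e := CC_step he ν
    rwa [Prm.Dt, Fix2_ext] at e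

end Pool.Agent.MP_943ae2_gt

end
end

section

open Set Complex Filter Finset
open scoped Topology ComplexConjugate ContDiff

noncomputable section

namespace Pool.Agent.MP_943ae2_gt

lemma Gap2_j {j a : ℕ} (h1 : 1 ≤ a) (h2 : a < Mt j) : 1 ≤ j := by
  rcases Nat.eq_zero_or_pos j with rfl | h
  · rw [Mt_zero] at h2; omega
  · exact h

lemma Gap2_log {y : ℝ} (h : |y| ≤ 1 / 2) :
    0 ≤ Real.log (1 + Real.exp y) ∧ Real.log (1 + Real.exp y) ≤ 1 := by
  have hp := Real.exp_pos y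
  refine ⟨Real.log_nonneg (by linarith), ?_⟩
  rw [Real.log_le_iff_le_exp (by linarith)]
  have h1 : Real.exp y ≤ Real.exp (1 / 2) := Real.exp_le_exp.2 (abs_le.1 h).2
  have h2 : Real.exp (1 / 2) * Real.exp (1 / 2) = Real.exp 1 := by
    rw [← Real.exp_add]; norm_num
  have h3 := Real.exp_one_gt_d9
  have h4 := Real.exp_one_lt_d9
  have h5 := Real.exp_pos (1 / 2)
  have h6 : Real.exp (1 / 2) ≤ 17 / 10 := by nlinarith
  linarith

lemma Gap2_neg (y : ℝ) : Real.log (1 + Real.exp y) = y + Real.log (1 + Real.exp (-y)) := by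
  have hp := Real.exp_pos y
  have hn := Real.exp_pos (-y)
  have : 1 + Real.exp y = Real.exp y * (1 + Real.exp (-y)) := by
    rw [mul_add, ← Real.exp_add]; simp [add_comm]
  rw [this, Real.log_mul hp.ne' (by linarith), Real.log_exp]

lemma Gap2_tt (j : ℕ) : tt (j + 1) ^ 2 ≤ tt j ^ 2 :=
  pow_le_pow_left₀ (tt_pos _).le (tt_anti (Nat.le_succ j)) 2

lemma Gap2_c {x : Prm} (hx : InK x) (j k : ℕ) : 0 ≤ (x.wall j).c k := by
  rw [Prm.Mac1_c]; exact div_nonneg (hx.w_nonneg j k) (Mac2_nn_pos j).le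

lemma Gap2_nb {x : Prm} (hx : InK x) {j k : ℕ} (h1 : 1 ≤ k) (h2 : k < NN j) :
    (x.wall j).c (k + 1) + (x.wall j).c (k - 1) ≤ 4 * (x.wall j).c k := by
  simp only [Prm.Mac1_c]
  rw [← add_div, ← mul_div_assoc]
  exact div_le_div_of_nonneg_right (hx.w_nb h1 h2) (Mac2_nn_pos j).le

lemma Gap2_lr {x : Prm} (hx : InK x) {j k : ℕ} (hj : 1 ≤ j) (h : k ≤ NN j) :
    |x.lr j k - ell j| ≤ 1 / 1000 := by
  refine (hx.lr_near hj h).trans ?_
  have := Mac2_nn_one j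
  exact one_div_le_one_div_of_le (by norm_num) (by linarith)

lemma Gap2_ell (j : ℕ) : 90000 ≤ ell j := by
  have := ell_ge j
  have h : (1 : ℝ) ≤ 4 ^ j := one_le_pow₀ (by norm_num)
  linarith

lemma Gap2_big {x : Prm} (hx : InK x) {j k : ℕ} (hj : 1 ≤ j) (h1 : 1 ≤ k) (h2 : k < NN j) :
    998 / 1000 * ell j ≤ x.lr j k - Real.log (x.w j k) := by
  have a := abs_le.1 (Gap2_lr hx hj h2.le)
  have b := abs_le.1 (hx.log_w h1 h2)
  have := Gap2_ell j
  linarith

lemma Gap2_pair {x : Prm} (hx : InK x) {j k : ℕ} (hj : 1 ≤ j) (h1 : 1 ≤ k) (h2 : k < NN j)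
    {p q : ℝ} (hp : |p| ≤ 1 / 2) (hq : |q| ≤ 1 / 2) :
    0 ≤ (x.wall j).c (k - 1) * Real.log (1 + Real.exp p) +
        (x.wall j).c (k + 1) * Real.log (1 + Real.exp q) ∧
      (x.wall j).c (k - 1) * Real.log (1 + Real.exp p) +
        (x.wall j).c (k + 1) * Real.log (1 + Real.exp q) ≤ 4 * (x.wall j).c k := by
  have a := Gap2_log hp
  have b := Gap2_log hq
  have c1 := Gap2_c hx j (k - 1)
  have c2 := Gap2_c hx j (k + 1)
  have := Gap2_nb hx h1 h2
  constructor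
  · exact add_nonneg (mul_nonneg c1 a.1) (mul_nonneg c2 b.1)
  · nlinarith [mul_le_mul_of_nonneg_left a.2 c1, mul_le_mul_of_nonneg_left b.2 c2]

lemma Gap2_y {x : Prm} (hx : InK x) {j k : ℕ} (hj : 1 ≤ j) (h2 : k < NN j) :
    |(x.wall j).y (nn j) k| ≤ 1 / 2 := (hx.wall_bd hj).y_le k h2

lemma Gap2_Oc (x : Prm) (j a : ℕ) : x.Oc j (Lb j + a) =
    x.w (j + 1) (a + 1) * x.lr (j + 1) (a + 1) - 2 * x.w (j + 1) a * x.lr (j + 1) a +
      x.w (j + 1) (a - 1) * x.lr (j + 1) (a - 1) := by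
  unfold Prm.Oc
  rw [if_pos (Nat.le_add_right _ _), Nat.add_sub_cancel_left]

lemma Gap2_mx {j : ℕ} {z : ℂ} (hz : ‖z‖ ≤ (tt j)⁻¹ ^ 80) :
    ell j ≤ mx j z ∧ mx j z ≤ 5 / 2 * ell j := by
  have hr := rho_pos j
  have h1 := admM_inv_one j
  refine ⟨Real.log_le_log hr (le_max_right _ _), ?_⟩
  have : max ‖z‖ (rho j) ≤ (tt j)⁻¹ ^ 80 :=
    max_le hz (pow_le_pow_right₀ h1 (by norm_num))
  refine (Real.log_le_log (lt_of_lt_of_le hr (le_max_right _ _)) this).trans (le_of_eq ?_)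
  rw [Real.log_pow, ell_eq]; push_cast; ring

lemma Gap2_fin {c l m t D r X : ℝ} (hc : 2 * t ≤ c) (ht : 0 < t) (ht1 : t ≤ 1 / 1000)
    (hl : 90000 ≤ l) (htl : t * l ≤ 1 / 1000) (hm : m ≤ 5 / 2 * l) (hX : 998 / 1000 * l ≤ X)
    (h : (D ≤ c ∧ r = c * (5 / 4 * l + 36)) ∨
      (D ≤ 51 / 100 * (2 * c * (X + 2) + 2 * t ^ 2) ∧ r = 36 * c)) :
    t ≤ 2 * c * X - D - r - 4 * (t ^ 2 * (1 + m)) - 5 * t ^ 2 := by
  have hc0 : 0 < c := by linarith
  have e1 : t ^ 2 ≤ t / 1000 := by nlinarith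
  have e2 : t ^ 2 * m ≤ t / 100 := by
    have : t ^ 2 * m ≤ t ^ 2 * (5 / 2 * l) := mul_le_mul_of_nonneg_left hm (by positivity)
    nlinarith
  have e3 : c * (998 / 1000 * l) ≤ c * X := mul_le_mul_of_nonneg_left hX hc0.le
  have e4 : c * 90000 ≤ c * l := mul_le_mul_of_nonneg_left hl hc0.le
  rcases h with ⟨h1, rfl⟩ | ⟨h1, rfl⟩ <;> nlinarith

variable {x : Prm} (hx : InK x) (he : Eqs x)
include hx he

theorem two_rel {j a : ℕ} (h1 : 1 ≤ a) (h2 : a < Mt j) :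
    |(x.wall j).Ds (nn j) (Lb j + a) + x.Oc j (Lb j + a) - (x.wall (j + 1)).Ds (nn (j + 1)) a| ≤
      2 * tt j ^ 2 := by
  have ha : a < NN (j + 1) := by
    have := Lb_succ j
    unfold NN; omega
  have e := he.two j a 0 0 h1 h2
  have b1 := abs_le.1 (hx.Dt_val (j := j) (k := Lb j + a) (by omega) (by unfold NN; omega) 0)
  have b2 := abs_le.1 (hx.Dt_val (j := j + 1) h1 ha 0)
  have e0 : x.Oc (j + 1) a = 0 := if_neg (by rw [Lb_succ]; omega)
  have := Gap2_tt j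
  rw [e0] at b2
  rw [abs_le]
  constructor <;> linarith

lemma Gap2_rel {j a : ℕ} (h1 : 1 ≤ a) (h2 : a < Mt j) : ∃ A A' E : ℝ,
    0 ≤ A ∧ A ≤ 4 * (x.wall j).c (Lb j + a) ∧ 0 ≤ A' ∧ A' ≤ 4 * (x.wall (j + 1)).c a ∧
    |E| ≤ 2 * tt j ^ 2 ∧
    x.D2 j (Lb j + a) * (x.lr (j + 1) a - x.lr j (Lb j + a)) =
      2 * (x.wall j).c (Lb j + a) * (x.lr j (Lb j + a) - Real.log (x.w j (Lb j + a))) + A -
        2 * (x.wall (j + 1)).c a * (x.lr (j + 1) a - Real.log (x.w (j + 1) a)) - A' - E := by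
  have hj := Gap2_j h1 h2
  have ha : a < NN (j + 1) := by
    have := Lb_succ j
    unfold NN; omega
  have hk : Lb j + a < NN j := by unfold NN; omega
  have p1 := Gap2_pair hx hj (k := Lb j + a) (by omega) hk
    (Gap2_y hx hj (k := Lb j + a - 1) (by omega))
    (q := -(x.wall j).y (nn j) (Lb j + a)) (by rw [abs_neg]; exact Gap2_y hx hj hk)
  have p2 := Gap2_pair hx (j := j + 1) (by omega) h1 ha
    (p := -(x.wall (j + 1)).y (nn (j + 1)) (a - 1))
    (by rw [abs_neg]; exact Gap2_y hx (by omega) (by omega))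
    (Gap2_y hx (j := j + 1) (k := a) (by omega) ha)
  refine ⟨_, _, _, p1.1, p1.2, p2.1, p2.2, two_rel hx he h1 h2, ?_⟩
  rw [x.Ds_eq, x.Ds_eq, Gap2_Oc, x.wlr_eq (j + 1) h1, x.g_top (k := Lb j + a) (by omega),
    x.Mac1_g, Gap2_neg ((x.wall (j + 1)).y (nn (j + 1)) (a - 1)),
    Gap2_neg ((x.wall (j + 1)).y (nn (j + 1)) a)]
  ring

theorem D2_up {j a : ℕ} (h1 : 1 ≤ a) (h2 : a < Mt j) :
    x.D2 j (Lb j + a) * (x.lr (j + 1) a - x.lr j (Lb j + a)) ≤
      2 * (x.wall j).c (Lb j + a) * (x.lr j (Lb j + a) - Real.log (x.w j (Lb j + a)) + 2) +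
        2 * tt j ^ 2 := by
  obtain ⟨A, A', E, -, a2, a3, -, a5, a6⟩ := Gap2_rel hx he h1 h2
  have ha : a < NN (j + 1) := by
    have := Lb_succ j
    unfold NN; omega
  have b := Gap2_big hx (j := j + 1) (by omega) h1 ha
  have := Gap2_ell (j + 1)
  have c := mul_nonneg (Gap2_c hx (j + 1) a)
    (show 0 ≤ x.lr (j + 1) a - Real.log (x.w (j + 1) a) by linarith)
  have := abs_le.1 a5
  rw [a6]
  nlinarith

theorem D2_lo {j a : ℕ} (h1 : 1 ≤ a) (h2 : a < Mt j) :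
    -(2 * (x.wall (j + 1)).c a * (x.lr (j + 1) a - Real.log (x.w (j + 1) a) + 2)) - 2 * tt j ^ 2 ≤
      x.D2 j (Lb j + a) * (x.lr (j + 1) a - x.lr j (Lb j + a)) := by
  obtain ⟨A, A', E, a1, -, -, a4, a5, a6⟩ := Gap2_rel hx he h1 h2
  have b := Gap2_big hx (Gap2_j h1 h2) (k := Lb j + a) (by omega) (by unfold NN; omega)
  have := Gap2_ell j
  have c := mul_nonneg (Gap2_c hx j (Lb j + a))
    (show 0 ≤ x.lr j (Lb j + a) - Real.log (x.w j (Lb j + a)) by linarith)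
  have := abs_le.1 a5
  rw [a6]
  nlinarith

omit he in
lemma Gap2_small {j a : ℕ} (h1 : 1 ≤ a) (h2 : a < Mt j) {d : ℝ} (hd : |d| ≤ 3 / nn j) :
    x.D2 j (Lb j + a) * d ≤ (x.wall j).c (Lb j + a) := by
  have hj := Gap2_j h1 h2
  have hk : Lb j + a < NN j := by unfold NN; omega
  have hn := Mac2_nn_pos j
  have hW := hx.Mac2_W_pos j
  have hN : (1 : ℝ) ≤ NN j := by exact_mod_cast (show 1 ≤ NN j by omega)
  have hb := nn_big hj
  have b1 : |x.D2 j (Lb j + a)| ≤ 8 * x.W j / nn j := by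
    rw [x.D2_top h1 h2]; exact hx.sTop_le j a
  have b2 : x.D2 j (Lb j + a) * d ≤ 8 * x.W j / nn j * (3 / nn j) := by
    refine (le_abs_self _).trans ?_
    rw [abs_mul]
    exact mul_le_mul b1 hd (abs_nonneg _) (by positivity)
  refine b2.trans ?_
  rw [x.Mac1_c]
  refine le_trans ?_ (div_le_div_of_nonneg_right (hx.w_ge (by omega) hk) hn.le)
  have h24 : 24 * (NN j : ℝ) ≤ nn j := by nlinarith
  rw [show 8 * x.W j / nn j * (3 / nn j) = x.W j * 24 / nn j / nn j by ring]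
  refine div_le_div_of_nonneg_right ?_ hn.le
  rw [div_le_div_iff₀ hn (by linarith)]
  nlinarith

theorem gap_int_in {j a : ℕ} (h1 : 1 ≤ a) (h2 : a < Mt j) {z : ℂ} (hz : ‖z‖ ≤ (tt j)⁻¹ ^ 80) :
    frm.Ut x.dat (CC x) (bs (j + 1) + a - 1) z + tt j ≤ frm.Ut x.dat (CC x) (bs (j + 1) + a) z := by
  have hj := Gap2_j h1 h2
  have ha : a < NN (j + 1) := by
    have := Lb_succ j
    unfold NN; omega
  have hk : Lb j + a < NN j := by unfold NN; omega
  have hk1 : 1 ≤ Lb j + a := by omega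
  have g := gap_int x (CC x) h1 h2 z
  have cs := CC_step he ⟨j, Lb j + a, 0, hk1, hk⟩
  have eg : Nk.gap ⟨j, Lb j + a, 0, hk1, hk⟩ = bs (j + 1) + a - 1 := by
    simp only [Nk.gap, Cst_bs]; omega
  rw [eg, show bs (j + 1) + a - 1 + 1 = bs (j + 1) + a by omega] at cs
  have dv := abs_le.1 (hx.Dt_val hk1 hk 0)
  have hz' : ‖z‖ ≤ (tt (j + 1))⁻¹ ^ 24 := by
    rw [tt_succ, ← inv_pow, ← pow_mul]
    exact hz.trans (pow_le_pow_right₀ (admM_inv_one j) (by norm_num))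
  have i1 := abs_le.1 (hx.G_in true (j := j + 1) (by omega) a hz')
  have i2 := abs_le.1 (hx.G_in false (j := j + 1) (by omega) a hz')
  have i3 := abs_le.1 (hx.G_in false (j := j + 1) (by omega) (a + 1) hz')
  have i4 := abs_le.1 (hx.G_in true (j := j + 1) (by omega) (a - 1) hz')
  have ht := tt_pos j
  have ht1 := tt_le j
  have t8 : tt (j + 1) ^ 2 ≤ tt j ^ 2 := Gap2_tt j
  have hBr : -x.Oc j (Lb j + a) - 4 * tt j ^ 2 ≤ x.Br (j + 1) a z := by
    rw [Gap2_Oc, Prm.Br]; linarith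
  have u1 := hx.G_up false j (Lb j + a + 1) z
  have u2 := hx.G_up true j (Lb j + a - 1) z
  have nb := Gap2_nb hx hk1 hk
  have p1 := (Gap2_pair hx hj hk1 hk (Gap2_y hx hj (k := Lb j + a - 1) (by omega))
    (q := -(x.wall j).y (nn j) (Lb j + a)) (by rw [abs_neg]; exact Gap2_y hx hj hk)).1
  have ds := x.Ds_eq j (Lb j + a)
  rw [x.g_top (k := Lb j + a) (by omega), sub_zero] at ds
  have hm := Gap2_mx hz
  have hl := Gap2_ell j
  have lr1 := abs_le.1 (Gap2_lr hx hj hk.le)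
  have lr2 := abs_le.1 (Gap2_lr hx (j := j + 1) (by omega) ha.le)
  have lr3 := abs_le.1 (hx.lr_near hj hk.le)
  have hn := Mac2_nn_pos j
  have hX := Gap2_big hx hj hk1 hk
  have hc : 2 * tt j ≤ (x.wall j).c (Lb j + a) := by
    refine le_trans ?_ (hx.c_ge ⟨j, Lb j + a, 0, hk1, hk⟩)
    have hP := admM_PP_pos j
    have := admM_pow_tt j (m := 2) (by norm_num)
    have : tt j ≤ (PP j)⁻¹ ^ 2 := by
      rw [inv_pow, ← one_div, le_div_iff₀ (by positivity)]; linarith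
    show 2 * tt j ≤ 2 * (PP j)⁻¹ ^ 2
    linarith
  have htl : tt j * ell j ≤ 1 / 1000 := by
    have a1 := ell_le_PP j
    rw [ell_succ] at a1
    have a2 := admM_PP_tt j
    have := mul_le_mul_of_nonneg_left a1 ht.le
    linarith
  have hd : x.D2 j (Lb j + a) * (mx j z - x.lr j (Lb j + a)) =
      (x.w j (Lb j + a + 1) - 2 * x.w j (Lb j + a) + x.w j (Lb j + a - 1)) * mx j z -
        x.D2 j (Lb j + a) * x.lr j (Lb j + a) := by
    rw [mul_sub]; rfl
  have e3 : (3 : ℝ) / nn j = 2 / nn j + 1000 * (1 / (1000 * nn j)) := by field_simp; ring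
  have e4 : (0 : ℝ) < 1 / (1000 * nn j) := by positivity
  have e5 : (0 : ℝ) < 2 / nn j := by positivity
  by_cases hmid : ‖z‖ ≤ rho j * Real.exp (-2 / nn j) ∨ rho j * Real.exp (2 / nn j) ≤ ‖z‖
  · have l1 := hx.G_mid true hj (Lb j + a) hmid
    have l2 := hx.G_mid false hj (Lb j + a) hmid
    have hD : x.D2 j (Lb j + a) * (mx j z - x.lr j (Lb j + a)) ≤ 51 / 100 *
        (2 * (x.wall j).c (Lb j + a) * (x.lr j (Lb j + a) - Real.log (x.w j (Lb j + a)) + 2) +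
          2 * tt j ^ 2) := by
      rcases le_total 0 (x.D2 j (Lb j + a)) with h0 | h0
      · have := D2_up hx he h1 h2
        have b : mx j z - x.lr j (Lb j + a) ≤ 51 / 100 * (x.lr (j + 1) a - x.lr j (Lb j + a)) := by
          rw [ell_succ] at lr2; linarith
        have := mul_le_mul_of_nonneg_left b h0
        rw [mul_left_comm] at this
        linarith
      · have b := Gap2_small hx h1 h2 (d := ell j - x.lr j (Lb j + a))
          (by rw [abs_le]; constructor <;> linarith)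
        have b2 : x.D2 j (Lb j + a) * (mx j z - ell j) ≤ 0 :=
          mul_nonpos_of_nonpos_of_nonneg h0 (by linarith)
        have b3 := mul_nonneg (Gap2_c hx j (Lb j + a))
          (show 0 ≤ x.lr j (Lb j + a) - Real.log (x.w j (Lb j + a)) by linarith)
        have := Gap2_c hx j (Lb j + a)
        have := sq_nonneg (tt j)
        linarith
    have := Gap2_fin hc ht ht1 hl htl hm.2 hX (Or.inr ⟨hD, rfl⟩)
    rw [Prm.Br] at g
    linarith
  · have l1 := hx.G_lo true hj (Lb j + a) z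
    have l2 := hx.G_lo false hj (Lb j + a) z
    have hup : mx j z ≤ ell j + 2 / nn j := by
      have hr := rho_pos j
      have : max ‖z‖ (rho j) ≤ rho j * Real.exp (2 / nn j) :=
        max_le (le_of_not_ge (not_or.1 hmid).2) (le_mul_of_one_le_right hr.le (Real.one_le_exp e5.le))
      refine (Real.log_le_log (lt_of_lt_of_le hr (le_max_right _ _)) this).trans (le_of_eq ?_)
      rw [Real.log_mul hr.ne' (Real.exp_pos _).ne', Real.log_exp]; rfl
    have hD := Gap2_small hx h1 h2 (d := mx j z - x.lr j (Lb j + a))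
      (by rw [abs_le]; constructor <;> linarith)
    have := Gap2_fin hc ht ht1 hl htl hm.2 hX (Or.inl ⟨hD, rfl⟩)
    rw [Prm.Br] at g
    linarith

end Pool.Agent.MP_943ae2_gt

end
end

section

open Set Complex Filter Finset
open scoped Topology ComplexConjugate ContDiff

noncomputable section

namespace Pool.Agent.MP_943ae2_gt

lemma Gap4_G_zero (x : Prm) (s : Bool) (j : ℕ) (z : ℂ) : x.G s j 0 z = 0 := by
  unfold Prm.G ringSum
  exact dif_neg (by omega)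

lemma Gap4_G_big (x : Prm) (s : Bool) {j k : ℕ} (h : NN j ≤ k) (z : ℂ) : x.G s j k z = 0 := by
  unfold Prm.G ringSum
  exact dif_neg (by omega)

lemma Gap4_Br_N (x : Prm) (j : ℕ) (z : ℂ) : x.Br j (NN j) z = -x.G true j (NN j - 1) z := by
  unfold Prm.Br
  rw [Gap4_G_big x true le_rfl, Gap4_G_big x false le_rfl, Gap4_G_big x false (Nat.le_succ _)]
  ring

lemma Gap4_Br_zero (x : Prm) (j : ℕ) (z : ℂ) : x.Br j 0 z = -x.G false j 1 z := by
  unfold Prm.Br
  rw [Nat.zero_sub, Gap4_G_zero, Gap4_G_zero]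
  ring

lemma Gap4_log (y : ℝ) : y ≤ Real.log (1 + Real.exp y) := by
  rw [Real.le_log_iff_exp_le (by positivity)]
  linarith

lemma Gap4_log0 (y : ℝ) : 0 ≤ Real.log (1 + Real.exp y) :=
  Real.log_nonneg (by linarith [Real.exp_pos y])

lemma Gap4_LN (j : ℕ) : Lb j < NN j := by
  have := Mt_pos j
  unfold NN
  omega

lemma Gap4_one (j : ℕ) : 1 ≤ (tt j)⁻¹ := by
  have := tt_le j
  exact (one_le_inv₀ (tt_pos j)).2 (by linarith)

lemma Gap4_pow (j : ℕ) {a b : ℕ} (h : a ≤ b) : (tt j)⁻¹ ^ a ≤ (tt j)⁻¹ ^ b :=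
  pow_le_pow_right₀ (Gap4_one j) h

lemma Gap4_pow_succ (j a : ℕ) : (tt (j + 1))⁻¹ ^ a = (tt j)⁻¹ ^ (4 * a) := by
  rw [tt_succ, ← inv_pow, ← pow_mul]

lemma Gap4_log80 (j : ℕ) : Real.log ((tt j)⁻¹ ^ 80) = 5 / 2 * ell j := by
  rw [Real.log_pow, ell_eq]
  push_cast
  ring

lemma Gap4_ell (j : ℕ) : 90000 ≤ ell j := by
  have h := ell_ge j
  have : (1 : ℝ) ≤ 4 ^ j := one_le_pow₀ (by norm_num)
  linarith

lemma Gap4_mx_ge (j : ℕ) (z : ℂ) : ell j ≤ mx j z :=
  Real.log_le_log (rho_pos j) (le_max_right _ _)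

lemma Gap4_mx_log (j : ℕ) {z : ℂ} (hz : 0 < ‖z‖) : Real.log ‖z‖ ≤ mx j z :=
  Real.log_le_log hz (le_max_left _ _)

lemma Gap4_mx_le (j : ℕ) {z : ℂ} (hz : ‖z‖ ≤ (tt j)⁻¹ ^ 80) : mx j z ≤ 5 / 2 * ell j := by
  rw [← Gap4_log80]
  refine Real.log_le_log (lt_max_of_lt_right (rho_pos j)) (max_le hz ?_)
  exact Gap4_pow j (by norm_num)

lemma Gap4_mx_cases (j : ℕ) (z : ℂ) : mx j z = Real.log ‖z‖ ∧ ell j ≤ mx j z ∨ mx j z = ell j := by
  rcases le_total ‖z‖ (rho j) with h | h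
  · right
    unfold mx
    rw [max_eq_right h]
    rfl
  · left
    exact ⟨by unfold mx; rw [max_eq_left h], Gap4_mx_ge j z⟩

lemma Gap4_tP (j : ℕ) : tt j * PP j ≤ 1 := by
  have h := PP_tt j
  have h1 : (1 : ℝ) ≤ PP j := le_trans (by norm_num) (PP_ge j)
  have h2 : PP j ≤ PP j ^ 60 := le_self_pow₀ h1 (by norm_num)
  nlinarith [tt_pos j]

lemma Gap4_t_ell (j : ℕ) : tt j * ell (j + 1) ≤ 1 / 1000 := by
  have h := Gap4_tP j
  have h1 := ell_le_PP j
  nlinarith [tt_pos j]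

lemma Gap4_t_n (j : ℕ) : tt j * nn (j + 1) ≤ 1 := by
  have h := Gap4_tP j
  have h1 := nn_le_PP j
  have h2 := Mac2_nn_pos (j + 1)
  nlinarith [tt_pos j]

lemma Gap4_t_L (j : ℕ) : tt j * Lb (j + 1) ≤ 1 := by
  have h := Gap4_tP j
  have h1 := NN_le_PP j
  have h2 : (Lb (j + 1) : ℝ) ≤ NN (j + 1) := by exact_mod_cast (Gap4_LN (j + 1)).le
  have h3 := Mac2_Lb_one (j + 1)
  nlinarith [tt_pos j]

lemma Gap4_sq (j : ℕ) : tt (j + 1) ^ 2 ≤ tt j ^ 2 :=
  pow_le_pow_left₀ (tt_pos _).le (tt_anti (Nat.le_succ j)) 2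

/-- the gap across an interface, with the increment of the constants bounded below -/
lemma Gap4_base {x : Prm} (hx : InK x) (he : Eqs x) (j : ℕ) (z : ℂ) :
    (x.wall (j + 1)).Ds (nn (j + 1)) (Lb (j + 1)) + x.w (j + 2) 1 * ell (j + 2) - tt (j + 1) ^ 2 -
      x.G true j (NN j - 1) z + x.Br (j + 1) (Lb (j + 1)) z - x.G false (j + 2) 1 z ≤
      frm.Ut x.dat (CC x) (bs (j + 2)) z - frm.Ut x.dat (CC x) (bs (j + 2) - 1) z := by
  have h1 := Lb_pos (j + 1)
  have h2 := Gap4_LN (j + 1)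
  have hs := CC_step he ⟨j + 1, Lb (j + 1), 0, h1, h2⟩
  have e : bs (j + 2) = bs (j + 1) + Lb (j + 1) := Cst_bs (j + 1)
  have e1 : Nk.gap ⟨j + 1, Lb (j + 1), 0, h1, h2⟩ = bs (j + 2) - 1 := by
    simp only [Nk.gap]
    omega
  have e2 : bs (j + 2) - 1 + 1 = bs (j + 2) := by omega
  rw [e1, e2] at hs
  have hd := (abs_le.1 (hx.Dt_val h1 h2 0)).1
  rw [x.Oc_L] at hd
  rw [gap_face, Gap4_Br_N, Gap4_Br_zero, hs]
  linarith

lemma Gap4_W_one {x : Prm} (hx : InK x) (j : ℕ) : 1 ≤ x.W j :=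
  le_trans (one_le_pow₀ (by norm_num)) (hx.W_ge j)

lemma Gap4_c_nonneg {x : Prm} (hx : InK x) (j k : ℕ) : 0 ≤ (x.wall j).c k :=
  div_nonneg (hx.w_nonneg j k) (Mac2_nn_pos j).le

lemma Gap4_c_le {x : Prm} (hx : InK x) (j k : ℕ) : (x.wall j).c k ≤ x.w j k :=
  div_le_self (hx.w_nonneg j k) (Mac2_nn_one j)

lemma Gap4_c_L {x : Prm} (hx : InK x) (j k : ℕ) : (x.wall j).c k ≤ (x.wall j).c (Lb j) := by
  rw [x.Mac1_c, x.Mac1_c, x.w_L]
  exact div_le_div_of_nonneg_right (hx.w_le j k) (Mac2_nn_pos j).le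

lemma Gap4_lr {x : Prm} (hx : InK x) (j : ℕ) :
    |x.lr (j + 1) (Lb (j + 1)) - ell (j + 1)| ≤ 1 / 1000 := by
  refine (hx.lr_near (by omega) (Gap4_LN (j + 1)).le).trans ?_
  have := Mac2_nn_one (j + 1)
  exact one_div_le_one_div_of_le (by norm_num) (by linarith)

/-- the last ring of the inner wall -/
lemma Gap4_om_i {x : Prm} (hx : InK x) (j : ℕ) :
    9999 / 10000 * (x.W j / Mt j) ≤ x.w j (NN j - 1) ∧
      x.w j (NN j - 1) ≤ 10001 / 10000 * (x.W j / Mt j) := by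
  have h := Gap4_LN j
  have h1 := Lb_pos j
  refine ⟨hx.Mac2_ge_top (by omega) (by omega), ?_⟩
  have h2 := (abs_le.1 (hx.w_top (j := j) (k := NN j - 1) (by omega) (by omega))).2
  have e : (NN j : ℝ) - ((NN j - 1 : ℕ) : ℝ) = 1 := by
    rw [Nat.cast_sub (by omega)]
    push_cast
    ring
  rw [e, mul_one] at h2
  linarith

/-- the slope budget at an interface -/
lemma Gap4_slopes {x : Prm} (hx : InK x) (j : ℕ) :
    x.W (j + 1) / Lb (j + 1) / 4 ≤ -x.D2 (j + 1) (Lb (j + 1)) - x.w j (NN j - 1) - x.w (j + 2) 1 ∧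
      x.w (j + 2) 1 ≤ x.W (j + 1) / Lb (j + 1) := by
  have hL := Lb_pos (j + 1)
  have hL' := Mac2_Lb_one (j + 1)
  have hM : (Mt (j + 1) : ℝ) = 5 * Lb (j + 1) := by exact_mod_cast Mt_eq (j := j + 1) (by omega)
  have h1 := (abs_le.1 (hx.slope_bot (j := j + 1) (k := Lb (j + 1) - 1) (by omega))).1
  rw [Nat.sub_add_cancel hL] at h1
  have h2 := (abs_le.1 (hx.slope_top (j := j + 1) le_rfl (Gap4_LN (j + 1)))).2
  have h3 := (Gap4_om_i hx j).2
  have h4 := (abs_le.1 (hx.w_bot (j := j + 2) (k := 1) (Lb_pos _))).2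
  rw [Lb_succ (j + 1), hM, Nat.cast_one, mul_one] at h4
  rw [hM] at h2
  rw [← Lb_succ] at h3
  have h5 : x.W j / Lb (j + 1) ≤ 20 / 33 * (x.W (j + 1) / Lb (j + 1)) := by
    rw [← mul_div_assoc]
    exact div_le_div_of_nonneg_right (by linarith [(hx.W_succ j).1]) (by linarith)
  have h6 : x.W (j + 2) / (5 * Lb (j + 1)) ≤ 17 / 50 * (x.W (j + 1) / Lb (j + 1)) := by
    rw [← div_div, ← mul_div_assoc]
    exact div_le_div_of_nonneg_right (by linarith [(hx.W_succ (j + 1)).2]) (by linarith)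
  have h7 : x.W (j + 1) / (5 * Lb (j + 1)) = 1 / 5 * (x.W (j + 1) / Lb (j + 1)) := by
    field_simp
  have h8 : 0 ≤ x.W (j + 1) / Lb (j + 1) := div_nonneg (hx.Mac2_W_pos _).le (by linarith)
  rw [h7] at h2
  unfold Prm.D2
  constructor <;> linarith

/-- the value of the model gap at the ring `L`, keeping only the main terms -/
lemma Gap4_Ds {x : Prm} (hx : InK x) (j : ℕ) :
    2 * (x.wall (j + 1)).c (Lb (j + 1)) * (999 / 1000 * ell (j + 1) - 1 / 1000) +
      (x.D2 (j + 1) (Lb (j + 1)) + x.w j (NN j - 1)) * x.lr (j + 1) (Lb (j + 1)) +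
      (x.wall (j + 1)).c (Lb (j + 1) - 1) *
        Real.log (1 + Real.exp ((x.wall (j + 1)).y (nn (j + 1)) (Lb (j + 1) - 1))) +
      (x.wall (j + 1)).c (Lb (j + 1) + 1) *
        Real.log (1 + Real.exp (-(x.wall (j + 1)).y (nn (j + 1)) (Lb (j + 1)))) ≤
      (x.wall (j + 1)).Ds (nn (j + 1)) (Lb (j + 1)) := by
  rw [x.Ds_eq, x.g_L, sub_neg_eq_add]
  have h1 := (abs_le.1 (Gap4_lr hx j)).1
  have h2 := (abs_le.1 (hx.log_w (Lb_pos (j + 1)) (Gap4_LN (j + 1)))).2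
  have h3 := Gap4_c_nonneg hx (j + 1) (Lb (j + 1))
  have h4 : 999 / 1000 * ell (j + 1) - 1 / 1000 ≤
      x.lr (j + 1) (Lb (j + 1)) - Real.log (x.w (j + 1) (Lb (j + 1))) := by linarith
  have h5 := mul_le_mul_of_nonneg_left h4 h3
  linarith

lemma Gap4_ar_in {om lr e m c t : ℝ} (hom : 0 ≤ om) (hlr : 4 * e - 1 / 1000 ≤ lr)
    (hm : m ≤ 5 / 2 * e) (hc : c ≤ om) (he : 90000 ≤ e) (hoe : 100 ≤ om * e) (ht0 : 0 < t)
    (ht : t ≤ 1 / 1000) (hte : t * (4 * e) ≤ 1 / 1000) :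
    1 ≤ om * lr - (om * m + 6 * c + t ^ 2 * (1 + m)) - 6 * t ^ 2 := by
  have h1 : om * (4 * e - 1 / 1000) ≤ om * lr := mul_le_mul_of_nonneg_left hlr hom
  have h2 : om * m ≤ om * (5 / 2 * e) := mul_le_mul_of_nonneg_left hm hom
  have h3 : om * 90000 ≤ om * e := mul_le_mul_of_nonneg_left he hom
  have h4 : t ^ 2 * m ≤ t ^ 2 * (5 / 2 * e) := mul_le_mul_of_nonneg_left hm (by positivity)
  have h5 : t * (t * (4 * e)) ≤ t * (1 / 1000) := mul_le_mul_of_nonneg_left hte ht0.le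
  have h6 : t * t ≤ t * (1 / 1000) := mul_le_mul_of_nonneg_left ht ht0.le
  nlinarith

lemma Gap4_ar_mid {c A om lr e m s t d : ℝ} (hc : t ≤ c) (hom : 0 ≤ om) (hA : om ≤ A)
    (hd : A * d ≤ c) (hd0 : 0 ≤ d) (hlr : lr ≤ e + d) (hm : e ≤ m) (hs : s ≤ m)
    (hm2 : m ≤ 5 / 2 * e) (he : 90000 ≤ e) (ht0 : 0 < t) (ht : t ≤ 1 / 1000)
    (hte : t * e ≤ 1 / 1000) :
    t ≤ 2 * c * (999 / 1000 * e - 1 / 1000) + (-A + om) * lr - (om * s + t ^ 2 * (1 + s)) +
      (A * m - 2 * (c * (5 / 8 * e + 6)) - 12 * c - 4 * (t ^ 2 * (1 + m))) - 2 * t ^ 2 := by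
  have h1 : om * s ≤ om * m := mul_le_mul_of_nonneg_left hs hom
  have h2 : (A - om) * (-d) ≤ (A - om) * (m - lr) :=
    mul_le_mul_of_nonneg_left (by linarith) (by linarith)
  have h3 : 0 ≤ om * d := mul_nonneg hom hd0
  have h4 : c * 90000 ≤ c * e := mul_le_mul_of_nonneg_left he (by linarith)
  have h5 : t ^ 2 * s ≤ t ^ 2 * (5 / 2 * e) :=
    mul_le_mul_of_nonneg_left (by linarith) (by positivity)
  have h6 : t ^ 2 * m ≤ t ^ 2 * (5 / 2 * e) := mul_le_mul_of_nonneg_left hm2 (by positivity)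
  have h7 : t * (t * e) ≤ t * (1 / 1000) := mul_le_mul_of_nonneg_left hte ht0.le
  have h8 : t * t ≤ t * (1 / 1000) := mul_le_mul_of_nonneg_left ht ht0.le
  nlinarith

lemma Gap4_ar_out {B A om oo co lr eo m s t : ℝ} (hB : t ≤ B) (hA : B / 4 ≤ A - om - oo)
    (hoo : 0 ≤ oo) (hco : co ≤ B) (hD : 1000 ≤ s - lr) (hm : m - eo ≤ s - lr)
    (hm2 : 1 + m ≤ 4 * (s - lr)) (hs : s ≤ m) (hm0 : 0 ≤ m) (ht0 : 0 < t) (ht : t ≤ 1 / 1000) :
    t ≤ (-A + om) * lr + oo * eo - t ^ 2 - (om * s + t ^ 2 * (1 + s)) +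
      (A * s - 4 * (t ^ 2 * (1 + s))) - (oo * m + 6 * co + t ^ 2 * (1 + m)) := by
  have h1 : oo * (m - eo) ≤ oo * (s - lr) := mul_le_mul_of_nonneg_left hm hoo
  have h2 : B / 4 * (s - lr) ≤ (A - om - oo) * (s - lr) :=
    mul_le_mul_of_nonneg_right hA (by linarith)
  have h3 : B * 1000 ≤ B * (s - lr) := mul_le_mul_of_nonneg_left hD (by linarith)
  have h4 : t ^ 2 * (1 + s) ≤ t ^ 2 * (1 + m) :=
    mul_le_mul_of_nonneg_left (by linarith) (by positivity)
  have h5 : t ^ 2 * 1 ≤ t ^ 2 * (1 + m) := mul_le_mul_of_nonneg_left (by linarith) (by positivity)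
  have h6 : t ^ 2 ≤ B / 1000 := by nlinarith
  have h7 : t ^ 2 * (1 + m) ≤ B / 1000 * (4 * (s - lr)) :=
    mul_le_mul h6 hm2 (by linarith) (by linarith)
  nlinarith

variable {x : Prm} (hx : InK x) (he : Eqs x)
include hx he

theorem gap_face_in (j : ℕ) {z : ℂ} (hz : ‖z‖ ≤ (tt j)⁻¹ ^ 80) :
    frm.Ut x.dat (CC x) (bs (j + 2) - 1) z + 1 ≤ frm.Ut x.dat (CC x) (bs (j + 2)) z := by
  have hb := Gap4_base hx he j z
  have hD := Gap4_Ds hx j
  have hz1 : ‖z‖ ≤ (tt (j + 1))⁻¹ ^ 24 := by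
    rw [Gap4_pow_succ]
    exact hz.trans (Gap4_pow j (by norm_num))
  have hz2 : ‖z‖ ≤ (tt (j + 2))⁻¹ ^ 24 := by
    rw [Gap4_pow_succ]
    exact hz1.trans (Gap4_pow _ (by norm_num))
  have g1 := (abs_le.1 (hx.G_in true (j := j + 1) (by omega) (Lb (j + 1)) hz1)).1
  have g2 := (abs_le.1 (hx.G_in false (j := j + 1) (by omega) (Lb (j + 1)) hz1)).1
  have g3 := (abs_le.1 (hx.G_in false (j := j + 1) (by omega) (Lb (j + 1) + 1) hz1)).2
  have g4 := (abs_le.1 (hx.G_in true (j := j + 1) (by omega) (Lb (j + 1) - 1) hz1)).2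
  have g5 := (abs_le.1 (hx.G_in false (j := j + 2) (by omega) 1 hz2)).2
  rw [x.lr_one] at g5
  have g6 := hx.G_up true j (NN j - 1) z
  have hw := x.wlr_eq (j + 1) (Lb_pos (j + 1))
  have l1 := mul_le_mul_of_nonneg_left
    (Gap4_log ((x.wall (j + 1)).y (nn (j + 1)) (Lb (j + 1) - 1)))
    (Gap4_c_nonneg hx (j + 1) (Lb (j + 1) - 1))
  have l2 := mul_le_mul_of_nonneg_left
    (Gap4_log (-(x.wall (j + 1)).y (nn (j + 1)) (Lb (j + 1))))
    (Gap4_c_nonneg hx (j + 1) (Lb (j + 1) + 1))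
  have s1 := Gap4_sq j
  have s2 := Gap4_sq (j + 1)
  have e1 := Gap4_ell j
  have e2 := ell_succ j
  have l3 : 0 ≤ (x.wall (j + 1)).c (Lb (j + 1)) * (999 / 1000 * ell (j + 1) - 1 / 1000) :=
    mul_nonneg (Gap4_c_nonneg hx _ _) (by linarith)
  have hoe : 100 ≤ x.w j (NN j - 1) * ell j := by
    have a1 := (Gap4_om_i hx j).1
    have a2 : (33 / 20) ^ j / Mt j ≤ x.W j / Mt j :=
      div_le_div_of_nonneg_right (hx.W_ge j) (by positivity)
    have a3 : ((33 : ℝ) / 20) ^ j / Mt j * 4 ^ j = (33 / 25) ^ j := by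
      unfold Mt
      push_cast
      rw [← div_pow, ← mul_pow]
      norm_num
    have a4 : (1 : ℝ) ≤ (33 / 25) ^ j := one_le_pow₀ (by norm_num)
    have a5 : (0 : ℝ) ≤ (33 / 20) ^ j / Mt j := by positivity
    have a6 : 1 / 2 * (((33 : ℝ) / 20) ^ j / Mt j) * (90000 * 4 ^ j) ≤ x.w j (NN j - 1) * ell j :=
      mul_le_mul (by linarith) (ell_ge j) (by positivity) (hx.w_nonneg _ _)
    nlinarith
  have key := Gap4_ar_in (lr := x.lr (j + 1) (Lb (j + 1))) (hx.w_nonneg j (NN j - 1))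
    (by linarith [(abs_le.1 (Gap4_lr hx j)).1]) (Gap4_mx_le j hz) (Gap4_c_le hx j (NN j - 1)) e1 hoe
    (tt_pos j) (tt_le j) (by rw [← e2]; exact Gap4_t_ell j)
  unfold Prm.Br at hb
  linarith

theorem gap_face_mid (j : ℕ) {z : ℂ} (h1 : (tt j)⁻¹ ^ 80 ≤ ‖z‖) (h2 : ‖z‖ ≤ (tt (j + 1))⁻¹ ^ 80) :
    frm.Ut x.dat (CC x) (bs (j + 2) - 1) z + tt j ≤ frm.Ut x.dat (CC x) (bs (j + 2)) z := by
  have hb := Gap4_base hx he j z
  have hD := Gap4_Ds hx j
  have hz0 : 0 < ‖z‖ := lt_of_lt_of_le (pow_pos (inv_pos.2 (tt_pos j)) _) h1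
  have hz1 : (tt j)⁻¹ ^ 40 ≤ ‖z‖ := (Gap4_pow j (by norm_num)).trans h1
  have hz2 : ‖z‖ ≤ (tt (j + 2))⁻¹ ^ 24 := by
    rw [Gap4_pow_succ]
    exact h2.trans (Gap4_pow _ (by norm_num))
  have g1 := hx.G_lo true (j := j + 1) (by omega) (Lb (j + 1)) z
  have g2 := hx.G_lo false (j := j + 1) (by omega) (Lb (j + 1)) z
  have g3 := hx.G_up false (j + 1) (Lb (j + 1) + 1) z
  have g4 := hx.G_up true (j + 1) (Lb (j + 1) - 1) z
  have g5 := (abs_le.1 (hx.G_in false (j := j + 2) (by omega) 1 hz2)).2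
  rw [x.lr_one] at g5
  have g6 := (abs_le.1 (hx.G_out true j (NN j - 1) hz1)).2
  have l1 := mul_nonneg (Gap4_c_nonneg hx (j + 1) (Lb (j + 1) - 1))
    (Gap4_log0 ((x.wall (j + 1)).y (nn (j + 1)) (Lb (j + 1) - 1)))
  have l2 := mul_nonneg (Gap4_c_nonneg hx (j + 1) (Lb (j + 1) + 1))
    (Gap4_log0 (-(x.wall (j + 1)).y (nn (j + 1)) (Lb (j + 1))))
  have s1 := Gap4_sq j
  have s2 := Gap4_sq (j + 1)
  have e1 := Gap4_ell (j + 1)
  have m1 := Gap4_mx_ge (j + 1) z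
  have s3 : tt (j + 1) ^ 2 * (1 + mx (j + 1) z) ≤ tt j ^ 2 * (1 + mx (j + 1) z) :=
    mul_le_mul_of_nonneg_right s1 (by linarith)
  have c1 := Gap4_c_L hx (j + 1) (Lb (j + 1) + 1)
  have c2 := Gap4_c_L hx (j + 1) (Lb (j + 1) - 1)
  have hn := Mac2_nn_pos (j + 1)
  have hW := Gap4_W_one hx (j + 1)
  have hc : tt j ≤ (x.wall (j + 1)).c (Lb (j + 1)) := by
    rw [x.Mac1_c, x.w_L, le_div_iff₀ hn]
    linarith [Gap4_t_n j]
  have hA : x.w j (NN j - 1) ≤ -x.D2 (j + 1) (Lb (j + 1)) := by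
    have a1 := (Gap4_slopes hx j).1
    have a2 : 0 ≤ x.W (j + 1) / Lb (j + 1) := by positivity
    linarith [hx.w_nonneg (j + 2) 1]
  have hd : -x.D2 (j + 1) (Lb (j + 1)) * (1 / (1000 * nn (j + 1))) ≤
      (x.wall (j + 1)).c (Lb (j + 1)) := by
    rw [x.Mac1_c, x.w_L, mul_one_div, ← div_div]
    refine div_le_div_of_nonneg_right ?_ hn.le
    unfold Prm.D2
    rw [x.w_L]
    linarith [hx.w_nonneg (j + 1) (Lb (j + 1) + 1), hx.w_nonneg (j + 1) (Lb (j + 1) - 1)]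
  have key := Gap4_ar_mid (lr := x.lr (j + 1) (Lb (j + 1))) hc (hx.w_nonneg j (NN j - 1)) hA hd
    (by positivity)
    (by linarith [(abs_le.1 (hx.lr_near (j := j + 1) (by omega) (Gap4_LN (j + 1)).le)).2])
    m1 (Gap4_mx_log (j + 1) hz0) (Gap4_mx_le (j + 1) h2) e1 (tt_pos j) (tt_le j) (Gap4_t_ell j)
  unfold Prm.Br at hb
  unfold Prm.D2 at key hD
  linarith

theorem gap_face_out (j : ℕ) {z : ℂ} (hz : (tt (j + 1))⁻¹ ^ 80 ≤ ‖z‖) :
    frm.Ut x.dat (CC x) (bs (j + 2) - 1) z + tt j ≤ frm.Ut x.dat (CC x) (bs (j + 2)) z := by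
  have hb := Gap4_base hx he j z
  have hD := Gap4_Ds hx j
  have hp : 0 < (tt (j + 1))⁻¹ ^ 80 := pow_pos (inv_pos.2 (tt_pos _)) _
  have hz0 : 0 < ‖z‖ := lt_of_lt_of_le hp hz
  have hz1 : (tt (j + 1))⁻¹ ^ 40 ≤ ‖z‖ := (Gap4_pow _ (by norm_num)).trans hz
  have hz2 : (tt j)⁻¹ ^ 40 ≤ ‖z‖ := by
    rw [Gap4_pow_succ] at hz1
    exact (Gap4_pow _ (by norm_num)).trans hz1
  have hs : 5 / 2 * ell (j + 1) ≤ Real.log ‖z‖ := by
    rw [← Gap4_log80]
    exact Real.log_le_log hp hz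
  have g1 := (abs_le.1 (hx.G_out true (j + 1) (Lb (j + 1)) hz1)).1
  have g2 := (abs_le.1 (hx.G_out false (j + 1) (Lb (j + 1)) hz1)).1
  have g3 := (abs_le.1 (hx.G_out false (j + 1) (Lb (j + 1) + 1) hz1)).2
  have g4 := (abs_le.1 (hx.G_out true (j + 1) (Lb (j + 1) - 1) hz1)).2
  have g5 := hx.G_up false (j + 2) 1 z
  have g6 := (abs_le.1 (hx.G_out true j (NN j - 1) hz2)).2
  have l1 := mul_nonneg (Gap4_c_nonneg hx (j + 1) (Lb (j + 1) - 1))
    (Gap4_log0 ((x.wall (j + 1)).y (nn (j + 1)) (Lb (j + 1) - 1)))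
  have l2 := mul_nonneg (Gap4_c_nonneg hx (j + 1) (Lb (j + 1) + 1))
    (Gap4_log0 (-(x.wall (j + 1)).y (nn (j + 1)) (Lb (j + 1))))
  have s1 := Gap4_sq j
  have s2 := Gap4_sq (j + 1)
  have e1 := Gap4_ell (j + 1)
  have e2 : ell (j + 2) = 4 * ell (j + 1) := ell_succ (j + 1)
  have l3 : 0 ≤ (x.wall (j + 1)).c (Lb (j + 1)) * (999 / 1000 * ell (j + 1) - 1 / 1000) :=
    mul_nonneg (Gap4_c_nonneg hx _ _) (by linarith)
  have m1 := Gap4_mx_ge (j + 2) z
  have s3 : tt (j + 1) ^ 2 * (1 + Real.log ‖z‖) ≤ tt j ^ 2 * (1 + Real.log ‖z‖) :=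
    mul_le_mul_of_nonneg_right s1 (by linarith)
  have s4 : tt (j + 2) ^ 2 * (1 + mx (j + 2) z) ≤ tt j ^ 2 * (1 + mx (j + 2) z) :=
    mul_le_mul_of_nonneg_right (s2.trans s1) (by linarith)
  have hL := Mac2_Lb_one (j + 1)
  have hW := Gap4_W_one hx (j + 1)
  have hB : tt j ≤ x.W (j + 1) / Lb (j + 1) := by
    rw [le_div_iff₀ (by linarith)]
    linarith [Gap4_t_L j]
  have hlr := (abs_le.1 (Gap4_lr hx j)).2
  have hm : mx (j + 2) z - ell (j + 2) ≤ Real.log ‖z‖ - x.lr (j + 1) (Lb (j + 1)) := by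
    rcases Gap4_mx_cases (j + 2) z with h | h
    · linarith [h.1]
    · linarith
  have hm2 : 1 + mx (j + 2) z ≤ 4 * (Real.log ‖z‖ - x.lr (j + 1) (Lb (j + 1))) := by
    rcases Gap4_mx_cases (j + 2) z with h | h
    · linarith [h.1, h.2]
    · linarith
  have key := Gap4_ar_out hB (Gap4_slopes hx j).1 (hx.w_nonneg (j + 2) 1)
    ((Gap4_c_le hx (j + 2) 1).trans (Gap4_slopes hx j).2) (by linarith) hm hm2
    (Gap4_mx_log (j + 2) hz0) (by linarith) (tt_pos j) (tt_le j)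
  unfold Prm.Br at hb
  unfold Prm.D2 at key hD
  linarith

end Pool.Agent.MP_943ae2_gt

end
end
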