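import Pool.Agent.Mg.F943ae2.G3fd220
import Pool.Agent.Mg.F943ae2.G08e149
import Pool.Agent.Mg.F943ae2.Gbb4df3

section

/-! The concrete configuration. Block `j` has `5 ^ j` layers; wall `j` (radius `rho j`, `nn j` necks
per ring) joins the `Lb j` layers of block `j - 1` and the `Mt j` layers of block `j`; its local
layers are `1, ..., NN j` and its rings `1, ..., NN j - 1`. Wall `0` is the single central neck. -/

open Set Complex Filter Finset
open scoped Topology ComplexConjugate ContDiff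

noncomputable section

namespace Pool.Agent.MP_943ae2_gt

def Lb (j : ℕ) : ℕ := 5 ^ (j - 1)
def Mt (j : ℕ) : ℕ := 5 ^ j
def NN (j : ℕ) : ℕ := Lb j + Mt j
def nn (j : ℕ) : ℕ := if j = 0 then 1 else 2 ^ 50 * 25 ^ (j - 5)

instance nn_neZero (j : ℕ) : NeZero (nn j) := ⟨by unfold nn; split_ifs <;> positivity⟩

def tt (j : ℕ) : ℝ := (1 / 2) ^ (4096 * 4 ^ j)
def rho (j : ℕ) : ℝ := (tt j)⁻¹ ^ 32
def ell (j : ℕ) : ℝ := Real.log (rho j)
def PP (j : ℕ) : ℝ := 2 ^ (64 + 5 * j)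

/-- global index of the local layer `1` of wall `j` -/
def bs : ℕ → ℕ
  | 0 => 0
  | j + 1 => bs j + Lb j

/-- the block that contains a layer -/
def lev (l : ℕ) : ℕ := Nat.findGreatest (fun j => bs (j + 1) ≤ l) l

structure Nk where
  j : ℕ
  k : ℕ
  i : ZMod (nn j)
  h1 : 1 ≤ k
  h2 : k < NN j

def Nk.gap (ν : Nk) : ℕ := bs ν.j + ν.k - 1

lemma le_bs (j : ℕ) : j ≤ bs j := by
  induction j with
  | zero => simp
  | succ j ih => have : 0 < Lb j := by unfold Lb; positivity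
                 simp only [bs]; omega

lemma nk_fin (l : ℕ) : {e : Nk × Bool | e.1.gap + (if e.2 then 1 else 0) = l}.Finite := by
  let g : Nk × Bool → (Σ j, ℕ × ZMod (nn j)) × Bool := fun e => (⟨e.1.j, e.1.k, e.1.i⟩, e.2)
  have hg : Function.Injective g := by
    rintro ⟨⟨j, k, i, _, _⟩, s⟩ ⟨⟨j', k', i', _, _⟩, s'⟩ h
    simp only [g, Prod.mk.injEq, Sigma.mk.injEq] at h
    obtain ⟨⟨rfl, h⟩, rfl⟩ := h
    obtain ⟨rfl, rfl⟩ := Prod.mk.inj (eq_of_heq h)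
    rfl
  refine Set.Finite.subset (Set.Finite.preimage hg.injOn
    ((((Finset.range (l + 2)).sigma fun j => Finset.range (l + 2) ×ˢ (univ : Finset (ZMod (nn j)))) ×ˢ
      (univ : Finset Bool)).finite_toSet)) ?_
  rintro ⟨⟨j, k, i, h1, h2⟩, s⟩ h
  have := le_bs j
  simp only [Set.mem_ofPred_eq, Nk.gap] at h
  simp only [g, Set.mem_preimage, Finset.mem_coe, Finset.mem_product, Finset.mem_sigma,
    Finset.mem_range, Finset.mem_univ, and_true]
  constructor <;> split_ifs at h <;> omega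

def frm : Frm Nk where
  gap := Nk.gap
  t ν := tt ν.j
  T l := tt (lev l)
  sides l := (nk_fin l).toFinset
  mem_sides l e := by simp

/-- sum over the lower (`s = false`) or upper (`s = true`) sides of ring `k` of wall `j` -/
def ringSum {M : Type} [AddCommMonoid M] (f : Nk × Bool → M) (s : Bool) (j k : ℕ) : M :=
  if h : 1 ≤ k ∧ k < NN j then ∑ i, f (⟨j, k, i, h.1, h.2⟩, s) else 0

/-- sum over the sides of wall `j` on its local layer `i` -/
def wallSum {M : Type} [AddCommMonoid M] (f : Nk × Bool → M) (j i : ℕ) : M :=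
  ringSum f false j i + ringSum f true j (i - 1)

abbrev RF (K : Type) := ∀ j, ℕ → ZMod (nn j) → K

/-- the unknowns -/
abbrev Prm := (ℕ → ℝ) × (ℕ → ℕ → ℝ) × (ℕ → ℕ → ℝ) × RF ℂ × RF ℝ × RF ℝ × RF ℂ

/-- solution of `d (a+1) - 2 d a + d (a-1) = s a` for `0 < a < m`, `d 0 = d m = 0` -/
def prof (s : ℕ → ℝ) (m a : ℕ) : ℝ :=
  ∑ i ∈ Icc 1 a, (∑ l ∈ Ico 1 i, s l - (∑ i' ∈ Icc 1 m, ∑ l ∈ Ico 1 i', s l) / m)

namespace Prm

variable (x : Prm)

def u : ℕ → ℝ := x.1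
def s : ℕ → ℕ → ℝ := x.2.1
def y : ℕ → ℕ → ℝ := x.2.2.1
def ξ : RF ℂ := x.2.2.2.1
def ε : RF ℝ := x.2.2.2.2.1
def io : RF ℝ := x.2.2.2.2.2.1
def de : RF ℂ := x.2.2.2.2.2.2

def W : ℕ → ℝ
  | 0 => 1
  | j + 1 => W j * x.u (j + 1)

def sTop (j a : ℕ) : ℝ := x.s j a * x.W j / nn j

def sBot (j k : ℕ) : ℝ := -x.sTop (j - 1) k - x.W j / nn j

def w (j k : ℕ) : ℝ :=
  if k ≤ Lb j then x.W j * k / Lb j + prof (x.sBot j) (Lb j) k
  else if k ≤ NN j then x.W j * (NN j - k) / Mt j + prof (x.sTop j) (Mt j) (k - Lb j) else 0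

def D2 (j k : ℕ) : ℝ := x.w j (k + 1) - 2 * x.w j k + x.w j (k - 1)

def lr (j k : ℕ) : ℝ := ell j - (∑ i ∈ Ico 1 k, x.y j i) / nn j

def wall (j : ℕ) : Wall where
  N := NN j
  c k := x.w j k / nn j
  g k := if j = 0 then 0 else -x.D2 (j - 1) (Lb (j - 1) + k)
  lr := x.lr j

def pp (j k : ℕ) (i : ZMod (nn j)) : ℂ := if j = 0 then 0 else (x.wall j).p (nn j) (x.ξ j) k i

def bq (j k : ℕ) (i : ZMod (nn j)) : ℝ := (x.wall j).bq (nn j) (x.ε j) k i

def dat : Dat Nk :=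
  (fun e => x.pp e.1.j e.1.k e.1.i + if e.2 then x.de e.1.j e.1.k e.1.i else 0,
    fun ν => x.bq ν.j ν.k ν.i + x.io ν.j ν.k ν.i * I)

/-- extension by zero of a function of the necks -/
def ext {K : Type} [Zero K] (f : Nk → K) : RF K := fun j k i =>
  if h : 1 ≤ k ∧ k < NN j then f ⟨j, k, i, h.1, h.2⟩ else 0

/-- true force -/
def Ft : RF ℂ := ext fun ν =>
  x.pp ν.j ν.k ν.i * (conj (frm.ra x.dat (ν, false)) + frm.rb x.dat (ν, false)) /
    (2 * x.bq ν.j ν.k ν.i)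

/-- true gap -/
def Dt : RF ℝ := ext fun ν => frm.J3 x.dat (ν, false) - frm.J3 x.dat (ν, true)

/-- contribution of the next wall to the gap -/
def Oc (j k : ℕ) : ℝ :=
  if Lb j ≤ k then x.w (j + 1) (k - Lb j + 1) * x.lr (j + 1) (k - Lb j + 1) -
    2 * x.w (j + 1) (k - Lb j) * x.lr (j + 1) (k - Lb j) +
    x.w (j + 1) (k - Lb j - 1) * x.lr (j + 1) (k - Lb j - 1) else 0

def err (j k : ℕ) : ℝ := (x.wall j).Em (nn j) k - avg (nn j) fun i => (x.Ft j k i).re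

def eta (j k : ℕ) : ℝ := (x.wall j).g k - x.D2 j k / 2 - (x.wall j).c k - x.err j k

def psi (j k : ℕ) : ℝ :=
  if k < Lb j then ∑ i ∈ Icc 1 k, x.w j i * x.eta j i else -∑ i ∈ Ioo k (NN j), x.w j i * x.eta j i

def ff (j k : ℕ) : ℝ := x.psi j k / (x.w j k * x.w j (k + 1))

def uN (j : ℕ) : ℝ :=
  if j = 0 then 5 / 3 else
    x.u j - 5 / 3 * (Lb j / (x.W (j - 1) * x.W j)) * ∑ i ∈ Ico 1 (NN j), x.w j i * x.eta j i

def sN (j a : ℕ) : ℝ :=
  if 1 ≤ a ∧ a < Mt j then x.s j a + nn j / x.W j *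
    (avg (nn j) (x.Dt j (Lb j + a)) - avg (nn (j + 1)) (x.Dt (j + 1) a)) / (3 * ell j) else 0

def yN (j k : ℕ) : ℝ :=
  if 1 ≤ k ∧ k + 1 < NN j then Real.log ((1 + 2 * x.ff j k) / (1 - 2 * x.ff j k)) else 0

def vξ (j k : ℕ) (i : ZMod (nn j)) : ℂ := (x.wall j).c k * (x.Ft j k i - avgC (nn j) (x.Ft j k))

def vε (j k : ℕ) (i : ZMod (nn j)) : ℝ := -(x.Dt j k i - avg (nn j) (x.Dt j k))

def sc (j : ℕ) : ℝ :=
  tt j ^ 3 / max (tt j ^ 3) √((x.wall j).nsq (nn j) (x.ξ j + x.vξ j) (x.ε j + x.vε j))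

def ξN : RF ℂ := fun j k i => x.sc j * (x.ξ j k i + x.vξ j k i)

def εN : RF ℝ := fun j k i => x.sc j * (x.ε j k i + x.vε j k i)

def ioN : RF ℝ := ext fun ν => x.io ν.j ν.k ν.i + (frm.rab x.dat (ν, false)).im

def deN : RF ℂ := ext fun ν =>
  x.de ν.j ν.k ν.i + (frm.Jh x.dat (ν, false) - frm.Jh x.dat (ν, true))

/-- the map whose fixed point solves the period problem -/
def Phi : Prm := (x.uN, x.sN, x.yN, x.ξN, x.εN, x.ioN, x.deN)

end Prm

/-- the rotation of the global symmetry group, its shift on the rings of wall `j` -/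
def uu : ℂ := exp (2 * Real.pi * I / 2 ^ 50)

def sh (j : ℕ) : ZMod (nn j) := ((25 ^ (j - 5) : ℕ) : ZMod (nn j))

structure InK (x : Prm) : Prop where
  u_mem : ∀ j, |x.u j - 5 / 3| ≤ 1 / 100
  s_le : ∀ j a, |x.s j a| ≤ 8
  y_le : ∀ j k, |x.y j k| ≤ 2000 * NN j / nn j
  ξ_out : ∀ j k i, (k = 0 ∨ NN j ≤ k) → x.ξ j k i = 0
  ε_out : ∀ j k i, (k = 0 ∨ NN j ≤ k) → x.ε j k i = 0
  nsq_le : ∀ j, (x.wall j).nsq (nn j) (x.ξ j) (x.ε j) ≤ (tt j ^ 3) ^ 2
  ξ_mean : ∀ j k, ∑ i, x.ξ j k i = 0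
  ε_mean : ∀ j k, ∑ i, x.ε j k i = 0
  io_le : ∀ j k i, |x.io j k i| ≤ tt j ^ 28
  de_le : ∀ j k i, ‖x.de j k i‖ ≤ (tt j)⁻¹ ^ 3
  ξ_rot : ∀ j k i, x.ξ j k (i + sh j) = x.ξ j k i
  ε_rot : ∀ j k i, x.ε j k (i + sh j) = x.ε j k i
  io_rot : ∀ j k i, x.io j k (i + sh j) = x.io j k i
  de_rot : ∀ j k i, x.de j k (i + sh j) = uu * x.de j k i
  ξ_refl : ∀ j (k : ℕ) i, x.ξ j k (-i - k) = conj (x.ξ j k i)
  ε_refl : ∀ j (k : ℕ) i, x.ε j k (-i - k) = x.ε j k i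
  io_refl : ∀ j (k : ℕ) i, x.io j k (-i - k) = -x.io j k i
  de_refl : ∀ j (k : ℕ) i, x.de j k (-i - k) = conj (x.de j k i)

/-- the equations solved by a fixed point -/
structure Eqs (x : Prm) : Prop where
  force : ∀ j k i, x.Ft j k i = 0
  ring : ∀ j k i i', x.Dt j k i = x.Dt j k i'
  two : ∀ j a i i', 1 ≤ a → a < Mt j → x.Dt j (Lb j + a) i = x.Dt (j + 1) a i'
  ver : ∀ ν, (frm.rab x.dat (ν, false)).im = 0
  bh : ∀ ν, frm.Jh x.dat (ν, false) = frm.Jh x.dat (ν, true)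

/-- the height constants -/
def CC (x : Prm) : ℕ → ℝ
  | 0 => 0
  | l + 1 => CC x l + if l = 0 then x.Dt 0 1 0 else x.Dt (lev l + 1) (l + 1 - bs (lev l + 1)) 0

def rotN : Nk ≃ Nk where
  toFun ν := ⟨ν.j, ν.k, ν.i + sh ν.j, ν.h1, ν.h2⟩
  invFun ν := ⟨ν.j, ν.k, ν.i - sh ν.j, ν.h1, ν.h2⟩
  left_inv ν := by simp
  right_inv ν := by simp

def reflN : Nk ≃ Nk where
  toFun ν := ⟨ν.j, ν.k, -ν.i - ν.k, ν.h1, ν.h2⟩
  invFun ν := ⟨ν.j, ν.k, -ν.i - ν.k, ν.h1, ν.h2⟩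
  left_inv ν := by simp
  right_inv ν := by simp

end Pool.Agent.MP_943ae2_gt

end
end

section

open Set Complex Filter Finset
open scoped Topology ComplexConjugate ContDiff

noncomputable section

namespace Pool.Agent.MP_943ae2_gt

lemma Cst_lt (j : ℕ) : j < 4 ^ j := Nat.lt_pow_self (by norm_num)

lemma Cst_inv (j : ℕ) : (tt j)⁻¹ = 2 ^ (4096 * 4 ^ j) := by
  rw [tt, one_div, inv_pow, inv_inv]

lemma Cst_PP (j : ℕ) : PP j = 2 ^ 64 * 32 ^ j := by
  rw [PP, pow_add, pow_mul]; norm_num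

lemma Cst_le {a : ℝ} (h0 : 0 ≤ a) (h : a ≤ 32) (j : ℕ) : a ^ j ≤ 32 ^ j :=
  pow_le_pow_left₀ h0 h j

theorem tt_pos (j : ℕ) : 0 < tt j := by unfold tt; positivity

theorem tt_succ (j : ℕ) : tt (j + 1) = tt j ^ 4 := by
  rw [tt, tt, ← pow_mul, pow_succ, mul_assoc]

theorem tt_anti : Antitone tt := fun _ _ h =>
  pow_le_pow_of_le_one (by norm_num) (by norm_num)
    (Nat.mul_le_mul_left _ (Nat.pow_le_pow_right (by norm_num) h))

theorem tt_le (j : ℕ) : tt j ≤ 1 / 1000 := by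
  have h : tt j ≤ (1 / 2) ^ 10 := pow_le_pow_of_le_one (by norm_num) (by norm_num)
    (by have := Cst_lt j; omega)
  exact h.trans (by norm_num)

theorem PP_tt (j : ℕ) : PP j ^ 60 * tt j ≤ 1 := by
  rw [← le_div_iff₀ (tt_pos j), one_div, Cst_inv, PP, ← pow_mul]
  exact pow_le_pow_right₀ (by norm_num) (by have := Cst_lt j; omega)

theorem PP_ge (j : ℕ) : 2 ^ 64 ≤ PP j := pow_le_pow_right₀ (by norm_num) (by omega)

theorem PP_succ (j : ℕ) : PP (j + 1) = 32 * PP j := by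
  rw [Cst_PP, Cst_PP, pow_succ]; ring

theorem nn_zero : nn 0 = 1 := rfl

lemma Cst_nn {j : ℕ} (hj : 1 ≤ j) : nn j = 2 ^ 50 * 25 ^ (j - 5) := if_neg (by omega)

theorem Lb_pos (j : ℕ) : 1 ≤ Lb j := Nat.one_le_pow _ _ (by norm_num)
theorem Mt_pos (j : ℕ) : 1 ≤ Mt j := Nat.one_le_pow _ _ (by norm_num)
theorem Lb_succ (j : ℕ) : Lb (j + 1) = Mt j := rfl

theorem Mt_eq {j : ℕ} (hj : 1 ≤ j) : Mt j = 5 * Lb j := by
  obtain ⟨j, rfl⟩ := Nat.exists_eq_add_of_le' hj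
  rw [Lb_succ, Mt, Mt, pow_succ']

theorem NN_eq {j : ℕ} (hj : 1 ≤ j) : NN j = 6 * Lb j := by
  rw [NN, Mt_eq hj]; ring

theorem NN_mono (j : ℕ) : NN j ≤ NN (j + 1) :=
  Nat.add_le_add (Nat.pow_le_pow_right (by norm_num) (by omega))
    (Nat.pow_le_pow_right (by norm_num) (by omega))

theorem Lb_zero : Lb 0 = 1 := rfl
theorem Mt_zero : Mt 0 = 1 := rfl
theorem NN_zero : NN 0 = 2 := rfl

theorem nn_le_PP (j : ℕ) : 2 ^ 10 * (nn (j + 1) : ℝ) ≤ PP j := by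
  have h1 : (25 : ℝ) ^ (j - 4) ≤ 25 ^ j := pow_le_pow_right₀ (by norm_num) (by omega)
  have h2 := Cst_le (a := 25) (by norm_num) (by norm_num) j
  have h3 : (0 : ℝ) ≤ 32 ^ j := by positivity
  rw [Cst_nn (by omega), Cst_PP]
  push_cast
  linarith

theorem NN_le_PP (j : ℕ) : 2 ^ 10 * (NN (j + 1) : ℝ) ≤ PP j := by
  have h2 := Cst_le (a := 5) (by norm_num) (by norm_num) j
  have h3 : (0 : ℝ) ≤ 32 ^ j := by positivity
  rw [NN_eq (by omega), Lb_succ, Mt, Cst_PP]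
  push_cast
  linarith

theorem two_pow_le_PP (j : ℕ) : 2 ^ 10 * (2 : ℝ) ^ (j + 1) ≤ PP j := by
  have h2 := Cst_le (a := 2) (by norm_num) (by norm_num) j
  have h3 : (0 : ℝ) ≤ 32 ^ j := by positivity
  rw [Cst_PP, pow_succ _ j]
  linarith

theorem nn_ge {j : ℕ} (hj : 1 ≤ j) : 2 ^ 50 ≤ nn j := by
  rw [Cst_nn hj]
  exact Nat.le_mul_of_pos_right _ (by positivity)

theorem nn_mono (j : ℕ) : nn j ≤ nn (j + 1) := by
  rcases Nat.eq_zero_or_pos j with rfl | hj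
  · exact Nat.pos_of_ne_zero (NeZero.ne _)
  · rw [Cst_nn hj, Cst_nn (by omega)]
    exact Nat.mul_le_mul_left _ (Nat.pow_le_pow_right (by norm_num) (by omega))

theorem nn_succ_le {j : ℕ} (hj : 1 ≤ j) : nn (j + 1) ≤ 25 * nn j := by
  rw [Cst_nn hj, Cst_nn (by omega), mul_left_comm, ← pow_succ']
  exact Nat.mul_le_mul_left _ (Nat.pow_le_pow_right (by norm_num) (by omega))

theorem nn_big {j : ℕ} (hj : 1 ≤ j) : (10 : ℝ) ^ 7 * (NN j : ℝ) ^ 2 ≤ nn j := by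
  have h1 : (25 : ℝ) ^ (j - 1) ≤ 25 ^ (j - 5 + 4) := pow_le_pow_right₀ (by norm_num) (by omega)
  have h2 : ((5 : ℝ) ^ (j - 1)) ^ 2 = 25 ^ (j - 1) := by
    rw [← pow_mul, mul_comm, pow_mul]; norm_num
  have h3 : (0 : ℝ) ≤ 25 ^ (j - 5) := by positivity
  rw [pow_add] at h1
  rw [NN_eq hj, Cst_nn hj, Lb]
  push_cast
  rw [mul_pow, h2]
  linarith

theorem rho_pos (j : ℕ) : 0 < rho j := pow_pos (inv_pos.2 (tt_pos j)) _

theorem rho_succ (j : ℕ) : rho (j + 1) = rho j ^ 4 := by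
  rw [rho, rho, tt_succ, ← inv_pow, ← pow_mul, ← pow_mul]

theorem exp_ell (j : ℕ) : Real.exp (ell j) = rho j := Real.exp_log (rho_pos j)

theorem ell_succ (j : ℕ) : ell (j + 1) = 4 * ell j := by
  rw [ell, ell, rho_succ, Real.log_pow]; norm_num

theorem ell_eq (j : ℕ) : ell j = 32 * Real.log (tt j)⁻¹ := by
  rw [ell, rho, Real.log_pow]; norm_num

lemma Cst_ell (j : ℕ) : ell j = 131072 * 4 ^ j * Real.log 2 := by
  rw [ell_eq, Cst_inv, Real.log_pow]; push_cast; ring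

theorem ell_le_PP (j : ℕ) : 2 ^ 10 * ell (j + 1) ≤ PP j := by
  have h1 := Cst_le (a := 4) (by norm_num) (by norm_num) j
  have h2 : (4 : ℝ) ^ j * Real.log 2 ≤ 4 ^ j * 1 :=
    mul_le_mul_of_nonneg_left (by linarith [Real.log_two_lt_d9]) (by positivity)
  have h3 : (0 : ℝ) ≤ 32 ^ j := by positivity
  rw [ell_succ, Cst_ell, Cst_PP]
  linarith

theorem ell_ge (j : ℕ) : 90000 * 4 ^ j ≤ ell j := by
  have h2 : (4 : ℝ) ^ j * 0.6931471803 ≤ 4 ^ j * Real.log 2 :=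
    mul_le_mul_of_nonneg_left Real.log_two_gt_d9.le (by positivity)
  have h3 : (0 : ℝ) ≤ 4 ^ j := by positivity
  rw [Cst_ell]
  linarith

theorem log_PP (j : ℕ) : Real.log (PP j) ≤ ell j / 1000 := by
  have h1 : (j : ℝ) + 1 ≤ 4 ^ j := by exact_mod_cast Cst_lt j
  have h2 : ((j : ℝ) + 1) * Real.log 2 ≤ 4 ^ j * Real.log 2 :=
    mul_le_mul_of_nonneg_right h1 (Real.log_nonneg (by norm_num))
  have h3 : 0 ≤ (j : ℝ) * Real.log 2 := mul_nonneg (by positivity) (Real.log_nonneg (by norm_num))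
  have h4 : 0 ≤ Real.log 2 := Real.log_nonneg (by norm_num)
  rw [Cst_ell, PP, Real.log_pow]
  push_cast
  linarith

theorem rho_tendsto : Tendsto rho atTop atTop := by
  refine tendsto_atTop_mono (fun j => ?_) tendsto_natCast_atTop_atTop
  have h1 : (j : ℝ) + 1 ≤ 4 ^ j := by exact_mod_cast Cst_lt j
  have h2 := Real.add_one_le_exp (ell j)
  have h3 := ell_ge j
  have h4 : (0 : ℝ) ≤ j := by positivity
  rw [exp_ell] at h2
  linarith

lemma Cst_bs (j : ℕ) : bs (j + 1) = bs j + Lb j := rfl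

lemma Cst_bs2 (j : ℕ) : bs (j + 2) = bs j + NN j := by
  rw [Cst_bs, Cst_bs, Lb_succ, NN, add_assoc]

lemma Cst_mono : Monotone bs := monotone_nat_of_le_succ fun _ => Nat.le_add_right _ _

theorem layer_cases (l : ℕ) : l = 0 ∨ ∃ j a, 1 ≤ a ∧ a ≤ Mt j ∧ l = bs (j + 1) + a - 1 := by
  induction l with
  | zero => exact .inl rfl
  | succ l ih =>
    right
    rcases ih with rfl | ⟨j, a, h1, h2, h3⟩
    · exact ⟨0, 1, le_rfl, le_rfl, rfl⟩
    · rcases h2.lt_or_eq with h | h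
      · exact ⟨j, a + 1, by omega, h, by omega⟩
      · exact ⟨j + 1, 1, le_rfl, Mt_pos _, by rw [Cst_bs, Lb_succ]; omega⟩

theorem lev_zero : lev 0 = 0 := rfl

theorem lev_mono : Monotone lev := fun _ _ h =>
  Nat.findGreatest_mono (fun _ h' => le_trans h' h) h

theorem lev_block {j a : ℕ} (h1 : 1 ≤ a) (h2 : a ≤ Mt j) : lev (bs (j + 1) + a - 1) = j := by
  have := le_bs (j + 1)
  refine Nat.findGreatest_eq_iff.2 ⟨by omega, fun _ => by omega, fun n hn _ => ?_⟩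
  have h3 : bs (j + 1 + 1) ≤ bs (n + 1) := Cst_mono (by omega)
  rw [Cst_bs, Lb_succ] at h3
  omega

theorem lev_wall {j i : ℕ} (h1 : 1 ≤ i) (h2 : i ≤ NN j) :
    lev (bs j + i - 1) = if i ≤ Lb j then j - 1 else j := by
  split_ifs with h
  · rcases j with _ | j
    · obtain rfl : i = 1 := le_antisymm h h1
      rfl
    · exact lev_block h1 h
  · rw [NN] at h2
    rw [← lev_block (j := j) (a := i - Lb j) (by omega) (by omega), Cst_bs]
    congr 1
    rw [← Cst_bs, lev_block (by omega) (by omega), Cst_bs]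
    omega

theorem lay_eq (e : Nk × Bool) :
    frm.lay e = bs e.1.j + (e.1.k + if e.2 then 1 else 0) - 1 := by
  have := e.1.h1
  change bs e.1.j + e.1.k - 1 + _ = _
  omega

theorem mem_sides_wall {j i : ℕ} (h1 : 1 ≤ i) (h2 : i ≤ NN j) (e : Nk × Bool) :
    e ∈ frm.sides (bs j + i - 1) ↔ (e.1.j = j ∧ (e.1.k + if e.2 then 1 else 0) = i) ∨
      (i ≤ Lb j ∧ e.1.j + 1 = j ∧ (e.1.k + if e.2 then 1 else 0) = Lb e.1.j + i) ∨
      (Lb j < i ∧ e.1.j = j + 1 ∧ (e.1.k + if e.2 then 1 else 0) + Lb j = i) := by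
  rw [frm.mem_sides, ← Frm.lay, lay_eq]
  have h3 : 1 ≤ e.1.k + if e.2 then 1 else 0 := by have := e.1.h1; omega
  have h4 : (e.1.k + if e.2 then 1 else 0) ≤ NN e.1.j := by
    have := e.1.h2; split_ifs <;> omega
  generalize (e.1.k + if e.2 then 1 else 0) = m at h3 h4 ⊢
  generalize e.1.j = q at h4 ⊢
  rcases (show j = q + 1 ∨ q + 2 ≤ j ∨ q = j ∨ q = j + 1 ∨ j + 2 ≤ q by omega) with
    rfl | h | rfl | rfl | h
  · rw [NN] at h4
    have := Cst_bs q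
    have := Lb_succ q
    omega
  · have := Cst_mono h
    rw [Cst_bs2] at this
    omega
  · omega
  · have := Cst_bs j
    omega
  · have := Cst_mono h
    rw [Cst_bs2] at this
    omega

/-- sum over the sides of the neighbouring wall on the local layer `i` of wall `j` -/
def othSum {M : Type} [AddCommMonoid M] (f : Nk × Bool → M) (j i : ℕ) : M :=
  if i ≤ Lb j then (if j = 0 then 0 else wallSum f (j - 1) (Lb (j - 1) + i))
  else wallSum f (j + 1) (i - Lb j)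

variable {M : Type} [AddCommMonoid M] (f : Nk × Bool → M)

lemma Cst_ring (S : Finset (Nk × Bool)) (s : Bool) (j k : ℕ)
    (h : ∀ e, e ∈ S ↔ e.1.j = j ∧ e.1.k = k ∧ e.2 = s) : ∑ e ∈ S, f e = ringSum f s j k := by
  unfold ringSum
  split_ifs with hk
  · symm
    refine sum_bij (fun i _ => (⟨j, k, i, hk.1, hk.2⟩, s)) (fun i _ => (h _).2 ⟨rfl, rfl, rfl⟩)
      (fun i _ i' _ hi => by simpa using hi) ?_ fun _ _ => rfl
    rintro ⟨⟨j', k', i, h1, h2⟩, s'⟩ he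
    obtain ⟨rfl, rfl, rfl⟩ := (h _).1 he
    exact ⟨i, mem_univ _, rfl⟩
  · refine sum_eq_zero fun e he => (hk ?_).elim
    obtain ⟨rfl, rfl, -⟩ := (h _).1 he
    exact ⟨e.1.h1, e.1.h2⟩

lemma Cst_wall (S : Finset (Nk × Bool)) (j i : ℕ)
    (h : ∀ e, e ∈ S ↔ e.1.j = j ∧ (e.1.k + if e.2 then 1 else 0) = i) :
    ∑ e ∈ S, f e = wallSum f j i := by
  rw [← sum_filter_add_sum_filter_not S fun e => e.2 = false, wallSum]
  congr 1 <;> refine Cst_ring f _ _ _ _ ?_ <;> rintro ⟨ν, _ | _⟩ <;> simp [h]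
  have := ν.h1
  omega

theorem sum_sides_wall {j i : ℕ} (h1 : 1 ≤ i) (h2 : i ≤ NN j) :
    ∑ e ∈ frm.sides (bs j + i - 1), f e = wallSum f j i + othSum f j i := by
  rw [← sum_filter_add_sum_filter_not _ fun e => e.1.j = j, othSum]
  congr 1
  · refine Cst_wall f _ _ _ fun e => ?_
    rw [mem_filter, mem_sides_wall h1 h2]
    omega
  · split_ifs with h h0
    · refine sum_eq_zero fun e he => ?_
      rw [mem_filter, mem_sides_wall h1 h2] at he
      omega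
    · refine Cst_wall f _ _ _ fun e => ?_
      rw [mem_filter, mem_sides_wall h1 h2]
      by_cases he : e.1.j = j - 1
      · rw [← he]; omega
      · omega
    · refine Cst_wall f _ _ _ fun e => ?_
      rw [mem_filter, mem_sides_wall h1 h2]
      omega

theorem sum_sides_zero : ∑ e ∈ frm.sides 0, f e = wallSum f 0 1 :=
  (sum_sides_wall f (j := 0) (i := 1) le_rfl (by decide)).trans (add_zero _)

theorem sum_sides_block {j a : ℕ} (h1 : 1 ≤ a) (h2 : a ≤ Mt j) :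
    ∑ e ∈ frm.sides (bs (j + 1) + a - 1), f e = wallSum f j (Lb j + a) + wallSum f (j + 1) a := by
  rw [sum_sides_wall f h1 (h2.trans (Nat.le_add_right _ _)), add_comm, othSum,
    if_pos (show a ≤ Lb (j + 1) from h2), if_neg (Nat.succ_ne_zero j)]
  rfl

lemma Cst_rc {f g : Nk × Bool → M} {s : Bool} {j : ℕ} (k : ℕ)
    (h : ∀ e, e.1.j = j → e.2 = s → f e = g e) : ringSum f s j k = ringSum g s j k := by
  unfold ringSum
  split_ifs
  · exact sum_congr rfl fun _ _ => h _ rfl rfl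
  · rfl

lemma Cst_oc {f g : Nk × Bool → M} {j : ℕ} (i : ℕ) (h : ∀ e, e.1.j ≠ j → f e = g e) :
    othSum f j i = othSum g j i := by
  unfold othSum wallSum
  split_ifs with h1 h2
  · rfl
  all_goals congr 1 <;> exact Cst_rc _ fun e he _ => h e (by omega)

open Classical in
lemma Cst_oth (ν : Nk) (s : Bool) (i : ℕ) (hi : (ν.k + if s then 1 else 0) = i) :
    ∑ μ ∈ frm.oth (ν, s), f μ =
      wallSum (fun μ => if μ = (ν, s) then 0 else f μ) ν.j i + othSum f ν.j i := by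
  have h1 := ν.h1
  have h2 := ν.h2
  rw [← Cst_oc (f := fun μ => if μ = (ν, s) then 0 else f μ) i
      fun e he => if_neg (by rintro rfl; exact he rfl),
    ← sum_sides_wall _ (by omega) (by split_ifs at hi <;> omega), Frm.oth, lay_eq, ← hi,
    ← sum_erase (f := fun μ => if μ = (ν, s) then 0 else f μ) (a := (ν, s)) _ (if_pos rfl)]
  exact sum_congr rfl fun μ hμ => (if_neg (ne_of_mem_erase hμ)).symm

open Classical in
lemma Cst_own (ν : Nk) (s : Bool) :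
    ringSum (fun μ => if μ = (ν, s) then 0 else f μ) s ν.j ν.k =
      ∑ i ∈ univ.erase ν.i, f (⟨ν.j, ν.k, i, ν.h1, ν.h2⟩, s) := by
  rw [ringSum, dif_pos ⟨ν.h1, ν.h2⟩]
  rw [← add_sum_erase _ _ (mem_univ ν.i), if_pos rfl, zero_add]
  refine sum_congr rfl fun i hi => if_neg fun h => ne_of_mem_erase hi ?_
  obtain ⟨j, k, i', h1, h2⟩ := ν
  simpa using h

theorem sum_oth_false (ν : Nk) : ∑ μ ∈ frm.oth (ν, false), f μ =
    ∑ i ∈ univ.erase ν.i, f (⟨ν.j, ν.k, i, ν.h1, ν.h2⟩, false) + ringSum f true ν.j (ν.k - 1) +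
      othSum f ν.j ν.k := by
  rw [Cst_oth f ν false ν.k rfl, wallSum, Cst_own,
    Cst_rc (g := f) _ fun e _ he => if_neg (by rintro rfl; simp at he)]

theorem sum_oth_true (ν : Nk) : ∑ μ ∈ frm.oth (ν, true), f μ =
    ∑ i ∈ univ.erase ν.i, f (⟨ν.j, ν.k, i, ν.h1, ν.h2⟩, true) + ringSum f false ν.j (ν.k + 1) +
      othSum f ν.j (ν.k + 1) := by
  rw [Cst_oth f ν true (ν.k + 1) rfl, wallSum, Nat.add_sub_cancel, Cst_own,
    Cst_rc (g := f) _ fun e _ he => if_neg (by rintro rfl; simp at he), add_comm (ringSum _ _ _ _)]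

lemma Cst_r1 (s : Bool) (j k : ℕ) : ringSum (fun _ => (1 : ℝ)) s j k ≤ nn j := by
  unfold ringSum
  split_ifs <;> simp

lemma Cst_w1 (j i : ℕ) : wallSum (fun _ => (1 : ℝ)) j i ≤ 2 * nn j := by
  rw [wallSum, two_mul]
  exact add_le_add (Cst_r1 _ _ _) (Cst_r1 _ _ _)

theorem card_sides (l : ℕ) : ((frm.sides l).card : ℝ) ≤ PP (lev l) := by
  rw [Finset.card_eq_sum_ones]
  push_cast
  rcases layer_cases l with rfl | ⟨j, a, h1, h2, rfl⟩
  · have h1 := Cst_w1 0 1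
    have h2 := PP_ge (lev 0)
    rw [nn_zero] at h1
    rw [sum_sides_zero]
    push_cast at h1
    linarith
  · have h3 := Cst_w1 j (Lb j + a)
    have h4 := Cst_w1 (j + 1) a
    have h5 : (nn j : ℝ) ≤ nn (j + 1) := by exact_mod_cast nn_mono j
    have h6 := nn_le_PP j
    have h7 : (0 : ℝ) ≤ nn (j + 1) := by positivity
    rw [sum_sides_block _ h1 h2, lev_block h1 h2]
    linarith

end Pool.Agent.MP_943ae2_gt

end
end

section

open Set Complex Filter Finset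
open scoped Topology ComplexConjugate ContDiff

noncomputable section

namespace Pool.Agent.MP_943ae2_gt

theorem prof_zero (s : ℕ → ℝ) (m : ℕ) : prof s m 0 = 0 := by
  simp [prof]

theorem prof_end (s : ℕ → ℝ) {m : ℕ} (hm : 1 ≤ m) : prof s m m = 0 := by
  have h : (m : ℝ) ≠ 0 := by positivity
  unfold prof
  rw [Finset.sum_sub_distrib, Finset.sum_const, Nat.card_Icc, Nat.add_sub_cancel, nsmul_eq_mul]
  field_simp
  ring

theorem Mac1_succ (s : ℕ → ℝ) (m a : ℕ) : prof s m (a + 1) = prof s m a +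
    (∑ l ∈ Ico 1 (a + 1), s l - (∑ i' ∈ Icc 1 m, ∑ l ∈ Ico 1 i', s l) / m) := by
  unfold prof
  rw [Finset.sum_Icc_succ_top (by omega)]

theorem prof_d2 (s : ℕ → ℝ) (m : ℕ) {a : ℕ} (ha : 1 ≤ a) :
    prof s m (a + 1) - 2 * prof s m a + prof s m (a - 1) = s a := by
  obtain ⟨b, rfl⟩ : ∃ b, a = b + 1 := ⟨a - 1, by omega⟩
  rw [Nat.add_sub_cancel, Mac1_succ s m (b + 1), Mac1_succ s m b,
    Finset.sum_Ico_succ_top (by omega : 1 ≤ b + 1)]
  ring

theorem Mac1_sum {s : ℕ → ℝ} {m i : ℕ} {B : ℝ} (hB : 0 ≤ B) (hs : ∀ l, 1 ≤ l → l < m → |s l| ≤ B)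
    (hi : i ≤ m) : |∑ l ∈ Ico 1 i, s l| ≤ m * B := by
  refine (Finset.abs_sum_le_sum_abs _ _).trans ?_
  refine (Finset.sum_le_card_nsmul _ _ B fun l hl => ?_).trans ?_
  · rw [Finset.mem_Ico] at hl
    exact hs l hl.1 (by omega)
  · rw [Nat.card_Ico, nsmul_eq_mul]
    have : ((i - 1 : ℕ) : ℝ) ≤ m := by exact_mod_cast (by omega : i - 1 ≤ m)
    exact mul_le_mul_of_nonneg_right this hB

theorem prof_slope {s : ℕ → ℝ} {m a : ℕ} {B : ℝ} (hB : 0 ≤ B) (hs : ∀ l, 1 ≤ l → l < m → |s l| ≤ B)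
    (ha : a < m) : |prof s m (a + 1) - prof s m a| ≤ 2 * m * B := by
  have hm : (0 : ℝ) < m := by exact_mod_cast (by omega : 0 < m)
  have h1 := Mac1_sum hB hs (i := a + 1) ha
  have h2 : |∑ i' ∈ Icc 1 m, ∑ l ∈ Ico 1 i', s l| ≤ m * (m * B) := by
    refine (Finset.abs_sum_le_sum_abs _ _).trans ?_
    refine (Finset.sum_le_card_nsmul _ _ (m * B) fun i hi => ?_).trans ?_
    · exact Mac1_sum hB hs (Finset.mem_Icc.1 hi).2
    · rw [Nat.card_Icc, Nat.add_sub_cancel, nsmul_eq_mul]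
  have h3 : |(∑ i' ∈ Icc 1 m, ∑ l ∈ Ico 1 i', s l) / m| ≤ m * B := by
    rw [abs_div, abs_of_pos hm, div_le_iff₀ hm]
    linarith
  rw [Mac1_succ, add_sub_cancel_left]
  refine (abs_sub _ _).trans ?_
  linarith

theorem Mac1_Lb (j : ℕ) : 1 ≤ Lb j := Nat.one_le_pow _ _ (by norm_num)

theorem Mac1_Mt (j : ℕ) : 1 ≤ Mt j := Nat.one_le_pow _ _ (by norm_num)

theorem Mac1_nn (j : ℕ) : (nn j : ℝ) ≠ 0 := Nat.cast_ne_zero.2 (NeZero.ne _)

namespace Prm

variable (x : Prm)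

theorem Mac1_bot {j k : ℕ} (h : k ≤ Lb j) :
    x.w j k = x.W j * k / Lb j + prof (x.sBot j) (Lb j) k := by
  unfold w
  rw [if_pos h]

theorem w_zero (j : ℕ) : x.w j 0 = 0 := by
  rw [x.Mac1_bot (Nat.zero_le _), prof_zero]
  simp

theorem w_out {j k : ℕ} (h : NN j ≤ k) : x.w j k = 0 := by
  have h1 := Mac1_Mt j
  have h2 : NN j = Lb j + Mt j := rfl
  unfold w
  rw [if_neg (by omega)]
  split_ifs with h3
  · obtain rfl : k = NN j := by omega
    rw [show NN j - Lb j = Mt j by omega, prof_end _ h1]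
    simp
  · rfl

theorem w_L (j : ℕ) : x.w j (Lb j) = x.W j := by
  have h1 := Mac1_Lb j
  have h : (Lb j : ℝ) ≠ 0 := by positivity
  rw [x.Mac1_bot le_rfl, prof_end _ h1]
  field_simp
  ring

theorem Mac1_top {j a : ℕ} (h : a ≤ Mt j) :
    x.w j (Lb j + a) = x.W j * (Mt j - a) / Mt j + prof (x.sTop j) (Mt j) a := by
  have h1 := Mac1_Mt j
  have h2 : NN j = Lb j + Mt j := rfl
  rcases Nat.eq_zero_or_pos a with rfl | ha
  · have h3 : (Mt j : ℝ) ≠ 0 := by positivity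
    rw [Nat.add_zero, w_L, prof_zero]
    field_simp
    simp
  · unfold w
    rw [if_neg (by omega), if_pos (by omega), Nat.add_sub_cancel_left, h2]
    push_cast
    ring

theorem D2_bot {j k : ℕ} (h1 : 1 ≤ k) (h2 : k < Lb j) : x.D2 j k = x.sBot j k := by
  unfold D2
  rw [x.Mac1_bot (k := k + 1) h2, x.Mac1_bot h2.le, x.Mac1_bot (k := k - 1) (by omega),
    ← prof_d2 (x.sBot j) (Lb j) h1, Nat.cast_sub h1]
  push_cast
  ring

theorem D2_top {j a : ℕ} (h1 : 1 ≤ a) (h2 : a < Mt j) : x.D2 j (Lb j + a) = x.sTop j a := by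
  unfold D2
  rw [Nat.add_assoc, Nat.add_sub_assoc h1, x.Mac1_top (a := a + 1) h2, x.Mac1_top h2.le,
    x.Mac1_top (a := a - 1) (by omega), ← prof_d2 (x.sTop j) (Mt j) h1, Nat.cast_sub h1]
  push_cast
  ring

theorem D2_zero (j : ℕ) : x.D2 j 0 = x.w j 1 := by
  unfold D2
  rw [Nat.zero_sub, w_zero]
  ring

theorem D2_N (j : ℕ) : x.D2 j (NN j) = x.w j (NN j - 1) := by
  unfold D2
  rw [x.w_out (Nat.le_succ _), x.w_out le_rfl]
  ring

theorem D2_out {j k : ℕ} (h : NN j < k) : x.D2 j k = 0 := by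
  unfold D2
  rw [x.w_out (k := k + 1) (by omega), x.w_out h.le, x.w_out (k := k - 1) (by omega)]
  ring

theorem Mac1_g (j k : ℕ) : (x.wall (j + 1)).g k = -x.D2 j (Lb j + k) := rfl

theorem g_bot {j k : ℕ} (h1 : 1 ≤ k) (h2 : k < Lb j) : (x.wall j).g k = -x.sTop (j - 1) k := by
  cases j with
  | zero =>
    have : Lb 0 = 1 := rfl
    omega
  | succ j => rw [Mac1_g, x.D2_top (j := j) h1 h2, Nat.add_sub_cancel]

theorem g_L (j : ℕ) : (x.wall (j + 1)).g (Lb (j + 1)) = -x.w j (NN j - 1) := by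
  rw [Mac1_g, ← D2_N]
  rfl

theorem g_top {j k : ℕ} (h : Lb j < k) : (x.wall j).g k = 0 := by
  cases j with
  | zero => rfl
  | succ j =>
    have h1 : Lb (j + 1) = Mt j := rfl
    have h2 : NN j = Lb j + Mt j := rfl
    rw [Mac1_g, x.D2_out (by omega), neg_zero]

theorem lr_zero (j : ℕ) : x.lr j 0 = ell j := by
  simp [lr]

theorem lr_one (j : ℕ) : x.lr j 1 = ell j := by
  simp [lr]

theorem Mac1_y (j k : ℕ) : (x.wall j).y (nn j) k = nn j * (x.lr j k - x.lr j (k + 1)) := rfl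

theorem Mac1_c (j k : ℕ) : (x.wall j).c k = x.w j k / nn j := rfl

theorem wall_y {j k : ℕ} (h : 1 ≤ k) : (x.wall j).y (nn j) k = x.y j k := by
  have h1 := Mac1_nn j
  rw [Mac1_y]
  unfold lr
  rw [Finset.sum_Ico_succ_top h]
  field_simp
  ring

theorem wall_y_zero (j : ℕ) : (x.wall j).y (nn j) 0 = 0 := by
  rw [Mac1_y, Nat.zero_add, lr_zero, lr_one]
  ring

theorem n_mul_c (j k : ℕ) : (nn j : ℝ) * (x.wall j).c k = x.w j k := by
  have h1 := Mac1_nn j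
  rw [Mac1_c]
  field_simp

theorem Ds_eq (j k : ℕ) : (x.wall j).Ds (nn j) k =
    2 * (x.wall j).c k * (x.lr j k - Real.log (x.w j k)) + (x.D2 j k - (x.wall j).g k) * x.lr j k +
      (x.wall j).c (k - 1) * Real.log (1 + Real.exp ((x.wall j).y (nn j) (k - 1))) +
      (x.wall j).c (k + 1) * Real.log (1 + Real.exp (-(x.wall j).y (nn j) k)) := by
  have h : (nn j : ℝ) * ((x.wall j).c (k + 1) - 2 * (x.wall j).c k + (x.wall j).c (k - 1)) =
      x.D2 j k := by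
    unfold D2
    rw [← n_mul_c, ← n_mul_c, ← n_mul_c]
    ring
  unfold Wall.Ds
  rw [h, n_mul_c]
  rfl

theorem Ds_zero : (x.wall 0).Ds (nn 0) 1 = 0 := by
  have h0 : x.w 0 0 = 0 := x.w_zero 0
  have h1 : x.w 0 1 = 1 := x.w_L 0
  have h2 : x.w 0 2 = 0 := x.w_out (j := 0) le_rfl
  have h3 : (x.wall 0).g 1 = 0 := rfl
  have h4 : nn 0 = 1 := rfl
  rw [Ds_eq, Mac1_c, Mac1_c, Mac1_c, h3]
  unfold D2
  rw [h0, h1, h2, h4]
  simp

theorem wlr_eq (j : ℕ) {k : ℕ} (hk : 1 ≤ k) :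
    x.w j (k + 1) * x.lr j (k + 1) - 2 * x.w j k * x.lr j k + x.w j (k - 1) * x.lr j (k - 1) =
      x.D2 j k * x.lr j k - (x.wall j).c (k + 1) * (x.wall j).y (nn j) k +
        (x.wall j).c (k - 1) * (x.wall j).y (nn j) (k - 1) := by
  unfold D2
  rw [Mac1_y, Mac1_y, Nat.sub_add_cancel hk, ← x.n_mul_c j (k + 1), ← x.n_mul_c j (k - 1)]
  ring

theorem Oc_L (j : ℕ) : x.Oc j (Lb j) = x.w (j + 1) 1 * ell (j + 1) := by
  unfold Oc
  rw [if_pos le_rfl, Nat.sub_self, Nat.zero_add, Nat.zero_sub, w_zero, lr_one]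
  ring

end Prm

end Pool.Agent.MP_943ae2_gt

end
end

section

open Set Complex Filter Finset
open scoped Topology ComplexConjugate ContDiff

noncomputable section

namespace Pool.Agent.MP_943ae2_gt

theorem Mac2_nn_pos (j : ℕ) : (0 : ℝ) < nn j := Nat.cast_pos.2 (Nat.pos_of_ne_zero (NeZero.ne _))

theorem Mac2_nn_one (j : ℕ) : (1 : ℝ) ≤ nn j := Nat.one_le_cast.2 (Nat.pos_of_ne_zero (NeZero.ne _))

theorem Mac2_Lb_one (j : ℕ) : (1 : ℝ) ≤ Lb j := Nat.one_le_cast.2 (Lb_pos j)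

theorem Mac2_Mt_one (j : ℕ) : (1 : ℝ) ≤ Mt j := Nat.one_le_cast.2 (Mt_pos j)

theorem Mac2_NN (j : ℕ) : (NN j : ℝ) = Lb j + Mt j := by simp [NN]

theorem Mac2_ratio (j : ℕ) : (Lb j : ℝ) ≤ Mt j ∧ (Mt j : ℝ) ≤ 5 * Lb j := by
  rcases Nat.eq_zero_or_pos j with rfl | h
  · simp [Lb_zero, Mt_zero]
  · have := Mac2_Lb_one j
    rw [Mt_eq h]; push_cast; constructor <;> linarith

theorem Mac2_PP_one (j : ℕ) : (1000 : ℝ) ≤ PP j := le_trans (by norm_num) (PP_ge j)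

theorem Mac2_nn_le (j : ℕ) : (nn j : ℝ) ≤ PP j := by
  have h₁ := nn_le_PP j
  have h₂ : (nn j : ℝ) ≤ nn (j + 1) := Nat.cast_le.2 (nn_mono j)
  have := Mac2_nn_pos j
  linarith

theorem Mac2_NN_le (j : ℕ) : (NN j : ℝ) ≤ PP j := by
  have h₁ := NN_le_PP j
  have h₂ : (NN j : ℝ) ≤ NN (j + 1) := Nat.cast_le.2 (NN_mono j)
  have : (0 : ℝ) ≤ NN j := Nat.cast_nonneg _
  linarith

theorem Mac2_two_le (j : ℕ) : 2 * (2 : ℝ) ^ j ≤ PP j := by
  have h₁ := two_pow_le_PP j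
  have : (0 : ℝ) < 2 ^ j := by positivity
  rw [pow_succ 2 j] at h₁
  linarith

theorem Mac2_wbot (x : Prm) {j k : ℕ} (h : k ≤ Lb j) :
    x.w j k = x.W j * k / Lb j + prof (x.sBot j) (Lb j) k := by
  unfold Prm.w; rw [if_pos h]

theorem Mac2_wtop (x : Prm) {j k : ℕ} (h1 : Lb j ≤ k) (h2 : k ≤ NN j) :
    x.w j k = x.W j * (NN j - k) / Mt j + prof (x.sTop j) (Mt j) (k - Lb j) := by
  rcases h1.eq_or_lt with rfl | h
  · have := Mac2_Mt_one j
    rw [x.w_L, Nat.sub_self, prof_zero, Mac2_NN]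
    field_simp
    ring
  · unfold Prm.w; rw [if_neg (by omega), if_pos h2]

namespace InK

variable {x : Prm} (hx : InK x)
include hx

theorem Mac2_W_pos (j : ℕ) : 0 < x.W j := by
  induction j with
  | zero => simp [Prm.W]
  | succ j ih =>
    have := abs_le.1 (hx.u_mem (j + 1))
    exact mul_pos ih (by linarith)

theorem W_succ (j : ℕ) : 33 / 20 * x.W j ≤ x.W (j + 1) ∧ x.W (j + 1) ≤ 17 / 10 * x.W j := by
  have h := abs_le.1 (hx.u_mem (j + 1))
  have p := hx.Mac2_W_pos j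
  have e : x.W (j + 1) = x.W j * x.u (j + 1) := rfl
  rw [e]
  constructor <;> nlinarith

theorem W_ge (j : ℕ) : (33 / 20) ^ j ≤ x.W j := by
  induction j with
  | zero => simp [Prm.W]
  | succ j ih => rw [pow_succ]; linarith [(hx.W_succ j).1]

theorem W_le (j : ℕ) : x.W j ≤ 2 ^ j := by
  induction j with
  | zero => simp [Prm.W]
  | succ j ih => rw [pow_succ]; linarith [(hx.W_succ j).2, hx.Mac2_W_pos j]

theorem sTop_le (j a : ℕ) : |x.sTop j a| ≤ 8 * x.W j / nn j := by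
  have p := hx.Mac2_W_pos j
  have q := Mac2_nn_pos j
  rw [Prm.sTop, abs_div, abs_mul, abs_of_pos p, abs_of_pos q]
  gcongr
  exact hx.s_le j a

theorem sBot_le {j : ℕ} (hj : 2 ≤ j) (k : ℕ) : |x.sBot j k| ≤ 126 * x.W j / nn j := by
  obtain ⟨j, rfl⟩ : ∃ i, j = i + 1 := ⟨j - 1, by omega⟩
  have h₁ := hx.sTop_le j k
  have h₂ := (hx.W_succ j).1
  have h₃ : (nn (j + 1) : ℝ) ≤ 25 * nn j := by exact_mod_cast nn_succ_le (by omega : 1 ≤ j)
  have p := hx.Mac2_W_pos j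
  have p' := hx.Mac2_W_pos (j + 1)
  have q := Mac2_nn_pos j
  have q' := Mac2_nn_pos (j + 1)
  have h₄ : 8 * x.W j / nn j ≤ 125 * x.W (j + 1) / nn (j + 1) := by
    rw [div_le_div_iff₀ q q']
    nlinarith [mul_le_mul_of_nonneg_left h₃ p.le, mul_le_mul_of_nonneg_left h₂ q.le]
  have h₅ : 0 < x.W (j + 1) / nn (j + 1) := div_pos p' q'
  rw [Prm.sBot, Nat.add_sub_cancel]
  rw [mul_div_assoc] at h₄ ⊢
  rw [mul_div_assoc 125] at h₄
  rw [mul_div_assoc] at h₁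
  rw [abs_le] at h₁ ⊢
  constructor <;> linarith [h₁.1, h₁.2]

theorem slope_bot {j k : ℕ} (h : k < Lb j) :
    |x.w j (k + 1) - x.w j k - x.W j / Lb j| ≤ x.W j / Lb j / 10 ^ 4 := by
  have p := hx.Mac2_W_pos j
  have q := Mac2_nn_pos j
  have l := Mac2_Lb_one j
  have e : x.w j (k + 1) - x.w j k - x.W j / Lb j =
      prof (x.sBot j) (Lb j) (k + 1) - prof (x.sBot j) (Lb j) k := by
    rw [Mac2_wbot x (Nat.succ_le_of_lt h), Mac2_wbot x h.le]; push_cast; ring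
  rw [e]
  rcases le_or_gt 2 j with hj | hj
  · refine (prof_slope (by positivity) (fun l _ _ => hx.sBot_le hj l) h).trans ?_
    have b := nn_big (by omega : 1 ≤ j)
    rw [NN_eq (by omega)] at b
    push_cast at b
    rw [← mul_div_assoc, div_div, div_le_div_iff₀ q (by positivity)]
    nlinarith [mul_le_mul_of_nonneg_left b p.le, mul_pos p (mul_pos (one_pos.trans_le l)
      (one_pos.trans_le l))]
  · have : Lb j = 1 := by unfold Lb; rw [show j - 1 = 0 by omega]; rfl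
    refine (prof_slope le_rfl (fun l _ _ => by omega) h).trans ?_
    rw [mul_zero]; positivity

theorem slope_top {j k : ℕ} (h1 : Lb j ≤ k) (h2 : k < NN j) :
    |x.w j (k + 1) - x.w j k + x.W j / Mt j| ≤ x.W j / Mt j / 10 ^ 4 := by
  have p := hx.Mac2_W_pos j
  have q := Mac2_nn_pos j
  have l := Mac2_Mt_one j
  have l' := Mac2_Lb_one j
  have e : x.w j (k + 1) - x.w j k + x.W j / Mt j =
      prof (x.sTop j) (Mt j) (k - Lb j + 1) - prof (x.sTop j) (Mt j) (k - Lb j) := by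
    rw [Mac2_wtop x (by omega) (Nat.succ_le_of_lt h2), Mac2_wtop x h1 h2.le,
      show k + 1 - Lb j = k - Lb j + 1 by omega]
    push_cast; ring
  have h : k - Lb j < Mt j := by unfold NN at h2; omega
  rw [e]
  rcases le_or_gt 1 j with hj | hj
  · refine (prof_slope (by positivity) (fun l _ _ => hx.sTop_le j l) h).trans ?_
    have b := nn_big hj
    rw [Mac2_NN] at b
    have b' : 10 ^ 7 * (Mt j : ℝ) ^ 2 ≤ nn j := le_trans (by gcongr; linarith) b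
    rw [← mul_div_assoc, div_div, div_le_div_iff₀ q (by positivity)]
    nlinarith [mul_le_mul_of_nonneg_left b' p.le, mul_pos p (mul_pos (one_pos.trans_le l)
      (one_pos.trans_le l))]
  · have : Mt j = 1 := by rw [show j = 0 by omega]; rfl
    refine (prof_slope le_rfl (fun l _ _ => by omega) h).trans ?_
    rw [mul_zero]; positivity

theorem w_bot {j k : ℕ} (h : k ≤ Lb j) :
    |x.w j k - x.W j * k / Lb j| ≤ x.W j * k / Lb j / 10 ^ 4 := by
  induction k with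
  | zero => simp [x.w_zero]
  | succ k ih =>
    have h₁ := abs_le.1 (ih (by omega))
    have h₂ := abs_le.1 (hx.slope_bot (by omega : k < Lb j))
    have e : x.W j * ((k + 1 : ℕ) : ℝ) / Lb j = x.W j * k / Lb j + x.W j / Lb j := by
      push_cast; ring
    rw [e, abs_le]
    constructor <;> linarith [h₁.1, h₁.2, h₂.1, h₂.2]

theorem w_top {j k : ℕ} (h1 : Lb j ≤ k) (h2 : k ≤ NN j) :
    |x.w j k - x.W j * (NN j - k) / Mt j| ≤ x.W j * (NN j - k) / Mt j / 10 ^ 4 := by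
  induction h2 using Nat.decreasingInduction with
  | self => simp [x.w_out le_rfl]
  | of_succ k hk ih =>
    have h₁ := abs_le.1 (ih (by omega))
    have h₂ := abs_le.1 (hx.slope_top h1 hk)
    have e : x.W j * (NN j - k) / Mt j =
        x.W j * (NN j - ((k + 1 : ℕ) : ℝ)) / Mt j + x.W j / Mt j := by
      push_cast; ring
    rw [e, abs_le]
    constructor <;> linarith [h₁.1, h₁.2, h₂.1, h₂.2]

theorem w_nonneg (j k : ℕ) : 0 ≤ x.w j k := by
  have p := hx.Mac2_W_pos j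
  rcases le_total k (Lb j) with h | h
  · have h₁ := (abs_le.1 (hx.w_bot h)).1
    have : 0 ≤ x.W j * k / Lb j := by positivity
    linarith
  rcases le_total k (NN j) with h' | h'
  · have h₁ := (abs_le.1 (hx.w_top h h')).1
    have : (0 : ℝ) ≤ NN j - k := sub_nonneg.2 (Nat.cast_le.2 h')
    have : 0 ≤ x.W j * (NN j - k) / Mt j := by positivity
    linarith
  · exact (x.w_out h').ge

theorem Mac2_up {j k : ℕ} (h : k < Lb j) : x.w j k ≤ x.w j (k + 1) := by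
  have h₁ := (abs_le.1 (hx.slope_bot h)).1
  have : 0 ≤ x.W j / Lb j := by have := hx.Mac2_W_pos j; positivity
  linarith

theorem Mac2_down {j k : ℕ} (h1 : Lb j ≤ k) : x.w j (k + 1) ≤ x.w j k := by
  rcases lt_or_ge k (NN j) with h2 | h2
  · have h₁ := (abs_le.1 (hx.slope_top h1 h2)).2
    have : 0 ≤ x.W j / Mt j := by have := hx.Mac2_W_pos j; positivity
    linarith
  · rw [x.w_out h2, x.w_out (by omega)]

theorem w_le (j k : ℕ) : x.w j k ≤ x.W j := by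
  rcases le_total k (Lb j) with h | h
  · induction h using Nat.decreasingInduction with
    | self => exact (x.w_L j).le
    | of_succ k hk ih => exact (hx.Mac2_up hk).trans ih
  · induction h with
    | refl => exact (x.w_L j).le
    | step hk ih => exact (hx.Mac2_down hk).trans ih

theorem Mac2_ge_bot {j k : ℕ} (h1 : 1 ≤ k) (h : k ≤ Lb j) :
    9999 / 10000 * (x.W j / Lb j) ≤ x.w j k := by
  have h₁ := (abs_le.1 (hx.w_bot h)).1
  have p := hx.Mac2_W_pos j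
  have : x.W j / Lb j ≤ x.W j * k / Lb j := by
    gcongr
    exact le_mul_of_one_le_right p.le (Nat.one_le_cast.2 h1)
  linarith

theorem Mac2_ge_top {j k : ℕ} (h : Lb j ≤ k) (h2 : k < NN j) :
    9999 / 10000 * (x.W j / Mt j) ≤ x.w j k := by
  have h₁ := (abs_le.1 (hx.w_top h h2.le)).1
  have p := hx.Mac2_W_pos j
  have : ((k + 1 : ℕ) : ℝ) ≤ NN j := Nat.cast_le.2 h2
  have : x.W j / Mt j ≤ x.W j * (NN j - k) / Mt j := by
    gcongr
    exact le_mul_of_one_le_right p.le (by push_cast at this; linarith)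
  linarith

theorem w_ge {j k : ℕ} (h1 : 1 ≤ k) (h2 : k < NN j) : x.W j / NN j ≤ x.w j k := by
  have p := hx.Mac2_W_pos j
  have l := Mac2_Mt_one j
  have l' := Mac2_Lb_one j
  obtain ⟨r₁, r₂⟩ := Mac2_ratio j
  rcases le_total k (Lb j) with h | h
  · refine le_trans ?_ (hx.Mac2_ge_bot h1 h)
    rw [← mul_div_assoc, Mac2_NN, div_le_div_iff₀ (by positivity) (by positivity)]
    nlinarith
  · refine le_trans ?_ (hx.Mac2_ge_top h h2)
    rw [← mul_div_assoc, Mac2_NN, div_le_div_iff₀ (by positivity) (by positivity)]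
    nlinarith

theorem w_nb {j k : ℕ} (h1 : 1 ≤ k) (h2 : k < NN j) :
    x.w j (k + 1) + x.w j (k - 1) ≤ 4 * x.w j k := by
  have p := hx.Mac2_W_pos j
  have n := hx.w_nonneg j k
  obtain ⟨k, rfl⟩ : ∃ i, k = i + 1 := ⟨k - 1, by omega⟩
  rw [Nat.add_sub_cancel]
  rcases lt_trichotomy (k + 1) (Lb j) with h | h | h
  · have a₁ := (abs_le.1 (hx.slope_bot h)).2
    have a₂ := hx.Mac2_up (by omega : k < Lb j)
    have a₃ := hx.Mac2_ge_bot h1 h.le
    linarith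
  · have a₁ := hx.Mac2_up (by omega : k < Lb j)
    have a₂ := hx.Mac2_down h.ge
    linarith
  · have a₁ := (abs_le.1 (hx.slope_top (by omega : Lb j ≤ k) (by omega))).1
    have a₂ := hx.Mac2_down h.le
    have a₃ := hx.Mac2_ge_top h.le h2
    linarith

theorem Mac2_w_ge {j k : ℕ} (h1 : 1 ≤ k) (h2 : k < NN j) : (PP j)⁻¹ ≤ x.w j k := by
  refine le_trans ?_ (hx.w_ge h1 h2)
  have a : 1 ≤ x.W j := le_trans (one_le_pow₀ (by norm_num)) (hx.W_ge j)
  have b : (0 : ℝ) < NN j := Nat.cast_pos.2 (by omega)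
  rw [inv_eq_one_div]
  exact div_le_div₀ (by linarith) a b (Mac2_NN_le j)

theorem Mac2_W_le (j : ℕ) : 2 * x.W j ≤ PP j := by
  linarith [hx.W_le j, Mac2_two_le j]

theorem log_w {j k : ℕ} (h1 : 1 ≤ k) (h2 : k < NN j) : |Real.log (x.w j k)| ≤ ell j / 1000 := by
  have a := hx.Mac2_w_ge h1 h2
  have P := Mac2_PP_one j
  have P' : 0 < (PP j)⁻¹ := inv_pos.2 (by linarith)
  have b : x.w j k ≤ PP j := by linarith [hx.w_le j k, hx.Mac2_W_le j, hx.Mac2_W_pos j]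
  have c₁ := Real.log_le_log P' a
  have c₂ := Real.log_le_log (P'.trans_le a) b
  rw [Real.log_inv] at c₁
  rw [abs_le]
  constructor <;> linarith [log_PP j]

theorem lr_near {j k : ℕ} (hj : 1 ≤ j) (h : k ≤ NN j) : |x.lr j k - ell j| ≤ 1 / (1000 * nn j) := by
  have q := Mac2_nn_pos j
  have b := nn_big hj
  have s : |∑ i ∈ Ico 1 k, x.y j i| ≤ NN j * (2000 * NN j / nn j) := by
    refine (abs_sum_le_sum_abs _ _).trans ((sum_le_card_nsmul _ _ _ fun i _ => hx.y_le j i).trans ?_)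
    rw [nsmul_eq_mul, Nat.card_Ico]
    gcongr
    omega
  have s' : (NN j : ℝ) * (2000 * NN j / nn j) ≤ 1 / 1000 := by
    rw [← mul_div_assoc, div_le_iff₀ q]
    nlinarith [sq_nonneg (NN j : ℝ)]
  rw [Prm.lr, sub_sub_cancel_left, abs_neg, abs_div, abs_of_pos q, ← div_div]
  gcongr
  exact s.trans s'

theorem Mac2_y {j k : ℕ} : |(x.wall j).y (nn j) k| ≤ 2000 * NN j / nn j := by
  rcases Nat.eq_zero_or_pos k with rfl | h
  · rw [x.wall_y_zero, abs_zero]; positivity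
  · rw [x.wall_y h]; exact hx.y_le j k

theorem wall_bd {j : ℕ} (hj : 1 ≤ j) : (x.wall j).Bd (nn j) (PP j ^ 2) := by
  have P := Mac2_PP_one j
  have P2 : PP j ≤ PP j ^ 2 := by nlinarith
  have q := Mac2_nn_pos j
  have q₁ := Mac2_nn_one j
  have p := hx.Mac2_W_pos j
  have e := ell_ge j
  have e' : (90000 : ℝ) ≤ ell j := le_trans (le_mul_of_one_le_right (by norm_num)
    (one_le_pow₀ (by norm_num))) e
  have hlr : ∀ k, k ≤ NN j → |x.lr j k - ell j| ≤ 1 := fun k hk =>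
    (hx.lr_near hj hk).trans ((div_le_one (by positivity)).2 (by linarith))
  refine ⟨P.trans P2, le_trans (by norm_num) (nn_ge hj), (Mac2_nn_le j).trans P2,
    (Mac2_NN_le j).trans P2, ?_, ?_, ?_, ?_, ?_, ?_, ?_, ?_⟩
  · change x.w j 0 / nn j = 0
    rw [x.w_zero, zero_div]
  · intro k hk
    change x.w j k / nn j = 0
    rw [x.w_out hk, zero_div]
  · intro k h1 h2
    change _ ≤ x.w j k / nn j
    rw [sq, mul_inv, ← div_eq_mul_inv]
    exact div_le_div₀ (hx.w_nonneg j k) (hx.Mac2_w_ge h1 h2) q (Mac2_nn_le j)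
  · intro k
    change x.w j k / nn j ≤ _
    refine (div_le_self (hx.w_nonneg j k) q₁).trans ?_
    linarith [hx.w_le j k, hx.Mac2_W_le j]
  · intro k
    obtain ⟨j, rfl⟩ : ∃ i, j = i + 1 := ⟨j - 1, by omega⟩
    change |if j + 1 = 0 then 0 else -x.D2 (j + 1 - 1) (Lb (j + 1 - 1) + k)| ≤ _
    rw [if_neg (by omega), Nat.add_sub_cancel, abs_neg, Prm.D2, abs_le]
    have a₁ := (hx.W_succ j).1
    have a₂ := hx.Mac2_W_le (j + 1)
    have a₃ := hx.Mac2_W_pos j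
    constructor <;>
      linarith [hx.w_le j (Lb j + k + 1), hx.w_le j (Lb j + k), hx.w_le j (Lb j + k - 1),
        hx.w_nonneg j (Lb j + k + 1), hx.w_nonneg j (Lb j + k), hx.w_nonneg j (Lb j + k - 1)]
  · intro k hk
    change |x.lr j k| ≤ _
    have a₁ := abs_le.1 (hlr k hk)
    have a₂ := ell_le_PP j
    rw [ell_succ] at a₂
    rw [abs_le]
    constructor <;> linarith [a₁.1, a₁.2]
  · intro k hk
    refine hx.Mac2_y.trans ?_
    have b := nn_big hj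
    have : (1 : ℝ) ≤ NN j := Nat.one_le_cast.2 (by change k < NN j at hk; omega)
    rw [div_le_iff₀ q]
    nlinarith
  · intro k h1 h2
    rw [x.n_mul_c]
    change _ ≤ x.lr j k - _
    have a₁ := abs_le.1 (hlr k (le_of_lt h2))
    have a₂ := abs_le.1 (hx.log_w h1 h2)
    linarith [a₁.1, a₂.2]

theorem wall_shape {j : ℕ} (hj : 2 ≤ j) : (x.wall j).Shape (nn j) (Lb j) := by
  have hj' : 1 ≤ j := by omega
  have q := Mac2_nn_pos j
  have p := hx.Mac2_W_pos j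
  have l := Mac2_Lb_one j
  have l5 : 5 ≤ Lb j := by
    unfold Lb
    calc 5 = 5 ^ 1 := rfl
      _ ≤ 5 ^ (j - 1) := Nat.pow_le_pow_right (by norm_num) (by omega)
  have l5' : (5 : ℝ) ≤ Lb j := by exact_mod_cast l5
  have hM : (Mt j : ℝ) = 5 * Lb j := by exact_mod_cast Mt_eq hj'
  have hN : (NN j : ℝ) = 6 * Lb j := by exact_mod_cast NN_eq hj'
  have hN' := NN_eq hj'
  have hc : ∀ k, (x.wall j).c k = x.w j k / nn j := fun _ => rfl
  have hd : ∀ k, (x.wall j).c (k + 1) - 2 * (x.wall j).c k + (x.wall j).c (k - 1) =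
      x.D2 j k / nn j := fun k => by simp only [hc, Prm.D2]; ring
  have hL : (x.wall j).c (Lb j) = x.W j / nn j := by rw [hc, x.w_L]
  have hWL : 0 < x.W j / Lb j := by positivity
  have hWM : x.W j / Mt j = x.W j / Lb j / 5 := by rw [hM]; field_simp
  have s₁ := abs_le.1 (hx.slope_bot (by omega : Lb j - 1 < Lb j))
  have s₂ := abs_le.1 (hx.slope_top (le_refl (Lb j)) (by omega))
  rw [show Lb j - 1 + 1 = Lb j by omega] at s₁
  rw [hWM] at s₂
  refine ⟨Lb_pos j, hN', nn_big hj', ?_, ?_, ?_, ?_, ?_, ?_, fun k _ => hx.Mac2_y⟩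
  · intro k hk
    change k ≤ NN j at hk
    change _ * ((min k (NN j - k) : ℕ) : ℝ) / _ ≤ _
    rw [hL, hc, div_mul_eq_mul_div, div_right_comm]
    gcongr
    rcases le_total k (Lb j) with h | h
    · have h₁ := (abs_le.1 (hx.w_bot h)).1
      have h₂ : ((min k (NN j - k) : ℕ) : ℝ) ≤ k := Nat.cast_le.2 (min_le_left _ _)
      have h₃ : x.W j * ((min k (NN j - k) : ℕ) : ℝ) / (6 * Lb j) ≤ x.W j * k / Lb j / 6 := by
        rw [div_div, mul_comm (Lb j : ℝ)]; gcongr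
      have : 0 ≤ x.W j * k / Lb j := by positivity
      linarith
    · have h₁ := (abs_le.1 (hx.w_top h hk)).1
      have h₂ : ((min k (NN j - k) : ℕ) : ℝ) ≤ NN j - k := by
        rw [← Nat.cast_sub hk]; exact Nat.cast_le.2 (min_le_right _ _)
      have h₄ : (0 : ℝ) ≤ NN j - k := sub_nonneg.2 (Nat.cast_le.2 hk)
      have h₃ : x.W j * ((min k (NN j - k) : ℕ) : ℝ) / (6 * Lb j) ≤
          x.W j * (NN j - k) / Mt j * (5 / 6) := by
        rw [hM, show x.W j * (NN j - k) / (5 * Lb j) * (5 / 6) =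
          x.W j * (NN j - k) / (6 * Lb j) by field_simp]
        gcongr
      have : 0 ≤ x.W j * (NN j - k) / Mt j := by positivity
      linarith
  · intro k
    rw [hL, hc, ← mul_div_assoc]
    gcongr
    linarith [hx.w_le j k]
  · intro k h1 h2
    rw [hL, hc, div_right_comm]
    gcongr
    have h₁ := (abs_le.1 (hx.w_top h1 (by omega))).1
    have h₂ : (k : ℝ) ≤ 2 * Lb j := by exact_mod_cast h2
    have h₃ : 4 / 5 * x.W j ≤ x.W j * (NN j - k) / Mt j := by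
      rw [hM, hN, le_div_iff₀ (by positivity)]
      nlinarith
    linarith
  · intro k h1 h2
    rw [hc, hc, hc, ← add_div]
    gcongr
    rcases lt_trichotomy k (Lb j) with h | rfl | h
    · linarith [hx.Mac2_up h, hx.w_nonneg j (k - 1)]
    · have : x.W j / Lb j ≤ x.W j / 5 := by gcongr
      rw [x.w_L] at s₁ s₂ ⊢
      linarith [s₁.2, s₂.1]
    · have := hx.Mac2_down (by omega : Lb j ≤ k - 1)
      rw [show k - 1 + 1 = k by omega] at this
      linarith [hx.w_nonneg j (k + 1)]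
  · intro k h1 h2 h3
    change k < NN j at h2
    rw [hd, hL, abs_div, abs_of_pos q]
    gcongr
    have : 0 < x.W j / nn j := by positivity
    rcases lt_or_gt_of_ne h3 with h | h
    · rw [x.D2_bot h1 h]
      have := hx.sBot_le hj k
      rw [mul_div_assoc] at this
      linarith
    · obtain ⟨a, rfl⟩ : ∃ a, k = Lb j + a := ⟨k - Lb j, by omega⟩
      rw [x.D2_top (by omega) (by unfold NN at h2; omega)]
      have := hx.sTop_le j a
      rw [mul_div_assoc] at this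
      linarith
  · rw [hd, hL, abs_div, abs_of_pos q, ← mul_div_assoc, div_right_comm]
    gcongr
    rw [Prm.D2, mul_div_assoc, abs_le]
    constructor <;> linarith [s₁.1, s₁.2, s₂.1, s₂.2]

end InK

end Pool.Agent.MP_943ae2_gt

end
end

section

open Set Complex Filter Finset
open scoped Topology ComplexConjugate ContDiff

noncomputable section

namespace Pool.Agent.MP_943ae2_gt

theorem Pos_prim : IsPrimitiveRoot uu (2 ^ 50) := by
  have h := isPrimitiveRoot_exp (2 ^ 50) (by positivity)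
  rwa [Nat.cast_pow, Nat.cast_ofNat] at h

theorem norm_uu : ‖uu‖ = 1 := Pos_prim.norm'_eq_one (by positivity)

theorem uu_ne : uu ≠ 1 := Pos_prim.ne_one (by norm_num)

theorem Pos_nn {j : ℕ} (hj : 1 ≤ j) : nn j = 2 ^ 50 * 25 ^ (j - 5) := by
  unfold nn
  rw [if_neg (by omega)]

theorem chi_sh {j : ℕ} (hj : 1 ≤ j) : (ZMod.stdAddChar (sh j) : ℂ) = uu := by
  rw [sh, Ring1_nat, Ring1_one, ← exp_nat_mul, uu]
  congr 1
  have e : ((nn j : ℕ) : ℂ) = 2 ^ 50 * 25 ^ (j - 5) := by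
    rw [Pos_nn hj, Nat.cast_mul, Nat.cast_pow, Nat.cast_pow, Nat.cast_ofNat, Nat.cast_ofNat]
  rw [e]
  push_cast
  field_simp

theorem perm_rot : frm.Perm rotN := ⟨fun _ => rfl, fun _ => rfl⟩
theorem perm_refl : frm.Perm reflN := ⟨fun _ => rfl, fun _ => rfl⟩

theorem Pos_const {n : ℕ} [NeZero n] {K : Type} [Field K] [CharZero K] (f : ZMod n → K)
    (h : ∀ i, f (i + 1) = f i) (h0 : ∑ i, f i = 0) (i : ZMod n) : f i = 0 := by
  have h1 : ∀ m : ℕ, f (m : ZMod n) = f 0 := by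
    intro m
    induction m with
    | zero => rw [Nat.cast_zero]
    | succ m ih => rw [Nat.cast_succ, h, ih]
  have h2 : ∀ i, f i = f 0 := fun i => by rw [← h1 i.val, ZMod.natCast_zmod_val]
  rw [Finset.sum_congr rfl fun i _ => h2 i, Finset.sum_const, card_univ, ZMod.card, nsmul_eq_mul,
    mul_eq_zero] at h0
  rw [h2 i]
  exact h0.resolve_left (Nat.cast_ne_zero.2 (NeZero.ne n))

theorem Pos_hat {j : ℕ} (hj : 1 ≤ j) (f : ℕ → ZMod (nn j) → ℝ)
    (h : ∀ k i, f k (i + sh j) = f k i) (h0 : ∀ k, ∑ i, f k i = 0) (m k : ℕ) (hm : 2 * m ≤ nn j)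
    (hc : m < 10 ^ 6 ∨ m * Lb j ^ 2 < 10 ^ 5 * nn j ∨ Lb j < 1000) : hat (nn j) f m k = 0 := by
  rcases Nat.eq_zero_or_pos m with rfl | hm0
  · exact hat_zero _ (h0 k)
  have hnd : ¬ 2 ^ 50 ∣ m := by
    intro hd
    have h1 : 2 ^ 50 ≤ m := Nat.le_of_dvd hm0 hd
    rw [Pos_nn hj] at hm hc
    obtain ⟨a, rfl⟩ : ∃ a, j = a + 6 := by
      refine ⟨j - 6, ?_⟩
      by_contra hne
      rw [show j - 5 = 0 by omega] at hm
      omega
    have e1 : Lb (a + 6) = 5 ^ a * 3125 := by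
      rw [Lb, show a + 6 - 1 = a + 5 by omega, pow_add]; norm_num
    have e2 : 25 ^ (a + 6 - 5) = (5 ^ a) ^ 2 * 25 := by
      rw [show a + 6 - 5 = a + 1 by omega, pow_succ, ← pow_mul, mul_comm a 2, pow_mul]; norm_num
    have h2 : 1 ≤ 5 ^ a := Nat.one_le_pow _ _ (by norm_num)
    rw [e1, e2] at hc
    generalize 5 ^ a = q at hc h2
    rcases hc with hc | hc | hc
    · omega
    · have h3 : 2 ^ 50 * (q * 3125) ^ 2 ≤ m * (q * 3125) ^ 2 := Nat.mul_le_mul_right _ h1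
      rw [mul_pow q] at h3 hc
      generalize m * (q ^ 2 * 3125 ^ 2) = r at h3 hc
      generalize q ^ 2 = s at h3 hc
      omega
    · omega
  have h1 : uu ^ m ≠ 1 := fun e => hnd ((Pos_prim.pow_eq_one_iff_dvd m).1 e)
  have h2 : hat (nn j) f m k = uu ^ m * hat (nn j) f m k := by
    unfold hat
    rw [Finset.mul_sum, ← Equiv.sum_comp (Equiv.addRight (sh j))]
    refine Finset.sum_congr rfl fun i _ => ?_
    rw [Equiv.coe_addRight, h, un_add, chi_sh hj]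
    ring
  have h3 : (uu ^ m - 1) * hat (nn j) f m k = 0 := by linear_combination -h2
  exact (mul_eq_zero.1 h3).resolve_left (sub_ne_zero.2 h1)

theorem Pos_t3 (j : ℕ) : tt j ^ 3 ≤ 1 / 10 ^ 9 := by
  refine (pow_le_pow_left₀ (tt_pos j).le (tt_le j) 3).trans (by norm_num)

theorem Pos_tP (j : ℕ) : tt j ^ 3 ≤ (PP j)⁻¹ ^ 2 := by
  have h1 := PP_tt j
  have h2 : (1 : ℝ) ≤ PP j := le_trans (by norm_num) (PP_ge j)
  have h3 := tt_pos j
  have h4 : tt j ^ 3 ≤ tt j := pow_le_of_le_one h3.le ((tt_le j).trans (by norm_num)) (by norm_num)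
  have h5 : PP j ^ 2 ≤ PP j ^ 60 := pow_le_pow_right₀ h2 (by norm_num)
  rw [inv_pow, inv_eq_one_div, le_div_iff₀ (by positivity)]
  calc tt j ^ 3 * PP j ^ 2 ≤ tt j * PP j ^ 60 := by gcongr
    _ ≤ 1 := by rwa [mul_comm]

theorem Pos_bet (x : Prm) (e : Nk × Bool) :
    ‖x.dat.bet e‖ = ‖(x.bq e.1.j e.1.k e.1.i : ℂ) + x.io e.1.j e.1.k e.1.i * I‖ := by
  unfold Dat.bet
  split_ifs
  · rw [norm_neg, norm_conj]; rfl
  · rfl

theorem Pos_pos (x : Prm) (e : Nk × Bool) :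
    x.dat.pos e = x.pp e.1.j e.1.k e.1.i + if e.2 then x.de e.1.j e.1.k e.1.i else 0 := rfl

theorem Pos_pp (x : Prm) {j : ℕ} (hj : 1 ≤ j) (k : ℕ) (i : ZMod (nn j)) :
    x.pp j k i = (Real.exp (x.lr j k) : ℝ) * un (nn j) k i * exp (x.ξ j k i) := by
  unfold Prm.pp
  rw [if_neg (by omega)]
  rfl

theorem Pos_bq (x : Prm) (j k : ℕ) (i : ZMod (nn j)) : x.bq j k i = (x.wall j).c k + x.ε j k i :=
  rfl

namespace InK

variable {x : Prm} (hx : InK x)
include hx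

theorem Pos_sq {j k : ℕ} (h1 : 1 ≤ k) (h2 : k < NN j) (i : ZMod (nn j)) :
    ‖x.ξ j k i‖ ^ 2 + x.ε j k i ^ 2 ≤ (tt j ^ 3) ^ 2 := by
  refine le_trans ?_ (hx.nsq_le j)
  unfold Wall.nsq
  refine le_trans ?_ (Finset.single_le_sum
    (f := fun k => ∑ i, (‖x.ξ j k i‖ ^ 2 + x.ε j k i ^ 2))
    (fun k _ => Finset.sum_nonneg fun i _ => by positivity) (Finset.mem_Ico.2 ⟨h1, h2⟩))
  exact Finset.single_le_sum (f := fun i => ‖x.ξ j k i‖ ^ 2 + x.ε j k i ^ 2)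
    (fun i _ => by positivity) (Finset.mem_univ i)

theorem ξ_le (j k : ℕ) (i : ZMod (nn j)) : ‖x.ξ j k i‖ ≤ tt j ^ 3 := by
  have h0 : 0 ≤ tt j ^ 3 := (pow_pos (tt_pos j) 3).le
  by_cases h : k = 0 ∨ NN j ≤ k
  · rw [hx.ξ_out j k i h, norm_zero]; exact h0
  · have := hx.Pos_sq (j := j) (k := k) (by omega) (by omega) i
    exact (abs_le_of_sq_le_sq' (by linarith [sq_nonneg (x.ε j k i)]) h0).2

theorem ε_le (j k : ℕ) (i : ZMod (nn j)) : |x.ε j k i| ≤ tt j ^ 3 := by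
  have h0 : 0 ≤ tt j ^ 3 := (pow_pos (tt_pos j) 3).le
  by_cases h : k = 0 ∨ NN j ≤ k
  · rw [hx.ε_out j k i h, abs_zero]; exact h0
  · have := hx.Pos_sq (j := j) (k := k) (by omega) (by omega) i
    exact abs_le_of_sq_le_sq (by linarith [sq_nonneg ‖x.ξ j k i‖]) h0

theorem sum_bq (j k : ℕ) : ∑ i, x.bq j k i = x.w j k := by
  simp only [Pos_bq]
  rw [Finset.sum_add_distrib, hx.ε_mean, add_zero, Finset.sum_const, card_univ, ZMod.card,
    nsmul_eq_mul, x.n_mul_c]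

theorem bq_out {j k : ℕ} (h : k = 0 ∨ NN j ≤ k) (i : ZMod (nn j)) : x.bq j k i = 0 := by
  rw [Pos_bq, hx.ε_out j k i h, add_zero, x.Mac1_c]
  rcases h with rfl | h
  · rw [x.w_zero, zero_div]
  · rw [x.w_out h, zero_div]

theorem c_ge (ν : Nk) : 2 * (PP ν.j)⁻¹ ^ 2 ≤ (x.wall ν.j).c ν.k := by
  have h1 := hx.w_ge ν.h1 ν.h2
  have h2 : (1 : ℝ) ≤ x.W ν.j := le_trans (one_le_pow₀ (by norm_num)) (hx.W_ge ν.j)
  have h3 := NN_le_PP ν.j
  have h4 := nn_le_PP ν.j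
  have h5 : (NN ν.j : ℝ) ≤ NN (ν.j + 1) := Nat.cast_le.2 (NN_mono _)
  have h6 : (nn ν.j : ℝ) ≤ nn (ν.j + 1) := Nat.cast_le.2 (nn_mono _)
  have h7 : (0 : ℝ) < NN ν.j := Nat.cast_pos.2 (lt_of_le_of_lt (Nat.zero_le _) ν.h2)
  have h8 : (0 : ℝ) < nn ν.j := Ring1_pos _
  have h9 : (0 : ℝ) < PP ν.j := lt_of_lt_of_le (by norm_num) (PP_ge ν.j)
  have h10 : 1 / (NN ν.j : ℝ) ≤ x.w ν.j ν.k := le_trans (by gcongr) h1
  rw [x.Mac1_c, le_div_iff₀ h8]
  refine le_trans ?_ h10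
  rw [le_div_iff₀ h7, inv_pow, mul_assoc, mul_assoc, mul_left_comm, inv_mul_le_iff₀ (by positivity),
    mul_one]
  calc 2 * ((nn ν.j : ℝ) * NN ν.j) ≤ (2 ^ 10 * nn ν.j) * (2 ^ 10 * NN ν.j) := by
        nlinarith [mul_pos h8 h7]
    _ ≤ PP ν.j * PP ν.j := mul_le_mul (by linarith) (by linarith) (by positivity) h9.le
    _ = PP ν.j ^ 2 := (sq _).symm

theorem bq_ge (ν : Nk) : (PP ν.j)⁻¹ ^ 2 ≤ x.bq ν.j ν.k ν.i := by
  have h1 := hx.c_ge ν
  have h2 := (abs_le.1 (hx.ε_le ν.j ν.k ν.i)).1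
  have h3 := Pos_tP ν.j
  rw [Pos_bq]
  linarith

theorem bet_near (e : Nk × Bool) : |‖x.dat.bet e‖ - x.bq e.1.j e.1.k e.1.i| ≤ tt e.1.j ^ 28 := by
  have h1 : 0 ≤ x.bq e.1.j e.1.k e.1.i := le_trans (by positivity) (hx.bq_ge e.1)
  have h2 := abs_norm_sub_norm_le ((x.bq e.1.j e.1.k e.1.i : ℂ) + x.io e.1.j e.1.k e.1.i * I)
    (x.bq e.1.j e.1.k e.1.i : ℂ)
  rw [add_sub_cancel_left, norm_mul, norm_I, mul_one, norm_real, norm_real, Real.norm_eq_abs,
    Real.norm_eq_abs, abs_of_nonneg h1] at h2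
  rw [Pos_bet]
  exact h2.trans (hx.io_le _ _ _)

theorem bet_le (e : Nk × Bool) : ‖x.dat.bet e‖ ≤ 2 ^ (e.1.j + 1) := by
  have h1 := (abs_le.1 (hx.bet_near e)).2
  have h2 := (abs_le.1 (hx.ε_le e.1.j e.1.k e.1.i)).2
  have h3 := Pos_t3 e.1.j
  have h4 : tt e.1.j ^ 28 ≤ tt e.1.j ^ 3 :=
    pow_le_pow_of_le_one (tt_pos _).le ((tt_le _).trans (by norm_num)) (by norm_num)
  have h5 : (x.wall e.1.j).c e.1.k ≤ x.w e.1.j e.1.k := by
    rw [x.Mac1_c]
    exact div_le_self (hx.w_nonneg _ _) (Nat.one_le_cast.2 NeZero.one_le)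
  have h6 := hx.w_le e.1.j e.1.k
  have h7 := hx.W_le e.1.j
  have h8 : (1 : ℝ) ≤ 2 ^ e.1.j := one_le_pow₀ (by norm_num)
  rw [Pos_bq] at h1
  rw [pow_succ]
  linarith

theorem Pos_exp {j k : ℕ} (hj : 1 ≤ j) (h : k ≤ NN j) :
    999 / 1000 * rho j ≤ Real.exp (x.lr j k) ∧ Real.exp (x.lr j k) ≤ 1000 / 999 * rho j := by
  have h1 := hx.lr_near hj h
  have h2 : (1 : ℝ) / (1000 * nn j) ≤ 1 / 1000 := by
    have : (1 : ℝ) ≤ nn j := Nat.one_le_cast.2 NeZero.one_le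
    exact one_div_le_one_div_of_le (by norm_num) (by linarith)
  obtain ⟨h3, h4⟩ := abs_le.1 (h1.trans h2)
  have h5 := Real.add_one_le_exp (x.lr j k - ell j)
  have h6 := Real.add_one_le_exp (ell j - x.lr j k)
  have h7 := rho_pos j
  have h8 := Real.exp_pos (x.lr j k)
  rw [Real.exp_sub, exp_ell, le_div_iff₀ h7] at h5
  rw [Real.exp_sub, exp_ell, le_div_iff₀ h8] at h6
  constructor <;> nlinarith

theorem pos_near (e : Nk × Bool) (hj : 1 ≤ e.1.j) :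
    ‖x.dat.pos e - (Real.exp (x.lr e.1.j e.1.k) : ℝ) * un (nn e.1.j) e.1.k e.1.i‖ ≤
      2 * tt e.1.j ^ 3 * Real.exp (x.lr e.1.j e.1.k) := by
  have h1 := hx.ξ_le e.1.j e.1.k e.1.i
  have h2 := Pos_t3 e.1.j
  have h3 := norm_exp_sub_one_sub_id_le (x := x.ξ e.1.j e.1.k e.1.i) (by linarith)
  have h4 : ‖exp (x.ξ e.1.j e.1.k e.1.i) - 1‖ ≤ 3 / 2 * tt e.1.j ^ 3 := by
    have h5 := norm_add_le (exp (x.ξ e.1.j e.1.k e.1.i) - 1 - x.ξ e.1.j e.1.k e.1.i)
      (x.ξ e.1.j e.1.k e.1.i)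
    rw [sub_add_cancel] at h5
    nlinarith [norm_nonneg (x.ξ e.1.j e.1.k e.1.i)]
  have ht := tt_pos e.1.j
  have h5 : ‖(if e.2 then x.de e.1.j e.1.k e.1.i else 0)‖ ≤ (tt e.1.j)⁻¹ ^ 3 := by
    split_ifs
    · exact hx.de_le _ _ _
    · rw [norm_zero]; positivity
  have h6 : 4 * (tt e.1.j)⁻¹ ^ 3 ≤ tt e.1.j ^ 3 * rho e.1.j := by
    have h7 : (1000 : ℝ) ≤ (tt e.1.j)⁻¹ := by
      rw [le_inv_comm₀ (by norm_num) ht, ← one_div]; exact tt_le _
    have h8 : (tt e.1.j)⁻¹ ≤ (tt e.1.j)⁻¹ ^ 26 := le_self_pow₀ (by linarith) (by norm_num)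
    have e1 : tt e.1.j ^ 3 * rho e.1.j = (tt e.1.j)⁻¹ ^ 26 * (tt e.1.j)⁻¹ ^ 3 := by
      rw [rho]; field_simp
    rw [e1]
    exact mul_le_mul_of_nonneg_right (by linarith) (by positivity)
  have h7 := (hx.Pos_exp hj e.1.h2.le).1
  have h8 := Real.exp_pos (x.lr e.1.j e.1.k)
  have h9 := rho_pos e.1.j
  have h10 := pow_pos ht 3
  have e2 : x.dat.pos e - (Real.exp (x.lr e.1.j e.1.k) : ℝ) * un (nn e.1.j) e.1.k e.1.i =
      (Real.exp (x.lr e.1.j e.1.k) : ℝ) * un (nn e.1.j) e.1.k e.1.i *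
        (exp (x.ξ e.1.j e.1.k e.1.i) - 1) + if e.2 then x.de e.1.j e.1.k e.1.i else 0 := by
    rw [Pos_pos, Pos_pp x hj]; ring
  rw [e2]
  refine (norm_add_le _ _).trans ?_
  rw [norm_mul, norm_mul, norm_un, mul_one, norm_real, Real.norm_eq_abs, abs_of_pos h8]
  have h11 := mul_le_mul_of_nonneg_left h4 h8.le
  have h12 := mul_le_mul_of_nonneg_left h7 h10.le
  have h13 := mul_pos h10 h9
  linarith

theorem pos_ge (e : Nk × Bool) (hj : 1 ≤ e.1.j) : 9 / 10 * rho e.1.j ≤ ‖x.dat.pos e‖ := by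
  have h1 := (abs_norm_sub_norm_le _ _).trans (hx.pos_near e hj)
  have h2 := Real.exp_pos (x.lr e.1.j e.1.k)
  rw [norm_mul, norm_un, mul_one, norm_real, Real.norm_eq_abs, abs_of_pos h2] at h1
  have h3 := (abs_le.1 h1).1
  have h4 := (hx.Pos_exp hj e.1.h2.le).1
  have h5 := mul_le_mul_of_nonneg_right (Pos_t3 e.1.j) h2.le
  have h6 := rho_pos e.1.j
  linarith

theorem pos_zero (e : Nk × Bool) (hj : e.1.j = 0) : x.dat.pos e = 0 := by
  obtain ⟨⟨j, k, i, h1, h2⟩, s⟩ := e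
  dsimp only at hj
  subst hj
  have hs : Subsingleton (ZMod (nn 0)) := ZMod.subsingleton_iff.2 nn_zero
  have h3 := hx.de_rot 0 k i
  rw [Subsingleton.elim (i + sh 0) i] at h3
  have h4 : (uu - 1) * x.de 0 k i = 0 := by linear_combination -h3
  have h5 := (mul_eq_zero.1 h4).resolve_left (sub_ne_zero.2 uu_ne)
  rw [Pos_pos]
  dsimp only
  rw [h5, ite_self, add_zero, Prm.pp, if_pos rfl]

theorem pos_le (e : Nk × Bool) : ‖x.dat.pos e‖ ≤ 11 / 10 * rho e.1.j := by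
  have h6 := rho_pos e.1.j
  rcases Nat.eq_zero_or_pos e.1.j with hj | hj
  · rw [hx.pos_zero e hj, norm_zero]; positivity
  have h1 := (abs_norm_sub_norm_le _ _).trans (hx.pos_near e hj)
  have h2 := Real.exp_pos (x.lr e.1.j e.1.k)
  rw [norm_mul, norm_un, mul_one, norm_real, Real.norm_eq_abs, abs_of_pos h2] at h1
  have h3 := (abs_le.1 h1).2
  have h4 := (hx.Pos_exp hj e.1.h2.le).2
  have h5 := mul_le_mul_of_nonneg_right (Pos_t3 e.1.j) h2.le
  linarith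

theorem micro_zero {j : ℕ} (hj : j ≤ 5) : x.ξ j = 0 ∧ x.ε j = 0 := by
  have h : sh j = 1 := by rw [sh, show j - 5 = 0 by omega, pow_zero, Nat.cast_one]
  constructor
  · funext k i
    exact Pos_const _ (fun i => by rw [← h, hx.ξ_rot]) (hx.ξ_mean j k) i
  · funext k i
    exact Pos_const _ (fun i => by rw [← h, hx.ε_rot]) (hx.ε_mean j k) i

theorem wall_pert {j : ℕ} (hj : 1 ≤ j) : (x.wall j).Pert (nn j) (x.ξ j) (x.ε j) (Lb j) where
  ξ_out := hx.ξ_out j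
  ε_out := hx.ε_out j
  ξ_mean := hx.ξ_mean j
  ε_mean := hx.ε_mean j
  modes m k hm hc :=
    ⟨Pos_hat hj _ (fun k i => by rw [hx.ξ_rot])
        (fun k => by rw [← re_sum, hx.ξ_mean, zero_re]) m k hm hc,
      Pos_hat hj _ (fun k i => by rw [hx.ξ_rot])
        (fun k => by rw [← im_sum, hx.ξ_mean, zero_im]) m k hm hc,
      Pos_hat hj _ (hx.ε_rot j) (hx.ε_mean j) m k hm hc⟩

theorem dat_rot : x.dat.Rot rotN uu where
  unit := norm_uu
  pos e := by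
    rcases Nat.eq_zero_or_pos e.1.j with hj | hj
    · rw [hx.pos_zero e hj, hx.pos_zero (sd rotN e) hj, mul_zero]
    · have e1 : x.dat.pos (sd rotN e) = x.pp e.1.j e.1.k (e.1.i + sh e.1.j) +
          if e.2 then x.de e.1.j e.1.k (e.1.i + sh e.1.j) else 0 := rfl
      rw [e1, Pos_pos, Pos_pp x hj, Pos_pp x hj, hx.ξ_rot, hx.de_rot, un_add, chi_sh hj]
      split_ifs <;> ring
  bet ν := by
    have e1 : x.dat.2 (rotN ν) = x.bq ν.j ν.k (ν.i + sh ν.j) + x.io ν.j ν.k (ν.i + sh ν.j) * I :=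
      rfl
    rw [e1, Pos_bq, hx.ε_rot, hx.io_rot]
    rfl

theorem dat_refl : x.dat.Refl reflN where
  pos e := by
    rcases Nat.eq_zero_or_pos e.1.j with hj | hj
    · rw [hx.pos_zero e hj, hx.pos_zero (sd reflN e) hj, map_zero]
    · have e1 : x.dat.pos (sd reflN e) = x.pp e.1.j e.1.k (-e.1.i - e.1.k) +
          if e.2 then x.de e.1.j e.1.k (-e.1.i - e.1.k) else 0 := rfl
      rw [e1, Pos_pos, Pos_pp x hj, Pos_pp x hj, hx.ξ_refl, hx.de_refl, un_refl, map_add, map_mul,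
        map_mul, conj_ofReal, exp_conj]
      split_ifs
      · rfl
      · rw [map_zero]
  bet ν := by
    have e1 : x.dat.2 (reflN ν) = x.bq ν.j ν.k (-ν.i - ν.k) + x.io ν.j ν.k (-ν.i - ν.k) * I := rfl
    have e2 : x.dat.2 ν = x.bq ν.j ν.k ν.i + x.io ν.j ν.k ν.i * I := rfl
    rw [e1, e2, Pos_bq, Pos_bq, hx.ε_refl, hx.io_refl, map_add, map_mul, conj_ofReal, conj_ofReal,
      conj_I]
    push_cast
    ring

end InK

end Pool.Agent.MP_943ae2_gt

end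
end

section

open Set Complex Filter Finset
open scoped Topology ComplexConjugate ContDiff

noncomputable section

namespace Pool.Agent.MP_943ae2_gt

lemma admM_PP_one (j : ℕ) : 1 ≤ PP j := le_trans (by norm_num) (PP_ge j)

lemma admM_PP_pos (j : ℕ) : 0 < PP j := lt_of_lt_of_le one_pos (admM_PP_one j)

lemma admM_pow_tt (j : ℕ) {m : ℕ} (hm : m ≤ 60) : PP j ^ m * tt j ≤ 1 :=
  (mul_le_mul_of_nonneg_right (pow_le_pow_right₀ (admM_PP_one j) hm) (tt_pos j).le).trans (PP_tt j)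

lemma admM_PP_tt (j : ℕ) : PP j * tt j ≤ 1 := by simpa using admM_pow_tt j (m := 1) (by norm_num)

lemma admM_PP_le (j : ℕ) : PP j ≤ (tt j)⁻¹ := by
  rw [← one_div, le_div_iff₀ (tt_pos j)]; exact admM_PP_tt j

lemma admM_tt_one (j : ℕ) : tt j ≤ 1 := (tt_le j).trans (by norm_num)

lemma admM_inv_one (j : ℕ) : 1 ≤ (tt j)⁻¹ := (admM_PP_one j).trans (admM_PP_le j)

lemma admM_PP_mono : Monotone PP := monotone_nat_of_le_succ fun j => by
  rw [PP_succ]; have := admM_PP_pos j; linarith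

lemma admM_nn_pos (j : ℕ) : (1 : ℝ) ≤ nn j := by
  exact_mod_cast NeZero.one_le

lemma admM_nn_le (j : ℕ) : 1024 * (nn j : ℝ) ≤ PP j := by
  have h1 := nn_le_PP j
  have h2 : (nn j : ℝ) ≤ nn (j + 1) := by exact_mod_cast nn_mono j
  linarith

lemma admM_cube (j : ℕ) : tt j ^ 3 * nn j ≤ 1 / 1024 := by
  have h1 := admM_nn_le j
  have h2 := admM_PP_tt j
  have h3 := tt_pos j
  have h4 : tt j ^ 3 ≤ tt j := pow_le_of_le_one h3.le (admM_tt_one j) (by norm_num)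
  have h5 := admM_nn_pos j
  nlinarith

lemma admM_rho_ge (j : ℕ) : 1000 ≤ rho j := by
  have h1 : (1000 : ℝ) ≤ (tt j)⁻¹ := le_trans (le_trans (by norm_num) (PP_ge j)) (admM_PP_le j)
  exact h1.trans (le_self_pow₀ (admM_inv_one j) (by norm_num))

lemma admM_rho_succ (j : ℕ) : 1000 * rho j ≤ rho (j + 1) := by
  have h := admM_rho_ge j
  rw [rho_succ]
  have h3 : rho j ≤ rho j ^ 3 := le_self_pow₀ (by linarith) (by norm_num)
  nlinarith

lemma admM_exp {y : ℝ} (hy : 2 ^ 17 ≤ y) : 2 * y ^ 128 ≤ Real.exp y := by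
  have h0 : 0 < y := lt_of_lt_of_le (by norm_num) hy
  have h1 : y / 256 ≤ Real.exp (y / 256) := by linarith [Real.add_one_le_exp (y / 256)]
  have h2 : (y / 256) ^ 256 ≤ Real.exp y := by
    have := pow_le_pow_left₀ (by positivity) h1 256
    rwa [← Real.exp_nat_mul, show ((256 : ℕ) : ℝ) * (y / 256) = y by push_cast; ring] at this
  have h3 : (2 : ℝ) ≤ y / 65536 := by rw [le_div_iff₀ (by norm_num)]; linarith
  have h4 : (2 : ℝ) ≤ (y / 65536) ^ 128 := h3.trans (le_self_pow₀ (by linarith) (by norm_num))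
  have h5 : (y / 256) ^ 256 = (y / 65536) ^ 128 * y ^ 128 := by
    rw [← mul_pow, show 256 = 2 * 128 from rfl, pow_mul]; congr 1; ring
  have h6 : 0 < y ^ 128 := by positivity
  nlinarith

lemma admM_exp_tt (l : ℕ) : 2 * (tt l)⁻¹ ^ 128 ≤ Real.exp (tt l)⁻¹ :=
  admM_exp (le_trans (le_trans (by norm_num) (PP_ge l)) (admM_PP_le l))

lemma admM_loc (e : Nk × Bool) : 1 ≤ (e.1.k + if e.2 then 1 else 0) ∧
    (e.1.k + if e.2 then 1 else 0) ≤ NN e.1.j := by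
  have h1 := e.1.h1; have h2 := e.1.h2
  split_ifs <;> omega

lemma admM_lev (e : Nk × Bool) : lev (frm.lay e) ≤ e.1.j ∧ e.1.j ≤ lev (frm.lay e) + 1 := by
  rw [lay_eq, lev_wall (admM_loc e).1 (admM_loc e).2]
  split_ifs <;> omega

lemma admM_two (j : ℕ) : 512 * (2 : ℝ) ^ (j + 2) ≤ PP j := by
  have := two_pow_le_PP j
  rw [pow_succ (2 : ℝ) (j + 1)]; linarith

namespace InK

variable {x : Prm} (hx : InK x)
include hx

lemma admM_rad {j k : ℕ} (hj : 1 ≤ j) (hk : k ≤ NN j) :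
    9 / 10 * rho j ≤ Real.exp (x.lr j k) ∧ Real.exp (x.lr j k) ≤ 11 / 10 * rho j := by
  have h := abs_le.1 (hx.lr_near hj hk)
  have hn := admM_nn_pos j
  have h0 : 1 / (1000 * (nn j : ℝ)) ≤ 1 / 1000 :=
    one_div_le_one_div_of_le (by norm_num) (by linarith)
  have e : Real.exp (x.lr j k) = rho j * Real.exp (x.lr j k - ell j) := by
    rw [← exp_ell, ← Real.exp_add]; congr 1; ring
  have hr := rho_pos j
  have h1 := Real.add_one_le_exp (x.lr j k - ell j)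
  have h2 : Real.exp (x.lr j k - ell j) ≤ 11 / 10 := by
    have h3 := Real.add_one_le_exp (-(x.lr j k - ell j))
    rw [Real.exp_neg] at h3
    have h4 := Real.exp_pos (x.lr j k - ell j)
    have h5 : 999 / 1000 ≤ (Real.exp (x.lr j k - ell j))⁻¹ := by linarith
    rw [le_inv_comm₀ (by norm_num) h4] at h5
    linarith
  rw [e]
  constructor <;> nlinarith

lemma admM_close (e : Nk × Bool) (hj : 1 ≤ e.1.j) :
    ‖x.dat.pos e - (Real.exp (x.lr e.1.j e.1.k) : ℝ) * un (nn e.1.j) e.1.k e.1.i‖ ≤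
      rho e.1.j / (100 * nn e.1.j) := by
  refine (hx.pos_near e hj).trans ?_
  have h1 := (hx.admM_rad hj e.1.h2.le).2
  have h2 := admM_cube e.1.j
  have h3 := admM_nn_pos e.1.j
  have h4 := rho_pos e.1.j
  have h5 := Real.exp_pos (x.lr e.1.j e.1.k)
  rw [le_div_iff₀ (by positivity)]
  nlinarith

omit hx in
lemma admM_tri {p q a b : ℂ} {r n : ℝ} (hr : 0 < r) (hn : 0 < n) (h1 : ‖p - a‖ ≤ r / (100 * n))
    (h2 : ‖q - b‖ ≤ r / (100 * n)) (h3 : r / n ≤ ‖a - b‖) : r / (4 * n) ≤ ‖p - q‖ := by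
  have h4 : ‖a - b‖ ≤ ‖p - q‖ + ‖p - a‖ + ‖q - b‖ := by
    calc ‖a - b‖ = ‖(p - q) - (p - a) + (q - b)‖ := by congr 1; ring
      _ ≤ _ := (norm_add_le _ _).trans (by linarith [norm_sub_le (p - q) (p - a)])
  have e1 : r / (100 * n) = r / n / 100 := by field_simp
  have e2 : r / (4 * n) = r / n / 4 := by field_simp
  have h5 : 0 < r / n := by positivity
  rw [e1] at h1 h2
  rw [e2]; linarith

lemma admM_cross {j k : ℕ} (hj : 1 ≤ j) (hk : k + 1 ≤ NN j) (i i' : ZMod (nn j)) :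
    rho j / nn j ≤ ‖((Real.exp (x.lr j k) : ℝ) : ℂ) * un (nn j) k i -
      (Real.exp (x.lr j (k + 1)) : ℝ) * un (nn j) (k + 1) i'‖ := by
  refine le_trans ?_ (sep_cross (nn j) k i i' (Real.exp_pos _) (Real.exp_pos _))
  have h1 := (hx.admM_rad hj (k := k) (by omega)).1
  have h2 := (hx.admM_rad hj hk).1
  have h3 := le_min h1 h2
  have h4 := rho_pos j
  have h5 := admM_nn_pos j
  gcongr
  linarith

lemma admM_same {j k : ℕ} (hj : 1 ≤ j) (hk : k ≤ NN j) {i i' : ZMod (nn j)} (h : i' ≠ i) :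
    rho j / nn j ≤ ‖((Real.exp (x.lr j k) : ℝ) : ℂ) * un (nn j) k i -
      (Real.exp (x.lr j k) : ℝ) * un (nn j) k i'‖ := by
  have h0 := sep_same (nn j) k h
  have h1 := (hx.admM_rad hj hk).1
  have h4 := rho_pos j
  have h5 := admM_nn_pos j
  rw [← mul_sub, norm_mul, Complex.norm_real, Real.norm_eq_abs, abs_of_pos (Real.exp_pos _)]
  calc rho j / nn j ≤ 9 / 10 * rho j * (4 / nn j) := by
        rw [show 9 / 10 * rho j * (4 / (nn j : ℝ)) = 36 / 10 * (rho j / nn j) by ring]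
        have : 0 < rho j / nn j := by positivity
        linarith
    _ ≤ _ := by gcongr

theorem sep_oth {e μ : Nk × Bool} (h : μ ∈ frm.oth e) :
    rho e.1.j / (4 * nn e.1.j) ≤ ‖x.dat.pos e - x.dat.pos μ‖ := by
  obtain ⟨hne, hl⟩ := mem_oth.1 h
  have hm : μ ∈ frm.sides (frm.lay e) := mem_sides_iff.2 hl
  rw [lay_eq, mem_sides_wall (admM_loc e).1 (admM_loc e).2] at hm
  have hn := admM_nn_pos e.1.j
  have hr := rho_pos e.1.j
  have hq : rho e.1.j / (4 * nn e.1.j) ≤ rho e.1.j / 4 := by gcongr; linarith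
  rcases hm with ⟨hj, hk⟩ | ⟨-, hj, -⟩ | ⟨-, hj, -⟩
  · obtain ⟨⟨j, k, i, h1, h2⟩, s⟩ := e
    obtain ⟨⟨j', k', i', h1', h2'⟩, s'⟩ := μ
    dsimp only at hj hk hn hr ⊢
    subst hj
    rcases Nat.eq_zero_or_pos j' with rfl | hj
    · exfalso
      have hN := NN_zero
      obtain rfl : k = 1 := by omega
      obtain rfl : k' = 1 := by omega
      have hs : s' = s := by cases s <;> cases s' <;> simp_all
      have : Subsingleton (ZMod (nn 0)) := by rw [nn_zero]; infer_instance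
      obtain rfl : i = i' := Subsingleton.elim _ _
      exact hne (by rw [hs])
    have c1 := hx.admM_close (⟨j', k, i, h1, h2⟩, s) hj
    have c2 := hx.admM_close (⟨j', k', i', h1', h2'⟩, s') hj
    refine admM_tri hr (by linarith) c1 c2 ?_
    dsimp only
    have hc : (k' = k ∧ s' = s) ∨ k' = k + 1 ∨ k = k' + 1 := by
      cases s <;> cases s' <;> simp at hk ⊢ <;> omega
    rcases hc with ⟨rfl, rfl⟩ | rfl | rfl
    · exact hx.admM_same hj h2.le (fun hi => hne (by subst hi; rfl))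
    · exact hx.admM_cross hj h2'.le i i'
    · rw [norm_sub_rev]; exact hx.admM_cross hj h2.le i' i
  · have h1 := hx.pos_ge e (by omega)
    have h2 := hx.pos_le μ
    have h3 := admM_rho_succ μ.1.j
    rw [hj] at h3
    have h4 := norm_sub_norm_le (x.dat.pos e) (x.dat.pos μ)
    linarith
  · have h1 := hx.pos_ge μ (by omega)
    have h2 := hx.pos_le e
    have h3 := admM_rho_succ e.1.j
    rw [← hj] at h3
    have h4 := norm_sub_norm_le (x.dat.pos μ) (x.dat.pos e)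
    rw [norm_sub_rev] at h4
    linarith

lemma admM_bet_le {e : Nk × Bool} {l : ℕ} (h : e.1.j ≤ l + 1) : 512 * ‖x.dat.bet e‖ ≤ PP l := by
  have h1 := hx.bet_le e
  have h2 := admM_two l
  have h3 : (2 : ℝ) ^ (e.1.j + 1) ≤ 2 ^ (l + 2) := pow_le_pow_right₀ (by norm_num) (by omega)
  linarith

lemma admM_lam (e : Nk × Bool) :
    ∑ μ ∈ frm.oth e, ‖x.dat.bet μ‖ / ‖x.dat.pos e - x.dat.pos μ‖ ≤ tt e.1.j ^ 30 := by
  classical
  have hP := admM_PP_pos e.1.j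
  have ht := tt_pos e.1.j
  have hn := admM_nn_pos e.1.j
  have hr := rho_pos e.1.j
  have hb : ∀ μ ∈ frm.oth e, ‖x.dat.bet μ‖ / ‖x.dat.pos e - x.dat.pos μ‖ ≤
      PP e.1.j ^ 2 * tt e.1.j ^ 32 := by
    intro μ hμ
    have h1 : μ.1.j ≤ e.1.j + 1 := by
      have a1 := (admM_lev μ).2
      have a2 := (admM_lev e).1
      rw [(mem_oth.1 hμ).2] at a1
      omega
    have h2 := hx.admM_bet_le h1
    have h3 := hx.sep_oth hμ
    have h4 : rho e.1.j / PP e.1.j ≤ rho e.1.j / (4 * nn e.1.j) := by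
      gcongr; linarith [admM_nn_le e.1.j]
    have h5 : 0 < rho e.1.j / PP e.1.j := by positivity
    calc _ ≤ PP e.1.j / (rho e.1.j / PP e.1.j) := by
          gcongr
          · linarith [norm_nonneg (x.dat.bet μ)]
          · exact h4.trans h3
      _ = _ := by unfold rho; field_simp
  have hc : ((frm.oth e).card : ℝ) ≤ PP e.1.j := by
    have h1 : (frm.oth e).card ≤ (frm.sides (frm.lay e)).card :=
      Finset.card_le_card fun μ hμ => mem_sides_iff.2 (mem_oth.1 hμ).2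
    have h2 : ((frm.oth e).card : ℝ) ≤ (frm.sides (frm.lay e)).card := by exact_mod_cast h1
    exact h2.trans ((card_sides _).trans (admM_PP_mono (admM_lev e).1))
  have h3 := admM_pow_tt e.1.j (m := 3) (by norm_num)
  have h4 := admM_tt_one e.1.j
  calc _ ≤ (frm.oth e).card • (PP e.1.j ^ 2 * tt e.1.j ^ 32) := Finset.sum_le_card_nsmul _ _ _ hb
    _ = (frm.oth e).card * (PP e.1.j ^ 2 * tt e.1.j ^ 32) := nsmul_eq_mul _ _
    _ ≤ PP e.1.j * (PP e.1.j ^ 2 * tt e.1.j ^ 32) := by gcongr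
    _ = (PP e.1.j ^ 3 * tt e.1.j) * tt e.1.j * tt e.1.j ^ 30 := by ring
    _ ≤ 1 * 1 * tt e.1.j ^ 30 := by gcongr
    _ = _ := by ring

theorem adm : frm.Adm x.dat where
  t_pos ν := tt_pos ν.j
  T_le l := tt_le _
  T_pos l := tt_pos _
  T_anti := tt_anti.comp_monotone lev_mono
  t_le e := tt_anti (admM_lev e).1
  t_ge e := by
    change Real.exp (-(tt (lev (frm.lay e)))⁻¹) ≤ tt e.1.j
    refine le_trans ?_ (tt_anti (admM_lev e).2)
    generalize lev (frm.lay e) = l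
    have h1 := admM_exp_tt l
    have h2 : (tt l)⁻¹ ^ 4 ≤ (tt l)⁻¹ ^ 128 := pow_le_pow_right₀ (admM_inv_one l) (by norm_num)
    have h3 := tt_pos l
    have h4 : 0 < (tt l)⁻¹ ^ 4 := by positivity
    rw [tt_succ, Real.exp_neg, inv_le_comm₀ (Real.exp_pos _) (by positivity), ← inv_pow]
    linarith
  card l := (card_sides l).trans (admM_PP_le _)
  b_ge e := by
    change tt e.1.j ≤ _
    have h1 := (abs_le.1 (hx.bet_near e)).1
    have h2 := hx.bq_ge e.1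
    have ht := tt_pos e.1.j
    have hP := admM_PP_pos e.1.j
    have h3 : tt e.1.j ^ 28 ≤ tt e.1.j := pow_le_of_le_one ht.le (admM_tt_one _) (by norm_num)
    have h4 : 2 * tt e.1.j ≤ (PP e.1.j)⁻¹ ^ 2 := by
      have a1 := admM_pow_tt e.1.j (m := 3) (by norm_num)
      have a2 : (2 : ℝ) ≤ PP e.1.j := le_trans (by norm_num) (PP_ge _)
      rw [inv_pow, ← one_div, le_div_iff₀ (by positivity)]
      have a3 : 0 < PP e.1.j ^ 2 * tt e.1.j := by positivity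
      nlinarith
    linarith
  b_le e := by
    have h1 := hx.admM_bet_le (admM_lev e).2
    have h2 := admM_PP_le (lev (frm.lay e))
    change _ ≤ (tt (lev (frm.lay e)))⁻¹
    linarith [norm_nonneg (x.dat.bet e)]
  b_real ν := by
    change _ ≤ tt ν.j ^ 20
    have h1 := hx.bet_near (ν, false)
    rw [bet_false] at h1
    have h2 := hx.io_le ν.j ν.k ν.i
    have ht := tt_pos ν.j
    have h3 : x.dat.2 ν - (‖x.dat.2 ν‖ : ℝ) =
        x.io ν.j ν.k ν.i * I - ((‖x.dat.2 ν‖ - x.bq ν.j ν.k ν.i : ℝ) : ℂ) := by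
      have : x.dat.2 ν = x.bq ν.j ν.k ν.i + x.io ν.j ν.k ν.i * I := rfl
      push_cast
      linear_combination this
    have h4 : tt ν.j ^ 8 ≤ 1 / 2 :=
      (pow_le_of_le_one ht.le (admM_tt_one _) (by norm_num)).trans ((tt_le _).trans (by norm_num))
    rw [h3]
    refine (norm_sub_le _ _).trans ?_
    rw [norm_mul, Complex.norm_I, mul_one, Complex.norm_real, Complex.norm_real, Real.norm_eq_abs,
      Real.norm_eq_abs]
    have h5 : tt ν.j ^ 28 = tt ν.j ^ 8 * tt ν.j ^ 20 := by ring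
    have h6 : 0 < tt ν.j ^ 20 := by positivity
    dsimp only at h1
    nlinarith
  pos_le e := by
    change _ ≤ Real.exp (tt (lev (frm.lay e)))⁻¹
    have h1 := hx.pos_le e
    have h2 := tt_anti (admM_lev e).2
    generalize lev (frm.lay e) = l at h2
    have h3 := admM_exp_tt l
    have h4 : rho e.1.j ≤ (tt l)⁻¹ ^ 128 := by
      have a1 := tt_pos (l + 1)
      calc rho e.1.j = (tt e.1.j)⁻¹ ^ 32 := rfl
        _ ≤ (tt (l + 1))⁻¹ ^ 32 := by have := tt_pos e.1.j; gcongr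
        _ = _ := by rw [tt_succ, ← inv_pow, ← pow_mul]
    have h5 := rho_pos e.1.j
    linarith
  pq e := by
    change _ ≤ (tt e.1.j)⁻¹ ^ 3
    have h1 := hx.de_le e.1.j e.1.k e.1.i
    obtain ⟨ν, _ | _⟩ := e <;> simpa [Dat.pos, Prm.dat] using h1
  sep e μ hμ := by
    refine le_trans ?_ (hx.sep_oth hμ)
    change 8 * (tt e.1.j)⁻¹ ^ 16 ≤ (tt e.1.j)⁻¹ ^ 32 / _
    have h1 := admM_nn_pos e.1.j
    have h2 := admM_nn_le e.1.j
    have h3 := admM_PP_le e.1.j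
    have h4 : (tt e.1.j)⁻¹ ≤ (tt e.1.j)⁻¹ ^ 16 := le_self_pow₀ (admM_inv_one _) (by norm_num)
    have h5 : (tt e.1.j)⁻¹ ^ 32 = (tt e.1.j)⁻¹ ^ 16 * (tt e.1.j)⁻¹ ^ 16 := by ring
    rw [le_div_iff₀ (by positivity), h5]
    nlinarith
  lam e := hx.admM_lam e
  ne l := by
    rcases layer_cases l with rfl | ⟨j, a, h1, h2, rfl⟩
    · exact ⟨⟨0, 1, 0, le_rfl, by rw [NN_zero]; norm_num⟩, rfl⟩
    · refine ⟨⟨j + 1, a, 0, h1, ?_⟩, rfl⟩
      have := Mt_pos (j + 1)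
      have := Lb_succ j
      unfold NN; omega

theorem rab_re (e : Nk × Bool) :
    |(if e.2 then 1 else -1) * (frm.rab x.dat e).re - x.bq e.1.j e.1.k e.1.i| ≤ tt e.1.j ^ 29 := by
  have h1 := hx.adm.rab_est e
  have h2 := hx.admM_bet_le (e := e) (l := e.1.j) (by omega)
  have h3 := admM_PP_tt e.1.j
  have ht := tt_pos e.1.j
  have h4 : 10 * ‖x.dat.bet e‖ * frm.t e.1 ^ 30 ≤ tt e.1.j ^ 29 := by
    change 10 * ‖x.dat.bet e‖ * tt e.1.j ^ 30 ≤ _
    have h5 := norm_nonneg (x.dat.bet e)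
    calc 10 * ‖x.dat.bet e‖ * tt e.1.j ^ 30 ≤ PP e.1.j * tt e.1.j ^ 30 := by gcongr; linarith
      _ = PP e.1.j * tt e.1.j * tt e.1.j ^ 29 := by ring
      _ ≤ 1 * tt e.1.j ^ 29 := by gcongr
      _ = _ := one_mul _
  refine le_trans ?_ ((Complex.abs_re_le_norm _).trans (h1.trans h4))
  obtain ⟨ν, _ | _⟩ := e
  · rw [← abs_neg]
    apply le_of_eq; congr 1
    simp [Prm.dat]; ring
  · apply le_of_eq; congr 1
    simp [Prm.dat]; ring

end InK

end Pool.Agent.MP_943ae2_gt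

end
end

section

open Set Complex Filter Finset
open scoped Topology ComplexConjugate ContDiff

noncomputable section

namespace Pool.Agent.MP_943ae2_gt

def Prm.SS (x : Prm) (e : Nk × Bool) : ℂ :=
  ∑ μ ∈ frm.oth e, x.dat.bet μ / (x.dat.pos e - x.dat.pos μ)

def Prm.LL (x : Prm) (e : Nk × Bool) : ℝ :=
  ∑ μ ∈ frm.oth e, (if μ.2 then 1 else -1) * x.bq μ.1.j μ.1.k μ.1.i *
    Real.log ‖x.dat.pos e - x.dat.pos μ‖

lemma err1_nb {e μ : Nk × Bool} (h : μ ∈ frm.oth e) : μ.1.j ≤ e.1.j + 1 ∧ e.1.j ≤ μ.1.j + 1 := by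
  have a1 := admM_lev μ
  have a2 := admM_lev e
  rw [(mem_oth.1 h).2] at a1
  omega

lemma err1_t {e μ : Nk × Bool} (h : μ ∈ frm.oth e) {m : ℕ} (hm : 28 ≤ m) :
    tt μ.1.j ^ m ≤ tt e.1.j ^ 7 := by
  have h1 : tt μ.1.j ^ m ≤ tt μ.1.j ^ 28 :=
    pow_le_pow_of_le_one (tt_pos _).le (admM_tt_one _) hm
  have h2 : tt (μ.1.j + 1) ≤ tt e.1.j := tt_anti (err1_nb h).2
  have h3 : tt μ.1.j ^ 28 = tt (μ.1.j + 1) ^ 7 := by rw [tt_succ, ← pow_mul]
  rw [h3] at h1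
  exact h1.trans (pow_le_pow_left₀ (tt_pos _).le h2 7)

lemma err1_card (e : Nk × Bool) : ((frm.oth e).card : ℝ) ≤ PP e.1.j := by
  classical
  have h1 : (frm.oth e).card ≤ (frm.sides (frm.lay e)).card :=
    Finset.card_le_card fun μ hμ => mem_sides_iff.2 (mem_oth.1 hμ).2
  have h2 : ((frm.oth e).card : ℝ) ≤ (frm.sides (frm.lay e)).card := by exact_mod_cast h1
  exact h2.trans ((card_sides _).trans (admM_PP_mono (admM_lev e).1))

lemma err1_rho_mono : Monotone rho := monotone_nat_of_le_succ fun j => by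
  have h1 := admM_rho_succ j
  have h2 := rho_pos j
  linarith

lemma err1_rho_tt (j : ℕ) : rho j * tt j ^ 32 = 1 := by
  have := (tt_pos j).ne'
  unfold rho
  field_simp

lemma err1_PP_rho (j : ℕ) : PP j ≤ rho j :=
  (admM_PP_le j).trans (le_self_pow₀ (admM_inv_one j) (by norm_num))

lemma err1_small (j : ℕ) {m : ℕ} (hm : m < 60) {c : ℝ} (hc : c ≤ 1000) :
    c * PP j ^ m * tt j ^ 7 ≤ tt j ^ 6 / 2 := by
  have ht := tt_pos j
  have hP := admM_PP_pos j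
  have h1 := admM_pow_tt j (m := m + 1) (by omega)
  have h2 : (2000 : ℝ) ≤ PP j := le_trans (by norm_num) (PP_ge j)
  have h3 : c * PP j ^ m * tt j ≤ 1 / 2 := by
    have h4 : 0 ≤ PP j ^ m * tt j := by positivity
    have h5 : PP j ^ (m + 1) * tt j = PP j * (PP j ^ m * tt j) := by ring
    rw [h5] at h1
    have h6 : 2000 * (PP j ^ m * tt j) ≤ PP j * (PP j ^ m * tt j) := by gcongr
    have h7 : c * (PP j ^ m * tt j) ≤ 1000 * (PP j ^ m * tt j) := by gcongr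
    rw [mul_assoc]
    linarith
  calc c * PP j ^ m * tt j ^ 7 = c * PP j ^ m * tt j * tt j ^ 6 := by ring
    _ ≤ 1 / 2 * tt j ^ 6 := by gcongr
    _ = _ := by ring

lemma err1_alg (p ra rb β B0 B1 S0 S1 : ℂ) (q : ℝ) (hq : q ≠ 0) :
    p * (conj ra + rb) / (2 * q) - p * (S0 - S1) =
      (p * (conj (ra - 2 * β * conj B1) + (rb + 2 * β * B0)) +
        2 * (conj β * (p * (B1 + S1)) - β * (p * (B0 + S0))) +
        2 * ((β - q) * (p * S0) - (conj β - q) * (p * S1))) / (2 * q) := by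
  have : (q : ℂ) ≠ 0 := by exact_mod_cast hq
  simp only [map_sub, map_mul, conj_conj, map_ofNat]
  field_simp
  ring

namespace InK

variable {x : Prm} (hx : InK x)
include hx

lemma err1_lam (e : Nk × Bool) :
    ∑ μ ∈ frm.oth e, ‖x.dat.bet μ‖ / ‖x.dat.pos e - x.dat.pos μ‖ ≤
      PP e.1.j ^ 3 * tt e.1.j ^ 32 := by
  have hP := admM_PP_pos e.1.j
  have ht := tt_pos e.1.j
  have hn := admM_nn_pos e.1.j
  have hr := rho_pos e.1.j
  have hb : ∀ μ ∈ frm.oth e, ‖x.dat.bet μ‖ / ‖x.dat.pos e - x.dat.pos μ‖ ≤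
      PP e.1.j ^ 2 * tt e.1.j ^ 32 := by
    intro μ hμ
    have h2 := hx.admM_bet_le (err1_nb hμ).1
    have h3 := hx.sep_oth hμ
    have h4 : rho e.1.j / PP e.1.j ≤ rho e.1.j / (4 * nn e.1.j) := by
      gcongr; linarith [admM_nn_le e.1.j]
    have h5 : 0 < rho e.1.j / PP e.1.j := by positivity
    calc _ ≤ PP e.1.j / (rho e.1.j / PP e.1.j) := by
          gcongr
          · linarith [norm_nonneg (x.dat.bet μ)]
          · exact h4.trans h3
      _ = _ := by unfold rho; field_simp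
  calc _ ≤ ∑ _μ ∈ frm.oth e, PP e.1.j ^ 2 * tt e.1.j ^ 32 := Finset.sum_le_sum hb
    _ = (frm.oth e).card * (PP e.1.j ^ 2 * tt e.1.j ^ 32) := by
        rw [Finset.sum_const, nsmul_eq_mul]
    _ ≤ PP e.1.j * (PP e.1.j ^ 2 * tt e.1.j ^ 32) := by gcongr; exact err1_card e
    _ = _ := by ring

lemma err1_SS (e : Nk × Bool) : ‖x.SS e‖ ≤ PP e.1.j ^ 3 * tt e.1.j ^ 32 := by
  refine le_trans (norm_sum_le _ _) (le_trans (le_of_eq ?_) (hx.err1_lam e))
  exact Finset.sum_congr rfl fun μ _ => norm_div _ _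

lemma err1_B (e : Nk × Bool) :
    ‖(frm.spin x.dat).2 e 0 + x.SS e‖ ≤ 2 * tt e.1.j ^ 7 * (PP e.1.j ^ 3 * tt e.1.j ^ 32) := by
  have ht := tt_pos e.1.j
  refine (hx.adm.B0_est e).trans ?_
  calc _ ≤ ∑ μ ∈ frm.oth e,
        2 * tt e.1.j ^ 7 * (‖x.dat.bet μ‖ / ‖x.dat.pos e - x.dat.pos μ‖) := by
        refine Finset.sum_le_sum fun μ hμ => ?_
        rw [mul_div_assoc]
        have := err1_t hμ (m := 30) (by norm_num)
        change 2 * tt μ.1.j ^ 30 * _ ≤ _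
        gcongr
    _ = 2 * tt e.1.j ^ 7 * ∑ μ ∈ frm.oth e, ‖x.dat.bet μ‖ / ‖x.dat.pos e - x.dat.pos μ‖ := by
        rw [Finset.mul_sum]
    _ ≤ _ := by gcongr; exact hx.err1_lam e

lemma err1_pp (ν : Nk) {z : ℂ} {c : ℝ} (hc : 0 ≤ c) (hz : ‖z‖ ≤ c * tt ν.j ^ 32) :
    ‖x.pp ν.j ν.k ν.i * z‖ ≤ 2 * c := by
  have h1 : ‖x.pp ν.j ν.k ν.i‖ ≤ 11 / 10 * rho ν.j := by
    have := hx.pos_le (ν, false)
    rw [Pos_pos] at this
    simpa using this
  have hr := rho_pos ν.j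
  rw [norm_mul]
  calc _ ≤ (11 / 10 * rho ν.j) * (c * tt ν.j ^ 32) := by gcongr
    _ = 11 / 10 * c * (rho ν.j * tt ν.j ^ 32) := by ring
    _ ≤ 2 * c := by rw [err1_rho_tt]; linarith

theorem Ft_near (ν : Nk) :
    ‖x.Ft ν.j ν.k ν.i - x.pp ν.j ν.k ν.i * (x.SS (ν, false) - x.SS (ν, true))‖ ≤ tt ν.j ^ 6 / 2 := by
  have hP := admM_PP_pos ν.j
  have hP1 := admM_PP_one ν.j
  have ht := tt_pos ν.j
  have ht1 := admM_tt_one ν.j
  have hq := hx.bq_ge ν
  have hq0 : 0 < x.bq ν.j ν.k ν.i := lt_of_lt_of_le (by positivity) hq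
  have hF : x.Ft ν.j ν.k ν.i = x.pp ν.j ν.k ν.i *
      (conj (frm.ra x.dat (ν, false)) + frm.rb x.dat (ν, false)) / (2 * x.bq ν.j ν.k ν.i) := by
    unfold Prm.Ft Prm.ext
    rw [dif_pos ⟨ν.h1, ν.h2⟩]
  set β := x.dat.bet (ν, false) with hβ
  have hβP : ‖β‖ ≤ PP ν.j := by
    have := hx.admM_bet_le (e := (ν, false)) (l := ν.j) (Nat.le_succ _)
    linarith [norm_nonneg β]
  have hβq : β - x.bq ν.j ν.k ν.i = x.io ν.j ν.k ν.i * I := by
    rw [hβ, bet_false]; simp [Prm.dat]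
  have hio : ‖β - x.bq ν.j ν.k ν.i‖ ≤ tt ν.j ^ 28 := by
    rw [hβq, norm_mul, norm_I, mul_one, norm_real, Real.norm_eq_abs]; exact hx.io_le _ _ _
  have hio' : ‖conj β - x.bq ν.j ν.k ν.i‖ ≤ tt ν.j ^ 28 := by
    rw [← conj_ofReal (x.bq ν.j ν.k ν.i), ← map_sub, norm_conj]; exact hio
  rw [hF, err1_alg _ _ _ β ((frm.spin x.dat).2 (ν, false) 0) ((frm.spin x.dat).2 (ν, true) 0) _ _ _
    hq0.ne']
  have a1 := hx.adm.ra_est (ν, false)
  have a2 := hx.adm.rb_est (ν, false)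
  rw [opp_false] at a1
  change _ ≤ 16 * ‖β‖ * tt ν.j ^ 60 at a1 a2
  have a3 : ‖conj (frm.ra x.dat (ν, false) - 2 * β * conj ((frm.spin x.dat).2 (ν, true) 0)) +
      (frm.rb x.dat (ν, false) + 2 * β * (frm.spin x.dat).2 (ν, false) 0)‖ ≤
      (32 * PP ν.j * tt ν.j ^ 28) * tt ν.j ^ 32 := by
    refine (norm_add_le _ _).trans ?_
    rw [norm_conj]
    have : 16 * ‖β‖ * tt ν.j ^ 60 ≤ 16 * PP ν.j * tt ν.j ^ 60 := by gcongr
    have e : (32 * PP ν.j * tt ν.j ^ 28) * tt ν.j ^ 32 = 2 * (16 * PP ν.j * tt ν.j ^ 60) := by ring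
    linarith
  have b1 := hx.err1_pp ν (by positivity) a3
  have hB : ∀ s, ‖x.pp ν.j ν.k ν.i * ((frm.spin x.dat).2 (ν, s) 0 + x.SS (ν, s))‖ ≤
      2 * (2 * tt ν.j ^ 7 * PP ν.j ^ 3) := fun s =>
    hx.err1_pp ν (by positivity) ((hx.err1_B (ν, s)).trans (le_of_eq (by ring)))
  have hS : ∀ s, ‖x.pp ν.j ν.k ν.i * x.SS (ν, s)‖ ≤ 2 * PP ν.j ^ 3 := fun s =>
    hx.err1_pp ν (by positivity) (hx.err1_SS (ν, s))
  have b2 : ‖conj β * (x.pp ν.j ν.k ν.i * ((frm.spin x.dat).2 (ν, true) 0 + x.SS (ν, true))) -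
      β * (x.pp ν.j ν.k ν.i * ((frm.spin x.dat).2 (ν, false) 0 + x.SS (ν, false)))‖ ≤
      2 * (PP ν.j * (2 * (2 * tt ν.j ^ 7 * PP ν.j ^ 3))) := by
    refine (norm_sub_le _ _).trans ?_
    rw [norm_mul (conj β), norm_mul β, norm_conj, two_mul (PP ν.j * _)]
    have := hB true
    have := hB false
    gcongr
  have b3 : ‖(β - x.bq ν.j ν.k ν.i) * (x.pp ν.j ν.k ν.i * x.SS (ν, false)) -
      (conj β - x.bq ν.j ν.k ν.i) * (x.pp ν.j ν.k ν.i * x.SS (ν, true))‖ ≤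
      2 * (tt ν.j ^ 28 * (2 * PP ν.j ^ 3)) := by
    refine (norm_sub_le _ _).trans ?_
    rw [norm_mul (conj β - _), norm_mul (β - _), two_mul (tt ν.j ^ 28 * _)]
    have := hS true
    have := hS false
    gcongr
  have h28 : tt ν.j ^ 28 ≤ tt ν.j ^ 7 := pow_le_pow_of_le_one ht.le ht1 (by norm_num)
  have hp1 : PP ν.j ≤ PP ν.j ^ 4 := le_self_pow₀ hP1 (by norm_num)
  have hp3 : PP ν.j ^ 3 ≤ PP ν.j ^ 4 := pow_le_pow_right₀ hP1 (by norm_num)
  have c1 : PP ν.j * tt ν.j ^ 28 ≤ PP ν.j ^ 4 * tt ν.j ^ 7 := by gcongr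
  have c3 : PP ν.j ^ 3 * tt ν.j ^ 28 ≤ PP ν.j ^ 4 * tt ν.j ^ 7 := by gcongr
  have hn2 : ‖(2 : ℂ) * (x.bq ν.j ν.k ν.i : ℝ)‖ = 2 * x.bq ν.j ν.k ν.i := by
    rw [norm_mul, norm_real, Real.norm_eq_abs, abs_of_pos hq0]; simp
  rw [norm_div, hn2]
  refine le_trans ?_ (err1_small ν.j (m := 6) (by norm_num) (c := 44) (by norm_num))
  rw [div_le_iff₀ (by positivity)]
  have d1 : 88 * PP ν.j ^ 4 * tt ν.j ^ 7 ≤ 44 * PP ν.j ^ 6 * tt ν.j ^ 7 * (2 * x.bq ν.j ν.k ν.i) := by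
    calc _ = 44 * PP ν.j ^ 6 * tt ν.j ^ 7 * (2 * (PP ν.j)⁻¹ ^ 2) := by field_simp; norm_num
      _ ≤ _ := by gcongr
  refine le_trans ?_ d1
  refine (norm_add_le _ _).trans ?_
  refine (add_le_add (norm_add_le _ _) le_rfl).trans ?_
  rw [norm_mul (2 : ℂ), norm_mul (2 : ℂ), Complex.norm_ofNat]
  nlinarith

lemma err1_log {e μ : Nk × Bool} (h : μ ∈ frm.oth e) :
    |Real.log ‖x.dat.pos e - x.dat.pos μ‖| ≤ PP e.1.j := by
  have h3 := hx.sep_oth h
  have hn := admM_nn_pos e.1.j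
  have h1 : 1 ≤ rho e.1.j / (4 * nn e.1.j) := by
    rw [le_div_iff₀ (by positivity)]
    linarith [admM_nn_le e.1.j, err1_PP_rho e.1.j]
  rw [abs_of_nonneg (Real.log_nonneg (h1.trans h3))]
  have h4 := hx.pos_le e
  have h5 := hx.pos_le μ
  have h6 : rho e.1.j ≤ rho (e.1.j + 1) := err1_rho_mono (Nat.le_succ _)
  have h7 : rho μ.1.j ≤ rho (e.1.j + 1) := err1_rho_mono (err1_nb h).1
  have h8 := admM_rho_ge (e.1.j + 1)
  have h9 : ‖x.dat.pos e - x.dat.pos μ‖ ≤ rho (e.1.j + 1) ^ 2 := by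
    have := norm_sub_le (x.dat.pos e) (x.dat.pos μ)
    nlinarith
  have h10 := Real.log_le_log (by linarith) h9
  rw [Real.log_pow] at h10
  have h11 := ell_le_PP e.1.j
  have h12 : 0 ≤ ell (e.1.j + 1) := Real.log_nonneg (by linarith)
  change _ ≤ ((2 : ℕ) : ℝ) * ell (e.1.j + 1) at h10
  push_cast at h10
  linarith

lemma err1_LL (e : Nk × Bool) :
    |∑ μ ∈ frm.oth e, (frm.rab x.dat μ).re * Real.log ‖x.dat.pos e - x.dat.pos μ‖ - x.LL e| ≤
      PP e.1.j ^ 2 * tt e.1.j ^ 7 := by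
  have hP := admM_PP_pos e.1.j
  have ht := tt_pos e.1.j
  rw [Prm.LL, ← Finset.sum_sub_distrib]
  refine (Finset.abs_sum_le_sum_abs _ _).trans ?_
  calc _ ≤ ∑ _μ ∈ frm.oth e, tt e.1.j ^ 7 * PP e.1.j := by
        refine Finset.sum_le_sum fun μ hμ => ?_
        rw [← sub_mul, abs_mul]
        have h1 := (hx.rab_re μ).trans (err1_t hμ (m := 29) (by norm_num))
        have h2 : |(frm.rab x.dat μ).re - (if μ.2 then 1 else -1) * x.bq μ.1.j μ.1.k μ.1.i| ≤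
            tt e.1.j ^ 7 := by
          refine le_trans (le_of_eq ?_) h1
          split_ifs
          · simp
          · rw [← abs_neg]; congr 1; ring
        have h3 := hx.err1_log hμ
        gcongr
    _ = (frm.oth e).card * (tt e.1.j ^ 7 * PP e.1.j) := by
        rw [Finset.sum_const, nsmul_eq_mul]
    _ ≤ PP e.1.j * (tt e.1.j ^ 7 * PP e.1.j) := by gcongr; exact err1_card e
    _ = _ := by ring

theorem Dt_near (ν : Nk) :
    |x.Dt ν.j ν.k ν.i - (-2 * x.bq ν.j ν.k ν.i * Real.log (x.bq ν.j ν.k ν.i) +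
      x.LL (ν, false) - x.LL (ν, true))| ≤ tt ν.j ^ 6 / 2 := by
  have hP := admM_PP_pos ν.j
  have hP1 := admM_PP_one ν.j
  have ht := tt_pos ν.j
  have ht1 := admM_tt_one ν.j
  have hq := hx.bq_ge ν
  have hq0 : 0 < x.bq ν.j ν.k ν.i := lt_of_lt_of_le (by positivity) hq
  have hD : x.Dt ν.j ν.k ν.i = frm.J3 x.dat (ν, false) - frm.J3 x.dat (ν, true) := by
    unfold Prm.Dt Prm.ext
    rw [dif_pos ⟨ν.h1, ν.h2⟩]
  have j0 := hx.adm.J3_est (ν, false)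
  have j1 := hx.adm.J3_est (ν, true)
  change _ ≤ tt ν.j ^ 13 at j0 j1
  have l0 := hx.err1_LL (ν, false)
  have l1 := hx.err1_LL (ν, true)
  have r0 := hx.rab_re (ν, false)
  have r1 := hx.rab_re (ν, true)
  simp only [Bool.false_eq_true, if_false, if_true, neg_mul, one_mul] at r0 r1
  have hb : ‖x.dat.bet (ν, true)‖ = ‖x.dat.bet (ν, false)‖ := norm_bet_opp (ν, false)
  rw [hb] at j1
  set b := ‖x.dat.bet (ν, false)‖ with hbdef
  have hb1 : tt ν.j ≤ b := hx.adm.b_ge (ν, false)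
  have hb2 : b ≤ (tt ν.j)⁻¹ := hx.adm.bet_le (ν, false)
  have hlog : |Real.log b| ≤ (tt ν.j)⁻¹ := by
    have h1 := Real.log_le_log ht hb1
    have h2 := Real.log_le_log (ht.trans_le hb1) hb2
    have h3 := Real.log_le_sub_one_of_pos (inv_pos.2 ht)
    rw [Real.log_inv] at h2 h3
    rw [abs_le]
    constructor <;> linarith
  have hnear := hx.bet_near (ν, false)
  change |b - x.bq ν.j ν.k ν.i| ≤ tt ν.j ^ 28 at hnear
  have hge : x.bq ν.j ν.k ν.i ≤ b := by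
    rw [hbdef, Pos_bet]
    refine le_trans (le_of_eq ?_) (re_le_norm _)
    simp
  have hm := mat_log (ρ := b) hq0 (by linarith) hnear
  have m1 : |x.bq ν.j ν.k ν.i * (Real.log b - Real.log (x.bq ν.j ν.k ν.i))| ≤ 2 * tt ν.j ^ 28 := by
    rw [abs_mul, abs_of_pos hq0]
    calc _ ≤ x.bq ν.j ν.k ν.i * (2 * tt ν.j ^ 28 / x.bq ν.j ν.k ν.i) := by gcongr
      _ = _ := by field_simp
  have e29 : tt ν.j ^ 29 * (tt ν.j)⁻¹ = tt ν.j ^ 28 := by field_simp
  have m2 : |(-(frm.rab x.dat (ν, false)).re - x.bq ν.j ν.k ν.i) * Real.log b| ≤ tt ν.j ^ 28 := by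
    rw [abs_mul, ← e29]; gcongr
  have m3 : |((frm.rab x.dat (ν, true)).re - x.bq ν.j ν.k ν.i) * Real.log b| ≤ tt ν.j ^ 28 := by
    rw [abs_mul, ← e29]; gcongr
  have h28 : tt ν.j ^ 28 ≤ tt ν.j ^ 7 := pow_le_pow_of_le_one ht.le ht1 (by norm_num)
  have h13 : tt ν.j ^ 13 ≤ tt ν.j ^ 7 := pow_le_pow_of_le_one ht.le ht1 (by norm_num)
  have h7 : tt ν.j ^ 7 ≤ PP ν.j ^ 2 * tt ν.j ^ 7 :=
    le_mul_of_one_le_left (by positivity) (one_le_pow₀ hP1)
  have hs := err1_small ν.j (m := 2) (by norm_num) (c := 10) (by norm_num)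
  rw [hD]
  rw [abs_le] at j0 j1 l0 l1 m1 m2 m3 ⊢
  simp only at l0 l1
  constructor <;> linarith [j0.1, j0.2, j1.1, j1.2, l0.1, l0.2, l1.1, l1.2, m1.1, m1.2, m2.1, m2.2,
    m3.1, m3.2]

end InK

end Pool.Agent.MP_943ae2_gt

end
end

section

open Set Complex Filter Finset
open scoped Topology ComplexConjugate ContDiff

noncomputable section

namespace Pool.Agent.MP_943ae2_gt

lemma err2_term {p D D0 b b0 : ℂ} {P1 r δ η B : ℝ} (hr : 0 < r) (hp : ‖p‖ ≤ P1) (hD : r ≤ ‖D‖)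
    (hD0 : r ≤ ‖D0‖) (hδ : ‖D - D0‖ ≤ δ) (hη : ‖b - b0‖ ≤ η) (hB : ‖b0‖ ≤ B) :
    ‖p * (b / D) - b0 * (p / D0)‖ ≤ P1 * (η / r + B * δ / r ^ 2) := by
  have h1 : D ≠ 0 := norm_pos_iff.1 (hr.trans_le hD)
  have h2 : D0 ≠ 0 := norm_pos_iff.1 (hr.trans_le hD0)
  have e : p * (b / D) - b0 * (p / D0) = p * ((b - b0) / D - b0 * (D - D0) / (D * D0)) := by
    field_simp; ring
  have hP : 0 ≤ P1 := (norm_nonneg _).trans hp
  have hη0 : 0 ≤ η := (norm_nonneg _).trans hη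
  have hδ0 : 0 ≤ δ := (norm_nonneg _).trans hδ
  have hB0 : 0 ≤ B := (norm_nonneg _).trans hB
  rw [e, norm_mul]
  refine mul_le_mul hp ((norm_sub_le _ _).trans (add_le_add ?_ ?_)) (norm_nonneg _) hP
  · rw [norm_div]; gcongr
  · rw [norm_div, norm_mul, norm_mul, sq]; gcongr

lemma err2_ring {f : Nk × Bool → ℂ} {s : Bool} {j a : ℕ} (F : ZMod (nn j) → ℂ)
    (h1 : ∀ ha hb i, f (⟨j, a, i, ha, hb⟩, s) = F i) (h2 : (a = 0 ∨ NN j ≤ a) → ∀ i, F i = 0) :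
    ringSum f s j a = ∑ i, F i := by
  unfold ringSum
  split_ifs with h
  · exact Finset.sum_congr rfl fun i _ => h1 _ _ i
  · exact (Finset.sum_eq_zero fun i _ => h2 (by omega) i).symm

/-- the signed size of a side -/
def Prm.err2_b (x : Prm) (μ : Nk × Bool) : ℂ :=
  if μ.2 then -(x.bq μ.1.j μ.1.k μ.1.i : ℂ) else x.bq μ.1.j μ.1.k μ.1.i

/-- the model of the contribution of a side seen from the point `p` of wall `j` -/
def Prm.err2_m (x : Prm) (j : ℕ) (p : ℂ) (μ : Nk × Bool) : ℂ :=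
  if μ.1.j = j then x.err2_b μ * kap (x.pp μ.1.j μ.1.k μ.1.i / p)
  else if μ.1.j + 1 = j then x.err2_b μ else 0

lemma err2_rho (j : ℕ) : rho j = (tt (j + 1))⁻¹ ^ 8 := by
  rw [tt_succ, ← inv_pow, ← pow_mul]; rfl

lemma err2_card (e : Nk × Bool) : ((frm.oth e).card : ℝ) ≤ PP e.1.j := by
  have h1 : (frm.oth e).card ≤ (frm.sides (frm.lay e)).card :=
    Finset.card_le_card fun μ hμ => mem_sides_iff.2 (mem_oth.1 hμ).2
  have h2 : ((frm.oth e).card : ℝ) ≤ (frm.sides (frm.lay e)).card := by exact_mod_cast h1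
  exact h2.trans ((card_sides _).trans (admM_PP_mono (admM_lev e).1))

namespace InK

variable {x : Prm} (hx : InK x)
include hx

lemma err2_bet (μ : Nk × Bool) : ‖x.dat.bet μ - x.err2_b μ‖ ≤ tt μ.1.j ^ 28 := by
  have h := hx.io_le μ.1.j μ.1.k μ.1.i
  have e : x.dat.bet μ - x.err2_b μ = (x.io μ.1.j μ.1.k μ.1.i : ℂ) * I := by
    unfold Dat.bet Prm.err2_b Prm.dat
    split_ifs
    · simp only [map_add, map_mul, conj_ofReal, conj_I]; ring
    · ring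
  rw [e, norm_mul, norm_I, mul_one, norm_real, Real.norm_eq_abs]
  exact h

lemma err2_de (e : Nk × Bool) :
    ‖x.dat.pos e - x.pp e.1.j e.1.k e.1.i‖ ≤ (tt e.1.j)⁻¹ ^ 8 := by
  have h := hx.de_le e.1.j e.1.k e.1.i
  have h1 : (tt e.1.j)⁻¹ ^ 3 ≤ (tt e.1.j)⁻¹ ^ 8 := pow_le_pow_right₀ (admM_inv_one _) (by norm_num)
  rw [Pos_pos, add_sub_cancel_left]
  split_ifs
  · exact h.trans h1
  · rw [norm_zero]; have := tt_pos e.1.j; positivity

lemma err2_pp (ν : Nk) (hj : 1 ≤ ν.j) :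
    9 / 10 * rho ν.j ≤ ‖x.pp ν.j ν.k ν.i‖ ∧ ‖x.pp ν.j ν.k ν.i‖ ≤ 11 / 10 * rho ν.j := by
  have h1 := hx.pos_ge (ν, false) hj
  have h2 := hx.pos_le (ν, false)
  rw [Pos_pos] at h1 h2
  simpa using And.intro h1 h2

lemma err2_near {e μ : Nk × Bool} (hj : 1 ≤ e.1.j) (h : μ ∈ frm.oth e) {q : ℂ}
    (hμ : μ.1.j ≤ e.1.j) (hη : tt μ.1.j ^ 28 ≤ tt e.1.j ^ 7)
    (hq : ‖x.dat.pos μ - q‖ ≤ 2 * (tt e.1.j)⁻¹ ^ 8) :
    ‖x.pp e.1.j e.1.k e.1.i * (x.dat.bet μ / (x.dat.pos e - x.dat.pos μ)) -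
      x.err2_b μ * (x.pp e.1.j e.1.k e.1.i / (x.pp e.1.j e.1.k e.1.i - q))‖ ≤
      5 * PP e.1.j ^ 3 * tt e.1.j ^ 7 := by
  have hP := admM_PP_one e.1.j
  have ht := tt_pos e.1.j
  have ht1 := admM_tt_one e.1.j
  have hn := admM_nn_pos e.1.j
  have hr := rho_pos e.1.j
  have hnP := admM_nn_le e.1.j
  have hs := hx.sep_oth h
  have hde := hx.err2_de e
  have hb := (hx.err2_bet μ).trans hη
  have hb1 := hx.admM_bet_le (e := μ) (l := e.1.j) (by omega)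
  have h7 : tt e.1.j ^ 7 ≤ 1 := pow_le_one₀ ht.le ht1
  have hP2 : (2 : ℝ) ≤ PP e.1.j := le_trans (by norm_num) (PP_ge _)
  have hB : ‖x.err2_b μ‖ ≤ PP e.1.j := by
    have := norm_sub_norm_le (x.err2_b μ) (x.dat.bet μ)
    rw [norm_sub_rev] at this
    linarith
  have hδ : ‖x.dat.pos e - x.dat.pos μ - (x.pp e.1.j e.1.k e.1.i - q)‖ ≤ 3 * (tt e.1.j)⁻¹ ^ 8 := by
    have e1 : x.dat.pos e - x.dat.pos μ - (x.pp e.1.j e.1.k e.1.i - q) =
        (x.dat.pos e - x.pp e.1.j e.1.k e.1.i) - (x.dat.pos μ - q) := by ring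
    rw [e1]
    exact (norm_sub_le _ _).trans (by linarith)
  have h4 : 4 * (rho e.1.j / PP e.1.j) ≤ rho e.1.j / (4 * nn e.1.j) := by
    rw [← mul_div_assoc, div_le_div_iff₀ (by linarith) (by positivity)]
    nlinarith
  have h5 : (tt e.1.j)⁻¹ ^ 8 ≤ rho e.1.j / PP e.1.j := by
    rw [le_div_iff₀ (by linarith)]
    calc _ ≤ (tt e.1.j)⁻¹ ^ 8 * (tt e.1.j)⁻¹ := by gcongr; exact admM_PP_le _
      _ = (tt e.1.j)⁻¹ ^ 9 := by ring
      _ ≤ _ := pow_le_pow_right₀ (admM_inv_one _) (by norm_num)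
  have h6 : 0 < rho e.1.j / PP e.1.j := by positivity
  have hD0 : rho e.1.j / PP e.1.j ≤ ‖x.pp e.1.j e.1.k e.1.i - q‖ := by
    have := norm_sub_norm_le (x.dat.pos e - x.dat.pos μ) (x.pp e.1.j e.1.k e.1.i - q)
    linarith
  refine (err2_term h6 (hx.err2_pp e.1 hj).2 (by linarith) hD0 hδ hb hB).trans ?_
  have e2 : 11 / 10 * rho e.1.j * (tt e.1.j ^ 7 / (rho e.1.j / PP e.1.j) +
      PP e.1.j * (3 * (tt e.1.j)⁻¹ ^ 8) / (rho e.1.j / PP e.1.j) ^ 2) =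
      11 / 10 * PP e.1.j * tt e.1.j ^ 7 + 33 / 10 * PP e.1.j ^ 3 * tt e.1.j ^ 24 := by
    unfold rho; field_simp; ring
  rw [e2]
  have h8 : tt e.1.j ^ 24 ≤ tt e.1.j ^ 7 := pow_le_pow_of_le_one ht.le ht1 (by norm_num)
  have h9 : PP e.1.j ≤ PP e.1.j ^ 3 := le_self_pow₀ hP (by norm_num)
  have h10 : PP e.1.j * tt e.1.j ^ 7 ≤ PP e.1.j ^ 3 * tt e.1.j ^ 7 := by gcongr
  have h11 : PP e.1.j ^ 3 * tt e.1.j ^ 24 ≤ PP e.1.j ^ 3 * tt e.1.j ^ 7 := by gcongr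
  have h12 : 0 ≤ PP e.1.j ^ 3 * tt e.1.j ^ 7 := by positivity
  linarith

lemma err2_far {e μ : Nk × Bool} (hj : 1 ≤ e.1.j) (hμ : μ.1.j = e.1.j + 1) :
    ‖x.pp e.1.j e.1.k e.1.i * (x.dat.bet μ / (x.dat.pos e - x.dat.pos μ))‖ ≤
      5 * PP e.1.j ^ 3 * tt e.1.j ^ 7 := by
  have hP := admM_PP_one e.1.j
  have ht := tt_pos e.1.j
  have ht1 := admM_tt_one e.1.j
  have hr := admM_rho_ge e.1.j
  have h1 := hx.pos_ge μ (by omega)
  have h2 := hx.pos_le e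
  rw [hμ, rho_succ] at h1
  have h3 := norm_sub_norm_le (x.dat.pos μ) (x.dat.pos e)
  rw [norm_sub_rev] at h3
  have h4 : rho e.1.j ^ 2 ≤ ‖x.dat.pos e - x.dat.pos μ‖ := by
    have a1 : 1000 * rho e.1.j ≤ rho e.1.j ^ 2 := by nlinarith
    have a2 : 1000 * rho e.1.j ^ 2 ≤ rho e.1.j ^ 4 := by nlinarith
    nlinarith
  have hb1 := hx.admM_bet_le (e := μ) (l := e.1.j) hμ.le
  have hb : ‖x.dat.bet μ‖ ≤ PP e.1.j := by linarith [norm_nonneg (x.dat.bet μ)]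
  have hp := (hx.err2_pp e.1 hj).2
  have h8 : tt e.1.j ^ 32 ≤ tt e.1.j ^ 7 := pow_le_pow_of_le_one ht.le ht1 (by norm_num)
  have h9 : PP e.1.j ≤ PP e.1.j ^ 3 := le_self_pow₀ hP (by norm_num)
  rw [norm_mul, norm_div]
  calc _ ≤ 11 / 10 * rho e.1.j * (PP e.1.j / rho e.1.j ^ 2) := by gcongr
    _ = 11 / 10 * PP e.1.j * tt e.1.j ^ 32 := by unfold rho; field_simp
    _ ≤ 5 * PP e.1.j ^ 3 * tt e.1.j ^ 7 := by gcongr; norm_num

lemma err2_each {e μ : Nk × Bool} (hj : 1 ≤ e.1.j) (h : μ ∈ frm.oth e) :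
    ‖x.pp e.1.j e.1.k e.1.i * (x.dat.bet μ / (x.dat.pos e - x.dat.pos μ)) -
      x.err2_m e.1.j (x.pp e.1.j e.1.k e.1.i) μ‖ ≤ 5 * PP e.1.j ^ 3 * tt e.1.j ^ 7 := by
  have hm : μ ∈ frm.sides (frm.lay e) := mem_sides_iff.2 (mem_oth.1 h).2
  rw [lay_eq, mem_sides_wall (admM_loc e).1 (admM_loc e).2] at hm
  have ht := tt_pos e.1.j
  have hp : x.pp e.1.j e.1.k e.1.i ≠ 0 := by
    have := (hx.err2_pp e.1 hj).1
    have h2 := rho_pos e.1.j
    exact norm_pos_iff.1 (by linarith)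
  unfold Prm.err2_m
  rcases hm with ⟨h1, -⟩ | ⟨-, h1, -⟩ | ⟨-, h1, -⟩
  · rw [if_pos h1]
    have e1 : kap (x.pp μ.1.j μ.1.k μ.1.i / x.pp e.1.j e.1.k e.1.i) =
        x.pp e.1.j e.1.k e.1.i / (x.pp e.1.j e.1.k e.1.i - x.pp μ.1.j μ.1.k μ.1.i) := by
      unfold kap
      rw [one_sub_div hp, one_div_div]
    rw [e1]
    refine hx.err2_near hj h h1.le ?_ ?_
    · rw [h1]; exact pow_le_pow_of_le_one ht.le (admM_tt_one _) (by norm_num)
    · have a1 := hx.err2_de μ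
      have a2 : 0 ≤ (tt e.1.j)⁻¹ ^ 8 := by positivity
      have a3 : (tt μ.1.j)⁻¹ ^ 8 = (tt e.1.j)⁻¹ ^ 8 := by rw [h1]
      linarith
  · rw [if_neg (by omega), if_pos h1]
    have := hx.err2_near hj h (q := 0) (by omega) (by rw [← h1, tt_succ, ← pow_mul]) (by
      have a1 := hx.pos_le μ
      rw [err2_rho, h1] at a1
      have a2 : 0 ≤ (tt e.1.j)⁻¹ ^ 8 := by positivity
      rw [sub_zero]; linarith)
    rwa [sub_zero, div_self hp, mul_one] at this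
  · rw [if_neg (by omega), if_neg (by omega), sub_zero]
    exact hx.err2_far hj h1

lemma err2_sum (e : Nk × Bool) (hj : 1 ≤ e.1.j) :
    ‖x.pp e.1.j e.1.k e.1.i * x.SS e -
      ∑ μ ∈ frm.oth e, x.err2_m e.1.j (x.pp e.1.j e.1.k e.1.i) μ‖ ≤ tt e.1.j ^ 6 / 4 := by
  have hP : (20 : ℝ) ≤ PP e.1.j := le_trans (by norm_num) (PP_ge _)
  have ht := tt_pos e.1.j
  have hc := err2_card e
  have h5 := admM_pow_tt e.1.j (m := 5) (by norm_num)
  unfold Prm.SS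
  rw [Finset.mul_sum, ← Finset.sum_sub_distrib]
  calc _ ≤ ∑ μ ∈ frm.oth e, 5 * PP e.1.j ^ 3 * tt e.1.j ^ 7 :=
        norm_sum_le_of_le _ fun μ hμ => hx.err2_each hj hμ
    _ = (frm.oth e).card * (5 * PP e.1.j ^ 3 * tt e.1.j ^ 7) := by rw [Finset.sum_const, nsmul_eq_mul]
    _ ≤ PP e.1.j * (5 * PP e.1.j ^ 3 * tt e.1.j ^ 7) := by gcongr
    _ = 20 * (PP e.1.j ^ 4 * tt e.1.j) * (tt e.1.j ^ 6 / 4) := by ring
    _ ≤ PP e.1.j * (PP e.1.j ^ 4 * tt e.1.j) * (tt e.1.j ^ 6 / 4) := by gcongr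
    _ = (PP e.1.j ^ 5 * tt e.1.j) * (tt e.1.j ^ 6 / 4) := by ring
    _ ≤ 1 * (tt e.1.j ^ 6 / 4) := by gcongr
    _ = _ := one_mul _

lemma err2_same (j a : ℕ) (p : ℂ) (s : Bool) : ringSum (x.err2_m j p) s j a =
    (if s then -1 else 1) * ∑ i, (x.bq j a i : ℂ) * kap (x.pp j a i / p) := by
  rw [Finset.mul_sum]
  refine err2_ring _ (fun ha hb i => ?_) (fun h i => by rw [hx.bq_out h]; simp)
  unfold Prm.err2_m Prm.err2_b
  cases s <;> simp

lemma err2_inner {j j' : ℕ} (h : j' + 1 = j) (a : ℕ) (p : ℂ) (s : Bool) :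
    ringSum (x.err2_m j p) s j' a = (if s then -1 else 1) * (x.w j' a : ℂ) := by
  rw [← hx.sum_bq, ofReal_sum, Finset.mul_sum]
  refine err2_ring _ (fun ha hb i => ?_) (fun h i => by rw [hx.bq_out h]; simp)
  unfold Prm.err2_m Prm.err2_b
  have h2 : ¬j' = j := by omega
  cases s <;> simp [h, h2]

omit hx in
lemma err2_outer (j a : ℕ) (p : ℂ) (s : Bool) : ringSum (x.err2_m j p) s (j + 1) a = 0 := by
  rw [err2_ring (fun _ => 0) (fun ha hb i => ?_) (fun _ _ => rfl), Finset.sum_const_zero]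
  unfold Prm.err2_m
  rw [if_neg (by dsimp only; omega), if_neg (by dsimp only; omega)]

lemma err2_oth {j : ℕ} (hj : 1 ≤ j) (a : ℕ) (p : ℂ) : othSum (x.err2_m j p) j a =
    (x.w (j - 1) (Lb (j - 1) + a) : ℂ) - x.w (j - 1) (Lb (j - 1) + a - 1) := by
  have h1 : j - 1 + 1 = j := by omega
  unfold othSum wallSum
  split_ifs with h h0
  · omega
  · rw [hx.err2_inner h1, hx.err2_inner h1]; simp; ring
  · have h2 := Lb_succ (j - 1)
    rw [h1] at h2
    have h3 : NN (j - 1) = Lb (j - 1) + Mt (j - 1) := rfl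
    rw [err2_outer, err2_outer, x.w_out (by omega), x.w_out (by omega)]; simp

theorem SS_near (ν : Nk) (hj : 1 ≤ ν.j) :
    ‖x.pp ν.j ν.k ν.i * (x.SS (ν, false) - x.SS (ν, true)) -
      (x.wall ν.j).Fw (nn ν.j) (x.ξ ν.j) (x.ε ν.j) ν.k ν.i‖ ≤ tt ν.j ^ 6 / 2 := by
  have h0 := hx.err2_sum (ν, false) hj
  have h1 := hx.err2_sum (ν, true) hj
  dsimp only at h0 h1
  have hpp : ∀ k i, (x.wall ν.j).p (nn ν.j) (x.ξ ν.j) k i = x.pp ν.j k i := fun k i => by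
    unfold Prm.pp; rw [if_neg (by omega)]
  have hF : (x.wall ν.j).Fw (nn ν.j) (x.ξ ν.j) (x.ε ν.j) ν.k ν.i =
      ∑ μ ∈ frm.oth (ν, false), x.err2_m ν.j (x.pp ν.j ν.k ν.i) μ -
        ∑ μ ∈ frm.oth (ν, true), x.err2_m ν.j (x.pp ν.j ν.k ν.i) μ := by
    rw [sum_oth_false, sum_oth_true, hx.err2_same, hx.err2_same, hx.err2_oth hj, hx.err2_oth hj]
    have hg : (x.wall ν.j).g ν.k = -x.D2 (ν.j - 1) (Lb (ν.j - 1) + ν.k) := by
      unfold Prm.wall; dsimp only; rw [if_neg (by omega)]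
    have e1 : ∀ i, x.err2_m ν.j (x.pp ν.j ν.k ν.i) (⟨ν.j, ν.k, i, ν.h1, ν.h2⟩, false) =
        (x.bq ν.j ν.k i : ℂ) * kap (x.pp ν.j ν.k i / x.pp ν.j ν.k ν.i) := fun i => by
      unfold Prm.err2_m Prm.err2_b; simp
    have e2 : ∀ i, x.err2_m ν.j (x.pp ν.j ν.k ν.i) (⟨ν.j, ν.k, i, ν.h1, ν.h2⟩, true) =
        -((x.bq ν.j ν.k i : ℂ) * kap (x.pp ν.j ν.k i / x.pp ν.j ν.k ν.i)) := fun i => by
      unfold Prm.err2_m Prm.err2_b; simp
    have e3 : Lb (ν.j - 1) + (ν.k + 1) - 1 = Lb (ν.j - 1) + ν.k := by omega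
    simp only [e1, e2, e3, Finset.sum_neg_distrib]
    unfold Wall.Fw
    simp only [hpp, hg, Prm.D2, ← add_assoc]
    unfold Prm.bq
    push_cast
    ring
  rw [hF]
  have e : x.pp ν.j ν.k ν.i * (x.SS (ν, false) - x.SS (ν, true)) -
      (∑ μ ∈ frm.oth (ν, false), x.err2_m ν.j (x.pp ν.j ν.k ν.i) μ -
        ∑ μ ∈ frm.oth (ν, true), x.err2_m ν.j (x.pp ν.j ν.k ν.i) μ) =
      (x.pp ν.j ν.k ν.i * x.SS (ν, false) -
        ∑ μ ∈ frm.oth (ν, false), x.err2_m ν.j (x.pp ν.j ν.k ν.i) μ) -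
      (x.pp ν.j ν.k ν.i * x.SS (ν, true) -
        ∑ μ ∈ frm.oth (ν, true), x.err2_m ν.j (x.pp ν.j ν.k ν.i) μ) := by ring
  rw [e]
  exact (norm_sub_le _ _).trans (by linarith)

theorem Ft_err {j k : ℕ} (hj : 1 ≤ j) (h1 : 1 ≤ k) (h2 : k < NN j) (i : ZMod (nn j)) :
    ‖x.Ft j k i - (x.wall j).Fw (nn j) (x.ξ j) (x.ε j) k i‖ ≤ tt j ^ 6 := by
  have a1 := hx.Ft_near ⟨j, k, i, h1, h2⟩
  have a2 := hx.SS_near ⟨j, k, i, h1, h2⟩ hj
  dsimp only at a1 a2
  exact (norm_sub_le_norm_sub_add_norm_sub _ _ _).trans ((add_le_add a1 a2).trans (by linarith))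

theorem err_le {j k : ℕ} (hj : 1 ≤ j) (h1 : 1 ≤ k) (h2 : k < NN j) : |x.err j k| ≤ tt j ^ 2 := by
  have ht := tt_pos j
  have ht1 := tt_le j
  have hP : (2 : ℝ) ≤ PP j := le_trans (by norm_num) (PP_ge _)
  have hn := admM_nn_pos j
  have hr : tt j ^ 3 ≤ (PP j ^ 2)⁻¹ ^ 4 := by
    have a1 := admM_pow_tt j (m := 8) (by norm_num)
    have a2 : tt j ^ 3 ≤ tt j := pow_le_of_le_one ht.le (admM_tt_one j) (by norm_num)
    rw [inv_pow, ← pow_mul, inv_eq_one_div, le_div_iff₀ (by positivity)]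
    calc tt j ^ 3 * PP j ^ (2 * 4) ≤ tt j * PP j ^ 8 := by gcongr
      _ ≤ 1 := by rwa [mul_comm]
  have hb : ∀ i, |(x.wall j).Em (nn j) k - (x.Ft j k i).re| ≤ tt j ^ 2 := fun i => by
    have a1 := hx.Ft_err hj h1 h2 i
    have a2 := Fw_lip (hx.wall_bd hj) hr (hx.ξ_le j) (hx.ε_le j) (hx.ε_out j) h1 h2 i
    have a3 := (norm_sub_le_norm_sub_add_norm_sub _ _ _).trans (add_le_add a1 a2)
    have a4 := (abs_re_le_norm _).trans a3
    rw [sub_re, ofReal_re, abs_sub_comm] at a4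
    refine a4.trans ?_
    have a5 := admM_pow_tt j (m := 13) (by norm_num)
    have a6 : 2 * (PP j ^ 12 * tt j) ≤ 1 := by
      calc 2 * (PP j ^ 12 * tt j) ≤ PP j * (PP j ^ 12 * tt j) := by gcongr
        _ = PP j ^ 13 * tt j := by ring
        _ ≤ 1 := a5
    have a7 : tt j ^ 4 ≤ 1 / 2 := (pow_le_of_le_one ht.le (admM_tt_one j) (by norm_num)).trans
      (by linarith)
    calc tt j ^ 6 + (PP j ^ 2) ^ 6 * tt j ^ 3 = (tt j ^ 4 + PP j ^ 12 * tt j) * tt j ^ 2 := by ring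
      _ ≤ 1 * tt j ^ 2 := by gcongr; linarith
      _ = _ := one_mul _
  have e : x.err j k = (∑ i : ZMod (nn j), ((x.wall j).Em (nn j) k - (x.Ft j k i).re)) / nn j := by
    unfold Prm.err avg
    rw [Finset.sum_sub_distrib, Finset.sum_const, Finset.card_univ, ZMod.card, nsmul_eq_mul]
    field_simp
  rw [e, abs_div, abs_of_pos (by linarith : (0 : ℝ) < nn j), div_le_iff₀ (by linarith)]
  calc _ ≤ ∑ i : ZMod (nn j), tt j ^ 2 :=
        (Finset.abs_sum_le_sum_abs _ _).trans (Finset.sum_le_sum fun i _ => hb i)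
    _ = _ := by rw [Finset.sum_const, Finset.card_univ, ZMod.card, nsmul_eq_mul, mul_comm]

end InK

end Pool.Agent.MP_943ae2_gt

end
end

section

open Set Complex Filter Finset
open scoped Topology ComplexConjugate ContDiff

noncomputable section

namespace Pool.Agent.MP_943ae2_gt

lemma Err3_log {A B η : ℝ} (hA : 0 < A) (h : |B - A| ≤ η * A) (hη : η ≤ 1 / 2) :
    |Real.log B - Real.log A| ≤ 2 * η := by
  obtain ⟨h1, h2⟩ := abs_le.1 h
  have h0 : 0 ≤ η := by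
    by_contra hc
    have := mul_neg_of_neg_of_pos (not_le.1 hc) hA
    linarith
  have h3 : η * A ≤ 1 / 2 * A := mul_le_mul_of_nonneg_right hη hA.le
  have hB : 0 < B := by linarith
  have h4 := Real.log_le_sub_one_of_pos (div_pos hB hA)
  have h5 := Real.log_le_sub_one_of_pos (div_pos hA hB)
  rw [Real.log_div hB.ne' hA.ne'] at h4
  rw [Real.log_div hA.ne' hB.ne'] at h5
  have h6 : B / A ≤ 1 + η := by rw [div_le_iff₀ hA]; linarith
  have h7 : A / B ≤ 1 + 2 * η := by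
    rw [div_le_iff₀ hB]
    have : η * A ≤ η * (2 * B) := mul_le_mul_of_nonneg_left (by linarith) h0
    linarith
  exact abs_le.2 ⟨by linarith, by linarith⟩

lemma Err3_u (j : ℕ) : (1000 : ℝ) ≤ (tt j)⁻¹ :=
  le_trans (le_trans (by norm_num) (PP_ge j)) (admM_PP_le j)

lemma Err3_t8 (j : ℕ) : tt j ^ 8 ≤ 1 / 2 :=
  (pow_le_of_le_one (tt_pos j).le (admM_tt_one _) (by norm_num)).trans
    ((tt_le _).trans (by norm_num))

lemma Err3_rho (j : ℕ) : tt j ^ 8 * rho j = (tt j)⁻¹ ^ 24 := by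
  have := tt_pos j
  rw [rho]; field_simp

lemma Err3_pow (j : ℕ) {a b : ℕ} (h : a < b) : 1000 * (tt j)⁻¹ ^ a ≤ (tt j)⁻¹ ^ b := by
  have h1 := Err3_u j
  calc 1000 * (tt j)⁻¹ ^ a ≤ (tt j)⁻¹ * (tt j)⁻¹ ^ a := by gcongr
    _ = (tt j)⁻¹ ^ (a + 1) := by ring
    _ ≤ _ := pow_le_pow_right₀ (by linarith) h

lemma Err3_small {j j' : ℕ} (h : j' ≤ j + 1) : (2 : ℝ) ^ j' * (2 * tt j ^ 8) ≤ tt j ^ 6 / 16 := by
  have h1 : (2 : ℝ) ^ j' ≤ 2 ^ (j + 1) := pow_le_pow_right₀ (by norm_num) h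
  have h2 := two_pow_le_PP j
  have h3 := admM_PP_tt j
  have h4 := tt_pos j
  have h5 := tt_le j
  have h6 : (0 : ℝ) < 2 ^ (j + 1) := by positivity
  calc (2 : ℝ) ^ j' * (2 * tt j ^ 8) ≤ PP j * (2 * tt j ^ 8) := by gcongr; linarith
    _ = (PP j * tt j) * tt j * (2 * tt j ^ 6) := by ring
    _ ≤ 1 * (1 / 1000) * (2 * tt j ^ 6) := by gcongr
    _ ≤ _ := by have := pow_pos h4 6; linarith

/-- the summand of `LL` -/
def Err3F (x : Prm) (e μ : Nk × Bool) : ℝ :=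
  (if μ.2 then 1 else -1) * x.bq μ.1.j μ.1.k μ.1.i * Real.log ‖x.dat.pos e - x.dat.pos μ‖

/-- model of the contribution of the inner wall -/
def Err3I (x : Prm) (j m : ℕ) : ℝ :=
  if j = 0 then 0 else x.w (j - 1) (Lb (j - 1) + m - 1) - x.w (j - 1) (Lb (j - 1) + m)

/-- model of the contribution of the outer wall -/
def Err3O (x : Prm) (j m : ℕ) : ℝ :=
  x.w (j + 1) (m - Lb j - 1) * x.lr (j + 1) (m - Lb j - 1) -
    x.w (j + 1) (m - Lb j) * x.lr (j + 1) (m - Lb j)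

lemma Err3_I (x : Prm) (j k : ℕ) : Err3I x j k - Err3I x j (k + 1) = -(x.wall j).g k := by
  cases j with
  | zero =>
    have : (x.wall 0).g k = 0 := rfl
    simp [Err3I, this]
  | succ j =>
    rw [x.Mac1_g, Err3I, Err3I, if_neg (Nat.succ_ne_zero j), if_neg (Nat.succ_ne_zero j),
      Nat.add_sub_cancel, ← Nat.add_assoc, Nat.add_sub_cancel, Prm.D2]
    ring

lemma Err3_O (x : Prm) (j k : ℕ) : Err3O x j k - Err3O x j (k + 1) = x.Oc j k := by
  unfold Err3O Prm.Oc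
  split_ifs with h
  · rw [show k + 1 - Lb j = k - Lb j + 1 by omega, Nat.add_sub_cancel]
    ring
  · rw [show k + 1 - Lb j = 0 by omega, show k - Lb j = 0 by omega]
    ring

lemma Err3_pp (x : Prm) {j : ℕ} (hj : 1 ≤ j) (k : ℕ) (i : ZMod (nn j)) :
    x.pp j k i = (x.wall j).p (nn j) (x.ξ j) k i := if_neg (by omega)

lemma Err3_Dw (x : Prm) (j k : ℕ) (i : ZMod (nn j)) :
    (x.wall j).Dw (nn j) (x.ξ j) (x.ε j) k i = -2 * x.bq j k i * Real.log (x.bq j k i) -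
      2 * ∑ i' ∈ univ.erase i, x.bq j k i' *
        Real.log ‖(x.wall j).p (nn j) (x.ξ j) k i - (x.wall j).p (nn j) (x.ξ j) k i'‖ +
      ∑ i', x.bq j (k + 1) i' *
        Real.log ‖(x.wall j).p (nn j) (x.ξ j) k i - (x.wall j).p (nn j) (x.ξ j) (k + 1) i'‖ +
      ∑ i', x.bq j (k - 1) i' *
        Real.log ‖(x.wall j).p (nn j) (x.ξ j) k i - (x.wall j).p (nn j) (x.ξ j) (k - 1) i'‖ -
      (x.wall j).g k * Real.log ‖(x.wall j).p (nn j) (x.ξ j) k i‖ := rfl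

namespace InK

variable {x : Prm} (hx : InK x)
include hx

lemma Err3_de (e : Nk × Bool) : ‖x.dat.pos e - x.pp e.1.j e.1.k e.1.i‖ ≤ (tt e.1.j)⁻¹ ^ 3 := by
  rw [Pos_pos, add_sub_cancel_left]
  split_ifs
  · exact hx.de_le _ _ _
  · have := tt_pos e.1.j
    rw [norm_zero]; positivity

lemma Err3_bq (j k : ℕ) (i : ZMod (nn j)) : 0 ≤ x.bq j k i := by
  by_cases h : k = 0 ∨ NN j ≤ k
  · exact (hx.bq_out h i).ge
  · exact le_trans (by positivity) (hx.bq_ge ⟨j, k, i, by omega, by omega⟩)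

lemma Err3_sum {j : ℕ} (k : ℕ) (S : Finset (ZMod (nn j))) (a b : ZMod (nn j) → ℝ) {δ : ℝ}
    (hδ : 0 ≤ δ) (h : ∀ i ∈ S, |a i - b i| ≤ δ) :
    |∑ i ∈ S, x.bq j k i * a i - ∑ i ∈ S, x.bq j k i * b i| ≤ 2 ^ j * δ := by
  rw [← Finset.sum_sub_distrib]
  refine (Finset.abs_sum_le_sum_abs _ _).trans ?_
  calc ∑ i ∈ S, |x.bq j k i * a i - x.bq j k i * b i| ≤ ∑ i ∈ S, x.bq j k i * δ := by
        refine Finset.sum_le_sum fun i hi => ?_
        rw [← mul_sub, abs_mul, abs_of_nonneg (hx.Err3_bq j k i)]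
        exact mul_le_mul_of_nonneg_left (h i hi) (hx.Err3_bq j k i)
    _ ≤ ∑ i, x.bq j k i * δ := Finset.sum_le_sum_of_subset_of_nonneg (Finset.subset_univ S)
        fun i _ _ => mul_nonneg (hx.Err3_bq j k i) hδ
    _ = x.w j k * δ := by rw [← Finset.sum_mul, hx.sum_bq]
    _ ≤ _ := mul_le_mul_of_nonneg_right ((hx.w_le j k).trans (hx.W_le j)) hδ

lemma Err3_part (e : Nk × Bool) (s : Bool) {j k : ℕ} (h1 : 1 ≤ k) (h2 : k < NN j)
    (S : Finset (ZMod (nn j))) (b : ZMod (nn j) → ℝ) {δ : ℝ} (hδ : 0 ≤ δ)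
    (h : ∀ i ∈ S, |Real.log ‖x.dat.pos e - x.dat.pos (⟨j, k, i, h1, h2⟩, s)‖ - b i| ≤ δ) :
    |∑ i ∈ S, Err3F x e (⟨j, k, i, h1, h2⟩, s) -
      (if s then 1 else -1) * ∑ i ∈ S, x.bq j k i * b i| ≤ 2 ^ j * δ := by
  have h3 := hx.Err3_sum k S _ b hδ h
  have h4 : ∑ i ∈ S, Err3F x e (⟨j, k, i, h1, h2⟩, s) = (if s then 1 else -1) *
      ∑ i ∈ S, x.bq j k i * Real.log ‖x.dat.pos e - x.dat.pos (⟨j, k, i, h1, h2⟩, s)‖ := by
    rw [Finset.mul_sum]
    exact Finset.sum_congr rfl fun i _ => mul_assoc _ _ _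
  rw [h4, ← mul_sub, abs_mul]
  cases s <;> simpa using h3

lemma Err3_ring (e : Nk × Bool) (s : Bool) (j k : ℕ) (b : ZMod (nn j) → ℝ) {δ : ℝ} (hδ : 0 ≤ δ)
    (h : ∀ i h1 h2, |Real.log ‖x.dat.pos e - x.dat.pos (⟨j, k, i, h1, h2⟩, s)‖ - b i| ≤ δ) :
    |ringSum (Err3F x e) s j k - (if s then 1 else -1) * ∑ i, x.bq j k i * b i| ≤ 2 ^ j * δ := by
  unfold ringSum
  by_cases hk : 1 ≤ k ∧ k < NN j
  · rw [dif_pos hk]
    exact hx.Err3_part e s hk.1 hk.2 univ b hδ fun i _ => h i _ _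
  · rw [dif_neg hk, Finset.sum_eq_zero fun i _ => by rw [hx.bq_out (by omega) i, zero_mul],
      mul_zero, sub_zero, abs_zero]
    positivity

lemma Err3_wall (e : Nk × Bool) (j m : ℕ) (b : ℕ → ℝ) {δ : ℝ} (hδ : 0 ≤ δ)
    (h : ∀ μ : Nk × Bool, μ.1.j = j → |Real.log ‖x.dat.pos e - x.dat.pos μ‖ - b μ.1.k| ≤ δ) :
    |wallSum (Err3F x e) j m - (x.w j (m - 1) * b (m - 1) - x.w j m * b m)| ≤
      2 * (2 ^ j * δ) := by
  have h1 := hx.Err3_ring e false j m (fun _ => b m) hδ fun i h1 h2 => h _ rfl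
  have h2 := hx.Err3_ring e true j (m - 1) (fun _ => b (m - 1)) hδ fun i h1 h2 => h _ rfl
  rw [← Finset.sum_mul, hx.sum_bq] at h1 h2
  simp only [Bool.false_eq_true, if_false, if_true] at h1 h2
  obtain ⟨a1, a2⟩ := abs_le.1 h1
  obtain ⟨a3, a4⟩ := abs_le.1 h2
  unfold wallSum
  exact abs_le.2 ⟨by linarith, by linarith⟩

lemma Err3_same {j k k' : ℕ} {i i' : ZMod (nn j)} {h1 : 1 ≤ k} {h2 : k < NN j} {h1' : 1 ≤ k'}
    {h2' : k' < NN j} {s s' : Bool} (hk : (k' + if s' then 1 else 0) = k + if s then 1 else 0)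
    (hne : k' ≠ k ∨ i' ≠ i) :
    |Real.log ‖x.dat.pos (⟨j, k, i, h1, h2⟩, s) - x.dat.pos (⟨j, k', i', h1', h2'⟩, s')‖ -
      Real.log ‖(x.wall j).p (nn j) (x.ξ j) k i - (x.wall j).p (nn j) (x.ξ j) k' i'‖| ≤
      2 * tt j ^ 8 := by
  have hj : 1 ≤ j := by
    rcases Nat.eq_zero_or_pos j with rfl | hj
    · have hN := NN_zero
      have hs : Subsingleton (ZMod (nn 0)) := ZMod.subsingleton_iff.2 nn_zero
      rcases hne with h | h
      · omega
      · exact (h (Subsingleton.elim _ _)).elim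
    · exact hj
  have hm : ((⟨j, k', i', h1', h2'⟩, s') : Nk × Bool) ∈ frm.oth (⟨j, k, i, h1, h2⟩, s) := by
    refine mem_oth.2 ⟨fun h => ?_, ?_⟩
    · simp only [Prod.mk.injEq, Nk.mk.injEq, heq_eq_eq, true_and] at h
      rcases hne with h' | h'
      · exact h' h.1.1
      · exact h' h.1.2
    · rw [lay_eq, lay_eq]
      dsimp only
      rw [hk]
  have a1 := hx.sep_oth hm
  have a2 := hx.Err3_de (⟨j, k, i, h1, h2⟩, s)
  have a3 := hx.Err3_de (⟨j, k', i', h1', h2'⟩, s')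
  dsimp only at a1 a2 a3
  rw [Err3_pp x hj] at a2 a3
  have hn := admM_nn_pos j
  have hr := rho_pos j
  have ht := tt_pos j
  rw [abs_sub_comm]
  refine Err3_log (lt_of_lt_of_le (by positivity) a1) ?_ (Err3_t8 j)
  refine (abs_norm_sub_norm_le _ _).trans ?_
  have a4 : 2 * (tt j)⁻¹ ^ 3 ≤ tt j ^ 8 * (rho j / (4 * nn j)) := by
    rw [← mul_div_assoc, Err3_rho, le_div_iff₀ (by positivity)]
    have b1 := admM_nn_le j
    have b2 := admM_PP_le j
    have b3 := Err3_pow j (show 4 < 24 by norm_num)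
    have b4 : (0 : ℝ) < (tt j)⁻¹ ^ 3 := by positivity
    have b5 : (tt j)⁻¹ ^ 3 * nn j ≤ (tt j)⁻¹ ^ 3 * (tt j)⁻¹ := by gcongr; linarith
    have b6 : (tt j)⁻¹ ^ 3 * (tt j)⁻¹ = (tt j)⁻¹ ^ 4 := by ring
    have b7 : (0 : ℝ) < (tt j)⁻¹ ^ 4 := by positivity
    linarith
  have a5 := mul_le_mul_of_nonneg_left a1 (pow_pos ht 8).le
  refine le_trans ?_ (a4.trans a5)
  generalize x.dat.pos (⟨j, k, i, h1, h2⟩, s) = p at a2
  generalize x.dat.pos (⟨j, k', i', h1', h2'⟩, s') = q at a3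
  generalize (x.wall j).p (nn j) (x.ξ j) k i = p' at a2
  generalize (x.wall j).p (nn j) (x.ξ j) k' i' = q' at a3
  rw [show p' - q' - (p - q) = (q - q') - (p - p') by ring]
  linarith [norm_sub_le (q - q') (p - p')]

lemma Err3_in (e μ : Nk × Bool) (h : μ.1.j + 1 = e.1.j) :
    |Real.log ‖x.dat.pos e - x.dat.pos μ‖ -
      Real.log ‖(x.wall e.1.j).p (nn e.1.j) (x.ξ e.1.j) e.1.k e.1.i‖| ≤ 2 * tt e.1.j ^ 8 := by
  have hj : 1 ≤ e.1.j := by omega
  have a1 := hx.pos_ge (e.1, false) hj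
  have a2 := hx.Err3_de e
  have a3 := hx.pos_le μ
  have a4 : rho μ.1.j = (tt e.1.j)⁻¹ ^ 8 := by
    rw [← h, tt_succ, rho, ← inv_pow, ← pow_mul]
  rw [Pos_pos] at a1
  simp only [Bool.false_eq_true, if_false, add_zero] at a1
  rw [← Err3_pp x hj]
  have hr := rho_pos e.1.j
  have ht := tt_pos e.1.j
  refine Err3_log (by linarith) ?_ (Err3_t8 _)
  refine (abs_norm_sub_norm_le _ _).trans ?_
  have a5 := mul_le_mul_of_nonneg_left a1 (pow_pos ht 8).le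
  have a6 := Err3_rho e.1.j
  have b1 := Err3_pow e.1.j (show 3 < 24 by norm_num)
  have b2 := Err3_pow e.1.j (show 8 < 24 by norm_num)
  have b3 : (0 : ℝ) < (tt e.1.j)⁻¹ ^ 24 := by positivity
  rw [sub_right_comm]
  have b4 := norm_sub_le (x.dat.pos e - x.pp e.1.j e.1.k e.1.i) (x.dat.pos μ)
  linarith

lemma Err3_out (e μ : Nk × Bool) (h : μ.1.j = e.1.j + 1) :
    |Real.log ‖x.dat.pos e - x.dat.pos μ‖ - x.lr (e.1.j + 1) μ.1.k| ≤ 2 * tt e.1.j ^ 8 := by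
  have hj : 1 ≤ μ.1.j := by omega
  have a1 := hx.pos_near μ hj
  have a2 := hx.pos_le e
  have a3 := (hx.Pos_exp hj μ.1.h2.le).1
  have a4 : rho μ.1.j = (tt e.1.j)⁻¹ ^ 128 := by
    rw [h, rho_succ, rho, ← pow_mul]
  have a5 : tt μ.1.j ^ 3 = tt e.1.j ^ 4 * tt e.1.j ^ 8 := by
    rw [h, tt_succ]; ring
  have ht := tt_pos e.1.j
  have hA := Real.exp_pos (x.lr μ.1.j μ.1.k)
  have a6 : ‖((Real.exp (x.lr μ.1.j μ.1.k) : ℝ) : ℂ) * un (nn μ.1.j) μ.1.k μ.1.i‖ =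
      Real.exp (x.lr μ.1.j μ.1.k) := by
    rw [norm_mul, norm_un, mul_one, norm_real, Real.norm_eq_abs, abs_of_pos hA]
  rw [← h, ← Real.log_exp (x.lr μ.1.j μ.1.k), norm_sub_rev]
  refine Err3_log hA ?_ (Err3_t8 _)
  have a7 := abs_norm_sub_norm_le (x.dat.pos μ - x.dat.pos e)
    (((Real.exp (x.lr μ.1.j μ.1.k) : ℝ) : ℂ) * un (nn μ.1.j) μ.1.k μ.1.i)
  rw [a6, sub_right_comm] at a7
  refine a7.trans ((norm_sub_le _ _).trans ?_)
  have b0 := pow_pos ht 8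
  have b1 : tt e.1.j ^ 4 ≤ 1 / 1000 :=
    (pow_le_of_le_one ht.le (admM_tt_one _) (by norm_num)).trans (tt_le _)
  have b2 := mul_le_mul_of_nonneg_right b1 (mul_pos b0 hA).le
  have b3 := mul_le_mul_of_nonneg_left a3 b0.le
  have b4 : tt e.1.j ^ 8 * (tt e.1.j)⁻¹ ^ 128 = (tt e.1.j)⁻¹ ^ 120 := by field_simp
  have b5 := Err3_pow e.1.j (show 32 < 120 by norm_num)
  have b6 : rho e.1.j = (tt e.1.j)⁻¹ ^ 32 := rfl
  have b7 := rho_pos e.1.j
  rw [a5] at a1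
  rw [a4] at b3
  linarith

lemma Err3_oth (e : Nk × Bool) (m : ℕ) :
    |othSum (Err3F x e) e.1.j m - (Err3I x e.1.j m *
      Real.log ‖(x.wall e.1.j).p (nn e.1.j) (x.ξ e.1.j) e.1.k e.1.i‖ + Err3O x e.1.j m)| ≤
      tt e.1.j ^ 6 / 8 := by
  have ht := tt_pos e.1.j
  have hδ : 0 ≤ 2 * tt e.1.j ^ 8 := by positivity
  unfold othSum Err3I Err3O
  by_cases h : m ≤ Lb e.1.j
  · rw [if_pos h, show m - Lb e.1.j = 0 by omega, Nat.zero_sub, sub_self, add_zero]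
    by_cases h0 : e.1.j = 0
    · rw [if_pos h0, if_pos h0, zero_mul, sub_zero, abs_zero]
      positivity
    · have h1 := hx.Err3_wall e (e.1.j - 1) (Lb (e.1.j - 1) + m) (fun _ => _) hδ
        fun μ hμ => hx.Err3_in e μ (by omega)
      have h2 := Err3_small (j := e.1.j) (j' := e.1.j - 1) (by omega)
      rw [if_neg h0, if_neg h0, sub_mul]
      linarith
  · have h1 := hx.Err3_wall e (e.1.j + 1) (m - Lb e.1.j) (x.lr (e.1.j + 1)) hδ
      fun μ hμ => hx.Err3_out e μ hμ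
    have h2 := Err3_small (j := e.1.j) (j' := e.1.j + 1) le_rfl
    have h3 : (if e.1.j = 0 then 0 else x.w (e.1.j - 1) (Lb (e.1.j - 1) + m - 1) -
        x.w (e.1.j - 1) (Lb (e.1.j - 1) + m)) = 0 := by
      split_ifs with h0
      · rfl
      · have b1 := Lb_succ (e.1.j - 1)
        rw [Nat.sub_add_cancel (by omega)] at b1
        have b2 : NN (e.1.j - 1) = Lb (e.1.j - 1) + Mt (e.1.j - 1) := rfl
        rw [x.w_out (by omega), x.w_out (by omega), sub_zero]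
    rw [if_neg h, h3, zero_mul, zero_add]
    linarith

theorem LL_near (ν : Nk) :
    |-2 * x.bq ν.j ν.k ν.i * Real.log (x.bq ν.j ν.k ν.i) + x.LL (ν, false) - x.LL (ν, true) -
      ((x.wall ν.j).Dw (nn ν.j) (x.ξ ν.j) (x.ε ν.j) ν.k ν.i + x.Oc ν.j ν.k)| ≤ tt ν.j ^ 6 / 2 := by
  have e1 : x.LL (ν, false) = _ := sum_oth_false (Err3F x (ν, false)) ν
  have e2 : x.LL (ν, true) = _ := sum_oth_true (Err3F x (ν, true)) ν
  have o1 := hx.Err3_oth (ν, false) ν.k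
  have o2 := hx.Err3_oth (ν, true) (ν.k + 1)
  obtain ⟨j, k, i, h1, h2⟩ := ν
  dsimp only at e1 e2 o1 o2 ⊢
  have hδ : 0 ≤ 2 * tt j ^ 8 := by have := tt_pos j; positivity
  have s1 := hx.Err3_part (⟨j, k, i, h1, h2⟩, false) false h1 h2 (univ.erase i) _ hδ
    fun i' hi => hx.Err3_same rfl (.inr (ne_of_mem_erase hi))
  have s2 := hx.Err3_part (⟨j, k, i, h1, h2⟩, true) true h1 h2 (univ.erase i) _ hδ
    fun i' hi => hx.Err3_same rfl (.inr (ne_of_mem_erase hi))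
  have s3 := hx.Err3_ring (⟨j, k, i, h1, h2⟩, false) true j (k - 1) _ hδ
    fun i' a1 a2 => hx.Err3_same (by simp; omega) (.inl (by omega))
  have s4 := hx.Err3_ring (⟨j, k, i, h1, h2⟩, true) false j (k + 1) _ hδ
    fun i' a1 a2 => hx.Err3_same (by simp) (.inl (by omega))
  simp only [Bool.false_eq_true, if_false, if_true] at s1 s2 s3 s4
  have h3 := Err3_small (j := j) (j' := j) (by omega)
  have h4 := congrArg (· * Real.log ‖(x.wall j).p (nn j) (x.ξ j) k i‖) (Err3_I x j k)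
  have h5 := Err3_O x j k
  rw [e1, e2, Err3_Dw]
  obtain ⟨a1, a2⟩ := abs_le.1 s1
  obtain ⟨a3, a4⟩ := abs_le.1 s2
  obtain ⟨a5, a6⟩ := abs_le.1 s3
  obtain ⟨a7, a8⟩ := abs_le.1 s4
  obtain ⟨b1, b2⟩ := abs_le.1 o1
  obtain ⟨b3, b4⟩ := abs_le.1 o2
  exact abs_le.2 ⟨by linarith, by linarith⟩

theorem Dt_err {j k : ℕ} (h1 : 1 ≤ k) (h2 : k < NN j) (i : ZMod (nn j)) :
    |x.Dt j k i - ((x.wall j).Dw (nn j) (x.ξ j) (x.ε j) k i + x.Oc j k)| ≤ tt j ^ 6 := by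
  obtain ⟨a1, a2⟩ := abs_le.1 (hx.Dt_near ⟨j, k, i, h1, h2⟩)
  obtain ⟨a3, a4⟩ := abs_le.1 (hx.LL_near ⟨j, k, i, h1, h2⟩)
  dsimp only at a1 a2 a3 a4
  exact abs_le.2 ⟨by linarith, by linarith⟩

lemma Err3_lip {j k : ℕ} (h1 : 1 ≤ k) (h2 : k < NN j) (i : ZMod (nn j)) :
    |(x.wall j).Dw (nn j) (x.ξ j) (x.ε j) k i - (x.wall j).Ds (nn j) k| ≤ tt j ^ 2 / 2 := by
  have ht := tt_pos j
  rcases Nat.eq_zero_or_pos j with rfl | hj
  · have hN := NN_zero
    obtain rfl : k = 1 := by omega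
    have hs : Subsingleton (ZMod (nn 0)) := ZMod.subsingleton_iff.2 nn_zero
    have a1 : x.bq 0 1 i = 1 := by
      have b1 : x.w 0 1 = 1 := x.w_L 0
      have b2 : ((nn 0 : ℕ) : ℝ) = 1 := by rw [nn_zero, Nat.cast_one]
      rw [Pos_bq, (hx.micro_zero (j := 0) (by norm_num)).2, x.Mac1_c, b1, b2]
      simp
    have a2 : (x.wall 0).g 1 = 0 := rfl
    rw [x.Ds_zero, Err3_Dw, a1, a2,
      Finset.sum_eq_zero fun i' hi => (ne_of_mem_erase hi (Subsingleton.elim _ _)).elim,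
      Finset.sum_eq_zero fun i' _ => by rw [hx.bq_out (by omega) i', zero_mul],
      Finset.sum_eq_zero fun i' _ => by rw [hx.bq_out (by omega) i', zero_mul]]
    simp
    positivity
  · have hP := admM_PP_pos j
    have hr : tt j ^ 3 ≤ (PP j ^ 2)⁻¹ ^ 4 := by
      have a1 := admM_pow_tt j (m := 8) (by norm_num)
      have a2 : tt j ^ 3 ≤ tt j := pow_le_of_le_one ht.le (admM_tt_one j) (by norm_num)
      rw [inv_pow, inv_eq_one_div, le_div_iff₀ (by positivity)]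
      calc tt j ^ 3 * (PP j ^ 2) ^ 4 ≤ tt j * (PP j ^ 2) ^ 4 := by gcongr
        _ = PP j ^ 8 * tt j := by ring
        _ ≤ 1 := a1
    refine (Dw_lip (hx.wall_bd hj) hr (hx.ξ_le j) (hx.ε_le j) (hx.ε_out j) h1 h2 i).trans ?_
    have a1 := admM_pow_tt j (m := 13) (by norm_num)
    have a2 : (2 : ℝ) ≤ PP j := le_trans (by norm_num) (PP_ge j)
    rw [le_div_iff₀ two_pos]
    calc (PP j ^ 2) ^ 6 * tt j ^ 3 * 2 ≤ (PP j ^ 2) ^ 6 * tt j ^ 3 * PP j := by gcongr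
      _ = PP j ^ 13 * tt j * tt j ^ 2 := by ring
      _ ≤ 1 * tt j ^ 2 := by gcongr
      _ = _ := one_mul _

theorem Dt_val {j k : ℕ} (h1 : 1 ≤ k) (h2 : k < NN j) (i : ZMod (nn j)) :
    |x.Dt j k i - ((x.wall j).Ds (nn j) k + x.Oc j k)| ≤ tt j ^ 2 := by
  obtain ⟨a1, a2⟩ := abs_le.1 (hx.Dt_err h1 h2 i)
  obtain ⟨a3, a4⟩ := abs_le.1 (hx.Err3_lip h1 h2 i)
  have ht := tt_pos j
  have b1 : tt j ^ 4 ≤ 1 / 1000 :=
    (pow_le_of_le_one ht.le (admM_tt_one _) (by norm_num)).trans (tt_le _)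
  have b2 := mul_le_mul_of_nonneg_right b1 (pow_pos ht 2).le
  have b3 := pow_pos ht 2
  exact abs_le.2 ⟨by linarith, by linarith⟩

end InK

end Pool.Agent.MP_943ae2_gt

end
end

section

open Set Complex Filter Finset
open scoped Topology ComplexConjugate ContDiff

noncomputable section

namespace Pool.Agent.MP_943ae2_gt

lemma Kset_nsq (x : Prm) (j : ℕ) (ξ : ℕ → ZMod (nn j) → ℂ) (ε : ℕ → ZMod (nn j) → ℝ) :
    (x.wall j).nsq (nn j) ξ ε = ∑ k ∈ Ico 1 (NN j), ∑ i, (‖ξ k i‖ ^ 2 + ε k i ^ 2) := rfl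

lemma Kset_tt_pos (j : ℕ) : 0 < tt j := by unfold tt; positivity

lemma Kset_cu (j : ℕ) : Continuous fun x : Prm => x.u j := by unfold Prm.u; fun_prop

lemma Kset_cs (j a : ℕ) : Continuous fun x : Prm => x.s j a := by unfold Prm.s; fun_prop

lemma Kset_cy (j a : ℕ) : Continuous fun x : Prm => x.y j a := by unfold Prm.y; fun_prop

lemma Kset_cξ (j k : ℕ) (i : ZMod (nn j)) : Continuous fun x : Prm => x.ξ j k i := by
  unfold Prm.ξ; fun_prop

lemma Kset_cε (j k : ℕ) (i : ZMod (nn j)) : Continuous fun x : Prm => x.ε j k i := by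
  unfold Prm.ε; fun_prop

lemma Kset_cio (j k : ℕ) (i : ZMod (nn j)) : Continuous fun x : Prm => x.io j k i := by
  unfold Prm.io; fun_prop

lemma Kset_cde (j k : ℕ) (i : ZMod (nn j)) : Continuous fun x : Prm => x.de j k i := by
  unfold Prm.de; fun_prop

lemma Kset_le {f g : Prm → ℝ} (hf : Continuous f) (hg : Continuous g)
    (h : ∀ y, InK y → f y ≤ g y) {x : Prm} (hx : x ∈ closure {x : Prm | InK x}) : f x ≤ g x :=
  closure_minimal (t := {x | f x ≤ g x}) (fun y hy => h y hy) (isClosed_le hf hg) hx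

lemma Kset_eq {E : Type} [TopologicalSpace E] [T2Space E] {f g : Prm → E} (hf : Continuous f)
    (hg : Continuous g) (h : ∀ y, InK y → f y = g y) {x : Prm}
    (hx : x ∈ closure {x : Prm | InK x}) : f x = g x :=
  closure_minimal (t := {x | f x = g x}) (fun y hy => h y hy) (isClosed_eq hf hg) hx

lemma Kset_closed : IsClosed {x : Prm | InK x} := by
  refine isClosed_of_closure_subset fun x hx => ?_
  refine ⟨fun j => ?_, fun j a => ?_, fun j k => ?_, fun j k i h => ?_, fun j k i h => ?_,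
    fun j => ?_, fun j k => ?_, fun j k => ?_, fun j k i => ?_, fun j k i => ?_, fun j k i => ?_,
    fun j k i => ?_, fun j k i => ?_, fun j k i => ?_, fun j k i => ?_, fun j k i => ?_,
    fun j k i => ?_, fun j k i => ?_⟩
  · exact Kset_le ((Kset_cu j).sub continuous_const).abs continuous_const
      (fun y hy => hy.u_mem j) hx
  · exact Kset_le (Kset_cs j a).abs continuous_const (fun y hy => hy.s_le j a) hx
  · exact Kset_le (Kset_cy j k).abs continuous_const (fun y hy => hy.y_le j k) hx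
  · exact Kset_eq (Kset_cξ j k i) continuous_const (fun y hy => hy.ξ_out j k i h) hx
  · exact Kset_eq (Kset_cε j k i) continuous_const (fun y hy => hy.ε_out j k i h) hx
  · rw [Kset_nsq]
    refine Kset_le (f := fun x => ∑ k ∈ Ico 1 (NN j), ∑ i, (‖x.ξ j k i‖ ^ 2 + x.ε j k i ^ 2))
      ?_ continuous_const (fun y hy => hy.nsq_le j) hx
    exact continuous_finsetSum _ fun k _ => continuous_finsetSum _ fun i _ =>
      ((Kset_cξ j k i).norm.pow 2).add ((Kset_cε j k i).pow 2)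
  · exact Kset_eq (continuous_finsetSum _ fun i _ => Kset_cξ j k i) continuous_const
      (fun y hy => hy.ξ_mean j k) hx
  · exact Kset_eq (continuous_finsetSum _ fun i _ => Kset_cε j k i) continuous_const
      (fun y hy => hy.ε_mean j k) hx
  · exact Kset_le (Kset_cio j k i).abs continuous_const (fun y hy => hy.io_le j k i) hx
  · exact Kset_le (Kset_cde j k i).norm continuous_const (fun y hy => hy.de_le j k i) hx
  · exact Kset_eq (Kset_cξ j k _) (Kset_cξ j k i) (fun y hy => hy.ξ_rot j k i) hx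
  · exact Kset_eq (Kset_cε j k _) (Kset_cε j k i) (fun y hy => hy.ε_rot j k i) hx
  · exact Kset_eq (Kset_cio j k _) (Kset_cio j k i) (fun y hy => hy.io_rot j k i) hx
  · exact Kset_eq (Kset_cde j k _) (continuous_const.mul (Kset_cde j k i))
      (fun y hy => hy.de_rot j k i) hx
  · exact Kset_eq (Kset_cξ j k _) (continuous_conj.comp (Kset_cξ j k i))
      (fun y hy => hy.ξ_refl j k i) hx
  · exact Kset_eq (Kset_cε j k _) (Kset_cε j k i) (fun y hy => hy.ε_refl j k i) hx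
  · exact Kset_eq (Kset_cio j k _) (Kset_cio j k i).neg (fun y hy => hy.io_refl j k i) hx
  · exact Kset_eq (Kset_cde j k _) (continuous_conj.comp (Kset_cde j k i))
      (fun y hy => hy.de_refl j k i) hx

lemma Kset_box3 {E : Type} [NormedAddCommGroup E] [ProperSpace E] (r : ℕ → ℝ) :
    IsCompact (Set.pi univ fun j => Set.pi univ fun _ : ℕ => Set.pi univ fun _ : ZMod (nn j) =>
      Metric.closedBall (0 : E) (r j)) :=
  isCompact_univ_pi fun _ => isCompact_univ_pi fun _ => isCompact_univ_pi fun _ =>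
    isCompact_closedBall _ _

lemma Kset_box2 (r : ℕ → ℝ) :
    IsCompact (Set.pi univ fun j => Set.pi univ fun _ : ℕ => Metric.closedBall (0 : ℝ) (r j)) :=
  isCompact_univ_pi fun _ => isCompact_univ_pi fun _ => isCompact_closedBall _ _

lemma Kset_term {x : Prm} (hx : InK x) (j k : ℕ) (i : ZMod (nn j)) :
    ‖x.ξ j k i‖ ^ 2 + x.ε j k i ^ 2 ≤ (tt j ^ 3) ^ 2 := by
  by_cases h : k = 0 ∨ NN j ≤ k
  · rw [hx.ξ_out j k i h, hx.ε_out j k i h, norm_zero, zero_pow two_ne_zero, add_zero]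
    exact sq_nonneg _
  · refine le_trans ?_ (hx.nsq_le j)
    rw [Kset_nsq]
    have hk : k ∈ Finset.Ico 1 (NN j) := Finset.mem_Ico.2 ⟨by omega, by omega⟩
    refine le_trans ?_ (Finset.single_le_sum
      (f := fun k => ∑ i, (‖x.ξ j k i‖ ^ 2 + x.ε j k i ^ 2))
      (fun k _ => Finset.sum_nonneg fun i _ => add_nonneg (sq_nonneg _) (sq_nonneg _)) hk)
    exact Finset.single_le_sum (f := fun i => ‖x.ξ j k i‖ ^ 2 + x.ε j k i ^ 2)
      (fun i _ => add_nonneg (sq_nonneg _) (sq_nonneg _)) (Finset.mem_univ i)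

theorem K_compact : IsCompact {x : Prm | InK x} := by
  refine IsCompact.of_isClosed_subset
    ((isCompact_univ_pi fun _ : ℕ => isCompact_closedBall (5 / 3 : ℝ) (1 / 100)).prod
      ((Kset_box2 fun _ => 8).prod ((Kset_box2 fun j => 2000 * NN j / nn j).prod
        ((Kset_box3 (E := ℂ) fun j => tt j ^ 3).prod ((Kset_box3 (E := ℝ) fun j => tt j ^ 3).prod
          ((Kset_box3 (E := ℝ) fun j => tt j ^ 28).prod
            (Kset_box3 (E := ℂ) fun j => (tt j)⁻¹ ^ 3))))))) Kset_closed ?_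
  intro x hx
  have hx' : InK x := hx
  have t3 : ∀ j, 0 ≤ tt j ^ 3 := fun j => (pow_pos (Kset_tt_pos j) 3).le
  refine ⟨fun j _ => ?_, fun j _ a _ => ?_, fun j _ a _ => ?_, fun j _ k _ i _ => ?_,
    fun j _ k _ i _ => ?_, fun j _ k _ i _ => ?_, fun j _ k _ i _ => ?_⟩
  · exact mem_closedBall_iff_norm.2 (hx'.u_mem j)
  · exact mem_closedBall_zero_iff.2 (hx'.s_le j a)
  · exact mem_closedBall_zero_iff.2 (hx'.y_le j a)
  · refine mem_closedBall_zero_iff.2 ((pow_le_pow_iff_left₀ (norm_nonneg _) (t3 j) two_ne_zero).1 ?_)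
    exact (le_add_of_nonneg_right (sq_nonneg _)).trans (Kset_term hx' j k i)
  · refine mem_closedBall_zero_iff.2 ((pow_le_pow_iff_left₀ (norm_nonneg _) (t3 j) two_ne_zero).1 ?_)
    rw [Real.norm_eq_abs, sq_abs]
    exact (le_add_of_nonneg_left (sq_nonneg _)).trans (Kset_term hx' j k i)
  · exact mem_closedBall_zero_iff.2 (hx'.io_le j k i)
  · exact mem_closedBall_zero_iff.2 (hx'.de_le j k i)

lemma Kset_norm {E : Type} [NormedAddCommGroup E] [NormedSpace ℝ E] {p q : E} {a b r : ℝ}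
    (ha : 0 ≤ a) (hb : 0 ≤ b) (hab : a + b = 1) (hp : ‖p‖ ≤ r) (hq : ‖q‖ ≤ r) :
    ‖a • p + b • q‖ ≤ r := by
  refine (norm_add_le _ _).trans ?_
  rw [norm_smul, norm_smul, Real.norm_of_nonneg ha, Real.norm_of_nonneg hb]
  calc a * ‖p‖ + b * ‖q‖ ≤ a * r + b * r := by gcongr
    _ = r := by rw [← add_mul, hab, one_mul]

lemma Kset_sq {E : Type} [NormedAddCommGroup E] [NormedSpace ℝ E] (p q : E) {a b : ℝ}
    (ha : 0 ≤ a) (hb : 0 ≤ b) (hab : a + b = 1) :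
    ‖a • p + b • q‖ ^ 2 ≤ a * ‖p‖ ^ 2 + b * ‖q‖ ^ 2 := by
  have h1 : ‖a • p + b • q‖ ≤ a * ‖p‖ + b * ‖q‖ := by
    refine (norm_add_le _ _).trans ?_
    rw [norm_smul, norm_smul, Real.norm_of_nonneg ha, Real.norm_of_nonneg hb]
  refine (pow_le_pow_left₀ (norm_nonneg _) h1 2).trans ?_
  have h2 : b = 1 - a := by linarith
  have h3 := mul_nonneg (mul_nonneg ha hb) (sq_nonneg (‖p‖ - ‖q‖))
  subst h2
  nlinarith

theorem K_convex : Convex ℝ {x : Prm | InK x} := by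
  intro x hx y hy a b ha hb hab
  have hx' : InK x := hx
  have hy' : InK y := hy
  have eu : ∀ j, Prm.u (a • x + b • y) j = a • x.u j + b • y.u j := fun _ => rfl
  have es : ∀ j k, Prm.s (a • x + b • y) j k = a • x.s j k + b • y.s j k := fun _ _ => rfl
  have ey : ∀ j k, Prm.y (a • x + b • y) j k = a • x.y j k + b • y.y j k := fun _ _ => rfl
  have eξ : ∀ j k i, Prm.ξ (a • x + b • y) j k i = a • x.ξ j k i + b • y.ξ j k i :=
    fun _ _ _ => rfl
  have eε : ∀ j k i, Prm.ε (a • x + b • y) j k i = a • x.ε j k i + b • y.ε j k i :=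
    fun _ _ _ => rfl
  have ei : ∀ j k i, Prm.io (a • x + b • y) j k i = a • x.io j k i + b • y.io j k i :=
    fun _ _ _ => rfl
  have ed : ∀ j k i, Prm.de (a • x + b • y) j k i = a • x.de j k i + b • y.de j k i :=
    fun _ _ _ => rfl
  have ec : ∀ p q : ℂ, conj (a • p + b • q) = a • conj p + b • conj q := fun p q => by
    simp only [real_smul, map_add, map_mul, conj_ofReal]
  refine ⟨fun j => ?_, fun j c => ?_, fun j k => ?_, fun j k i h => ?_, fun j k i h => ?_,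
    fun j => ?_, fun j k => ?_, fun j k => ?_, fun j k i => ?_, fun j k i => ?_, fun j k i => ?_,
    fun j k i => ?_, fun j k i => ?_, fun j k i => ?_, fun j k i => ?_, fun j k i => ?_,
    fun j k i => ?_, fun j k i => ?_⟩
  · have e : Prm.u (a • x + b • y) j - 5 / 3 = a • (x.u j - 5 / 3) + b • (y.u j - 5 / 3) := by
      rw [eu]; simp only [smul_eq_mul]; linear_combination (5 / 3) * hab
    rw [e]
    exact Kset_norm (E := ℝ) ha hb hab (hx'.u_mem j) (hy'.u_mem j)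
  · rw [es]; exact Kset_norm (E := ℝ) ha hb hab (hx'.s_le j c) (hy'.s_le j c)
  · rw [ey]; exact Kset_norm (E := ℝ) ha hb hab (hx'.y_le j k) (hy'.y_le j k)
  · rw [eξ, hx'.ξ_out j k i h, hy'.ξ_out j k i h, smul_zero, smul_zero, add_zero]
  · rw [eε, hx'.ε_out j k i h, hy'.ε_out j k i h, smul_zero, smul_zero, add_zero]
  · have h1 := hx'.nsq_le j
    have h2 := hy'.nsq_le j
    rw [Kset_nsq] at h1 h2 ⊢
    calc ∑ k ∈ Ico 1 (NN j), ∑ i, (‖Prm.ξ (a • x + b • y) j k i‖ ^ 2 +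
          Prm.ε (a • x + b • y) j k i ^ 2)
        ≤ ∑ k ∈ Ico 1 (NN j), ∑ i, (a * (‖x.ξ j k i‖ ^ 2 + x.ε j k i ^ 2) +
          b * (‖y.ξ j k i‖ ^ 2 + y.ε j k i ^ 2)) := by
          refine Finset.sum_le_sum fun k _ => Finset.sum_le_sum fun i _ => ?_
          have h3 := Kset_sq (x.ξ j k i) (y.ξ j k i) ha hb hab
          have h4 := Kset_sq (x.ε j k i) (y.ε j k i) ha hb hab
          rw [Real.norm_eq_abs, Real.norm_eq_abs, Real.norm_eq_abs, sq_abs, sq_abs, sq_abs] at h4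
          rw [eξ, eε]
          linarith
      _ = a * ∑ k ∈ Ico 1 (NN j), ∑ i, (‖x.ξ j k i‖ ^ 2 + x.ε j k i ^ 2) +
          b * ∑ k ∈ Ico 1 (NN j), ∑ i, (‖y.ξ j k i‖ ^ 2 + y.ε j k i ^ 2) := by
          simp only [Finset.sum_add_distrib, Finset.mul_sum, mul_add]
      _ ≤ a * (tt j ^ 3) ^ 2 + b * (tt j ^ 3) ^ 2 :=
          add_le_add (mul_le_mul_of_nonneg_left h1 ha) (mul_le_mul_of_nonneg_left h2 hb)
      _ = (tt j ^ 3) ^ 2 := by rw [← add_mul, hab, one_mul]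
  · simp only [eξ]
    rw [Finset.sum_add_distrib, ← Finset.smul_sum, ← Finset.smul_sum, hx'.ξ_mean, hy'.ξ_mean,
      smul_zero, smul_zero, add_zero]
  · simp only [eε]
    rw [Finset.sum_add_distrib, ← Finset.smul_sum, ← Finset.smul_sum, hx'.ε_mean, hy'.ε_mean,
      smul_zero, smul_zero, add_zero]
  · rw [ei]; exact Kset_norm (E := ℝ) ha hb hab (hx'.io_le j k i) (hy'.io_le j k i)
  · rw [ed]; exact Kset_norm ha hb hab (hx'.de_le j k i) (hy'.de_le j k i)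
  · rw [eξ, eξ, hx'.ξ_rot, hy'.ξ_rot]
  · rw [eε, eε, hx'.ε_rot, hy'.ε_rot]
  · rw [ei, ei, hx'.io_rot, hy'.io_rot]
  · rw [ed, ed, hx'.de_rot, hy'.de_rot, mul_add, mul_smul_comm, mul_smul_comm]
  · rw [eξ, eξ, hx'.ξ_refl, hy'.ξ_refl, ec]
  · rw [eε, eε, hx'.ε_refl, hy'.ε_refl]
  · rw [ei, ei, hx'.io_refl, hy'.io_refl, smul_neg, smul_neg, neg_add]
  · rw [ed, ed, hx'.de_refl, hy'.de_refl, ec]

theorem K_nonempty : {x : Prm | InK x}.Nonempty := by
  refine ⟨(fun _ => 5 / 3, 0, 0, 0, 0, 0, 0), ?_⟩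
  refine ⟨fun j => ?_, fun j c => ?_, fun j k => ?_, fun j k i h => rfl, fun j k i h => rfl,
    fun j => ?_, fun j k => Finset.sum_const_zero, fun j k => Finset.sum_const_zero,
    fun j k i => ?_, fun j k i => ?_, fun j k i => rfl,
    fun j k i => rfl, fun j k i => rfl, fun j k i => (mul_zero _).symm,
    fun j k i => (map_zero _).symm, fun j k i => rfl,
    fun j k i => neg_zero.symm, fun j k i => (map_zero _).symm⟩
  · show |(5 / 3 : ℝ) - 5 / 3| ≤ 1 / 100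
    norm_num
  · show |(0 : ℝ)| ≤ 8
    norm_num
  · show |(0 : ℝ)| ≤ _
    rw [abs_zero]; positivity
  · rw [Kset_nsq]
    show ∑ k ∈ Ico 1 (NN j), ∑ _i : ZMod (nn j), (‖(0 : ℂ)‖ ^ 2 + (0 : ℝ) ^ 2) ≤ _
    rw [norm_zero, zero_pow two_ne_zero, add_zero, Finset.sum_const_zero, Finset.sum_const_zero]
    exact sq_nonneg _
  · show |(0 : ℝ)| ≤ _
    rw [abs_zero]; exact (pow_pos (Kset_tt_pos j) _).le
  · show ‖(0 : ℂ)‖ ≤ _
    rw [norm_zero]; exact (pow_pos (inv_pos.2 (Kset_tt_pos j)) _).le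

end Pool.Agent.MP_943ae2_gt

end
end
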