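import Pool.Agent.Mg.F943ae2.Ga044a3
import Pool.Agent.Mg.F943ae2.Gc30303
import Pool.Agent.Mg.F943ae2.Gbb4df3
import Pool.Agent.Mg.F943ae2.G9093ed
import Pool.Agent.Mg.F943ae2.Gc26406

section

open Set Complex Filter Finset
open scoped Topology ComplexConjugate ContDiff

noncomputable section

namespace Pool.Agent.MP_943ae2_gt

lemma Pot3_log_real {a b δ : ℝ} (hb : 0 < b) (hδ : δ ≤ 1 / 2) (h : |a - b| ≤ δ * b) :
    0 < a ∧ |Real.log a - Real.log b| ≤ 2 * δ := by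
  obtain ⟨h1, h2⟩ := abs_le.1 h
  have h0 : 0 ≤ δ := by
    by_contra hc
    have := mul_neg_of_neg_of_pos (not_le.1 hc) hb
    linarith
  have h3 : δ * b ≤ 1 / 2 * b := mul_le_mul_of_nonneg_right hδ hb.le
  have ha : 0 < a := by linarith
  refine ⟨ha, abs_le.2 ⟨?_, ?_⟩⟩
  · have h4 := Real.log_le_sub_one_of_pos (div_pos hb ha)
    rw [Real.log_div hb.ne' ha.ne'] at h4
    have h5 : b / a ≤ 1 + 2 * δ := by
      rw [div_le_iff₀ ha]
      have h6 : δ * b ≤ δ * (2 * a) := mul_le_mul_of_nonneg_left (by linarith) h0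
      linarith
    linarith
  · have h4 := Real.log_le_sub_one_of_pos (div_pos ha hb)
    rw [Real.log_div ha.ne' hb.ne'] at h4
    have h5 : a / b ≤ 1 + δ := by
      rw [div_le_iff₀ hb]
      linarith
    linarith

/-- the size of the termwise error -/
def Pot3_E (j : ℕ) : ℝ := 10 * nn j * tt j ^ 3

lemma Pot3_E_nonneg (j : ℕ) : 0 ≤ Pot3_E j := by
  have := tt_pos j
  unfold Pot3_E
  positivity

lemma Pot3_log (j : ℕ) {a b : ℂ} (hd : ‖a - b‖ ≤ 5 * tt j ^ 3 * rho j) (hb : rho j / nn j ≤ ‖b‖) :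
    |Real.log (‖a‖ / rho j) - (Real.log ‖b‖ - ell j)| ≤ Pot3_E j := by
  have hn := Mac2_nn_pos j
  have hr := rho_pos j
  have ht := tt_pos j
  have hc := admM_cube j
  have hb0 : 0 < ‖b‖ := lt_of_lt_of_le (by positivity) hb
  have h1 : |‖a‖ - ‖b‖| ≤ 5 * nn j * tt j ^ 3 * ‖b‖ := by
    refine (abs_norm_sub_norm_le a b).trans (hd.trans ?_)
    calc 5 * tt j ^ 3 * rho j = 5 * nn j * tt j ^ 3 * (rho j / nn j) := by field_simp
      _ ≤ _ := by gcongr
  obtain ⟨ha, h2⟩ := Pot3_log_real hb0 (by linarith) h1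
  rw [Real.log_div ha.ne' hr.ne']
  have e : Real.log ‖a‖ - Real.log (rho j) - (Real.log ‖b‖ - ell j) =
      Real.log ‖a‖ - Real.log ‖b‖ := by
    unfold ell
    ring
  rw [e, Pot3_E]
  linarith

lemma Pot3_R (e : Nk × Bool) : frm.R e ≤ tt e.1.j ^ 3 * rho e.1.j / 2 := by
  change (tt e.1.j)⁻¹ ^ 16 ≤ tt e.1.j ^ 3 * (tt e.1.j)⁻¹ ^ 32 / 2
  have ht := tt_pos e.1.j
  have h1 := tt_le e.1.j
  generalize tt e.1.j = t at ht h1
  have e1 : t ^ 3 * t⁻¹ ^ 32 / 2 = t⁻¹ ^ 16 * (t⁻¹ ^ 13 / 2) := by field_simp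
  have h2 : (2 : ℝ) ≤ t⁻¹ := by
    rw [le_inv_comm₀ (by norm_num) ht]
    linarith
  have h3 : t⁻¹ ≤ t⁻¹ ^ 13 := le_self_pow₀ (by linarith) (by norm_num)
  rw [e1]
  exact le_mul_of_one_le_right (by positivity) (by linarith)

lemma Pot3_sum {ι : Type} (S : Finset ι) (f g : ι → ℝ) {E n : ℝ} (hE : 0 ≤ E)
    (hn : (S.card : ℝ) ≤ n) (h : ∀ i ∈ S, |f i - g i| ≤ E) :
    |∑ i ∈ S, f i - ∑ i ∈ S, g i| ≤ n * E := by
  rw [← sum_sub_distrib]
  refine (abs_sum_le_sum_abs _ _).trans ((sum_le_card_nsmul _ _ _ h).trans ?_)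
  rw [nsmul_eq_mul]
  exact mul_le_mul_of_nonneg_right hn hE

lemma Pot3_po {j i : ℕ} (h1 : 1 ≤ i) : |po j i| ≤ pj j := by
  have hp := pj_pos j
  rcases Nat.eq_zero_or_pos j with rfl | hj
  · rw [po_zero, abs_zero]
    exact hp.le
  rcases le_or_gt i (Lb j) with h | h
  · obtain ⟨a, b⟩ := po_bot hj h1 h
    rw [abs_of_nonneg (by linarith)]
    exact b
  · rw [po_top h, abs_zero]
    exact hp.le

lemma Pot3_Lb (j : ℕ) : (Lb j : ℝ) ≤ PP j := by
  have h1 := Mac2_NN_le j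
  have h2 := Mac2_NN j
  have h3 := Mac2_Mt_one j
  linarith

lemma Pot3_cube (j : ℕ) : PP j ^ 3 * tt j ^ 3 ≤ 1 / 10 ^ 6 := by
  have h1 := admM_pow_tt j (m := 3) (by norm_num)
  have h2 := tt_le j
  have h3 := tt_pos j
  have h4 : tt j ^ 2 ≤ (1 / 1000) ^ 2 := pow_le_pow_left₀ h3.le h2 2
  have h5 : 0 ≤ PP j ^ 3 * tt j := by
    have := admM_PP_pos j
    positivity
  calc PP j ^ 3 * tt j ^ 3 = (PP j ^ 3 * tt j) * tt j ^ 2 := by ring
    _ ≤ 1 * (1 / 1000) ^ 2 := by gcongr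
    _ = _ := by norm_num

/-- the total error -/
lemma Pot3_total (ν : Nk) {a b c A B C : ℝ} (ha : |a| ≤ 2 * Lb ν.j * pj ν.j / nn ν.j)
    (hb : |b| ≤ 2 * Lb ν.j * pj ν.j / nn ν.j) (hc : |c| ≤ pj ν.j)
    (hA : |A| ≤ nn ν.j * Pot3_E ν.j) (hB : |B| ≤ nn ν.j * Pot3_E ν.j) (hC : |C| ≤ Pot3_E ν.j) :
    |a * A + b * B + c * C| ≤ dl ν := by
  have hn := Mac2_nn_pos ν.j
  have hp := pj_pos ν.j
  have hE := Pot3_E_nonneg ν.j
  have hL := Mac2_Lb_one ν.j
  have h1 : |a * A| ≤ 2 * Lb ν.j * pj ν.j / nn ν.j * (nn ν.j * Pot3_E ν.j) := by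
    rw [abs_mul]; gcongr
  have h2 : |b * B| ≤ 2 * Lb ν.j * pj ν.j / nn ν.j * (nn ν.j * Pot3_E ν.j) := by
    rw [abs_mul]; gcongr
  have h3 : |c * C| ≤ pj ν.j * Pot3_E ν.j := by
    rw [abs_mul]; gcongr
  have h4 : 2 * Lb ν.j * pj ν.j / nn ν.j * (nn ν.j * Pot3_E ν.j) =
      2 * Lb ν.j * (pj ν.j * Pot3_E ν.j) := by field_simp
  have h5 : pj ν.j * Pot3_E ν.j ≤ Lb ν.j * (pj ν.j * Pot3_E ν.j) :=
    le_mul_of_one_le_left (by positivity) hL
  have h6 : 5 * Lb ν.j * (pj ν.j * Pot3_E ν.j) ≤ dl ν := by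
    have c1 := Pot3_cube ν.j
    have c2 := Pot3_Lb ν.j
    have c3 := Mac2_nn_le ν.j
    have ht := tt_pos ν.j
    have c4 : (Lb ν.j : ℝ) * nn ν.j * nn ν.j * tt ν.j ^ 3 ≤ PP ν.j * PP ν.j * PP ν.j * tt ν.j ^ 3 := by
      have := admM_PP_pos ν.j
      gcongr
    have c5 : (Lb ν.j : ℝ) * nn ν.j * nn ν.j * tt ν.j ^ 3 ≤ 1 / 10 ^ 6 := by
      refine c4.trans (le_of_eq_of_le (by ring) c1)
    have c6 := mul_le_mul_of_nonneg_left c5 hp.le
    rw [dl, Pot3_E, le_div_iff₀ hn]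
    linarith
  have h7 := abs_add_three (a * A) (b * B) (c * C)
  linarith

lemma Pot3_al (j k : ℕ) : |al j k| ≤ 2 * Lb j * pj j / nn j := by
  have h1 := al_le j k
  have h2 := al_nonneg j k
  have e : 2 * Lb j * pj j / nn j = 2 * (Lb j * pj j / nn j) := by ring
  rw [abs_of_nonneg h2, e]
  linarith

lemma Pot3_ap (j k : ℕ) : |-ap j k| ≤ 2 * Lb j * pj j / nn j := by
  rw [abs_neg, abs_of_nonneg (ap_nonneg j k)]
  exact ap_le j k

lemma Pot3_al_zero (k : ℕ) : al 0 k = 0 := by simp [al, Af]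

lemma Pot3_ap_zero (j : ℕ) : ap j 0 = 0 := by simp [ap]

lemma Pot3_own (x : Prm) (ν : Nk) (s : Bool) {v : ℂ} (h0 : v ≠ 0) :
    ∑ i, Real.log (‖x.dat.pos (ν, s) + v - x.dat.pos (⟨ν.j, ν.k, i, ν.h1, ν.h2⟩, s)‖ / rho ν.j) =
      (Real.log ‖v‖ - ell ν.j) + ∑ i ∈ univ.erase ν.i,
        Real.log (‖x.dat.pos (ν, s) + v - x.dat.pos (⟨ν.j, ν.k, i, ν.h1, ν.h2⟩, s)‖ / rho ν.j) := by
  rw [← add_sum_erase _ _ (mem_univ ν.i)]
  congr 1
  rw [add_sub_cancel_left, Real.log_div (norm_ne_zero_iff.2 h0) (rho_pos _).ne', ell]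

lemma Pot3_VV (x : Prm) (ν : Nk) : x.VV ν.j (ν.k + 1) = x.VV ν.j ν.k + x.dV ν.j ν.k := by
  rw [Prm.VV, Prm.VV, sum_Ico_succ_top ν.h1, add_assoc]

namespace InK

variable {x : Prm} (hx : InK x)
include hx

lemma Pot3_near (e : Nk × Bool) (hj : 1 ≤ e.1.j) :
    ‖x.dat.pos e - (x.wall e.1.j).p0 (nn e.1.j) e.1.k e.1.i‖ ≤
      11 / 5 * (tt e.1.j ^ 3 * rho e.1.j) := by
  refine (hx.pos_near e hj).trans ?_
  have h1 := (hx.admM_rad hj e.1.h2.le).2
  have h2 : 0 ≤ tt e.1.j ^ 3 := (pow_pos (tt_pos _) 3).le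
  have h3 := mul_le_mul_of_nonneg_left h1 h2
  linarith

lemma Pot3_pair {j k k' : ℕ} (hj : 1 ≤ j) {h1 : 1 ≤ k} {h2 : k < NN j} {h1' : 1 ≤ k'}
    {h2' : k' < NN j} (i i' : ZMod (nn j)) (s s' : Bool) {v : ℂ}
    (hv : ‖v‖ ≤ tt j ^ 3 * rho j / 2)
    (hs : rho j / nn j ≤ ‖(x.wall j).p0 (nn j) k i - (x.wall j).p0 (nn j) k' i'‖) :
    |Real.log (‖x.dat.pos (⟨j, k, i, h1, h2⟩, s) + v - x.dat.pos (⟨j, k', i', h1', h2'⟩, s')‖ /
        rho j) -
      (Real.log ‖(x.wall j).p0 (nn j) k i - (x.wall j).p0 (nn j) k' i'‖ - ell j)| ≤ Pot3_E j := by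
  refine Pot3_log j ?_ hs
  have a1 := hx.Pot3_near (⟨j, k, i, h1, h2⟩, s) hj
  have a2 := hx.Pot3_near (⟨j, k', i', h1', h2'⟩, s') hj
  dsimp only at a1 a2
  have h3 : 0 ≤ tt j ^ 3 * rho j := (mul_pos (pow_pos (tt_pos _) 3) (rho_pos _)).le
  generalize x.dat.pos (⟨j, k, i, h1, h2⟩, s) = p at a1 ⊢
  generalize x.dat.pos (⟨j, k', i', h1', h2'⟩, s') = p' at a2 ⊢
  generalize (x.wall j).p0 (nn j) k i = q at a1 ⊢
  generalize (x.wall j).p0 (nn j) k' i' = q' at a2 ⊢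
  have e : p + v - p' - (q - q') = (p - q) + v - (p' - q') := by ring
  have a3 := norm_sub_le ((p - q) + v) (p' - q')
  have a4 := norm_add_le (p - q) v
  rw [e]
  linarith

lemma Pot3_same (ν : Nk) (s : Bool) {v : ℂ} (hv : ‖v‖ ≤ frm.R (ν, s)) :
    |∑ i ∈ univ.erase ν.i,
        Real.log (‖x.dat.pos (ν, s) + v - x.dat.pos (⟨ν.j, ν.k, i, ν.h1, ν.h2⟩, s)‖ / rho ν.j) -
      (Real.log (nn ν.j) + (nn ν.j - 1) * x.xr ν.j ν.k)| ≤ nn ν.j * Pot3_E ν.j := by
  have hv' := hv.trans (Pot3_R _)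
  obtain ⟨j, k, i, h1, h2⟩ := ν
  dsimp only at hv' ⊢
  rcases Nat.eq_zero_or_pos j with rfl | hj
  · have hs : Subsingleton (ZMod (nn 0)) := ZMod.subsingleton_iff.2 nn_zero
    have he : univ.erase i = ∅ := by
      ext a
      simp [Subsingleton.elim a i]
    have hn : ((nn 0 : ℕ) : ℝ) = 1 := by rw [nn_zero, Nat.cast_one]
    rw [he, sum_empty, hn]
    simpa using Pot3_E_nonneg 0
  have hc : ((univ.erase i).card : ℝ) = nn j - 1 := by
    rw [card_erase_of_mem (mem_univ i), card_univ, ZMod.card, Nat.cast_sub NeZero.one_le,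
      Nat.cast_one]
  have h3 := Pot3_sum (univ.erase i) _ (fun i' =>
      Real.log ‖(x.wall j).p0 (nn j) k i - (x.wall j).p0 (nn j) k i'‖ - ell j)
    (Pot3_E_nonneg j) (n := nn j) (by linarith)
    (fun i' hi => hx.Pot3_pair hj (h1 := h1) (h2 := h2) (h1' := h1) (h2' := h2) i i' s s hv'
      (hx.admM_same hj h2.le (ne_of_mem_erase hi)))
  rw [sum_sub_distrib, w1_log_same, sum_const, nsmul_eq_mul, hc] at h3
  have e : Real.log (nn j) + (nn j - 1) * x.xr j k =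
      (nn j - 1) * (x.wall j).lr k + Real.log (nn j) - (nn j - 1) * ell j := by
    change _ = (nn j - 1) * x.lr j k + _ - _
    rw [Prm.xr]
    ring
  rw [e]
  exact h3

lemma Pot3_cross (ν : Nk) (hj : 1 ≤ ν.j) (s s' : Bool) {v : ℂ} (hv : ‖v‖ ≤ frm.R (ν, s)) {k' : ℕ}
    (h1' : 1 ≤ k') (h2' : k' < NN ν.j) (hk : k' = ν.k + 1 ∨ ν.k = k' + 1) :
    |∑ i, Real.log (‖x.dat.pos (ν, s) + v - x.dat.pos (⟨ν.j, k', i, h1', h2'⟩, s')‖ / rho ν.j) -
      (nn ν.j * x.xr ν.j ν.k + Real.log (1 + Real.exp (nn ν.j * (x.lr ν.j k' - x.lr ν.j ν.k))))| ≤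
      nn ν.j * Pot3_E ν.j := by
  have hv' := hv.trans (Pot3_R _)
  obtain ⟨j, k, i, h1, h2⟩ := ν
  dsimp only at hv' hj h2' hk ⊢
  have hc : (((univ : Finset (ZMod (nn j))).card : ℕ) : ℝ) = nn j := by
    rw [card_univ, ZMod.card]
  have hp : (-1 : ℂ) ^ k' = -(-1) ^ k := by
    rcases hk with rfl | rfl
    · rw [pow_succ]; ring
    · rw [pow_succ]; ring
  have h3 := Pot3_sum (univ : Finset (ZMod (nn j))) _ (fun i' =>
      Real.log ‖(x.wall j).p0 (nn j) k i - (x.wall j).p0 (nn j) k' i'‖ - ell j)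
    (Pot3_E_nonneg j) (n := nn j) hc.le
    (fun i' _ => hx.Pot3_pair hj (h1 := h1) (h2 := h2) (h1' := h1') (h2' := h2') i i' s s' hv'
      (by
        rcases hk with rfl | rfl
        · exact hx.admM_cross hj h2'.le i i'
        · rw [norm_sub_rev]
          exact hx.admM_cross hj h2.le i' i))
  rw [sum_sub_distrib, w1_log_cross hp, sum_const, nsmul_eq_mul, hc] at h3
  have e : nn j * x.xr j k + Real.log (1 + Real.exp (nn j * (x.lr j k' - x.lr j k))) =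
      nn j * (x.wall j).lr k +
        Real.log (1 + Real.exp (nn j * ((x.wall j).lr k' - (x.wall j).lr k))) - nn j * ell j := by
    change _ = nn j * x.lr j k + Real.log (1 + Real.exp (nn j * (x.lr j k' - x.lr j k))) - _
    rw [Prm.xr]
    ring
  rw [e]
  exact h3

lemma Pot3_orig (e : Nk × Bool) (hj : 1 ≤ e.1.j) {v : ℂ} (hv : ‖v‖ ≤ frm.R e) :
    |Real.log (‖x.dat.pos e + v‖ / rho e.1.j) - x.xr e.1.j e.1.k| ≤ Pot3_E e.1.j := by
  have hv' := hv.trans (Pot3_R _)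
  have a1 := hx.Pot3_near e hj
  have h3 : 0 ≤ tt e.1.j ^ 3 * rho e.1.j := (mul_pos (pow_pos (tt_pos _) 3) (rho_pos _)).le
  have hn : ‖(x.wall e.1.j).p0 (nn e.1.j) e.1.k e.1.i‖ = Real.exp (x.lr e.1.j e.1.k) :=
    w1_norm_p0 _ _
  have h4 := Pot3_log e.1.j (a := x.dat.pos e + v)
    (b := (x.wall e.1.j).p0 (nn e.1.j) e.1.k e.1.i) (by
      have a2 := norm_add_le (x.dat.pos e - (x.wall e.1.j).p0 (nn e.1.j) e.1.k e.1.i) v
      rw [sub_add_eq_add_sub] at a2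
      linarith) (by
      have a2 := (hx.admM_rad hj e.1.h2.le).1
      have a3 : (2 : ℝ) ≤ nn e.1.j := by
        have := nn_ge hj
        exact_mod_cast le_trans (by norm_num) this
      have a4 := rho_pos e.1.j
      have a5 : rho e.1.j / nn e.1.j ≤ rho e.1.j / 2 := by gcongr
      rw [hn]
      linarith)
  rwa [hn, Real.log_exp] at h4

theorem fl_lo_neck (ν : Nk) {v : ℂ} (h0 : v ≠ 0) (hv : ‖v‖ ≤ frm.R (ν, false)) :
    |x.fl ν.j ν.k (x.dat.pos (ν, false) + v) - (x.VV ν.j ν.k +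
      al ν.j ν.k * (Real.log ‖v‖ - ell ν.j) + x.h1 ν.j ν.k)| ≤ dl ν := by
  have hA := hx.Pot3_same ν false hv
  have hown := Pot3_own x ν false h0
  have hE := Pot3_E_nonneg ν.j
  have hnE : 0 ≤ nn ν.j * Pot3_E ν.j := mul_nonneg (Mac2_nn_pos _).le hE
  have hk := ν.h1
  have hk2 := ν.h2
  obtain ⟨C, hC, eC⟩ : ∃ C, |C| ≤ Pot3_E ν.j ∧
      po ν.j ν.k * Real.log (‖x.dat.pos (ν, false) + v‖ / rho ν.j) =
        po ν.j ν.k * x.xr ν.j ν.k + po ν.j ν.k * C := by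
    rcases Nat.eq_zero_or_pos ν.j with hj | hj
    · refine ⟨0, by simpa using hE, ?_⟩
      have : po ν.j ν.k = 0 := by rw [hj, po_zero]
      simp [this]
    · exact ⟨_, hx.Pot3_orig (ν, false) hj hv, by ring⟩
  obtain ⟨B, hB, eB⟩ : ∃ B, |B| ≤ nn ν.j * Pot3_E ν.j ∧
      ringSum (fun e => (if e.2 then -ap e.1.j e.1.k else al e.1.j e.1.k) *
        Real.log (‖x.dat.pos (ν, false) + v - x.dat.pos e‖ / rho ν.j)) true ν.j (ν.k - 1) =
        -ap ν.j (ν.k - 1) * (nn ν.j * x.xr ν.j ν.k + Real.log (1 + Real.exp (x.y ν.j (ν.k - 1)))) +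
          -ap ν.j (ν.k - 1) * B := by
    by_cases h : 1 ≤ ν.k - 1
    · have h2 : ν.k - 1 < NN ν.j := by omega
      have hj : 1 ≤ ν.j := by
        by_contra hc
        have : ν.j = 0 := by omega
        rw [this, NN_zero] at hk2
        omega
      have h3 := hx.Pot3_cross ν hj false true hv h h2 (.inr (by omega))
      have h4 : nn ν.j * (x.lr ν.j (ν.k - 1) - x.lr ν.j ν.k) = x.y ν.j (ν.k - 1) := by
        rw [← x.wall_y h, x.Mac1_y, Nat.sub_add_cancel hk]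
      rw [h4] at h3
      refine ⟨_, h3, ?_⟩
      rw [ringSum, dif_pos ⟨h, h2⟩]
      simp only [if_true]
      rw [← mul_sum]
      ring
    · have h2 : ν.k - 1 = 0 := by omega
      refine ⟨0, by simpa using hnE, ?_⟩
      rw [ringSum, dif_neg (fun hc => h hc.1), h2, Pot3_ap_zero]
      ring
  have h5 := Pot3_total ν (Pot3_al ν.j ν.k) (Pot3_ap ν.j (ν.k - 1))
    (c := -po ν.j ν.k) (by rw [abs_neg]; exact Pot3_po hk) hA hB hC
  refine le_of_eq_of_le ?_ h5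
  congr 1
  rw [Prm.fl, wallSum, eB, eC, ringSum, dif_pos ⟨hk, hk2⟩]
  simp only [Bool.false_eq_true, if_false]
  rw [← mul_sum, hown, Prm.h1]
  ring

theorem fl_up_neck (ν : Nk) {v : ℂ} (h0 : v ≠ 0) (hv : ‖v‖ ≤ frm.R (ν, true)) :
    |x.fl ν.j (ν.k + 1) (x.dat.pos (ν, true) + v) - (x.VV ν.j (ν.k + 1) -
      ap ν.j ν.k * (Real.log ‖v‖ - ell ν.j) + x.h2 ν.j ν.k)| ≤ dl ν := by
  have hA := hx.Pot3_same ν true hv
  have hown := Pot3_own x ν true h0
  have hE := Pot3_E_nonneg ν.j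
  have hnE : 0 ≤ nn ν.j * Pot3_E ν.j := mul_nonneg (Mac2_nn_pos _).le hE
  have hk := ν.h1
  have hk2 := ν.h2
  obtain ⟨C, hC, eC⟩ : ∃ C, |C| ≤ Pot3_E ν.j ∧
      po ν.j (ν.k + 1) * Real.log (‖x.dat.pos (ν, true) + v‖ / rho ν.j) =
        po ν.j (ν.k + 1) * x.xr ν.j ν.k + po ν.j (ν.k + 1) * C := by
    rcases Nat.eq_zero_or_pos ν.j with hj | hj
    · refine ⟨0, by simpa using hE, ?_⟩
      have : po ν.j (ν.k + 1) = 0 := by rw [hj, po_zero]
      simp [this]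
    · exact ⟨_, hx.Pot3_orig (ν, true) hj hv, by ring⟩
  obtain ⟨B, hB, eB⟩ : ∃ B, |B| ≤ nn ν.j * Pot3_E ν.j ∧
      ringSum (fun e => (if e.2 then -ap e.1.j e.1.k else al e.1.j e.1.k) *
        Real.log (‖x.dat.pos (ν, true) + v - x.dat.pos e‖ / rho ν.j)) false ν.j (ν.k + 1) =
        al ν.j (ν.k + 1) * (nn ν.j * x.xr ν.j ν.k + Real.log (1 + Real.exp (-x.y ν.j ν.k))) +
          al ν.j (ν.k + 1) * B := by
    by_cases h2 : ν.k + 1 < NN ν.j
    · have h : 1 ≤ ν.k + 1 := by omega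
      have hj : 1 ≤ ν.j := by
        by_contra hc
        have : ν.j = 0 := by omega
        rw [this, NN_zero] at h2
        omega
      have h3 := hx.Pot3_cross ν hj true false hv h h2 (.inl rfl)
      have h4 : nn ν.j * (x.lr ν.j (ν.k + 1) - x.lr ν.j ν.k) = -x.y ν.j ν.k := by
        rw [← x.wall_y hk, x.Mac1_y]
        ring
      rw [h4] at h3
      refine ⟨_, h3, ?_⟩
      rw [ringSum, dif_pos ⟨h, h2⟩]
      simp only [Bool.false_eq_true, if_false]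
      rw [← mul_sum]
      ring
    · refine ⟨0, by simpa using hnE, ?_⟩
      rw [ringSum, dif_neg (fun hc => h2 hc.2), al_out (not_lt.1 h2)]
      ring
  have h5 := Pot3_total ν (Pot3_ap ν.j ν.k) (Pot3_al ν.j (ν.k + 1))
    (c := -po ν.j (ν.k + 1)) (by rw [abs_neg]; exact Pot3_po (by omega)) hA hB hC
  refine le_of_eq_of_le ?_ h5
  congr 1
  rw [Prm.fl, wallSum, eB, eC, Nat.add_sub_cancel, ringSum, dif_pos ⟨hk, hk2⟩]
  simp only [if_true]
  rw [← mul_sum, hown, Prm.h2]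
  ring

lemma Pot3_bet (e : Nk × Bool) : 0 < ‖x.dat.bet e‖ ∧
    (ap e.1.j e.1.k + al e.1.j e.1.k) *
      |Real.log ‖x.dat.bet e‖ - Real.log ((x.wall e.1.j).c e.1.k)| ≤ dl e.1 := by
  have hP := admM_PP_pos e.1.j
  have hP1 := admM_PP_one e.1.j
  have ht := tt_pos e.1.j
  have hc := hx.c_ge e.1
  have hc0 : 0 < (x.wall e.1.j).c e.1.k := lt_of_lt_of_le (by positivity) hc
  have h1 := hx.bet_near e
  have h2 := hx.ε_le e.1.j e.1.k e.1.i
  have h3 : tt e.1.j ^ 28 ≤ tt e.1.j ^ 3 :=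
    pow_le_pow_of_le_one ht.le (admM_tt_one _) (by norm_num)
  have h4 := Pot3_cube e.1.j
  have h5 : PP e.1.j ^ 2 * tt e.1.j ^ 3 ≤ PP e.1.j ^ 3 * tt e.1.j ^ 3 := by
    gcongr
    norm_num
  have h6 : |‖x.dat.bet e‖ - (x.wall e.1.j).c e.1.k| ≤
      PP e.1.j ^ 2 * tt e.1.j ^ 3 * (x.wall e.1.j).c e.1.k := by
    rw [Pos_bq] at h1
    have a1 := abs_add_le (‖x.dat.bet e‖ - ((x.wall e.1.j).c e.1.k + x.ε e.1.j e.1.k e.1.i))
      (x.ε e.1.j e.1.k e.1.i)
    have a2 : ‖x.dat.bet e‖ - ((x.wall e.1.j).c e.1.k + x.ε e.1.j e.1.k e.1.i) +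
      x.ε e.1.j e.1.k e.1.i = ‖x.dat.bet e‖ - (x.wall e.1.j).c e.1.k := by ring
    rw [a2] at a1
    calc _ ≤ 2 * tt e.1.j ^ 3 := by linarith
      _ = PP e.1.j ^ 2 * tt e.1.j ^ 3 * (2 * (PP e.1.j)⁻¹ ^ 2) := by field_simp
      _ ≤ _ := by gcongr
  obtain ⟨hb, h7⟩ := Pot3_log_real hc0 (by linarith) h6
  refine ⟨hb, ?_⟩
  have hn := Mac2_nn_pos e.1.j
  have hp := pj_pos e.1.j
  have hL := Pot3_Lb e.1.j
  have h8 : ap e.1.j e.1.k + al e.1.j e.1.k ≤ 3 * PP e.1.j * (pj e.1.j / nn e.1.j) := by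
    have a1 := al_le e.1.j e.1.k
    have a2 := ap_le e.1.j e.1.k
    have a3 : Lb e.1.j * (pj e.1.j / nn e.1.j) ≤ PP e.1.j * (pj e.1.j / nn e.1.j) := by gcongr
    have e1 : Lb e.1.j * pj e.1.j / nn e.1.j = Lb e.1.j * (pj e.1.j / nn e.1.j) := by ring
    have e2 : 2 * Lb e.1.j * pj e.1.j / nn e.1.j = 2 * (Lb e.1.j * (pj e.1.j / nn e.1.j)) := by ring
    linarith
  have h9 : 0 ≤ pj e.1.j / nn e.1.j := by positivity
  calc _ ≤ 3 * PP e.1.j * (pj e.1.j / nn e.1.j) * (2 * (PP e.1.j ^ 2 * tt e.1.j ^ 3)) := by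
        gcongr
    _ = 6 * (PP e.1.j ^ 3 * tt e.1.j ^ 3) * (pj e.1.j / nn e.1.j) := by ring
    _ ≤ 1 / 100 * (pj e.1.j / nn e.1.j) := by
        gcongr
        linarith
    _ = _ := by rw [dl]; ring

lemma Pot3_big (e : Nk × Bool) {v : ℂ} (h1 : frm.R e / 4 ≤ ‖v‖) :
    81 * ‖x.dat.bet e‖ ≤ ‖v‖ := by
  have a1 := hx.admM_bet_le (e := e) (l := e.1.j) (by omega)
  have a2 := admM_PP_le e.1.j
  have a3 : (tt e.1.j)⁻¹ ≤ (tt e.1.j)⁻¹ ^ 16 := le_self_pow₀ (admM_inv_one _) (by norm_num)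
  have a4 : frm.R e = (tt e.1.j)⁻¹ ^ 16 := rfl
  have a5 := norm_nonneg (x.dat.bet e)
  linarith

theorem fl_cmp (e : Nk × Bool) {v : ℂ} (h1 : frm.R e / 4 ≤ ‖v‖) (h2 : ‖v‖ ≤ frm.R e) :
    x.fl e.1.j (e.1.k + if e.2 then 1 else 0) (x.dat.pos e + v) + dl e.1 ≤
      x.fl e.1.j (e.1.k + if e.2 then 0 else 1) (x.dat.par e v) := by
  obtain ⟨hb, hc⟩ := hx.Pot3_bet e
  have hbig := hx.Pot3_big e h1
  have hv : 0 < ‖v‖ := by linarith
  have h0 : v ≠ 0 := norm_pos_iff.1 hv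
  have hlog : 4 ≤ Real.log ‖v‖ - Real.log ‖x.dat.bet e‖ := by
    rw [← Real.log_div hv.ne' hb.ne', Real.le_log_iff_exp_le (div_pos hv hb), le_div_iff₀ hb]
    have a1 : Real.exp 4 = Real.exp 1 ^ 4 := by rw [← Real.exp_nat_mul]; norm_num
    have a2 : Real.exp 1 ^ 4 ≤ 3 ^ 4 :=
      pow_le_pow_left₀ (Real.exp_pos 1).le (by linarith [Real.exp_one_lt_d9]) 4
    have a3 : Real.exp 4 * ‖x.dat.bet e‖ ≤ 81 * ‖x.dat.bet e‖ :=
      mul_le_mul_of_nonneg_right (by linarith) hb.le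
    linarith
  obtain ⟨w, hw, ew⟩ : ∃ w : ℂ, ‖w‖ = ‖x.dat.bet e‖ ^ 2 / ‖v‖ ∧
      x.dat.par e v = x.dat.pos (opp e) + w := ⟨conj (x.dat.bet e ^ 2 / v), by simp, rfl⟩
  have hw0 : w ≠ 0 := norm_pos_iff.1 (by rw [hw]; positivity)
  have hwR : ‖w‖ ≤ frm.R e := by
    refine le_trans ?_ h2
    rw [hw, div_le_iff₀ hv]
    nlinarith
  have hlw : Real.log ‖w‖ = 2 * Real.log ‖x.dat.bet e‖ - Real.log ‖v‖ := by
    rw [hw, Real.log_div (by positivity) hv.ne', Real.log_pow]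
    norm_num
  have hd := ap_sub e.1
  have hd0 : 0 ≤ dl e.1 := by
    have := pj_pos e.1.j
    unfold dl
    positivity
  have hs : 0 ≤ ap e.1.j e.1.k + al e.1.j e.1.k := add_nonneg (ap_nonneg _ _) (al_nonneg _ _)
  have hm := mul_le_mul_of_nonneg_left hlog hd0
  have hV := Pot3_VV x e.1
  rw [Prm.dV] at hV
  rw [ew]
  obtain ⟨ν, _ | _⟩ := e
  · have b1 := (abs_le.1 (hx.fl_lo_neck ν h0 h2)).2
    have b2 := (abs_le.1 (hx.fl_up_neck ν hw0 hwR)).1
    have b3 := mul_le_mul_of_nonneg_left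
      (le_abs_self (Real.log ‖x.dat.bet (ν, false)‖ - Real.log ((x.wall ν.j).c ν.k))) hs
    simp only [Bool.false_eq_true, if_false, add_zero]
    change _ ≤ x.fl ν.j (ν.k + 1) (x.dat.pos (ν, true) + w)
    dsimp only at hc hV hd hd0 hs hm b3
    rw [hlw] at b2
    rw [← hd] at hm hc b1 b2 ⊢
    nlinarith
  · have b1 := (abs_le.1 (hx.fl_up_neck ν h0 h2)).2
    have b2 := (abs_le.1 (hx.fl_lo_neck ν hw0 hwR)).1
    have b3 := mul_le_mul_of_nonneg_left
      (neg_abs_le (Real.log ‖x.dat.bet (ν, true)‖ - Real.log ((x.wall ν.j).c ν.k))) hs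
    simp only [if_true, add_zero]
    change _ ≤ x.fl ν.j ν.k (x.dat.pos (ν, false) + w)
    dsimp only at hc hV hd hd0 hs hm b3
    rw [hlw] at b2
    rw [← hd] at hm hc b1 b2 ⊢
    nlinarith

end InK

end Pool.Agent.MP_943ae2_gt

end
end

section

open Set Complex Filter Finset
open scoped Topology ComplexConjugate ContDiff

noncomputable section

namespace Pool.Agent.MP_943ae2_gt

open InnerProductSpace in
theorem Pot4_log (c : ℝ) {r : ℝ} (hr : 0 < r) {p z : ℂ} (h : z ≠ p) :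
    HarmonicAt (fun y : ℂ => c * Real.log (‖y - p‖ / r)) z := by
  have h1 : AnalyticAt ℂ (fun y : ℂ => (y - p) / (r : ℂ)) z := by fun_prop (disch := skip)
  have h2 : (z - p) / (r : ℂ) ≠ 0 :=
    div_ne_zero (sub_ne_zero.2 h) (ofReal_ne_zero.2 hr.ne')
  have h3 := (h1.harmonicAt_log_norm h2).const_smul (c := c)
  refine (harmonicAt_congr_nhds (Eventually.of_forall fun y => ?_)).1 h3
  simp [abs_of_pos hr]

open InnerProductSpace in
theorem Pot4_sum {ι : Type} (s : Finset ι) (f : ι → ℂ → ℝ) {z : ℂ}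
    (h : ∀ i ∈ s, HarmonicAt (f i) z) : HarmonicAt (fun y => ∑ i ∈ s, f i y) z := by
  classical
  induction s using Finset.induction_on with
  | empty => simp
  | insert a s ha ih =>
    simp only [sum_insert ha]
    exact (h a (mem_insert_self _ _)).add (ih fun i hi => h i (mem_insert_of_mem hi))

open InnerProductSpace in
theorem Pot4_ring (f : Nk × Bool → ℂ → ℝ) (s : Bool) (j k : ℕ) {z : ℂ}
    (h : ∀ e : Nk × Bool, e.1.j = j → e.1.k = k → e.2 = s → HarmonicAt (f e) z) :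
    HarmonicAt (fun y => ringSum (fun e => f e y) s j k) z := by
  unfold ringSum
  split_ifs with hk
  · exact Pot4_sum _ (fun i => f (⟨j, k, i, hk.1, hk.2⟩, s)) fun i _ => h _ rfl rfl rfl
  · simp

open InnerProductSpace in
theorem Pot4_wall (f : Nk × Bool → ℂ → ℝ) (j i : ℕ) {z : ℂ}
    (h : ∀ e : Nk × Bool, e.1.j = j → (e.1.k + if e.2 then 1 else 0) = i → HarmonicAt (f e) z) :
    HarmonicAt (fun y => wallSum (fun e => f e y) j i) z := by
  refine (Pot4_ring f false j i fun e h1 h2 h3 => h e h1 ?_).add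
    (Pot4_ring f true j (i - 1) fun e h1 h2 h3 => h e h1 ?_)
  · simp [h2, h3]
  · have := e.1.h1
    simp only [h3, if_true]
    omega

theorem Pot4_R (e : Nk × Bool) : 0 < frm.R e ∧ 1000 * frm.R e ≤ rho e.1.j := by
  have h1 : (1000 : ℝ) ≤ (tt e.1.j)⁻¹ := by
    rw [le_inv_comm₀ (by norm_num) (tt_pos _), ← one_div]
    exact tt_le _
  have h2 : (tt e.1.j)⁻¹ ≤ (tt e.1.j)⁻¹ ^ 16 := le_self_pow₀ (by linarith) (by norm_num)
  have h3 : rho e.1.j = (tt e.1.j)⁻¹ ^ 16 * (tt e.1.j)⁻¹ ^ 16 := by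
    rw [rho, ← pow_add]
  have h4 : frm.R e = (tt e.1.j)⁻¹ ^ 16 := rfl
  rw [h3, h4]
  exact ⟨by linarith, mul_le_mul_of_nonneg_right (by linarith) (by linarith)⟩

theorem Pot4_rho (j : ℕ) : 1000 * rho j ≤ rho (j + 1) := by
  have h1 : (1000 : ℝ) ≤ (tt j)⁻¹ := by
    rw [le_inv_comm₀ (by norm_num) (tt_pos _), ← one_div]
    exact tt_le _
  have h2 : (tt j)⁻¹ ≤ rho j := le_self_pow₀ (by linarith) (by norm_num)
  have h3 : rho j ≤ rho j ^ 3 := le_self_pow₀ (by linarith) (by norm_num)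
  rw [rho_succ, pow_succ]
  exact mul_le_mul_of_nonneg_right (by linarith) (by linarith)

theorem Pot4_phi (x : Prm) {j a : ℕ} (h1 : 1 ≤ a) (h2 : a ≤ Mt j) :
    x.phi (bs (j + 1) + a - 1) = x.fb j a := by
  have := le_bs (j + 1)
  funext z
  rw [Prm.phi, if_neg (by omega), lev_block h1 h2]
  congr 1
  omega

theorem Pot4_ne {x : Prm} {k : ℕ} {z : ℂ} (hz : z ∈ frm.U x.dat k) {e : Nk × Bool}
    (he : e ∈ frm.sides k) : z ≠ x.dat.pos e := by
  intro h
  have h1 := hz e he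
  have h2 : 0 ≤ ‖x.dat.bet e‖ ^ 2 / frm.R e := div_nonneg (by positivity) (Pot4_R e).1.le
  rw [h, sub_self, norm_zero] at h1
  linarith

namespace InK

variable {x : Prm} (hx : InK x)
include hx

theorem fl_harm {j i : ℕ} (h1 : 1 ≤ i) (h2 : i ≤ NN j) {z : ℂ}
    (hz : ∀ e : Nk × Bool, e.1.j = j → (e.1.k + if e.2 then 1 else 0) = i → z ≠ x.dat.pos e)
    (h0 : z ≠ 0 ∨ po j i = 0) : InnerProductSpace.HarmonicAt (x.fl j i) z := by
  have ha := Pot4_wall (fun e y => (if e.2 then -ap e.1.j e.1.k else al e.1.j e.1.k) *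
    Real.log (‖y - x.dat.pos e‖ / rho j)) j i fun e h3 h4 => Pot4_log _ (rho_pos j) (hz e h3 h4)
  have hb : InnerProductSpace.HarmonicAt (fun y : ℂ => po j i * Real.log (‖y‖ / rho j)) z := by
    rcases h0 with h0 | h0
    · simpa using Pot4_log (po j i) (rho_pos j) h0
    · simp [h0]
  exact ((InnerProductSpace.harmonicAt_const (x.VV j i)).add ha).sub hb

theorem phi_near (e : Nk × Bool) {z : ℂ} (hz : ‖z - x.dat.pos e‖ < 3 * frm.R e) :
    x.phi (frm.lay e) z = x.fl e.1.j (e.1.k + if e.2 then 1 else 0) z := by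
  have h1 : 1 ≤ e.1.k + if e.2 then 1 else 0 := by have := e.1.h1; omega
  have h2 : (e.1.k + if e.2 then 1 else 0) ≤ NN e.1.j := by
    have := e.1.h2
    split_ifs <;> omega
  have h3 := Pot4_R e
  have h4 := hx.pos_le e
  have h5 := hx.pos_ge e
  have h6 := abs_le.1 (abs_norm_sub_norm_le z (x.dat.pos e))
  rw [lay_eq]
  generalize (e.1.k + if e.2 then 1 else 0) = i at *
  generalize e.1.j = j at *
  by_cases h : i ≤ Lb j
  · rcases j with _ | j
    · obtain rfl : i = 1 := le_antisymm h h1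
      rfl
    · have h7 := Pot4_rho j
      have h8 := rho_pos j
      have h9 := h5 (by omega)
      rw [Pot4_phi x (j := j) h1 h, Prm.fb, if_neg (by linarith [h6.1]), if_pos (by linarith [h6.1])]
  · obtain ⟨a, rfl⟩ := Nat.exists_eq_add_of_le (not_le.1 h).le
    rw [← add_assoc, ← Cst_bs, Pot4_phi x (by omega) (by unfold NN at h2; omega), Prm.fb,
      if_pos (by linarith [h6.2])]

theorem phi_sup (k : ℕ) : SupOn (x.phi k) (frm.U x.dat k) := by
  intro z hz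
  suffices h : SupOn (x.phi k) {z} from h z rfl
  rcases layer_cases k with rfl | ⟨j, a, h1, h2, rfl⟩
  · refine supOn_of_harm (hx.fl_harm (j := 0) (i := 1) le_rfl (by decide)
      (fun e h3 h4 => Pot4_ne hz ?_) (.inr (po_zero 1)))
    exact (mem_sides_wall (j := 0) (i := 1) le_rfl (by decide) e).2 (.inl ⟨h3, h4⟩)
  have h3 : Lb j + a ≤ NN j := Nat.add_le_add_left h2 _
  have h4 : a ≤ NN (j + 1) := h2.trans (Nat.le_add_right _ _)
  have hf : SupOn (x.fl j (Lb j + a)) {z} := by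
    refine supOn_of_harm (hx.fl_harm (by omega) h3 (fun e h5 h6 => Pot4_ne hz ?_)
      (.inr (po_top (by omega))))
    rw [Cst_bs, add_assoc]
    exact (mem_sides_wall (by omega) h3 e).2 (.inl ⟨h5, h6⟩)
  have hg : z ≠ 0 → SupOn (x.fl (j + 1) a) {z} := fun h0 =>
    supOn_of_harm (hx.fl_harm h1 h4 (fun e h5 h6 => Pot4_ne hz
      ((mem_sides_wall h1 h4 e).2 (.inl ⟨h5, h6⟩))) (.inl h0))
  have h7 := Pot4_rho j
  have h8 := rho_pos j
  have hlt : ∀ r : ℝ, ‖z‖ < r → ∀ᶠ y in 𝓝 z, ‖y‖ < r := fun r hr =>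
    continuous_norm.continuousAt.eventually (gt_mem_nhds hr)
  have hgt : ∀ r : ℝ, r < ‖z‖ → ∀ᶠ y in 𝓝 z, r < ‖y‖ := fun r hr =>
    continuous_norm.continuousAt.eventually (lt_mem_nhds hr)
  rw [Pot4_phi x h1 h2]
  by_cases c1 : ‖z‖ < 4 * rho j
  · refine supOn_congr hf ?_
    filter_upwards [hlt _ c1] with y hy
    rw [Prm.fb]
    split_ifs with d1 d2
    · rfl
    · linarith
    · exact smin_left (pj_pos j) (hx.ann_in h1 h2 (by linarith) hy.le)
  have h0 : z ≠ 0 := by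
    rintro rfl
    rw [norm_zero] at c1
    linarith
  by_cases c2 : rho (j + 1) / 4 < ‖z‖
  · refine supOn_congr (hg h0) ?_
    filter_upwards [hgt _ c2] with y hy
    rw [Prm.fb]
    split_ifs with d1 d2
    · linarith
    · rfl
    · exact smin_right (pj_pos j) (hx.ann_out h1 h2 hy.le (by linarith))
  · refine supOn_congr (smin_sup (pj_pos j) hf (hg h0)) ?_
    filter_upwards [hgt (3 * rho j) (by linarith), hlt (rho (j + 1) / 3) (by linarith)]
      with y hy hy'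
    rw [Prm.fb, if_neg (not_le.2 hy), if_neg (not_le.2 hy')]

end InK

end Pool.Agent.MP_943ae2_gt

end
end

section

open Set Complex Filter Finset
open scoped Topology ComplexConjugate ContDiff

noncomputable section

namespace Pool.Agent.MP_943ae2_gt

lemma Pot5_ell (j : ℕ) : 90000 ≤ ell j :=
  le_trans (le_mul_of_one_le_right (by norm_num) (one_le_pow₀ (by norm_num))) (ell_ge j)

lemma Pot5_pe (j : ℕ) : pj j * ell j ≤ ell 0 := by
  induction j with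
  | zero => simp [pj]
  | succ j ih =>
    have h1 : 0 ≤ pj j * ell j := mul_nonneg (pj_pos j).le (by linarith [Pot5_ell j])
    have e : pj (j + 1) * ell (j + 1) = 92 / 100 * (pj j * ell j) := by
      rw [ell_succ, pj, pj, pow_succ]
      ring
    linarith

lemma Pot5_inv (j : ℕ) : 1000 ≤ (tt j)⁻¹ := by
  rw [le_inv_comm₀ (by norm_num) (tt_pos j)]
  linarith [tt_le j]

lemma Pot5_R (e : Nk × Bool) : 1000 ≤ frm.R e ∧ rho e.1.j = frm.R e ^ 2 := by
  have h := Pot5_inv e.1.j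
  refine ⟨h.trans (le_self_pow₀ (by linarith) (by norm_num)), ?_⟩
  rw [rho, Frm.R, ← pow_mul]
  rfl

lemma Pot5_rho (j : ℕ) : 1000 ≤ rho j :=
  (Pot5_inv j).trans (le_self_pow₀ (by linarith [Pot5_inv j]) (by norm_num))

lemma Pot5_rho3 (j : ℕ) : 3 * rho j ≤ rho (j + 1) := by
  have h := Pot5_rho j
  have h1 : rho j ≤ rho j ^ 3 := le_self_pow₀ (by linarith) (by norm_num)
  rw [rho_succ, pow_succ]
  exact mul_le_mul_of_nonneg_right (by linarith) (by linarith)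

lemma Pot5_log {j : ℕ} {r : ℝ} (h0 : 0 ≤ r) (h : r ≤ rho (j + 1)) :
    Real.log (r / rho j) ≤ 3 * ell j := by
  have h1 := rho_pos j
  rcases h0.eq_or_lt with rfl | h0
  · rw [zero_div, Real.log_zero]
    linarith [Pot5_ell j]
  · refine (Real.log_le_log (y := rho j ^ 3) (by positivity) ?_).trans (le_of_eq ?_)
    · rwa [div_le_iff₀ h1, ← pow_succ, ← rho_succ]
    · rw [Real.log_pow, ell]
      norm_num

lemma Pot5_phi (x : Prm) {j a : ℕ} (h1 : 1 ≤ a) (h2 : a ≤ Mt j) (z : ℂ) :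
    x.phi (bs (j + 1) + a - 1) z = x.fb j a z := by
  have := le_bs (j + 1)
  rw [Prm.phi, if_neg (by omega), lev_block h1 h2]
  congr 1
  omega

namespace InK

variable {x : Prm} (hx : InK x)
include hx

lemma Pot5_top {j a : ℕ} (h1 : 1 ≤ a) (h2 : a ≤ Mt j) {z : ℂ}
    (hz : z ∈ frm.U x.dat (bs (j + 1) + a - 1)) (h : ‖z‖ ≤ rho (j + 1)) :
    79 * ell 0 ≤ x.fl j (Lb j + a) z := by
  have hi : Lb j + a ≤ NN j := Nat.add_le_add_left h2 _
  have b1 := hx.VV_ge hi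
  rcases Nat.eq_zero_or_pos j with rfl | hj
  · obtain rfl : a = 1 := le_antisymm h2 h1
    have b2 := Pot5_log (norm_nonneg z) h
    have b3 := hx.fl_zero_two z
    have b4 := Pot5_ell 0
    change 80 * ell 0 ≤ x.VV 0 2 at b1
    change _ ≤ x.fl 0 2 z
    linarith
  · have b2 := hx.fl_low hj (by omega) hi (z := z) (by rwa [← Nat.add_assoc, ← Cst_bs])
    rw [po_top (by omega), top_slope hj (by omega) hi] at b2
    have b3 := Pot5_log (j := j) (r := max ‖z‖ (rho j)) (le_max_of_le_left (norm_nonneg z))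
      (max_le h (by linarith [Pot5_rho3 j, rho_pos j]))
    have b4 := mul_le_mul_of_nonneg_left b3 (pj_pos j).le
    have b5 := Pot5_pe j
    have b6 := Pot5_ell 0
    linarith

lemma Pot5_bot {j a : ℕ} (h1 : 1 ≤ a) (h2 : a ≤ Mt j) {z : ℂ}
    (hz : z ∈ frm.U x.dat (bs (j + 1) + a - 1)) (h : 0 < ‖z‖) :
    79 * ell 0 ≤ x.fl (j + 1) a z := by
  have hi : a ≤ NN (j + 1) := h2.trans (Nat.le_add_right _ _)
  have b1 := hx.VV_ge hi
  have b2 := hx.fl_low (by omega) h1 hi hz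
  have e : (nn (j + 1) : ℝ) * (al (j + 1) a - ap (j + 1) (a - 1)) = po (j + 1) a := by
    rw [po, if_pos (show a ≤ Lb (j + 1) from h2)]
  have b3 : 0 ≤ po (j + 1) a :=
    le_trans (mul_nonneg (by norm_num) (pj_pos _).le)
      (po_bot (j := j + 1) (by omega) h1 h2).1
  have b4 : Real.log (‖z‖ / rho (j + 1)) ≤ Real.log (max ‖z‖ (rho (j + 1)) / rho (j + 1)) :=
    Real.log_le_log (div_pos h (rho_pos _))
      (div_le_div_of_nonneg_right (le_max_left _ _) (rho_pos _).le)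
  have b5 := mul_le_mul_of_nonneg_left b4 b3
  have b6 := Pot5_pe (j + 1)
  have b7 := Pot5_ell 0
  rw [e] at b2
  linarith

theorem phi_low (k : ℕ) : ∀ z ∈ frm.U x.dat k, 2 ≤ x.phi k z := by
  intro z hz
  have b0 := Pot5_ell 0
  rcases layer_cases k with rfl | ⟨j, a, h1, h2, rfl⟩
  · rw [Prm.phi, if_pos rfl, fl_zero_one]
    linarith
  have r0 := rho_pos j
  have r1 := rho_pos (j + 1)
  rw [Pot5_phi x h1 h2, Prm.fb]
  split_ifs with c1 c2
  · linarith [hx.Pot5_top h1 h2 hz (c1.trans (Pot5_rho3 j))]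
  · linarith [hx.Pot5_bot h1 h2 hz (by linarith)]
  · have b1 := le_min (hx.Pot5_top h1 h2 hz (by linarith)) (hx.Pot5_bot h1 h2 hz (by linarith))
    have b2 := smin_ge (a := x.fl j (Lb j + a) z) (b := x.fl (j + 1) a z) (pj_pos j)
    linarith [pj_le j]

lemma Pot5_harm (e : Nk × Bool) (z : ℂ) (h0 : 0 < ‖z - x.dat.pos e‖)
    (h : ‖z - x.dat.pos e‖ < 2 * frm.R e) : InnerProductSpace.HarmonicAt (x.phi (frm.lay e)) z := by
  obtain ⟨r1, r2⟩ := Pot5_R e
  have hev : x.phi (frm.lay e) =ᶠ[𝓝 z] x.fl e.1.j (e.1.k + if e.2 then 1 else 0) := by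
    have ho : IsOpen {y : ℂ | ‖y - x.dat.pos e‖ < 3 * frm.R e} :=
      isOpen_lt (by fun_prop) continuous_const
    filter_upwards [ho.mem_nhds (show ‖z - x.dat.pos e‖ < 3 * frm.R e by linarith)] with y hy
    exact hx.phi_near e hy
  rw [InnerProductSpace.harmonicAt_congr_nhds hev]
  refine hx.fl_harm (admM_loc e).1 (admM_loc e).2 (fun μ m1 m2 hc => ?_) ?_
  · by_cases hμ : μ = e
    · rw [hc, hμ, sub_self, norm_zero] at h0
      exact lt_irrefl _ h0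
    · have := hx.adm.sep e μ (mem_oth.2 ⟨hμ, by rw [lay_eq, lay_eq, m2, m1]⟩)
      rw [hc, norm_sub_rev] at h
      linarith
  · rcases Nat.eq_zero_or_pos e.1.j with hj | hj
    · right
      rw [hj, po_zero]
    · left
      rintro rfl
      have := hx.pos_ge e hj
      rw [zero_sub, norm_neg] at h
      nlinarith

lemma Pot5_cmp (e : Nk × Bool) (v : ℂ) (h1 : frm.R e / 4 ≤ ‖v‖) (h2 : ‖v‖ ≤ frm.R e) :
    x.phi (frm.lay e) (x.dat.pos e + v) + dl e.1 ≤ x.phi (frm.lay (opp e)) (x.dat.par e v) := by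
  obtain ⟨r1, -⟩ := Pot5_R e
  have b1 : ‖x.dat.bet e‖ ^ 2 ≤ frm.R e := by
    have t1 := Pot5_inv e.1.j
    exact (pow_le_pow_left₀ (norm_nonneg _) (hx.adm.bet_le e) 2).trans
      (pow_le_pow_right₀ (le_trans (by norm_num) t1) (by norm_num))
  rw [hx.phi_near e (by rw [add_sub_cancel_left]; linarith), hx.phi_near (opp e) (by
    rw [norm_par_sub, R_opp, div_lt_iff₀ (by linarith)]
    nlinarith)]
  have := hx.fl_cmp e h1 h2
  rcases e with ⟨ν, _ | _⟩ <;> exact this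

lemma Pot5_far {e : Nk × Bool} (he : e ∈ frm.sides 1) {r : ℝ} (h1 : rho 0 ≤ r)
    (h2 : r ≤ 2 * rho 0) : frm.R e ≤ ‖(r : ℂ) - x.dat.pos e‖ := by
  obtain ⟨r1, r2⟩ := Pot5_R e
  have r0 := Pot5_rho 0
  have hn : ‖(r : ℂ)‖ = r := by rw [norm_real, Real.norm_eq_abs, abs_of_nonneg (by linarith)]
  rcases (mem_sides_wall (j := 0) (i := 2) (by norm_num) le_rfl e).1 he with h | h | h
  · rw [hx.pos_zero e h.1, sub_zero, hn]
    rw [h.1] at r2
    nlinarith
  · exact absurd h.1 (by decide)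
  · have b1 := hx.pos_ge e (by omega)
    have b2 := norm_sub_norm_le (x.dat.pos e) r
    have b3 : frm.R e = rho 0 ^ 2 := by
      refine (pow_left_inj₀ (by linarith) (by positivity) two_ne_zero).1 ?_
      rw [← r2, h.2.1, rho_succ, ← pow_mul]
    rw [norm_sub_rev, hn] at b2
    rw [r2] at b1
    nlinarith

lemma Pot5_pots : frm.Pots x.dat x.phi dl where
  δ_pos ν := div_pos (div_pos (pj_pos _) (by norm_num)) (Mac2_nn_pos _)
  δ_le ν := by
    rw [dl, div_le_one (Mac2_nn_pos _)]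
    linarith [pj_le ν.j, Mac2_nn_one ν.j]
  sup := hx.phi_sup
  harm := hx.Pot5_harm
  low := hx.phi_low
  cmp := hx.Pot5_cmp
  nc := by
    have r0 := rho_pos 0
    refine ⟨1, (rho 0 : ℝ), (2 * rho 0 : ℝ), fun e he => ⟨hx.Pot5_far he le_rfl (by linarith),
      hx.Pot5_far he (by linarith) le_rfl⟩, ?_⟩
    have e : ∀ r : ℝ, 0 < r → r ≤ 3 * rho 0 →
        x.phi 1 r = x.VV 0 2 - 1 / 100 * Real.log (r / rho 0) := fun r h1 h2 => by
      have hn : ‖(r : ℂ)‖ = r := by rw [norm_real, Real.norm_eq_abs, abs_of_pos h1]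
      have := Pot5_phi x (j := 0) (a := 1) le_rfl le_rfl r
      rw [Prm.fb, if_pos (by rwa [hn])] at this
      exact this.trans ((hx.fl_zero_two r).trans (by rw [hn]))
    rw [e _ r0 (by linarith), e _ (by linarith) (by linarith), div_self r0.ne',
      mul_div_cancel_right₀ _ r0.ne', Real.log_one]
    have := Real.log_two_gt_d9
    intro h
    linarith

theorem pots : frm.Pots x.dat x.phi dl := hx.Pot5_pots

end InK

end Pool.Agent.MP_943ae2_gt

end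
end

section

open Set Complex Filter Finset
open scoped Topology ComplexConjugate ContDiff

noncomputable section

namespace Pool.Agent.MP_943ae2_gt

lemma gap3_core {c M κ D m s lr t loss Dt B B' : ℝ} (hsm : s ≤ m) (hm : 0 ≤ m)
    (F1 : 2 * c * M - κ * lr - t ^ 2 ≤ Dt) (F2 : -D * s - 4 * (t ^ 2 * (1 + s)) ≤ B)
    (F3 : (κ + D) * m - loss - 4 * (t ^ 2 * (1 + m)) ≤ B')
    (F4 : -c ≤ (κ - 9 * t ^ 2) * (m - lr)) (F5 : t + 9 * t ^ 2 * (1 + lr) ≤ c)
    (F6 : loss + 2 * c ≤ 2 * c * M + D * (m - s)) : t ≤ Dt + B + B' := by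
  have a1 := mul_le_mul_of_nonneg_left hsm (sq_nonneg t)
  have a2 := mul_nonneg (sq_nonneg t) hm
  linarith

lemma gap3_small (j : ℕ) {lr : ℝ} (h : lr ≤ ell (j + 1) + 1) :
    tt j + 9 * tt j ^ 2 * (1 + lr) ≤ 2 * (PP (j + 1))⁻¹ ^ 2 := by
  have ht := tt_pos j
  have hP := PP_ge j
  have hP0 : 0 < PP j := admM_PP_pos j
  have h1 := admM_PP_tt j
  have h3 := admM_pow_tt j (m := 3) (by norm_num)
  have h4 := ell_le_PP j
  have h5 : 9 * tt j * (1 + lr) ≤ 1 := by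
    have : 9 * (1 + lr) ≤ PP j := by linarith
    nlinarith
  have h6 : tt j ≤ (PP (j + 1))⁻¹ ^ 2 := by
    rw [PP_succ, inv_pow, ← one_div, le_div_iff₀ (by positivity)]
    have : 1024 * (PP j ^ 2 * tt j) ≤ PP j * (PP j ^ 2 * tt j) :=
      mul_le_mul_of_nonneg_right (by linarith) (by positivity)
    nlinarith
  nlinarith

lemma gap3_mx (j : ℕ) {z : ℂ} (hz : 0 < ‖z‖) : Real.log ‖z‖ ≤ mx j z ∧ ell j ≤ mx j z ∧
    (mx j z = Real.log ‖z‖ ∨ mx j z = ell j) := by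
  refine ⟨Real.log_le_log hz (le_max_left _ _), Real.log_le_log (rho_pos j) (le_max_right _ _), ?_⟩
  unfold mx ell
  rcases max_choice ‖z‖ (rho j) with h | h <;> rw [h]
  exacts [Or.inl rfl, Or.inr rfl]

variable {x : Prm} (hx : InK x) (he : Eqs x)
include hx he

theorem gap_int_out {j a : ℕ} (h1 : 1 ≤ a) (h2 : a < Mt j) {z : ℂ} (hz : (tt j)⁻¹ ^ 80 ≤ ‖z‖) :
    frm.Ut x.dat (CC x) (bs (j + 1) + a - 1) z + tt j ≤ frm.Ut x.dat (CC x) (bs (j + 1) + a) z := by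
  have hj : 1 ≤ j := by
    rcases Nat.eq_zero_or_pos j with rfl | h
    · rw [Mt_zero] at h2; omega
    · exact h
  have hj' : 1 ≤ j + 1 := by omega
  have hL : a < Lb (j + 1) := by rw [Lb_succ]; exact h2
  have hN : a < NN (j + 1) := by unfold NN; omega
  have hk : Lb j + a ≤ NN j := by unfold NN; omega
  have ht := tt_pos j
  have ht1 := admM_inv_one j
  have hz0 : 0 < ‖z‖ := lt_of_lt_of_le (by positivity) hz
  have ht2 : tt (j + 1) ^ 2 ≤ tt j ^ 2 :=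
    pow_le_pow_left₀ (tt_pos _).le (tt_anti (Nat.le_succ j)) 2
  obtain ⟨m1, m2, m3⟩ := gap3_mx (j + 1) hz0
  have he0 : 90000 ≤ ell j :=
    le_trans (le_mul_of_one_le_right (by norm_num) (one_le_pow₀ (by norm_num))) (ell_ge j)
  have he1 := ell_succ j
  have hs : 5 / 2 * ell j ≤ Real.log ‖z‖ := by
    have := Real.log_le_log (by positivity) hz
    rw [Real.log_pow] at this
    rw [ell_eq]
    push_cast at this
    linarith
  have hn := Mac2_nn_pos j
  have hn' := Mac2_nn_pos (j + 1)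
  have hn1 := Mac2_nn_one j
  have hn1' := Mac2_nn_one (j + 1)
  have hW := hx.Mac2_W_pos j
  have hW' := hx.Mac2_W_pos (j + 1)
  have d1 : (1 : ℝ) / (1000 * nn j) ≤ 1 / 1000 := one_div_le_one_div_of_le (by norm_num) (by linarith)
  have d2 : (1 : ℝ) / (1000 * nn (j + 1)) ≤ 1 / 1000 :=
    one_div_le_one_div_of_le (by norm_num) (by linarith)
  have l1 := abs_le.1 (hx.lr_near hj hk)
  have l2 := abs_le.1 (hx.lr_near hj' hN.le)
  have l3 := abs_le.1 (hx.log_w h1 hN)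
  have hc := hx.c_ge ⟨j + 1, a, 0, h1, hN⟩
  have F5 := (gap3_small j (lr := x.lr (j + 1) a) (by linarith)).trans hc
  have hc0 : ∀ i, 0 ≤ (x.wall (j + 1)).c i := fun i => by
    rw [x.Mac1_c]; exact div_nonneg (hx.w_nonneg _ _) hn'.le
  have hnb : (x.wall (j + 1)).c (a + 1) + (x.wall (j + 1)).c (a - 1) ≤
      4 * (x.wall (j + 1)).c a := by
    simp only [x.Mac1_c]
    rw [← add_div, ← mul_div_assoc]
    exact div_le_div_of_nonneg_right (hx.w_nb h1 hN) hn'.le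
  have hκ : x.D2 (j + 1) a = -(x.W (j + 1) / nn (j + 1) + x.D2 j (Lb j + a)) := by
    rw [x.D2_bot h1 hL, x.D2_top h1 h2, Prm.sBot, Nat.add_sub_cancel]
    ring
  have hN0 : (1 : ℝ) ≤ NN j := by exact_mod_cast (show 1 ≤ NN j by omega)
  have hN5 : (NN (j + 1) : ℝ) = 5 * NN j := by
    rw [NN_eq hj', NN_eq hj, Lb_succ, Mt_eq hj]; push_cast; ring
  have hbig := nn_big hj
  have hnn : (nn j : ℝ) ≤ nn (j + 1) := by exact_mod_cast nn_mono j
  have hN80 : 80 * (NN j : ℝ) ≤ nn j := by nlinarith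
  have hwge := hx.w_ge h1 hN
  rw [hN5, div_le_iff₀ (by positivity)] at hwge
  have hw0 := hx.w_nonneg (j + 1) a
  have hcw : (x.wall (j + 1)).c a = x.w (j + 1) a / nn (j + 1) := rfl
  -- the increment of the constants
  have F1 : 2 * (x.wall (j + 1)).c a * (x.lr (j + 1) a - Real.log (x.w (j + 1) a)) -
      x.W (j + 1) / nn (j + 1) * x.lr (j + 1) a - tt j ^ 2 ≤
      CC x (bs (j + 1) + a) - CC x (bs (j + 1) + a - 1) := by
    have e1 := CC_step he ⟨j + 1, a, 0, h1, hN⟩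
    have e2 := (abs_le.1 (hx.Dt_val h1 hN 0)).1
    have e3 : x.Oc (j + 1) a = 0 := if_neg (not_le.2 hL)
    simp only [Nk.gap] at e1
    rw [show bs (j + 1) + a - 1 + 1 = bs (j + 1) + a by omega] at e1
    rw [e3, x.Ds_eq, x.Mac1_g, hκ] at e2
    have p1 := mul_nonneg (hc0 (a - 1)) (Real.log_nonneg
      (le_add_of_nonneg_right (Real.exp_pos ((x.wall (j + 1)).y (nn (j + 1)) (a - 1))).le))
    have p2 := mul_nonneg (hc0 (a + 1)) (Real.log_nonneg
      (le_add_of_nonneg_right (Real.exp_pos (-(x.wall (j + 1)).y (nn (j + 1)) a)).le))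
    rw [e1]
    linarith
  have F2 : -x.D2 j (Lb j + a) * Real.log ‖z‖ - 4 * (tt j ^ 2 * (1 + Real.log ‖z‖)) ≤
      x.Br j (Lb j + a) z := by
    have hz' : (tt j)⁻¹ ^ 40 ≤ ‖z‖ := (pow_le_pow_right₀ ht1 (by norm_num)).trans hz
    have g1 := (abs_le.1 (hx.G_out true j (Lb j + a) hz')).1
    have g2 := (abs_le.1 (hx.G_out false j (Lb j + a) hz')).1
    have g3 := (abs_le.1 (hx.G_out false j (Lb j + a + 1) hz')).2
    have g4 := (abs_le.1 (hx.G_out true j (Lb j + a - 1) hz')).2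
    unfold Prm.Br Prm.D2
    linarith
  have F3 : ∀ q : ℝ, (∀ s, x.w (j + 1) a * mx (j + 1) z - q -
      tt (j + 1) ^ 2 * (1 + mx (j + 1) z) ≤ x.G s (j + 1) a z) →
      (x.W (j + 1) / nn (j + 1) + x.D2 j (Lb j + a)) * mx (j + 1) z -
        (2 * q + 24 * (x.wall (j + 1)).c a) - 4 * (tt j ^ 2 * (1 + mx (j + 1) z)) ≤
        x.Br (j + 1) a z := by
    intro q hq
    have g1 := hq true
    have g2 := hq false
    have g3 := hx.G_up false (j + 1) (a + 1) z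
    have g4 := hx.G_up true (j + 1) (a - 1) z
    have g5 := mul_le_mul_of_nonneg_right ht2 (show 0 ≤ 1 + mx (j + 1) z by linarith)
    rw [← neg_neg (x.W (j + 1) / nn (j + 1) + x.D2 j (Lb j + a)), ← hκ]
    unfold Prm.Br Prm.D2
    linarith
  have hlr : 0 ≤ x.lr (j + 1) a := by linarith
  have ht9 : 9 * tt j ^ 2 ≤ (x.wall (j + 1)).c a := by
    have := mul_nonneg (sq_nonneg (tt j)) hlr
    linarith
  have F4 : -(x.wall (j + 1)).c a ≤
      (x.W (j + 1) / nn (j + 1) - 9 * tt j ^ 2) * (mx (j + 1) z - x.lr (j + 1) a) := by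
    have k1 : (x.wall (j + 1)).c a ≤ x.W (j + 1) / nn (j + 1) :=
      div_le_div_of_nonneg_right (hx.w_le _ _) hn'.le
    have k2 : x.W (j + 1) / nn (j + 1) * (1 / (1000 * nn (j + 1))) ≤ (x.wall (j + 1)).c a := by
      rw [hcw, div_mul_eq_mul_div]
      refine div_le_div_of_nonneg_right ?_ hn'.le
      rw [mul_one_div, div_le_iff₀ (by positivity)]
      exact hwge.trans (mul_le_mul_of_nonneg_left (by linarith) hw0)
    have k3 := mul_le_mul_of_nonneg_left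
      (show -(1 / (1000 * nn (j + 1) : ℝ)) ≤ mx (j + 1) z - x.lr (j + 1) a by linarith)
      (show 0 ≤ x.W (j + 1) / nn (j + 1) - 9 * tt j ^ 2 by linarith)
    have k4 : 0 ≤ tt j ^ 2 * (1 / (1000 * nn (j + 1) : ℝ)) := by positivity
    linarith
  have hM : 999 / 1000 * ell (j + 1) - 1 / 1000 ≤ x.lr (j + 1) a - Real.log (x.w (j + 1) a) := by
    linarith
  have hcM := mul_le_mul_of_nonneg_left hM (hc0 a)
  have hce := mul_le_mul_of_nonneg_left he0 (hc0 a)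
  have hc1 := hc0 a
  rw [← le_sub_iff_add_le', gap_int x _ h1 h2]
  by_cases hmid : ‖z‖ ≤ rho (j + 1) * Real.exp (-2 / nn (j + 1)) ∨
      rho (j + 1) * Real.exp (2 / nn (j + 1)) ≤ ‖z‖
  · refine gap3_core m1 (by linarith) F1 F2 (F3 _ fun s => hx.G_mid s hj' a hmid) F4 F5 ?_
    have b1 := D2_lo hx he h1 h2
    have b2 : 51 / 100 * (-(2 * (x.wall (j + 1)).c a *
        (x.lr (j + 1) a - Real.log (x.w (j + 1) a) + 2)) - 2 * tt j ^ 2) ≤
        x.D2 j (Lb j + a) * (mx (j + 1) z - Real.log ‖z‖) := by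
      rcases le_total 0 (x.D2 j (Lb j + a)) with h | h
      · have := mul_nonneg h (sub_nonneg.2 m1)
        rw [he1] at hcM
        nlinarith [sq_nonneg (tt j)]
      · have : mx (j + 1) z - Real.log ‖z‖ ≤
            51 / 100 * (x.lr (j + 1) a - x.lr j (Lb j + a)) := by
          rcases m3 with h | h <;> linarith
        have := mul_le_mul_of_nonpos_left this h
        linarith
    rw [he1] at hcM
    linarith
  · refine gap3_core m1 (by linarith) F1 F2 (F3 _ fun s => hx.G_lo s hj' a z) F4 F5 ?_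
    have b1 : ell (j + 1) - 2 / nn (j + 1) ≤ Real.log ‖z‖ := by
      have := Real.log_le_log (mul_pos (rho_pos _) (Real.exp_pos _)) (not_le.1 (not_or.1 hmid).1).le
      rw [Real.log_mul (rho_pos _).ne' (Real.exp_pos _).ne', Real.log_exp, neg_div] at this
      exact this
    have b2 : mx (j + 1) z - Real.log ‖z‖ ≤ 2 / nn (j + 1) := by
      have : (0 : ℝ) ≤ 2 / nn (j + 1) := by positivity
      rcases m3 with h | h <;> linarith
    have b3 : -(8 * x.W j / nn j) ≤ x.D2 j (Lb j + a) := by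
      rw [x.D2_top h1 h2]
      exact (abs_le.1 (hx.sTop_le j a)).1
    have b4 : 8 * x.W j / nn j * (2 / nn (j + 1)) ≤ (x.wall (j + 1)).c a := by
      rw [hcw, ← mul_div_assoc]
      refine div_le_div_of_nonneg_right ?_ hn'.le
      rw [div_mul_eq_mul_div, div_le_iff₀ hn]
      have := mul_le_mul_of_nonneg_left hN80 hw0
      have := (hx.W_succ j).1
      linarith
    have b5 := mul_le_mul_of_nonneg_right b3 (sub_nonneg.2 m1)
    have b6 := mul_le_mul_of_nonneg_left b2 (show 0 ≤ 8 * x.W j / nn j by positivity)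
    rw [he1] at hcM ⊢
    linarith

end Pool.Agent.MP_943ae2_gt

end
end

section

open Set Complex Filter Finset
open scoped Topology ComplexConjugate ContDiff

noncomputable section

namespace Pool.Agent.MP_943ae2_gt

lemma Gap5_G_out (x : Prm) (s : Bool) {j k : ℕ} (h : k = 0 ∨ NN j ≤ k) (z : ℂ) :
    x.G s j k z = 0 := by
  unfold Prm.G ringSum
  rw [dif_neg (by omega)]

lemma Gap5_mx_ge (j : ℕ) (z : ℂ) : ell j ≤ mx j z :=
  Real.log_le_log (rho_pos j) (le_max_right _ _)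

lemma Gap5_ell_pos (j : ℕ) : 0 < ell j := lt_of_lt_of_le (by positivity) (ell_ge j)

lemma Gap5_sq (j : ℕ) : tt j ^ 2 ≤ 1 / 10 ^ 6 := by
  have h1 := tt_le j
  have h2 := tt_pos j
  nlinarith

lemma Gap5_T {j a : ℕ} (h1 : 1 ≤ a) : frm.T (bs (j + 1) + a - 1 - 1) ^ 5 ≤ tt j := by
  change tt (lev (bs (j + 1) + a - 1 - 1)) ^ 5 ≤ tt j
  rcases j with _ | j
  · have h2 := tt_anti (Nat.zero_le (lev (bs (0 + 1) + a - 1 - 1)))
    exact (pow_le_of_le_one (tt_pos _).le (admM_tt_one _) (by norm_num)).trans h2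
  · have h2 : lev (bs (j + 1) + Mt j - 1) = j := lev_block (Mt_pos j) le_rfl
    have h3 : bs (j + 1 + 1) = bs (j + 1) + Mt j := rfl
    have h4 : j ≤ lev (bs (j + 1 + 1) + a - 1 - 1) := by
      rw [← h2]
      conv_rhs => rw [h2]
      exact lev_mono (by omega)
    have h5 := tt_anti h4
    have h6 := tt_pos (lev (bs (j + 1 + 1) + a - 1 - 1))
    rw [tt_succ]
    calc _ ≤ tt j ^ 5 := by gcongr
      _ ≤ tt j ^ 4 := pow_le_pow_of_le_one (tt_pos j).le (admM_tt_one j) (by norm_num)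

variable {x : Prm} (hx : InK x) (he : Eqs x)
include hx he

theorem gap_first (z : ℂ) : frm.Ut x.dat (CC x) 0 z + 1 ≤ frm.Ut x.dat (CC x) 1 z := by
  have h0 := gap_zero x (CC x) z
  have hN : 1 < NN 0 := by rw [NN_zero]; norm_num
  have h1 : CC x 1 - CC x 0 = x.Dt 0 1 0 := CC_step he ⟨0, 1, 0, le_rfl, hN⟩
  have h2 := (abs_le.1 (hx.Dt_val (j := 0) (k := 1) le_rfl hN 0)).1
  have h3 : x.Oc 0 1 = x.w 1 1 * ell 1 := x.Oc_L 0
  have h4 : x.w 1 1 = x.W 1 := x.w_L 1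
  have h5 : 33 / 20 * 1 ≤ x.W 1 ∧ x.W 1 ≤ 17 / 10 * 1 := hx.W_succ 0
  rw [x.Ds_zero, h3, h4] at h2
  have h6 : x.Br 0 1 z = x.G true 0 1 z + x.G false 0 1 z := by
    unfold Prm.Br
    rw [Gap5_G_out x false (j := 0) (k := 1 + 1) (Or.inr (by rw [NN_zero])),
      Gap5_G_out x true (j := 0) (k := 1 - 1) (Or.inl rfl)]
    ring
  have h7 : x.Br 1 0 z = -x.G false 1 1 z := by
    unfold Prm.Br
    rw [Gap5_G_out x true (j := 1) (k := 0) (Or.inl rfl),
      Gap5_G_out x false (j := 1) (k := 0) (Or.inl rfl)]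
    ring
  have h8 := hx.G_ctr true z
  have h9 := hx.G_ctr false z
  have h10 := hx.G_up false 1 1 z
  have h11 : (x.wall 1).c 1 ≤ 2 := by
    rw [x.Mac1_c, h4]
    have := admM_nn_pos 1
    rw [div_le_iff₀ (by positivity)]
    linarith [h5.2]
  rw [h4] at h10
  have s0 := Gap5_sq 0
  have s1 := Gap5_sq 1
  have p1 : 0 ≤ tt 1 ^ 2 := by positivity
  have e0 : 90000 ≤ ell 0 := by simpa using ell_ge 0
  have e1 : ell 1 = 4 * ell 0 := ell_succ 0
  have m1 := Gap5_mx_ge 1 z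
  have ht := inv_pos.2 (tt_pos 0)
  set M := Real.log (max ‖z‖ ((tt 0)⁻¹ ^ 12)) with hM
  have hM1 : 3 / 8 * ell 0 ≤ M := by
    have : Real.log ((tt 0)⁻¹ ^ 12) ≤ M := Real.log_le_log (by positivity) (le_max_right _ _)
    rw [Real.log_pow] at this
    rw [ell_eq]
    push_cast at this
    linarith
  have q1 : tt 1 ^ 2 * (1 + mx 1 z) ≤ 1 / 10 ^ 6 * (1 + mx 1 z) :=
    mul_le_mul_of_nonneg_right s1 (by linarith)
  rw [h1, h6, h7] at h0
  rcases le_total ‖z‖ (rho 1) with hz | hz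
  · have m2 : mx 1 z = ell 1 := by unfold mx ell; rw [max_eq_right hz]
    rw [m2] at h10 q1
    linarith
  · have m2 : mx 1 z ≤ M := by
      unfold mx
      rw [max_eq_left hz]
      exact Real.log_le_log (lt_of_lt_of_le (rho_pos 1) hz) (le_max_left _ _)
    have q2 : x.W 1 * mx 1 z ≤ 17 / 10 * mx 1 z :=
      mul_le_mul_of_nonneg_right (by linarith [h5.2]) (by linarith)
    have q3 : 1 * ell 1 ≤ x.W 1 * ell 1 :=
      mul_le_mul_of_nonneg_right (by linarith [h5.1]) (by linarith)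
    linarith

lemma Gap5_gap (k : ℕ) (z : ℂ) :
    frm.Ut x.dat (CC x) k z + frm.T (k - 1) ^ 5 ≤ frm.Ut x.dat (CC x) (k + 1) z := by
  rcases layer_cases k with rfl | ⟨j, a, h1, h2, rfl⟩
  · have h := gap_first hx he z
    have h3 : frm.T (0 - 1) ^ 5 ≤ 1 := pow_le_one₀ (tt_pos _).le (admM_tt_one _)
    simp only [zero_add]
    linarith
  · have h3 := Gap5_T (j := j) h1
    have h4 : bs (j + 1) + a - 1 + 1 = bs (j + 1) + a := by omega
    rw [h4]
    rcases lt_or_eq_of_le h2 with h5 | rfl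
    · rcases le_total ‖z‖ ((tt j)⁻¹ ^ 80) with hz | hz
      · linarith [gap_int_in hx he h1 h5 hz]
      · linarith [gap_int_out hx he h1 h5 hz]
    · have h6 : bs (j + 1) + Mt j = bs (j + 2) := rfl
      rw [h6] at h3 ⊢
      rcases le_total ‖z‖ ((tt j)⁻¹ ^ 80) with hz | hz
      · linarith [gap_face_in hx he j hz, admM_tt_one j]
      · rcases le_total ‖z‖ ((tt (j + 1))⁻¹ ^ 80) with hz' | hz'
        · linarith [gap_face_mid hx he j hz hz']
        · linarith [gap_face_out hx he j hz']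

lemma Gap5_mono (z : ℂ) : Monotone fun k => frm.Ut x.dat (CC x) k z :=
  monotone_nat_of_le_succ fun k => by
    have h1 := Gap5_gap hx he k z
    have h2 : 0 ≤ frm.T (k - 1) ^ 5 := pow_nonneg (tt_pos _).le _
    linarith

omit he in
lemma Gap5_base {r : ℝ} {z : ℂ} (hz : ‖z‖ ≤ r) :
    -(2 * Real.log (max r (rho 0)) + 7) ≤ frm.Ut x.dat (CC x) 0 z := by
  rw [Ut_zero]
  have h1 := hx.G_up false 0 1 z
  have h2 : x.w 0 1 = 1 := x.w_L 0
  have h3 : (x.wall 0).c 1 = 1 := by rw [x.Mac1_c, h2, nn_zero]; norm_num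
  have h4 : mx 0 z ≤ Real.log (max r (rho 0)) :=
    Real.log_le_log (lt_of_lt_of_le (rho_pos 0) (le_max_right _ _)) (max_le_max hz le_rfl)
  have h5 := Gap5_mx_ge 0 z
  have h6 := Gap5_ell_pos 0
  have h7 : tt 0 ^ 2 * (1 + mx 0 z) ≤ 1 * (1 + mx 0 z) :=
    mul_le_mul_of_nonneg_right ((Gap5_sq 0).trans (by norm_num)) (by linarith)
  have h8 : CC x 0 = 0 := rfl
  rw [h2, h3] at h1
  linarith

lemma Gap5_climb {r : ℝ} {J : ℕ} (hJ : ∀ j, J ≤ j → r ≤ rho j) {z : ℂ} (hz : ‖z‖ ≤ r) (m : ℕ) :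
    frm.Ut x.dat (CC x) 0 z + m ≤ frm.Ut x.dat (CC x) (bs (J + m + 1)) z := by
  induction m with
  | zero => simpa using Gap5_mono hx he z (Nat.zero_le _)
  | succ m ih =>
    have h1 : ‖z‖ ≤ (tt (J + m))⁻¹ ^ 80 :=
      (hz.trans (hJ (J + m) (by omega))).trans (pow_le_pow_right₀ (admM_inv_one _) (by norm_num))
    have h2 := gap_face_in hx he (J + m) h1
    have h3 : bs (J + m + 1) ≤ bs (J + m + 2) - 1 := by
      have h4 : bs (J + m + 2) = bs (J + m + 1) + Lb (J + m + 1) := rfl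
      have := Lb_pos (J + m + 1)
      omega
    have h5 : frm.Ut x.dat (CC x) (bs (J + m + 1)) z ≤ frm.Ut x.dat (CC x) (bs (J + m + 2) - 1) z :=
      Gap5_mono hx he z h3
    have h6 : J + (m + 1) + 1 = J + m + 2 := rfl
    rw [h6]
    push_cast
    linarith

theorem Eqs_ord : frm.Ord x.dat (CC x) where
  gap := Gap5_gap hx he
  up r A := by
    obtain ⟨J, hJ⟩ := eventually_atTop.1 (rho_tendsto.eventually_ge_atTop r)
    obtain ⟨m, hm⟩ := exists_nat_ge (A + (2 * Real.log (max r (rho 0)) + 7))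
    refine ⟨bs (J + m + 1), fun k hk z hz => ?_⟩
    have h1 := Gap5_climb hx he hJ hz m
    have h2 := Gap5_base hx hz
    have h3 : frm.Ut x.dat (CC x) (bs (J + m + 1)) z ≤ frm.Ut x.dat (CC x) k z :=
      Gap5_mono hx he z hk
    linarith

end Pool.Agent.MP_943ae2_gt

end
end

section

open Set Complex Filter Finset
open scoped Topology ComplexConjugate ContDiff

noncomputable section

namespace Pool.Agent.MP_943ae2_gt

theorem final : Final := by
  obtain ⟨x, hx, he⟩ := exists_eqs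
  exact hx.adm.final (he.sol hx) (Eqs_ord hx he) hx.pots

end Pool.Agent.MP_943ae2_gt

end
end
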